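import Pool.Agent.W_b5ab1bf_h80.ANil

/-!
# Derivations of commutative algebras with nondegenerate trace form (helper80)
-/

set_option autoImplicit false

noncomputable section

namespace Pool.Agent.Wb5ab1bf

variable {K : Type} [Field K] {V : Type} [AddCommGroup V] [Module K V]

/-- Dual bases for the trace form of `V` on a commutative subalgebra `A` on which it is nondegenerate:
`z 1, ..., z n` a basis of `A`, `z' a` the dual basis; `c := ∑ z a * z' a` is invertible in `A`.

Proof. `A` is finite-dimensional. The form `(a, b) ↦ trace (a * b)` on `A` is symmetric and nondegenerate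
(`hnd`), let `z` be a basis and `z'` its dual basis (`LinearMap.BilinForm.dualBasis`):
`trace (z a * z' b) = if a = b then 1 else 0`, `x = ∑ trace (x * z' a) • z a = ∑ trace (x * z a) • z' a`.
`c` is not a zero divisor: let `x ∈ A`, `x * c = 0`. For `y ∈ A` the trace of the multiplication by `x * y` on
`A` is `∑ trace_V (x * y * z a * z' a) = trace_V (x * y * c) = 0`. With `y = x^(n-1)`: all the powers `x^n`,
`n ≥ 1`, have multiplication trace `0`, so the multiplication by `x` is nilpotent on `A`
(`isNilpotent_of_trace` for the space `A`; or via `Algebra.trace`), `x` is nilpotent, and then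
`trace_V (x * y) = 0` for all `y ∈ A` (`x * y` is nilpotent), so `x = 0` by `hnd`. As `A` is
finite-dimensional, multiplication by `c` is bijective on `A`. -/
theorem et_basis [CharZero K] [FiniteDimensional K V] (A : Subalgebra K (Module.End K V))
    (hcomm : ∀ x ∈ A, ∀ y ∈ A, x * y = y * x)
    (hnd : ∀ x ∈ A, (∀ y ∈ A, LinearMap.trace K V (x * y) = 0) → x = 0) :
    ∃ (n : ℕ) (z z' : Fin n → Module.End K V) (c' : Module.End K V),
      (∀ a, z a ∈ A) ∧ (∀ a, z' a ∈ A) ∧ c' ∈ A ∧ (∑ a, z a * z' a) * c' = 1 ∧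
      (∀ x ∈ A, x = ∑ a, LinearMap.trace K V (x * z' a) • z a) ∧
      (∀ x ∈ A, x = ∑ a, LinearMap.trace K V (x * z a) • z' a) := by
  classical
  let B : LinearMap.BilinForm K A :=
    LinearMap.mk₂ K (fun a b => LinearMap.trace K V ((a : Module.End K V) * (b : Module.End K V)))
      (fun a a' b => by
        rw [Subalgebra.coe_add, add_mul, map_add])
      (fun c a b => by
        rw [Subalgebra.coe_smul, smul_mul_assoc, map_smul])
      (fun a b b' => by
        rw [Subalgebra.coe_add, mul_add, map_add])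
      (fun c a b => by
        rw [Subalgebra.coe_smul, mul_smul_comm, map_smul])
  have hBa : ∀ a b : A, B a b = LinearMap.trace K V ((a : Module.End K V) * (b : Module.End K V)) :=
    fun a b => rfl
  have hsym : ∀ a b : A, B a b = B b a := by
    intro a b
    rw [hBa, hBa, LinearMap.trace_mul_comm]
  have hnd' : ∀ a : A, (∀ b : A, B a b = 0) → a = 0 := by
    intro a ha
    refine Subtype.ext (hnd a a.2 fun y hy => ?_)
    exact ha ⟨y, hy⟩
  have hB : B.Nondegenerate :=
    ⟨hnd', fun a ha => hnd' a fun b => by rw [hsym]; exact ha b⟩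
  let z := Module.finBasis K A
  let z' := B.dualBasis hB z
  have f2 : ∀ x : A, x = ∑ a, B x (z a) • z' a := by
    intro x
    conv_lhs => rw [← z'.sum_repr x]
    refine Finset.sum_congr rfl fun a _ => ?_
    rw [LinearMap.BilinForm.dualBasis_repr_apply]
  have hz'z : ∀ i j, B (z' i) (z j) = if j = i then 1 else 0 := fun i j =>
    LinearMap.BilinForm.apply_dualBasis_left hB z i j
  have hrepr : ∀ (x : A) i, z.repr x i = B x (z' i) := by
    intro x i
    rw [hsym]
    conv_rhs => rw [← z.sum_repr x]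
    rw [map_sum, Finset.sum_eq_single i]
    · rw [map_smul, hz'z, if_pos rfl, smul_eq_mul, mul_one]
    · intro j _ hj
      rw [map_smul, hz'z, if_neg hj, smul_zero]
    · intro h
      exact absurd (Finset.mem_univ i) h
  have f1 : ∀ x : A, x = ∑ a, B x (z' a) • z a := by
    intro x
    conv_lhs => rw [← z.sum_repr x]
    refine Finset.sum_congr rfl fun a _ => ?_
    rw [hrepr]
  let c : A := ∑ a, z a * z' a
  have htr : ∀ w : A, LinearMap.trace K A (LinearMap.mulLeft K w) =
      LinearMap.trace K V ((w : Module.End K V) * (c : Module.End K V)) := by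
    intro w
    rw [LinearMap.trace_eq_matrix_trace K z, Matrix.trace]
    have h1 : (w : Module.End K V) * (c : Module.End K V) =
        ∑ a, ((w * z a : A) : Module.End K V) * (z' a : Module.End K V) := by
      have h2 : w * c = ∑ a, w * z a * z' a := by
        rw [Finset.mul_sum]
        exact Finset.sum_congr rfl fun a _ => (mul_assoc _ _ _).symm
      have h3 := congrArg (Subtype.val : A → Module.End K V) h2
      rw [Subalgebra.coe_mul] at h3
      rw [h3]
      exact map_sum A.val _ _
    rw [h1, map_sum]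
    refine Finset.sum_congr rfl fun a _ => ?_
    rw [Matrix.diag_apply, LinearMap.toMatrix_apply, LinearMap.mulLeft_apply, hrepr, hBa]
  have hcA : ∀ x y : A, x * y = y * x := fun x y => Subtype.ext (hcomm x x.2 y y.2)
  have hinj : ∀ x : A, x * c = 0 → x = 0 := by
    intro x hx
    have h1 : ∀ n : ℕ, 0 < n → LinearMap.trace K A ((LinearMap.mulLeft K x) ^ n) = 0 := by
      intro n hn
      obtain ⟨m, rfl⟩ : ∃ m, n = m + 1 := ⟨n - 1, by omega⟩
      rw [LinearMap.pow_mulLeft, htr]
      have h2 : x ^ (m + 1) * c = 0 := by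
        rw [pow_succ, mul_assoc, hx, mul_zero]
      have h3 := congrArg (Subtype.val : A → Module.End K V) h2
      rw [Subalgebra.coe_mul] at h3
      rw [h3]
      exact map_zero _
    obtain ⟨n, hn⟩ := isNilpotent_of_trace _ h1
    have hxn : x ^ n = 0 := by
      rw [LinearMap.pow_mulLeft] at hn
      have := LinearMap.congr_fun hn 1
      rwa [LinearMap.mulLeft_apply, mul_one] at this
    refine hnd' x fun b => ?_
    rw [hBa]
    have h4 : IsNilpotent ((x : Module.End K V) * (b : Module.End K V)) := by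
      refine ⟨n, ?_⟩
      have h5 : (x * b) ^ n = 0 := by
        rw [(show Commute x b from hcA x b).mul_pow, hxn, zero_mul]
      have h6 := congrArg (Subtype.val : A → Module.End K V) h5
      rwa [Subalgebra.coe_pow, Subalgebra.coe_mul] at h6
    exact (LinearMap.isNilpotent_trace_of_isNilpotent h4).eq_zero
  have hinj' : Function.Injective (LinearMap.mulLeft K c : A →ₗ[K] A) := by
    rw [injective_iff_map_eq_zero]
    intro x hx
    refine hinj x ?_
    rwa [hcA]
  obtain ⟨c', hc'⟩ := (LinearMap.injective_iff_surjective.1 hinj') 1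
  rw [LinearMap.mulLeft_apply] at hc'
  refine ⟨Module.finrank K A, fun a => z a, fun a => z' a, c', fun a => (z a).2, fun a => (z' a).2,
    c'.2, ?_, ?_, ?_⟩
  · have h1 := congrArg (Subtype.val : A → Module.End K V) hc'
    rw [Subalgebra.coe_mul] at h1
    have h2 : (c : Module.End K V) = ∑ a, (z a : Module.End K V) * (z' a : Module.End K V) :=
      map_sum A.val _ _
    rw [h2] at h1
    exact h1
  · intro x hx
    have h1 := congrArg (Subtype.val : A → Module.End K V) (f1 ⟨x, hx⟩)
    exact h1.trans (map_sum A.val _ _)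
  · intro x hx
    have h1 := congrArg (Subtype.val : A → Module.End K V) (f2 ⟨x, hx⟩)
    exact h1.trans (map_sum A.val _ _)

/-- The common computation of `et_mod` and `et_zero`. -/
theorem AEt.main {A : Subalgebra K (Module.End K V)}
    (hcomm : ∀ x ∈ A, ∀ y ∈ A, x * y = y * x) {n : ℕ} {z z' : Fin n → Module.End K V}
    {c' : Module.End K V} (hz : ∀ a, z a ∈ A) (hz' : ∀ a, z' a ∈ A) (hc' : c' ∈ A)
    (hcc : (∑ a, z a * z' a) * c' = 1)
    (h1 : ∀ x ∈ A, x = ∑ a, LinearMap.trace K V (x * z' a) • z a)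
    (h2 : ∀ x ∈ A, x = ∑ a, LinearMap.trace K V (x * z a) • z' a)
    (M : Submodule K (Module.End K V)) (hM : ∀ m ∈ M, ∀ a ∈ A, m * a ∈ M)
    (f : Module.End K V → Module.End K V)
    (hadd : ∀ x ∈ A, ∀ y ∈ A, f (x + y) - f x - f y ∈ M)
    (hsmul : ∀ c : K, ∀ x ∈ A, f (c • x) - c • f x ∈ M)
    (hmul : ∀ x ∈ A, ∀ y ∈ A, f (x * y) - f x * y - x * f y ∈ M)
    (x : Module.End K V) (hx : x ∈ A) :
    f x - (((∑ a, f (z a) * z' a) * c') * x - x * ((∑ a, f (z a) * z' a) * c')) ∈ M := by
  classical
  have hlin : ∀ (s : Finset (Fin n)) (c : Fin n → K),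
      f (∑ b ∈ s, c b • z b) - ∑ b ∈ s, c b • f (z b) ∈ M := by
    intro s c
    induction s using Finset.induction_on with
    | empty =>
      rw [Finset.sum_empty, Finset.sum_empty, sub_zero]
      have h := hadd 0 (zero_mem _) 0 (zero_mem _)
      rw [add_zero, sub_self, zero_sub] at h
      exact (Submodule.neg_mem_iff _).1 h
    | insert b s hb ih =>
      rw [Finset.sum_insert hb, Finset.sum_insert hb]
      have hmem : ∑ b ∈ s, c b • z b ∈ A := sum_mem fun b _ => A.smul_mem (hz b) _
      have e : f (c b • z b + ∑ b ∈ s, c b • z b) - (c b • f (z b) + ∑ b ∈ s, c b • f (z b)) =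
          (f (c b • z b + ∑ b ∈ s, c b • z b) - f (c b • z b) - f (∑ b ∈ s, c b • z b)) +
          ((f (c b • z b) - c b • f (z b)) + (f (∑ b ∈ s, c b • z b) - ∑ b ∈ s, c b • f (z b))) := by
        abel
      rw [e]
      exact add_mem (hadd _ (A.smul_mem (hz b) _) _ hmem) (add_mem (hsmul _ _ (hz b)) ih)
  set B₀ := ∑ a, f (z a) * z' a with hB₀
  set c := ∑ a, z a * z' a with hc
  have key : x * B₀ - (B₀ * x - f x * c) ∈ M := by
    have e1 : ∀ a, x * (f (z a) * z' a) - (f (x * z a) * z' a - f x * (z a * z' a)) ∈ M := by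
      intro a
      have e : x * (f (z a) * z' a) - (f (x * z a) * z' a - f x * (z a * z' a)) =
          -((f (x * z a) - f x * z a - x * f (z a)) * z' a) := by
        noncomm_ring
      rw [e]
      exact Submodule.neg_mem _ (hM _ (hmul x hx _ (hz a)) _ (hz' a))
    have e2 : ∀ a, f (x * z a) * z' a -
        ∑ b, LinearMap.trace K V (x * z a * z' b) • (f (z b) * z' a) ∈ M := by
      intro a
      have hm := h1 (x * z a) (mul_mem hx (hz a))
      have h3 := hM _ (hlin Finset.univ fun b => LinearMap.trace K V (x * z a * z' b)) _ (hz' a)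
      rw [← hm, sub_mul, Finset.sum_mul] at h3
      simp only [smul_mul_assoc] at h3
      exact h3
    have e3 : ∑ a, ∑ b, LinearMap.trace K V (x * z a * z' b) • (f (z b) * z' a) = B₀ * x := by
      rw [Finset.sum_comm, hB₀, Finset.sum_mul]
      refine Finset.sum_congr rfl fun b _ => ?_
      have hm := h2 (x * z' b) (mul_mem hx (hz' b))
      have e4 : f (z b) * z' b * x = f (z b) * (x * z' b) := by
        rw [mul_assoc, hcomm _ (hz' b) _ hx]
      rw [e4]
      conv_rhs => rw [hm]
      rw [Finset.mul_sum]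
      refine Finset.sum_congr rfl fun a _ => ?_
      have e5 : x * z a * z' b = x * z' b * z a := by
        rw [mul_assoc, mul_assoc, hcomm _ (hz a) _ (hz' b)]
      rw [e5, mul_smul_comm]
    have e6 : x * B₀ - (B₀ * x - f x * c) =
        ∑ a, (x * (f (z a) * z' a) - (f (x * z a) * z' a - f x * (z a * z' a))) +
        ∑ a, (f (x * z a) * z' a -
          ∑ b, LinearMap.trace K V (x * z a * z' b) • (f (z b) * z' a)) := by
      rw [Finset.sum_sub_distrib, Finset.sum_sub_distrib, Finset.sum_sub_distrib, e3,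
        ← Finset.mul_sum, ← Finset.mul_sum, ← hB₀, ← hc]
      abel
    rw [e6]
    exact add_mem (sum_mem fun a _ => e1 a) (sum_mem fun a _ => e2 a)
  have e7 : f x - ((B₀ * c') * x - x * (B₀ * c')) =
      (x * B₀ - (B₀ * x - f x * c)) * c' := by
    have e8 : B₀ * c' * x = B₀ * x * c' := by
      rw [mul_assoc, mul_assoc, hcomm _ hc' _ hx]
    have e9 : f x = f x * c * c' := by
      rw [mul_assoc, hcc, mul_one]
    rw [e8]
    conv_lhs => rw [e9]
    noncomm_ring
  rw [e7]
  exact hM _ key _ hc'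

/-- A derivation of `A` modulo `A` with values in `Module.End K V` is inner modulo `A`.

Proof. With `et_basis`, `c := ∑ z a * z' a`, `B₀ := ∑ f (z a) * z' a`. All the congruences are modulo `A`, and
`A * A ≤ A`. For `x ∈ A`: `x B₀ = ∑ x f(z a) z' a ≡ ∑ (f (x * z a) - f x * z a) z' a` (by `hmul`), and
`∑ f (x * z a) z' a ≡ ∑_a ∑_b trace (x * z a * z' b) f(z b) z' a = ∑_b f(z b) (∑_a trace (x z' b z a) z' a) =
∑_b f(z b) * (x * z' b) = B₀ x` (commutativity). So `x B₀ ≡ B₀ x - f(x) c`, that is
`f(x) c ≡ B₀ x - x B₀`, and with `B := B₀ * c'`: `f(x) ≡ B x - x B`. -/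
theorem et_mod [CharZero K] [FiniteDimensional K V] (A : Subalgebra K (Module.End K V))
    (hcomm : ∀ x ∈ A, ∀ y ∈ A, x * y = y * x)
    (hnd : ∀ x ∈ A, (∀ y ∈ A, LinearMap.trace K V (x * y) = 0) → x = 0)
    (f : Module.End K V → Module.End K V)
    (hadd : ∀ x ∈ A, ∀ y ∈ A, f (x + y) - f x - f y ∈ A)
    (hsmul : ∀ c : K, ∀ x ∈ A, f (c • x) - c • f x ∈ A)
    (hmul : ∀ x ∈ A, ∀ y ∈ A, f (x * y) - f x * y - x * f y ∈ A) :
    ∃ B : Module.End K V, ∀ x ∈ A, f x - (B * x - x * B) ∈ A := by
  obtain ⟨n, z, z', c', hz, hz', hc', hcc, h1, h2⟩ := et_basis A hcomm hnd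
  refine ⟨(∑ a, f (z a) * z' a) * c', fun x hx => ?_⟩
  exact AEt.main hcomm hz hz' hc' hcc h1 h2 (Subalgebra.toSubmodule A)
    (fun m hm a ha => A.mul_mem hm ha) f hadd hsmul hmul x hx

/-- A linear derivation `A → A` is zero.

Proof. The same computation, now exact: `f(x) c = B₀ x - x B₀` with `B₀ = ∑ f (z a) * z' a ∈ A`, so
`f(x) c = 0` and `f x = f(x) c c' = 0`. -/
theorem et_zero [CharZero K] [FiniteDimensional K V] (A : Subalgebra K (Module.End K V))
    (hcomm : ∀ x ∈ A, ∀ y ∈ A, x * y = y * x)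
    (hnd : ∀ x ∈ A, (∀ y ∈ A, LinearMap.trace K V (x * y) = 0) → x = 0)
    (f : Module.End K V → Module.End K V) (hf : ∀ x ∈ A, f x ∈ A)
    (hadd : ∀ x ∈ A, ∀ y ∈ A, f (x + y) = f x + f y)
    (hsmul : ∀ c : K, ∀ x ∈ A, f (c • x) = c • f x)
    (hmul : ∀ x ∈ A, ∀ y ∈ A, f (x * y) = f x * y + x * f y) (x : Module.End K V) (hx : x ∈ A) :
    f x = 0 := by
  obtain ⟨n, z, z', c', hz, hz', hc', hcc, h1, h2⟩ := et_basis A hcomm hnd
  have h3 := AEt.main hcomm hz hz' hc' hcc h1 h2 ⊥
    (fun m hm a _ => by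
      rw [(Submodule.mem_bot K).1 hm, zero_mul]
      exact zero_mem _) f
    (fun x hx y hy => by
      rw [hadd x hx y hy, Submodule.mem_bot]
      abel)
    (fun c x hx => by
      rw [hsmul c x hx, sub_self]
      exact zero_mem _)
    (fun x hx y hy => by
      rw [hmul x hx y hy, Submodule.mem_bot]
      abel) x hx
  have hB : (∑ a, f (z a) * z' a) * c' ∈ A :=
    mul_mem (sum_mem fun a _ => mul_mem (hf _ (hz a)) (hz' a)) hc'
  rw [hcomm _ hB _ hx, sub_self, sub_zero] at h3
  exact (Submodule.mem_bot K).1 h3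

end Pool.Agent.Wb5ab1bf
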