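import Mathlib

/-!
# Difference systems with parameters: definitions (helper80)

* `DField k K`: a field `K` with an automorphism `θ`, derivations `δ j` (`j` = (site, coordinate)) and `δX`.
* `IsCon D N`: the additive map `N` on a vector space satisfies the Leibniz rule over `D`.
* `Sys D V`: a semilinear bijection `σ` of the vector space `V` with the connections `p j`, `m j`
  (seen from the far right, from the far left) and `X`.
* `Flat D M`: a vector space with commuting connections and a semilinear bijection.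
-/

set_option autoImplicit false

noncomputable section

namespace Pool.Agent.Wb5ab1bf

/-- Shift of an index (site, coordinate) by `n` sites. -/
def sft {k : ℕ} (n : ℤ) (j : ℤ × Fin k) : ℤ × Fin k := (j.1 + n, j.2)

@[simp] theorem sft_fst {k : ℕ} (n : ℤ) (j : ℤ × Fin k) : (sft n j).1 = j.1 + n := rfl

@[simp] theorem sft_snd {k : ℕ} (n : ℤ) (j : ℤ × Fin k) : (sft n j).2 = j.2 := rfl

theorem sft_sft {k : ℕ} (n m : ℤ) (j : ℤ × Fin k) : sft n (sft m j) = sft (m + n) j := by
  unfold sft
  simp [add_assoc]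

@[simp] theorem sft_zero {k : ℕ} (j : ℤ × Fin k) : sft 0 j = j := by
  unfold sft
  simp

theorem sft_neg_sft {k : ℕ} (n : ℤ) (j : ℤ × Fin k) : sft (-n) (sft n j) = j := by
  rw [sft_sft, add_neg_cancel, sft_zero]

theorem sft_sft_neg {k : ℕ} (n : ℤ) (j : ℤ × Fin k) : sft n (sft (-n) j) = j := by
  rw [sft_sft, neg_add_cancel, sft_zero]

/-- The elements which are killed by the derivations `δ j`, `j ∉ S`. -/
def cstF {k : ℕ} {K : Type} [Field K] (δ : ℤ × Fin k → Derivation ℤ K K)
    (S : Set (ℤ × Fin k)) : Subfield K where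
  carrier := {f | ∀ j, j ∉ S → δ j f = 0}
  mul_mem' := by
    intro a b ha hb j hj
    rw [Derivation.leibniz, ha j hj, hb j hj, smul_zero, smul_zero, add_zero]
  one_mem' := by
    intro j _
    exact Derivation.map_one_eq_zero _
  add_mem' := by
    intro a b ha hb j hj
    rw [map_add, ha j hj, hb j hj, add_zero]
  zero_mem' := by
    intro j _
    exact map_zero _
  neg_mem' := by
    intro a ha j hj
    rw [map_neg, ha j hj, neg_zero]
  inv_mem' := by
    intro a ha j hj
    rw [Derivation.leibniz_inv, ha j hj, smul_zero]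

/-- A field with an automorphism and commuting derivations. -/
structure DField (k : ℕ) (K : Type) [Field K] where
  /-- the shift -/
  θ : K ≃+* K
  /-- the derivations with respect to the variables -/
  δ : ℤ × Fin k → Derivation ℤ K K
  /-- the derivation with respect to the energy -/
  δX : Derivation ℤ K K
  comm : ∀ i j f, δ i (δ j f) = δ j (δ i f)
  commX : ∀ j f, δX (δ j f) = δ j (δX f)
  θδ : ∀ j f, θ (δ j f) = δ (sft 1 j) (θ f)
  θX : ∀ f, θ (δX f) = δX (θ f)
  fin : ∀ f, {j | δ j f ≠ 0}.Finite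
  fix : ∀ f, (∀ j, δ j f = 0) → θ f = f
  frac : ∀ (S T : Set (ℤ × Fin k)) (f : K), f ∈ cstF δ (S ∪ T) →
    ∃ p ∈ Subring.closure ((cstF δ S : Set K) ∪ (cstF δ T : Set K)),
      ∃ q ∈ Subring.closure ((cstF δ S : Set K) ∪ (cstF δ T : Set K)), q ≠ 0 ∧ q * f = p

/-- The elements which are killed by the derivations `δ j`, `j ∉ S`. -/
abbrev DField.cst {k : ℕ} {K : Type} [Field K] (D : DField k K) (S : Set (ℤ × Fin k)) :
    Subfield K := cstF D.δ S

/-- The ring generated by `cst S` and `cst T`. -/
abbrev DField.PP {k : ℕ} {K : Type} [Field K] (D : DField k K) (S T : Set (ℤ × Fin k)) :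
    Subring K := Subring.closure ((D.cst S : Set K) ∪ (D.cst T : Set K))

section Con

variable {K : Type} [Field K] {V : Type} [AddCommGroup V] [Module K V]

/-- `N` satisfies the Leibniz rule over `D`. -/
def IsCon (D : K → K) (N : V →+ V) : Prop := ∀ (f : K) (v : V), N (f • v) = D f • v + f • N v

/-- The commutator of a connection and an endomorphism. -/
def brL {D : K → K} {N : V →+ V} (hN : IsCon D N) (x : Module.End K V) : Module.End K V where
  toFun v := N (x v) - x (N v)
  map_add' v w := by
    rw [map_add, map_add, map_add, map_add]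
    abel
  map_smul' f v := by
    rw [map_smul, hN, hN, map_add, map_smul, map_smul, RingHom.id_apply, smul_sub]
    abel

theorem brL_apply {D : K → K} {N : V →+ V} (hN : IsCon D N) (x : Module.End K V) (v : V) :
    brL hN x v = N (x v) - x (N v) := rfl

/-- The difference of two connections over the same derivation. -/
def conSub {D : K → K} {N N' : V →+ V} (hN : IsCon D N) (hN' : IsCon D N') : Module.End K V where
  toFun v := N v - N' v
  map_add' v w := by
    rw [map_add, map_add]
    abel
  map_smul' f v := by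
    rw [hN, hN', RingHom.id_apply, smul_sub]
    abel

theorem conSub_apply {D : K → K} {N N' : V →+ V} (hN : IsCon D N) (hN' : IsCon D N') (v : V) :
    conSub hN hN' v = N v - N' v := rfl

/-- The conjugate of an additive map. -/
def cjA (σ : V ≃+ V) (N : V →+ V) : V →+ V :=
  (σ : V →+ V).comp (N.comp (σ.symm : V →+ V))

theorem cjA_apply (σ : V ≃+ V) (N : V →+ V) (v : V) : cjA σ N v = σ (N (σ.symm v)) := rfl

theorem symm_smul {θ : K ≃+* K} {σ : V ≃+ V} (hσ : ∀ (f : K) (v : V), σ (f • v) = θ f • σ v)
    (f : K) (v : V) : σ.symm (f • v) = θ.symm f • σ.symm v := by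
  apply σ.injective
  rw [hσ, σ.apply_symm_apply, σ.apply_symm_apply, θ.apply_symm_apply]

theorem isCon_cjA {θ : K ≃+* K} {σ : V ≃+ V} (hσ : ∀ (f : K) (v : V), σ (f • v) = θ f • σ v)
    {D D' : K → K} (hD : ∀ f, θ (D f) = D' (θ f)) {N : V →+ V} (hN : IsCon D N) :
    IsCon D' (cjA σ N) := by
  intro f v
  rw [cjA_apply, cjA_apply, symm_smul hσ, hN, map_add, hσ, hσ, hD, θ.apply_symm_apply,
    σ.apply_symm_apply]

/-- The conjugation of endomorphisms by a semilinear bijection. -/
def cjE {θ : K ≃+* K} (σ : V ≃+ V) (hσ : ∀ (f : K) (v : V), σ (f • v) = θ f • σ v) :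
    Module.End K V ≃+* Module.End K V where
  toFun x :=
    { toFun := fun v => σ (x (σ.symm v))
      map_add' := fun v w => by rw [map_add, map_add, map_add]
      map_smul' := fun f v => by
        rw [symm_smul hσ, map_smul, hσ, θ.apply_symm_apply, RingHom.id_apply] }
  invFun x :=
    { toFun := fun v => σ.symm (x (σ v))
      map_add' := fun v w => by rw [map_add, map_add, map_add]
      map_smul' := fun f v => by
        rw [hσ, map_smul, symm_smul hσ, θ.symm_apply_apply, RingHom.id_apply] }
  left_inv x := by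
    refine LinearMap.ext fun v => ?_
    show σ.symm (σ (x (σ.symm (σ v)))) = x v
    rw [σ.symm_apply_apply, σ.symm_apply_apply]
  right_inv x := by
    refine LinearMap.ext fun v => ?_
    show σ (σ.symm (x (σ (σ.symm v)))) = x v
    rw [σ.apply_symm_apply, σ.apply_symm_apply]
  map_mul' x y := by
    refine LinearMap.ext fun v => ?_
    show σ (x (y (σ.symm v))) = σ (x (σ.symm (σ (y (σ.symm v)))))
    rw [σ.symm_apply_apply]
  map_add' x y := by
    refine LinearMap.ext fun v => ?_
    show σ (x (σ.symm v) + y (σ.symm v)) = σ (x (σ.symm v)) + σ (y (σ.symm v))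
    rw [map_add]

theorem cjE_apply {θ : K ≃+* K} (σ : V ≃+ V) (hσ : ∀ (f : K) (v : V), σ (f • v) = θ f • σ v)
    (x : Module.End K V) (v : V) : cjE σ hσ x v = σ (x (σ.symm v)) := rfl

theorem cjE_symm_apply {θ : K ≃+* K} (σ : V ≃+ V)
    (hσ : ∀ (f : K) (v : V), σ (f • v) = θ f • σ v) (x : Module.End K V) (v : V) :
    (cjE σ hσ).symm x v = σ.symm (x (σ v)) := rfl

end Con

/-- A difference system with its connections. -/
structure Sys {k : ℕ} {K : Type} [Field K] (D : DField k K) (V : Type) [AddCommGroup V]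
    [Module K V] where
  /-- the semilinear shift -/
  σ : V ≃+ V
  hσ : ∀ (f : K) (v : V), σ (f • v) = D.θ f • σ v
  /-- the connections seen from the far right -/
  p : ℤ × Fin k → V →+ V
  /-- the connections seen from the far left -/
  m : ℤ × Fin k → V →+ V
  /-- the connection with respect to the energy -/
  X : V →+ V
  hp : ∀ j, IsCon (D.δ j) (p j)
  hm : ∀ j, IsCon (D.δ j) (m j)
  hX : IsCon D.δX X
  pp : ∀ i j v, p i (p j v) = p j (p i v)
  mm : ∀ i j v, m i (m j v) = m j (m i v)
  c₀ : ℤ
  pm : ∀ i j v, i.1 + c₀ ≤ j.1 → p i (m j v) = m j (p i v)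
  σp : ∀ j v, σ (p j v) = p (sft 1 j) (σ v)
  σm : ∀ j v, σ (m j v) = m (sft 1 j) (σ v)
  finp : ∀ v, ∃ n₀ : ℤ, ∀ j, j.1 ≤ n₀ → p j v = 0
  finm : ∀ v, ∃ n₀ : ℤ, ∀ j, n₀ ≤ j.1 → m j v = 0
  Xm : ∀ j v, c₀ ≤ j.1 → X (m j v) = m j (X v)
  Xp : ∀ j v, j.1 ≤ -c₀ → X (p j v) = p j (X v)
  irr : ∀ U : Submodule K V, (∀ v ∈ U, σ v ∈ U) → U = ⊥ ∨ U = ⊤
  nz : Nontrivial V

namespace Sys

variable {k : ℕ} {K : Type} [Field K] {D : DField k K} {V : Type} [AddCommGroup V] [Module K V]

/-- Conjugation by `σ`. -/
def cj (S : Sys D V) : RingAut (Module.End K V) := cjE S.σ S.hσ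

/-- The action of `p j` on endomorphisms. -/
def bp (S : Sys D V) (j : ℤ × Fin k) (x : Module.End K V) : Module.End K V := brL (S.hp j) x

/-- The action of `m j` on endomorphisms. -/
def bm (S : Sys D V) (j : ℤ × Fin k) (x : Module.End K V) : Module.End K V := brL (S.hm j) x

/-- The action of `X` on endomorphisms. -/
def bX (S : Sys D V) (x : Module.End K V) : Module.End K V := brL S.hX x

/-- The difference of the connections seen from the left and from the right. -/
def Dj (S : Sys D V) (j : ℤ × Fin k) : Module.End K V := conSub (S.hm j) (S.hp j)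

/-- The span of the `Dj j`. -/
def Lam (S : Sys D V) : Submodule K (Module.End K V) := Submodule.span K (Set.range S.Dj)

/-- The difference of `σ X σ⁻¹` and `X`. -/
def E1 (S : Sys D V) : Module.End K V :=
  conSub (isCon_cjA S.hσ (D' := D.δX) D.θX S.hX) S.hX

/-- The endomorphisms with finite orbit under conjugation. -/
def fn (S : Sys D V) : Set (Module.End K V) := {x | ∃ n : ℕ, 0 < n ∧ (S.cj ^ n) x = x}

end Sys

section Comm

variable {K : Type} [Field K] {V : Type} [AddCommGroup V] [Module K V]

/-- The span of the commutators of elements of `L`. -/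
def derS (L : Submodule K (Module.End K V)) : Submodule K (Module.End K V) :=
  Submodule.span K {z | ∃ x ∈ L, ∃ y ∈ L, z = x * y - y * x}

/-- The elements of `L` which commute with `L`. -/
def cenS (L : Submodule K (Module.End K V)) : Submodule K (Module.End K V) where
  carrier := {z | z ∈ L ∧ ∀ x ∈ L, x * z = z * x}
  add_mem' := by
    intro a b ha hb
    refine ⟨add_mem ha.1 hb.1, fun x hx => ?_⟩
    rw [mul_add, add_mul, ha.2 x hx, hb.2 x hx]
  zero_mem' := ⟨zero_mem _, fun x _ => by rw [mul_zero, zero_mul]⟩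
  smul_mem' := by
    intro c a ha
    refine ⟨L.smul_mem c ha.1, fun x hx => ?_⟩
    rw [mul_smul_comm, smul_mul_assoc, ha.2 x hx]

/-- The commutant of `L`. -/
def comS (L : Submodule K (Module.End K V)) : Subalgebra K (Module.End K V) :=
  Subalgebra.centralizer K (L : Set (Module.End K V))

/-- The algebra generated by the centre of `L`. -/
def zenS (L : Submodule K (Module.End K V)) : Subalgebra K (Module.End K V) :=
  Algebra.adjoin K (cenS L : Set (Module.End K V))

end Comm

/-- The powers of an additive bijection. -/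
def itr {M : Type} [AddCommGroup M] (σ : AddAut M) (n : ℤ) : M ≃+ M := (n • σ : AddAut M)

section Itr

variable {M : Type} [AddCommGroup M] (σ : M ≃+ M)

theorem itr_zero (x : M) : itr σ 0 x = x := by
  unfold itr
  rw [zero_zsmul]
  rfl

theorem itr_one (x : M) : itr σ 1 x = σ x := by
  unfold itr
  rw [one_zsmul]

theorem itr_add (m n : ℤ) (x : M) : itr σ (m + n) x = itr σ m (itr σ n x) := by
  unfold itr
  rw [add_zsmul]
  rfl

theorem itr_succ (n : ℤ) (x : M) : itr σ (n + 1) x = σ (itr σ n x) := by
  rw [add_comm, itr_add, itr_one]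

theorem itr_succ' (n : ℤ) (x : M) : itr σ (n + 1) x = itr σ n (σ x) := by
  rw [itr_add, itr_one]

theorem itr_neg_one (x : M) : itr σ (-1) x = σ.symm x := by
  apply σ.injective
  rw [← itr_succ, σ.apply_symm_apply, neg_add_cancel, itr_zero]

theorem itr_pred (n : ℤ) (x : M) : itr σ (n - 1) x = σ.symm (itr σ n x) := by
  rw [sub_eq_add_neg, add_comm, itr_add, itr_neg_one]

theorem itr_neg_itr (n : ℤ) (x : M) : itr σ (-n) (itr σ n x) = x := by
  rw [← itr_add, neg_add_cancel, itr_zero]

theorem itr_itr_neg (n : ℤ) (x : M) : itr σ n (itr σ (-n) x) = x := by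
  rw [← itr_add, add_neg_cancel, itr_zero]

end Itr

/-- A finite-dimensional space with commuting connections and a semilinear bijection. -/
structure Flat {k : ℕ} {K : Type} [Field K] (D : DField k K) (M : Type) [AddCommGroup M]
    [Module K M] where
  /-- the semilinear bijection -/
  σ : M ≃+ M
  hσ : ∀ (f : K) (x : M), σ (f • x) = D.θ f • σ x
  /-- the connections -/
  N : ℤ × Fin k → M →+ M
  hN : ∀ j, IsCon (D.δ j) (N j)
  comm : ∀ i j x, N i (N j x) = N j (N i x)
  σN : ∀ j x, σ (N j x) = N (sft 1 j) (σ x)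
  fin : ∀ x, {j | N j x ≠ 0}.Finite

section Stable

variable {k : ℕ} {K : Type} [Field K] {D : DField k K} {V : Type} [AddCommGroup V] [Module K V]

/-- `L` is stable under conjugation by `σ` and by `σ⁻¹`. -/
def Stab (S : Sys D V) (L : Submodule K (Module.End K V)) : Prop :=
  (∀ x ∈ L, S.cj x ∈ L) ∧ ∀ x ∈ L, S.cj.symm x ∈ L

/-- `L` is stable under the connections. -/
def StabN (S : Sys D V) (L : Submodule K (Module.End K V)) : Prop :=
  (∀ j, ∀ x ∈ L, S.bp j x ∈ L) ∧ ∀ j, ∀ x ∈ L, S.bm j x ∈ L

/-- `L` is closed under commutators. -/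
def LieCl (L : Submodule K (Module.End K V)) : Prop := ∀ x ∈ L, ∀ y ∈ L, x * y - y * x ∈ L

/-- `I` is an ideal of `L`. -/
def IdealOf (I L : Submodule K (Module.End K V)) : Prop :=
  I ≤ L ∧ ∀ x ∈ L, ∀ y ∈ I, x * y - y * x ∈ I

end Stable

end Pool.Agent.Wb5ab1bf
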