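import Pool.Agent.W_b5ab1bf_h80.Whitehead
import Pool.Agent.W_b5ab1bf_h80.ADefs

/-!
# Whitehead for Lie algebras of endomorphisms (helper80)
-/

set_option autoImplicit false

noncomputable section

namespace Pool.Agent.Wb5ab1bf

variable {K : Type} [Field K] {V : Type} [AddCommGroup V] [Module K V]

attribute [local instance 100] LieRing.ofAssociativeRing

/-- `G` as a Lie subalgebra. -/
def AWh.lie {G : Submodule K (Module.End K V)} (hG : LieCl G) :
    LieSubalgebra K (Module.End K V) :=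
  { G with lie_mem' := fun {x y} hx hy => hG x hx y hy }

theorem AWh.radical {G : Submodule K (Module.End K V)} (hG : LieCl G)
    (hab : ∀ I : Submodule K (Module.End K V), IdealOf I G →
      (∀ x ∈ I, ∀ y ∈ I, x * y = y * x) → I = ⊥) :
    LieAlgebra.HasTrivialRadical K (AWh.lie hG) := by
  rw [LieAlgebra.hasTrivialRadical_iff_no_abelian_ideals]
  intro I hI
  have hmem : ∀ a : Module.End K V,
      a ∈ (I.toSubmodule).map (AWh.lie hG).toSubmodule.subtype ↔
        ∃ y : AWh.lie hG, y ∈ I ∧ (y : Module.End K V) = a := by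
    intro a
    rw [Submodule.mem_map]
    exact Iff.rfl
  have hA0 : (I.toSubmodule).map (AWh.lie hG).toSubmodule.subtype = ⊥ := by
    refine hab _ ⟨?_, ?_⟩ ?_
    · intro a ha
      obtain ⟨y, -, rfl⟩ := (hmem a).mp ha
      exact y.2
    · intro x hx a ha
      obtain ⟨y, hy, rfl⟩ := (hmem a).mp ha
      refine (hmem _).mpr ⟨⁅(⟨x, hx⟩ : AWh.lie hG), y⁆, lie_mem_right K _ I _ _ hy, ?_⟩
      rfl
    · intro a ha b hb
      obtain ⟨y, hy, rfl⟩ := (hmem a).mp ha
      obtain ⟨z, hz, rfl⟩ := (hmem b).mp hb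
      have h := hI.trivial ⟨y, hy⟩ ⟨z, hz⟩
      have h2 : ⁅y, z⁆ = 0 := congrArg (fun t : I => (t : AWh.lie hG)) h
      have h3 : (y : Module.End K V) * z - z * y = 0 :=
        congrArg (fun t : AWh.lie hG => (t : Module.End K V)) h2
      exact sub_eq_zero.mp h3
  rw [LieSubmodule.eq_bot_iff]
  intro y hy
  have h4 : (y : Module.End K V) ∈ (I.toSubmodule).map (AWh.lie hG).toSubmodule.subtype :=
    (hmem _).mpr ⟨y, hy, rfl⟩
  rw [hA0, Submodule.mem_bot] at h4
  exact Subtype.ext h4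

/-- `U` as a Lie module. -/
def AWh.mod {G U : Submodule K (Module.End K V)} (hG : LieCl G)
    (hU : ∀ s ∈ G, ∀ u ∈ U, s * u - u * s ∈ U) :
    LieSubmodule K (AWh.lie hG) (Module.End K V) :=
  { U with lie_mem := fun {x u} hu => hU x x.2 u hu }

/-- `G` as a Lie submodule of `U`. -/
def AWh.sub {G U : Submodule K (Module.End K V)} (hG : LieCl G)
    (hU : ∀ s ∈ G, ∀ u ∈ U, s * u - u * s ∈ U) :
    LieSubmodule K (AWh.lie hG) (AWh.mod hG hU) :=
  { Submodule.comap (AWh.mod hG hU).toSubmodule.subtype G with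
    lie_mem := fun {x u} hu => hG x x.2 u hu }

/-- Whitehead's first lemma for the module `U / G`.

`G` is a Lie algebra of endomorphisms without nonzero abelian ideals, `G ≤ U`, `[G, U] ≤ U`, and `f` is
modulo `G` a linear map `G → U` and a cocycle. Then there is `B ∈ U` with `f s - (B s - s B) ∈ G`.

Proof. Let `L` be `G` as a `LieSubalgebra K (Module.End K V)` (`attribute [local instance 100]
LieRing.ofAssociativeRing`; compare `RedProj_lie`, `RedProj_radical` in
`Pool/Agent/W_b4801b_h32/RedProj.lean`). It has trivial radical: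
`LieAlgebra.hasTrivialRadical_iff_no_abelian_ideals`, an abelian ideal of `L` gives a subspace `I` of `G` with
`IdealOf I G` and commuting elements. `U` is an `L`-module (a Lie submodule of `Module.End K V` with the
adjoint action `⁅s, u⁆ = s * u - u * s`), `G` a Lie submodule of `U`, `Q := U ⧸ G` a finite-dimensional
`L`-module. The map `F : L →ₗ[K] Q`, `F s := class of f s`, is linear by `hadd`, `hsmul` and a cocycle by
`hder`: `F ⁅s, t⁆ = ⁅s, F t⁆ - ⁅t, F s⁆`. By `whitehead` (file `Whitehead`) there is `B' ∈ U` with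
`f s - (s B' - B' s) ∈ G`; put `B := -B'`. -/
theorem wh_mod [CharZero K] [FiniteDimensional K V] (G U : Submodule K (Module.End K V))
    (hG : LieCl G) (hab : ∀ I : Submodule K (Module.End K V), IdealOf I G →
      (∀ x ∈ I, ∀ y ∈ I, x * y = y * x) → I = ⊥)
    (hGU : G ≤ U) (hU : ∀ s ∈ G, ∀ u ∈ U, s * u - u * s ∈ U)
    (f : Module.End K V → Module.End K V) (hf : ∀ s ∈ G, f s ∈ U)
    (hadd : ∀ s ∈ G, ∀ t ∈ G, f (s + t) - f s - f t ∈ G)
    (hsmul : ∀ c : K, ∀ s ∈ G, f (c • s) - c • f s ∈ G)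
    (hder : ∀ s ∈ G, ∀ t ∈ G,
      f (s * t - t * s) - (f s * t - t * f s) - (s * f t - f t * s) ∈ G) :
    ∃ B ∈ U, ∀ s ∈ G, f s - (B * s - s * B) ∈ G := by
  have hrad := AWh.radical hG hab
  let N := AWh.sub hG hU
  have hN : ∀ u : AWh.mod hG hU, u ∈ N ↔ (u : Module.End K V) ∈ G := fun u => Iff.rfl
  have hmk : ∀ u v : AWh.mod hG hU,
      (LieSubmodule.Quotient.mk u : AWh.mod hG hU ⧸ N) = LieSubmodule.Quotient.mk v ↔
        (u : Module.End K V) - v ∈ G := by
    intro u v
    exact Submodule.Quotient.eq N.toSubmodule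
  let F : AWh.lie hG →ₗ[K] (AWh.mod hG hU ⧸ N) :=
    { toFun := fun s => LieSubmodule.Quotient.mk (⟨f s, hf s s.2⟩ : AWh.mod hG hU)
      map_add' := fun s t => by
        refine (hmk _ (⟨f s, hf s s.2⟩ + ⟨f t, hf t t.2⟩)).2 ?_
        show f ((s : Module.End K V) + t) - (f s + f t) ∈ G
        rw [← sub_sub]
        exact hadd s s.2 t t.2
      map_smul' := fun c s => by
        refine (hmk _ (c • ⟨f s, hf s s.2⟩)).2 ?_
        exact hsmul c s s.2 }
  have hcoc : ∀ x y : AWh.lie hG, F ⁅x, y⁆ = ⁅x, F y⁆ - ⁅y, F x⁆ := by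
    intro x y
    refine (hmk ⟨f (⁅x, y⁆ : AWh.lie hG), hf _ (⁅x, y⁆ : AWh.lie hG).2⟩
      (⁅x, (⟨f y, hf y y.2⟩ : AWh.mod hG hU)⁆ - ⁅y, (⟨f x, hf x x.2⟩ : AWh.mod hG hU)⁆)).2 ?_
    have h1 : f ((x : Module.End K V) * y - y * x) -
        (((x : Module.End K V) * f y - f y * x) - ((y : Module.End K V) * f x - f x * y)) =
        f ((x : Module.End K V) * y - y * x) - (f x * y - y * f x) - (x * f y - f y * x) := by
      abel
    have h2 := hder x x.2 y y.2
    rw [← h1] at h2
    exact h2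
  obtain ⟨m, hm⟩ := whitehead K (AWh.lie hG) (AWh.mod hG hU ⧸ N) F hcoc
  obtain ⟨B', rfl⟩ := LieSubmodule.Quotient.surjective_mk' N m
  refine ⟨-(B' : Module.End K V), Submodule.neg_mem _ B'.2, fun s hs => ?_⟩
  have h1 := (hmk ⟨f s, hf s hs⟩ ⁅(⟨s, hs⟩ : AWh.lie hG), B'⁆).1 (hm ⟨s, hs⟩)
  have h2 : f s - (-(B' : Module.End K V) * s - s * -(B' : Module.End K V)) =
      f s - (s * (B' : Module.End K V) - B' * s) := by
    noncomm_ring
  rw [h2]
  exact h1

/-- Whitehead's first lemma for the adjoint module: every derivation of `G` is inner.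

Proof. As in `wh_mod` with the `L`-module `L` and the linear cocycle `f : L → L`;
`f s = ⁅s, m⁆ = s m - m s`, `B := -m`. (Or use Mathlib's theorem that the derivations of a Killing Lie algebra
are inner, `LieDerivation.IsKilling`.) -/
theorem wh_der [CharZero K] [FiniteDimensional K V] (G : Submodule K (Module.End K V))
    (hG : LieCl G) (hab : ∀ I : Submodule K (Module.End K V), IdealOf I G →
      (∀ x ∈ I, ∀ y ∈ I, x * y = y * x) → I = ⊥)
    (f : Module.End K V → Module.End K V) (hf : ∀ s ∈ G, f s ∈ G)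
    (hadd : ∀ s ∈ G, ∀ t ∈ G, f (s + t) = f s + f t)
    (hsmul : ∀ c : K, ∀ s ∈ G, f (c • s) = c • f s)
    (hder : ∀ s ∈ G, ∀ t ∈ G, f (s * t - t * s) = (f s * t - t * f s) + (s * f t - f t * s)) :
    ∃ B ∈ G, ∀ s ∈ G, f s = B * s - s * B := by
  have hrad := AWh.radical hG hab
  let F : AWh.lie hG →ₗ[K] AWh.lie hG :=
    { toFun := fun s => ⟨f s, hf s s.2⟩
      map_add' := fun s t => Subtype.ext (hadd s s.2 t t.2)
      map_smul' := fun c s => Subtype.ext (hsmul c s s.2) }
  have hcoc : ∀ x y : AWh.lie hG, F ⁅x, y⁆ = ⁅x, F y⁆ - ⁅y, F x⁆ := by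
    intro x y
    refine Subtype.ext ?_
    have h1 : (((x : Module.End K V) * f y - f y * x) - ((y : Module.End K V) * f x - f x * y)) =
        (f x * y - y * f x) + (x * f y - f y * x) := by
      abel
    have h2 := hder x x.2 y y.2
    rw [← h1] at h2
    exact h2
  obtain ⟨m, hm⟩ := whitehead K (AWh.lie hG) (AWh.lie hG) F hcoc
  refine ⟨-(m : Module.End K V), Submodule.neg_mem _ m.2, fun s hs => ?_⟩
  have h1 : f s = s * (m : Module.End K V) - m * s := congrArg Subtype.val (hm ⟨s, hs⟩)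
  rw [h1]
  noncomm_ring

end Pool.Agent.Wb5ab1bf
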