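import Pool.Agent.W_b5ab1bf_h80.AZen
import Pool.Agent.W_b5ab1bf_h80.AWh
import Pool.Agent.W_b5ab1bf_h80.AEt

/-!
# The corrected connection in the direction of the energy (helper80)
-/

set_option autoImplicit false

noncomputable section

namespace Pool.Agent.Wb5ab1bf

variable {k : ℕ} {K : Type} [Field K] {D : DField k K} {V : Type} [AddCommGroup V] [Module K V]

/-- the elements commuting with `zenS L` -/
def AB.U (L : Submodule K (Module.End K V)) : Submodule K (Module.End K V) where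
  carrier := {u | ∀ z ∈ zenS L, z * u = u * z}
  add_mem' := by
    intro a b ha hb z hz
    rw [mul_add, add_mul, ha z hz, hb z hz]
  zero_mem' := fun z _ => by rw [mul_zero, zero_mul]
  smul_mem' := by
    intro c a ha z hz
    rw [mul_smul_comm, smul_mul_assoc, ha z hz]

theorem AB.mem_U (L : Submodule K (Module.End K V)) (u : Module.End K V) :
    u ∈ AB.U L ↔ ∀ z ∈ zenS L, z * u = u * z := Iff.rfl

/-- There is `B` such that `X - B` preserves `derS L` and `zenS L`.

Proof. Write `G := derS L`, `Z := zenS L`. (1) `et_mod` for `Z` (`zenS_comm`, `zenS_nondeg`) and `f := S.bX`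
(`Sys.bX_add`, `bX_smul`: `S.bX (c • x) - c • S.bX x = D.δX c • x ∈ Z`, `bX_mul`) gives `B₂` with
`S.bX z - (B₂ z - z B₂) ∈ Z` for `z ∈ Z`. (2) Let `U := {u | ∀ z ∈ Z, z * u = u * z}` (a subspace) and
`f₂ x := S.bX x - (B₂ * x - x * B₂)`. `G ≤ U` (`zenS_comm_L`, `derS_le`), `U` is stable under commutators with
`G`, `f₂` satisfies the Leibniz rules (it is the bracket with the connection `X - B₂`). For `s ∈ G`, `z ∈ Z`:
`0 = f₂ (s z - z s) = (f₂ s z - z f₂ s) + (s f₂ z - f₂ z s)` and the last bracket is `0` since `f₂ z ∈ Z`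
commutes with `s`; so `f₂ s ∈ U`. `wh_mod` (`derS_lie`, `red_abelian`) gives `B₁ ∈ U` with
`f₂ s - (B₁ s - s B₁) ∈ G` for `s ∈ G`. (3) `B := B₁ + B₂`: for `s ∈ G` this is the statement, and for
`z ∈ Z`, `B₁ z - z B₁ = 0`, so `S.bX z - (B z - z B) = f₂ z ∈ Z`. -/
theorem exists_B [CharZero K] [FiniteDimensional K V] (S : Sys D V)
    (L : Submodule K (Module.End K V)) (hL : LieCl L) (hs : Stab S L) :
    ∃ B : Module.End K V, (∀ s ∈ derS L, S.bX s - (B * s - s * B) ∈ derS L) ∧
      ∀ z ∈ zenS L, S.bX z - (B * z - z * B) ∈ zenS L := by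
  have hderL : derS L ≤ L := derS_le L hL
  -- step 1
  obtain ⟨B₂, hB₂⟩ := et_mod (zenS L) (zenS_comm L) (zenS_nondeg S L hs) S.bX
    (fun x _ y _ => by
      rw [S.bX_add]
      have h1 : S.bX x + S.bX y - S.bX x - S.bX y = 0 := by abel
      rw [h1]
      exact zero_mem _)
    (fun c x hx => by
      rw [S.bX_smul, add_sub_cancel_right]
      exact (zenS L).smul_mem hx _)
    (fun x _ y _ => by
      rw [S.bX_mul]
      have h1 : S.bX x * y + x * S.bX y - S.bX x * y - x * S.bX y = 0 := by abel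
      rw [h1]
      exact zero_mem _)
  -- step 2
  let f₂ : Module.End K V → Module.End K V := fun x => S.bX x - (B₂ * x - x * B₂)
  have hf₂ : ∀ x, f₂ x = S.bX x - (B₂ * x - x * B₂) := fun x => rfl
  have hcommf : ∀ x y, f₂ (x * y - y * x) =
      (f₂ x * y - y * f₂ x) + (x * f₂ y - f₂ y * x) := by
    intro x y
    rw [hf₂, hf₂, hf₂, S.bX_comm]
    noncomm_ring
  have hGU : derS L ≤ AB.U L := fun s hs' z hz => (zenS_comm_L L s (hderL hs') z hz).symm
  have hf₂U : ∀ s ∈ derS L, f₂ s ∈ AB.U L := by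
    intro s hs' z hz
    have h1 := hcommf s z
    have h2 : s * z - z * s = 0 := sub_eq_zero.2 (zenS_comm_L L s (hderL hs') z hz)
    have h3 : s * f₂ z - f₂ z * s = 0 :=
      sub_eq_zero.2 (zenS_comm_L L s (hderL hs') _ (hB₂ z hz))
    have h4 : f₂ (0 : Module.End K V) = 0 := by
      rw [hf₂]
      have h5 : S.bX (0 : Module.End K V) = 0 := brL_zero _
      rw [h5, mul_zero, zero_mul, sub_zero, sub_zero]
    rw [h2, h3, h4, add_zero] at h1
    exact (sub_eq_zero.1 h1.symm).symm
  obtain ⟨B₁, hB₁U, hB₁⟩ := wh_mod (derS L) (AB.U L) (derS_lie L hL)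
    (fun I hI hab => red_abelian S L hL hs I hI hab) hGU
    (fun s hs' u hu z hz => by
      have h1 := (zenS_comm_L L s (hderL hs') z hz)
      have h2 := hu z hz
      calc z * (s * u - u * s) = (z * s) * u - (z * u) * s := by noncomm_ring
        _ = (s * z) * u - (u * z) * s := by rw [h1, h2]
        _ = s * (z * u) - u * (z * s) := by noncomm_ring
        _ = s * (u * z) - u * (s * z) := by rw [h1, h2]
        _ = (s * u - u * s) * z := by noncomm_ring) f₂ hf₂U
    (fun s _ t _ => by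
      have h1 : f₂ (s + t) - f₂ s - f₂ t = 0 := by
        rw [hf₂, hf₂, hf₂, S.bX_add]
        noncomm_ring
      rw [h1]
      exact zero_mem _)
    (fun c s hs' => by
      have h1 : f₂ (c • s) - c • f₂ s = D.δX c • s := by
        rw [hf₂, hf₂, S.bX_smul, mul_smul_comm, smul_mul_assoc, smul_sub, smul_sub]
        abel
      rw [h1]
      exact (derS L).smul_mem _ hs')
    (fun s _ t _ => by
      rw [hcommf]
      have h1 : f₂ s * t - t * f₂ s + (s * f₂ t - f₂ t * s) - (f₂ s * t - t * f₂ s) -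
        (s * f₂ t - f₂ t * s) = 0 := by abel
      rw [h1]
      exact zero_mem _)
  -- step 3
  refine ⟨B₁ + B₂, fun s hs' => ?_, fun z hz => ?_⟩
  · have h1 : S.bX s - ((B₁ + B₂) * s - s * (B₁ + B₂)) = f₂ s - (B₁ * s - s * B₁) := by
      rw [hf₂]
      noncomm_ring
    rw [h1]
    exact hB₁ s hs'
  · have h1 : S.bX z - ((B₁ + B₂) * z - z * (B₁ + B₂)) =
        S.bX z - (B₂ * z - z * B₂) - (B₁ * z - z * B₁) := by
      noncomm_ring
    rw [h1, ← hB₁U z hz, sub_self, sub_zero]
    exact hB₂ z hz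

end Pool.Agent.Wb5ab1bf
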