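import Pool.Agent.W_b5ab1bf_h80.ADefs

/-!
# Connections acting on endomorphisms (helper80)

All the proofs are direct computations: unfold `cj`, `bp`, `bm`, `bX`, `Dj`, `E1` (`cjE_apply`,
`cjE_symm_apply`, `brL_apply`, `conSub_apply`), use `LinearMap.ext`, `Module.End.mul_apply` and the axioms
of `Sys`.
-/

set_option autoImplicit false

noncomputable section

namespace Pool.Agent.Wb5ab1bf

section Br

variable {K : Type} [Field K] {V : Type} [AddCommGroup V] [Module K V] {D : K → K} {N : V →+ V}

theorem brL_add (hN : IsCon D N) (x y : Module.End K V) : brL hN (x + y) = brL hN x + brL hN y := by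
  refine LinearMap.ext fun v => ?_
  simp only [brL_apply, LinearMap.add_apply, map_add]
  abel

theorem brL_zero (hN : IsCon D N) : brL hN (0 : Module.End K V) = 0 := by
  refine LinearMap.ext fun v => ?_
  simp [brL_apply]

theorem brL_neg (hN : IsCon D N) (x : Module.End K V) : brL hN (-x) = -brL hN x := by
  refine LinearMap.ext fun v => ?_
  simp only [brL_apply, LinearMap.neg_apply, map_neg]
  abel

theorem brL_sub (hN : IsCon D N) (x y : Module.End K V) : brL hN (x - y) = brL hN x - brL hN y := by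
  rw [sub_eq_add_neg, brL_add, brL_neg, ← sub_eq_add_neg]

theorem brL_smul (hN : IsCon D N) (f : K) (x : Module.End K V) :
    brL hN (f • x) = D f • x + f • brL hN x := by
  refine LinearMap.ext fun v => ?_
  simp only [brL_apply, LinearMap.smul_apply, LinearMap.add_apply]
  rw [hN, smul_sub]
  abel

theorem brL_mul (hN : IsCon D N) (x y : Module.End K V) :
    brL hN (x * y) = brL hN x * y + x * brL hN y := by
  refine LinearMap.ext fun v => ?_
  simp only [brL_apply, LinearMap.add_apply, Module.End.mul_apply, map_sub]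
  abel

theorem brL_one (hN : IsCon D N) : brL hN (1 : Module.End K V) = 0 := by
  refine LinearMap.ext fun v => ?_
  simp [brL_apply]

/-- Leibniz rule for commutators. -/
theorem brL_comm (hN : IsCon D N) (x y : Module.End K V) :
    brL hN (x * y - y * x) = (brL hN x * y - y * brL hN x) + (x * brL hN y - brL hN y * x) := by
  rw [brL_sub, brL_mul, brL_mul]
  abel

theorem brL_sum {ι : Type} (hN : IsCon D N) (s : Finset ι) (x : ι → Module.End K V) :
    brL hN (∑ i ∈ s, x i) = ∑ i ∈ s, brL hN (x i) := by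
  classical
  induction s using Finset.induction_on with
  | empty => rw [Finset.sum_empty, Finset.sum_empty, brL_zero]
  | insert a s ha ih => rw [Finset.sum_insert ha, Finset.sum_insert ha, brL_add, ih]

end Br

variable {k : ℕ} {K : Type} [Field K] {D : DField k K} {V : Type} [AddCommGroup V] [Module K V]

namespace Sys

variable (S : Sys D V)

theorem cj_apply (x : Module.End K V) (v : V) : S.cj x v = S.σ (x (S.σ.symm v)) := rfl

theorem cj_symm_apply (x : Module.End K V) (v : V) : S.cj.symm x v = S.σ.symm (x (S.σ v)) := rfl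

theorem bp_apply (j : ℤ × Fin k) (x : Module.End K V) (v : V) :
    S.bp j x v = S.p j (x v) - x (S.p j v) := rfl

theorem bm_apply (j : ℤ × Fin k) (x : Module.End K V) (v : V) :
    S.bm j x v = S.m j (x v) - x (S.m j v) := rfl

theorem bX_apply (x : Module.End K V) (v : V) : S.bX x v = S.X (x v) - x (S.X v) := rfl

theorem Dj_apply (j : ℤ × Fin k) (v : V) : S.Dj j v = S.m j v - S.p j v := rfl

theorem E1_apply (v : V) : S.E1 v = S.σ (S.X (S.σ.symm v)) - S.X v := rfl

theorem cj_smul (f : K) (x : Module.End K V) : S.cj (f • x) = D.θ f • S.cj x := by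
  refine LinearMap.ext fun v => ?_
  rw [cj_apply, LinearMap.smul_apply, LinearMap.smul_apply, S.hσ, cj_apply]

theorem cj_symm_smul (f : K) (x : Module.End K V) :
    S.cj.symm (f • x) = D.θ.symm f • S.cj.symm x := by
  refine LinearMap.ext fun v => ?_
  rw [cj_symm_apply, LinearMap.smul_apply, LinearMap.smul_apply, symm_smul S.hσ, cj_symm_apply]

theorem σp' (j : ℤ × Fin k) (v : V) : S.p j (S.σ.symm v) = S.σ.symm (S.p (sft 1 j) v) := by
  apply S.σ.injective
  rw [S.σp, S.σ.apply_symm_apply, S.σ.apply_symm_apply]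

theorem σm' (j : ℤ × Fin k) (v : V) : S.m j (S.σ.symm v) = S.σ.symm (S.m (sft 1 j) v) := by
  apply S.σ.injective
  rw [S.σm, S.σ.apply_symm_apply, S.σ.apply_symm_apply]

theorem cj_bp (j : ℤ × Fin k) (x : Module.End K V) :
    S.cj (S.bp j x) = S.bp (sft 1 j) (S.cj x) := by
  refine LinearMap.ext fun v => ?_
  rw [cj_apply, bp_apply, bp_apply, map_sub, S.σp, cj_apply, cj_apply, S.σp']

theorem cj_bm (j : ℤ × Fin k) (x : Module.End K V) :
    S.cj (S.bm j x) = S.bm (sft 1 j) (S.cj x) := by
  refine LinearMap.ext fun v => ?_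
  rw [cj_apply, bm_apply, bm_apply, map_sub, S.σm, cj_apply, cj_apply, S.σm']

theorem cj_Dj (j : ℤ × Fin k) : S.cj (S.Dj j) = S.Dj (sft 1 j) := by
  refine LinearMap.ext fun v => ?_
  rw [cj_apply, Dj_apply, Dj_apply, map_sub, S.σm, S.σp, S.σ.apply_symm_apply]

theorem cj_symm_bp (j : ℤ × Fin k) (x : Module.End K V) :
    S.cj.symm (S.bp j x) = S.bp (sft (-1) j) (S.cj.symm x) := by
  apply S.cj.injective
  rw [RingEquiv.apply_symm_apply, cj_bp, RingEquiv.apply_symm_apply, sft_sft_neg]

theorem cj_symm_bm (j : ℤ × Fin k) (x : Module.End K V) :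
    S.cj.symm (S.bm j x) = S.bm (sft (-1) j) (S.cj.symm x) := by
  apply S.cj.injective
  rw [RingEquiv.apply_symm_apply, cj_bm, RingEquiv.apply_symm_apply, sft_sft_neg]

theorem cj_symm_Dj (j : ℤ × Fin k) : S.cj.symm (S.Dj j) = S.Dj (sft (-1) j) := by
  apply S.cj.injective
  rw [RingEquiv.apply_symm_apply, cj_Dj, sft_sft_neg]

/-- `m j` and `p j` differ by `Dj j`. -/
theorem bm_sub_bp (j : ℤ × Fin k) (x : Module.End K V) :
    S.bm j x - S.bp j x = S.Dj j * x - x * S.Dj j := by
  refine LinearMap.ext fun v => ?_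
  rw [LinearMap.sub_apply, LinearMap.sub_apply, bm_apply, bp_apply, Module.End.mul_apply,
    Module.End.mul_apply, Dj_apply, Dj_apply, map_sub]
  abel

theorem bp_bp (i j : ℤ × Fin k) (x : Module.End K V) : S.bp i (S.bp j x) = S.bp j (S.bp i x) := by
  refine LinearMap.ext fun v => ?_
  simp only [bp_apply, map_sub]
  rw [S.pp i j (x v), S.pp j i v]
  abel

theorem bm_bm (i j : ℤ × Fin k) (x : Module.End K V) : S.bm i (S.bm j x) = S.bm j (S.bm i x) := by
  refine LinearMap.ext fun v => ?_
  simp only [bm_apply, map_sub]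
  rw [S.mm i j (x v), S.mm j i v]
  abel

theorem bp_bm (i j : ℤ × Fin k) (h : i.1 + S.c₀ ≤ j.1) (x : Module.End K V) :
    S.bp i (S.bm j x) = S.bm j (S.bp i x) := by
  refine LinearMap.ext fun v => ?_
  simp only [bm_apply, bp_apply, map_sub]
  rw [S.pm i j (x v) h, S.pm i j v h]
  abel

/-- `Dj j` is parallel for `p i`, if `i` is far to the left of `j`. -/
theorem bp_Dj (i j : ℤ × Fin k) (h : i.1 + S.c₀ ≤ j.1) : S.bp i (S.Dj j) = 0 := by
  refine LinearMap.ext fun v => ?_
  rw [bp_apply, Dj_apply, Dj_apply, map_sub, S.pm i j v h, S.pp i j v]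
  simp

/-- `Dj j` is parallel for `m i`, if `i` is far to the right of `j`. -/
theorem bm_Dj (i j : ℤ × Fin k) (h : j.1 + S.c₀ ≤ i.1) : S.bm i (S.Dj j) = 0 := by
  refine LinearMap.ext fun v => ?_
  rw [bm_apply, Dj_apply, Dj_apply, map_sub, S.mm i j v, ← S.pm j i v h]
  simp

theorem bp_add (j : ℤ × Fin k) (x y : Module.End K V) : S.bp j (x + y) = S.bp j x + S.bp j y :=
  brL_add _ x y

theorem bm_add (j : ℤ × Fin k) (x y : Module.End K V) : S.bm j (x + y) = S.bm j x + S.bm j y :=
  brL_add _ x y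

theorem bX_add (x y : Module.End K V) : S.bX (x + y) = S.bX x + S.bX y := brL_add _ x y

theorem bp_smul (j : ℤ × Fin k) (f : K) (x : Module.End K V) :
    S.bp j (f • x) = D.δ j f • x + f • S.bp j x := brL_smul _ f x

theorem bm_smul (j : ℤ × Fin k) (f : K) (x : Module.End K V) :
    S.bm j (f • x) = D.δ j f • x + f • S.bm j x := brL_smul _ f x

theorem bX_smul (f : K) (x : Module.End K V) :
    S.bX (f • x) = D.δX f • x + f • S.bX x := brL_smul _ f x

theorem bp_mul (j : ℤ × Fin k) (x y : Module.End K V) :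
    S.bp j (x * y) = S.bp j x * y + x * S.bp j y := brL_mul _ x y

theorem bm_mul (j : ℤ × Fin k) (x y : Module.End K V) :
    S.bm j (x * y) = S.bm j x * y + x * S.bm j y := brL_mul _ x y

theorem bX_mul (x y : Module.End K V) : S.bX (x * y) = S.bX x * y + x * S.bX y := brL_mul _ x y

theorem bp_comm (j : ℤ × Fin k) (x y : Module.End K V) :
    S.bp j (x * y - y * x) = (S.bp j x * y - y * S.bp j x) + (x * S.bp j y - S.bp j y * x) :=
  brL_comm _ x y

theorem bm_comm (j : ℤ × Fin k) (x y : Module.End K V) :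
    S.bm j (x * y - y * x) = (S.bm j x * y - y * S.bm j x) + (x * S.bm j y - S.bm j y * x) :=
  brL_comm _ x y

theorem bX_comm (x y : Module.End K V) :
    S.bX (x * y - y * x) = (S.bX x * y - y * S.bX x) + (x * S.bX y - S.bX y * x) :=
  brL_comm _ x y

end Sys

end Pool.Agent.Wb5ab1bf
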