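import Pool.Agent.W_b5ab1bf_h80.AFl

/-!
# Parallel elements of the commutant (helper80)
-/

set_option autoImplicit false

noncomputable section

namespace Pool.Agent.Wb5ab1bf

variable {k : ℕ} {K : Type} [Field K] {D : DField k K} {V : Type} [AddCommGroup V] [Module K V]

/-- An endomorphism fixed by conjugation and not zero is invertible, and its inverse is fixed.

Proof. `LinearMap.ker d` is stable under `S.σ` (`d (S.σ v) = S.cj d (S.σ v) = S.σ (d v) = 0`), so it is `⊥` or
`⊤` (`S.irr`); `d ≠ 0` excludes `⊤`; so `d` is injective, bijective. `S.cj e * d = S.cj (e * d) = 1`. -/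
theorem fixed_inv [FiniteDimensional K V] (S : Sys D V) (d : Module.End K V) (hd : S.cj d = d)
    (hd0 : d ≠ 0) : ∃ e : Module.End K V, d * e = 1 ∧ e * d = 1 ∧ S.cj e = e := by
  have hσ : ∀ v, S.σ (d v) = d (S.σ v) := by
    intro v
    conv_rhs => rw [← hd]
    rw [Sys.cj_apply, S.σ.symm_apply_apply]
  have hker : LinearMap.ker d = ⊥ := by
    rcases S.irr (LinearMap.ker d) (by
      intro v hv
      rw [LinearMap.mem_ker] at hv ⊢
      rw [← hσ, hv, map_zero]) with h | h
    · exact h
    · exact absurd (LinearMap.ker_eq_top.1 h) hd0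
  have hinj : Function.Injective d := LinearMap.ker_eq_bot.1 hker
  have hsurj : Function.Surjective d := LinearMap.injective_iff_surjective.1 hinj
  let E := LinearEquiv.ofBijective d ⟨hinj, hsurj⟩
  have h1 : d * (E.symm : V →ₗ[K] V) = 1 := by
    refine LinearMap.ext fun v => ?_
    exact E.apply_symm_apply v
  have h2 : (E.symm : V →ₗ[K] V) * d = 1 := by
    refine LinearMap.ext fun v => ?_
    exact E.symm_apply_apply v
  refine ⟨(E.symm : V →ₗ[K] V), h1, h2, ?_⟩
  have h3 : S.cj (E.symm : V →ₗ[K] V) * d = 1 := by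
    conv_lhs => rw [← hd]
    rw [← map_mul, h2, map_one]
  calc S.cj (E.symm : V →ₗ[K] V) = S.cj (E.symm : V →ₗ[K] V) * (d * (E.symm : V →ₗ[K] V)) := by
        rw [h1, mul_one]
    _ = (E.symm : V →ₗ[K] V) := by rw [← mul_assoc, h3, one_mul]

/-- A parallel element `c` of the commutant is the sum of an element fixed by conjugation and of
`a - σ a σ⁻¹`, `a` in the commutant and parallel.

Proof. Let `F₀ := D.cst ∅`, `C₀ := {c ∈ comS S.Lam | ∀ j, S.bp j c = 0}`, an `F₀`-subspace of
`Module.End K V` which is finite-dimensional over `F₀` (`par_indep` for the flat system of `comS S.Lam`,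
`exists_flat`: a family in `C₀` which is independent over `F₀` is independent over `K`; or use a parallel basis
of `comS S.Lam`, `exists_par_basis`, `par_iff`). `T c := c - S.cj c` is an `F₀`-linear map `C₀ → C₀`
(`D.fix`, `Sys.cj_smul`, `Sys.cj_bp`, `comS_stab`). It is enough that `ker T ⊓ range T = ⊥`; then
`ker T ⊔ range T = ⊤` by dimension (`LinearMap.isCompl_...`/rank-nullity; `Submodule.finrank_sup_add_...`).
Let `d = a - S.cj a`, `S.cj d = d`, `a ∈ C₀`, and suppose `d ≠ 0`. Take `e` from `fixed_inv`. `e` is parallel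
(`fn_parallel`, `e ∈ S.fn` with `n = 1`). `finrank K V = trace (d * e) = trace (a * e) - trace (S.cj a * S.cj e)
= trace (a * e) - D.θ (trace (a * e))` (`trace_cj`), and `trace (a * e) ∈ cst ∅` since
`D.δ j (trace (a * e)) = trace (S.bp j (a * e)) = 0` (`trace_bp`, `Sys.bp_mul`), so it is fixed by `D.θ`
(`D.fix`): `(finrank K V : K) = 0`, a contradiction (`S.nz`, `CharZero`). -/
theorem c0_split [CharZero K] [FiniteDimensional K V] (S : Sys D V) (c : Module.End K V)
    (hc : c ∈ comS S.Lam) (hc' : ∀ j, S.bp j c = 0) :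
    ∃ d a : Module.End K V, S.cj d = d ∧ c = d + (a - S.cj a) := by
  classical
  obtain ⟨Φ, hΦσ, hΦN⟩ := exists_flat S (Subalgebra.toSubmodule (comS S.Lam))
    (comS_stab S _ (Lam_stab S)) (comS_stabN S _ (Lam_stabN S))
    (fun j x hx => comS_bp_eq_bm S S.Lam j (Submodule.subset_span ⟨j, rfl⟩) x hx)
  obtain ⟨r, e, he⟩ := exists_par_basis Φ
  have hfix : ∀ f : K, f ∈ D.cst ∅ → D.θ f = f := fun f hf =>
    D.fix f fun j => hf j (Set.notMem_empty j)
  -- the matrix of conjugation
  have hpar : ∀ i j, Φ.N j (Φ.σ (e i)) = 0 := by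
    intro i j
    have h := Φ.σN (sft (-1) j) (e i)
    rw [he, map_zero] at h
    have h2 : sft 1 (sft (-1) j) = j := sft_sft_neg 1 j
    rw [h2] at h
    exact h.symm
  have ha : ∀ i l, e.repr (Φ.σ (e i)) l ∈ D.cst ∅ := fun i => (par_iff Φ e he _).1 (hpar i)
  let a : Fin r → Fin r → D.cst ∅ := fun i l => ⟨e.repr (Φ.σ (e i)) l, ha i l⟩
  let T : (Fin r → D.cst ∅) →ₗ[D.cst ∅] (Fin r → D.cst ∅) :=
    { toFun := fun g l => g l - ∑ i, g i * a i l
      map_add' := by
        intro g h
        funext l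
        simp only [Pi.add_apply, add_mul, Finset.sum_add_distrib]
        ring
      map_smul' := by
        intro c g
        funext l
        simp only [Pi.smul_apply, smul_eq_mul, RingHom.id_apply, mul_sub, Finset.mul_sum, mul_assoc] }
  -- the corresponding endomorphisms
  let A : (Fin r → D.cst ∅) → Subalgebra.toSubmodule (comS S.Lam) := fun g => ∑ i, (g i : K) • e i
  have hAinj : ∀ g, A g = 0 → g = 0 := by
    intro g hg
    funext i
    have h := congrArg (fun y => e.repr y i) hg
    simp only [A, map_zero, Finsupp.coe_zero, Pi.zero_apply] at h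
    rw [e.repr_sum_self] at h
    exact Subtype.ext h
  have hAσ : ∀ g, A g - Φ.σ (A g) = A (T g) := by
    intro g
    apply e.repr.injective
    ext l
    have h1 : Φ.σ (A g) = ∑ i, (g i : K) • Φ.σ (e i) := by
      show Φ.σ (∑ i, (g i : K) • e i) = _
      rw [map_sum]
      refine Finset.sum_congr rfl fun i _ => ?_
      rw [Φ.hσ, hfix _ (g i).2]
    have h3 : e.repr (Φ.σ (A g)) l = ∑ i, e.repr ((g i : K) • Φ.σ (e i)) l := by
      rw [h1, map_sum, Finsupp.finsetSum_apply]
    rw [map_sub, Finsupp.sub_apply, h3]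
    show e.repr (∑ i, (g i : K) • e i) l - ∑ i, e.repr ((g i : K) • Φ.σ (e i)) l
      = e.repr (∑ i, (T g i : K) • e i) l
    rw [e.repr_sum_self, e.repr_sum_self]
    have h2 : ∀ i, e.repr ((g i : K) • Φ.σ (e i)) l = (g i : K) * (a i l : K) := by
      intro i
      rw [map_smul, Finsupp.smul_apply, smul_eq_mul]
    rw [Finset.sum_congr rfl fun i _ => h2 i]
    show _ = ((g l - ∑ i, g i * a i l : D.cst ∅) : K)
    push_cast
    rfl
  have hApar : ∀ g j, S.bp j (A g : Module.End K V) = 0 := by
    intro g j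
    rw [← hΦN]
    have h1 : Φ.N j (A g) = 0 := by
      refine (par_iff Φ e he (A g)).2 (fun i => ?_) j
      show e.repr (∑ i, (g i : K) • e i) i ∈ D.cst ∅
      rw [e.repr_sum_self]
      exact (g i).2
    rw [h1]
    rfl
  have hdis : Disjoint (LinearMap.ker T) (LinearMap.range T) := by
    rw [Submodule.disjoint_def]
    intro h hh1 hh2
    obtain ⟨g, hg⟩ := hh2
    rw [LinearMap.mem_ker] at hh1
    by_contra h0
    have hd : S.cj (A h : Module.End K V) = (A h : Module.End K V) := by
      have h1 := hAσ h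
      rw [hh1] at h1
      have h2 : A (0 : Fin r → D.cst ∅) = 0 := by
        show ∑ i, ((0 : Fin r → D.cst ∅) i : K) • e i = 0
        refine Finset.sum_eq_zero fun i _ => ?_
        rw [Pi.zero_apply, ZeroMemClass.coe_zero, zero_smul]
      rw [h2, sub_eq_zero] at h1
      have h3 := congrArg (Subtype.val) h1
      rw [hΦσ] at h3
      exact h3.symm
    have hd0 : (A h : Module.End K V) ≠ 0 := by
      intro h1
      exact h0 (hAinj h (Subtype.ext h1))
    have hda : (A h : Module.End K V) = (A g : Module.End K V) - S.cj (A g : Module.End K V) := by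
      have h1 := congrArg (Subtype.val) (hAσ g)
      rw [hg] at h1
      rw [← hΦσ]
      exact h1.symm
    obtain ⟨E, hE1, _, hE3⟩ := fixed_inv S _ hd hd0
    have hEp : ∀ j, S.bp j E = 0 := fun j =>
      (fn_parallel S E ⟨1, one_pos, by rw [pow_one]; exact hE3⟩ j).1
    have htr : D.θ (LinearMap.trace K V ((A g : Module.End K V) * E))
        = LinearMap.trace K V ((A g : Module.End K V) * E) := by
      refine D.fix _ fun j => ?_
      rw [← trace_bp, Sys.bp_mul, hApar g j, hEp j, zero_mul, mul_zero, add_zero, map_zero]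
    have h1 : LinearMap.trace K V ((A h : Module.End K V) * E) = 0 := by
      rw [hda, sub_mul, map_sub]
      have h2 : S.cj (A g : Module.End K V) * E = S.cj ((A g : Module.End K V) * E) := by
        rw [map_mul, hE3]
      rw [h2, trace_cj, htr, sub_self]
    rw [hE1, LinearMap.trace_one] at h1
    have := S.nz
    have h2 : 0 < Module.finrank K V := Module.finrank_pos
    have h3 : Module.finrank K V = 0 := by exact_mod_cast h1
    omega
  have htop := Submodule.eq_top_of_disjoint (LinearMap.ker T) (LinearMap.range T)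
    (by rw [add_comm, LinearMap.finrank_range_add_finrank_ker]) hdis
  -- coordinates of `c`
  have hcpar : ∀ j, Φ.N j ⟨c, hc⟩ = 0 := by
    intro j
    apply Subtype.ext
    rw [hΦN]
    exact hc' j
  have hcc := (par_iff Φ e he ⟨c, hc⟩).1 hcpar
  let γ : Fin r → D.cst ∅ := fun i => ⟨e.repr ⟨c, hc⟩ i, hcc i⟩
  have hγ : A γ = ⟨c, hc⟩ := e.sum_repr ⟨c, hc⟩
  have hmem : γ ∈ LinearMap.ker T ⊔ LinearMap.range T := by
    rw [htop]
    exact Submodule.mem_top
  obtain ⟨g1, hg1, g2, ⟨g3, hg3⟩, hsum⟩ := Submodule.mem_sup.1 hmem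
  rw [LinearMap.mem_ker] at hg1
  have hadd : ∀ g h, A (g + h) = A g + A h := by
    intro g h
    show ∑ i, ((g + h) i : K) • e i = ∑ i, (g i : K) • e i + ∑ i, (h i : K) • e i
    rw [← Finset.sum_add_distrib]
    refine Finset.sum_congr rfl fun i _ => ?_
    rw [Pi.add_apply, ← add_smul]
    rfl
  refine ⟨A g1, A g3, ?_, ?_⟩
  · have h1 := hAσ g1
    rw [hg1] at h1
    have h2 : A (0 : Fin r → D.cst ∅) = 0 := by
      show ∑ i, ((0 : Fin r → D.cst ∅) i : K) • e i = 0
      refine Finset.sum_eq_zero fun i _ => ?_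
      rw [Pi.zero_apply, ZeroMemClass.coe_zero, zero_smul]
    rw [h2, sub_eq_zero] at h1
    have h3 := congrArg (Subtype.val) h1
    rw [hΦσ] at h3
    exact h3.symm
  · have h1 : (c : Module.End K V) = (A γ : Module.End K V) := by rw [hγ]
    rw [h1, ← hsum, hadd, ← hg3, ← hAσ]
    show (A g1 : Module.End K V) + ((A g3 : Module.End K V) - (Φ.σ (A g3) : Module.End K V)) = _
    rw [hΦσ]

end Pool.Agent.Wb5ab1bf
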