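import Pool.Agent.W_b5ab1bf_h80.ADefs

/-!
# Differential algebra of two groups of variables (helper80)
-/

set_option autoImplicit false

noncomputable section

namespace Pool.Agent.Wb5ab1bf

variable {k : ℕ} {K : Type} [Field K] (D : DField k K)

theorem mem_cst (S : Set (ℤ × Fin k)) (f : K) : f ∈ D.cst S ↔ ∀ j, j ∉ S → D.δ j f = 0 := Iff.rfl

/-- The derivations preserve `cst S`. -/
theorem cst_der (S : Set (ℤ × Fin k)) (f : K) (hf : f ∈ D.cst S) (j : ℤ × Fin k) :
    D.δ j f ∈ D.cst S := by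
  intro i hi
  rw [D.comm, hf i hi, map_zero]

theorem cst_mono {S T : Set (ℤ × Fin k)} (h : S ⊆ T) : D.cst S ≤ D.cst T :=
  fun _ hf j hj => hf j fun hj' => hj (h hj')

theorem ADA_aux (S T : Set (ℤ × Fin k)) (x : K) (hx : x ∈ D.PP S T) :
    ∃ (ι : Type) (_ : Fintype ι) (f c : ι → K), (∀ i, f i ∈ D.cst S) ∧ (∀ i, c i ∈ D.cst T) ∧
      x = ∑ i, f i * c i := by
  induction hx using Subring.closure_induction with
  | mem x hx =>
    rcases hx with hx | hx
    · exact ⟨Unit, inferInstance, fun _ => x, fun _ => 1, fun _ => hx, fun _ => one_mem _, by simp⟩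
    · exact ⟨Unit, inferInstance, fun _ => 1, fun _ => x, fun _ => one_mem _, fun _ => hx, by simp⟩
  | zero =>
    exact ⟨Empty, inferInstance, fun e => e.elim, fun e => e.elim, fun e => e.elim,
      fun e => e.elim, by simp⟩
  | one =>
    exact ⟨Unit, inferInstance, fun _ => 1, fun _ => 1, fun _ => one_mem _, fun _ => one_mem _,
      by simp⟩
  | add x y _ _ ihx ihy =>
    obtain ⟨ι, _, f, c, h1, h2, h3⟩ := ihx
    obtain ⟨ι', _, f', c', h1', h2', h3'⟩ := ihy
    refine ⟨ι ⊕ ι', inferInstance, Sum.elim f f', Sum.elim c c', ?_, ?_, ?_⟩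
    · rintro (i | i)
      · exact h1 i
      · exact h1' i
    · rintro (i | i)
      · exact h2 i
      · exact h2' i
    · rw [Fintype.sum_sum_type, h3, h3']
      rfl
  | neg x _ ihx =>
    obtain ⟨ι, _, f, c, h1, h2, h3⟩ := ihx
    refine ⟨ι, inferInstance, fun i => -f i, c, fun i => neg_mem (h1 i), h2, ?_⟩
    rw [h3, ← Finset.sum_neg_distrib]
    exact Finset.sum_congr rfl fun i _ => (neg_mul _ _).symm
  | mul x y _ _ ihx ihy =>
    obtain ⟨ι, _, f, c, h1, h2, h3⟩ := ihx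
    obtain ⟨ι', _, f', c', h1', h2', h3'⟩ := ihy
    refine ⟨ι × ι', inferInstance, fun p => f p.1 * f' p.2, fun p => c p.1 * c' p.2,
      fun p => mul_mem (h1 _) (h1' _), fun p => mul_mem (h2 _) (h2' _), ?_⟩
    rw [h3, h3', Finset.sum_mul_sum, Fintype.sum_prod_type]
    refine Finset.sum_congr rfl fun i _ => Finset.sum_congr rfl fun j _ => ?_
    ring

theorem ADA_left (S T : Set (ℤ × Fin k)) (x : K) (hx : x ∈ D.cst S) : x ∈ D.PP S T :=
  Subring.subset_closure (Or.inl hx)

theorem ADA_right (S T : Set (ℤ × Fin k)) (x : K) (hx : x ∈ D.cst T) : x ∈ D.PP S T :=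
  Subring.subset_closure (Or.inr hx)

theorem ADA_sum {ι : Type} [Fintype ι] (j : ℤ × Fin k) (f c : ι → K) :
    D.δ j (∑ i, f i * c i) = ∑ i, (f i * D.δ j (c i) + D.δ j (f i) * c i) := by
  rw [map_sum]
  refine Finset.sum_congr rfl fun i _ => ?_
  rw [Derivation.leibniz, smul_eq_mul, smul_eq_mul, mul_comm (c i)]

/-- Elements of `PP S T` are sums of products. Proof: `Subring.closure_induction`; the set of all such sums
is closed under addition, negation and multiplication and contains `cst S` and `cst T`. -/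
theorem mem_PP (S T : Set (ℤ × Fin k)) (x : K) :
    x ∈ D.PP S T ↔ ∃ (n : ℕ) (f c : Fin n → K), (∀ i, f i ∈ D.cst S) ∧ (∀ i, c i ∈ D.cst T) ∧
      x = ∑ i, f i * c i := by
  constructor
  · intro hx
    obtain ⟨ι, _, f, c, h1, h2, h3⟩ := ADA_aux D S T x hx
    have e := Fintype.equivFin ι
    refine ⟨Fintype.card ι, fun i => f (e.symm i), fun i => c (e.symm i), fun i => h1 _,
      fun i => h2 _, ?_⟩
    rw [h3]
    exact (e.symm.sum_comp fun i => f i * c i).symm
  · rintro ⟨n, f, c, h1, h2, rfl⟩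
    exact sum_mem fun i _ => mul_mem (ADA_left D S T _ (h1 i)) (ADA_right D S T _ (h2 i))

/-- The derivations preserve `PP S T`. -/
theorem PP_der (S T : Set (ℤ × Fin k)) (x : K) (hx : x ∈ D.PP S T) (j : ℤ × Fin k) :
    D.δ j x ∈ D.PP S T := by
  obtain ⟨n, f, c, h1, h2, rfl⟩ := (mem_PP D S T x).1 hx
  rw [ADA_sum]
  refine sum_mem fun i _ => add_mem ?_ ?_
  · exact mul_mem (ADA_left D S T _ (h1 i)) (ADA_right D S T _ (cst_der D T _ (h2 i) j))
  · exact mul_mem (ADA_left D S T _ (cst_der D S _ (h1 i) j)) (ADA_right D S T _ (h2 i))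

/-- Differential simplicity: a nonzero ideal `I` of `PP S T` which is stable under the derivations `δ j`,
`j ∈ S`, `j ∉ T`, contains `1`.

Proof. Among the nonzero elements of `I` choose one, `x = ∑_{i < n} f i * c i` (`mem_PP`) with `n` minimal; the
`f i` are not `0`; multiply by `(f 0)⁻¹ ∈ cst S`: we may assume `f 0 = 1`. For `j ∈ S`, `j ∉ T`,
`δ j x = ∑ δ j (f i) * c i` (`δ j (c i) = 0`) is an element of `I` with fewer terms (the term `i = 0` vanishes),
so it is `0`. Also `δ j x = 0` for `j ∉ S ∪ T`. So `x ∈ cst T`, `x⁻¹ ∈ cst T ≤ PP S T` and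
`1 = x⁻¹ * x ∈ I`. -/
theorem ideal_one (S T : Set (ℤ × Fin k)) (I : Set K) (hI : ∀ x ∈ I, x ∈ D.PP S T)
    (hadd : ∀ x ∈ I, ∀ y ∈ I, x + y ∈ I) (hmul : ∀ p ∈ D.PP S T, ∀ x ∈ I, p * x ∈ I)
    (hder : ∀ j, j ∈ S → j ∉ T → ∀ x ∈ I, D.δ j x ∈ I) (hne : ∃ x ∈ I, x ≠ 0) : (1 : K) ∈ I := by
  classical
  have hex : ∃ n : ℕ, ∃ (f c : Fin n → K), (∀ i, f i ∈ D.cst S) ∧ (∀ i, c i ∈ D.cst T) ∧
      (∑ i, f i * c i) ∈ I ∧ (∑ i, f i * c i) ≠ 0 := by
    obtain ⟨x, hx, hx0⟩ := hne
    obtain ⟨n, f, c, h1, h2, h3⟩ := (mem_PP D S T x).1 (hI x hx)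
    exact ⟨n, f, c, h1, h2, h3 ▸ hx, h3 ▸ hx0⟩
  obtain ⟨f, c, h1, h2, h3, h4⟩ := Nat.find_spec hex
  have hmin : ∀ m, m < Nat.find hex → ∀ (f c : Fin m → K), (∀ i, f i ∈ D.cst S) →
      (∀ i, c i ∈ D.cst T) → (∑ i, f i * c i) ∈ I → (∑ i, f i * c i) = 0 := by
    intro m hm f c a1 a2 a3
    by_contra a4
    exact Nat.find_min hex hm ⟨f, c, a1, a2, a3, a4⟩
  revert f c
  generalize Nat.find hex = n at hmin
  intro f c h1 h2 h3 h4
  rcases n with _ | n
  · exact absurd (by simp) h4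
  have hf0 : f 0 ≠ 0 := by
    intro h0
    apply h4
    have e : (∑ i, f i * c i) = ∑ i : Fin n, f i.succ * c i.succ := by
      rw [Fin.sum_univ_succ, h0, zero_mul, zero_add]
    rw [e] at h3 ⊢
    exact hmin n (Nat.lt_succ_self n) _ _ (fun i => h1 _) (fun i => h2 _) h3
  have hinv : (f 0)⁻¹ ∈ D.cst S := inv_mem (h1 0)
  set g : Fin (n + 1) → K := fun i => (f 0)⁻¹ * f i with hg
  have hgS : ∀ i, g i ∈ D.cst S := fun i => mul_mem hinv (h1 i)
  have hg0 : g 0 = 1 := inv_mul_cancel₀ hf0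
  have hx : (∑ i, g i * c i) = (f 0)⁻¹ * ∑ i, f i * c i := by
    rw [Finset.mul_sum]
    exact Finset.sum_congr rfl fun i _ => mul_assoc _ _ _
  have hxI : (∑ i, g i * c i) ∈ I := by
    rw [hx]
    exact hmul _ (ADA_left D S T _ hinv) _ h3
  have hx0 : (∑ i, g i * c i) ≠ 0 := by
    rw [hx]
    exact mul_ne_zero (inv_ne_zero hf0) h4
  have hxT : (∑ i, g i * c i) ∈ D.cst T := by
    intro j hj
    by_cases hjS : j ∈ S
    · have e : D.δ j (∑ i, g i * c i) = ∑ i : Fin n, D.δ j (g i.succ) * c i.succ := by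
        rw [ADA_sum]
        have e1 : ∀ i, g i * D.δ j (c i) + D.δ j (g i) * c i = D.δ j (g i) * c i := by
          intro i
          rw [h2 i j hj, mul_zero, zero_add]
        rw [Finset.sum_congr rfl fun i _ => e1 i, Fin.sum_univ_succ, hg0,
          Derivation.map_one_eq_zero, zero_mul, zero_add]
      have e2 : D.δ j (∑ i, g i * c i) ∈ I := hder j hjS hj _ hxI
      rw [e] at e2 ⊢
      exact hmin n (Nat.lt_succ_self n) _ _ (fun i => cst_der D S _ (hgS _) j) (fun i => h2 _) e2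
    · rw [ADA_sum]
      refine Finset.sum_eq_zero fun i _ => ?_
      rw [h2 i j hj, hgS i j hjS, mul_zero, zero_mul, add_zero]
  have h5 := hmul _ (ADA_right D S T _ (inv_mem hxT)) _ hxI
  rwa [inv_mul_cancel₀ hx0] at h5

/-- Linear disjointness: elements `c i` of `cst T` which are linearly independent over `cst (S ∩ T)` are
linearly independent over `cst S`.

Proof. Suppose there is a nontrivial relation `∑ f i * c i = 0`, `f i ∈ cst S`; choose one with the smallest
number of nonzero `f i` and normalize one of them, `f i₀ = 1`. For `j ∈ S`, `j ∉ T`: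
`∑ δ j (f i) * c i = 0` has fewer nonzero coefficients, so `δ j (f i) = 0` for all `i`. So
`f i ∈ cst (S ∩ T)` for all `i`, a contradiction. -/
theorem lin_disj (S T : Set (ℤ × Fin k)) {ι : Type} [Fintype ι] (c : ι → K)
    (hc : ∀ i, c i ∈ D.cst T)
    (hind : ∀ g : ι → K, (∀ i, g i ∈ D.cst (S ∩ T)) → ∑ i, g i * c i = 0 → ∀ i, g i = 0)
    (f : ι → K) (hf : ∀ i, f i ∈ D.cst S) (h : ∑ i, f i * c i = 0) : ∀ i, f i = 0 := by
  classical
  by_contra hcon
  push Not at hcon
  have hex : ∃ n : ℕ, ∃ f : ι → K, (∀ i, f i ∈ D.cst S) ∧ ∑ i, f i * c i = 0 ∧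
      (∃ i, f i ≠ 0) ∧ (Finset.univ.filter fun i => f i ≠ 0).card = n := ⟨_, f, hf, h, hcon, rfl⟩
  obtain ⟨f, h1, h2, ⟨i₀, hi₀⟩, h4⟩ := Nat.find_spec hex
  have hmin : ∀ g : ι → K, (∀ i, g i ∈ D.cst S) → ∑ i, g i * c i = 0 →
      (Finset.univ.filter fun i => g i ≠ 0).card < (Finset.univ.filter fun i => f i ≠ 0).card →
      ∀ i, g i = 0 := by
    intro g a1 a2 a3
    by_contra a4
    push Not at a4
    rw [h4] at a3
    exact Nat.find_min hex a3 ⟨g, a1, a2, a4, rfl⟩
  have hinv : (f i₀)⁻¹ ∈ D.cst S := inv_mem (h1 i₀)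
  set g : ι → K := fun i => (f i₀)⁻¹ * f i with hg
  have hgS : ∀ i, g i ∈ D.cst S := fun i => mul_mem hinv (h1 i)
  have hg0 : g i₀ = 1 := inv_mul_cancel₀ hi₀
  have hgsum : (∑ i, g i * c i) = 0 := by
    have : (∑ i, g i * c i) = (f i₀)⁻¹ * ∑ i, f i * c i := by
      rw [Finset.mul_sum]
      exact Finset.sum_congr rfl fun i _ => mul_assoc _ _ _
    rw [this, h2, mul_zero]
  have hgz : ∀ i, f i = 0 → g i = 0 := fun i hi => by rw [hg]; simp [hi]
  have hder : ∀ j, j ∈ S → j ∉ T → ∀ i, D.δ j (g i) = 0 := by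
    intro j hjS hjT
    refine hmin (fun i => D.δ j (g i)) (fun i => cst_der D S _ (hgS i) j) ?_ ?_
    · have e : D.δ j (∑ i, g i * c i) = ∑ i, D.δ j (g i) * c i := by
        rw [ADA_sum]
        refine Finset.sum_congr rfl fun i _ => ?_
        rw [hc i j hjT, mul_zero, zero_add]
      rw [← e, hgsum, map_zero]
    · refine Finset.card_lt_card (Finset.ssubset_iff_of_subset ?_ |>.2 ⟨i₀, ?_, ?_⟩)
      · intro i hi
        rw [Finset.mem_filter] at hi ⊢
        refine ⟨hi.1, fun h0 => hi.2 ?_⟩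
        rw [hgz i h0, map_zero]
      · rw [Finset.mem_filter]
        exact ⟨Finset.mem_univ _, hi₀⟩
      · rw [Finset.mem_filter]
        rintro ⟨_, h5⟩
        apply h5
        rw [hg0, Derivation.map_one_eq_zero]
  have hgST : ∀ i, g i ∈ D.cst (S ∩ T) := by
    intro i j hj
    by_cases hjS : j ∈ S
    · exact hder j hjS (fun hjT => hj ⟨hjS, hjT⟩) i
    · exact hgS i j hjS
  have h5 := hind g hgST hgsum i₀
  rw [hg0] at h5
  exact one_ne_zero h5

/-- Finitely many sums of products can be written with the same `c i`, which are linearly independent over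
`cst (S ∩ T)`; if `one = true` one of the `c i` is `1`.

Proof. Write each of the finitely many `x a` as a sum of products (`mem_PP`). Let `E` be the
`cst (S ∩ T)`-subspace of `K` spanned by all the second factors and by `1`; it is finite-dimensional and
contained in `cst T`. Choose a basis of `E` which contains `1` (`1 ≠ 0`; for instance extend the independent
family `{1}`, `Basis.extend`, or `exists_linearIndependent_extension`), and expand the second factors in this
basis; the coefficients are in `cst (S ∩ T) ≤ cst S`. (The vector space structure: `K` over the subfield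
`D.cst (S ∩ T)`.) -/
theorem PP_expand (S T : Set (ℤ × Fin k)) {α : Type} [Finite α] (x : α → K)
    (hx : ∀ a, x a ∈ D.PP S T) :
    ∃ (n : ℕ) (c : Fin (n + 1) → K) (f : α → Fin (n + 1) → K), c 0 = 1 ∧
      (∀ i, c i ∈ D.cst T) ∧
      (∀ g : Fin (n + 1) → K, (∀ i, g i ∈ D.cst (S ∩ T)) → ∑ i, g i * c i = 0 → ∀ i, g i = 0) ∧
      (∀ a i, f a i ∈ D.cst S) ∧ ∀ a, x a = ∑ i, f a i * c i := by
  classical
  have _ := Fintype.ofFinite α
  choose n f c h1 h2 h3 using fun a => (mem_PP D S T (x a)).1 (hx a)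
  set v : Option (Σ a : α, Fin (n a)) → K := fun o => o.elim 1 fun p => c p.1 p.2 with hv
  have hvT : ∀ o, v o ∈ D.cst T := by
    rintro (_ | ⟨a, i⟩)
    · exact one_mem _
    · exact h2 a i
  have hone : LinearIndepOn (D.cst (S ∩ T)) id ({1} : Set K) :=
    LinearIndepOn.singleton (v := id) (i := (1 : K)) one_ne_zero
  obtain ⟨b, hb1, hb2, hb3, hb4⟩ := exists_linearIndepOn_id_extension hone
    (t := Set.range v) (by
      rintro _ rfl
      exact ⟨none, rfl⟩)
  have hbfin : Finite b := (Set.finite_range v).subset hb1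
  have _ := Fintype.ofFinite b
  have h1b : (1 : K) ∈ b := hb2 rfl
  have hne : Nonempty b := ⟨⟨1, h1b⟩⟩
  obtain ⟨N, hN⟩ : ∃ N, Fintype.card b = N + 1 :=
    Nat.exists_eq_succ_of_ne_zero Fintype.card_ne_zero
  have e : Fin (N + 1) ≃ b := (Fintype.equivFinOfCardEq hN).symm
  set e' : Fin (N + 1) ≃ b := (Equiv.swap 0 (e.symm ⟨1, h1b⟩)).trans e with he'
  have he0 : e' 0 = ⟨1, h1b⟩ := by
    rw [he', Equiv.trans_apply, Equiv.swap_apply_left, Equiv.apply_symm_apply]
  set d : Fin (N + 1) → K := fun i => (e' i : K) with hd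
  have hrange : Set.range d = b := by
    ext y
    constructor
    · rintro ⟨i, rfl⟩
      exact (e' i).2
    · intro hy
      exact ⟨e'.symm ⟨y, hy⟩, by rw [hd]; simp⟩
  have hlin : LinearIndependent (D.cst (S ∩ T)) d := by
    have h5 : LinearIndependent (D.cst (S ∩ T)) (fun y : b => (y : K)) := hb4
    exact h5.comp e' e'.injective
  have hspan : ∀ o, ∃ t : Fin (N + 1) → D.cst (S ∩ T), ∑ i, t i • d i = v o := by
    intro o
    have h5 : v o ∈ Submodule.span (D.cst (S ∩ T)) (Set.range d) := by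
      rw [hrange]
      exact hb3 ⟨o, rfl⟩
    exact Submodule.mem_span_range_iff_exists_fun _ |>.1 h5
  choose t ht using hspan
  refine ⟨N, d, fun a l => ∑ i : Fin (n a), f a i * (t (some ⟨a, i⟩) l : K), ?_, ?_, ?_, ?_, ?_⟩
  · rw [hd]
    simp only [he0]
  · intro i
    obtain ⟨o, ho⟩ := hb1 (e' i).2
    show (e' i : K) ∈ D.cst T
    rw [← ho]
    exact hvT o
  · intro g hg hsum i
    have h5 := Fintype.linearIndependent_iff.1 hlin (fun i => ⟨g i, hg i⟩) (by
      rw [← hsum]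
      exact Finset.sum_congr rfl fun i _ => rfl) i
    exact congrArg Subtype.val h5
  · intro a i
    exact sum_mem fun l _ => mul_mem (h1 a l)
      (cst_mono D Set.inter_subset_left (t (some ⟨a, l⟩) i).2)
  · intro a
    rw [h3 a]
    have e1 : ∀ i : Fin (n a), f a i * c a i = ∑ l, f a i * (t (some ⟨a, i⟩) l : K) * d l := by
      intro i
      have h5 := ht (some ⟨a, i⟩)
      have h6 : v (some ⟨a, i⟩) = c a i := rfl
      rw [h6] at h5
      rw [← h5, Finset.mul_sum]
      refine Finset.sum_congr rfl fun l _ => ?_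
      rw [mul_assoc]
      rfl
    rw [Finset.sum_congr rfl fun i _ => e1 i, Finset.sum_comm]
    refine Finset.sum_congr rfl fun l _ => ?_
    rw [Finset.sum_mul]

end Pool.Agent.Wb5ab1bf
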