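import Pool.Agent.W_b5ab1bf_h80.AZen

/-!
# Endomorphisms with finite orbit (helper80)
-/

set_option autoImplicit false

noncomputable section

namespace Pool.Agent.Wb5ab1bf

variable {k : ℕ} {K : Type} [Field K] {D : DField k K} {V : Type} [AddCommGroup V] [Module K V]

theorem ADin_pow_succ (S : Sys D V) (n : ℕ) (x : Module.End K V) :
    (S.cj ^ (n + 1)) x = S.cj ((S.cj ^ n) x) := by
  rw [pow_succ']
  rfl

theorem ADin_pow_bm (S : Sys D V) (n : ℕ) (j : ℤ × Fin k) (x : Module.End K V) :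
    (S.cj ^ n) (S.bm j x) = S.bm (sft n j) ((S.cj ^ n) x) := by
  induction n with
  | zero => rw [Nat.cast_zero, sft_zero]; rfl
  | succ n ih =>
    rw [ADin_pow_succ, ADin_pow_succ, ih, Sys.cj_bm, sft_sft, Nat.cast_add, Nat.cast_one]

theorem ADin_pow_bp (S : Sys D V) (n : ℕ) (j : ℤ × Fin k) (x : Module.End K V) :
    (S.cj ^ n) (S.bp j x) = S.bp (sft n j) ((S.cj ^ n) x) := by
  induction n with
  | zero => rw [Nat.cast_zero, sft_zero]; rfl
  | succ n ih =>
    rw [ADin_pow_succ, ADin_pow_succ, ih, Sys.cj_bp, sft_sft, Nat.cast_add, Nat.cast_one]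

theorem ADin_pow_mul (S : Sys D V) (n : ℕ) (x : Module.End K V) (h : (S.cj ^ n) x = x) (i : ℕ) :
    (S.cj ^ (n * i)) x = x := by
  induction i with
  | zero => rfl
  | succ i ih =>
    rw [Nat.mul_succ, pow_add]
    show (S.cj ^ (n * i)) ((S.cj ^ n) x) = x
    rw [h, ih]

/-- The endomorphisms with finite orbit are parallel.

Proof. Let `n > 0`, `(S.cj ^ n) x = x`. `(S.cj ^ n) (S.bm j x) = S.bm (sft n j) x` (induction with
`Sys.cj_bm`, `sft_sft`), so `(S.cj ^ (n * i)) (S.bm j x) = S.bm (sft (n * i) j) x` for all `i : ℕ`, and this is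
`0` for `i` large (`bm_fin`). So `S.bm j x = 0`. In the same way with `S.cj.symm` and `bp_fin`:
`S.bp j x = 0`. -/
theorem fn_parallel [FiniteDimensional K V] (S : Sys D V) (x : Module.End K V) (hx : x ∈ S.fn)
    (j : ℤ × Fin k) : S.bp j x = 0 ∧ S.bm j x = 0 := by
  obtain ⟨n, hn, hx⟩ := hx
  constructor
  · obtain ⟨n₀, h⟩ := bp_fin S x
    have h1 := ADin_pow_bp S (n * (j.1 - n₀).toNat) (sft (-((n * (j.1 - n₀).toNat : ℕ) : ℤ)) j) x
    rw [sft_sft, neg_add_cancel, sft_zero, ADin_pow_mul S n x hx, h, map_zero] at h1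
    · exact h1.symm
    · rw [sft_fst]
      have h2 : (j.1 - n₀).toNat ≤ n * (j.1 - n₀).toNat := Nat.le_mul_of_pos_left _ hn
      omega
  · obtain ⟨n₀, h⟩ := bm_fin S x
    have h1 := ADin_pow_bm S (n * (n₀ - j.1).toNat) j x
    have h3 : S.bm (sft ((n * (n₀ - j.1).toNat : ℕ) : ℤ) j) x = 0 := by
      apply h
      rw [sft_fst]
      have h2 : (n₀ - j.1).toNat ≤ n * (n₀ - j.1).toNat := Nat.le_mul_of_pos_left _ hn
      omega
    rw [ADin_pow_mul S n x hx, h3] at h1
    exact (map_eq_zero_iff _ (RingEquiv.injective (S.cj ^ (n * (n₀ - j.1).toNat)))).1 h1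

theorem fn_add (S : Sys D V) (x y : Module.End K V) (hx : x ∈ S.fn) (hy : y ∈ S.fn) :
    x + y ∈ S.fn := by
  obtain ⟨n, hn, hx⟩ := hx
  obtain ⟨m, hm, hy⟩ := hy
  refine ⟨n * m, Nat.mul_pos hn hm, ?_⟩
  have h1 := ADin_pow_mul S m y hy n
  rw [mul_comm] at h1
  rw [map_add, ADin_pow_mul S n x hx, h1]

theorem fn_mul (S : Sys D V) (x y : Module.End K V) (hx : x ∈ S.fn) (hy : y ∈ S.fn) :
    x * y ∈ S.fn := by
  obtain ⟨n, hn, hx⟩ := hx
  obtain ⟨m, hm, hy⟩ := hy
  refine ⟨n * m, Nat.mul_pos hn hm, ?_⟩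
  have h1 := ADin_pow_mul S m y hy n
  rw [mul_comm] at h1
  rw [map_mul, ADin_pow_mul S n x hx, h1]

theorem fn_cj (S : Sys D V) (x : Module.End K V) (hx : x ∈ S.fn) :
    S.cj x ∈ S.fn ∧ S.cj.symm x ∈ S.fn := by
  obtain ⟨n, hn, hx⟩ := hx
  have h1 : ∀ y, (S.cj ^ n) (S.cj y) = S.cj ((S.cj ^ n) y) := by
    intro y
    rw [← ADin_pow_succ, pow_succ]
    rfl
  refine ⟨⟨n, hn, ?_⟩, ⟨n, hn, ?_⟩⟩
  · rw [h1, hx]
  · apply S.cj.injective
    rw [← h1, RingEquiv.apply_symm_apply, hx]

/-- They are in the commutant of `S.Lam`. Proof: `fn_parallel` and `Sys.bm_sub_bp`: they commute with all the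
`S.Dj j`, so with their span. -/
theorem fn_comS [FiniteDimensional K V] (S : Sys D V) (x : Module.End K V) (hx : x ∈ S.fn) :
    x ∈ comS S.Lam := by
  rw [mem_comS]
  intro y hy
  unfold Sys.Lam at hy
  induction hy using Submodule.span_induction with
  | mem y hy =>
    obtain ⟨j, rfl⟩ := hy
    have h := S.bm_sub_bp j x
    obtain ⟨h1, h2⟩ := fn_parallel S x hx j
    rw [h1, h2, sub_zero] at h
    exact (sub_eq_zero.1 h.symm)
  | zero => rw [zero_mul, mul_zero]
  | add a b _ _ ha hb => rw [add_mul, mul_add, ha, hb]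
  | smul c a _ ha => rw [smul_mul_assoc, mul_smul_comm, ha]

/-- The span of the endomorphisms with finite orbit is stable. -/
theorem span_fn_stab (S : Sys D V) : Stab S (Submodule.span K S.fn) := by
  refine ⟨fun x hx => ?_, fun x hx => ?_⟩
  · induction hx using Submodule.span_induction with
    | mem x hx => exact Submodule.subset_span (fn_cj S x hx).1
    | zero => rw [map_zero]; exact zero_mem _
    | add x y _ _ hx hy => rw [map_add]; exact add_mem hx hy
    | smul c x _ hx => rw [Sys.cj_smul]; exact Submodule.smul_mem _ _ hx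
  · induction hx using Submodule.span_induction with
    | mem x hx => exact Submodule.subset_span (fn_cj S x hx).2
    | zero => rw [map_zero]; exact zero_mem _
    | add x y _ _ hx hy => rw [map_add]; exact add_mem hx hy
    | smul c x _ hx => rw [Sys.cj_symm_smul]; exact Submodule.smul_mem _ _ hx

/-- Proof: `Submodule.span_induction`, `Sys.bp_smul`, `fn_parallel`. -/
theorem span_fn_stabN [FiniteDimensional K V] (S : Sys D V) :
    StabN S (Submodule.span K S.fn) := by
  refine ⟨fun j x hx => ?_, fun j x hx => ?_⟩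
  · induction hx using Submodule.span_induction with
    | mem x hx => rw [(fn_parallel S x hx j).1]; exact zero_mem _
    | zero => rw [show S.bp j 0 = 0 from brL_zero _]; exact zero_mem _
    | add x y _ _ hx hy => rw [Sys.bp_add]; exact add_mem hx hy
    | smul c x hx' hx =>
      rw [Sys.bp_smul]
      exact add_mem (Submodule.smul_mem _ _ hx') (Submodule.smul_mem _ _ hx)
  · induction hx using Submodule.span_induction with
    | mem x hx => rw [(fn_parallel S x hx j).2]; exact zero_mem _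
    | zero => rw [show S.bm j 0 = 0 from brL_zero _]; exact zero_mem _
    | add x y _ _ hx hy => rw [Sys.bm_add]; exact add_mem hx hy
    | smul c x hx' hx =>
      rw [Sys.bm_smul]
      exact add_mem (Submodule.smul_mem _ _ hx') (Submodule.smul_mem _ _ hx)

end Pool.Agent.Wb5ab1bf
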