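import Pool.Agent.W_b5ab1bf_h80.ADefs

/-!
# Nilpotent endomorphisms and traces (helper80)
-/

set_option autoImplicit false

noncomputable section

namespace Pool.Agent.Wb5ab1bf

variable {K : Type} [Field K] {V : Type} [AddCommGroup V] [Module K V]

/-- In characteristic zero an endomorphism all of whose powers have trace `0` is nilpotent.

Proof. Suppose `x` is not nilpotent. Fitting: for `n` large `V = ker (x^n) ⊕ range (x^n)`
(`LinearMap.eventually_isCompl_ker_pow_range_pow`), both stable under `x`, `V₁ := range (x^n) ≠ 0`, and the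
restriction `x₁` of `x` to `V₁` is injective, so bijective. The characteristic polynomial (or minimal
polynomial) of `x₁` has a nonzero constant coefficient, so there is a polynomial `q` with `q(0) = 0` and
`q(x₁) = 1`. Replace `q` by `X^n * r` (`q(x₁)^n = 1` and `q^n` is divisible by `X^n`): then
`q(x)` is `0` on `ker (x^n)` and the identity on `V₁`, so it is a projection onto `V₁` and its trace is
`finrank K V₁ ≠ 0` (`LinearMap.IsProj.trace` or `LinearMap.trace_eq_sum_trace_restrict`); but
`trace (q(x)) = ∑ q_n trace (x^n) = 0` because `q(0) = 0`.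
(Other proofs are fine, for instance over the algebraic closure with the eigenvalues, or Newton's
identities; look for an existing lemma in Mathlib first.) -/
theorem isNilpotent_of_trace [CharZero K] [FiniteDimensional K V] (x : Module.End K V)
    (h : ∀ n : ℕ, 0 < n → LinearMap.trace K V (x ^ n) = 0) : IsNilpotent x := by
  have hint : IsIntegral K x := Algebra.IsIntegral.isIntegral x
  have hp0 : minpoly K x ≠ 0 := minpoly.ne_zero hint
  obtain ⟨q, hq, hq'⟩ :=
    Polynomial.exists_eq_pow_rootMultiplicity_mul_and_not_dvd (minpoly K x) hp0 0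
  rw [Polynomial.C_0, sub_zero] at hq hq'
  generalize Polynomial.rootMultiplicity 0 (minpoly K x) = a at hq
  have hcop : IsCoprime (Polynomial.X : Polynomial K) q :=
    (Polynomial.irreducible_X.coprime_iff_not_dvd).2 hq'
  obtain ⟨u, v, huv⟩ := (hcop.pow_left (m := a + 1))
  have hx0 : x ^ a * Polynomial.aeval x q = 0 := by
    have h1 := minpoly.aeval K x
    rw [hq, map_mul, map_pow, Polynomial.aeval_X] at h1
    exact h1
  have hx0' : Polynomial.aeval x q * x ^ a = 0 := by
    have h1 := minpoly.aeval K x
    rw [hq, mul_comm, map_mul, map_pow, Polynomial.aeval_X] at h1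
    exact h1
  have huv' := congrArg (Polynomial.aeval x) huv
  rw [map_add, map_mul, map_mul, map_pow, Polynomial.aeval_X, map_one] at huv'
  have htr : ∀ w : Polynomial K,
      LinearMap.trace K V (Polynomial.aeval x w * x ^ (a + 1)) = 0 := by
    intro w
    induction w using Polynomial.induction_on' with
    | add w w' hw hw' => rw [map_add, add_mul, map_add, hw, hw', add_zero]
    | monomial n c =>
      rw [Polynomial.aeval_monomial, mul_assoc, ← pow_add, ← Algebra.smul_def, map_smul,
        h _ (by omega), smul_zero]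
  have hid : IsIdempotentElem (Polynomial.aeval x u * x ^ (a + 1)) := by
    show Polynomial.aeval x u * x ^ (a + 1) * (Polynomial.aeval x u * x ^ (a + 1)) = _
    have h1 : Polynomial.aeval x u * x ^ (a + 1) = 1 - Polynomial.aeval x v * Polynomial.aeval x q :=
      eq_sub_of_add_eq huv'
    have h2 : Polynomial.aeval x v * Polynomial.aeval x q *
        (Polynomial.aeval x u * x ^ (a + 1)) = 0 := by
      have h3 : Polynomial.aeval x q * Polynomial.aeval x u =
          Polynomial.aeval x u * Polynomial.aeval x q := by
        rw [← map_mul, mul_comm, map_mul]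
      have h4 : Polynomial.aeval x q * x ^ (a + 1) = 0 := by
        rw [pow_succ, ← mul_assoc, hx0', zero_mul]
      rw [mul_assoc, ← mul_assoc (Polynomial.aeval x q), h3, mul_assoc, h4, mul_zero, mul_zero]
    conv_lhs => rw [h1]
    rw [sub_mul, ← h1, one_mul, h2, sub_zero]
  have he : Polynomial.aeval x u * x ^ (a + 1) = 0 :=
    (LinearMap.IsIdempotentElem.trace_eq_zero_iff hid).1 (htr u)
  rw [he, zero_add] at huv'
  refine ⟨a, ?_⟩
  have h5 : x ^ a = (Polynomial.aeval x v * Polynomial.aeval x q) * x ^ a := by
    rw [huv', one_mul]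
  rw [h5, mul_assoc, hx0', mul_zero]

/-- The trace form of `V` on the commutators: `trace ((x y - y x) z) = trace (x (y z - z y))`. -/
theorem trace_comm_mul [FiniteDimensional K V] (x y z : Module.End K V) :
    LinearMap.trace K V ((x * y - y * x) * z) = LinearMap.trace K V (x * (y * z - z * y)) := by
  rw [sub_mul, mul_sub, map_sub, map_sub, mul_assoc, mul_assoc, LinearMap.trace_mul_comm K y (x * z),
    mul_assoc]

/-- If `b = ∑ (x_i y_i - y_i x_i)` where all the `y_i` commute with `b` then `b` is nilpotent.

Proof. `trace (b^n) = ∑ trace (b^(n-1) (x_i y_i - y_i x_i)) = ∑ (trace (b^(n-1) x_i y_i) -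
trace (y_i b^(n-1) x_i)) = 0` for `n ≥ 1` (`LinearMap.trace_mul_comm`), use `isNilpotent_of_trace`. -/
theorem isNilpotent_of_comm [CharZero K] [FiniteDimensional K V] {ι : Type} (s : Finset ι)
    (x y : ι → Module.End K V) (b : Module.End K V) (hb : b = ∑ i ∈ s, (x i * y i - y i * x i))
    (h : ∀ i ∈ s, b * y i = y i * b) : IsNilpotent b := by
  apply isNilpotent_of_trace
  intro n hn
  obtain ⟨m, rfl⟩ : ∃ m, n = m + 1 := ⟨n - 1, by omega⟩
  have hb' : b ^ (m + 1) = b ^ m * ∑ i ∈ s, (x i * y i - y i * x i) := by
    rw [pow_succ, ← hb]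
  rw [hb', Finset.mul_sum, map_sum]
  refine Finset.sum_eq_zero fun i hi => ?_
  have h1 : b ^ m * y i = y i * b ^ m := by
    have : Commute b (y i) := h i hi
    exact (this.pow_left m).eq
  rw [mul_sub, map_sub, ← mul_assoc, ← mul_assoc, h1, LinearMap.trace_mul_comm K (b ^ m * x i),
    ← mul_assoc, sub_self]

end Pool.Agent.Wb5ab1bf
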