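import Pool.Agent.W_b5ab1bf_h80.ALam
import Pool.Agent.W_b5ab1bf_h80.ANil

/-!
# Consequences of irreducibility (helper80)
-/

set_option autoImplicit false

noncomputable section

namespace Pool.Agent.Wb5ab1bf

variable {k : ℕ} {K : Type} [Field K] {D : DField k K} {V : Type} [AddCommGroup V] [Module K V]

/-- The vectors killed by all products of `n` elements of `I`. -/
def AEng.W (I : Submodule K (Module.End K V)) : ℕ → Submodule K V
  | 0 => ⊥
  | n + 1 =>
    { carrier := {v | ∀ x ∈ I, x v ∈ AEng.W I n}
      add_mem' := by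
        intro a b ha hb x hx
        rw [map_add]
        exact add_mem (ha x hx) (hb x hx)
      zero_mem' := by
        intro x _
        rw [map_zero]
        exact zero_mem _
      smul_mem' := by
        intro c a ha x hx
        rw [map_smul]
        exact Submodule.smul_mem _ c (ha x hx) }

theorem AEng.mem_W_succ (I : Submodule K (Module.End K V)) (n : ℕ) (v : V) :
    v ∈ AEng.W I (n + 1) ↔ ∀ x ∈ I, x v ∈ AEng.W I n := Iff.rfl

attribute [local instance 100] LieRing.ofAssociativeRing

/-- Engel's theorem. -/
theorem AEng.exists_W_top [FiniteDimensional K V] (I : Submodule K (Module.End K V))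
    (hlie : LieCl I) (hnil : ∀ x ∈ I, IsNilpotent x) : ∃ n, AEng.W I n = ⊤ := by
  let I' : LieSubalgebra K (Module.End K V) :=
    { I with lie_mem' := fun {x y} hx hy => hlie x hx y hy }
  have hI : ∀ x, x ∈ I' ↔ x ∈ I := fun x => Iff.rfl
  have h1 : LieModule.IsNilpotent I' V := by
    refine (LieModule.isNilpotent_iff_forall' (R := K)).2 fun x => ?_
    have h2 : LieModule.toEnd K I' V x = (x : Module.End K V) := by
      ext v
      rfl
    rw [h2]
    exact hnil _ x.2
  obtain ⟨k, hk⟩ := (LieModule.isNilpotent_iff_exists_ucs_eq_top K).1 h1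
  refine ⟨k, ?_⟩
  have key : ∀ n, ∀ v : V, v ∈ (⊥ : LieSubmodule K I' V).ucs n ↔ v ∈ AEng.W I n := by
    intro n
    induction n with
    | zero =>
      intro v
      rw [LieSubmodule.ucs_zero]
      exact Iff.rfl
    | succ n ih =>
      intro v
      rw [LieSubmodule.ucs_succ, LieSubmodule.mem_normalizer, AEng.mem_W_succ]
      constructor
      · intro h x hx
        exact (ih _).1 (h ⟨x, hx⟩)
      · intro h x
        exact (ih _).2 (h x.1 x.2)
  rw [eq_top_iff]
  intro v _
  rw [← key k v, hk]
  exact LieSubmodule.mem_top v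

/-- Engel and irreducibility: a Lie algebra of nilpotent endomorphisms which is stable under conjugation by
`σ⁻¹` is zero.

Proof. `N` is a Lie subalgebra of `Module.End K V` (use `attribute [local instance 100]
LieRing.ofAssociativeRing` and `LieSubalgebra`), acting on `V`; by Engel's theorem
(`LieModule.isNilpotent_iff_forall'` or `LieModule.isNilpotent_iff_forall`) `V` is a nilpotent module, and
`V ≠ 0` (`S.nz`), so `U := {v | ∀ x ∈ N, x v = 0}` is not `⊥`
(`LieModule.nontrivial_max_triv_of_isNilpotent`). `U` is stable under `S.σ`: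
`x (S.σ v) = S.σ ((S.cj.symm x) v) = 0` for `v ∈ U`, `x ∈ N`. By `S.irr`, `U = ⊤`, so every `x ∈ N` is `0`. -/
theorem eng [FiniteDimensional K V] (S : Sys D V) (N : Submodule K (Module.End K V))
    (hlie : LieCl N) (hnil : ∀ x ∈ N, IsNilpotent x) (hcj : ∀ x ∈ N, S.cj.symm x ∈ N) : N = ⊥ := by
  obtain ⟨n, hn⟩ := AEng.exists_W_top N hlie hnil
  have hσ : ∀ v ∈ AEng.W N 1, S.σ v ∈ AEng.W N 1 := by
    intro v hv x hx
    have h1 : S.cj.symm x v = 0 := hv _ (hcj x hx)
    have h2 : S.σ (S.cj.symm x v) = x (S.σ v) := by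
      rw [Sys.cj_symm_apply]
      exact S.σ.apply_symm_apply _
    rw [h1, map_zero] at h2
    rw [← h2]
    exact zero_mem _
  have := S.nz
  rcases S.irr _ hσ with h | h
  · exfalso
    have h0 : ∀ m, AEng.W N m = ⊥ := by
      intro m
      induction m with
      | zero => rfl
      | succ m ih =>
        rw [eq_bot_iff, ← h]
        intro v hv x hx
        have := hv x hx
        rw [ih] at this
        exact this
    rw [h0 n] at hn
    exact bot_ne_top hn
  · rw [eq_bot_iff]
    intro x hx
    rw [Submodule.mem_bot]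
    ext v
    have hv : v ∈ AEng.W N 1 := by
      rw [h]
      exact Submodule.mem_top
    exact hv x hx

/-- The trace form is nondegenerate on every subalgebra which is stable under conjugation.

Proof. Let `N := {b ∈ B | ∀ c ∈ B, trace (b * c) = 0}`, a `K`-subspace. It is a two-sided ideal of `B`
(`LinearMap.trace_mul_comm`), so `LieCl N` holds. For `b ∈ N` and `n ≥ 1`, `trace (b^n) =
trace (b * b^(n-1)) = 0`, so `b` is nilpotent (`isNilpotent_of_trace`). It is stable under `S.cj.symm`:
`trace (S.cj.symm b * c) = D.θ.symm (trace (b * S.cj c)) = 0` (`trace_cj_symm`). Use `eng`. -/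
theorem trform [CharZero K] [FiniteDimensional K V] (S : Sys D V)
    (B : Subalgebra K (Module.End K V)) (hB : ∀ x ∈ B, S.cj x ∈ B)
    (hB' : ∀ x ∈ B, S.cj.symm x ∈ B) (b : Module.End K V) (hb : b ∈ B)
    (h : ∀ c ∈ B, LinearMap.trace K V (b * c) = 0) : b = 0 := by
  let N : Submodule K (Module.End K V) :=
    { carrier := {b | b ∈ B ∧ ∀ c ∈ B, LinearMap.trace K V (b * c) = 0}
      add_mem' := by
        intro a b ha hb
        refine ⟨add_mem ha.1 hb.1, fun c hc => ?_⟩
        rw [add_mul, map_add, ha.2 c hc, hb.2 c hc, add_zero]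
      zero_mem' := by
        refine ⟨zero_mem _, fun c _ => ?_⟩
        rw [zero_mul, map_zero]
      smul_mem' := by
        intro t a ha
        refine ⟨B.smul_mem ha.1 t, fun c hc => ?_⟩
        rw [smul_mul_assoc, map_smul, ha.2 c hc, smul_zero] }
  have hN : ∀ x, x ∈ N ↔ x ∈ B ∧ ∀ c ∈ B, LinearMap.trace K V (x * c) = 0 := fun x => Iff.rfl
  have hlie : LieCl N := by
    intro x hx y hy
    rw [hN] at hx hy ⊢
    refine ⟨sub_mem (mul_mem hx.1 hy.1) (mul_mem hy.1 hx.1), fun c hc => ?_⟩
    rw [sub_mul, map_sub, mul_assoc, mul_assoc, hx.2 _ (mul_mem hy.1 hc),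
      hy.2 _ (mul_mem hx.1 hc), sub_zero]
  have hnil : ∀ x ∈ N, IsNilpotent x := by
    intro x hx
    rw [hN] at hx
    refine isNilpotent_of_trace x fun n hn => ?_
    obtain ⟨m, rfl⟩ : ∃ m, n = m + 1 := ⟨n - 1, by omega⟩
    rw [pow_succ']
    exact hx.2 _ (pow_mem hx.1 m)
  have hcj : ∀ x ∈ N, S.cj.symm x ∈ N := by
    intro x hx
    rw [hN] at hx ⊢
    refine ⟨hB' x hx.1, fun c hc => ?_⟩
    have h1 : S.cj.symm x * c = S.cj.symm (x * S.cj c) := by
      rw [map_mul, RingEquiv.symm_apply_apply]
    rw [h1, trace_cj_symm, hx.2 _ (hB c hc), map_zero]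
  have hbot := eng S N hlie hnil hcj
  have hbN : b ∈ N := (hN b).2 ⟨hb, h⟩
  rw [hbot] at hbN
  exact (Submodule.mem_bot K).1 hbN

/-- An ideal (of a Lie algebra stable under conjugation) which consists of nilpotent elements is zero.

Proof. Let `A := Algebra.adjoin K (L : Set _)`; it is stable under `S.cj`, `S.cj.symm`. Let `b ∈ I`; by
`trform` for `A` it is enough to show `trace (b * a) = 0` for `a ∈ A`, and for this it is enough that
`b * a` is nilpotent. By Engel's theorem `V` is a nilpotent module over the Lie algebra `I`: there is `n` such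
that every product of `n` elements of `I` is `0` on `V` (lower central series). Let
`W i := span of the x_1 ... x_i v`, `x_1, ..., x_i ∈ I`, `v ∈ V` (`W 0 = ⊤`, `W n = ⊥`, `b` maps `W i` into
`W (i + 1)`). Each `W i` is stable under `L`, so under `A`: induction on `i`, `y x w = x y w + (y x - x y) w`
with `y x - x y ∈ I`. (In Mathlib language: `I` as a Lie ideal of `L`, `LieIdeal.lcs I V i` are
`L`-submodules.) So `b * a` maps `W i` into `W (i + 1)` and `(b * a)^n = 0`. -/
theorem nil_ideal [CharZero K] [FiniteDimensional K V] (S : Sys D V)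
    (L I : Submodule K (Module.End K V)) (hL : LieCl L) (hs : Stab S L) (hI : IdealOf I L)
    (hnil : ∀ x ∈ I, IsNilpotent x) : I = ⊥ := by
  have hlie : LieCl I := fun x hx y hy => hI.2 x (hI.1 hx) y hy
  obtain ⟨n, hn⟩ := AEng.exists_W_top I hlie hnil
  have hLW : ∀ m, ∀ y ∈ L, ∀ v ∈ AEng.W I m, y v ∈ AEng.W I m := by
    intro m
    induction m with
    | zero =>
      intro y _ v hv
      have : v = 0 := hv
      rw [this, map_zero]
      exact zero_mem _
    | succ m ih =>
      intro y hy v hv x hx
      have h1 : x (y v) = y (x v) - (y * x - x * y) v := by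
        rw [LinearMap.sub_apply, Module.End.mul_apply, Module.End.mul_apply]
        abel
      rw [h1]
      exact sub_mem (ih y hy _ (hv x hx)) (hv _ (hI.2 y hy x hx))
  let A := Algebra.adjoin K (L : Set (Module.End K V))
  have hAW : ∀ a ∈ A, ∀ m, ∀ v ∈ AEng.W I m, a v ∈ AEng.W I m := by
    intro a ha
    induction ha using Algebra.adjoin_induction with
    | mem x hx => exact fun m v hv => hLW m x hx v hv
    | algebraMap r =>
      intro m v hv
      rw [Module.algebraMap_end_apply]
      exact Submodule.smul_mem _ r hv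
    | add x y _ _ hx hy =>
      intro m v hv
      rw [LinearMap.add_apply]
      exact add_mem (hx m v hv) (hy m v hv)
    | mul x y _ _ hx hy =>
      intro m v hv
      rw [Module.End.mul_apply]
      exact hx m _ (hy m v hv)
  have hA1 : ∀ x ∈ A, S.cj x ∈ A := by
    intro x hx
    induction hx using Algebra.adjoin_induction with
    | mem x hx => exact Algebra.subset_adjoin (hs.1 x hx)
    | algebraMap r =>
      have h1 : S.cj (algebraMap K (Module.End K V) r) = algebraMap K _ (D.θ r) := by
        rw [Algebra.algebraMap_eq_smul_one, Algebra.algebraMap_eq_smul_one, Sys.cj_smul, map_one]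
      rw [h1]
      exact Subalgebra.algebraMap_mem _ _
    | add x y _ _ hx hy =>
      rw [map_add]
      exact add_mem hx hy
    | mul x y _ _ hx hy =>
      rw [map_mul]
      exact mul_mem hx hy
  have hA2 : ∀ x ∈ A, S.cj.symm x ∈ A := by
    intro x hx
    induction hx using Algebra.adjoin_induction with
    | mem x hx => exact Algebra.subset_adjoin (hs.2 x hx)
    | algebraMap r =>
      have h1 : S.cj.symm (algebraMap K (Module.End K V) r) = algebraMap K _ (D.θ.symm r) := by
        rw [Algebra.algebraMap_eq_smul_one, Algebra.algebraMap_eq_smul_one, Sys.cj_symm_smul,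
          map_one]
      rw [h1]
      exact Subalgebra.algebraMap_mem _ _
    | add x y _ _ hx hy =>
      rw [map_add]
      exact add_mem hx hy
    | mul x y _ _ hx hy =>
      rw [map_mul]
      exact mul_mem hx hy
  rw [eq_bot_iff]
  intro b hb
  rw [Submodule.mem_bot]
  refine trform S A hA1 hA2 b (Algebra.subset_adjoin (hI.1 hb)) fun a ha => ?_
  have hdown : ∀ m, ∀ v ∈ AEng.W I m, ((b * a) ^ m) v = 0 := by
    intro m
    induction m with
    | zero =>
      intro v hv
      have : v = 0 := hv
      rw [this, map_zero]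
    | succ m ih =>
      intro v hv
      rw [pow_succ, Module.End.mul_apply]
      refine ih _ ?_
      rw [Module.End.mul_apply]
      exact (hAW a ha (m + 1) v hv) b hb
  have hnilp : IsNilpotent (b * a) := by
    refine ⟨n, ?_⟩
    ext v
    refine hdown n v ?_
    rw [hn]
    exact Submodule.mem_top
  exact (LinearMap.isNilpotent_trace_of_isNilpotent hnilp).eq_zero

/-- An abelian ideal is central.

Proof. Let `J := span K {x * y - y * x | x ∈ L, y ∈ I}`; `J ≤ I` and `J` is an ideal of `L` (Jacobi identity).
An element `b ∈ J` is a finite sum `∑ (x_i y_i - y_i x_i)` with `x_i ∈ L`, `y_i ∈ I` (scalars are absorbed in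
`x_i`), and it commutes with `y_i` as `b ∈ I`; by `isNilpotent_of_comm` it is nilpotent. By `nil_ideal`
`J = ⊥`. -/
theorem ab_ideal [CharZero K] [FiniteDimensional K V] (S : Sys D V)
    (L I : Submodule K (Module.End K V)) (hL : LieCl L) (hs : Stab S L) (hI : IdealOf I L)
    (hab : ∀ x ∈ I, ∀ y ∈ I, x * y = y * x) : ∀ x ∈ L, ∀ y ∈ I, x * y = y * x := by
  let J : Submodule K (Module.End K V) :=
    Submodule.span K {z | ∃ x ∈ L, ∃ y ∈ I, z = x * y - y * x}
  have hJI : J ≤ I := by
    refine Submodule.span_le.2 ?_
    rintro z ⟨x, hx, y, hy, rfl⟩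
    exact hI.2 x hx y hy
  have hJ : IdealOf J L := by
    refine ⟨hJI.trans hI.1, fun x hx z hz => ?_⟩
    induction hz using Submodule.span_induction with
    | mem z hz =>
      obtain ⟨x', hx', y, hy, rfl⟩ := hz
      have h1 : x * (x' * y - y * x') - (x' * y - y * x') * x =
          ((x * x' - x' * x) * y - y * (x * x' - x' * x)) +
          (x' * (x * y - y * x) - (x * y - y * x) * x') := by
        noncomm_ring
      rw [h1]
      exact add_mem (Submodule.subset_span ⟨_, hL x hx x' hx', y, hy, rfl⟩)
        (Submodule.subset_span ⟨x', hx', _, hI.2 x hx y hy, rfl⟩)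
    | zero =>
      rw [mul_zero, zero_mul, sub_zero]
      exact zero_mem _
    | add a b _ _ ha hb =>
      have h1 : x * (a + b) - (a + b) * x = (x * a - a * x) + (x * b - b * x) := by
        noncomm_ring
      rw [h1]
      exact add_mem ha hb
    | smul c a _ ha =>
      have h1 : x * (c • a) - (c • a) * x = c • (x * a - a * x) := by
        rw [mul_smul_comm, smul_mul_assoc, smul_sub]
      rw [h1]
      exact Submodule.smul_mem _ c ha
  have hrep : ∀ b ∈ J, ∃ (n : ℕ) (x y : ℕ → Module.End K V), (∀ i, y i ∈ I) ∧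
      b = ∑ i ∈ Finset.range n, (x i * y i - y i * x i) := by
    intro b hb
    induction hb using Submodule.span_induction with
    | mem z hz =>
      obtain ⟨x, hx, y, hy, rfl⟩ := hz
      refine ⟨1, fun _ => x, fun _ => y, fun _ => hy, ?_⟩
      rw [Finset.sum_range_one]
    | zero => exact ⟨0, fun _ => 0, fun _ => 0, fun _ => zero_mem _, by simp⟩
    | add a b _ _ ha hb =>
      obtain ⟨n, x, y, hy, h1⟩ := ha
      obtain ⟨n', x', y', hy', h1'⟩ := hb
      refine ⟨n + n', fun i => if i < n then x i else x' (i - n),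
        fun i => if i < n then y i else y' (i - n), fun i => ?_, ?_⟩
      · by_cases h : i < n
        · simp only [if_pos h]
          exact hy i
        · simp only [if_neg h]
          exact hy' _
      · rw [Finset.sum_range_add, h1, h1']
        congr 1
        · refine Finset.sum_congr rfl fun i hi => ?_
          simp only [if_pos (Finset.mem_range.1 hi)]
        · refine Finset.sum_congr rfl fun i _ => ?_
          have h : ¬ (n + i < n) := by omega
          simp only [if_neg h, Nat.add_sub_cancel_left]
    | smul c a _ ha =>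
      obtain ⟨n, x, y, hy, h1⟩ := ha
      refine ⟨n, fun i => c • x i, y, hy, ?_⟩
      rw [h1, Finset.smul_sum]
      refine Finset.sum_congr rfl fun i _ => ?_
      rw [smul_sub, smul_mul_assoc, mul_smul_comm]
  have hJnil : ∀ b ∈ J, IsNilpotent b := by
    intro b hb
    obtain ⟨n, x, y, hy, h1⟩ := hrep b hb
    exact isNilpotent_of_comm (Finset.range n) x y b h1 fun i _ => hab b (hJI hb) (y i) (hy i)
  have hbot := nil_ideal S L J hL hs hJ hJnil
  intro x hx y hy
  have h1 : x * y - y * x ∈ J := Submodule.subset_span ⟨x, hx, y, hy, rfl⟩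
  rw [hbot, Submodule.mem_bot] at h1
  exact sub_eq_zero.1 h1

end Pool.Agent.Wb5ab1bf
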