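import Pool.Agent.W_b5ab1bf_h80.ADA

/-!
# Trivialization of flat systems (helper80)
-/

set_option autoImplicit false

noncomputable section

namespace Pool.Agent.Wb5ab1bf

variable {k : ℕ} {K : Type} [Field K] {D : DField k K} {M : Type} [AddCommGroup M] [Module K M]

theorem ATriv_sum (Φ : Flat D M) {ι : Type} [Fintype ι] (g : ι → K) (y : ι → M)
    (j : ℤ × Fin k) :
    Φ.N j (∑ i, g i • y i) = ∑ i, (D.δ j (g i) • y i + g i • Φ.N j (y i)) := by
  rw [map_sum]
  exact Finset.sum_congr rfl fun i _ => Φ.hN j (g i) (y i)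

/-- coordinates of the derivative in any basis -/
theorem ATriv_coordG (Φ : Flat D M) {r : ℕ} (e : Module.Basis (Fin r) K M) (x : M)
    (j : ℤ × Fin k) (l : Fin r) :
    e.repr (Φ.N j x) l = D.δ j (e.repr x l) + ∑ i, e.repr x i * e.repr (Φ.N j (e i)) l := by
  have h1 : Φ.N j x = ∑ i, (D.δ j (e.repr x i) • e i + e.repr x i • Φ.N j (e i)) := by
    conv_lhs => rw [← e.sum_repr x]
    exact ATriv_sum Φ _ _ j
  rw [h1, map_sum, Finsupp.finset_sum_apply]
  have h2 : ∀ i, (e.repr (D.δ j (e.repr x i) • e i + e.repr x i • Φ.N j (e i))) l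
      = D.δ j (e.repr x i) * (if i = l then 1 else 0) + e.repr x i * e.repr (Φ.N j (e i)) l := by
    intro i
    rw [map_add, map_smul, map_smul, e.repr_self, Finsupp.add_apply, Finsupp.smul_apply,
      Finsupp.smul_apply, smul_eq_mul, smul_eq_mul, Finsupp.single_apply]
  rw [Finset.sum_congr rfl fun i _ => h2 i, Finset.sum_add_distrib]
  congr 1
  simp

theorem ATriv_coord (Φ : Flat D M) {r : ℕ} (e : Module.Basis (Fin r) K M) (j : ℤ × Fin k)
    (he : ∀ i, Φ.N j (e i) = 0) (x : M) (l : Fin r) :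
    e.repr (Φ.N j x) l = D.δ j (e.repr x l) := by
  rw [ATriv_coordG]
  have : ∀ i, e.repr x i * e.repr (Φ.N j (e i)) l = 0 := by
    intro i
    rw [he i, map_zero, Finsupp.coe_zero, Pi.zero_apply, mul_zero]
  rw [Finset.sum_congr rfl fun i _ => this i, Finset.sum_const_zero, add_zero]

theorem ATriv_itr_smul (Φ : Flat D M) (n : ℤ) :
    ∃ τ : K → K, ∀ (f : K) (x : M), itr Φ.σ n (f • x) = τ f • itr Φ.σ n x := by
  induction n using Int.induction_on with
  | zero => exact ⟨id, fun f x => by rw [itr_zero, itr_zero]; rfl⟩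
  | succ n ih =>
    obtain ⟨τ, hτ⟩ := ih
    exact ⟨fun f => D.θ (τ f), fun f x => by rw [itr_succ, itr_succ, hτ, Φ.hσ]⟩
  | pred n ih =>
    obtain ⟨τ, hτ⟩ := ih
    exact ⟨fun f => D.θ.symm (τ f), fun f x => by
      rw [itr_pred, itr_pred, hτ, symm_smul Φ.hσ]⟩

theorem ATriv_itr_N (Φ : Flat D M) (n : ℤ) (j : ℤ × Fin k) (x : M) :
    itr Φ.σ n (Φ.N j x) = Φ.N (sft n j) (itr Φ.σ n x) := by
  induction n using Int.induction_on with
  | zero => rw [itr_zero, itr_zero, sft_zero]
  | succ n ih => rw [itr_succ, itr_succ, ih, Φ.σN, sft_sft]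
  | pred n ih =>
    rw [itr_pred, itr_pred, ih]
    apply Φ.σ.injective
    rw [Φ.σ.apply_symm_apply, Φ.σN, Φ.σ.apply_symm_apply, sft_sft]
    congr 2
    rw [sub_add_cancel]

theorem ATriv_shift (S : Set (ℤ × Fin k)) (hS : S.Finite) :
    ∃ n : ℤ, ∀ j, j ∈ S → sft (-n) j ∉ S := by
  obtain ⟨B, hB⟩ : ∃ B : ℤ, ∀ j ∈ S, |j.1| ≤ B := by
    have hf : ((fun j : ℤ × Fin k => |j.1|) '' S).Finite := hS.image _
    obtain ⟨B, hB⟩ := hf.bddAbove
    exact ⟨B, fun j hj => hB ⟨j, hj, rfl⟩⟩
  refine ⟨2 * B + 1, fun j hj hj' => ?_⟩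
  have h1 := hB j hj
  have h2 := hB _ hj'
  rw [sft_fst] at h2
  rw [abs_le] at h1 h2
  omega

/-- Parallel elements which are linearly independent over the field of constants `cst ∅` are linearly
independent over `K` (for families indexed by a finite type).

Proof. Otherwise take a nontrivial relation `∑ f i • x i = 0` with the smallest number of nonzero `f i`,
normalized: some `f i₀ = 1`. Apply `Φ.N j`: `∑ D.δ j (f i) • x i = 0` has fewer nonzero coefficients, so
`D.δ j (f i) = 0` for all `i`, `j`; all the `f i` are in `cst ∅`, a contradiction. -/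
theorem par_indep (Φ : Flat D M) {ι : Type} [Fintype ι] (x : ι → M)
    (hx : ∀ i j, Φ.N j (x i) = 0)
    (hind : ∀ g : ι → K, (∀ i, g i ∈ D.cst ∅) → ∑ i, g i • x i = 0 → ∀ i, g i = 0)
    (f : ι → K) (h : ∑ i, f i • x i = 0) : ∀ i, f i = 0 := by
  classical
  have key : ∀ n : ℕ, ∀ f : ι → K, (Finset.univ.filter (fun i => f i ≠ 0)).card ≤ n →
      ∑ i, f i • x i = 0 → ∀ i, f i = 0 := by
    intro n
    induction n with
    | zero =>
      intro f hc _ i
      by_contra hi
      have : i ∈ Finset.univ.filter (fun i => f i ≠ 0) :=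
        Finset.mem_filter.2 ⟨Finset.mem_univ i, hi⟩
      have := Finset.card_pos.2 ⟨i, this⟩
      omega
    | succ n ih =>
      intro f hc hf
      by_contra hne
      push Not at hne
      obtain ⟨i₀, hi₀⟩ := hne
      have hg : ∑ i, ((f i₀)⁻¹ * f i) • x i = 0 := by
        have h1 : ∑ i, ((f i₀)⁻¹ * f i) • x i = (f i₀)⁻¹ • ∑ i, f i • x i := by
          rw [Finset.smul_sum]
          exact Finset.sum_congr rfl fun i _ => mul_smul _ _ _
        rw [h1, hf, smul_zero]
      have hd : ∀ j i, D.δ j ((f i₀)⁻¹ * f i) = 0 := by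
        intro j
        refine ih (fun i => D.δ j ((f i₀)⁻¹ * f i)) ?_ ?_
        · have hsub : (Finset.univ.filter (fun i => D.δ j ((f i₀)⁻¹ * f i) ≠ 0)) ⊆
              (Finset.univ.filter (fun i => f i ≠ 0)).erase i₀ := by
            intro i hi
            rw [Finset.mem_filter] at hi
            rw [Finset.mem_erase, Finset.mem_filter]
            refine ⟨?_, Finset.mem_univ i, ?_⟩
            · rintro rfl
              apply hi.2
              rw [inv_mul_cancel₀ hi₀]
              exact Derivation.map_one_eq_zero _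
            · intro h0
              apply hi.2
              rw [h0, mul_zero, map_zero]
          have h1 := Finset.card_le_card hsub
          have h2 : i₀ ∈ Finset.univ.filter (fun i => f i ≠ 0) :=
            Finset.mem_filter.2 ⟨Finset.mem_univ i₀, hi₀⟩
          rw [Finset.card_erase_of_mem h2] at h1
          omega
        · have h1 := congrArg (Φ.N j) hg
          rw [ATriv_sum, map_zero] at h1
          rw [← h1]
          refine Finset.sum_congr rfl fun i _ => ?_
          rw [hx i j, smul_zero, add_zero]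
      have h1 := hind (fun i => (f i₀)⁻¹ * f i) (fun i j _ => hd j i) hg i₀
      rw [inv_mul_cancel₀ hi₀] at h1
      exact one_ne_zero h1
  exact key _ f le_rfl h

/-- **Trivialization.** A finite-dimensional flat system is spanned by its parallel elements.

Proof. Let `e : Fin r → M` be a basis of `M`. By `Φ.fin` there is a finite set `S` with `Φ.N j (e l) = 0` for
all `j ∉ S` and all `l`. Choose `n : ℤ` such that `S' := sft n '' S` is disjoint from `S` (`n` larger than the
differences of the first coordinates). `e' b := itr Φ.σ n (e b)` is a basis too (semilinear bijection), and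
`Φ.N j (e' b) = 0` for `j ∉ S'` (`Φ.σN`, iterated: `itr Φ.σ n (Φ.N j x) = Φ.N (sft n j) (itr Φ.σ n x)`).
Write `e' b = ∑ l, a b l • e l`.
(1) `a b l ∈ cst (S ∪ S')`: for `j ∉ S ∪ S'` apply `Φ.N j`: `0 = ∑ D.δ j (a b l) • e l`.
(2) For all `j`: `Φ.N j (e l) = ∑ w j l i • e i` with `w j l i ∈ cst S` (for `i' ∉ S`,
`0 = Φ.N j (Φ.N i' (e l)) = Φ.N i' (Φ.N j (e l)) = ∑ D.δ i' (w j l i) • e i`).
(3) Let `I := {p ∈ PP S S' | ∀ b l, p * a b l ∈ PP S S'}`. It is an ideal of `PP S S'`; it is nonzero: by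
`D.frac` every `a b l` is a fraction, take the product of the finitely many denominators. It is stable under
`D.δ j` for `j ∈ S`, `j ∉ S'`: `Φ.N j (e' b) = 0` gives `D.δ j (a b l) = - ∑ i, a b i * w j i l`, so
`D.δ j p * a b l = D.δ j (p * a b l) + ∑ i, (p * a b i) * w j i l ∈ PP S S'` (`PP_der`, `w ∈ cst S`). By
`ideal_one`, `1 ∈ I`: all `a b l ∈ PP S S'`.
(4) `PP_expand` for the family `a`: `a b l = ∑ α, f (b, l) α * c α`, `c α ∈ cst S'` independent over
`cst (S ∩ S')`, `f (b, l) α ∈ cst S`. Put `u α b := ∑ l, f (b, l) α • e l`; `e' b = ∑ α, c α • u α b`.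
For `j ∈ S`: `0 = Φ.N j (e' b) = ∑ α, c α • Φ.N j (u α b)` (`D.δ j (c α) = 0` as `j ∉ S'`), and
`Φ.N j (u α b) = ∑ l, g α l • e l` with `g α l ∈ cst S` (by (2), `cst_der`); so `∑ α, g α l * c α = 0` for all
`l` and `lin_disj` gives `g = 0`: `Φ.N j (u α b) = 0`. For `j ∉ S` also `Φ.N j (u α b) = 0`. So all the
`u α b` are parallel, and the `e' b` are combinations of them; the `e' b` span `M`. -/
theorem span_par (Φ : Flat D M) [FiniteDimensional K M] :
    Submodule.span K {x : M | ∀ j, Φ.N j x = 0} = ⊤ := by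
  classical
  set r := Module.finrank K M with hr
  let e : Module.Basis (Fin r) K M := Module.finBasis K M
  -- the finite set S
  let S : Set (ℤ × Fin k) := ⋃ l : Fin r, {j | Φ.N j (e l) ≠ 0}
  have hSf : S.Finite := Set.finite_iUnion fun l => Φ.fin (e l)
  have hS : ∀ j, j ∉ S → ∀ l, Φ.N j (e l) = 0 := by
    intro j hj l
    by_contra h
    exact hj (Set.mem_iUnion.2 ⟨l, h⟩)
  obtain ⟨n, hn⟩ := ATriv_shift S hSf
  let S' : Set (ℤ × Fin k) := {j | sft (-n) j ∈ S}
  have hdis : ∀ j, j ∈ S → j ∉ S' := fun j hj => hn j hj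
  let e' : Fin r → M := fun b => itr Φ.σ n (e b)
  have he' : ∀ j, j ∉ S' → ∀ b, Φ.N j (e' b) = 0 := by
    intro j hj b
    have h1 := ATriv_itr_N Φ n (sft (-n) j) (e b)
    rw [sft_sft_neg] at h1
    show Φ.N j (itr Φ.σ n (e b)) = 0
    rw [← h1, hS _ hj b, map_zero]
  have hspan' : ∀ y : M, ∃ g : Fin r → K, y = ∑ b, g b • e' b := by
    intro y
    obtain ⟨τ, hτ⟩ := ATriv_itr_smul Φ n
    refine ⟨fun b => τ (e.repr (itr Φ.σ (-n) y) b), ?_⟩
    have h1 : y = itr Φ.σ n (itr Φ.σ (-n) y) := (itr_itr_neg Φ.σ n y).symm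
    conv_lhs => rw [h1, ← e.sum_repr (itr Φ.σ (-n) y), map_sum]
    exact Finset.sum_congr rfl fun b _ => hτ _ _
  let a : Fin r → Fin r → K := fun b l => e.repr (e' b) l
  -- (1)
  have h1 : ∀ b l, a b l ∈ D.cst (S ∪ S') := by
    intro b l j hj
    have hj1 : j ∉ S := fun h => hj (Or.inl h)
    have hj2 : j ∉ S' := fun h => hj (Or.inr h)
    have h := ATriv_coord Φ e j (hS j hj1) (e' b) l
    rw [he' j hj2 b, map_zero, Finsupp.coe_zero, Pi.zero_apply] at h
    exact h.symm
  -- (2)
  have h2 : ∀ j l i, e.repr (Φ.N j (e l)) i ∈ D.cst S := by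
    intro j l i i' hi'
    have h := ATriv_coord Φ e i' (hS i' hi') (Φ.N j (e l)) i
    rw [Φ.comm, hS i' hi' l, map_zero, map_zero, Finsupp.coe_zero, Pi.zero_apply] at h
    exact h.symm
  have hcS : ∀ f, f ∈ D.cst S → f ∈ D.PP S S' := fun f hf => Subring.subset_closure (Or.inl hf)
  -- (3)
  have hδa : ∀ j, j ∉ S' → ∀ b l, D.δ j (a b l)
      = - ∑ i, a b i * e.repr (Φ.N j (e i)) l := by
    intro j hj b l
    have h := ATriv_coordG Φ e (e' b) j l
    rw [he' j hj b, map_zero, Finsupp.coe_zero, Pi.zero_apply] at h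
    exact eq_neg_of_add_eq_zero_left h.symm
  have h3 : (1 : K) ∈ {p : K | p ∈ D.PP S S' ∧ ∀ b l, p * a b l ∈ D.PP S S'} := by
    refine ideal_one D S S' _ (fun x hx => hx.1) ?_ ?_ ?_ ?_
    · rintro x ⟨hx, hx'⟩ y ⟨hy, hy'⟩
      refine ⟨add_mem hx hy, fun b l => ?_⟩
      rw [add_mul]
      exact add_mem (hx' b l) (hy' b l)
    · rintro p hp x ⟨hx, hx'⟩
      refine ⟨mul_mem hp hx, fun b l => ?_⟩
      rw [mul_assoc]
      exact mul_mem hp (hx' b l)
    · rintro j _ hj' p ⟨hp, hp'⟩
      refine ⟨PP_der D S S' p hp j, fun b l => ?_⟩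
      have e1 : D.δ j (p * a b l) = p * D.δ j (a b l) + a b l * D.δ j p := by
        rw [Derivation.leibniz, smul_eq_mul, smul_eq_mul]
      have e2 : D.δ j p * a b l = D.δ j (p * a b l)
          + ∑ i, (p * a b i) * e.repr (Φ.N j (e i)) l := by
        rw [e1, hδa j hj' b l]
        have e3 : ∑ i, (p * a b i) * e.repr (Φ.N j (e i)) l
            = p * ∑ i, a b i * e.repr (Φ.N j (e i)) l := by
          rw [Finset.mul_sum]
          exact Finset.sum_congr rfl fun i _ => mul_assoc _ _ _
        rw [e3]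
        ring
      rw [e2]
      exact add_mem (PP_der D S S' _ (hp' b l) j)
        (sum_mem fun i _ => mul_mem (hp' b i) (hcS _ (h2 j i l)))
    · have hfr : ∀ bl : Fin r × Fin r, ∃ q : K, q ∈ D.PP S S' ∧ q ≠ 0 ∧
          q * a bl.1 bl.2 ∈ D.PP S S' := by
        intro bl
        obtain ⟨p, hp, q, hq, hq0, hqp⟩ := D.frac S S' (a bl.1 bl.2) (h1 bl.1 bl.2)
        exact ⟨q, hq, hq0, by rw [hqp]; exact hp⟩
      choose q hq hq0 hqa using hfr
      refine ⟨∏ bl, q bl, ⟨prod_mem fun bl _ => hq bl, fun b l => ?_⟩, ?_⟩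
      · rw [← Finset.prod_erase_mul Finset.univ q (Finset.mem_univ (b, l)), mul_assoc]
        exact mul_mem (prod_mem fun bl _ => hq bl) (hqa (b, l))
      · exact Finset.prod_ne_zero_iff.2 fun bl _ => hq0 bl
  have h3' : ∀ bl : Fin r × Fin r, a bl.1 bl.2 ∈ D.PP S S' := by
    intro bl
    have := h3.2 bl.1 bl.2
    rwa [one_mul] at this
  -- (4)
  obtain ⟨m, c, f, _, hcT, hcind, hfS, hfa⟩ := PP_expand D S S'
    (fun bl : Fin r × Fin r => a bl.1 bl.2) h3'
  let u : Fin (m + 1) → Fin r → M := fun α b => ∑ l, f (b, l) α • e l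
  have hu_coord : ∀ α b l, e.repr (u α b) l = f (b, l) α := by
    intro α b l
    show e.repr (∑ l, f (b, l) α • e l) l = f (b, l) α
    rw [e.repr_sum_self]
  have he'u : ∀ b, e' b = ∑ α, c α • u α b := by
    intro b
    apply e.repr.injective
    ext l
    rw [map_sum, Finsupp.finset_sum_apply]
    show a b l = _
    rw [hfa (b, l)]
    refine Finset.sum_congr rfl fun α _ => ?_
    rw [map_smul, Finsupp.smul_apply, smul_eq_mul, hu_coord, mul_comm]
  have hupar : ∀ α b j, Φ.N j (u α b) = 0 := by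
    intro α b j
    by_cases hj : j ∈ S
    · have hj' := hdis j hj
      apply e.repr.injective
      ext l
      rw [map_zero, Finsupp.coe_zero, Pi.zero_apply]
      refine lin_disj D S S' c hcT hcind (fun α => e.repr (Φ.N j (u α b)) l) ?_ ?_ α
      · intro α
        show e.repr (Φ.N j (u α b)) l ∈ D.cst S
        rw [ATriv_coordG]
        refine add_mem ?_ (sum_mem fun i _ => ?_)
        · rw [hu_coord]
          exact cst_der D S _ (hfS _ _) j
        · rw [hu_coord]
          exact mul_mem (hfS _ _) (h2 j i l)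
      · have h5 := congrArg (Φ.N j) (he'u b)
        rw [he' j hj' b, ATriv_sum] at h5
        have h6 : ∀ α, D.δ j (c α) • u α b + c α • Φ.N j (u α b) = c α • Φ.N j (u α b) := by
          intro α
          rw [hcT α j hj', zero_smul, zero_add]
        rw [Finset.sum_congr rfl fun α _ => h6 α] at h5
        have h7 := congrArg (fun y => e.repr y l) h5
        simp only [map_zero, Finsupp.coe_zero, Pi.zero_apply, map_sum, Finsupp.finset_sum_apply,
          map_smul, Finsupp.smul_apply, smul_eq_mul] at h7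
        rw [h7]
        exact Finset.sum_congr rfl fun α _ => mul_comm _ _
    · show Φ.N j (∑ l, f (b, l) α • e l) = 0
      rw [ATriv_sum]
      refine Finset.sum_eq_zero fun l _ => ?_
      rw [hS j hj l, smul_zero, add_zero, hfS (b, l) α j hj, zero_smul]
  rw [eq_top_iff]
  intro y _
  obtain ⟨g, hg⟩ := hspan' y
  rw [hg]
  refine sum_mem fun b _ => Submodule.smul_mem _ _ ?_
  rw [he'u b]
  exact sum_mem fun α _ => Submodule.smul_mem _ _ (Submodule.subset_span fun j => hupar α b j)

/-- A basis of parallel elements. Proof: `span_par` and `Submodule.exists_fun_fin_finrank_span_eq` or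
`exists_linearIndependent`/`Basis.ofSpan` (choose a basis inside the spanning set). -/
theorem exists_par_basis (Φ : Flat D M) [FiniteDimensional K M] :
    ∃ (r : ℕ) (e : Module.Basis (Fin r) K M), ∀ i j, Φ.N j (e i) = 0 := by
  have h := span_par Φ
  have hs : ⊤ ≤ Submodule.span K {x : M | ∀ j, Φ.N j x = 0} := h.ge
  let b := Module.Basis.ofSpan hs
  have hfin : Finite ((linearIndepOn_empty K id).extend
      (Set.empty_subset {x : M | ∀ j, Φ.N j x = 0})) := Module.Finite.finite_basis b
  haveI := Fintype.ofFinite ((linearIndepOn_empty K id).extend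
      (Set.empty_subset {x : M | ∀ j, Φ.N j x = 0}))
  refine ⟨_, b.reindex (Fintype.equivFin _), fun i j => ?_⟩
  rw [Module.Basis.reindex_apply]
  have h1 : b ((Fintype.equivFin _).symm i) ∈ {x : M | ∀ j, Φ.N j x = 0} :=
    Module.Basis.ofSpan_subset hs (Set.mem_range_self _)
  exact h1 j

/-- Coordinates in a parallel basis. -/
theorem par_coord (Φ : Flat D M) {r : ℕ} (e : Module.Basis (Fin r) K M)
    (he : ∀ i j, Φ.N j (e i) = 0) (x : M) (j : ℤ × Fin k) (i : Fin r) :
    e.repr (Φ.N j x) i = D.δ j (e.repr x i) := by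
  exact ATriv_coord Φ e j (fun i => he i j) x i

/-- An element is parallel if and only if its coordinates in a parallel basis are constants. -/
theorem par_iff (Φ : Flat D M) {r : ℕ} (e : Module.Basis (Fin r) K M)
    (he : ∀ i j, Φ.N j (e i) = 0) (x : M) :
    (∀ j, Φ.N j x = 0) ↔ ∀ i, e.repr x i ∈ D.cst ∅ := by
  constructor
  · intro h i j _
    rw [← par_coord Φ e he x j i, h j, map_zero]
    rfl
  · intro h j
    apply e.repr.injective
    ext i
    rw [par_coord Φ e he x j i, map_zero]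
    exact h i j (Set.notMem_empty j)

end Pool.Agent.Wb5ab1bf
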