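import Pool.Agent.W_b5ab1bf_h80.ADin
import Pool.Agent.W_b5ab1bf_h80.ATriv

/-!
# The commutant and the algebra of the centre as flat systems (helper80)
-/

set_option autoImplicit false

noncomputable section

namespace Pool.Agent.Wb5ab1bf

variable {k : ℕ} {K : Type} [Field K] {D : DField k K} {V : Type} [AddCommGroup V] [Module K V]

/-- A subspace of endomorphisms which is stable and on which `p j` and `m j` agree is a flat system.

Proof. `σ` is `S.cj` restricted to `W` (`hs`), `N j` is `S.bp j` restricted to `W` (`hN`); `hσ`: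
`Sys.cj_smul`; `hN`: `Sys.bp_smul`; `comm`: `Sys.bp_bp`; `σN`: `Sys.cj_bp`; `fin`: by `bp_fin`, `bm_fin` and
`heq` the set of `j` with `S.bp j x ≠ 0` is contained in `{j | n₀ < j.1 ∧ j.1 < n₁}`, a finite set. -/
theorem exists_flat [FiniteDimensional K V] (S : Sys D V) (W : Submodule K (Module.End K V))
    (hs : Stab S W) (hN : StabN S W) (heq : ∀ j, ∀ x ∈ W, S.bp j x = S.bm j x) :
    ∃ Φ : Flat D W, (∀ x : W, ((Φ.σ x : W) : Module.End K V) = S.cj x) ∧
      ∀ (j : ℤ × Fin k) (x : W), ((Φ.N j x : W) : Module.End K V) = S.bp j x := by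
  refine ⟨{
    σ := { toFun := fun x => ⟨S.cj x, hs.1 x x.2⟩
           invFun := fun x => ⟨S.cj.symm x, hs.2 x x.2⟩
           left_inv := fun x => Subtype.ext (S.cj.symm_apply_apply _)
           right_inv := fun x => Subtype.ext (S.cj.apply_symm_apply _)
           map_add' := fun x y => Subtype.ext (map_add S.cj _ _) }
    hσ := fun f x => Subtype.ext (Sys.cj_smul S f _)
    N := fun j => { toFun := fun x => ⟨S.bp j x, hN.1 j x x.2⟩
                    map_zero' := Subtype.ext (brL_zero (S.hp j))
                    map_add' := fun x y => Subtype.ext (Sys.bp_add S j _ _) }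
    hN := fun j f x => Subtype.ext (Sys.bp_smul S j f _)
    comm := fun i j x => Subtype.ext (Sys.bp_bp S i j _)
    σN := fun j x => Subtype.ext (Sys.cj_bp S j _)
    fin := fun x => ?_ }, fun x => rfl, fun j x => rfl⟩
  obtain ⟨n₀, h0⟩ := bp_fin S (x : Module.End K V)
  obtain ⟨n₁, h1⟩ := bm_fin S (x : Module.End K V)
  refine Set.Finite.subset (Set.Finite.prod (Set.finite_Icc n₀ n₁) (Set.finite_univ)) ?_
  intro j hj
  refine ⟨⟨?_, ?_⟩, trivial⟩
  · by_contra hcon
    exact hj (Subtype.ext (h0 j (by omega)))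
  · by_contra hcon
    apply hj
    refine Subtype.ext ?_
    show S.bp j x = 0
    rw [heq j x x.2]
    exact h1 j (by omega)

/-- The same formula for the powers of `σ`. -/
theorem flat_zpow (S : Sys D V) (W : Submodule K (Module.End K V)) (Φ : Flat D W)
    (h : ∀ x : W, ((Φ.σ x : W) : Module.End K V) = S.cj x) (n : ℤ) (x : W) :
    ((itr Φ.σ n x : W) : Module.End K V) = (S.cj ^ n) (x : Module.End K V) := by
  induction n using Int.induction_on with
  | zero => rw [itr_zero, zpow_zero]; rfl
  | succ n ih =>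
    rw [itr_succ, h, ih, add_comm, zpow_one_add]
    rfl
  | pred n ih =>
    have h1 := h (itr Φ.σ (-(n : ℤ) - 1) x)
    rw [← itr_succ, sub_add_cancel, ih] at h1
    apply S.cj.injective
    rw [← h1]
    have h2 : S.cj ^ (-(n : ℤ)) = S.cj * S.cj ^ (-(n : ℤ) - 1) := by
      rw [← zpow_one_add]
      congr 1
      ring
    rw [h2]
    rfl

end Pool.Agent.Wb5ab1bf
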