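import Pool.Agent.W_b5ab1bf_h80.ATr

/-!
# The span of the far derivatives (helper80)
-/

set_option autoImplicit false

noncomputable section

namespace Pool.Agent.Wb5ab1bf

variable {k : ℕ} {K : Type} [Field K] {D : DField k K} {V : Type} [AddCommGroup V] [Module K V]

/-- Conjugation maps the span of the `S.Dj j`, `j ∈ A`, to the span of the `S.Dj j`, `j ∈ B`. -/
theorem ALam_cj (S : Sys D V) (A B : Set (ℤ × Fin k)) (h : ∀ j, j ∈ A → sft 1 j ∈ B) :
    ∀ x ∈ Submodule.span K (S.Dj '' A), S.cj x ∈ Submodule.span K (S.Dj '' B) := by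
  intro x hx
  induction hx using Submodule.span_induction with
  | mem x hx =>
    obtain ⟨j, hj, rfl⟩ := hx
    rw [Sys.cj_Dj]
    exact Submodule.subset_span ⟨_, h j hj, rfl⟩
  | zero => rw [map_zero]; exact zero_mem _
  | add x y _ _ hx hy => rw [map_add]; exact add_mem hx hy
  | smul c x _ hx => rw [Sys.cj_smul]; exact Submodule.smul_mem _ _ hx

theorem ALam_cj_symm (S : Sys D V) (A B : Set (ℤ × Fin k)) (h : ∀ j, j ∈ B → sft (-1) j ∈ A) :
    ∀ x ∈ Submodule.span K (S.Dj '' B), S.cj.symm x ∈ Submodule.span K (S.Dj '' A) := by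
  intro x hx
  induction hx using Submodule.span_induction with
  | mem x hx =>
    obtain ⟨j, hj, rfl⟩ := hx
    rw [Sys.cj_symm_Dj]
    exact Submodule.subset_span ⟨_, h j hj, rfl⟩
  | zero => rw [map_zero]; exact zero_mem _
  | add x y _ _ hx hy => rw [map_add]; exact add_mem hx hy
  | smul c x _ hx => rw [Sys.cj_symm_smul]; exact Submodule.smul_mem _ _ hx

theorem ALam_finrank (S : Sys D V) (A B : Set (ℤ × Fin k)) (h : ∀ j, j ∈ A → sft 1 j ∈ B)
    (h' : ∀ j, j ∈ B → sft (-1) j ∈ A) :
    Module.finrank K (Submodule.span K (S.Dj '' A)) =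
      Module.finrank K (Submodule.span K (S.Dj '' B)) := by
  unfold Module.finrank
  congr 1
  refine rank_eq_of_equiv_equiv (D.θ : K → K)
    { toFun := fun x => ⟨S.cj x, ALam_cj S A B h x x.2⟩
      invFun := fun x => ⟨S.cj.symm x, ALam_cj_symm S A B h' x x.2⟩
      left_inv := fun x => Subtype.ext (S.cj.symm_apply_apply _)
      right_inv := fun x => Subtype.ext (S.cj.apply_symm_apply _)
      map_add' := fun x y => Subtype.ext (map_add S.cj _ _) } D.θ.bijective ?_
  intro r m
  exact Subtype.ext (Sys.cj_smul S r _)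

/-- The span of the `S.Dj j` with `j` at or to the right of the site `n` is everything.

Proof. `L n := span K {S.Dj j | n ≤ j.1}` is decreasing in `n`, and `S.cj` maps `L n` onto `L (n + 1)`
(`Sys.cj_Dj`, `Sys.cj_symm_Dj`, `Sys.cj_smul`, `Sys.cj_symm_smul`: `x ∈ L n ↔ S.cj x ∈ L (n + 1)`). `S.cj` is a
semilinear bijection, so `finrank K (L n) = finrank K (L (n + 1))` (for instance: the image under `S.cj` of a
basis of `L n` is linearly independent in `L (n + 1)`, and conversely with `S.cj.symm`; it is enough to have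
`finrank (L n) ≤ finrank (L (n + 1))`). As `L (n + 1) ≤ L n`, they are equal
(`Submodule.eq_of_le_of_finrank_le`). So all the `L n` are equal (induction in both directions), and every
`S.Dj j` lies in `L j.1`. -/
theorem Lam_right [FiniteDimensional K V] (S : Sys D V) (n : ℤ) :
    Submodule.span K (S.Dj '' {j | n ≤ j.1}) = S.Lam := by
  have h1 : ∀ n : ℤ, Submodule.span K (S.Dj '' {j : ℤ × Fin k | n + 1 ≤ j.1}) =
      Submodule.span K (S.Dj '' {j | n ≤ j.1}) := by
    intro n
    refine Submodule.eq_of_le_of_finrank_eq ?_ ?_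
    · refine Submodule.span_mono (Set.image_mono ?_)
      intro j hj
      have : n + 1 ≤ j.1 := hj
      show n ≤ j.1
      omega
    · refine (ALam_finrank S _ _ ?_ ?_).symm
      · intro j hj
        have : n ≤ j.1 := hj
        show n + 1 ≤ (sft 1 j).1
        rw [sft_fst]
        omega
      · intro j hj
        have : n + 1 ≤ j.1 := hj
        show n ≤ (sft (-1) j).1
        rw [sft_fst]
        omega
  have h2 : ∀ n : ℤ, Submodule.span K (S.Dj '' {j : ℤ × Fin k | n ≤ j.1}) =
      Submodule.span K (S.Dj '' {j | 0 ≤ j.1}) := by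
    intro n
    induction n using Int.induction_on with
    | zero => rfl
    | succ n ih => rw [h1, ih]
    | pred n ih => rw [← ih, ← h1 (-(n : ℤ) - 1), sub_add_cancel]
  refine le_antisymm (Submodule.span_mono (Set.image_subset_range _ _)) ?_
  refine Submodule.span_le.2 ?_
  rintro x ⟨j, rfl⟩
  rw [h2 n, ← h2 j.1]
  exact Submodule.subset_span ⟨j, le_refl j.1, rfl⟩

/-- The mirror image of `Lam_right`. -/
theorem Lam_left [FiniteDimensional K V] (S : Sys D V) (n : ℤ) :
    Submodule.span K (S.Dj '' {j | j.1 ≤ n}) = S.Lam := by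
  have h1 : ∀ n : ℤ, Submodule.span K (S.Dj '' {j : ℤ × Fin k | j.1 ≤ n}) =
      Submodule.span K (S.Dj '' {j | j.1 ≤ n + 1}) := by
    intro n
    refine Submodule.eq_of_le_of_finrank_eq ?_ ?_
    · refine Submodule.span_mono (Set.image_mono ?_)
      intro j hj
      have : j.1 ≤ n := hj
      show j.1 ≤ n + 1
      omega
    · refine ALam_finrank S _ _ ?_ ?_
      · intro j hj
        have : j.1 ≤ n := hj
        show (sft 1 j).1 ≤ n + 1
        rw [sft_fst]
        omega
      · intro j hj
        have : j.1 ≤ n + 1 := hj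
        show (sft (-1) j).1 ≤ n
        rw [sft_fst]
        omega
  have h2 : ∀ n : ℤ, Submodule.span K (S.Dj '' {j : ℤ × Fin k | j.1 ≤ n}) =
      Submodule.span K (S.Dj '' {j | j.1 ≤ 0}) := by
    intro n
    induction n using Int.induction_on with
    | zero => rfl
    | succ n ih => rw [← h1, ih]
    | pred n ih => rw [← ih, h1 (-(n : ℤ) - 1), sub_add_cancel]
  refine le_antisymm (Submodule.span_mono (Set.image_subset_range _ _)) ?_
  refine Submodule.span_le.2 ?_
  rintro x ⟨j, rfl⟩
  rw [h2 n, ← h2 j.1]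
  exact Submodule.subset_span ⟨j, le_refl j.1, rfl⟩

/-- Proof: `Submodule.span_induction` with `Sys.cj_Dj`, `Sys.cj_smul` and the same for `symm`. -/
theorem Lam_stab (S : Sys D V) : Stab S S.Lam := by
  have h : S.Lam = Submodule.span K (S.Dj '' Set.univ) := by
    rw [Set.image_univ]
    rfl
  rw [h]
  exact ⟨ALam_cj S _ _ fun _ _ => trivial, ALam_cj_symm S _ _ fun _ _ => trivial⟩

/-- Proof. For `S.bp i`: by `Lam_right` (with `n = i.1 + S.c₀`) an element of `S.Lam` is a `K`-combination of
`S.Dj j` with `i.1 + S.c₀ ≤ j.1`, for which `S.bp i (S.Dj j) = 0` (`Sys.bp_Dj`); by `Sys.bp_add`,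
`Sys.bp_smul` and `Submodule.span_induction` the image is in `S.Lam`. For `S.bm i`: `Lam_left` with
`n = i.1 - S.c₀` and `Sys.bm_Dj`. -/
theorem Lam_stabN [FiniteDimensional K V] (S : Sys D V) : StabN S S.Lam := by
  refine ⟨fun i x hx => ?_, fun i x hx => ?_⟩
  · rw [← Lam_right S (i.1 + S.c₀)] at hx
    induction hx using Submodule.span_induction with
    | mem x hx =>
      obtain ⟨j, hj, rfl⟩ := hx
      rw [Sys.bp_Dj S i j hj]
      exact zero_mem _
    | zero => rw [show S.bp i 0 = 0 from brL_zero _]; exact zero_mem _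
    | add x y _ _ hx hy => rw [Sys.bp_add]; exact add_mem hx hy
    | smul c x hx' hx =>
      rw [Sys.bp_smul]
      rw [Lam_right] at hx'
      exact add_mem (Submodule.smul_mem _ _ hx') (Submodule.smul_mem _ _ hx)
  · rw [← Lam_left S (i.1 - S.c₀)] at hx
    induction hx using Submodule.span_induction with
    | mem x hx =>
      obtain ⟨j, hj, rfl⟩ := hx
      have hj' : j.1 ≤ i.1 - S.c₀ := hj
      rw [Sys.bm_Dj S i j (by omega)]
      exact zero_mem _
    | zero => rw [show S.bm i 0 = 0 from brL_zero _]; exact zero_mem _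
    | add x y _ _ hx hy => rw [Sys.bm_add]; exact add_mem hx hy
    | smul c x hx' hx =>
      rw [Sys.bm_smul]
      rw [Lam_left] at hx'
      exact add_mem (Submodule.smul_mem _ _ hx') (Submodule.smul_mem _ _ hx)

/-- Proof. For a fixed `y ∈ S.Lam` the set of all `x` with `x * y - y * x ∈ S.Lam` is a `K`-subspace; it
contains `S.Dj j` by `Sys.bm_sub_bp` and `Lam_stabN`. -/
theorem Lam_lie [FiniteDimensional K V] (S : Sys D V) : LieCl S.Lam := by
  intro x hx y hy
  have hN := Lam_stabN S
  unfold Sys.Lam at hx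
  induction hx using Submodule.span_induction with
  | mem x hx =>
    obtain ⟨j, rfl⟩ := hx
    rw [← Sys.bm_sub_bp]
    exact sub_mem (hN.2 j y hy) (hN.1 j y hy)
  | zero => rw [zero_mul, mul_zero, sub_zero]; exact zero_mem _
  | add x x' _ _ hx hx' =>
    have h1 : (x + x') * y - y * (x + x') = (x * y - y * x) + (x' * y - y * x') := by
      rw [add_mul, mul_add]
      abel
    rw [h1]
    exact add_mem hx hx'
  | smul c x _ hx =>
    rw [smul_mul_assoc, mul_smul_comm, ← smul_sub]
    exact Submodule.smul_mem _ _ hx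

end Pool.Agent.Wb5ab1bf
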