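import Pool.Agent.W_b5ab1bf_h80.ADA

/-!
# Separation of variables (helper80)
-/

set_option autoImplicit false

noncomputable section

namespace Pool.Agent.Wb5ab1bf

variable {k : ℕ} {K : Type} [Field K] (D : DField k K)

/-- The indices with site in `[a, b]`. -/
def blk (k : ℕ) (a b : ℤ) : Set (ℤ × Fin k) := {j | a ≤ j.1 ∧ j.1 ≤ b}

/-- Separation of the variables at the sites `a` and `b`.

Proof. `S := blk k a (b - 1)`, `T := blk k (a + 1) b`, `S ∪ T = blk k a b` (as `a < b`), `S ∩ T =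
blk k (a + 1) (b - 1)`. For `j` at the site `a` (these are the `j ∈ S`, `j ∉ T`): `D.δ j f ∈ cst S` by `h` (and
`cst_der`). Let `I := {p ∈ PP S T | p * f ∈ PP S T}`, an ideal, nonzero by `D.frac`, stable under `D.δ j`,
`j ∈ S`, `j ∉ T`: `D.δ j p * f = D.δ j (p * f) - p * D.δ j f`. By `ideal_one`, `f ∈ PP S T`. By `PP_expand`
(one element): `f = ∑ i, u i * c i`, `c 0 = 1`, `u i ∈ cst S`, `c i ∈ cst T`, independent over `cst (S ∩ T)`.
For `j` at the site `a`: `∑ i, D.δ j (u i) * c i = D.δ j f ∈ cst S`, so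
`(D.δ j (u 0) - D.δ j f) * c 0 + ∑_{i ≠ 0} D.δ j (u i) * c i = 0` and by `lin_disj` `D.δ j (u i) = 0` for
`i ≠ 0`; so `u i ∈ cst (S ∩ T)` for `i ≠ 0`. Take `g := u 0`, `h := ∑_{i ≠ 0} u i * c i ∈ cst T`. -/
theorem split_var (a b : ℤ) (hab : a < b) (f : K) (hf : f ∈ D.cst (blk k a b))
    (h : ∀ i j : ℤ × Fin k, i.1 = a → j.1 = b → D.δ j (D.δ i f) = 0) :
    ∃ g ∈ D.cst (blk k a (b - 1)), ∃ g' ∈ D.cst (blk k (a + 1) b), f = g + g' := by
  classical
  have hunion : ∀ j : ℤ × Fin k, j ∉ blk k a (b - 1) ∪ blk k (a + 1) b → j ∉ blk k a b := by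
    intro j hj hj'
    apply hj
    obtain ⟨h1, h2⟩ := hj'
    by_cases h3 : j.1 ≤ b - 1
    · exact Or.inl ⟨h1, h3⟩
    · refine Or.inr ⟨?_, h2⟩
      omega
  have hder : ∀ j : ℤ × Fin k, j ∈ blk k a (b - 1) → j ∉ blk k (a + 1) b →
      D.δ j f ∈ D.cst (blk k a (b - 1)) := by
    intro j hj hj' i hi
    have hja : j.1 = a := by
      have h1 := hj.1
      have h2 := hj.2
      by_contra h3
      exact hj' ⟨by omega, by omega⟩
    by_cases hib : i.1 = b
    · exact h j i hja hib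
    · rw [D.comm, hf i, map_zero]
      rintro ⟨h1, h2⟩
      exact hi ⟨h1, by omega⟩
  obtain ⟨p, hp, q, hq, hq0, hqf⟩ := D.frac (blk k a (b - 1)) (blk k (a + 1) b) f
    (fun j hj => hf j (hunion j hj))
  have h1 : (1 : K) ∈ {x : K | x ∈ D.PP (blk k a (b - 1)) (blk k (a + 1) b) ∧
      x * f ∈ D.PP (blk k a (b - 1)) (blk k (a + 1) b)} := by
    refine ideal_one D (blk k a (b - 1)) (blk k (a + 1) b) _ (fun x hx => hx.1) ?_ ?_ ?_
      ⟨q, ⟨hq, ?_⟩, hq0⟩
    · rintro x ⟨hx1, hx2⟩ y ⟨hy1, hy2⟩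
      exact ⟨add_mem hx1 hy1, by rw [add_mul]; exact add_mem hx2 hy2⟩
    · rintro r hr x ⟨hx1, hx2⟩
      exact ⟨mul_mem hr hx1, by rw [mul_assoc]; exact mul_mem hr hx2⟩
    · rintro j hj hj' x ⟨hx1, hx2⟩
      refine ⟨PP_der D _ _ _ hx1 j, ?_⟩
      have e : D.δ j x * f = D.δ j (x * f) - x * D.δ j f := by
        rw [Derivation.leibniz, smul_eq_mul, smul_eq_mul]
        ring
      rw [e]
      exact sub_mem (PP_der D _ _ _ hx2 j) (mul_mem hx1 (ADA_left D _ _ _ (hder j hj hj')))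
    · rw [hqf]
      exact hp
  have hfP : f ∈ D.PP (blk k a (b - 1)) (blk k (a + 1) b) := by
    have h2 := h1.2
    rwa [one_mul] at h2
  obtain ⟨n, c, u, c0, hc, hind, hu, hsum⟩ := PP_expand D (blk k a (b - 1)) (blk k (a + 1) b)
    (α := Unit) (fun _ => f) (fun _ => hfP)
  have hsum1 : f = ∑ i, u () i * c i := hsum ()
  have hz : ∀ j : ℤ × Fin k, j ∈ blk k a (b - 1) → j ∉ blk k (a + 1) b → ∀ i : Fin (n + 1),
      i ≠ 0 → D.δ j (u () i) = 0 := by
    intro j hj hj' i hi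
    have e : D.δ j f = ∑ i, D.δ j (u () i) * c i := by
      conv_lhs => rw [hsum1]
      rw [ADA_sum]
      refine Finset.sum_congr rfl fun i _ => ?_
      rw [hc i j hj', mul_zero, zero_add]
    have h2 := lin_disj D (blk k a (b - 1)) (blk k (a + 1) b) c hc hind
      (fun i => if i = 0 then D.δ j (u () 0) - D.δ j f else D.δ j (u () i)) ?_ ?_ i
    · simpa [hi] using h2
    · intro i
      by_cases hi0 : i = 0
      · simp only [hi0, if_true]
        exact sub_mem (cst_der D _ _ (hu () 0) j) (hder j hj hj')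
      · simp only [hi0, if_false]
        exact cst_der D _ _ (hu () i) j
    · rw [Fin.sum_univ_succ]
      rw [Fin.sum_univ_succ] at e
      simp only [if_true, Fin.succ_ne_zero, if_false, c0, mul_one] at e ⊢
      rw [e]
      ring
  have huT : ∀ i : Fin (n + 1), i ≠ 0 → u () i ∈ D.cst (blk k (a + 1) b) := by
    intro i hi j hj
    by_cases hjS : j ∈ blk k a (b - 1)
    · exact hz j hjS hj i hi
    · exact hu () i j hjS
  refine ⟨u () 0, hu () 0, ∑ i : Fin n, u () i.succ * c i.succ,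
    sum_mem fun i _ => mul_mem (huT _ (Fin.succ_ne_zero i)) (hc _), ?_⟩
  conv_lhs => rw [hsum1]
  rw [Fin.sum_univ_succ, c0, mul_one]

end Pool.Agent.Wb5ab1bf
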