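import Pool.Agent.W_b5ab1bf_h80.ATriv
import Pool.Agent.W_b5ab1bf_h80.ASplit

/-!
# Elements whose total derivatives vanish (helper80)
-/

set_option autoImplicit false

noncomputable section

namespace Pool.Agent.Wb5ab1bf

variable {k : ℕ} {K : Type} [Field K] {D : DField k K} {M : Type} [AddCommGroup M] [Module K M]

theorem ATot_N (Φ : Flat D M) (n : ℤ) (j : ℤ × Fin k) (x : M) :
    Φ.N j (itr Φ.σ n x) = itr Φ.σ n (Φ.N (sft (-n) j) x) := by
  rw [ATriv_itr_N, sft_sft_neg]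

theorem ATot_tele {A : Type} [AddCommGroup A] (f : ℤ → A) (a : ℤ) (n : ℕ) :
    ∑ i ∈ Finset.Ico a (a + n), (f i - f (i + 1)) = f a - f (a + n) := by
  induction n with
  | zero => simp
  | succ n ih =>
    have h1 : Finset.Ico a (a + ((n + 1 : ℕ) : ℤ)) = insert (a + (n : ℤ)) (Finset.Ico a (a + n)) := by
      ext y
      simp only [Finset.mem_insert, Finset.mem_Ico]
      push_cast
      omega
    rw [h1, Finset.sum_insert (by simp), ih]
    have h2 : a + (n : ℤ) + 1 = a + ((n + 1 : ℕ) : ℤ) := by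
      push_cast
      ring
    rw [h2]
    abel

/-- The support of the coordinates moves with `σ`: if the coordinates of `x` in a parallel basis are in
`cst S` then those of `itr Φ.σ n x` are in `cst (sft n '' S)`.

Proof. Let `y := itr Φ.σ n x`. `x` has coordinates in `cst S` iff `Φ.N j x = 0` for all `j ∉ S`
(`par_coord`). Iterating `Φ.σN`: `itr Φ.σ n (Φ.N j x) = Φ.N (sft n j) y` for all `n : ℤ`. -/
theorem supp_shift (Φ : Flat D M) (S : Set (ℤ × Fin k)) (x : M) (hx : ∀ j, j ∉ S → Φ.N j x = 0)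
    (n : ℤ) : ∀ j, j ∉ sft n '' S → Φ.N j (itr Φ.σ n x) = 0 := by
  intro j hj
  rw [ATot_N, hx, map_zero]
  intro h
  exact hj ⟨_, h, sft_sft_neg n j⟩

theorem ATot_bnd (Φ : Flat D M) (a b : ℤ) (h : M) (hh : ∀ j, j ∉ blk k a b → Φ.N j h = 0)
    (j : ℤ × Fin k) : ∃ n₀ : ℕ, ∀ n : ℕ, n₀ ≤ n →
      Φ.N j (itr Φ.σ (-(n : ℤ)) h) = 0 ∧ Φ.N j (itr Φ.σ n h) = 0 := by
  refine ⟨(b - j.1).toNat + (j.1 - a).toNat + 1, fun n hn => ⟨?_, ?_⟩⟩
  · rw [ATot_N, hh, map_zero]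
    rintro ⟨h1, h2⟩
    rw [sft_fst] at h1 h2
    omega
  · rw [ATot_N, hh, map_zero]
    rintro ⟨h1, h2⟩
    rw [sft_fst] at h1 h2
    omega

theorem ATot_cob (Φ : Flat D M) (x' x h : M) (hx : x = x' + (h - Φ.σ h)) (n : ℕ) :
    ∑ i ∈ Finset.Ico (-(n : ℤ)) n, itr Φ.σ i x' =
      (∑ i ∈ Finset.Ico (-(n : ℤ)) n, itr Φ.σ i x) - itr Φ.σ (-(n : ℤ)) h + itr Φ.σ n h := by
  have h1 := ATot_tele (fun i => itr Φ.σ i h) (-(n : ℤ)) (2 * n)
  have h2 : -(n : ℤ) + ((2 * n : ℕ) : ℤ) = n := by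
    push_cast
    ring
  rw [h2] at h1
  have h3 : (∑ i ∈ Finset.Ico (-(n : ℤ)) n, itr Φ.σ i x) =
      (∑ i ∈ Finset.Ico (-(n : ℤ)) n, itr Φ.σ i x') +
        ∑ i ∈ Finset.Ico (-(n : ℤ)) n, (itr Φ.σ i h - itr Φ.σ (i + 1) h) := by
    rw [← Finset.sum_add_distrib]
    refine Finset.sum_congr rfl fun i _ => ?_
    rw [hx, map_add, map_sub, itr_succ']
  rw [h3, h1]
  abel

/-- One step: the support of `x` in `[a, b]`, `a < b`, is shortened.

Proof. Let `e` be a parallel basis (`exists_par_basis`). (1) For `i` at the site `a` and `j` at the site `b`: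
`Φ.N j (Φ.N i x) = 0`. Take `n` from `hx i` large, and larger than `b - a`; apply `Φ.N j` to
`Φ.N i (∑_{l ∈ [-n, n)} itr Φ.σ l x) = 0`. The term `l` vanishes unless `a` and `b` are both sites of
`[a + l, b + l]` (`supp_shift`, `Φ.comm`), that is unless `l = 0`. (2) By `split_var` for every coordinate
(`par_coord`) `x = g + g'`, `Φ.N j g = 0` for `j ∉ blk k a (b - 1)` and `Φ.N j g' = 0` for
`j ∉ blk k (a + 1) b`. (3) `x' := g + Φ.σ.symm g'`, `h := -Φ.σ.symm g'`: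
`x = x' + (h - Φ.σ h)`, and `x'` is supported in `blk k a (b - 1)` (`supp_shift` with `n = -1`). (4) The
total derivatives of `h - Φ.σ h` vanish for large `n`: `∑_{[-n, n)} itr Φ.σ l (h - Φ.σ h) =
itr Φ.σ (-n) h - itr Φ.σ n h` and `Φ.N j` kills both for `n` large (`supp_shift`, `h` has bounded support). -/
theorem tot_step (Φ : Flat D M) [FiniteDimensional K M] (a b : ℤ) (hab : a < b) (x : M)
    (hs : ∀ j, j ∉ blk k a b → Φ.N j x = 0)
    (hx : ∀ j, ∃ n₀ : ℕ, ∀ n : ℕ, n₀ ≤ n →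
      Φ.N j (∑ i ∈ Finset.Ico (-(n : ℤ)) n, itr Φ.σ i x) = 0) :
    ∃ x' h : M, x = x' + (h - Φ.σ h) ∧ (∀ j, j ∉ blk k a (b - 1) → Φ.N j x' = 0) ∧
      ∀ j, ∃ n₀ : ℕ, ∀ n : ℕ, n₀ ≤ n →
        Φ.N j (∑ i ∈ Finset.Ico (-(n : ℤ)) n, itr Φ.σ i x') = 0 := by
  obtain ⟨r, e, he⟩ := exists_par_basis Φ
  have h1 : ∀ i j : ℤ × Fin k, i.1 = a → j.1 = b → Φ.N j (Φ.N i x) = 0 := by
    intro i j hi hj
    obtain ⟨n₀, hn₀⟩ := hx i
    have h2 := hn₀ (n₀ + (b - a).toNat + 1) (by omega)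
    have h3 := congrArg (Φ.N j) h2
    rw [map_sum, map_sum, map_zero, Finset.sum_eq_single (0 : ℤ)] at h3
    · rwa [itr_zero] at h3
    · intro l _ hl
      by_cases h4 : sft (-l) i ∈ blk k a b
      · have h5 : sft (-l) j ∉ blk k a b := by
          rintro ⟨h6, h7⟩
          obtain ⟨h8, h9⟩ := h4
          rw [sft_fst] at h6 h7 h8 h9
          omega
        rw [Φ.comm, ATot_N Φ l j, hs _ h5, map_zero, map_zero]
      · rw [ATot_N Φ l i, hs _ h4, map_zero, map_zero]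
    · intro h4
      exfalso
      apply h4
      rw [Finset.mem_Ico]
      push_cast
      omega
  have h2 : ∀ l : Fin r, ∃ g ∈ D.cst (blk k a (b - 1)), ∃ g' ∈ D.cst (blk k (a + 1) b),
      e.repr x l = g + g' := by
    intro l
    refine split_var D a b hab (e.repr x l) ?_ ?_
    · intro j hj
      rw [← par_coord Φ e he x j l, hs j hj, map_zero]
      rfl
    · intro i j hi hj
      rw [← par_coord Φ e he x i l, ← par_coord Φ e he _ j l, h1 i j hi hj, map_zero]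
      rfl
  choose g hg g' hg' hgg using h2
  set G : M := ∑ l, g l • e l with hG
  set G' : M := ∑ l, g' l • e l with hG'
  have hGS : ∀ j, j ∉ blk k a (b - 1) → Φ.N j G = 0 := by
    intro j hj
    rw [hG, ATriv_sum]
    refine Finset.sum_eq_zero fun l _ => ?_
    rw [hg l j hj, he l j, zero_smul, smul_zero, add_zero]
  have hGS' : ∀ j, j ∉ blk k (a + 1) b → Φ.N j G' = 0 := by
    intro j hj
    rw [hG', ATriv_sum]
    refine Finset.sum_eq_zero fun l _ => ?_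
    rw [hg' l j hj, he l j, zero_smul, smul_zero, add_zero]
  have hxG : x = G + G' := by
    conv_lhs => rw [← e.sum_repr x]
    rw [hG, hG', ← Finset.sum_add_distrib]
    refine Finset.sum_congr rfl fun l _ => ?_
    rw [hgg l, add_smul]
  have hsy : ∀ j, j ∉ blk k a (b - 1) → Φ.N j (Φ.σ.symm G') = 0 := by
    intro j hj
    rw [← itr_neg_one]
    refine supp_shift Φ (blk k (a + 1) b) G' hGS' (-1) j ?_
    rintro ⟨j', ⟨h3, h4⟩, rfl⟩
    refine hj ⟨?_, ?_⟩ <;> rw [sft_fst] <;> omega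
  have hxx : x = (G + Φ.σ.symm G') + (-(Φ.σ.symm G') - Φ.σ (-(Φ.σ.symm G'))) := by
    rw [map_neg, Φ.σ.apply_symm_apply, hxG]
    abel
  refine ⟨G + Φ.σ.symm G', -(Φ.σ.symm G'), hxx, ?_, ?_⟩
  · intro j hj
    rw [map_add, hGS j hj, hsy j hj, add_zero]
  · intro j
    obtain ⟨n₀, hn₀⟩ := hx j
    obtain ⟨n₁, hn₁⟩ := ATot_bnd Φ a (b - 1) (-(Φ.σ.symm G')) (fun j hj => by
      rw [map_neg, hsy j hj, neg_zero]) j
    refine ⟨max n₀ n₁, fun n hn => ?_⟩
    rw [ATot_cob Φ _ x _ hxx n, map_add, map_sub, hn₀ n (le_trans (le_max_left _ _) hn),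
      (hn₁ n (le_trans (le_max_right _ _) hn)).1, (hn₁ n (le_trans (le_max_right _ _) hn)).2,
      sub_zero, add_zero]

theorem ATot_ind (Φ : Flat D M) [FiniteDimensional K M] (d : ℕ) : ∀ (a : ℤ) (x : M),
    (∀ j, j ∉ blk k a (a + d) → Φ.N j x = 0) →
    (∀ j, ∃ n₀ : ℕ, ∀ n : ℕ, n₀ ≤ n →
      Φ.N j (∑ i ∈ Finset.Ico (-(n : ℤ)) n, itr Φ.σ i x) = 0) →
    ∃ c h : M, (∀ j, Φ.N j c = 0) ∧ x = c + (h - Φ.σ h) := by
  induction d with
  | zero =>
    intro a x hs hx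
    refine ⟨x, 0, fun j => ?_, by simp⟩
    by_cases hj : j ∈ blk k a (a + ((0 : ℕ) : ℤ))
    · obtain ⟨n₀, hn₀⟩ := hx j
      have h2 := hn₀ (n₀ + 1) (by omega)
      rw [map_sum, Finset.sum_eq_single (0 : ℤ)] at h2
      · rwa [itr_zero] at h2
      · intro l _ hl
        rw [ATot_N, hs, map_zero]
        rintro ⟨h3, h4⟩
        obtain ⟨h5, h6⟩ := hj
        rw [sft_fst] at h3 h4
        push_cast at h4 h6
        omega
      · intro h4
        exfalso
        apply h4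
        rw [Finset.mem_Ico]
        push_cast
        omega
    · exact hs j hj
  | succ d ih =>
    intro a x hs hx
    obtain ⟨x', h, h1, h2, h3⟩ := tot_step Φ a (a + ((d + 1 : ℕ) : ℤ)) (by push_cast; omega) x hs hx
    have h4 : a + ((d + 1 : ℕ) : ℤ) - 1 = a + d := by
      push_cast
      ring
    rw [h4] at h2
    obtain ⟨c, h', h5, h6⟩ := ih a x' h2 h3
    refine ⟨c, h' + h, h5, ?_⟩
    rw [h1, h6, map_add]
    abel

/-- An element with vanishing total derivatives is a parallel element plus `h - σ h`.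

Proof. By `Φ.fin` the support of `x` is in some `blk k a b`, `a ≤ b`. Induction on `b - a` with `tot_step`
(`x = x' + (h - σ h)`, `x' = c + (h' - σ h')`). If `a = b`: for `j` at the site `a`, `Φ.N j` kills
`itr Φ.σ l x` for `l ≠ 0` (`supp_shift`), so `Φ.N j x = 0`: `x` is parallel. -/
theorem tot_zero (Φ : Flat D M) [FiniteDimensional K M] (x : M)
    (hx : ∀ j, ∃ n₀ : ℕ, ∀ n : ℕ, n₀ ≤ n →
      Φ.N j (∑ i ∈ Finset.Ico (-(n : ℤ)) n, itr Φ.σ i x) = 0) :
    ∃ c h : M, (∀ j, Φ.N j c = 0) ∧ x = c + (h - Φ.σ h) := by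
  obtain ⟨B, hB⟩ : ∃ B : ℤ, ∀ j ∈ {j | Φ.N j x ≠ 0}, |j.1| ≤ B := by
    have hf : ((fun j : ℤ × Fin k => |j.1|) '' {j | Φ.N j x ≠ 0}).Finite := (Φ.fin x).image _
    obtain ⟨B, hB⟩ := hf.bddAbove
    exact ⟨B, fun j hj => hB ⟨j, hj, rfl⟩⟩
  refine ATot_ind Φ (2 * B.toNat) (-(B.toNat : ℤ)) x ?_ hx
  intro j hj
  by_contra h
  have h1 := hB j h
  rw [abs_le] at h1
  apply hj
  refine ⟨?_, ?_⟩
  · omega
  · push_cast
    omega

/-- Additive maps descend to the quotient. -/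
def ATotQ (W : Submodule K M) (f : M →+ M) (hf : ∀ x ∈ W, f x ∈ W) : M ⧸ W →+ M ⧸ W :=
  QuotientAddGroup.map W.toAddSubgroup W.toAddSubgroup f hf

theorem ATotQ_mk (W : Submodule K M) (f : M →+ M) (hf : ∀ x ∈ W, f x ∈ W) (x : M) :
    ATotQ W f hf (Submodule.Quotient.mk x) = Submodule.Quotient.mk (f x) := rfl

/-- The quotient system. -/
def ATotF (Φ : Flat D M) (W : Submodule K M)
    (hWN : ∀ j, ∀ x ∈ W, Φ.N j x ∈ W) (hWσ : ∀ x ∈ W, Φ.σ x ∈ W)
    (hWσ' : ∀ x ∈ W, Φ.σ.symm x ∈ W) : Flat D (M ⧸ W) where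
  σ :=
    { toFun := ATotQ W (Φ.σ : M →+ M) hWσ
      invFun := ATotQ W (Φ.σ.symm : M →+ M) hWσ'
      left_inv := by
        intro x
        obtain ⟨x, rfl⟩ := Submodule.Quotient.mk_surjective W x
        rw [ATotQ_mk, ATotQ_mk]
        congr 1
        exact Φ.σ.symm_apply_apply x
      right_inv := by
        intro x
        obtain ⟨x, rfl⟩ := Submodule.Quotient.mk_surjective W x
        rw [ATotQ_mk, ATotQ_mk]
        congr 1
        exact Φ.σ.apply_symm_apply x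
      map_add' := fun x y => map_add _ x y }
  hσ := by
    intro f x
    obtain ⟨x, rfl⟩ := Submodule.Quotient.mk_surjective W x
    have h1 := congrArg (Submodule.Quotient.mk (p := W)) (Φ.hσ f x)
    exact h1
  N j := ATotQ W (Φ.N j) (hWN j)
  hN := by
    intro j f x
    obtain ⟨x, rfl⟩ := Submodule.Quotient.mk_surjective W x
    have h1 := congrArg (Submodule.Quotient.mk (p := W)) (Φ.hN j f x)
    exact h1
  comm := by
    intro i j x
    obtain ⟨x, rfl⟩ := Submodule.Quotient.mk_surjective W x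
    have h1 := congrArg (Submodule.Quotient.mk (p := W)) (Φ.comm i j x)
    exact h1
  σN := by
    intro j x
    obtain ⟨x, rfl⟩ := Submodule.Quotient.mk_surjective W x
    have h1 := congrArg (Submodule.Quotient.mk (p := W)) (Φ.σN j x)
    exact h1
  fin := by
    intro x
    obtain ⟨x, rfl⟩ := Submodule.Quotient.mk_surjective W x
    refine (Φ.fin x).subset fun j hj h0 => hj ?_
    rw [ATotQ_mk, h0]
    rfl

theorem ATotF_N (Φ : Flat D M) (W : Submodule K M)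
    (hWN : ∀ j, ∀ x ∈ W, Φ.N j x ∈ W) (hWσ : ∀ x ∈ W, Φ.σ x ∈ W)
    (hWσ' : ∀ x ∈ W, Φ.σ.symm x ∈ W) (j : ℤ × Fin k) (x : M) :
    (ATotF Φ W hWN hWσ hWσ').N j (Submodule.Quotient.mk x) = Submodule.Quotient.mk (Φ.N j x) := rfl

theorem ATotF_σ (Φ : Flat D M) (W : Submodule K M)
    (hWN : ∀ j, ∀ x ∈ W, Φ.N j x ∈ W) (hWσ : ∀ x ∈ W, Φ.σ x ∈ W)
    (hWσ' : ∀ x ∈ W, Φ.σ.symm x ∈ W) (x : M) :
    (ATotF Φ W hWN hWσ hWσ').σ (Submodule.Quotient.mk x) = Submodule.Quotient.mk (Φ.σ x) := rfl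

theorem ATotF_σs (Φ : Flat D M) (W : Submodule K M)
    (hWN : ∀ j, ∀ x ∈ W, Φ.N j x ∈ W) (hWσ : ∀ x ∈ W, Φ.σ x ∈ W)
    (hWσ' : ∀ x ∈ W, Φ.σ.symm x ∈ W) (x : M) :
    (ATotF Φ W hWN hWσ hWσ').σ.symm (Submodule.Quotient.mk x) =
      Submodule.Quotient.mk (Φ.σ.symm x) := rfl

theorem ATotF_itr (Φ : Flat D M) (W : Submodule K M)
    (hWN : ∀ j, ∀ x ∈ W, Φ.N j x ∈ W) (hWσ : ∀ x ∈ W, Φ.σ x ∈ W)
    (hWσ' : ∀ x ∈ W, Φ.σ.symm x ∈ W) (n : ℤ) (x : M) :
    itr (ATotF Φ W hWN hWσ hWσ').σ n (Submodule.Quotient.mk x) =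
      Submodule.Quotient.mk (itr Φ.σ n x) := by
  induction n using Int.induction_on with
  | zero => rw [itr_zero, itr_zero]
  | succ n ih => rw [itr_succ, itr_succ, ih, ATotF_σ]
  | pred n ih => rw [itr_pred, itr_pred, ih, ATotF_σs]

/-- The same modulo a stable subspace `W`.

Proof. The quotient `M ⧸ W` is a flat system `Ψ`: `Φ.σ` and the `Φ.N j` descend
(`QuotientAddGroup.map`/`Submodule.liftQ` for additive maps; construct the maps on the quotient with
`QuotientAddGroup.lift` or `Quotient.map'`; finiteness and commutation are inherited). `tot_zero` for the class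
of `x` gives a parallel class `c'` and a class `h'` with `x ≡ c' + (h' - Ψ.σ h')`. Lift `c'` to a parallel
element: let `e` be a parallel basis of `M` (`exists_par_basis`); the classes of the `e i` span `M ⧸ W`, choose
among them a basis of `M ⧸ W`; it is parallel; by `par_iff` the coordinates of `c'` are in `cst ∅`; the same
combination `c` of the corresponding `e i` is parallel and its class is `c'`. Lift `h'` to `h` arbitrarily;
`w := x - c - (h - Φ.σ h) ∈ W`. -/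
theorem tot_mod (Φ : Flat D M) [FiniteDimensional K M] (W : Submodule K M)
    (hWN : ∀ j, ∀ x ∈ W, Φ.N j x ∈ W) (hWσ : ∀ x ∈ W, Φ.σ x ∈ W) (hWσ' : ∀ x ∈ W, Φ.σ.symm x ∈ W)
    (x : M)
    (hx : ∀ j, ∃ n₀ : ℕ, ∀ n : ℕ, n₀ ≤ n →
      Φ.N j (∑ i ∈ Finset.Ico (-(n : ℤ)) n, itr Φ.σ i x) ∈ W) :
    ∃ c h w : M, (∀ j, Φ.N j c = 0) ∧ w ∈ W ∧ x = c + (h - Φ.σ h) + w := by
  classical
  set Ψ := ATotF Φ W hWN hWσ hWσ' with hΨ
  have h1 : ∀ j, ∃ n₀ : ℕ, ∀ n : ℕ, n₀ ≤ n →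
      Ψ.N j (∑ i ∈ Finset.Ico (-(n : ℤ)) n, itr Ψ.σ i (Submodule.Quotient.mk x)) = 0 := by
    intro j
    obtain ⟨n₀, hn₀⟩ := hx j
    refine ⟨n₀, fun n hn => ?_⟩
    have h2 : (∑ i ∈ Finset.Ico (-(n : ℤ)) n, itr Ψ.σ i (Submodule.Quotient.mk x : M ⧸ W)) =
        Submodule.Quotient.mk (∑ i ∈ Finset.Ico (-(n : ℤ)) n, itr Φ.σ i x) := by
      refine Eq.trans ?_ (map_sum W.mkQ (fun i => itr Φ.σ i x) (Finset.Ico (-(n : ℤ)) n)).symm
      exact Finset.sum_congr rfl fun i _ => ATotF_itr Φ W hWN hWσ hWσ' i x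
    rw [h2, hΨ, ATotF_N]
    exact (Submodule.Quotient.mk_eq_zero W).2 (hn₀ n hn)
  obtain ⟨c', h', hc', hx'⟩ := tot_zero Ψ (Submodule.Quotient.mk x) h1
  obtain ⟨r, e, he⟩ := exists_par_basis Φ
  obtain ⟨h, rfl⟩ := Submodule.Quotient.mk_surjective W h'
  -- a basis of the quotient among the classes of the `e i`
  have hspan : ⊤ ≤ Submodule.span K (Set.range fun i => (Submodule.Quotient.mk (e i) : M ⧸ W)) := by
    have h2 : (Set.range fun i => (Submodule.Quotient.mk (e i) : M ⧸ W)) =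
        W.mkQ '' Set.range e := by
      rw [← Set.range_comp]
      rfl
    rw [h2, Submodule.span_image, e.span_eq, Submodule.map_top, Submodule.range_mkQ]
  let b := Module.Basis.ofSpan hspan
  have hfin := Module.Finite.finite_basis b
  have hft := Fintype.ofFinite ((linearIndepOn_empty K id).extend
      (Set.empty_subset (Set.range fun i => (Submodule.Quotient.mk (e i) : M ⧸ W))))
  let b' := b.reindex (Fintype.equivFin _)
  have hb' : ∀ l, ∃ i, (Submodule.Quotient.mk (e i) : M ⧸ W) = b' l := by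
    intro l
    have h2 : b' l = b ((Fintype.equivFin _).symm l) := Module.Basis.reindex_apply _ _ _
    have h3 : b ((Fintype.equivFin _).symm l) ∈
        Set.range fun i => (Submodule.Quotient.mk (e i) : M ⧸ W) :=
      Module.Basis.ofSpan_subset hspan (Set.mem_range_self _)
    rw [h2]
    exact h3
  choose ix hix using hb'
  have hbpar : ∀ l j, Ψ.N j (b' l) = 0 := by
    intro l j
    rw [← hix l, hΨ, ATotF_N, he]
    rfl
  have hco := (par_iff Ψ b' hbpar c').1 hc'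
  set c : M := ∑ l, b'.repr c' l • e (ix l) with hcdef
  have hcpar : ∀ j, Φ.N j c = 0 := by
    intro j
    rw [hcdef, ATriv_sum]
    refine Finset.sum_eq_zero fun l _ => ?_
    rw [hco l j (Set.notMem_empty j), he, zero_smul, smul_zero, add_zero]
  have hmk : (Submodule.Quotient.mk c : M ⧸ W) = c' := by
    conv_rhs => rw [← b'.sum_repr c']
    rw [hcdef, ← Submodule.mkQ_apply, map_sum]
    refine Finset.sum_congr rfl fun l _ => ?_
    rw [map_smul, Submodule.mkQ_apply, hix]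
  refine ⟨c, h, x - (c + (h - Φ.σ h)), hcpar, ?_, by abel⟩
  rw [← Submodule.Quotient.mk_eq_zero W, Submodule.Quotient.mk_sub, sub_eq_zero, hx',
    Submodule.Quotient.mk_add, Submodule.Quotient.mk_sub, hmk, hΨ, ATotF_σ]

end Pool.Agent.Wb5ab1bf
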