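import Pool.Agent.W_b5ab1bf_h80.AFl

/-!
# The algebra of the centre is spanned by elements with finite orbit (helper80)
-/

set_option autoImplicit false

noncomputable section

namespace Pool.Agent.Wb5ab1bf

variable {k : ℕ} {K : Type} [Field K] {D : DField k K} {V : Type} [AddCommGroup V] [Module K V]

/-- A polynomial over a field has finitely many roots in a finite-dimensional reduced commutative algebra.

Proof. `A` is artinian and reduced, so `A` embeds in the finite product of the fields `A ⧸ m`, `m` maximal
(`IsArtinianRing.equivPi`, finitely many maximal ideals); in each field the polynomial `p ≠ 0` has finitely many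
roots (`Polynomial.rootSet_finite` or `Polynomial.card_roots'`); a root in `A` is determined by its images. -/
theorem roots_finite (F A : Type) [Field F] [CommRing A] [Algebra F A] [IsArtinianRing A]
    [IsReduced A] (p : Polynomial F) (hp : p ≠ 0) :
    {a : A | Polynomial.aeval a p = 0}.Finite := by
  classical
  have hfin : ∀ I : MaximalSpectrum A,
      {x : A ⧸ I.asIdeal | Polynomial.aeval x p = 0}.Finite := by
    intro I
    have := I.isMaximal
    letI := Ideal.Quotient.field I.asIdeal
    refine (Polynomial.rootSet_finite p (A ⧸ I.asIdeal)).subset fun x hx => ?_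
    exact (Polynomial.mem_rootSet.2 ⟨hp, hx⟩)
  have hpi := Set.Finite.pi (fun I => hfin I)
  have hinj : Function.Injective (IsArtinianRing.equivPi A) := (IsArtinianRing.equivPi A).injective
  refine (hpi.preimage hinj.injOn).subset fun a ha => ?_
  rw [Set.mem_preimage, Set.mem_univ_pi]
  intro I
  have h1 : IsArtinianRing.equivPi A a I = Ideal.Quotient.mkₐ F I.asIdeal a := rfl
  change Polynomial.aeval (IsArtinianRing.equivPi A a I) p = 0
  rw [h1, Polynomial.aeval_algHom_apply]
  have h2 : Polynomial.aeval a p = 0 := ha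
  rw [h2, map_zero]

/-- The roots of a polynomial in a commutative reduced subalgebra are finite in number. -/
theorem AZf.roots {E : Type} [Ring E] [Algebra K E] [FiniteDimensional K E] (Z : Subalgebra K E)
    (hcomm : ∀ x ∈ Z, ∀ y ∈ Z, x * y = y * x) (hred : ∀ x ∈ Z, IsNilpotent x → x = 0)
    (p : Polynomial K) (hp : p ≠ 0) : {a : E | a ∈ Z ∧ Polynomial.aeval a p = 0}.Finite := by
  letI : CommRing Z := { (inferInstance : Ring Z) with
    mul_comm := fun x y => Subtype.ext (hcomm x x.2 y y.2) }
  have h1 : IsArtinianRing Z := IsArtinianRing.of_finite K Z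
  have h2 : IsReduced Z := ⟨fun x hx => by
    apply Subtype.ext
    apply hred x x.2
    obtain ⟨n, hn⟩ := hx
    refine ⟨n, ?_⟩
    have := congrArg (Subtype.val) hn
    exact this⟩
  have h3 := roots_finite K Z p hp
  refine (h3.image (Subtype.val)).subset ?_
  rintro a ⟨ha, ha'⟩
  refine ⟨⟨a, ha⟩, ?_, rfl⟩
  apply Subtype.ext
  have h4 : ((Polynomial.aeval (⟨a, ha⟩ : Z) p : Z) : E) = Polynomial.aeval a p :=
    (Polynomial.aeval_algHom_apply Z.val (⟨a, ha⟩ : Z) p).symm
  rw [h4, ha']
  rfl

/-- `zenS S.Lam` is spanned over `K` by endomorphisms with finite orbit.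

Proof. Let `Z := zenS S.Lam`; `W := Subalgebra.toSubmodule Z` is a flat system `Φ` (`exists_flat`,
`zenS_stab`, `zenS_stabN`, `zenS_le_comS`, `comS_bp_eq_bm`, `Lam_stab`, `Lam_stabN`). By `span_par` it is
enough that every parallel `z ∈ Z` has a finite orbit. Let `F₀ := D.cst ∅` (a subfield of `K`).
(1) `z` is algebraic over `F₀`: the powers `z ^ i` are parallel elements of the finite-dimensional space `Z`; if
they were linearly independent over `F₀` then over `K` by `par_indep`; so there is a polynomial `p ≠ 0` over
`F₀` with `p(z) = 0`. (2) `S.cj` fixes the coefficients of `p` (`D.fix`: elements of `cst ∅` are fixed by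
`D.θ`), so `p((S.cj ^ i) z) = (S.cj ^ i) (p(z)) = 0` for all `i : ℤ`. (3) `Z` is a commutative ring
(`zenS_comm`), finite-dimensional over `K`, so artinian, and reduced: if `x ∈ Z` is nilpotent then
`trace (x * y) = 0` for `y ∈ Z` (`x * y` is nilpotent), so `x = 0` (`zenS_nondeg`). By `roots_finite` (over `K`;
map `p` to `K`) the set of the `(S.cj ^ i) z` is finite, so `(S.cj ^ i) z = (S.cj ^ i') z` for some `i < i'`,
and `(S.cj ^ (i' - i)) z = z`: `z ∈ S.fn`. -/
theorem zen_le_fn [CharZero K] [FiniteDimensional K V] (S : Sys D V) :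
    ∀ z ∈ zenS S.Lam, z ∈ Submodule.span K S.fn := by
  classical
  obtain ⟨Φ, hΦσ, hΦN⟩ := exists_flat S (Subalgebra.toSubmodule (zenS S.Lam))
    (zenS_stab S _ (Lam_stab S)) (zenS_stabN S _ (Lam_stabN S))
    (fun j x hx => comS_bp_eq_bm S S.Lam j (Submodule.subset_span ⟨j, rfl⟩) x
      (zenS_le_comS _ x hx))
  have hred : ∀ x ∈ zenS S.Lam, IsNilpotent x → x = 0 := by
    intro x hx hn
    refine zenS_nondeg S S.Lam (Lam_stab S) x hx fun y hy => ?_
    have hc : Commute x y := zenS_comm S.Lam x hx y hy
    exact (LinearMap.isNilpotent_trace_of_isNilpotent (hc.isNilpotent_mul_right hn)).eq_zero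
  have hfix : ∀ f : K, f ∈ D.cst ∅ → D.θ f = f := fun f hf =>
    D.fix f fun j => hf j (Set.notMem_empty j)
  -- parallel elements have a finite orbit
  have hpar : ∀ x : Subalgebra.toSubmodule (zenS S.Lam), (∀ j, Φ.N j x = 0) →
      (x : Module.End K V) ∈ S.fn := by
    intro x hx
    set z : Module.End K V := (x : Module.End K V) with hz
    have hzZ : z ∈ zenS S.Lam := x.2
    have hbp : ∀ j, S.bp j z = 0 := by
      intro j
      rw [hz, ← hΦN, hx j]
      rfl
    -- a polynomial relation with constant coefficients
    obtain ⟨N, g, hg, hg0, i₀, hi₀⟩ : ∃ (N : ℕ) (g : Fin N → K), (∀ i, g i ∈ D.cst ∅) ∧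
        ∑ i, g i • z ^ (i : ℕ) = 0 ∧ ∃ i, g i ≠ 0 := by
      by_contra hno
      push Not at hno
      let M := Module.finrank K (Subalgebra.toSubmodule (zenS S.Lam)) + 1
      let y : Fin M → Subalgebra.toSubmodule (zenS S.Lam) := fun i =>
        ⟨z ^ (i : ℕ), pow_mem hzZ _⟩
      have hyp : ∀ i j, Φ.N j (y i) = 0 := by
        intro i j
        apply Subtype.ext
        rw [hΦN]
        show S.bp j (z ^ (i : ℕ)) = 0
        generalize (i : ℕ) = n
        induction n with
        | zero => rw [pow_zero]; exact brL_one _
        | succ n ih => rw [pow_succ, Sys.bp_mul, ih, hbp j, zero_mul, mul_zero, add_zero]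
      have hval : ∀ g : Fin M → K, ((∑ i, g i • y i : Subalgebra.toSubmodule (zenS S.Lam)) :
          Module.End K V) = ∑ i, g i • z ^ (i : ℕ) := by
        intro g
        rw [Submodule.coe_sum]
        rfl
      have hind : LinearIndependent K y := by
        rw [Fintype.linearIndependent_iff]
        intro f hf
        refine par_indep Φ y hyp ?_ f hf
        intro g hg hg0
        apply hno M g hg
        rw [← hval g, hg0]
        rfl
      have h1 := hind.fintype_card_le_finrank
      rw [Fintype.card_fin] at h1
      omega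
    let p : Polynomial K := ∑ i : Fin N, Polynomial.monomial (i : ℕ) (g i)
    have hp0 : p ≠ 0 := by
      intro h
      have h1 := congrArg (fun q => Polynomial.coeff q (i₀ : ℕ)) h
      simp only [p, Polynomial.finset_sum_coeff, Polynomial.coeff_monomial,
        Polynomial.coeff_zero] at h1
      rw [Finset.sum_eq_single i₀] at h1
      · rw [if_pos rfl] at h1
        exact hi₀ h1
      · intro i _ hne
        rw [if_neg]
        intro h2
        exact hne (Fin.ext h2)
      · intro h2
        exact absurd (Finset.mem_univ _) h2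
    have hpa : ∀ a : Module.End K V, Polynomial.aeval a p = ∑ i, g i • a ^ (i : ℕ) := by
      intro a
      simp only [p, map_sum, Polynomial.aeval_monomial, Algebra.smul_def]
    have hfin := AZf.roots (zenS S.Lam) (zenS_comm S.Lam) hred p hp0
    have horb : ∀ n : ℕ, (S.cj ^ n) z ∈
        {a : Module.End K V | a ∈ zenS S.Lam ∧ Polynomial.aeval a p = 0} := by
      intro n
      induction n with
      | zero =>
        rw [pow_zero]
        refine ⟨hzZ, ?_⟩
        rw [hpa]
        exact hg0
      | succ n ih =>
        rw [pow_succ']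
        obtain ⟨h1, h2⟩ := ih
        refine ⟨(zenS_stab S _ (Lam_stab S)).1 _ h1, ?_⟩
        rw [hpa] at h2 ⊢
        have h3 := congrArg S.cj h2
        rw [map_sum, map_zero] at h3
        rw [← h3]
        refine Finset.sum_congr rfl fun i _ => ?_
        rw [Sys.cj_smul, map_pow, hfix _ (hg i)]
        rfl
    obtain ⟨a, b, hab, heq⟩ := hfin.exists_lt_map_eq_of_forall_mem horb
    refine ⟨b - a, by omega, ?_⟩
    apply (S.cj ^ a).injective
    rw [heq]
    have h1 : (S.cj ^ a) ((S.cj ^ (b - a)) z) = (S.cj ^ a * S.cj ^ (b - a)) z := rfl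
    rw [h1, ← pow_add]
    congr 2
    omega
  intro z hz
  have hmem : (⟨z, hz⟩ : Subalgebra.toSubmodule (zenS S.Lam)) ∈
      Submodule.span K {x : Subalgebra.toSubmodule (zenS S.Lam) | ∀ j, Φ.N j x = 0} := by
    rw [span_par Φ]
    exact Submodule.mem_top
  have h1 : ∀ x : Subalgebra.toSubmodule (zenS S.Lam),
      x ∈ Submodule.span K {x : Subalgebra.toSubmodule (zenS S.Lam) | ∀ j, Φ.N j x = 0} →
      (x : Module.End K V) ∈ Submodule.span K S.fn := by
    intro x hx
    induction hx using Submodule.span_induction with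
    | mem x hx => exact Submodule.subset_span (hpar x hx)
    | zero => exact zero_mem _
    | add x y _ _ h1 h2 => exact add_mem h1 h2
    | smul c x _ h1 => exact Submodule.smul_mem _ c h1
  exact h1 _ hmem

end Pool.Agent.Wb5ab1bf
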