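import Pool.Agent.W_b5ab1bf_h80.ATD
import Pool.Agent.W_b5ab1bf_h80.AZf
import Pool.Agent.W_b5ab1bf_h80.AC0
import Pool.Agent.W_b5ab1bf_h80.ATot

/-!
# Theorem A (helper80)
-/

set_option autoImplicit false

noncomputable section

namespace Pool.Agent.Wb5ab1bf

variable {k : ℕ} {K : Type} [Field K] {D : DField k K} {V : Type} [AddCommGroup V] [Module K V]

/-- **Theorem A.** If the subspace `Ng` contains all the `S.Dj j` and all the endomorphisms with finite orbit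
then `S.E1 ∈ Ng + (1 - σ) End V`.

Proof. `L := S.Lam ≤ Ng`. Take `B`, `s₀`, `C₁` from `exists_decomp` (`Lam_lie`, `Lam_stab`). The commutant
`W₀ := Subalgebra.toSubmodule (comS L)` is a flat system `Φ` (`exists_flat`, `comS_stab`, `comS_stabN`,
`comS_bp_eq_bm`, `Lam_stabN`), finite-dimensional. Let `W := comap` in `W₀` of `Submodule.span K S.fn`
(`≤ comS L` by `fn_comS`); it is stable (`span_fn_stab`, `span_fn_stabN`). By `total_der` and `zen_le_fn` the
hypothesis of `tot_mod` holds for `x = C₁` (`flat_zpow` identifies `itr Φ.σ i x` with `(S.cj ^ i) C₁`). So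
`C₁ = c + (h - S.cj h) + w`, `c` parallel in the commutant, `w ∈ Submodule.span K S.fn ≤ Ng`. By `c0_split`
`c = d + (a - S.cj a)` with `S.cj d = d`, so `d ∈ S.fn ≤ Ng`. Also `s₀ ∈ derS L ≤ L ≤ Ng` (`derS_le`). Hence
`S.E1 - ((h + a - B) - S.cj (h + a - B)) = s₀ + d + w ∈ Ng`. -/
theorem thmA [CharZero K] [FiniteDimensional K V] (S : Sys D V)
    (Ng : Submodule K (Module.End K V)) (h1 : ∀ j, S.Dj j ∈ Ng) (h2 : ∀ x ∈ S.fn, x ∈ Ng) :
    ∃ B : Module.End K V, S.E1 - (B - S.cj B) ∈ Ng := by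
  classical
  have hLn : S.Lam ≤ Ng := by
    unfold Sys.Lam
    rw [Submodule.span_le]
    rintro x ⟨j, rfl⟩
    exact h1 j
  have hfn : Submodule.span K S.fn ≤ Ng := by
    rw [Submodule.span_le]
    exact fun x hx => h2 x hx
  obtain ⟨B, s₀, C₁, hB1, hB2, hs₀, hC₁, hE⟩ := exists_decomp S S.Lam (Lam_lie S) (Lam_stab S)
  obtain ⟨W₀, hW₀⟩ : ∃ W₀ : Submodule K (Module.End K V),
      W₀ = Subalgebra.toSubmodule (comS S.Lam) := ⟨_, rfl⟩
  have hmem : ∀ x, x ∈ W₀ ↔ x ∈ comS S.Lam := by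
    intro x
    rw [hW₀, Subalgebra.mem_toSubmodule]
  have hDj : ∀ j, S.Dj j ∈ S.Lam := fun j => Submodule.subset_span ⟨j, rfl⟩
  obtain ⟨Φ, hΦσ, hΦN⟩ := exists_flat S W₀ (by rw [hW₀]; exact comS_stab S _ (Lam_stab S))
    (by rw [hW₀]; exact comS_stabN S _ (Lam_stabN S))
    (fun j x hx => comS_bp_eq_bm S S.Lam j (hDj j) x ((hmem x).1 hx))
  obtain ⟨W, hW⟩ : ∃ W : Submodule K W₀, W = (Submodule.span K S.fn).comap W₀.subtype := ⟨_, rfl⟩
  have hmW : ∀ x : W₀, x ∈ W ↔ (x : Module.End K V) ∈ Submodule.span K S.fn := by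
    intro x
    rw [hW, Submodule.mem_comap, Submodule.subtype_apply]
  have hst := span_fn_stab S
  have hstN := span_fn_stabN S
  have hΦσ' : ∀ x : W₀, ((Φ.σ.symm x : W₀) : Module.End K V) = S.cj.symm x := by
    intro x
    apply S.cj.injective
    rw [RingEquiv.apply_symm_apply, ← hΦσ, Φ.σ.apply_symm_apply]
  obtain ⟨c, h, w, hc, hw, hx⟩ := tot_mod Φ W
    (fun j x hx => by
      rw [hmW, hΦN]
      exact hstN.1 j _ ((hmW x).1 hx))
    (fun x hx => by
      rw [hmW, hΦσ]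
      exact hst.1 _ ((hmW x).1 hx))
    (fun x hx => by
      rw [hmW, hΦσ']
      exact hst.2 _ ((hmW x).1 hx))
    ⟨C₁, (hmem C₁).2 hC₁⟩
    (fun j => by
      obtain ⟨n₀, hn₀⟩ := total_der S B s₀ C₁ hB1 hB2 hs₀ hC₁ hE j
      refine ⟨n₀, fun n hn => ?_⟩
      rw [hmW, hΦN]
      have e1 : ((∑ i ∈ Finset.Ico (-(n : ℤ)) n, itr Φ.σ i ⟨C₁, (hmem C₁).2 hC₁⟩ : W₀) :
          Module.End K V) = ∑ i ∈ Finset.Ico (-(n : ℤ)) n, (S.cj ^ i) C₁ := by
        rw [Submodule.coe_sum]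
        exact Finset.sum_congr rfl fun i _ => flat_zpow S W₀ Φ hΦσ i _
      rw [e1]
      exact zen_le_fn S _ (hn₀ n hn))
  have hx' : C₁ = (c : Module.End K V) + ((h : Module.End K V) - S.cj h) + w := by
    have e2 := congrArg (fun x : W₀ => (x : Module.End K V)) hx
    simp only [Submodule.coe_add, Submodule.coe_sub, hΦσ] at e2
    exact e2
  have hc0 : ∀ j, S.bp j (c : Module.End K V) = 0 := by
    intro j
    rw [← hΦN, hc j]
    rfl
  obtain ⟨d, a, hd, hda⟩ := c0_split S c ((hmem _).1 c.2) hc0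
  have hdn : d ∈ Ng := h2 d ⟨1, one_pos, by rw [pow_one]; exact hd⟩
  have hwn : (w : Module.End K V) ∈ Ng := hfn ((hmW w).1 hw)
  have hsn : s₀ ∈ Ng := hLn (derS_le S.Lam (Lam_lie S) hs₀)
  refine ⟨(h : Module.End K V) + a - B, ?_⟩
  have e3 : S.E1 - (((h : Module.End K V) + a - B) - S.cj ((h : Module.End K V) + a - B)) =
      s₀ + d + w := by
    rw [hE, hx', hda, map_sub, map_add]
    abel
  rw [e3]
  exact add_mem (add_mem hsn hdn) hwn

end Pool.Agent.Wb5ab1bf
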