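import Pool.Agent.W_b5ab1bf_h80.AEng

/-!
# The structure of a Lie algebra stable under conjugation (helper80)
-/

set_option autoImplicit false

noncomputable section

namespace Pool.Agent.Wb5ab1bf

variable {k : ℕ} {K : Type} [Field K] {D : DField k K} {V : Type} [AddCommGroup V] [Module K V]

/-- The derived algebra of `L` is contained in `L`. -/
theorem ARed.derS_le' (L : Submodule K (Module.End K V)) (hL : LieCl L) : derS L ≤ L := by
  refine Submodule.span_le.2 ?_
  rintro z ⟨x, hx, y, hy, rfl⟩
  exact hL x hx y hy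

theorem ARed.mem_derS {L : Submodule K (Module.End K V)} {x y : Module.End K V} (hx : x ∈ L)
    (hy : y ∈ L) : x * y - y * x ∈ derS L :=
  Submodule.subset_span ⟨x, hx, y, hy, rfl⟩

/-- Elements of `derS L` are finite sums of commutators. -/
theorem ARed.rep {L : Submodule K (Module.End K V)} {b : Module.End K V} (hb : b ∈ derS L) :
    ∃ (n : ℕ) (x y : ℕ → Module.End K V), (∀ i, y i ∈ L) ∧
      b = ∑ i ∈ Finset.range n, (x i * y i - y i * x i) := by
  unfold derS at hb
  induction hb using Submodule.span_induction with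
  | mem z hz =>
    obtain ⟨x, hx, y, hy, rfl⟩ := hz
    refine ⟨1, fun _ => x, fun _ => y, fun _ => hy, ?_⟩
    rw [Finset.sum_range_one]
  | zero => exact ⟨0, fun _ => 0, fun _ => 0, fun _ => zero_mem _, by simp⟩
  | add a b _ _ ha hb =>
    obtain ⟨n, x, y, hy, h1⟩ := ha
    obtain ⟨n', x', y', hy', h1'⟩ := hb
    refine ⟨n + n', fun i => if i < n then x i else x' (i - n),
      fun i => if i < n then y i else y' (i - n), fun i => ?_, ?_⟩
    · by_cases h : i < n
      · simp only [if_pos h]
        exact hy i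
      · simp only [if_neg h]
        exact hy' _
    · rw [Finset.sum_range_add, h1, h1']
      congr 1
      · refine Finset.sum_congr rfl fun i hi => ?_
        simp only [if_pos (Finset.mem_range.1 hi)]
      · refine Finset.sum_congr rfl fun i _ => ?_
        have h : ¬ (n + i < n) := by omega
        simp only [if_neg h, Nat.add_sub_cancel_left]
  | smul c a _ ha =>
    obtain ⟨n, x, y, hy, h1⟩ := ha
    refine ⟨n, fun i => c • x i, y, hy, ?_⟩
    rw [h1, Finset.smul_sum]
    refine Finset.sum_congr rfl fun i _ => ?_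
    rw [smul_sub, smul_mul_assoc, mul_smul_comm]

/-- The derived algebra of an ideal is an ideal. -/
theorem ARed.derS_ideal {I L : Submodule K (Module.End K V)} (hI : IdealOf I L) :
    IdealOf (derS I) L := by
  have hlie : LieCl I := fun x hx y hy => hI.2 x (hI.1 hx) y hy
  refine ⟨(ARed.derS_le' I hlie).trans hI.1, fun x hx z hz => ?_⟩
  unfold derS at hz
  induction hz using Submodule.span_induction with
  | mem z hz =>
    obtain ⟨a, ha, b, hb, rfl⟩ := hz
    have h1 : x * (a * b - b * a) - (a * b - b * a) * x =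
        ((x * a - a * x) * b - b * (x * a - a * x)) +
        (a * (x * b - b * x) - (x * b - b * x) * a) := by
      noncomm_ring
    rw [h1]
    exact add_mem (ARed.mem_derS (hI.2 x hx a ha) hb) (ARed.mem_derS ha (hI.2 x hx b hb))
  | zero =>
    rw [mul_zero, zero_mul, sub_zero]
    exact zero_mem _
  | add a b _ _ ha hb =>
    have h1 : x * (a + b) - (a + b) * x = (x * a - a * x) + (x * b - b * x) := by
      noncomm_ring
    rw [h1]
    exact add_mem ha hb
  | smul c a _ ha =>
    have h1 : x * (c • a) - (c • a) * x = c • (x * a - a * x) := by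
      rw [mul_smul_comm, smul_mul_assoc, smul_sub]
    rw [h1]
    exact Submodule.smul_mem _ c ha

attribute [local instance 100] LieRing.ofAssociativeRing

/-- Cartan's criterion. -/
theorem ARed.cartan [CharZero K] [FiniteDimensional K V] {I : Submodule K (Module.End K V)}
    (hI : LieCl I) (hform : ∀ x ∈ I, ∀ y ∈ I, LinearMap.trace K V (x * y) = 0)
    {x : Module.End K V} (hx : x ∈ derS I) : IsNilpotent x := by
  let I' : LieSubalgebra K (Module.End K V) :=
    { I with lie_mem' := fun {x y} hx hy => hI x hx y hy }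
  have htf : LieModule.traceForm K I' V = 0 := by
    ext ⟨a, ha⟩ ⟨b, hb⟩
    exact hform a ha b hb
  have hnil : LieModule.IsNilpotent (LieAlgebra.derivedSeries K I' 1) V :=
    LieModule.isNilpotent_derivedSeries_of_traceForm_eq_zero htf
  have hmem : ∃ h : x ∈ I', (⟨x, h⟩ : I') ∈ LieAlgebra.derivedSeries K I' 1 := by
    unfold derS at hx
    induction hx using Submodule.span_induction with
    | mem z hz =>
      obtain ⟨a, ha, b, hb, rfl⟩ := hz
      refine ⟨hI a ha b hb, ?_⟩
      have h1 : (⁅(⟨a, ha⟩ : I'), (⟨b, hb⟩ : I')⁆ : I') ∈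
          (⁅(⊤ : LieIdeal K I'), (⊤ : LieIdeal K I')⁆ : LieIdeal K I') :=
        LieSubmodule.lie_mem_lie (LieSubmodule.mem_top _) (LieSubmodule.mem_top _)
      exact h1
    | zero => exact ⟨I'.zero_mem, (LieAlgebra.derivedSeries K I' 1).zero_mem⟩
    | add a b _ _ ha hb =>
      obtain ⟨ha1, ha2⟩ := ha
      obtain ⟨hb1, hb2⟩ := hb
      exact ⟨I'.add_mem ha1 hb1, (LieAlgebra.derivedSeries K I' 1).add_mem ha2 hb2⟩
    | smul c a _ ha =>
      obtain ⟨ha1, ha2⟩ := ha
      exact ⟨I'.smul_mem c ha1, (LieAlgebra.derivedSeries K I' 1).smul_mem c ha2⟩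
  obtain ⟨h1, h2⟩ := hmem
  have h3 := (LieModule.isNilpotent_iff_forall' (R := K)).1 hnil ⟨⟨x, h1⟩, h2⟩
  have h4 : LieModule.toEnd K (LieAlgebra.derivedSeries K I' 1) V ⟨⟨x, h1⟩, h2⟩ = x := by
    ext v
    rfl
  rwa [h4] at h3

/-- `derS L` meets the centre of `L` in `0`.

Proof. `I := derS L ⊓ cenS L` is an ideal of `L` (`x * z - z * x = 0 ∈ I`); `z ∈ I` is a finite sum
`∑ (x_i y_i - y_i x_i)` with `x_i, y_i ∈ L` which commutes with all the `y_i`, so it is nilpotent
(`isNilpotent_of_comm`). Use `nil_ideal`. -/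
theorem red_cen [CharZero K] [FiniteDimensional K V] (S : Sys D V)
    (L : Submodule K (Module.End K V)) (hL : LieCl L) (hs : Stab S L) (z : Module.End K V)
    (hz : z ∈ derS L) (hz' : z ∈ cenS L) : z = 0 := by
  have hI : IdealOf (derS L ⊓ cenS L) L := by
    refine ⟨fun x hx => hx.2.1, fun x hx y hy => ?_⟩
    rw [hy.2.2 x hx, sub_self]
    exact zero_mem _
  have hnil : ∀ x ∈ derS L ⊓ cenS L, IsNilpotent x := by
    intro b hb
    obtain ⟨n, x, y, hy, h1⟩ := ARed.rep hb.1
    exact isNilpotent_of_comm (Finset.range n) x y b h1 fun i _ => (hb.2.2 (y i) (hy i)).symm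
  have hbot := nil_ideal S L _ hL hs hI hnil
  have h1 : z ∈ derS L ⊓ cenS L := ⟨hz, hz'⟩
  rw [hbot] at h1
  exact (Submodule.mem_bot K).1 h1

/-- An element of `derS L` which is orthogonal to `L` is zero.

Proof. `I := {x ∈ derS L | ∀ y ∈ L, trace (x * y) = 0}` is an ideal of `L` (`trace_comm_mul`; `derS L ≤ L`).
The trace form of the Lie algebra `I` on `V` is zero. By Cartan's criterion
(`LieModule.isNilpotent_derivedSeries_of_traceForm_eq_zero`, for the Lie algebra `I` (a `LieSubalgebra` of
`Module.End K V`, `attribute [local instance 100] LieRing.ofAssociativeRing`), see also `Casimir_solvable` in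
the file `Casimir`) the elements of `derS I` (the first derived algebra of `I`) are nilpotent. `derS I` is an
ideal of `L` (Jacobi), so `derS I = ⊥` (`nil_ideal`), `I` is abelian; by `ab_ideal` the elements of `I` are in
`cenS L`, so `0` by `red_cen`. -/
theorem red_perp [CharZero K] [FiniteDimensional K V] (S : Sys D V)
    (L : Submodule K (Module.End K V)) (hL : LieCl L) (hs : Stab S L) (x : Module.End K V)
    (hx : x ∈ derS L) (h : ∀ y ∈ L, LinearMap.trace K V (x * y) = 0) : x = 0 := by
  let I : Submodule K (Module.End K V) :=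
    { carrier := {x | x ∈ derS L ∧ ∀ y ∈ L, LinearMap.trace K V (x * y) = 0}
      add_mem' := by
        intro a b ha hb
        refine ⟨add_mem ha.1 hb.1, fun c hc => ?_⟩
        rw [add_mul, map_add, ha.2 c hc, hb.2 c hc, add_zero]
      zero_mem' := by
        refine ⟨zero_mem _, fun c _ => ?_⟩
        rw [zero_mul, map_zero]
      smul_mem' := by
        intro t a ha
        refine ⟨Submodule.smul_mem _ t ha.1, fun c hc => ?_⟩
        rw [smul_mul_assoc, map_smul, ha.2 c hc, smul_zero] }
  have hIm : ∀ x, x ∈ I ↔ x ∈ derS L ∧ ∀ y ∈ L, LinearMap.trace K V (x * y) = 0 :=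
    fun x => Iff.rfl
  have hle : derS L ≤ L := ARed.derS_le' L hL
  have hI : IdealOf I L := by
    refine ⟨fun x hx => hle ((hIm x).1 hx).1, fun a ha y hy => ?_⟩
    rw [hIm] at hy ⊢
    refine ⟨ARed.mem_derS ha (hle hy.1), fun b hb => ?_⟩
    have h1 : a * y - y * a = -(y * a - a * y) := by abel
    rw [h1, neg_mul, map_neg, trace_comm_mul, hy.2 _ (hL a ha b hb), neg_zero]
  have hlie : LieCl I := fun x hx y hy => hI.2 x (hI.1 hx) y hy
  have hder : derS I = ⊥ := by
    refine nil_ideal S L (derS I) hL hs (ARed.derS_ideal hI) fun x hx => ?_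
    exact ARed.cartan hlie (fun a ha b hb => ((hIm a).1 ha).2 b (hI.1 hb)) hx
  have hab : ∀ x ∈ I, ∀ y ∈ I, x * y = y * x := by
    intro a ha b hb
    have h1 : a * b - b * a ∈ derS I := ARed.mem_derS ha hb
    rw [hder] at h1
    exact sub_eq_zero.1 ((Submodule.mem_bot K).1 h1)
  have hcen := ab_ideal S L I hL hs hI hab
  have hxI : x ∈ I := (hIm x).2 ⟨hx, h⟩
  exact red_cen S L hL hs x hx ⟨hle hx, fun y hy => hcen y hy x hxI⟩

/-- The trace form is nondegenerate on `derS L`.

Proof. For `a, b ∈ L`: `trace ((x a - a x) b) = trace (x (a b - b a)) = 0` (`trace_comm_mul`,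
`a b - b a ∈ derS L`), and `x a - a x ∈ derS L`, so `x a - a x = 0` by `red_perp`; so `x ∈ cenS L` and
`x = 0` by `red_cen`. -/
theorem red_nondeg [CharZero K] [FiniteDimensional K V] (S : Sys D V)
    (L : Submodule K (Module.End K V)) (hL : LieCl L) (hs : Stab S L) (x : Module.End K V)
    (hx : x ∈ derS L) (h : ∀ y ∈ derS L, LinearMap.trace K V (x * y) = 0) : x = 0 := by
  have hle : derS L ≤ L := ARed.derS_le' L hL
  refine red_cen S L hL hs x hx ⟨hle hx, fun a ha => ?_⟩
  have h1 : x * a - a * x = 0 := by
    refine red_perp S L hL hs _ (ARed.mem_derS (hle hx) ha) fun b hb => ?_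
    rw [trace_comm_mul]
    exact h _ (ARed.mem_derS ha hb)
  exact (sub_eq_zero.1 h1).symm

/-- `L = derS L + cenS L`.

Proof. Let `x ∈ L`. The form `(s, t) ↦ trace (s * t)` on the finite-dimensional space `derS L` is
nondegenerate (`red_nondeg`), so there is `s ∈ derS L` with `trace (s * t) = trace (x * t)` for all
`t ∈ derS L` (`LinearMap.BilinForm.dualBasis`, or: an injective linear map `derS L → Dual` is surjective by
dimension). Put `z := x - s`. For `a, b ∈ L`: `trace ((z a - a z) b) = trace (z (a b - b a)) = 0`, and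
`z a - a z ∈ derS L`, so it is `0` by `red_perp`. -/
theorem red_sup [CharZero K] [FiniteDimensional K V] (S : Sys D V)
    (L : Submodule K (Module.End K V)) (hL : LieCl L) (hs : Stab S L) (x : Module.End K V)
    (hx : x ∈ L) : ∃ s ∈ derS L, ∃ z ∈ cenS L, x = s + z := by
  have hle : derS L ≤ L := ARed.derS_le' L hL
  let φ : derS L →ₗ[K] Module.Dual K (derS L) :=
    { toFun := fun s =>
        { toFun := fun t => LinearMap.trace K V ((s : Module.End K V) * (t : Module.End K V))
          map_add' := fun t t' => by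
            rw [Submodule.coe_add, mul_add, map_add]
          map_smul' := fun c t => by
            rw [Submodule.coe_smul, mul_smul_comm, map_smul, RingHom.id_apply] }
      map_add' := fun s s' => by
        ext t
        show LinearMap.trace K V (((s : Module.End K V) + (s' : Module.End K V)) *
          (t : Module.End K V)) = _
        rw [add_mul, map_add]
        rfl
      map_smul' := fun c s => by
        ext t
        show LinearMap.trace K V ((c • (s : Module.End K V)) * (t : Module.End K V)) = _
        rw [smul_mul_assoc, map_smul]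
        rfl }
  have hφ : ∀ s t, φ s t = LinearMap.trace K V ((s : Module.End K V) * (t : Module.End K V)) :=
    fun s t => rfl
  have hinj : Function.Injective φ := by
    rw [injective_iff_map_eq_zero]
    intro s hs0
    refine Subtype.ext (red_nondeg S L hL hs s s.2 fun y hy => ?_)
    have := LinearMap.congr_fun hs0 ⟨y, hy⟩
    rwa [hφ] at this
  have hsurj : Function.Surjective φ :=
    (LinearMap.injective_iff_surjective_of_finrank_eq_finrank
      (Subspace.dual_finrank_eq (K := K) (V := derS L)).symm).1 hinj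
  let ψ : Module.Dual K (derS L) :=
    { toFun := fun t => LinearMap.trace K V (x * (t : Module.End K V))
      map_add' := fun t t' => by
        rw [Submodule.coe_add, mul_add, map_add]
      map_smul' := fun c t => by
        rw [Submodule.coe_smul, mul_smul_comm, map_smul, RingHom.id_apply] }
  obtain ⟨s, hs1⟩ := hsurj ψ
  have hst : ∀ t ∈ derS L, LinearMap.trace K V ((s : Module.End K V) * t) =
      LinearMap.trace K V (x * t) := fun t ht => LinearMap.congr_fun hs1 ⟨t, ht⟩
  have hz : x - (s : Module.End K V) ∈ L := sub_mem hx (hle s.2)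
  refine ⟨s, s.2, x - s, ⟨hz, fun a ha => ?_⟩, by abel⟩
  have h1 : (x - (s : Module.End K V)) * a - a * (x - (s : Module.End K V)) = 0 := by
    refine red_perp S L hL hs _ (ARed.mem_derS hz ha) fun b hb => ?_
    rw [trace_comm_mul, sub_mul, map_sub, hst _ (ARed.mem_derS ha hb), sub_self]
  exact (sub_eq_zero.1 h1).symm

/-- `derS L` is perfect. Proof: for `x = s + z`, `y = t + u` as in `red_sup`,
`x y - y x = s t - t s`. -/
theorem red_perfect [CharZero K] [FiniteDimensional K V] (S : Sys D V)
    (L : Submodule K (Module.End K V)) (hL : LieCl L) (hs : Stab S L) :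
    derS (derS L) = derS L := by
  have hle : derS L ≤ L := ARed.derS_le' L hL
  refine le_antisymm (ARed.derS_le' _ fun x hx y hy => ARed.mem_derS (hle hx) (hle hy)) ?_
  refine Submodule.span_le.2 ?_
  rintro w ⟨x, hx, y, hy, rfl⟩
  obtain ⟨s, hs1, z, hz, rfl⟩ := red_sup S L hL hs x hx
  obtain ⟨t, ht, u, hu, rfl⟩ := red_sup S L hL hs y hy
  have h1 : (s + z) * (t + u) - (t + u) * (s + z) = s * t - t * s := by
    have h2 : s * u = u * s := hu.2 s (hle hs1)
    have h3 : t * z = z * t := hz.2 t (hle ht)
    have h4 : u * z = z * u := hz.2 u hu.1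
    rw [add_mul, mul_add, mul_add, add_mul, mul_add, mul_add, h2, h3, h4]
    abel
  rw [h1]
  exact ARed.mem_derS hs1 ht

/-- `derS L` has no nonzero abelian ideal. Proof: `I` is an ideal of `L` by `red_sup` (elements of `cenS L`
commute with `I ≤ derS L ≤ L`), so by `ab_ideal` `I ≤ cenS L`, and `red_cen` applies. -/
theorem red_abelian [CharZero K] [FiniteDimensional K V] (S : Sys D V)
    (L : Submodule K (Module.End K V)) (hL : LieCl L) (hs : Stab S L)
    (I : Submodule K (Module.End K V)) (hI : IdealOf I (derS L))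
    (hab : ∀ x ∈ I, ∀ y ∈ I, x * y = y * x) : I = ⊥ := by
  have hle : derS L ≤ L := ARed.derS_le' L hL
  have hI' : IdealOf I L := by
    refine ⟨hI.1.trans hle, fun x hx y hy => ?_⟩
    obtain ⟨s, hs1, z, hz, rfl⟩ := red_sup S L hL hs x hx
    have h1 : (s + z) * y - y * (s + z) = s * y - y * s := by
      have h2 : y * z = z * y := hz.2 y (hle (hI.1 hy))
      rw [add_mul, mul_add, h2]
      abel
    rw [h1]
    exact hI.2 s hs1 y hy
  have hcen := ab_ideal S L I hL hs hI' hab
  rw [eq_bot_iff]
  intro x hx
  rw [Submodule.mem_bot]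
  exact red_cen S L hL hs x (hI.1 hx) ⟨hle (hI.1 hx), fun y hy => hcen y hy x hx⟩

theorem derS_le (L : Submodule K (Module.End K V)) (hL : LieCl L) : derS L ≤ L := by
  refine Submodule.span_le.2 ?_
  rintro z ⟨x, hx, y, hy, rfl⟩
  exact hL x hx y hy

theorem derS_lie (L : Submodule K (Module.End K V)) (hL : LieCl L) : LieCl (derS L) := by
  intro x hx y hy
  exact Submodule.subset_span ⟨x, derS_le L hL hx, y, derS_le L hL hy, rfl⟩

/-- Proof: `Submodule.span_induction`; `S.cj`, `S.cj.symm` are semilinear ring homomorphisms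
(`Sys.cj_smul`, `Sys.cj_symm_smul`). -/
theorem derS_stab (S : Sys D V) (L : Submodule K (Module.End K V)) (hs : Stab S L) :
    Stab S (derS L) := by
  constructor
  · intro x hx
    unfold derS at hx
    induction hx using Submodule.span_induction with
    | mem z hz =>
      obtain ⟨a, ha, b, hb, rfl⟩ := hz
      rw [map_sub, map_mul, map_mul]
      exact ARed.mem_derS (hs.1 a ha) (hs.1 b hb)
    | zero =>
      rw [map_zero]
      exact zero_mem _
    | add a b _ _ ha hb =>
      rw [map_add]
      exact add_mem ha hb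
    | smul c a _ ha =>
      rw [Sys.cj_smul]
      exact Submodule.smul_mem _ _ ha
  · intro x hx
    unfold derS at hx
    induction hx using Submodule.span_induction with
    | mem z hz =>
      obtain ⟨a, ha, b, hb, rfl⟩ := hz
      rw [map_sub, map_mul, map_mul]
      exact ARed.mem_derS (hs.2 a ha) (hs.2 b hb)
    | zero =>
      rw [map_zero]
      exact zero_mem _
    | add a b _ _ ha hb =>
      rw [map_add]
      exact add_mem ha hb
    | smul c a _ ha =>
      rw [Sys.cj_symm_smul]
      exact Submodule.smul_mem _ _ ha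

theorem cenS_stab (S : Sys D V) (L : Submodule K (Module.End K V)) (hs : Stab S L) :
    Stab S (cenS L) := by
  constructor
  · rintro z ⟨hz, hz'⟩
    refine ⟨hs.1 z hz, fun x hx => ?_⟩
    have h1 : x = S.cj (S.cj.symm x) := (RingEquiv.apply_symm_apply _ _).symm
    rw [h1, ← map_mul, ← map_mul, hz' _ (hs.2 x hx)]
  · rintro z ⟨hz, hz'⟩
    refine ⟨hs.2 z hz, fun x hx => ?_⟩
    have h1 : x = S.cj.symm (S.cj x) := (RingEquiv.symm_apply_apply _ _).symm
    rw [h1, ← map_mul, ← map_mul, hz' _ (hs.1 x hx)]

/-- Proof: `Submodule.span_induction` with `Sys.bp_comm`, `Sys.bp_smul`, `Sys.bp_add` (and `bm`). -/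
theorem derS_stabN (S : Sys D V) (L : Submodule K (Module.End K V)) (hs : StabN S L) :
    StabN S (derS L) := by
  constructor
  · intro j x hx
    unfold derS at hx
    have h0 : S.bp j (0 : Module.End K V) = 0 := brL_zero _
    induction hx using Submodule.span_induction with
    | mem z hz =>
      obtain ⟨a, ha, b, hb, rfl⟩ := hz
      rw [Sys.bp_comm]
      exact add_mem (ARed.mem_derS (hs.1 j a ha) hb) (ARed.mem_derS ha (hs.1 j b hb))
    | zero =>
      rw [h0]
      exact zero_mem _
    | add a b _ _ ha hb =>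
      rw [Sys.bp_add]
      exact add_mem ha hb
    | smul c a ha' ha =>
      rw [Sys.bp_smul]
      exact add_mem (Submodule.smul_mem _ _ ha') (Submodule.smul_mem _ _ ha)
  · intro j x hx
    unfold derS at hx
    have h0 : S.bm j (0 : Module.End K V) = 0 := brL_zero _
    induction hx using Submodule.span_induction with
    | mem z hz =>
      obtain ⟨a, ha, b, hb, rfl⟩ := hz
      rw [Sys.bm_comm]
      exact add_mem (ARed.mem_derS (hs.2 j a ha) hb) (ARed.mem_derS ha (hs.2 j b hb))
    | zero =>
      rw [h0]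
      exact zero_mem _
    | add a b _ _ ha hb =>
      rw [Sys.bm_add]
      exact add_mem ha hb
    | smul c a ha' ha =>
      rw [Sys.bm_smul]
      exact add_mem (Submodule.smul_mem _ _ ha') (Submodule.smul_mem _ _ ha)

/-- Proof: for `z ∈ cenS L`, `x ∈ L`: `0 = S.bp j (x * z - z * x) = (S.bp j x * z - z * S.bp j x) +
(x * S.bp j z - S.bp j z * x)` (`Sys.bp_comm`) and the first bracket is `0` as `S.bp j x ∈ L`. -/
theorem cenS_stabN (S : Sys D V) (L : Submodule K (Module.End K V)) (hs : StabN S L) :
    StabN S (cenS L) := by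
  constructor
  · rintro j z ⟨hz, hz'⟩
    refine ⟨hs.1 j z hz, fun x hx => ?_⟩
    have h1 := Sys.bp_comm S j x z
    have h0 : S.bp j (0 : Module.End K V) = 0 := brL_zero _
    rw [hz' x hx, sub_self, h0, hz' _ (hs.1 j x hx), sub_self, zero_add] at h1
    exact sub_eq_zero.1 h1.symm
  · rintro j z ⟨hz, hz'⟩
    refine ⟨hs.2 j z hz, fun x hx => ?_⟩
    have h1 := Sys.bm_comm S j x z
    have h0 : S.bm j (0 : Module.End K V) = 0 := brL_zero _
    rw [hz' x hx, sub_self, h0, hz' _ (hs.2 j x hx), sub_self, zero_add] at h1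
    exact sub_eq_zero.1 h1.symm

end Pool.Agent.Wb5ab1bf
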