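import Pool.Agent.W_b5ab1bf_h80.AY

/-!
# The total derivatives of the component in the commutant (helper80)
-/

set_option autoImplicit false

noncomputable section

namespace Pool.Agent.Wb5ab1bf

variable {k : ℕ} {K : Type} [Field K] {D : DField k K} {V : Type} [AddCommGroup V] [Module K V]

theorem ATD.cj_zpow (S : Sys D V) (n : ℤ) (x : Module.End K V) (v : V) :
    (S.cj ^ n) x v = itr S.σ n (x (itr S.σ (-n) v)) := by
  induction n using Int.induction_on generalizing v with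
  | zero => rw [neg_zero, itr_zero, itr_zero, zpow_zero]; rfl
  | succ n ih =>
    have h1 : (S.cj ^ ((n : ℤ) + 1)) x = S.cj ((S.cj ^ (n : ℤ)) x) := by
      rw [add_comm, zpow_one_add]
      rfl
    have h2 : itr S.σ (-((n : ℤ) + 1)) v = itr S.σ (-(n : ℤ)) (S.σ.symm v) := by
      rw [neg_add, itr_add, itr_neg_one]
    rw [h1, Sys.cj_apply, ih, itr_succ, h2]
  | pred n ih =>
    have h1 : (S.cj ^ (-(n : ℤ) - 1)) x = S.cj.symm ((S.cj ^ (-(n : ℤ))) x) := by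
      rw [sub_eq_add_neg, add_comm, zpow_add, zpow_neg_one]
      rfl
    have h2 : itr S.σ (-(-(n : ℤ) - 1)) v = itr S.σ (- -(n : ℤ)) (S.σ v) := by
      have h3 : -(-(n : ℤ) - 1) = - -(n : ℤ) + 1 := by ring
      rw [h3, itr_succ']
    rw [h1, Sys.cj_symm_apply, ih, itr_pred, h2]

theorem ATD.stab_zpow (S : Sys D V) (W : Submodule K (Module.End K V)) (hW : Stab S W) (n : ℤ)
    (x : Module.End K V) (hx : x ∈ W) : (S.cj ^ n) x ∈ W := by
  induction n using Int.induction_on with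
  | zero => rw [zpow_zero]; exact hx
  | succ n ih =>
    have h1 : (S.cj ^ ((n : ℤ) + 1)) x = S.cj ((S.cj ^ (n : ℤ)) x) := by
      rw [add_comm, zpow_one_add]
      rfl
    rw [h1]
    exact hW.1 _ ih
  | pred n ih =>
    have h1 : (S.cj ^ (-(n : ℤ) - 1)) x = S.cj.symm ((S.cj ^ (-(n : ℤ))) x) := by
      rw [sub_eq_add_neg, add_comm, zpow_add, zpow_neg_one]
      rfl
    rw [h1]
    exact hW.2 _ ih

theorem ATD.itr_m (S : Sys D V) (n : ℤ) (j : ℤ × Fin k) (v : V) :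
    itr S.σ n (S.m j v) = S.m (sft n j) (itr S.σ n v) := by
  induction n using Int.induction_on with
  | zero => rw [itr_zero, itr_zero, sft_zero]
  | succ n ih => rw [itr_succ, ih, S.σm, sft_sft, itr_succ]
  | pred n ih =>
    rw [itr_pred, ih, itr_pred, S.σm' (sft (-(n : ℤ) - 1) j), sft_sft]
    have h1 : -(n : ℤ) - 1 + 1 = -(n : ℤ) := by ring
    rw [h1]

theorem ATD.itr_p (S : Sys D V) (n : ℤ) (j : ℤ × Fin k) (v : V) :
    itr S.σ n (S.p j v) = S.p (sft n j) (itr S.σ n v) := by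
  induction n using Int.induction_on with
  | zero => rw [itr_zero, itr_zero, sft_zero]
  | succ n ih => rw [itr_succ, ih, S.σp, sft_sft, itr_succ]
  | pred n ih =>
    rw [itr_pred, ih, itr_pred, S.σp' (sft (-(n : ℤ) - 1) j), sft_sft]
    have h1 : -(n : ℤ) - 1 + 1 = -(n : ℤ) := by ring
    rw [h1]

theorem ATD.tele {A : Type} [AddCommGroup A] (g : ℤ → A) (a : ℤ) (m : ℕ) :
    ∑ i ∈ Finset.Ico a (a + m), (g (i + 1) - g i) = g (a + m) - g a := by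
  induction m with
  | zero => simp
  | succ m ih =>
    have h1 : Finset.Ico a (a + ((m + 1 : ℕ) : ℤ)) = insert (a + m) (Finset.Ico a (a + m)) := by
      ext i
      simp only [Finset.mem_Ico, Finset.mem_insert]
      push_cast
      omega
    have h2 : a + ((m + 1 : ℕ) : ℤ) = a + m + 1 := by push_cast; ring
    rw [h1, Finset.sum_insert (by simp), ih, h2]
    abel

/-- the connection `X - B` -/
def ATD.N (S : Sys D V) (B : Module.End K V) : V →+ V where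
  toFun v := S.X v - B v
  map_zero' := by rw [map_zero, map_zero, sub_zero]
  map_add' v w := by
    rw [map_add, map_add]
    abel

/-- its conjugates -/
def ATD.T (S : Sys D V) (B : Module.End K V) (n : ℤ) (v : V) : V :=
  itr S.σ n (ATD.N S B (itr S.σ (-n) v))

theorem ATD.N_apply (S : Sys D V) (B : Module.End K V) (v : V) :
    ATD.N S B v = S.X v - B v := rfl

theorem ATD.T_add (S : Sys D V) (B : Module.End K V) (n : ℤ) (v w : V) :
    ATD.T S B n (v + w) = ATD.T S B n v + ATD.T S B n w := by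
  unfold ATD.T
  rw [map_add, map_add, map_add]

theorem ATD.itr_T (S : Sys D V) (B : Module.End K V) (i m : ℤ) (v : V) :
    itr S.σ i (ATD.T S B m (itr S.σ (-i) v)) = ATD.T S B (i + m) v := by
  unfold ATD.T
  rw [← itr_add, ← itr_add]
  have h1 : -m + -i = -(i + m) := by ring
  rw [h1]

theorem ATD.Y_apply (S : Sys D V) (B : Module.End K V) (v : V) :
    (S.E1 + B - S.cj B) v = ATD.T S B 1 v - ATD.T S B 0 v := by
  have h1 : ATD.T S B 1 v = S.σ (S.X (S.σ.symm v)) - S.σ (B (S.σ.symm v)) := by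
    unfold ATD.T
    rw [itr_one, itr_neg_one, ATD.N_apply, map_sub]
  have h2 : ATD.T S B 0 v = S.X v - B v := by
    unfold ATD.T
    rw [neg_zero, itr_zero, itr_zero, ATD.N_apply]
  rw [h1, h2, LinearMap.sub_apply, LinearMap.add_apply, Sys.E1_apply, Sys.cj_apply]
  abel

theorem ATD.sum_apply (S : Sys D V) (B : Module.End K V) (n : ℕ) (v : V) :
    (∑ i ∈ Finset.Ico (-(n : ℤ)) n, (S.cj ^ i) (S.E1 + B - S.cj B)) v =
      ATD.T S B n v - ATD.T S B (-n) v := by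
  have h1 : ∀ i : ℤ, ((S.cj ^ i) (S.E1 + B - S.cj B)) v =
      ATD.T S B (i + 1) v - ATD.T S B i v := by
    intro i
    rw [ATD.cj_zpow, ATD.Y_apply, map_sub, ATD.itr_T, ATD.itr_T, add_zero]
  rw [LinearMap.sum_apply, Finset.sum_congr rfl fun i _ => h1 i]
  have h2 := ATD.tele (fun i => ATD.T S B i v) (-(n : ℤ)) (2 * n)
  have h3 : (-(n : ℤ)) + ((2 * n : ℕ) : ℤ) = n := by push_cast; ring
  rw [h3] at h2
  exact h2

theorem ATD.cj_zpow_Dj (S : Sys D V) (n : ℤ) (j : ℤ × Fin k) :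
    (S.cj ^ n) (S.Dj j) = S.Dj (sft n j) := by
  refine LinearMap.ext fun v => ?_
  rw [ATD.cj_zpow, Sys.Dj_apply, Sys.Dj_apply, map_sub, ATD.itr_m, ATD.itr_p, itr_itr_neg]

/-- the main identity -/
theorem ATD.main (S : Sys D V) (B : Module.End K V) (c : ℤ)
    (hm : ∀ j : ℤ × Fin k, c ≤ j.1 → ∀ v, S.m j (ATD.N S B v) = ATD.N S B (S.m j v))
    (hp : ∀ j : ℤ × Fin k, j.1 ≤ -c → ∀ v, S.p j (ATD.N S B v) = ATD.N S B (S.p j v))
    (j : ℤ × Fin k) (n : ℕ) (h1 : c ≤ j.1 + n) (h2 : j.1 - n ≤ -c) :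
    S.bm j (∑ i ∈ Finset.Ico (-(n : ℤ)) n, (S.cj ^ i) (S.E1 + B - S.cj B)) =
      -((S.cj ^ (n : ℤ)) (S.bX (S.Dj (sft (-n) j)) -
        (B * S.Dj (sft (-n) j) - S.Dj (sft (-n) j) * B))) := by
  refine LinearMap.ext fun v => ?_
  have e1 : S.m j (ATD.T S B (-n) v) = ATD.T S B (-n) (S.m j v) := by
    unfold ATD.T
    rw [neg_neg, ATD.itr_m, ← hm (sft n j) (by rw [sft_fst]; omega), ATD.itr_m, sft_neg_sft]
  have e2 : S.p j (ATD.T S B n v) = ATD.T S B n (S.p j v) := by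
    unfold ATD.T
    rw [ATD.itr_p, ← hp (sft (-n) j) (by rw [sft_fst]; omega), ATD.itr_p, sft_sft_neg]
  have e3 : ∀ w, S.m j w = S.p j w + S.Dj j w := fun w => by
    rw [Sys.Dj_apply]
    abel
  have e4 : ∀ w, S.Dj j w = itr S.σ n (S.Dj (sft (-n) j) (itr S.σ (-n) w)) := fun w => by
    rw [← ATD.cj_zpow, ATD.cj_zpow_Dj, sft_sft_neg]
  have e5 : S.Dj j (ATD.T S B n v) =
      itr S.σ n (S.Dj (sft (-n) j) (ATD.N S B (itr S.σ (-n) v))) := by
    rw [e4]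
    unfold ATD.T
    rw [itr_neg_itr]
  have e6 : ATD.T S B n (S.Dj j v) =
      itr S.σ n (ATD.N S B (S.Dj (sft (-n) j) (itr S.σ (-n) v))) := by
    rw [e4]
    unfold ATD.T
    rw [itr_neg_itr]
  rw [Sys.bm_apply, ATD.sum_apply, ATD.sum_apply, map_sub, e1, e3 (ATD.T S B n v), e2, e3 v,
    ATD.T_add, ATD.T_add, e5, e6, LinearMap.neg_apply, ATD.cj_zpow, LinearMap.sub_apply,
    LinearMap.sub_apply, Module.End.mul_apply, Module.End.mul_apply, Sys.bX_apply,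
    ATD.N_apply, ATD.N_apply]
  simp only [map_sub]
  abel

/-- The total derivatives of `C₁` are in `zenS S.Lam`.

Proof. Let `F x := S.bX x - (B x - x B)`, the bracket with the additive map `N' := S.X - B`
(`N' v = S.X v - B v`), `N'ₙ := σⁿ N' σ⁻ⁿ` (`cjA (itr S.σ n) N'`), `Y := S.E1 + B - S.cj B = s₀ + C₁`. As an
additive map `Y = N'₁ - N'₀` (`Sys.E1_apply`), so `(S.cj ^ i) Y = N'ᵢ₊₁ - N'ᵢ` and
`∑_{i ∈ [-n, n)} (S.cj ^ i) Y = N'ₙ - N'₋ₙ` (telescoping, induction on `n`). By `bm_fin`, `bp_fin` for `B` and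
`S.Xm`, `S.Xp` there is `c` with: `S.m j` commutes with `N'` for `j.1 ≥ c`, `S.p j` commutes with `N'` for
`j.1 ≤ -c`. Conjugating by `σⁿ` (`S.σm`, `S.σp`): `S.m j` commutes with `N'₋ₙ` if `j.1 + n ≥ c` and `S.p j`
commutes with `N'ₙ` if `j.1 - n ≤ -c`. So for `n` large, with `Σ := ∑ (S.cj ^ i) Y`, as additive maps
`[S.m j, Σ] = [S.m j, N'ₙ] = [S.p j + S.Dj j, N'ₙ] = [S.Dj j, N'ₙ] = -[N'ₙ, S.Dj j]`, that is
`S.bm j Σ = -(S.cj ^ n) (F ((S.cj ^ (-n)) (S.Dj j)))`. Now `S.Dj j = s + z` with `s ∈ derS Lam`,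
`z ∈ cenS Lam ≤ zenS Lam` (`red_sup`), `F` preserves both spaces and so does `S.cj ^ (±n)`; so
`S.bm j Σ ∈ G + Z`, `G := derS Lam`, `Z := zenS Lam`. Moreover `Σ = ∑ (S.cj ^ i) s₀ + ∑ (S.cj ^ i) C₁` with
the first sum in `G`, so `S.bm j (∑ (S.cj ^ i) C₁) ∈ G + Z` (`derS_stabN`), and it is in the commutant of
`Lam` (`comS_stab`, `comS_stabN`): if `g + z'` is in the commutant, `g ∈ G`, `z' ∈ Z`, then `g` is in the
commutant (`zenS_le_comS`), so `g ∈ cenS Lam ⊓ derS Lam`, `g = 0` (`red_cen`). Finally `S.bp j = S.bm j` on the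
commutant (`comS_bp_eq_bm`). (Use `Lam_stab`, `Lam_stabN`, `Lam_lie`.) -/
theorem total_der [CharZero K] [FiniteDimensional K V] (S : Sys D V)
    (B s₀ C₁ : Module.End K V)
    (h1 : ∀ s ∈ derS S.Lam, S.bX s - (B * s - s * B) ∈ derS S.Lam)
    (h2 : ∀ z ∈ zenS S.Lam, S.bX z - (B * z - z * B) ∈ zenS S.Lam)
    (h3 : s₀ ∈ derS S.Lam) (h4 : C₁ ∈ comS S.Lam) (h5 : S.E1 = s₀ + C₁ - B + S.cj B)
    (j : ℤ × Fin k) :
    ∃ n₀ : ℕ, ∀ n : ℕ, n₀ ≤ n →
      S.bp j (∑ i ∈ Finset.Ico (-(n : ℤ)) n, (S.cj ^ i) C₁) ∈ zenS S.Lam := by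
  have hstab := Lam_stab S
  have hlie := Lam_lie S
  have hstabN := Lam_stabN S
  obtain ⟨nm, hnm⟩ := bm_fin S B
  obtain ⟨np, hnp⟩ := bp_fin S B
  obtain ⟨c, hc⟩ : ∃ c : ℤ, S.c₀ ≤ c ∧ nm ≤ c ∧ -np ≤ c :=
    ⟨max S.c₀ (max nm (-np)), le_max_left _ _, (le_max_left _ _).trans (le_max_right _ _),
      (le_max_right _ _).trans (le_max_right _ _)⟩
  obtain ⟨hc1, hc2, hc3⟩ := hc
  have hm : ∀ j : ℤ × Fin k, c ≤ j.1 → ∀ v, S.m j (ATD.N S B v) = ATD.N S B (S.m j v) := by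
    intro j hj v
    have h6 := congrArg (fun x : Module.End K V => x v) (hnm j (hc2.trans hj))
    have h7 : S.m j (B v) - B (S.m j v) = 0 := h6
    rw [ATD.N_apply, ATD.N_apply, map_sub, S.Xm j v (hc1.trans hj), sub_eq_zero.1 h7]
  have hp : ∀ j : ℤ × Fin k, j.1 ≤ -c → ∀ v, S.p j (ATD.N S B v) = ATD.N S B (S.p j v) := by
    intro j hj v
    have h6 := congrArg (fun x : Module.End K V => x v) (hnp j (by omega))
    have h7 : S.p j (B v) - B (S.p j v) = 0 := h6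
    rw [ATD.N_apply, ATD.N_apply, map_sub, S.Xp j v (by omega), sub_eq_zero.1 h7]
  have hY : S.E1 + B - S.cj B = s₀ + C₁ := by
    rw [h5]
    abel
  refine ⟨(c - j.1).toNat + (c + j.1).toNat, fun n hn => ?_⟩
  have h6 := ATD.main S B c hm hp j n (by omega) (by omega)
  have hDL : S.Dj (sft (-n) j) ∈ S.Lam := Submodule.subset_span ⟨_, rfl⟩
  obtain ⟨s, hs, z, hz, hsz⟩ := red_sup S S.Lam hlie hstab _ hDL
  have hF : ∃ g ∈ derS S.Lam, ∃ w ∈ zenS S.Lam, S.bX (S.Dj (sft (-n) j)) -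
      (B * S.Dj (sft (-n) j) - S.Dj (sft (-n) j) * B) = g + w := by
    refine ⟨_, h1 s hs, _, h2 z (cenS_le_zenS S.Lam z hz), ?_⟩
    rw [hsz, S.bX_add]
    noncomm_ring
  obtain ⟨g, hg, w, hw, hgw⟩ := hF
  have hg' := ATD.stab_zpow S _ (derS_stab S _ hstab) n g hg
  have hw' : (S.cj ^ (n : ℤ)) w ∈ zenS S.Lam :=
    ATD.stab_zpow S _ (zenS_stab S _ hstab) n w hw
  have hsum : (∑ i ∈ Finset.Ico (-(n : ℤ)) n, (S.cj ^ i) (S.E1 + B - S.cj B)) =
      (∑ i ∈ Finset.Ico (-(n : ℤ)) n, (S.cj ^ i) s₀) +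
        ∑ i ∈ Finset.Ico (-(n : ℤ)) n, (S.cj ^ i) C₁ := by
    rw [← Finset.sum_add_distrib, hY]
    exact Finset.sum_congr rfl fun i _ => map_add _ _ _
  have hs0 : (∑ i ∈ Finset.Ico (-(n : ℤ)) n, (S.cj ^ i) s₀) ∈ derS S.Lam :=
    sum_mem fun i _ => ATD.stab_zpow S _ (derS_stab S _ hstab) i s₀ h3
  have hC1 : (∑ i ∈ Finset.Ico (-(n : ℤ)) n, (S.cj ^ i) C₁) ∈ comS S.Lam :=
    sum_mem fun i _ => ATD.stab_zpow S (Subalgebra.toSubmodule (comS S.Lam))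
      (comS_stab S _ hstab) i C₁ h4
  set Qc := ∑ i ∈ Finset.Ico (-(n : ℤ)) n, (S.cj ^ i) C₁ with hQc
  set Qs := ∑ i ∈ Finset.Ico (-(n : ℤ)) n, (S.cj ^ i) s₀ with hQs
  rw [hsum, S.bm_add, hgw, map_add] at h6
  have hbs : S.bm j Qs ∈ derS S.Lam := (derS_stabN S _ hstabN).2 j _ hs0
  have hbc : S.bm j Qc ∈ comS S.Lam := (comS_stabN S _ hstabN).2 j _ hC1
  have h7 : S.bm j Qc = (-(S.cj ^ (n : ℤ)) g - S.bm j Qs) + -(S.cj ^ (n : ℤ)) w := by
    rw [← add_sub_cancel_left (S.bm j Qs) (S.bm j Qc), h6]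
    abel
  have h8 : (-(S.cj ^ (n : ℤ)) g - S.bm j Qs) ∈ derS S.Lam := sub_mem (neg_mem hg') hbs
  have h9 : (-(S.cj ^ (n : ℤ)) g - S.bm j Qs) ∈ comS S.Lam := by
    have h10 : (-(S.cj ^ (n : ℤ)) g - S.bm j Qs) = S.bm j Qc + (S.cj ^ (n : ℤ)) w := by
      rw [h7]
      abel
    rw [h10]
    exact add_mem hbc (zenS_le_comS S.Lam _ hw')
  have h10 : (-(S.cj ^ (n : ℤ)) g - S.bm j Qs) = 0 :=
    red_cen S S.Lam hlie hstab _ h8 ⟨derS_le S.Lam hlie h8, (mem_comS _ _).1 h9⟩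
  rw [comS_bp_eq_bm S S.Lam j (Submodule.subset_span ⟨_, rfl⟩) _ hC1, h7, h10, zero_add]
  exact neg_mem hw'

end Pool.Agent.Wb5ab1bf
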