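import Pool.Agent.W_b5ab1bf_h80.ABas

/-!
# Traces of brackets and of conjugates (helper80)
-/

set_option autoImplicit false

noncomputable section

namespace Pool.Agent.Wb5ab1bf

variable {k : ℕ} {K : Type} [Field K] {D : DField k K} {V : Type} [AddCommGroup V] [Module K V]

theorem ATr_trace [FiniteDimensional K V] {ι : Type} [Fintype ι] [DecidableEq ι]
    (b : Module.Basis ι K V) (x : Module.End K V) :
    LinearMap.trace K V x = ∑ i, b.repr (x (b i)) i := by
  rw [LinearMap.trace_eq_matrix_trace K b, Matrix.trace]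
  exact Finset.sum_congr rfl fun i _ => by rw [Matrix.diag_apply, LinearMap.toMatrix_apply]

/-- The coordinates with respect to the transported basis. -/
def ATr_e (S : Sys D V) {ι : Type} [Fintype ι] (b : Module.Basis ι K V) : V ≃ₗ[K] (ι → K) where
  toFun v i := D.θ (b.equivFun (S.σ.symm v) i)
  map_add' v w := by
    funext i
    simp
  map_smul' f v := by
    funext i
    rw [symm_smul S.hσ, map_smul, Pi.smul_apply, Pi.smul_apply, smul_eq_mul, smul_eq_mul, map_mul,
      D.θ.apply_symm_apply, RingHom.id_apply]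
  invFun g := S.σ (b.equivFun.symm fun i => D.θ.symm (g i))
  left_inv v := by
    show S.σ (b.equivFun.symm fun i => D.θ.symm (D.θ (b.equivFun (S.σ.symm v) i))) = v
    simp only [RingEquiv.symm_apply_apply]
    rw [b.equivFun.symm_apply_apply, S.σ.apply_symm_apply]
  right_inv g := by
    funext i
    show D.θ (b.equivFun (S.σ.symm (S.σ (b.equivFun.symm fun i => D.θ.symm (g i)))) i) = g i
    rw [S.σ.symm_apply_apply, b.equivFun.apply_symm_apply, D.θ.apply_symm_apply]

/-- The trace of a conjugate.

Proof. Let `b` be a basis of `V` (`Module.finBasis K V`), `b' i := S.σ (b i)`; this is again a basis of `V`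
(it is independent and spans, because `S.σ` is a semilinear bijection: `S.hσ`, `symm_smul`; or use
`Module.Basis.ofEquivFun`/`Module.Basis.mk`). If `x (b j) = ∑ i, a i j • b i` then
`S.cj x (b' j) = S.σ (x (b j)) = ∑ i, D.θ (a i j) • b' i`. So the matrix of `S.cj x` in the basis `b'` is
`θ` of the matrix of `x` in the basis `b` and `LinearMap.trace_eq_matrix_trace` (for `b` and for `b'`) gives
the claim. -/
theorem trace_cj [FiniteDimensional K V] (S : Sys D V) (x : Module.End K V) :
    LinearMap.trace K V (S.cj x) = D.θ (LinearMap.trace K V x) := by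
  obtain ⟨b, -⟩ : ∃ b : Module.Basis (Fin (Module.finrank K V)) K V, b = b :=
    ⟨Module.finBasis K V, rfl⟩
  have hb : ∀ i, Module.Basis.ofEquivFun (ATr_e S b) i = S.σ (b i) := by
    intro i
    rw [Module.Basis.coe_ofEquivFun]
    show S.σ (b.equivFun.symm fun j => D.θ.symm (Pi.single (M := fun _ => K) i 1 j)) = S.σ (b i)
    have : (fun j => D.θ.symm (Pi.single (M := fun _ => K) i 1 j)) = Pi.single (M := fun _ => K) i 1 := by
      funext j
      by_cases h : j = i
      · subst h
        simp
      · simp [h]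
    rw [this]
    congr 1
    rw [LinearEquiv.symm_apply_eq]
    funext j
    rw [Module.Basis.equivFun_apply, b.repr_self, Finsupp.single_apply, Pi.single_apply]
    exact if_congr eq_comm rfl rfl
  rw [ATr_trace b x, ATr_trace (Module.Basis.ofEquivFun (ATr_e S b)) (S.cj x), map_sum]
  refine Finset.sum_congr rfl fun i _ => ?_
  rw [hb, Sys.cj_apply, S.σ.symm_apply_apply, ← Module.Basis.equivFun_apply,
    Module.Basis.equivFun_ofEquivFun]
  show D.θ (b.equivFun (S.σ.symm (S.σ (x (b i)))) i) = _
  rw [S.σ.symm_apply_apply, Module.Basis.equivFun_apply]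

theorem trace_cj_symm [FiniteDimensional K V] (S : Sys D V) (x : Module.End K V) :
    LinearMap.trace K V (S.cj.symm x) = D.θ.symm (LinearMap.trace K V x) := by
  apply D.θ.injective
  rw [D.θ.apply_symm_apply, ← trace_cj, RingEquiv.apply_symm_apply]

/-- The trace of the bracket of a connection with an endomorphism is the derivative of the trace.

Proof. Let `b` be a basis of `V`, `x (b j) = ∑ i, a i j • b i`, `N (b j) = ∑ i, w i j • b i`. By the Leibniz
rule `brL hN x (b j) = N (x (b j)) - x (N (b j)) = ∑ i, (d (a i j)) • b i + ∑ i, a i j • N (b i)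
- ∑ i, w i j • x (b i)`, so the matrix of `brL hN x` is `d(a) + w * a - a * w` and its trace is
`∑ i, d (a i i) = d (trace a)` (`Matrix.trace_mul_comm`). Use `LinearMap.trace_eq_matrix_trace K b` and
`LinearMap.toMatrix_apply`. -/
theorem trace_brL [FiniteDimensional K V] (d : Derivation ℤ K K) {N : V →+ V} (hN : IsCon d N)
    (x : Module.End K V) : LinearMap.trace K V (brL hN x) = d (LinearMap.trace K V x) := by
  obtain ⟨b, -⟩ : ∃ b : Module.Basis (Fin (Module.finrank K V)) K V, b = b :=
    ⟨Module.finBasis K V, rfl⟩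
  rw [ATr_trace b x, ATr_trace b (brL hN x), map_sum]
  have h1 : ∀ j, b.repr (N (x (b j))) j = d (b.repr (x (b j)) j) +
      ∑ i, b.repr (x (b j)) i * b.repr (N (b i)) j := by
    intro j
    conv_lhs => rw [← b.sum_repr (x (b j)), map_sum]
    simp only [hN _ _]
    rw [map_sum, Finsupp.finsetSum_apply]
    simp only [map_add, map_smul, Finsupp.add_apply, Finsupp.smul_apply, smul_eq_mul]
    rw [Finset.sum_add_distrib]
    congr 1
    rw [Finset.sum_eq_single j]
    · simp
    · intro i _ hij
      rw [b.repr_self, Finsupp.single_apply, if_neg hij, mul_zero]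
    · intro h
      exact absurd (Finset.mem_univ j) h
  have h2 : ∀ j, b.repr (x (N (b j))) j = ∑ i, b.repr (N (b j)) i * b.repr (x (b i)) j := by
    intro j
    conv_lhs => rw [← b.sum_repr (N (b j)), map_sum, map_sum, Finsupp.finsetSum_apply]
    refine Finset.sum_congr rfl fun i _ => ?_
    rw [map_smul, map_smul, Finsupp.smul_apply, smul_eq_mul]
  have h3 : ∀ j, b.repr (brL hN x (b j)) j = d (b.repr (x (b j)) j) +
      ((∑ i, b.repr (x (b j)) i * b.repr (N (b i)) j) -
        ∑ i, b.repr (N (b j)) i * b.repr (x (b i)) j) := by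
    intro j
    rw [brL_apply, map_sub, Finsupp.sub_apply, h1, h2]
    ring
  rw [Finset.sum_congr rfl fun j _ => h3 j, Finset.sum_add_distrib, Finset.sum_sub_distrib]
  have h4 : (∑ j, ∑ i, b.repr (N (b j)) i * b.repr (x (b i)) j) =
      ∑ j, ∑ i, b.repr (x (b j)) i * b.repr (N (b i)) j := by
    rw [Finset.sum_comm]
    exact Finset.sum_congr rfl fun i _ => Finset.sum_congr rfl fun j _ => mul_comm _ _
  rw [h4, sub_self, add_zero]

theorem trace_bp [FiniteDimensional K V] (S : Sys D V) (j : ℤ × Fin k) (x : Module.End K V) :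
    LinearMap.trace K V (S.bp j x) = D.δ j (LinearMap.trace K V x) := trace_brL _ _ _

theorem trace_bm [FiniteDimensional K V] (S : Sys D V) (j : ℤ × Fin k) (x : Module.End K V) :
    LinearMap.trace K V (S.bm j x) = D.δ j (LinearMap.trace K V x) := trace_brL _ _ _

/-- Every endomorphism is parallel for `p j` if `j` is far to the left. Proof: let `b` be a basis of `V`;
`S.finp (b i)` and `S.finp (x (b i))` give integers; take the minimum `n₀` of these finitely many integers.
If `j.1 ≤ n₀` then `S.bp j x (b i) = S.p j (x (b i)) - x (S.p j (b i)) = 0` for all `i`, so `S.bp j x = 0`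
(`Module.Basis.ext`). -/
theorem bp_fin [FiniteDimensional K V] (S : Sys D V) (x : Module.End K V) :
    ∃ n₀ : ℤ, ∀ j, j.1 ≤ n₀ → S.bp j x = 0 := by
  obtain ⟨b, -⟩ : ∃ b : Module.Basis (Fin (Module.finrank K V)) K V, b = b :=
    ⟨Module.finBasis K V, rfl⟩
  choose f hf using fun i => S.finp (b i)
  choose g hg using fun i => S.finp (x (b i))
  refine ⟨-∑ i, (|f i| + |g i|), fun j hj => b.ext fun i => ?_⟩
  have h1 : |f i| + |g i| ≤ ∑ i, (|f i| + |g i|) :=
    Finset.single_le_sum (f := fun i => |f i| + |g i|) (fun i _ => by positivity)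
      (Finset.mem_univ i)
  have h2 := neg_abs_le (f i)
  have h3 := neg_abs_le (g i)
  have h4 := abs_nonneg (f i)
  have h5 := abs_nonneg (g i)
  rw [Sys.bp_apply, hf i j (by linarith), hg i j (by linarith), map_zero, sub_zero,
    LinearMap.zero_apply]

/-- The same for `m j`, `j` far to the right. -/
theorem bm_fin [FiniteDimensional K V] (S : Sys D V) (x : Module.End K V) :
    ∃ n₀ : ℤ, ∀ j, n₀ ≤ j.1 → S.bm j x = 0 := by
  obtain ⟨b, -⟩ : ∃ b : Module.Basis (Fin (Module.finrank K V)) K V, b = b :=
    ⟨Module.finBasis K V, rfl⟩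
  choose f hf using fun i => S.finm (b i)
  choose g hg using fun i => S.finm (x (b i))
  refine ⟨∑ i, (|f i| + |g i|), fun j hj => b.ext fun i => ?_⟩
  have h1 : |f i| + |g i| ≤ ∑ i, (|f i| + |g i|) :=
    Finset.single_le_sum (f := fun i => |f i| + |g i|) (fun i _ => by positivity)
      (Finset.mem_univ i)
  have h2 := le_abs_self (f i)
  have h3 := le_abs_self (g i)
  have h4 := abs_nonneg (f i)
  have h5 := abs_nonneg (g i)
  rw [Sys.bm_apply, hf i j (by linarith), hg i j (by linarith), map_zero, sub_zero,
    LinearMap.zero_apply]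

end Pool.Agent.Wb5ab1bf
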