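import Pool.Agent.W_b5ab1bf_h80.AB

/-!
# Decomposition of E1, first step (helper80)
-/

set_option autoImplicit false

noncomputable section

namespace Pool.Agent.Wb5ab1bf

variable {k : ℕ} {K : Type} [Field K] {D : DField k K} {V : Type} [AddCommGroup V] [Module K V]

theorem AY_E1 (S : Sys D V) (x : Module.End K V) :
    S.E1 * x - x * S.E1 = S.cj (S.bX (S.cj.symm x)) - S.bX x := by
  refine LinearMap.ext fun v => ?_
  have h1 : S.cj.symm x (S.σ.symm v) = S.σ.symm (x v) := by
    rw [Sys.cj_symm_apply, S.σ.apply_symm_apply]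
  have h2 : S.σ (S.cj.symm x (S.X (S.σ.symm v))) = x (S.σ (S.X (S.σ.symm v))) := by
    rw [Sys.cj_symm_apply, S.σ.apply_symm_apply]
  rw [LinearMap.sub_apply, LinearMap.sub_apply, Module.End.mul_apply, Module.End.mul_apply,
    Sys.E1_apply, Sys.E1_apply, Sys.cj_apply, Sys.bX_apply, Sys.bX_apply, map_sub, map_sub, h1, h2]
  abel

theorem AY_key (S : Sys D V) (B x : Module.End K V) :
    (S.E1 + B - S.cj B) * x - x * (S.E1 + B - S.cj B) =
      S.cj (S.bX (S.cj.symm x) - (B * S.cj.symm x - S.cj.symm x * B)) -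
        (S.bX x - (B * x - x * B)) := by
  have h1 := AY_E1 S x
  have h2 : S.cj (B * S.cj.symm x - S.cj.symm x * B) = S.cj B * x - x * S.cj B := by
    rw [map_sub, map_mul, map_mul, RingEquiv.apply_symm_apply]
  rw [map_sub, h2]
  have h3 : (S.E1 + B - S.cj B) * x - x * (S.E1 + B - S.cj B) =
      (S.E1 * x - x * S.E1) + (B * x - x * B) - (S.cj B * x - x * S.cj B) := by
    noncomm_ring
  rw [h3, h1]
  abel

/-- `E1 = s₀ + C₁ - B + σ B σ⁻¹` with `s₀ ∈ derS L` and `C₁` in the commutant of `L`; `B` is the element of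
`exists_B`.

Proof. Take `B` from `exists_B`, `Y := S.E1 + B - S.cj B`. For `x ∈ Module.End K V`:
`Y x - x Y = S.cj (F (S.cj.symm x)) - F x` where `F x := S.bX x - (B x - x B)` (direct computation:
`S.E1 x - x S.E1 = S.cj (S.bX (S.cj.symm x)) - S.bX x`, check on vectors with `Sys.E1_apply`, and
`S.cj (B y - y B) = S.cj B x - x S.cj B` for `y = S.cj.symm x`). As `F` preserves `G := derS L` and
`Z := zenS L`, which are stable under `S.cj`, `S.cj.symm` (`derS_stab`, `zenS_stab`), the commutator with `Y`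
preserves `G` and `Z`. By `wh_der` (for `f x := Y x - x Y` and `G`; `derS_lie`, `red_abelian`) there is
`s₀ ∈ G` with `Y s - s Y = s₀ s - s s₀` for `s ∈ G`, and by `et_zero` `Y z - z Y = 0` for `z ∈ Z`. Then
`C₁ := Y - s₀` commutes with `G`, and with `cenS L` (`cenS_le_zenS`; `s₀ ∈ L` commutes with `cenS L`), so
with `L` (`red_sup`). -/
theorem exists_decomp [CharZero K] [FiniteDimensional K V] (S : Sys D V)
    (L : Submodule K (Module.End K V)) (hL : LieCl L) (hs : Stab S L) :
    ∃ B s₀ C₁ : Module.End K V,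
      (∀ s ∈ derS L, S.bX s - (B * s - s * B) ∈ derS L) ∧
      (∀ z ∈ zenS L, S.bX z - (B * z - z * B) ∈ zenS L) ∧
      s₀ ∈ derS L ∧ C₁ ∈ comS L ∧ S.E1 = s₀ + C₁ - B + S.cj B := by
  obtain ⟨B, hB1, hB2⟩ := exists_B S L hL hs
  set Y : Module.End K V := S.E1 + B - S.cj B with hY
  have hkey := AY_key S B
  rw [← hY] at hkey
  have hGs := derS_stab S L hs
  have hZs := zenS_stab S L hs
  have hadd : ∀ x y : Module.End K V,
      Y * (x + y) - (x + y) * Y = (Y * x - x * Y) + (Y * y - y * Y) := by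
    intro x y
    rw [mul_add, add_mul]
    abel
  have hsmul : ∀ (c : K) (x : Module.End K V),
      Y * (c • x) - (c • x) * Y = c • (Y * x - x * Y) := by
    intro c x
    rw [mul_smul_comm, smul_mul_assoc, smul_sub]
  obtain ⟨s₀, hs₀, hcomm⟩ := wh_der (derS L) (derS_lie L hL)
    (fun I hI hab => red_abelian S L hL hs I hI hab) (fun x => Y * x - x * Y)
    (fun x hx => by
      show Y * x - x * Y ∈ derS L
      rw [hkey]
      exact sub_mem (hGs.1 _ (hB1 _ (hGs.2 x hx))) (hB1 x hx))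
    (fun x _ y _ => hadd x y) (fun c x _ => hsmul c x)
    (fun x _ y _ => by
      show Y * (x * y - y * x) - (x * y - y * x) * Y = _
      noncomm_ring)
  have hZ : ∀ z ∈ zenS L, Y * z - z * Y = 0 := by
    intro z hz
    refine et_zero (zenS L) (zenS_comm L) (zenS_nondeg S L hs) (fun x => Y * x - x * Y)
      (fun x hx => ?_) (fun x _ y _ => hadd x y) (fun c x _ => hsmul c x)
      (fun x _ y _ => ?_) z hz
    · show Y * x - x * Y ∈ zenS L
      rw [hkey]
      have h1 : S.cj.symm x ∈ zenS L := hZs.2 x hx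
      have h2 := hZs.1 _ (hB2 _ h1)
      exact sub_mem h2 (hB2 x hx)
    · show Y * (x * y) - (x * y) * Y = (Y * x - x * Y) * y + x * (Y * y - y * Y)
      noncomm_ring
  refine ⟨B, s₀, Y - s₀, hB1, hB2, hs₀, ?_, ?_⟩
  · rw [mem_comS]
    intro y hy
    obtain ⟨s, hsG, z, hz, rfl⟩ := red_sup S L hL hs y hy
    have h1 : Y * s - s * Y = s₀ * s - s * s₀ := hcomm s hsG
    have h2 : Y * z - z * Y = 0 := hZ z (cenS_le_zenS L z hz)
    have h3 : s₀ * z = z * s₀ := hz.2 s₀ (derS_le L hL hs₀)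
    have h4 : (Y - s₀) * (s + z) - (s + z) * (Y - s₀) =
        ((Y * s - s * Y) - (s₀ * s - s * s₀)) + (Y * z - z * Y) - (s₀ * z - z * s₀) := by
      noncomm_ring
    rw [h1, h2, h3, sub_self, sub_self, add_zero, sub_zero] at h4
    exact (sub_eq_zero.1 h4).symm
  · rw [hY]
    abel

end Pool.Agent.Wb5ab1bf
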