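import Pool.Agent.W_b5ab1bf_h80.ARed

/-!
# The algebra generated by the centre (helper80)
-/

set_option autoImplicit false

noncomputable section

namespace Pool.Agent.Wb5ab1bf

variable {k : ℕ} {K : Type} [Field K] {D : DField k K} {V : Type} [AddCommGroup V] [Module K V]

/-- The elements of `L` commute with `zenS L`. -/
theorem zenS_comm_L (L : Submodule K (Module.End K V)) :
    ∀ x ∈ L, ∀ z ∈ zenS L, x * z = z * x := by
  intro x hx z hz
  induction hz using Algebra.adjoin_induction with
  | mem z hz => exact hz.2 x hx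
  | algebraMap r => exact (Algebra.commutes r x).symm
  | add y z _ _ hy hz => rw [mul_add, add_mul, hy, hz]
  | mul y z _ _ hy hz => rw [← mul_assoc, hy, mul_assoc, hz, mul_assoc]

/-- The centre generates a commutative algebra. Proof: `Algebra.adjoin` of a commuting set
(`Algebra.adjoinCommRingOfComm` or `Algebra.adjoin_induction` twice); `cenS L` is commutative because
`cenS L ≤ L`. -/
theorem zenS_comm (L : Submodule K (Module.End K V)) :
    ∀ x ∈ zenS L, ∀ y ∈ zenS L, x * y = y * x := by
  intro x hx y hy
  induction hx using Algebra.adjoin_induction with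
  | mem z hz => exact zenS_comm_L L z hz.1 y hy
  | algebraMap r => exact Algebra.commutes r y
  | add a b _ _ ha hb => rw [mul_add, add_mul, ha, hb]
  | mul a b _ _ ha hb => rw [mul_assoc, hb, ← mul_assoc, ha, mul_assoc]

theorem cenS_le_zenS (L : Submodule K (Module.End K V)) : ∀ z ∈ cenS L, z ∈ zenS L := by
  intro z hz
  exact Algebra.subset_adjoin hz

theorem zenS_stab (S : Sys D V) (L : Submodule K (Module.End K V)) (hs : Stab S L) :
    Stab S (Subalgebra.toSubmodule (zenS L)) := by
  have hc := cenS_stab S L hs
  refine ⟨fun x hx => ?_, fun x hx => ?_⟩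
  · rw [Subalgebra.mem_toSubmodule] at hx ⊢
    induction hx using Algebra.adjoin_induction with
    | mem z hz => exact cenS_le_zenS L _ (hc.1 z hz)
    | algebraMap r =>
      rw [Algebra.algebraMap_eq_smul_one, Sys.cj_smul, map_one]
      exact (zenS L).smul_mem (one_mem _) _
    | add a b _ _ ha hb => rw [map_add]; exact add_mem ha hb
    | mul a b _ _ ha hb => rw [map_mul]; exact mul_mem ha hb
  · rw [Subalgebra.mem_toSubmodule] at hx ⊢
    induction hx using Algebra.adjoin_induction with
    | mem z hz => exact cenS_le_zenS L _ (hc.2 z hz)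
    | algebraMap r =>
      rw [Algebra.algebraMap_eq_smul_one, Sys.cj_symm_smul, map_one]
      exact (zenS L).smul_mem (one_mem _) _
    | add a b _ _ ha hb => rw [map_add]; exact add_mem ha hb
    | mul a b _ _ ha hb => rw [map_mul]; exact mul_mem ha hb

theorem zenS_stabN (S : Sys D V) (L : Submodule K (Module.End K V)) (hs : StabN S L) :
    StabN S (Subalgebra.toSubmodule (zenS L)) := by
  have hc := cenS_stabN S L hs
  refine ⟨fun j x hx => ?_, fun j x hx => ?_⟩
  · rw [Subalgebra.mem_toSubmodule] at hx ⊢
    induction hx using Algebra.adjoin_induction with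
    | mem z hz => exact cenS_le_zenS L _ (hc.1 j z hz)
    | algebraMap r =>
      rw [Algebra.algebraMap_eq_smul_one, Sys.bp_smul]
      have h1 : S.bp j (1 : Module.End K V) = 0 := brL_one _
      rw [h1, smul_zero, add_zero]
      exact (zenS L).smul_mem (one_mem _) _
    | add a b _ _ ha hb => rw [Sys.bp_add]; exact add_mem ha hb
    | mul a b ha' hb' ha hb =>
      rw [Sys.bp_mul]
      exact add_mem (mul_mem ha hb') (mul_mem ha' hb)
  · rw [Subalgebra.mem_toSubmodule] at hx ⊢
    induction hx using Algebra.adjoin_induction with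
    | mem z hz => exact cenS_le_zenS L _ (hc.2 j z hz)
    | algebraMap r =>
      rw [Algebra.algebraMap_eq_smul_one, Sys.bm_smul]
      have h1 : S.bm j (1 : Module.End K V) = 0 := brL_one _
      rw [h1, smul_zero, add_zero]
      exact (zenS L).smul_mem (one_mem _) _
    | add a b _ _ ha hb => rw [Sys.bm_add]; exact add_mem ha hb
    | mul a b ha' hb' ha hb =>
      rw [Sys.bm_mul]
      exact add_mem (mul_mem ha hb') (mul_mem ha' hb)

/-- The trace form is nondegenerate on `zenS L` (`trform`). -/
theorem zenS_nondeg [CharZero K] [FiniteDimensional K V] (S : Sys D V)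
    (L : Submodule K (Module.End K V)) (hs : Stab S L) :
    ∀ x ∈ zenS L, (∀ y ∈ zenS L, LinearMap.trace K V (x * y) = 0) → x = 0 :=
  fun x hx h => trform S (zenS L) (zenS_stab S L hs).1 (zenS_stab S L hs).2 x hx h

/-- Membership in the commutant. -/
theorem mem_comS (L : Submodule K (Module.End K V)) (x : Module.End K V) :
    x ∈ comS L ↔ ∀ y ∈ L, y * x = x * y := by
  unfold comS
  rw [Subalgebra.mem_centralizer_iff]
  rfl

/-- Every element of `zenS L` is in the commutant of `L`. -/
theorem zenS_le_comS (L : Submodule K (Module.End K V)) : ∀ z ∈ zenS L, z ∈ comS L := by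
  intro z hz
  rw [mem_comS]
  intro y hy
  exact zenS_comm_L L y hy z hz

/-- The trace form is nondegenerate on the commutant (`trform`, the commutant is stable). -/
theorem comS_stab (S : Sys D V) (L : Submodule K (Module.End K V)) (hs : Stab S L) :
    Stab S (Subalgebra.toSubmodule (comS L)) := by
  refine ⟨fun x hx => ?_, fun x hx => ?_⟩
  · rw [Subalgebra.mem_toSubmodule, mem_comS] at hx ⊢
    intro y hy
    have h := congrArg S.cj (hx _ (hs.2 y hy))
    rw [map_mul, map_mul, RingEquiv.apply_symm_apply] at h
    exact h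
  · rw [Subalgebra.mem_toSubmodule, mem_comS] at hx ⊢
    intro y hy
    have h := congrArg S.cj.symm (hx _ (hs.1 y hy))
    rw [map_mul, map_mul, RingEquiv.symm_apply_apply] at h
    exact h

/-- Proof: for `x ∈ L`, `z` in the commutant, `0 = S.bp j (x * z - z * x)`, see `cenS_stabN`. -/
theorem comS_stabN (S : Sys D V) (L : Submodule K (Module.End K V)) (hs : StabN S L) :
    StabN S (Subalgebra.toSubmodule (comS L)) := by
  refine ⟨fun j z hz => ?_, fun j z hz => ?_⟩
  · rw [Subalgebra.mem_toSubmodule, mem_comS] at hz ⊢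
    intro x hx
    have h : S.bp j (x * z) = S.bp j (z * x) := by rw [hz x hx]
    rw [Sys.bp_mul, Sys.bp_mul, hz _ (hs.1 j x hx), add_comm (S.bp j z * x)] at h
    exact add_left_cancel h
  · rw [Subalgebra.mem_toSubmodule, mem_comS] at hz ⊢
    intro x hx
    have h : S.bm j (x * z) = S.bm j (z * x) := by rw [hz x hx]
    rw [Sys.bm_mul, Sys.bm_mul, hz _ (hs.2 j x hx), add_comm (S.bm j z * x)] at h
    exact add_left_cancel h

/-- If `L` contains all the `S.Dj j` then `S.bp j` and `S.bm j` agree on the commutant
(`Sys.bm_sub_bp`). -/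
theorem comS_bp_eq_bm (S : Sys D V) (L : Submodule K (Module.End K V)) (j : ℤ × Fin k)
    (hj : S.Dj j ∈ L) (x : Module.End K V) (hx : x ∈ comS L) : S.bp j x = S.bm j x := by
  have h := S.bm_sub_bp j x
  rw [(mem_comS L x).1 hx _ hj, sub_self] at h
  exact (sub_eq_zero.1 h).symm

end Pool.Agent.Wb5ab1bf
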