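import Pool.Agent.W_b5ab1bf_h80.BIv

/-!
# Bases of the space of solutions and of its endomorphisms (helper80)
-/

set_option autoImplicit false

noncomputable section

namespace Pool.Agent.Wb5ab1bf

variable {K : Type} [Field K] (B : BM K)

/-- The values in the window `[0, 2w)` give an isomorphism `V ≃ K^{2w}` (`win_ext`, `sol`). -/
theorem BM.exists_equiv : ∃ e : B.V ≃ₗ[K] (Fin (2 * B.w) → K), ∀ v i, e v i = (v : ℤ → K) (i : ℕ) := by
  let g : B.V →ₗ[K] (Fin (2 * B.w) → K) :=
    LinearMap.pi fun i : Fin (2 * B.w) => B.ev ((i : ℕ) : ℤ)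
  have hg : ∀ v i, g v i = (v : ℤ → K) ((i : ℕ) : ℤ) := fun v i => rfl
  have hinj : Function.Injective g := by
    intro v v' h
    refine B.win_ext 0 fun n h1 h2 => ?_
    have h3 : n.toNat < 2 * B.w := by omega
    have h4 := congrFun h ⟨n.toNat, h3⟩
    rw [hg, hg] at h4
    have h5 : ((n.toNat : ℕ) : ℤ) = n := Int.toNat_of_nonneg h1
    simp only [h5] at h4
    exact h4
  have hsurj : Function.Surjective g := by
    intro f
    refine ⟨B.sol 0 (fun n => if h : n.toNat < 2 * B.w then f ⟨n.toNat, h⟩ else 0), ?_⟩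
    funext i
    have h6 := i.2
    rw [hg, B.sol_apply 0 _ _ (by omega) (by omega)]
    have h7 : (((i : ℕ) : ℤ)).toNat < 2 * B.w := by
      rw [Int.toNat_natCast]
      exact i.2
    rw [dif_pos h7]
    congr 1
  exact ⟨LinearEquiv.ofBijective g ⟨hinj, hsurj⟩, fun v i => rfl⟩

instance BM.finite : FiniteDimensional K B.V := by
  obtain ⟨e, _⟩ := B.exists_equiv
  exact Module.Finite.equiv e.symm

theorem BM.finrank : Module.finrank K B.V = 2 * B.w := by
  obtain ⟨e, _⟩ := B.exists_equiv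
  rw [LinearEquiv.finrank_eq e, Module.finrank_fin_fun]

instance BM.nontrivial : Nontrivial B.V := by
  apply Module.nontrivial_of_finrank_pos (R := K)
  rw [B.finrank]
  have := B.w_pos
  omega

/-- expansion of a solution in the basis dual to the values in a window -/
theorem BBas_exp (m : ℤ) (v : B.V) : v = ∑ c ∈ Finset.Ico m (m + 2 * B.w),
    (v : ℤ → K) c • B.sol m (Pi.single c 1) := by
  refine B.win_ext m fun n h1 h2 => ?_
  rw [Submodule.coe_sum, Finset.sum_apply]
  rw [Finset.sum_eq_single n]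
  · rw [Submodule.coe_smul, Pi.smul_apply, B.sol_apply m _ n h1 h2, Pi.single_eq_same, smul_eq_mul,
      mul_one]
  · intro c _ hcn
    rw [Submodule.coe_smul, Pi.smul_apply, B.sol_apply m _ n h1 h2, Pi.single_eq_of_ne hcn.symm,
      smul_zero]
  · intro h3
    exact absurd (Finset.mem_Ico.2 ⟨h1, h2⟩) h3

/-- The `iv b`, `b` in a window of length `2w`, are independent: there are `2w` of them and they span
(`iv_rec`). -/
theorem BM.iv_indep (m : ℤ) (a : ℤ → K)
    (h : ∑ b ∈ Finset.Ico (m - B.w) (m + B.w), a b • B.iv b = 0) (b : ℤ) (h1 : m - B.w ≤ b)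
    (h2 : b < m + B.w) : a b = 0 := by
  classical
  have hspan : ⊤ ≤ Submodule.span K
      (Set.range fun b : {b // b ∈ Finset.Ico (m - (B.w : ℤ)) (m + B.w)} => B.iv b.1) := by
    rintro v -
    rw [B.iv_rec v m]
    refine Submodule.sum_mem _ fun c hc => Submodule.smul_mem _ _ (Submodule.subset_span ?_)
    exact ⟨⟨c, hc⟩, rfl⟩
  have hcard : Fintype.card {b // b ∈ Finset.Ico (m - (B.w : ℤ)) (m + B.w)} =
      Module.finrank K B.V := by
    rw [Fintype.card_coe, Int.card_Ico, B.finrank]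
    omega
  have hli := linearIndependent_of_top_le_span_of_card_eq_finrank hspan hcard
  rw [Fintype.linearIndependent_iff] at hli
  refine hli (fun c => a c.1) ?_ ⟨b, Finset.mem_Ico.2 ⟨h1, h2⟩⟩
  rw [← h]
  exact Finset.sum_coe_sort (Finset.Ico (m - (B.w : ℤ)) (m + B.w)) (fun c => a c • B.iv c)

/-- Every functional is a combination of the values in a window. -/
theorem BM.exists_ev (f : B.V →ₗ[K] K) (m : ℤ) :
    ∃ a : ℤ → K, f = ∑ c ∈ Finset.Ico m (m + 2 * B.w), a c • B.ev c := by
  refine ⟨fun c => f (B.sol m (Pi.single c 1)), ?_⟩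
  refine LinearMap.ext fun v => ?_
  conv_lhs => rw [BBas_exp B m v]
  rw [map_sum, LinearMap.sum_apply]
  refine Finset.sum_congr rfl fun c _ => ?_
  rw [map_smul, LinearMap.smul_apply, B.ev_apply, smul_eq_mul, smul_eq_mul, mul_comm]

/-- Every endomorphism is a combination of the `Eb b c`, `b`, `c` in windows. Proof: with `iv_rec` for `x v`
(`m = w`) the coefficients are functionals of `v`, use `exists_ev`. -/
theorem BM.exists_Eb (x : Module.End K B.V) :
    ∃ a : ℤ → ℤ → K, x = ∑ b ∈ Finset.Ico (0 : ℤ) (2 * B.w), ∑ c ∈ Finset.Ico (0 : ℤ) (2 * B.w),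
      a b c • B.Eb b c := by
  classical
  -- the cut-off as a linear map
  let cut : (ℤ → K) →ₗ[K] (ℤ → K) :=
    { toFun := fun v c => if (B.w : ℤ) ≤ c then v c else 0
      map_add' := by
        intro v v'
        funext c
        simp only [Pi.add_apply]
        split_ifs
        · rfl
        · rw [add_zero]
      map_smul' := by
        intro r v
        funext c
        simp only [Pi.smul_apply, RingHom.id_apply]
        split_ifs
        · rfl
        · rw [smul_zero] }
  let L : ℤ → (B.V →ₗ[K] K) := fun b =>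
    (LinearMap.proj b : (ℤ → K) →ₗ[K] K) ∘ₗ (bop B.w B.h) ∘ₗ cut ∘ₗ B.V.subtype ∘ₗ x
  have hL : ∀ b v, L b v =
      bop B.w B.h (fun c => if (B.w : ℤ) ≤ c then (x v : ℤ → K) c else 0) b := fun b v => rfl
  have hex : ∀ b, ∃ a : ℤ → K, L b = ∑ c ∈ Finset.Ico (0 : ℤ) (0 + 2 * B.w), a c • B.ev c :=
    fun b => B.exists_ev (L b) 0
  choose a ha using hex
  refine ⟨a, ?_⟩
  refine LinearMap.ext fun v => ?_
  have h1 := B.iv_rec (x v) (B.w : ℤ)
  rw [sub_self, show (B.w : ℤ) + B.w = 2 * B.w by ring] at h1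
  rw [h1, LinearMap.sum_apply]
  refine Finset.sum_congr rfl fun b _ => ?_
  rw [← hL b v, ha b, LinearMap.sum_apply, Finset.sum_smul, LinearMap.sum_apply, zero_add]
  refine Finset.sum_congr rfl fun c _ => ?_
  rw [LinearMap.smul_apply, LinearMap.smul_apply, B.ev_apply, B.Eb_apply, smul_eq_mul, mul_smul]

/-- The `Eb b c`, `b`, `c` in windows, are independent. Proof: evaluate at the solutions with values `δ_c` in the
window `[0, 2w)` (`sol`) and use `iv_indep` (`m = w`). -/
theorem BM.Eb_indep (a : ℤ → ℤ → K)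
    (h : ∑ b ∈ Finset.Ico (0 : ℤ) (2 * B.w), ∑ c ∈ Finset.Ico (0 : ℤ) (2 * B.w),
      a b c • B.Eb b c = 0) (b c : ℤ) (h1 : 0 ≤ b) (h2 : b < 2 * B.w) (h3 : 0 ≤ c)
    (h4 : c < 2 * B.w) : a b c = 0 := by
  have h5 := congrArg (fun x : Module.End K B.V => x (B.sol 0 (Pi.single c 1))) h
  simp only [LinearMap.sum_apply, LinearMap.zero_apply, LinearMap.smul_apply, B.Eb_apply] at h5
  refine B.iv_indep (B.w : ℤ) (fun b => a b c) ?_ b (by omega) (by omega)
  rw [sub_self, show (B.w : ℤ) + B.w = 2 * B.w by ring]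
  rw [← h5]
  refine Finset.sum_congr rfl fun b' _ => ?_
  rw [Finset.sum_eq_single c]
  · rw [B.sol_apply 0 _ c h3 (by omega), Pi.single_eq_same, one_smul]
  · intro c' hc' hne
    rw [Finset.mem_Ico] at hc'
    rw [B.sol_apply 0 _ c' hc'.1 (by omega), Pi.single_eq_of_ne hne, zero_smul, smul_zero]
  · intro h6
    exact absurd (Finset.mem_Ico.2 ⟨h3, h4⟩) h6

/-- The trace of a product with a rank one endomorphism (`LinearMap.trace_mul_comm`, the trace of
`f.smulRight u` is `f u`, see `LinearMap.trace_smulRight` or `Module.End` trace of `dualTensorHom`). -/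
theorem BM.trace_Eb (x : Module.End K B.V) (b c : ℤ) :
    LinearMap.trace K B.V (B.Eb b c * x) = (x (B.iv b) : ℤ → K) c := by
  have h1 : B.Eb b c * x = ((B.ev c) ∘ₗ x).smulRight (B.iv b) := by
    refine LinearMap.ext fun v => ?_
    rfl
  rw [h1, LinearMap.trace_smulRight]
  rfl

end Pool.Agent.Wb5ab1bf
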