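import Pool.Agent.W_b5ab1bf_h80.BDefs

/-!
# Powers of band operators (helper80)
-/

set_option autoImplicit false

noncomputable section

open scoped Polynomial
open Pool.Agent.Wb5ab1b

namespace Pool.Agent.Wb5ab1bf

section Band

variable {A : Type} [CommRing A] (w : ℕ) (h : ℤ → ℤ → A)

theorem bop_apply (ψ : ℤ → A) (a : ℤ) :
    bop w h ψ a = ∑ b ∈ Finset.Icc (a - w) (a + w), h a b * ψ b := rfl

theorem bpw_zero (a b : ℤ) : bpw w h 0 a b = if a = b then 1 else 0 := by
  unfold bpw
  rw [pow_zero, Module.End.one_apply, Pi.single_apply]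

theorem bpw_succ (n : ℕ) (a b : ℤ) :
    bpw w h (n + 1) a b = ∑ c ∈ Finset.Icc (a - w) (a + w), h a c * bpw w h n c b := by
  unfold bpw
  rw [pow_succ', Module.End.mul_apply, bop_apply]

theorem BBnd_single (b : ℤ) : bop w h (Pi.single b 1) =
    ∑ c ∈ Finset.Icc (b - w) (b + w), h c b • (Pi.single c 1 : ℤ → A) := by
  funext a
  rw [bop_apply, Finset.sum_apply]
  simp only [Pi.smul_apply, smul_eq_mul, Pi.single_apply, mul_ite, mul_one, mul_zero]
  rw [Finset.sum_ite_eq', Finset.sum_ite_eq]
  refine if_congr ?_ rfl rfl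
  rw [Finset.mem_Icc, Finset.mem_Icc]
  omega

/-- Column version. Proof: `bop w h (Pi.single b 1) = ∑ c ∈ Icc (b - w) (b + w), h c b • Pi.single c 1`
(compare the values at every `a`: `a ∈ Icc (b - w) (b + w) ↔ b ∈ Icc (a - w) (a + w)`), and `pow_succ`,
linearity. -/
theorem bpw_succ' (n : ℕ) (a b : ℤ) :
    bpw w h (n + 1) a b = ∑ c ∈ Finset.Icc (b - w) (b + w), bpw w h n a c * h c b := by
  unfold bpw
  rw [pow_succ, Module.End.mul_apply, BBnd_single, map_sum, Finset.sum_apply]
  refine Finset.sum_congr rfl fun c _ => ?_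
  rw [map_smul, Pi.smul_apply, smul_eq_mul, mul_comm]

/-- Induction on `n` with `bpw_succ`. -/
theorem bpw_far (n : ℕ) (a b : ℤ) (hab : (n : ℤ) * w < |b - a|) : bpw w h n a b = 0 := by
  induction n generalizing a with
  | zero =>
    have hne : a ≠ b := by
      rintro rfl
      rw [sub_self, abs_zero, Nat.cast_zero, zero_mul] at hab
      exact lt_irrefl _ hab
    rw [bpw_zero, if_neg hne]
  | succ n ih =>
    rw [bpw_succ]
    refine Finset.sum_eq_zero fun c hc => ?_
    rw [Finset.mem_Icc] at hc
    rw [ih c ?_, mul_zero]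
    have h1 : |b - a| ≤ |b - c| + |c - a| := abs_sub_le b c a
    have h2 : |c - a| ≤ w := by
      rw [abs_le]
      constructor <;> linarith [hc.1, hc.2]
    push_cast at hab
    nlinarith

/-- Composition. Induction on `m` (for all `a`) with `bpw_succ`; the terms outside
`[a - m w, a + m w]` vanish by `bpw_far`. -/
theorem bpw_add (m n : ℕ) (a b lo hi : ℤ) (h1 : lo ≤ a - m * w) (h2 : a + m * w ≤ hi) :
    bpw w h (m + n) a b = ∑ c ∈ Finset.Icc lo hi, bpw w h m a c * bpw w h n c b := by
  induction m generalizing a with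
  | zero =>
    rw [Nat.cast_zero, zero_mul, sub_zero] at h1
    rw [Nat.cast_zero, zero_mul, add_zero] at h2
    simp only [bpw_zero, ite_mul, one_mul, zero_mul, zero_add]
    rw [Finset.sum_ite_eq, if_pos (Finset.mem_Icc.2 ⟨h1, h2⟩)]
  | succ m ih =>
    rw [show m + 1 + n = m + n + 1 by ring, bpw_succ]
    have h3 : ∀ e ∈ Finset.Icc (a - w) (a + (w : ℤ)), h a e * bpw w h (m + n) e b =
        ∑ c ∈ Finset.Icc lo hi, h a e * (bpw w h m e c * bpw w h n c b) := by
      intro e he
      rw [Finset.mem_Icc] at he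
      push_cast at h1 h2
      rw [ih e (by linarith [he.1]) (by linarith [he.2]), Finset.mul_sum]
    rw [Finset.sum_congr rfl h3, Finset.sum_comm]
    refine Finset.sum_congr rfl fun c _ => ?_
    rw [bpw_succ, Finset.sum_mul]
    refine Finset.sum_congr rfl fun e _ => ?_
    ring

/-- The same, the window being large around `b`. -/
theorem bpw_add' (m n : ℕ) (a b lo hi : ℤ) (h1 : lo ≤ b - n * w) (h2 : b + n * w ≤ hi) :
    bpw w h (m + n) a b = ∑ c ∈ Finset.Icc lo hi, bpw w h m a c * bpw w h n c b := by
  induction n generalizing b with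
  | zero =>
    rw [Nat.cast_zero, zero_mul, sub_zero] at h1
    rw [Nat.cast_zero, zero_mul, add_zero] at h2
    simp only [bpw_zero, mul_ite, mul_one, mul_zero, add_zero]
    rw [Finset.sum_ite_eq', if_pos (Finset.mem_Icc.2 ⟨h1, h2⟩)]
  | succ n ih =>
    rw [← add_assoc, bpw_succ']
    have h3 : ∀ e ∈ Finset.Icc (b - w) (b + (w : ℤ)), bpw w h (m + n) a e * h e b =
        ∑ c ∈ Finset.Icc lo hi, (bpw w h m a c * bpw w h n c e) * h e b := by
      intro e he
      rw [Finset.mem_Icc] at he
      push_cast at h1 h2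
      rw [ih e (by linarith [he.1]) (by linarith [he.2]), Finset.sum_mul]
    rw [Finset.sum_congr rfl h3, Finset.sum_comm]
    refine Finset.sum_congr rfl fun c _ => ?_
    rw [bpw_succ', Finset.mul_sum]
    refine Finset.sum_congr rfl fun e _ => ?_
    ring

/-- Shift and ring homomorphisms. Induction on `n` with `bpw_succ`, reindexing the sum by `c ↦ c + s`. -/
theorem bpw_shift {A' : Type} [CommRing A'] (f : A →+* A') (h' : ℤ → ℤ → A') (s : ℤ)
    (hs : ∀ a b, h' (a + s) (b + s) = f (h a b)) (n : ℕ) (a b : ℤ) :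
    bpw w h' n (a + s) (b + s) = f (bpw w h n a b) := by
  induction n generalizing a with
  | zero =>
    rw [bpw_zero, bpw_zero]
    by_cases hab : a = b
    · rw [if_pos hab, if_pos (by rw [hab]), map_one]
    · rw [if_neg hab, if_neg (by omega), map_zero]
  | succ n ih =>
    rw [bpw_succ, bpw_succ, map_sum]
    refine Finset.sum_nbij' (fun c => c - s) (fun c => c + s) ?_ ?_ ?_ ?_ ?_
    · intro c hc
      rw [Finset.mem_Icc] at hc ⊢
      omega
    · intro c hc
      rw [Finset.mem_Icc] at hc ⊢
      omega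
    · intro c _
      ring
    · intro c _
      ring
    · intro c _
      rw [map_mul, ← hs, ← ih, sub_add_cancel]

theorem bpw_map {A' : Type} [CommRing A'] (f : A →+* A') (n : ℕ) (a b : ℤ) :
    f (bpw w h n a b) = bpw w (fun x y => f (h x y)) n a b := by
  have h1 := bpw_shift w h f (fun x y => f (h x y)) 0 (fun a b => by simp) n a b
  simpa using h1.symm

theorem bent_X_pow (a b : ℤ) (n : ℕ) : bent w h a b (Polynomial.X ^ n) = bpw w h n a b := by
  unfold bent bpw
  simp

/-- See `ent_eq_sum` in `Pool/Agent/W_b5ab1b_h80/Jac1.lean`. -/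
theorem bent_eq_sum (a b : ℤ) (g : A[X]) :
    bent w h a b g = g.sum fun j c => c * bpw w h j a b := by
  induction g using Polynomial.induction_on' with
  | add p q hp hq =>
    rw [map_add, hp, hq, Polynomial.sum_add_index p q _ (fun j => by rw [zero_mul])
      (fun j c d => by rw [add_mul])]
  | monomial n c =>
    rw [Polynomial.sum_monomial_index _ _ (by rw [zero_mul]), ← bent_X_pow,
      ← Polynomial.C_mul_X_pow_eq_monomial, ← Polynomial.smul_eq_C_mul, map_smul, smul_eq_mul]

/-- From `bent_eq_sum` and `bpw_shift`. -/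
theorem bent_shift {A' : Type} [CommRing A'] (f : A →+* A') (h' : ℤ → ℤ → A') (s : ℤ)
    (hs : ∀ a b, h' (a + s) (b + s) = f (h a b)) (g : A[X]) (a b : ℤ) :
    bent w h' (a + s) (b + s) (g.map f) = f (bent w h a b g) := by
  induction g using Polynomial.induction_on' with
  | add p q hp hq => rw [Polynomial.map_add, map_add, hp, hq, map_add, map_add]
  | monomial n c =>
    rw [Polynomial.map_monomial, bent_eq_sum, bent_eq_sum,
      Polynomial.sum_monomial_index _ _ (by rw [zero_mul]),
      Polynomial.sum_monomial_index _ _ (by rw [zero_mul]), map_mul, bpw_shift w h f h' s hs]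

/-- The powers of the transposed matrix. Induction on `n` with `bpw_succ` and `bpw_succ'`. -/
theorem bpw_transpose (n : ℕ) (a b : ℤ) : bpw w (fun x y => h y x) n b a = bpw w h n a b := by
  induction n generalizing a b with
  | zero =>
    rw [bpw_zero, bpw_zero]
    exact if_congr eq_comm rfl rfl
  | succ n ih =>
    rw [bpw_succ, bpw_succ']
    refine Finset.sum_congr rfl fun c _ => ?_
    rw [ih, mul_comm]

/-- The powers of the matrix with reversed indices. Induction with `bpw_succ`, reindexing by `c ↦ -c`. -/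
theorem bpw_neg (n : ℕ) (a b : ℤ) : bpw w (fun x y => h (-x) (-y)) n (-a) (-b) = bpw w h n a b := by
  induction n generalizing a with
  | zero =>
    rw [bpw_zero, bpw_zero]
    exact if_congr neg_inj rfl rfl
  | succ n ih =>
    rw [bpw_succ, bpw_succ]
    refine Finset.sum_nbij' (fun c => -c) (fun c => -c) ?_ ?_ ?_ ?_ ?_
    · intro c hc
      rw [Finset.mem_Icc] at hc ⊢
      omega
    · intro c hc
      rw [Finset.mem_Icc] at hc ⊢
      omega
    · intro c _
      ring
    · intro c _
      ring
    · intro c _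
      rw [← ih (-c), neg_neg, neg_neg]

end Band

end Pool.Agent.Wb5ab1bf
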