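import Pool.Agent.W_b5ab1bf_h80.BBnd
import Pool.Agent.W_b5ab1b_h80.Jac1
import Pool.Agent.W_b5ab1b_h80.GShAC

/-!
# The relations between the entries of polynomials in a band operator (helper80)
-/

set_option autoImplicit false

noncomputable section

open scoped Polynomial
open Pool.Agent.Wb5ab1b

namespace Pool.Agent.Wb5ab1bf

section Band

variable {A : Type} [CommRing A] (w : ℕ) (h : ℤ → ℤ → A)

theorem BBndP_app_sum {ι : Type} (s : Finset ι) (Φ : ι → Fn A) (g : A[X]) :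
    (∑ i ∈ s, Φ i).app g = ∑ i ∈ s, (Φ i).app g := by
  classical
  induction s using Finset.induction_on with
  | empty => rfl
  | insert a s ha ih => rw [Finset.sum_insert ha, Finset.sum_insert ha, Fn.app_add, ih]

theorem BBndP_app_X (a b : ℤ) (j : ℕ) :
    (bP w h a b).app (Polynomial.X ^ j) = bpw w h j a b := bent_X_pow w h a b j

/-- Row relation. By `Jac1_ext` it is enough to apply both sides to `X ^ n`; then it is `bpw_succ`
(`Fn.app_smul`, `Jac1_app_C`, `bent_X_pow`). -/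
theorem bP_row (a b : ℤ) :
    ∑ c ∈ Finset.Icc (a - w) (a + w), (Polynomial.C (h a c) : A[X]) • bP w h c b =
      (Polynomial.X : A[X]) • bP w h a b := by
  refine Jac1_ext fun j => ?_
  rw [BBndP_app_sum, Fn.app_smul, ← pow_succ', BBndP_app_X, bpw_succ]
  refine Finset.sum_congr rfl fun c _ => ?_
  rw [Jac1_app_C, BBndP_app_X]

/-- Column relation, the same with `bpw_succ'`. -/
theorem bP_col (a b : ℤ) :
    ∑ c ∈ Finset.Icc (b - w) (b + w), (Polynomial.C (h c b) : A[X]) • bP w h a c =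
      (Polynomial.X : A[X]) • bP w h a b := by
  refine Jac1_ext fun j => ?_
  rw [BBndP_app_sum, Fn.app_smul, ← pow_succ', BBndP_app_X, bpw_succ']
  refine Finset.sum_congr rfl fun c _ => ?_
  rw [Jac1_app_C, BBndP_app_X, mul_comm]

end Band

variable {k : ℕ}

theorem Bd.P_row (B : Bd k) (a b : ℤ) :
    ∑ c ∈ Finset.Icc (a - B.w) (a + B.w), (Polynomial.C (B.H a c) : (Lau k)[X]) • B.P c b =
      (Polynomial.X : (Lau k)[X]) • B.P a b := bP_row _ _ a b

theorem Bd.P_col (B : Bd k) (a b : ℤ) :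
    ∑ c ∈ Finset.Icc (b - B.w) (b + B.w), (Polynomial.C (B.H c b) : (Lau k)[X]) • B.P a c =
      (Polynomial.X : (Lau k)[X]) • B.P a b := bP_col _ _ a b

/-- From `bent_shift` and `Bd.H_succ` (`shX n g` is `g.map` of `sh n`). -/
theorem Bd.P_shX (B : Bd k) (a b n : ℤ) (g : (Lau k)[X]) :
    (B.P (a + n) (b + n)).app (shX n g) = sh n ((B.P a b).app g) :=
  bent_shift B.w B.H (sh (k := k) n : Lau k →+* Lau k) B.H n (fun a b => B.H_succ n a b) g a b

/-- The functionals in `AC` are stable under shifts: if `Ψ (shX n g) = sh n (Φ g)` for all `g` and `Φ ∈ AC`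
then `Ψ ∈ AC`. Proof: `toL q = shX n (toL q)` (`GShAC_toL`), so
`W * Ψ (toL q) = sh n (sh (-n) W * Φ (toL q))` and `E_sh`. See `AC_shX_P` in
`Pool/Agent/W_b5ab1b_h80/GShAC.lean`. -/
theorem AC_of_shX {M : ℝ} {Φ Ψ : Fn (Lau k)} (n : ℤ)
    (h : ∀ g : (Lau k)[X], Ψ.app (shX n g) = sh n (Φ.app g)) (hΦ : Φ ∈ AC k M) : Ψ ∈ AC k M := by
  intro W
  obtain ⟨C, hC⟩ := hΦ (sh (-n) W)
  refine ⟨C, fun q => ?_⟩
  have h1 : W * Ψ.app (toL q) = sh n (sh (-n) W * Φ.app (toL q)) := by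
    rw [map_mul, sh_sh, add_neg_cancel, sh_zero, ← h, GShAC_toL]
  rw [h1, E_sh]
  exact hC q

end Pool.Agent.Wb5ab1bf
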