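import Pool.Agent.W_b5ab1bf_h80.BDefs

/-!
# Coefficientwise derivatives (helper80)
-/

set_option autoImplicit false

noncomputable section

open scoped Polynomial
open Pool.Agent.Wb5ab1b

namespace Pool.Agent.Wb5ab1bf

variable {k : ℕ}

theorem coeff_derX (j : ℤ × Fin k) (p : (Lau k)[X]) (n : ℕ) :
    (derX j p).coeff n = der j (p.coeff n) := by
  unfold derX
  rw [Polynomial.sum_def, Polynomial.finset_sum_coeff]
  simp only [Polynomial.coeff_monomial]
  rw [Finset.sum_ite_eq' p.support n]
  by_cases h : n ∈ p.support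
  · rw [if_pos h]
  · rw [if_neg h, Polynomial.notMem_support_iff.1 h, GSh_der_zero]

/-- Coefficientwise, `der_add`. -/
theorem derX_add (j : ℤ × Fin k) (p q : (Lau k)[X]) : derX j (p + q) = derX j p + derX j q := by
  apply Polynomial.ext
  intro n
  rw [coeff_derX, Polynomial.coeff_add, Polynomial.coeff_add, coeff_derX, coeff_derX, der_add]

theorem BKa_der_sum {ι : Type} (j : ℤ × Fin k) (s : Finset ι) (f : ι → Lau k) :
    der j (∑ i ∈ s, f i) = ∑ i ∈ s, der j (f i) := by
  classical
  induction s using Finset.induction_on with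
  | empty => rw [Finset.sum_empty, Finset.sum_empty, GSh_der_zero]
  | insert a s ha ih => rw [Finset.sum_insert ha, Finset.sum_insert ha, der_add, ih]

/-- Coefficientwise (`Polynomial.coeff_mul`), `der_mul` and additivity of `der`. -/
theorem derX_mul (j : ℤ × Fin k) (p q : (Lau k)[X]) :
    derX j (p * q) = p * derX j q + q * derX j p := by
  apply Polynomial.ext
  intro n
  rw [mul_comm q]
  rw [coeff_derX, Polynomial.coeff_add, Polynomial.coeff_mul, Polynomial.coeff_mul,
    Polynomial.coeff_mul, BKa_der_sum, ← Finset.sum_add_distrib]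
  apply Finset.sum_congr rfl
  intro x _
  rw [coeff_derX, coeff_derX, der_mul]
  ring

theorem derX_C (j : ℤ × Fin k) (F : Lau k) :
    derX j (Polynomial.C F) = Polynomial.C (der j F) := by
  apply Polynomial.ext
  intro n
  rw [coeff_derX, Polynomial.coeff_C, Polynomial.coeff_C]
  split_ifs
  · rfl
  · rw [GSh_der_zero]

theorem BKa_der_one (j : ℤ × Fin k) : der j (1 : Lau k) = 0 := by
  rw [AddMonoidAlgebra.one_def, der_single]
  simp

theorem derX_X (j : ℤ × Fin k) : derX j (Polynomial.X : (Lau k)[X]) = 0 := by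
  apply Polynomial.ext
  intro n
  rw [coeff_derX, Polynomial.coeff_X, Polynomial.coeff_zero]
  split_ifs
  · exact BKa_der_one j
  · rw [GSh_der_zero]

/-- The derivatives commute. On monomials (`der_single`). -/
theorem der_comm (i j : ℤ × Fin k) (F : Lau k) : der i (der j F) = der j (der i F) := by
  apply AddMonoidAlgebra.coeff_injective
  apply Finsupp.ext
  intro η
  rw [GSh_der_coeff, GSh_der_coeff, GSh_der_coeff, GSh_der_coeff]
  ring

theorem derX_comm (i j : ℤ × Fin k) (p : (Lau k)[X]) : derX i (derX j p) = derX j (derX i p) := by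
  apply Polynomial.ext
  intro n
  rw [coeff_derX, coeff_derX, coeff_derX, coeff_derX, der_comm]

theorem BKa_der_nat (j : ℤ × Fin k) (n : ℕ) : der j ((n : Lau k)) = 0 := by
  induction n with
  | zero => rw [Nat.cast_zero, GSh_der_zero]
  | succ n ih => rw [Nat.cast_succ, der_add, ih, BKa_der_one, add_zero]

theorem derX_derivative (j : ℤ × Fin k) (p : (Lau k)[X]) :
    Polynomial.derivative (derX j p) = derX j (Polynomial.derivative p) := by
  apply Polynomial.ext
  intro n
  rw [Polynomial.coeff_derivative, coeff_derX, coeff_derX, Polynomial.coeff_derivative, der_mul]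
  have h : der j ((n : Lau k) + 1) = 0 := by
    rw [der_add, BKa_der_nat, BKa_der_one, add_zero]
  rw [h, mul_zero, zero_add, mul_comm]

theorem BKa_coeff_shX (n : ℤ) (p : (Lau k)[X]) (m : ℕ) : (shX n p).coeff m = sh n (p.coeff m) := by
  unfold shX
  rw [Polynomial.coe_mapRingHom, Polynomial.coeff_map]
  rfl

/-- Coefficientwise, `der_sh`. -/
theorem shX_derX (n : ℤ) (j : ℤ × Fin k) (p : (Lau k)[X]) :
    shX n (derX j p) = derX (sft n j) (shX n p) := by
  apply Polynomial.ext
  intro m
  rw [BKa_coeff_shX, coeff_derX, coeff_derX, BKa_coeff_shX, der_sh]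
  have h : ((sft n j).1 - n, (sft n j).2) = j := by
    rw [sft_fst, sft_snd, add_sub_cancel_right]
  rw [h]

theorem shX_derivative (n : ℤ) (p : (Lau k)[X]) :
    shX n (Polynomial.derivative p) = Polynomial.derivative (shX n p) := by
  unfold shX
  rw [Polynomial.coe_mapRingHom, Polynomial.derivative_map]

/-- `der_finite` for the coefficients. -/
theorem derX_finite (p : (Lau k)[X]) : {j | derX j p ≠ 0}.Finite := by
  apply Set.Finite.subset (p.support.finite_toSet.biUnion
    (t := fun n => {l | der l (p.coeff n) ≠ 0}) (fun n _ => der_finite (p.coeff n)))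
  intro j hj
  by_contra hne
  apply hj
  apply Polynomial.ext
  intro n
  rw [coeff_derX, Polynomial.coeff_zero]
  by_contra h0
  apply hne
  simp only [Set.mem_iUnion]
  refine ⟨n, ?_, h0⟩
  rw [Finset.mem_coe, Polynomial.mem_support_iff]
  intro h1
  rw [h1, GSh_der_zero] at h0
  exact h0 rfl

/-- The shifts compose. -/
theorem shX_shX (m n : ℤ) (p : (Lau k)[X]) : shX m (shX n p) = shX (m + n) p := by
  apply Polynomial.ext
  intro l
  rw [BKa_coeff_shX, BKa_coeff_shX, BKa_coeff_shX, sh_sh]

theorem shX_zero (p : (Lau k)[X]) : shX 0 p = p := by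
  apply Polynomial.ext
  intro l
  rw [BKa_coeff_shX, sh_zero]

theorem shX_ne_zero (n : ℤ) {p : (Lau k)[X]} (hp : p ≠ 0) : shX n p ≠ 0 := by
  intro h
  apply hp
  have h1 := shX_shX (-n) n p
  rw [neg_add_cancel, shX_zero, h, map_zero] at h1
  exact h1.symm

/-- A polynomial whose coefficientwise derivatives are all `0` is a complex polynomial (`const_of_der`). -/
theorem exists_cX {p : (Lau k)[X]} (h : ∀ j, derX j p = 0) : ∃ p₀ : ℂ[X], p = cX k p₀ := by
  refine ⟨∑ n ∈ p.support, Polynomial.monomial n ((p.coeff n).coeff 0), ?_⟩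
  apply Polynomial.ext
  intro n
  unfold cX
  rw [Polynomial.coe_mapRingHom, Polynomial.coeff_map, Polynomial.finset_sum_coeff]
  simp only [Polynomial.coeff_monomial]
  rw [Finset.sum_ite_eq' p.support n]
  by_cases hn : n ∈ p.support
  · rw [if_pos hn]
    have h1 : ∀ l, der l (p.coeff n) = 0 := by
      intro l
      rw [← coeff_derX, h l, Polynomial.coeff_zero]
    conv_lhs => rw [const_of_der h1]
    rfl
  · rw [if_neg hn, Polynomial.notMem_support_iff.1 hn, map_zero]

theorem BKa_der_alg (j : ℤ × Fin k) (c : ℂ) : der j (algebraMap ℂ (Lau k) c) = 0 := by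
  have h : algebraMap ℂ (Lau k) c = AddMonoidAlgebra.single 0 c := rfl
  rw [h, der_single]
  simp

theorem derX_cX (j : ℤ × Fin k) (p : ℂ[X]) : derX j (cX k p) = 0 := by
  apply Polynomial.ext
  intro n
  unfold cX
  rw [coeff_derX, Polynomial.coe_mapRingHom, Polynomial.coeff_map, BKa_der_alg,
    Polynomial.coeff_zero]

theorem shX_cX (n : ℤ) (p : ℂ[X]) : shX n (cX k p) = cX k p := by
  apply Polynomial.ext
  intro m
  rw [BKa_coeff_shX]
  unfold cX
  rw [Polynomial.coe_mapRingHom, Polynomial.coeff_map]
  exact (sh n).commutes _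

theorem cX_injective (k : ℕ) : Function.Injective (cX k) := by
  unfold cX
  rw [Polynomial.coe_mapRingHom]
  exact Polynomial.map_injective _ (FaithfulSMul.algebraMap_injective ℂ (Lau k))

end Pool.Agent.Wb5ab1bf
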