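import Mathlib

/-!
# Reduction of the terms of a recurrent sequence to a window (helper80)
-/

set_option autoImplicit false

noncomputable section

namespace Pool.Agent.Wb5ab1bf

/-- The term `c` can be reduced to the window. -/
def BRed_Good {A : Type} [CommRing A] (T : Submonoid A) (L : ℕ) (b : ℤ → ℤ → A) (c : ℤ) : Prop :=
  ∃ D ∈ T, ∃ ρ : ℤ → A, ∀ (𝔉 : Type) [AddCommGroup 𝔉] [Module A 𝔉] (f : ℤ → 𝔉),
    (∀ m : ℤ, ∑ n ∈ Finset.Icc m (m + L), b m n • f n = 0) →
      D • f c = ∑ l ∈ Finset.Ico (0 : ℤ) L, ρ l • f l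

theorem BRed_common {A : Type} [CommRing A] (T : Submonoid A) (L : ℕ) (b : ℤ → ℤ → A)
    (s : Finset ℤ) (hs : ∀ n ∈ s, BRed_Good T L b n) :
    ∃ D ∈ T, ∃ ρ : ℤ → ℤ → A, ∀ (𝔉 : Type) [AddCommGroup 𝔉] [Module A 𝔉] (f : ℤ → 𝔉),
      (∀ m : ℤ, ∑ n ∈ Finset.Icc m (m + L), b m n • f n = 0) →
        ∀ n ∈ s, D • f n = ∑ l ∈ Finset.Ico (0 : ℤ) L, ρ n l • f l := by
  classical
  induction s using Finset.induction_on with
  | empty => exact ⟨1, T.one_mem, fun _ _ => 0, fun 𝔉 _ _ f _ n hn => absurd hn (Finset.notMem_empty n)⟩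
  | insert a s ha ih =>
    obtain ⟨D, hD, ρ, hρ⟩ := ih (fun n hn => hs n (Finset.mem_insert_of_mem hn))
    obtain ⟨D', hD', ρ', hρ'⟩ := hs a (Finset.mem_insert_self a s)
    refine ⟨D * D', T.mul_mem hD hD', fun n l => if n = a then D * ρ' l else D' * ρ n l, ?_⟩
    intro 𝔉 _ _ f hf n hn
    by_cases hna : n = a
    · subst hna
      rw [mul_smul, hρ' 𝔉 f hf, Finset.smul_sum]
      apply Finset.sum_congr rfl
      intro l _
      simp only [if_true]
      rw [mul_smul]
    · have hns : n ∈ s := (Finset.mem_insert.1 hn).resolve_left hna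
      rw [mul_comm, mul_smul, hρ 𝔉 f hf n hns, Finset.smul_sum]
      apply Finset.sum_congr rfl
      intro l _
      simp only [if_neg hna]
      rw [mul_smul]

theorem BRed_closure {A : Type} [CommRing A] (T : Submonoid A) (L : ℕ) (b : ℤ → ℤ → A)
    (m c : ℤ) (hc : c ∈ Finset.Icc m (m + L)) (hb : b m c ∈ T)
    (h : ∀ n ∈ (Finset.Icc m (m + L)).erase c, BRed_Good T L b n) : BRed_Good T L b c := by
  obtain ⟨D, hD, ρ, hρ⟩ := BRed_common T L b _ h
  refine ⟨D * b m c, T.mul_mem hD hb,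
    fun l => -∑ n ∈ (Finset.Icc m (m + L)).erase c, b m n * ρ n l, ?_⟩
  intro 𝔉 _ _ f hf
  have h1 := hf m
  rw [← Finset.add_sum_erase _ _ hc] at h1
  have h2 : b m c • f c = -∑ n ∈ (Finset.Icc m (m + L)).erase c, b m n • f n :=
    eq_neg_of_add_eq_zero_left h1
  rw [mul_smul, h2, smul_neg, Finset.smul_sum]
  have h3 : ∀ n ∈ (Finset.Icc m (m + L)).erase c, D • b m n • f n =
      ∑ l ∈ Finset.Ico (0 : ℤ) L, (b m n * ρ n l) • f l := by
    intro n hn
    rw [smul_comm, hρ 𝔉 f hf n hn, Finset.smul_sum]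
    exact Finset.sum_congr rfl (fun l _ => (mul_smul _ _ _).symm)
  rw [Finset.sum_congr rfl h3, Finset.sum_comm, ← Finset.sum_neg_distrib]
  apply Finset.sum_congr rfl
  intro l _
  rw [neg_smul, Finset.sum_smul]

theorem BRed_nat {A : Type} [CommRing A] (T : Submonoid A) (L : ℕ) (b : ℤ → ℤ → A)
    (ht : ∀ m, b m (m + L) ∈ T) (N : ℕ) : BRed_Good T L b (N : ℤ) := by
  induction N using Nat.strong_induction_on with
  | _ N ih =>
    by_cases hN : N < L
    · refine ⟨1, T.one_mem, Pi.single (N : ℤ) 1, ?_⟩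
      intro 𝔉 _ _ f _
      rw [one_smul, Finset.sum_eq_single (N : ℤ)]
      · rw [Pi.single_eq_same, one_smul]
      · intro l _ hl
        rw [Pi.single_eq_of_ne hl, zero_smul]
      · intro hn
        exfalso
        apply hn
        rw [Finset.mem_Ico]
        constructor <;> omega
    · push Not at hN
      apply BRed_closure T L b ((N : ℤ) - L) N
      · rw [Finset.mem_Icc]; constructor <;> omega
      · have := ht ((N : ℤ) - L)
        rwa [sub_add_cancel] at this
      · intro n hn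
        rw [Finset.mem_erase, Finset.mem_Icc] at hn
        have hn0 : 0 ≤ n := by omega
        have h1 := ih n.toNat (by omega)
        rwa [Int.toNat_of_nonneg hn0] at h1

theorem BRed_neg {A : Type} [CommRing A] (T : Submonoid A) (L : ℕ) (b : ℤ → ℤ → A)
    (hb : ∀ m, b m m ∈ T) (ht : ∀ m, b m (m + L) ∈ T) (N : ℕ) : BRed_Good T L b (-(N : ℤ)) := by
  induction N using Nat.strong_induction_on with
  | _ N ih =>
    apply BRed_closure T L b (-(N : ℤ)) (-(N : ℤ))
    · rw [Finset.mem_Icc]; constructor <;> omega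
    · exact hb _
    · intro n hn
      rw [Finset.mem_erase, Finset.mem_Icc] at hn
      by_cases hn0 : 0 ≤ n
      · have h1 := BRed_nat T L b ht n.toNat
        rwa [Int.toNat_of_nonneg hn0] at h1
      · have h1 := ih (-n).toNat (by omega)
        rw [Int.toNat_of_nonneg (by omega), neg_neg] at h1
        exact h1

/-- The terms of a sequence in a module which satisfies a linear recurrence of length `L`, whose extreme
coefficients are in the multiplicative set `T`, are, after multiplication with an element of `T`, combinations of the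
terms `0, ..., L - 1`; the coefficients do not depend on the sequence.

Proof. The statement for `c ∈ [0, L)` is clear (`D = 1`, `ρ = Pi.single c 1`). For `c ≥ L`, by strong induction: let
`m := c - L`, multiply the relation `b m c • f c = -∑ n ∈ Ico m c, b m n • f n` by the product of the `D`'s of the
`n ∈ Ico m c` (`T` is closed under products). For `c < 0` downwards in the same way with the relation `m = c`. A
good way: first prove the closure statement: the set of `c` for which the conclusion holds contains `c` as soon as it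
contains all the other indices of a relation in which the coefficient of `c` is in `T`. If `L = 0` the relation is
`b c c • f c = 0`. -/
theorem rec_red {A : Type} [CommRing A] (T : Submonoid A) (L : ℕ) (b : ℤ → ℤ → A)
    (hb : ∀ m, b m m ∈ T) (ht : ∀ m, b m (m + L) ∈ T) (c : ℤ) :
    ∃ D ∈ T, ∃ ρ : ℤ → A, ∀ (𝔉 : Type) [AddCommGroup 𝔉] [Module A 𝔉] (f : ℤ → 𝔉),
      (∀ m : ℤ, ∑ n ∈ Finset.Icc m (m + L), b m n • f n = 0) →
        D • f c = ∑ l ∈ Finset.Ico (0 : ℤ) L, ρ l • f l := by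
  by_cases hc : 0 ≤ c
  · have h1 := BRed_nat T L b ht c.toNat
    rw [Int.toNat_of_nonneg hc] at h1
    exact h1
  · have h1 := BRed_neg T L b hb ht (-c).toNat
    rw [Int.toNat_of_nonneg (by omega), neg_neg] at h1
    exact h1

/-- The same for a family with two indices, which satisfies a recurrence in each of them, and for a finite
combination of its members.

Proof. For one `(p, q)`: `rec_red` in the second index for the fixed `p` gives `D • f p q = ∑_l ρ l • f p l`, and in the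
first index `D' • f p l = ∑_m ρ' m • f m l` for every `l`, with the same `D'`, `ρ'` (they depend only on `p`). So
`(D' * D) • f p q = ∑_{m,l} (ρ l * ρ' m) • f m l`. Sum over the support of `F` (induction on `F`, common
multiples). -/
theorem rec_red2 {A : Type} [CommRing A] (T : Submonoid A) (L : ℕ) (b b' : ℤ → ℤ → A)
    (hb : ∀ m, b m m ∈ T) (ht : ∀ m, b m (m + L) ∈ T) (hb' : ∀ m, b' m m ∈ T)
    (ht' : ∀ m, b' m (m + L) ∈ T) (F : (ℤ × ℤ) →₀ A) :
    ∃ D ∈ T, ∃ ρ : ℤ → ℤ → A, ∀ (𝔉 : Type) [AddCommGroup 𝔉] [Module A 𝔉] (f : ℤ → ℤ → 𝔉),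
      (∀ p m : ℤ, ∑ n ∈ Finset.Icc m (m + L), b m n • f p n = 0) →
      (∀ q m : ℤ, ∑ n ∈ Finset.Icc m (m + L), b' m n • f n q = 0) →
        (D • F.sum fun p G => G • f p.1 p.2) =
          ∑ m ∈ Finset.Ico (0 : ℤ) L, ∑ l ∈ Finset.Ico (0 : ℤ) L, ρ m l • f m l := by
  induction F using Finsupp.induction_linear with
  | zero =>
    refine ⟨1, T.one_mem, fun _ _ => 0, ?_⟩
    intro 𝔉 _ _ f _ _
    simp
  | add F₁ F₂ h₁ h₂ =>
    obtain ⟨D₁, hD₁, ρ₁, hρ₁⟩ := h₁
    obtain ⟨D₂, hD₂, ρ₂, hρ₂⟩ := h₂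
    refine ⟨D₁ * D₂, T.mul_mem hD₁ hD₂, fun m l => D₂ * ρ₁ m l + D₁ * ρ₂ m l, ?_⟩
    intro 𝔉 _ _ f hf hf'
    have e0 : ((F₁ + F₂).sum fun p G => G • f p.1 p.2) =
        (F₁.sum fun p G => G • f p.1 p.2) + F₂.sum fun p G => G • f p.1 p.2 :=
      Finsupp.sum_add_index' (h := fun (p : ℤ × ℤ) (G : A) => G • f p.1 p.2)
        (fun p => zero_smul A _) (fun p x y => add_smul x y _)
    rw [e0, smul_add]
    have e1 : (D₁ * D₂) • (F₁.sum fun p G => G • f p.1 p.2) =
        D₂ • (D₁ • (F₁.sum fun p G => G • f p.1 p.2)) := by rw [mul_comm, mul_smul]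
    have e2 : (D₁ * D₂) • (F₂.sum fun p G => G • f p.1 p.2) =
        D₁ • (D₂ • (F₂.sum fun p G => G • f p.1 p.2)) := by rw [mul_smul]
    rw [e1, e2, hρ₁ 𝔉 f hf hf', hρ₂ 𝔉 f hf hf', Finset.smul_sum, Finset.smul_sum,
      ← Finset.sum_add_distrib]
    apply Finset.sum_congr rfl
    intro m _
    rw [Finset.smul_sum, Finset.smul_sum, ← Finset.sum_add_distrib]
    apply Finset.sum_congr rfl
    intro l _
    rw [add_smul, mul_smul, mul_smul]
  | single p G =>
    obtain ⟨D₁, hD₁, ρ₁, hρ₁⟩ := rec_red T L b hb ht p.2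
    obtain ⟨D₂, hD₂, ρ₂, hρ₂⟩ := rec_red T L b' hb' ht' p.1
    refine ⟨D₂ * D₁, T.mul_mem hD₂ hD₁, fun m l => G * (ρ₁ l * ρ₂ m), ?_⟩
    intro 𝔉 _ _ f hf hf'
    have e0 : ((Finsupp.single p G).sum fun p G => G • f p.1 p.2) = G • f p.1 p.2 :=
      Finsupp.sum_single_index (h := fun (p : ℤ × ℤ) (G : A) => G • f p.1 p.2) (zero_smul A _)
    rw [e0]
    have h1 : D₁ • f p.1 p.2 = ∑ l ∈ Finset.Ico (0 : ℤ) L, ρ₁ l • f p.1 l :=
      hρ₁ 𝔉 (fun n => f p.1 n) (hf p.1)
    have h2 : ∀ l, D₂ • f p.1 l = ∑ m ∈ Finset.Ico (0 : ℤ) L, ρ₂ m • f m l := fun l =>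
      hρ₂ 𝔉 (fun n => f n l) (hf' l)
    have e1 : (D₂ * D₁) • G • f p.1 p.2 = G • D₂ • D₁ • f p.1 p.2 := by
      rw [smul_comm, mul_smul]
    rw [e1, h1, Finset.smul_sum, Finset.smul_sum, Finset.sum_comm]
    apply Finset.sum_congr rfl
    intro l _
    rw [smul_comm D₂, h2, Finset.smul_sum, Finset.smul_sum]
    apply Finset.sum_congr rfl
    intro m _
    rw [mul_smul, mul_smul]

end Pool.Agent.Wb5ab1bf
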