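import Pool.Agent.W_b5ab1bf_h80.BED
import Pool.Agent.W_b5ab1bf_h80.BRed
import Pool.Agent.W_b5ab1bf_h80.BKa

/-!
# Irreducibility (helper80)
-/

set_option autoImplicit false

noncomputable section

open scoped Polynomial
open Pool.Agent.Wb5ab1b

namespace Pool.Agent.Wb5ab1bf

variable {k : ℕ} (B : Bd k) {K : Type} [Field K] (D : KField k K)

theorem bm_h_succ (a b : ℤ) : (B.bm D).h (a + 1) (b + 1) = D.θ ((B.bm D).h a b) := by
  show D.ι (Polynomial.C (B.H (a + 1) (b + 1))) - (if a + 1 = b + 1 then D.ι Polynomial.X else 0) =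
    D.θ (D.ι (Polynomial.C (B.H a b)) - if a = b then D.ι Polynomial.X else 0)
  have h1 : ∀ F : Lau k, D.θ (D.ι (Polynomial.C F)) = D.ι (Polynomial.C (sh 1 F)) := by
    intro F
    rw [D.θ_ι]
    congr 1
    unfold shX
    rw [Polynomial.coe_mapRingHom, Polynomial.map_C]
    rfl
  have h2 : D.θ (D.ι Polynomial.X) = D.ι Polynomial.X := by
    rw [D.θ_ι]
    congr 1
    unfold shX
    rw [Polynomial.coe_mapRingHom, Polynomial.map_X]
  rw [map_sub, h1, B.H_succ]
  by_cases hab : a = b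
  · rw [if_pos hab, if_pos (by rw [hab]), h2]
  · rw [if_neg hab, if_neg (by omega), map_zero]

/-- The shift of solutions. -/
def sgV : VV B D ≃+ VV B D := (B.bm D).sig D.θ (bm_h_succ B D)

/-- Multiplication by `X` is a combination of values with Laurent coefficients: the row `a` of `h v = 0`. -/
theorem X_mul (v : VV B D) (a : ℤ) : D.ι Polynomial.X * (v : ℤ → K) a =
    ∑ c ∈ Finset.Icc (a - B.w) (a + B.w), D.ι (Polynomial.C (B.H a c)) * (v : ℤ → K) c := by
  have h1 := congrFun ((B.bm D).mem_V.1 v.2) a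
  have h2 : ∑ b ∈ Finset.Icc (a - (B.w : ℤ)) (a + B.w),
      (D.ι (Polynomial.C (B.H a b)) - if a = b then D.ι Polynomial.X else 0) *
        (v : ℤ → K) b = 0 := h1
  simp only [sub_mul, Finset.sum_sub_distrib, ite_mul, zero_mul] at h2
  rw [Finset.sum_ite_eq, if_pos (by rw [Finset.mem_Icc]; omega)] at h2
  exact (sub_eq_zero.1 h2).symm

theorem BIrr_sum_add (b b' : ℤ →₀ Lau k) (v : ℤ → K) :
    ((b + b').sum fun n F => D.ι (Polynomial.C F) * v n) =
      (b.sum fun n F => D.ι (Polynomial.C F) * v n) +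
        b'.sum fun n F => D.ι (Polynomial.C F) * v n :=
  Finsupp.sum_add_index' (fun n => by rw [map_zero, map_zero, zero_mul])
    fun n F G => by rw [map_add, map_add, add_mul]

theorem BIrr_sum_single (n : ℤ) (F : Lau k) (v : ℤ → K) :
    ((Finsupp.single n F).sum fun n F => D.ι (Polynomial.C F) * v n) =
      D.ι (Polynomial.C F) * v n :=
  Finsupp.sum_single_index (by rw [map_zero, map_zero, zero_mul])

theorem BIrr_sum_sum {ι : Type} (s : Finset ι) (b : ι → ℤ →₀ Lau k) (v : ℤ → K) :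
    ((∑ i ∈ s, b i).sum fun n F => D.ι (Polynomial.C F) * v n) =
      ∑ i ∈ s, (b i).sum fun n F => D.ι (Polynomial.C F) * v n := by
  classical
  induction s using Finset.induction_on with
  | empty => rw [Finset.sum_empty, Finset.sum_empty, Finsupp.sum_zero_index]
  | insert i s hi ih => rw [Finset.sum_insert hi, Finset.sum_insert hi, BIrr_sum_add, ih]

theorem BIrr_pow (i : ℕ) : ∀ (F : Lau k) (n : ℤ), ∃ b : ℤ →₀ Lau k, ∀ v : VV B D,
    D.ι (Polynomial.C F * Polynomial.X ^ i) * (v : ℤ → K) n =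
      b.sum fun n F => D.ι (Polynomial.C F) * (v : ℤ → K) n := by
  induction i with
  | zero =>
    intro F n
    refine ⟨Finsupp.single n F, fun v => ?_⟩
    rw [pow_zero, mul_one, BIrr_sum_single]
  | succ i ih =>
    intro F n
    choose b hb using fun c => ih (F * B.H n c) c
    refine ⟨∑ c ∈ Finset.Icc (n - (B.w : ℤ)) (n + B.w), b c, fun v => ?_⟩
    rw [BIrr_sum_sum]
    have h1 : D.ι (Polynomial.C F * Polynomial.X ^ (i + 1)) * (v : ℤ → K) n =
        D.ι (Polynomial.C F * Polynomial.X ^ i) * (D.ι Polynomial.X * (v : ℤ → K) n) := by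
      rw [pow_succ, ← mul_assoc, map_mul, mul_assoc]
    rw [h1, X_mul, Finset.mul_sum]
    refine Finset.sum_congr rfl fun c _ => ?_
    have h2 : (Polynomial.C (F * B.H n c) : (Lau k)[X]) * Polynomial.X ^ i =
        Polynomial.C F * Polynomial.X ^ i * Polynomial.C (B.H n c) := by
      rw [map_mul Polynomial.C]
      ring
    rw [← hb c v, h2, map_mul D.ι (Polynomial.C F * Polynomial.X ^ i) (Polynomial.C (B.H n c)),
      mul_assoc]

theorem BIrr_poly (G : (Lau k)[X]) (n : ℤ) : ∃ b : ℤ →₀ Lau k, ∀ v : VV B D,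
    D.ι G * (v : ℤ → K) n = b.sum fun n F => D.ι (Polynomial.C F) * (v : ℤ → K) n := by
  induction G using Polynomial.induction_on' with
  | add p q hp hq =>
    obtain ⟨b, hb⟩ := hp
    obtain ⟨b', hb'⟩ := hq
    refine ⟨b + b', fun v => ?_⟩
    rw [BIrr_sum_add, ← hb, ← hb', map_add, add_mul]
  | monomial i F =>
    rw [← Polynomial.C_mul_X_pow_eq_monomial]
    exact BIrr_pow B D i F n

/-- A combination of values with coefficients in `(Lau k)[X]` can be written with coefficients in `Lau k`.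

Proof. Induction on the coefficients: by additivity it is enough to treat `X ^ i * C F` at `n`; induction on `i`
with `X_mul`. -/
theorem red_X (a : ℤ →₀ (Lau k)[X]) : ∃ b : ℤ →₀ Lau k, ∀ v : VV B D,
    (a.sum fun n G => D.ι G * (v : ℤ → K) n) =
      b.sum fun n F => D.ι (Polynomial.C F) * (v : ℤ → K) n := by
  induction a using Finsupp.induction_linear with
  | zero => exact ⟨0, fun v => by rw [Finsupp.sum_zero_index, Finsupp.sum_zero_index]⟩
  | add a a' h h' =>
    obtain ⟨b, hb⟩ := h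
    obtain ⟨b', hb'⟩ := h'
    refine ⟨b + b', fun v => ?_⟩
    rw [BIrr_sum_add, ← hb, ← hb']
    exact Finsupp.sum_add_index' (fun n => by rw [map_zero, zero_mul])
      fun n F G => by rw [map_add, add_mul]
  | single n G =>
    obtain ⟨b, hb⟩ := BIrr_poly B D G n
    refine ⟨b, fun v => ?_⟩
    rw [← hb v, Finsupp.sum_single_index (by rw [map_zero, zero_mul])]

/-- The determinant argument: if all the values `v n`, `v ∈ U`, are determined over the fractions of Laurent
polynomials by the values in `[0, L)`, then `U = 0`.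

Proof. Let `v ∈ U`. By `X_mul` and the hypothesis (with a common denominator `d ≠ 0`) `ι (C d) * ι X * v l =
∑ l' ∈ [0, L), ι (C (A l l')) * v l'` for `l ∈ [0, L)`. So the vector of the `v l` is killed by the matrix
`ι (C d * X • 1 - C A)` over the field `K`; its determinant is `ι` of the determinant over `(Lau k)[X]`
(`RingHom.map_det`), which is not `0`: it is `≠ 0` since `det (X • 1 - C A') = charpoly A'` is monic; precisely
`det (C d * X • 1 - C A)` has the coefficient `d ^ L ≠ 0` at `X ^ L` (pass to the fraction field of `Lau k`: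
`A' = A / d`, `det = d ^ L * charpoly A'`, `Matrix.charpoly_monic`). So the values in `[0, L)` vanish
(`Matrix.eq_zero_of_mulVec_eq_zero`) and by the hypothesis all values vanish (`ι (C e) ≠ 0`). -/
theorem det_zero (U : Set (VV B D)) (L : ℕ)
    (h : ∀ c : ℤ, ∃ e : Lau k, e ≠ 0 ∧ ∃ ρ : ℤ → Lau k, ∀ v ∈ U,
      D.ι (Polynomial.C e) * (v : ℤ → K) c =
        ∑ l ∈ Finset.Ico (0 : ℤ) L, D.ι (Polynomial.C (ρ l)) * (v : ℤ → K) l)
    (v : VV B D) (hv : v ∈ U) : v = 0 := by
  classical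
  choose e he ρ hρ using h
  -- common denominator on a window
  obtain ⟨Cs, hCs⟩ : ∃ Cs : Finset ℤ, Cs = Finset.Icc (-(B.w : ℤ)) (L + B.w) := ⟨_, rfl⟩
  obtain ⟨d, hd⟩ : ∃ d : Lau k, d = ∏ c ∈ Cs, e c := ⟨_, rfl⟩
  have hd0 : d ≠ 0 := by
    rw [hd]
    exact Finset.prod_ne_zero_iff.2 fun c _ => he c
  have h1 : ∀ c ∈ Cs, D.ι (Polynomial.C d) * (v : ℤ → K) c =
      ∑ l' ∈ Finset.Ico (0 : ℤ) L,
        D.ι (Polynomial.C ((∏ c' ∈ Cs.erase c, e c') * ρ c l')) * (v : ℤ → K) l' := by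
    intro c hc
    rw [hd, ← Finset.prod_erase_mul _ _ hc, map_mul Polynomial.C, map_mul D.ι, mul_assoc,
      hρ c v hv, Finset.mul_sum]
    refine Finset.sum_congr rfl fun l' _ => ?_
    rw [map_mul Polynomial.C, map_mul D.ι, mul_assoc]
  obtain ⟨A, hA⟩ : ∃ A : ℤ → ℤ → Lau k, A = fun l l' => ∑ c ∈ Finset.Icc (l - (B.w : ℤ)) (l + B.w),
      B.H l c * ((∏ c' ∈ Cs.erase c, e c') * ρ c l') := ⟨_, rfl⟩
  have h2 : ∀ l ∈ Finset.Ico (0 : ℤ) L, D.ι (Polynomial.C d) * (D.ι Polynomial.X * (v : ℤ → K) l) =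
      ∑ l' ∈ Finset.Ico (0 : ℤ) L, D.ι (Polynomial.C (A l l')) * (v : ℤ → K) l' := by
    intro l hl
    rw [Finset.mem_Ico] at hl
    rw [X_mul, Finset.mul_sum]
    have h3 : ∀ c ∈ Finset.Icc (l - (B.w : ℤ)) (l + B.w),
        D.ι (Polynomial.C d) * (D.ι (Polynomial.C (B.H l c)) * (v : ℤ → K) c) =
          ∑ l' ∈ Finset.Ico (0 : ℤ) L, D.ι (Polynomial.C (B.H l c *
            ((∏ c' ∈ Cs.erase c, e c') * ρ c l'))) * (v : ℤ → K) l' := by
      intro c hc
      rw [Finset.mem_Icc] at hc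
      have hcC : c ∈ Cs := by
        rw [hCs, Finset.mem_Icc]
        omega
      rw [mul_left_comm, h1 c hcC, Finset.mul_sum]
      refine Finset.sum_congr rfl fun l' _ => ?_
      rw [map_mul Polynomial.C (B.H l c), map_mul D.ι, mul_assoc]
    rw [Finset.sum_congr rfl h3, Finset.sum_comm]
    refine Finset.sum_congr rfl fun l' _ => ?_
    rw [hA]
    simp only
    rw [map_sum, map_sum, Finset.sum_mul]
  -- the matrix
  obtain ⟨M, hM⟩ : ∃ M : Matrix (Fin L) (Fin L) (Lau k)[X], M =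
      (Polynomial.X : (Lau k)[X]) • (d • (1 : Matrix (Fin L) (Fin L) (Lau k))).map Polynomial.C +
        (-(Matrix.of fun i j : Fin L => A ((i : ℕ) : ℤ) ((j : ℕ) : ℤ))).map Polynomial.C :=
    ⟨_, rfl⟩
  have hdet : M.det ≠ 0 := by
    intro h0
    have h4 := Polynomial.coeff_det_X_add_C_card
      (d • (1 : Matrix (Fin L) (Fin L) (Lau k)))
      (-(Matrix.of fun i j : Fin L => A ((i : ℕ) : ℤ) ((j : ℕ) : ℤ)))
    rw [← hM, h0, Polynomial.coeff_zero, Matrix.det_smul, Matrix.det_one, mul_one] at h4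
    exact pow_ne_zero _ hd0 h4.symm
  have hMv : (M.map D.ι).mulVec (fun i : Fin L => (v : ℤ → K) ((i : ℕ) : ℤ)) = 0 := by
    funext i
    have h5 := h2 ((i : ℕ) : ℤ) (by rw [Finset.mem_Ico]; omega)
    have h6 : ∀ F : ℤ → K, ∑ l' ∈ Finset.Ico (0 : ℤ) L, F l' = ∑ j : Fin L, F ((j : ℕ) : ℤ) := by
      intro F
      rw [← Finset.sum_range fun j : ℕ => F (j : ℤ)]
      refine (Finset.sum_bij (fun (j : ℕ) _ => (j : ℤ)) ?_ ?_ ?_ ?_).symm
      · intro j hj
        rw [Finset.mem_range] at hj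
        rw [Finset.mem_Ico]
        omega
      · intro j _ j' _ hjj
        exact_mod_cast hjj
      · intro b hb
        rw [Finset.mem_Ico] at hb
        refine ⟨b.toNat, ?_, ?_⟩
        · rw [Finset.mem_range]
          omega
        · omega
      · intro j _
        rfl
    rw [h6] at h5
    rw [Matrix.mulVec, dotProduct, Pi.zero_apply]
    have h7 : ∀ j : Fin L, (M.map D.ι) i j * (v : ℤ → K) ((j : ℕ) : ℤ) =
        (if i = j then D.ι (Polynomial.C d) * (D.ι Polynomial.X * (v : ℤ → K) ((j : ℕ) : ℤ)) else 0)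
          - D.ι (Polynomial.C (A ((i : ℕ) : ℤ) ((j : ℕ) : ℤ))) * (v : ℤ → K) ((j : ℕ) : ℤ) := by
      intro j
      rw [hM, Matrix.map_apply, Matrix.add_apply, Matrix.smul_apply, Matrix.map_apply,
        Matrix.map_apply, Matrix.smul_apply, Matrix.neg_apply, Matrix.of_apply, Matrix.one_apply]
      by_cases hij : i = j
      · rw [if_pos hij, if_pos hij]
        simp only [smul_eq_mul, mul_one, map_neg, map_add, map_mul]
        ring
      · rw [if_neg hij, if_neg hij]
        simp only [smul_eq_mul, mul_zero, map_neg, map_add, map_zero]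
        ring
    rw [Finset.sum_congr rfl fun j _ => h7 j, Finset.sum_sub_distrib, Finset.sum_ite_eq,
      if_pos (Finset.mem_univ _), h5, sub_self]
  have hMd : (M.map D.ι).det ≠ 0 := by
    have h8 := RingHom.map_det D.ι M
    rw [RingHom.mapMatrix_apply] at h8
    rw [← h8]
    intro h0
    rw [← map_zero D.ι] at h0
    exact hdet (D.ι_inj h0)
  have hz := Matrix.eq_zero_of_mulVec_eq_zero hMd hMv
  have hz' : ∀ l ∈ Finset.Ico (0 : ℤ) L, (v : ℤ → K) l = 0 := by
    intro l hl
    rw [Finset.mem_Ico] at hl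
    have h9 := congrFun hz ⟨l.toNat, by omega⟩
    simp only [Pi.zero_apply] at h9
    rwa [Int.toNat_of_nonneg hl.1] at h9
  apply Subtype.ext
  funext c
  have h10 := hρ c v hv
  rw [Finset.sum_eq_zero fun l hl => by rw [hz' l hl, mul_zero]] at h10
  rcases mul_eq_zero.1 h10 with h | h
  · exfalso
    rw [← map_zero D.ι] at h
    have h11 := D.ι_inj h
    rw [Polynomial.C_eq_zero] at h11
    exact he c h11
  · rw [h]
    rfl

theorem BIrr_C_ne {F : Lau k} (hF : F ≠ 0) : D.ι (Polynomial.C F) ≠ 0 := by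
  intro h
  rw [← map_zero D.ι] at h
  have h1 := D.ι_inj h
  rw [Polynomial.C_eq_zero] at h1
  exact hF h1

/-- `rec_red` for sequences in `K`. -/
theorem BIrr_rec (L : ℕ) (b : ℤ → ℤ → Lau k) (hb : ∀ m, b m m ≠ 0)
    (ht : ∀ m, b m (m + L) ≠ 0) (c : ℤ) : ∃ e : Lau k, e ≠ 0 ∧ ∃ ρ : ℤ → Lau k, ∀ f : ℤ → K,
      (∀ m : ℤ, ∑ n ∈ Finset.Icc m (m + L), D.ι (Polynomial.C (b m n)) * f n = 0) →
        D.ι (Polynomial.C e) * f c =
          ∑ l ∈ Finset.Ico (0 : ℤ) L, D.ι (Polynomial.C (ρ l)) * f l := by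
  obtain ⟨e, he, ρ, h⟩ := rec_red (nonZeroDivisors (Lau k)) L b
    (fun m => mem_nonZeroDivisors_of_ne_zero (hb m))
    (fun m => mem_nonZeroDivisors_of_ne_zero (ht m)) c
  refine ⟨e, nonZeroDivisors.ne_zero he, ρ, fun f hf => ?_⟩
  let _ : Module (Lau k) K := Module.compHom K (D.ι.comp Polynomial.C)
  exact h K f hf

/-- The shift maps an invariant subspace onto itself. -/
theorem BIrr_onto (U : Submodule K (VV B D)) (hU : ∀ v ∈ U, sgV B D v ∈ U) (v : VV B D)
    (hv : sgV B D v ∈ U) : v ∈ U := by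
  let U' : Submodule K (VV B D) :=
    { carrier := {v | sgV B D v ∈ U}
      zero_mem' := by
        show sgV B D 0 ∈ U
        rw [map_zero]
        exact U.zero_mem
      add_mem' := by
        intro a b ha hb
        show sgV B D (a + b) ∈ U
        rw [map_add]
        exact U.add_mem ha hb
      smul_mem' := by
        intro f a ha
        show sgV B D (f • a) ∈ U
        have h1 : sgV B D (f • a) = D.θ f • sgV B D a := (B.bm D).sig_smul D.θ _ f a
        rw [h1]
        exact U.smul_mem _ ha }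
  have hle : U ≤ U' := hU
  let j : U' ≃+ U :=
    { toFun := fun x => ⟨sgV B D x, x.2⟩
      invFun := fun y => ⟨(sgV B D).symm y, by
        show sgV B D ((sgV B D).symm y) ∈ U
        rw [AddEquiv.apply_symm_apply]
        exact y.2⟩
      left_inv := fun x => Subtype.ext ((sgV B D).symm_apply_apply _)
      right_inv := fun y => Subtype.ext ((sgV B D).apply_symm_apply _)
      map_add' := fun x y => Subtype.ext (map_add (sgV B D) _ _) }
  have hr : Module.rank K U' = Module.rank K U := by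
    refine rank_eq_of_equiv_equiv D.θ j D.θ.bijective fun f x => ?_
    exact Subtype.ext ((B.bm D).sig_smul D.θ _ f x)
  have hf : Module.finrank K U = Module.finrank K U' := by
    unfold Module.finrank
    rw [hr]
  have h2 := Submodule.eq_of_le_of_finrank_eq hle hf
  rw [h2]
  exact hv

/-- The shifted relations. -/
theorem BIrr_rel (U : Submodule K (VV B D)) (hU : ∀ v ∈ U, sgV B D v ∈ U) (b : ℤ →₀ Lau k)
    (hb : ∀ v ∈ U, (b.sum fun n F => D.ι (Polynomial.C F) * (v : ℤ → K) n) = 0) (m : ℤ) :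
    ∀ v ∈ U, (b.sum fun n F => D.ι (Polynomial.C (sh m F)) * (v : ℤ → K) (n + m)) = 0 := by
  have hθC : ∀ F : Lau k, D.θ (D.ι (Polynomial.C F)) = D.ι (Polynomial.C (sh 1 F)) := by
    intro F
    have h0 : shX 1 (Polynomial.C F) = Polynomial.C (sh 1 F) := by
      unfold shX
      rw [Polynomial.coe_mapRingHom, Polynomial.map_C]
      rfl
    rw [D.θ_ι, h0]
  induction m using Int.induction_on with
  | zero =>
    intro v hv
    rw [← hb v hv]
    refine Finset.sum_congr rfl fun n _ => ?_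
    simp only [sh_zero, add_zero]
  | succ m ih =>
    intro v hv
    obtain ⟨v', hv'⟩ : ∃ v', v' = (sgV B D).symm v := ⟨_, rfl⟩
    have h1 : sgV B D v' = v := by rw [hv', AddEquiv.apply_symm_apply]
    have h2 : v' ∈ U := BIrr_onto B D U hU v' (by rw [h1]; exact hv)
    have h3 := congrArg D.θ (ih v' h2)
    rw [map_zero] at h3
    rw [← h3, Finsupp.sum, Finsupp.sum, map_sum]
    refine Finset.sum_congr rfl fun n _ => ?_
    have h4 : (v : ℤ → K) (n + ((m : ℤ) + 1)) = D.θ ((v' : ℤ → K) (n + m)) := by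
      rw [← h1]
      show D.θ ((v' : ℤ → K) (n + (m + 1) - 1)) = _
      rw [← add_assoc, add_sub_cancel_right]
    rw [map_mul, hθC, sh_sh, add_comm (1 : ℤ), h4]
  | pred m ih =>
    intro v hv
    have h3 := ih (sgV B D v) (hU v hv)
    apply D.θ.injective
    rw [map_zero, ← h3, Finsupp.sum, Finsupp.sum, map_sum]
    refine Finset.sum_congr rfl fun n _ => ?_
    have h4 : (sgV B D v : ℤ → K) (n + -(m : ℤ)) = D.θ ((v : ℤ → K) (n + (-(m : ℤ) - 1))) := by
      show D.θ ((v : ℤ → K) (n + -(m : ℤ) - 1)) = _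
      rw [add_sub_assoc]
    rw [map_mul, hθC, sh_sh, add_sub_cancel, h4]

/-- **Irreducibility.**

Proof. `sgV` maps `U` onto `U` (it is injective and semilinear and `U` is finite-dimensional: the image of a basis
of `U` is independent; or: `sgV '' U` is a subspace of `U` of the same dimension); so `(sgV.symm) v ∈ U` for
`v ∈ U`. Suppose `U ≠ ⊤`. There is a functional `f ≠ 0` on `V` which vanishes on `U`
(`Submodule.exists_le_ker_of_lt_top`). By `exists_ev` `f = ∑ a c • ev c`, multiply by a common denominator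
(`ι_frac`): `a c = ι (G c)`. By `red_X` there is `b : ℤ →₀ Lau k` with `∑ ι (C (b n)) * v n = f v` up to
the common denominator, for all `v`; `b ≠ 0` since `f ≠ 0`. For `v ∈ U` and `m : ℤ` apply this to the `(-m)`-th
power of `sgV` at `v` and then the power `m` of `D.θ`: `∑_n ι (C (sh m (b n))) * v (n + m) = 0` for all `v ∈ U`,
`m : ℤ`. Let `n₀`, `n₀ + L` be the smallest and the largest element of the support of `b`. `rec_red` for `T` = the
nonzero elements (`nonZeroDivisors (Lau k)`), `A := Lau k` acting on `𝔉 := (U → K)` through `ι ∘ C`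
(`Module.compHom`), `f n := (v ↦ v n)`, gives the hypothesis of `det_zero`. So `U = ⊥`. -/
theorem irr_V (U : Submodule K (VV B D)) (hU : ∀ v ∈ U, sgV B D v ∈ U) : U = ⊥ ∨ U = ⊤ := by
  classical
  by_cases hT : U = ⊤
  · exact Or.inr hT
  left
  obtain ⟨f, hf0, hfU⟩ := Submodule.exists_le_ker_of_lt_top U (lt_top_iff_ne_top.2 hT)
  obtain ⟨a, ha⟩ := (B.bm D).exists_ev f 0
  choose p q hq hpq using fun c => D.ι_frac (a c)
  obtain ⟨W, hW⟩ : ∃ W : Finset ℤ, W = Finset.Ico (0 : ℤ) (0 + 2 * ((B.bm D).w : ℤ)) := ⟨_, rfl⟩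
  rw [← hW] at ha
  obtain ⟨Q, hQ⟩ : ∃ Q, Q = ∏ c ∈ W, q c := ⟨_, rfl⟩
  have hQ0 : Q ≠ 0 := by
    rw [hQ]
    exact Finset.prod_ne_zero_iff.2 fun c _ => hq c
  have hQι : D.ι Q ≠ 0 := by
    intro h
    rw [← map_zero D.ι] at h
    exact hQ0 (D.ι_inj h)
  obtain ⟨b, hb⟩ := red_X B D (∑ c ∈ W, Finsupp.single c ((∏ c' ∈ W.erase c, q c') * p c))
  have hbf : ∀ v : VV B D, (b.sum fun n F => D.ι (Polynomial.C F) * (v : ℤ → K) n) =
      D.ι Q * f v := by
    intro v
    rw [← hb v]
    have h1 : ∀ s : Finset ℤ, ((∑ c ∈ s, Finsupp.single c ((∏ c' ∈ W.erase c, q c') * p c)).sum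
        fun n G => D.ι G * (v : ℤ → K) n) =
        ∑ c ∈ s, D.ι ((∏ c' ∈ W.erase c, q c') * p c) * (v : ℤ → K) c := by
      intro s
      induction s using Finset.induction_on with
      | empty => rw [Finset.sum_empty, Finset.sum_empty, Finsupp.sum_zero_index]
      | insert c s hc ih =>
        rw [Finset.sum_insert hc, Finset.sum_insert hc, Finsupp.sum_add_index'
          (fun n => by rw [map_zero, zero_mul]) (fun n F G => by rw [map_add, add_mul]), ih,
          Finsupp.sum_single_index (by rw [map_zero, zero_mul])]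
    rw [h1, ha, LinearMap.sum_apply, Finset.mul_sum]
    refine Finset.sum_congr rfl fun c hc => ?_
    rw [LinearMap.smul_apply, (B.bm D).ev_apply, smul_eq_mul, hQ,
      ← Finset.prod_erase_mul _ _ hc, map_mul D.ι, map_mul D.ι, ← hpq c]
    ring
  have hb0 : b ≠ 0 := by
    rintro rfl
    apply hf0
    refine LinearMap.ext fun v => ?_
    have h2 := hbf v
    rw [Finsupp.sum_zero_index] at h2
    rcases mul_eq_zero.1 h2.symm with h | h
    · exact absurd h hQι
    · rw [h, LinearMap.zero_apply]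
  have hbU : ∀ v ∈ U, (b.sum fun n F => D.ι (Polynomial.C F) * (v : ℤ → K) n) = 0 := by
    intro v hv
    rw [hbf v, LinearMap.mem_ker.1 (hfU hv), mul_zero]
  have hne : b.support.Nonempty := Finsupp.support_nonempty_iff.2 hb0
  obtain ⟨n₀, hn₀⟩ : ∃ n₀, n₀ = b.support.min' hne := ⟨_, rfl⟩
  obtain ⟨n₁, hn₁⟩ : ∃ n₁, n₁ = b.support.max' hne := ⟨_, rfl⟩
  have hle : n₀ ≤ n₁ := by
    rw [hn₀, hn₁]
    exact Finset.min'_le_max' _ hne
  obtain ⟨L, hL⟩ : ∃ L : ℕ, n₁ = n₀ + L := ⟨(n₁ - n₀).toNat, by omega⟩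
  have hbn₀ : b n₀ ≠ 0 := by
    rw [hn₀]
    exact Finsupp.mem_support_iff.1 (Finset.min'_mem _ hne)
  have hbn₁ : b n₁ ≠ 0 := by
    rw [hn₁]
    exact Finsupp.mem_support_iff.1 (Finset.max'_mem _ hne)
  have hsup : ∀ n ∈ b.support, n₀ ≤ n ∧ n ≤ n₁ := by
    intro n hn
    rw [hn₀, hn₁]
    exact ⟨Finset.min'_le _ _ hn, Finset.le_max' _ _ hn⟩
  have hrel : ∀ v ∈ U, ∀ m : ℤ, ∑ n ∈ Finset.Icc m (m + L),
      D.ι (Polynomial.C (sh (m - n₀) (b (n - m + n₀)))) * (v : ℤ → K) n = 0 := by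
    intro v hv m
    rw [← BIrr_rel B D U hU b hbU (m - n₀) v hv, Finsupp.sum]
    have h3 : ∑ n ∈ b.support, D.ι (Polynomial.C (sh (m - n₀) (b n))) *
        (v : ℤ → K) (n + (m - n₀)) = ∑ n ∈ Finset.Icc n₀ n₁,
          D.ι (Polynomial.C (sh (m - n₀) (b n))) * (v : ℤ → K) (n + (m - n₀)) := by
      refine Finset.sum_subset (fun n hn => Finset.mem_Icc.2 (hsup n hn)) fun n _ hn => ?_
      rw [Finsupp.notMem_support_iff.1 hn, map_zero, map_zero, map_zero, zero_mul]
    rw [h3]
    refine Finset.sum_bij (fun n _ => n - m + n₀) ?_ ?_ ?_ ?_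
    · intro n hn
      rw [Finset.mem_Icc] at hn ⊢
      omega
    · intro n _ n' _ h
      have h' : n - m + n₀ = n' - m + n₀ := h
      omega
    · intro n hn
      rw [Finset.mem_Icc] at hn
      refine ⟨n + m - n₀, ?_, ?_⟩
      · rw [Finset.mem_Icc]
        omega
      · show n + m - n₀ - m + n₀ = n
        ring
    · intro n _
      have h5 : n - m + n₀ + (m - n₀) = n := by ring
      show _ = D.ι (Polynomial.C (sh (m - n₀) (b (n - m + n₀)))) *
        (v : ℤ → K) (n - m + n₀ + (m - n₀))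
      rw [h5]
  have hfin : ∀ v ∈ U, v = 0 := by
    refine fun v hv => det_zero B D (U : Set (VV B D)) L (fun c => ?_) v hv
    obtain ⟨e, he, ρ, h⟩ := BIrr_rec D L (fun m n => sh (m - n₀) (b (n - m + n₀)))
      (fun m => by
        show sh (m - n₀) (b (m - m + n₀)) ≠ 0
        rw [sub_self, zero_add]
        exact sh_ne_zero _ hbn₀)
      (fun m => by
        show sh (m - n₀) (b (m + L - m + n₀)) ≠ 0
        have h4 : m + (L : ℤ) - m + n₀ = n₁ := by rw [hL]; ring
        rw [h4]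
        exact sh_ne_zero _ hbn₁) c
    exact ⟨e, he, ρ, fun v hv => h v (hrel v hv)⟩
  rw [Submodule.eq_bot_iff]
  exact hfin

end Pool.Agent.Wb5ab1bf
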