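import Pool.Agent.W_b5ab1bf_h80.BInt
import Pool.Agent.W_b5ab1bf_h80.BIrr
import Pool.Agent.W_b5ab1bf_h80.ATr

/-!
# Shifts of endomorphisms and of functionals (helper80)
-/

set_option autoImplicit false

noncomputable section

open scoped Polynomial
open Pool.Agent.Wb5ab1b

namespace Pool.Agent.Wb5ab1bf

variable {k : ℕ} (B : Bd k) {K : Type} [Field K] (D : KField k K)

theorem BCj_iv (S : Sys D.toDField (VV B D)) (hS : IsShift B D S) (b : ℤ) :
    S.σ ((B.bm D).iv b) = (B.bm D).iv (b + 1) := by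
  rw [← (B.bm D).sig_iv D.θ (bm_h_succ B D) b]
  apply Subtype.ext
  funext n
  rw [hS.shift, BM.sig_apply]

theorem BCj_Eb (S : Sys D.toDField (VV B D)) (hS : IsShift B D S) (b c : ℤ) :
    S.cj ((B.bm D).Eb b c) = (B.bm D).Eb (b + 1) (c + 1) := by
  refine LinearMap.ext fun v => ?_
  rw [Sys.cj_apply, BM.Eb_apply, BM.Eb_apply, S.hσ, BCj_iv B D S hS]
  congr 1
  have h1 := hS.shift (S.σ.symm v) (c + 1)
  rw [S.σ.apply_symm_apply, add_sub_cancel_right] at h1
  exact h1.symm

/-- `S.σ = sgV` by `IsShift.shift`, so `S.σ (iv b) = iv (b + 1)` (`sig_iv`) and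
`S.cj (Eb b c) v = S.σ ((S.σ.symm v) c • iv b) = v (c + 1) • iv (b + 1)`; semilinearity `cj_smul`, `θ_ι`. -/
theorem cj_eI (S : Sys D.toDField (VV B D)) (hS : IsShift B D S) (F : (ℤ × ℤ) →₀ (Lau k)[X]) :
    S.cj (eI B D F) = eI B D (shF 1 F) := by
  induction F using Finsupp.induction_linear with
  | zero => rw [eI_zero', map_zero, shF_zero', eI_zero']
  | add F G hF hG => rw [eI_add, map_add, hF, hG, shF_add, eI_add]
  | single p G =>
    rw [eI_single, shF_single, eI_single, Sys.cj_smul, D.θ_ι, BCj_Eb B D S hS]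

theorem shF_shF (i j : ℤ) (F : (ℤ × ℤ) →₀ (Lau k)[X]) : shF i (shF j F) = shF (i + j) F := by
  induction F using Finsupp.induction_linear with
  | zero => rw [shF_zero', shF_zero', shF_zero']
  | add F G hF hG => rw [shF_add, shF_add, shF_add, hF, hG]
  | single p G =>
    rw [shF_single, shF_single, shF_single, shX_shX, add_assoc, add_assoc, add_comm j i]

theorem shF_id (F : (ℤ × ℤ) →₀ (Lau k)[X]) : shF 0 F = F := by
  induction F using Finsupp.induction_linear with
  | zero => rw [shF_zero']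
  | add F G hF hG => rw [shF_add, hF, hG]
  | single p G => rw [shF_single, shX_zero, add_zero, add_zero]

theorem shF_smul (i : ℤ) (g : (Lau k)[X]) (F : (ℤ × ℤ) →₀ (Lau k)[X]) :
    shF i (g • F) = shX i g • shF i F := by
  induction F using Finsupp.induction_linear with
  | zero => rw [smul_zero, shF_zero', smul_zero]
  | add F G hF hG => rw [smul_add, shF_add, shF_add, smul_add, hF, hG]
  | single p G =>
    rw [Finsupp.smul_single, shF_single, shF_single, Finsupp.smul_single, smul_eq_mul,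
      smul_eq_mul, map_mul]

/-- All powers. For `i < 0`: `S.cj (eI (shF (-1) F)) = eI F` by `cj_eI` and `shF_shF`. -/
theorem cj_pow_eI (S : Sys D.toDField (VV B D)) (hS : IsShift B D S) (i : ℤ)
    (F : (ℤ × ℤ) →₀ (Lau k)[X]) : (S.cj ^ i) (eI B D F) = eI B D (shF i F) := by
  induction i using Int.induction_on generalizing F with
  | zero =>
    rw [zpow_zero, shF_id]
    rfl
  | succ n ih =>
    rw [zpow_add_one, RingAut.mul_apply, cj_eI B D S hS, ih, shF_shF]
  | pred n ih =>
    have h1 : (S.cj⁻¹ : RingAut _) (eI B D F) = eI B D (shF (-1) F) := by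
      apply S.cj.injective
      rw [cj_eI B D S hS, shF_shF, add_neg_cancel, shF_id]
      exact S.cj.apply_symm_apply _
    rw [zpow_sub_one, RingAut.mul_apply, h1, ih, shF_shF, sub_eq_add_neg]

/-- The power `i` of `D.θ` at a polynomial. -/
theorem θ_pow_ι (i : ℤ) (g : (Lau k)[X]) : ((D.θ : RingAut K) ^ i) (D.ι g) = D.ι (shX i g) := by
  induction i using Int.induction_on generalizing g with
  | zero =>
    rw [zpow_zero, shX_zero]
    rfl
  | succ n ih =>
    rw [zpow_add_one, RingAut.mul_apply, D.θ_ι, ih, shX_shX]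
  | pred n ih =>
    have h1 : ((D.θ : RingAut K)⁻¹ : RingAut K) (D.ι g) = D.ι (shX (-1) g) := by
      apply D.θ.injective
      rw [D.θ_ι, shX_shX, add_neg_cancel, shX_zero]
      exact D.θ.apply_symm_apply _
    rw [zpow_sub_one, RingAut.mul_apply, h1, ih, shX_shX, sub_eq_add_neg]

/-- From `cj_smul`. -/
theorem cj_pow_smul (S : Sys D.toDField (VV B D)) (i : ℤ) (f : K) (x : Module.End K (VV B D)) :
    (S.cj ^ i) (f • x) = ((D.θ : RingAut K) ^ i) f • (S.cj ^ i) x := by
  induction i using Int.induction_on generalizing f x with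
  | zero =>
    rw [zpow_zero, zpow_zero]
    rfl
  | succ n ih =>
    rw [zpow_add_one, zpow_add_one, RingAut.mul_apply, RingAut.mul_apply, RingAut.mul_apply,
      Sys.cj_smul, ih]
  | pred n ih =>
    rw [zpow_sub_one, zpow_sub_one, RingAut.mul_apply, RingAut.mul_apply, RingAut.mul_apply]
    have h1 : (S.cj⁻¹ : RingAut _) (f • x) =
        ((D.θ : RingAut K)⁻¹ : RingAut K) f • (S.cj⁻¹ : RingAut _) x := Sys.cj_symm_smul S f x
    rw [h1, ih]

/-- From `trace_cj`. -/
theorem trace_cj_pow (S : Sys D.toDField (VV B D)) (i : ℤ) (x : Module.End K (VV B D)) :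
    LinearMap.trace K (VV B D) ((S.cj ^ i) x) =
      ((D.θ : RingAut K) ^ i) (LinearMap.trace K (VV B D) x) := by
  induction i using Int.induction_on generalizing x with
  | zero =>
    rw [zpow_zero, zpow_zero]
    rfl
  | succ n ih =>
    rw [zpow_add_one, zpow_add_one, RingAut.mul_apply, RingAut.mul_apply, ih, trace_cj]
  | pred n ih =>
    rw [zpow_sub_one, zpow_sub_one, RingAut.mul_apply, RingAut.mul_apply, ih]
    congr 1
    exact trace_cj_symm S x

/-- From `P_shX`, by linearity. -/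
theorem eP_shF (i : ℤ) (F : (ℤ × ℤ) →₀ (Lau k)[X]) (g : (Lau k)[X]) :
    (eP B (shF i F)).app (shX i g) = sh i ((eP B F).app g) := by
  induction F using Finsupp.induction_linear with
  | zero =>
    rw [shF_zero', eP_zero']
    exact (map_zero (sh i)).symm
  | add F G hF hG =>
    rw [shF_add, eP_add, eP_add, Fn.app_add, Fn.app_add, map_add, hF, hG]
  | single p G =>
    rw [shF_single, eP_single, eP_single, Fn.app_smul, Fn.app_smul, ← map_mul, Bd.P_shX]

/-- From `AC_of_shX`. -/
theorem eP_shF_mem (M : ℝ) (i : ℤ) (F : (ℤ × ℤ) →₀ (Lau k)[X]) (h : eP B F ∈ AC k M) :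
    eP B (shF i F) ∈ AC k M := by
  exact AC_of_shX i (eP_shF B i F) h

/-- `NgS` is stable: if `ι κ • x = eI F` then `ι (shX i κ) • (S.cj ^ i) x = eI (shF i F)`. -/
theorem NgS_cj (S : Sys D.toDField (VV B D)) (hS : IsShift B D S) (M : ℝ) (i : ℤ)
    (x : Module.End K (VV B D)) (h : x ∈ NgS B D M) : (S.cj ^ i) x ∈ NgS B D M := by
  obtain ⟨κ, hκ, F, h1, h2⟩ := (mem_NgS B D M x).1 h
  refine (mem_NgS B D M _).2 ⟨shX i κ, shX_ne_zero i hκ, shF i F, ?_, eP_shF_mem B M i F h2⟩
  rw [← θ_pow_ι, ← cj_pow_smul, h1, cj_pow_eI B D S hS]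

end Pool.Agent.Wb5ab1bf
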