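import Pool.Agent.W_b5ab1bf_h80.BConD

/-!
# Properties of the connections (helper80)
-/

set_option autoImplicit false

noncomputable section

namespace Pool.Agent.Wb5ab1bf

variable {K : Type} [Field K] (B : BM K)

/-- Commuting derivations give commuting connections (same window): `win_ext`, `con_apply`. -/
theorem BM.con_comm (m : ℤ) (d d' : Derivation ℤ K K) (h : ∀ f, d (d' f) = d' (d f)) (v : B.V) :
    B.con m d (B.con m d' v) = B.con m d' (B.con m d v) := by
  refine B.win_ext m fun n h1 h2 => ?_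
  rw [B.con_apply m d _ n h1 h2, B.con_apply m d' _ n h1 h2, B.con_apply m d' _ n h1 h2,
    B.con_apply m d _ n h1 h2, h]

theorem BM.BCon_row (v : B.V) (b : ℤ) :
    ∑ c ∈ Finset.Icc (b - (B.w : ℤ)) (b + B.w), B.h b c * (v : ℤ → K) c = 0 :=
  congrFun (B.mem_V.1 v.2) b

theorem BM.BCon_row_der (d : Derivation ℤ K K) (v : B.V) (b : ℤ) :
    ∑ c ∈ Finset.Icc (b - (B.w : ℤ)) (b + B.w), B.h b c * d ((v : ℤ → K) c) =
      -∑ c ∈ Finset.Icc (b - (B.w : ℤ)) (b + B.w), d (B.h b c) * (v : ℤ → K) c := by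
  have h1 := congrArg d (B.BCon_row v b)
  rw [map_sum, map_zero] at h1
  rw [eq_neg_iff_add_eq_zero, ← Finset.sum_add_distrib, ← h1]
  refine Finset.sum_congr rfl fun c _ => ?_
  rw [Derivation.leibniz, smul_eq_mul, smul_eq_mul]
  ring

/-- Moving the window by one.

Proof. Let `b := m + w`, `u := con m d v`, `u' := con (m + 1) d v`. They coincide in `[m + 1, m + 2w)`, so by
`eq_smul_iv` `u' - u = (h b (b + w) * (u' - u) (b + w)) • iv b`. Here `u' (b + w) = d (v (b + w))`
(`b + w = m + 2w`) and row `b` for `u` and for `v`: `∑ c, h b c * u c = 0` and (derivative of the row of `v`)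
`∑ c, (d (h b c) * v c + h b c * d (v c)) = 0`; for `c < b + w` `u c = d (v c)`. Hence
`h b (b + w) * (u' - u) (b + w) = h b (b + w) * d (v (b + w)) + ∑ c < b + w, h b c * d (v c) =
-∑ c, d (h b c) * v c`. -/
theorem BM.con_succ (m : ℤ) (d : Derivation ℤ K K) (v : B.V) :
    B.con (m + 1) d v = B.con m d v -
      (∑ c ∈ Finset.Icc (m + B.w - B.w) (m + B.w + B.w), d (B.h (m + B.w) c) * (v : ℤ → K) c) •
        B.iv (m + B.w) := by
  have hw := B.w_pos
  have h1 := B.eq_smul_iv (B.con (m + 1) d v - B.con m d v) (m + B.w) (by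
    intro n hn1 hn2
    rw [Submodule.coe_sub, Pi.sub_apply, B.con_apply m d v n (by omega) (by omega),
      B.con_apply (m + 1) d v n (by omega) (by omega), sub_self])
  have h2 : B.h (m + B.w) (m + B.w + B.w) *
      ((B.con (m + 1) d v - B.con m d v : B.V) : ℤ → K) (m + B.w + B.w) =
      -∑ c ∈ Finset.Icc (m + (B.w : ℤ) - B.w) (m + B.w + B.w),
        d (B.h (m + B.w) c) * (v : ℤ → K) c := by
    rw [← B.BCon_row_der d v (m + B.w)]
    have h3 := B.BCon_row (B.con m d v) (m + B.w)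
    have h4 : ∑ c ∈ Finset.Icc (m + (B.w : ℤ) - B.w) (m + B.w + B.w),
        B.h (m + B.w) c * (d ((v : ℤ → K) c) - (B.con m d v : ℤ → K) c) =
        B.h (m + B.w) (m + B.w + B.w) *
          (d ((v : ℤ → K) (m + B.w + B.w)) - (B.con m d v : ℤ → K) (m + B.w + B.w)) := by
      apply Finset.sum_eq_single (m + (B.w : ℤ) + B.w)
      · intro c hc hne
        rw [Finset.mem_Icc] at hc
        rw [B.con_apply m d v c (by omega) (by omega), sub_self, mul_zero]
      · intro hc
        exact absurd (Finset.mem_Icc.2 ⟨by omega, le_refl _⟩) hc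
    have h5 : ∑ c ∈ Finset.Icc (m + (B.w : ℤ) - B.w) (m + B.w + B.w),
        B.h (m + B.w) c * (d ((v : ℤ → K) c) - (B.con m d v : ℤ → K) c) =
        ∑ c ∈ Finset.Icc (m + (B.w : ℤ) - B.w) (m + B.w + B.w),
          B.h (m + B.w) c * d ((v : ℤ → K) c) := by
      simp only [mul_sub, Finset.sum_sub_distrib]
      rw [h3, sub_zero]
    rw [← h5, h4, Submodule.coe_sub, Pi.sub_apply,
      B.con_apply (m + 1) d v (m + B.w + B.w) (by omega) (by omega)]
  rw [h2] at h1
  rw [sub_eq_iff_eq_add] at h1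
  rw [h1]
  have h6 : ∀ (S : K) (x y : B.V), (-S) • x + y = y - S • x := fun S x y => by
    apply Subtype.ext
    funext n
    rw [Submodule.coe_add, Submodule.coe_sub, Submodule.coe_smul, Submodule.coe_smul,
      Pi.add_apply, Pi.sub_apply, Pi.smul_apply, Pi.smul_apply, smul_eq_mul, smul_eq_mul]
    ring
  exact h6 _ _ _

/-- The connections of all windows `m, ..., n` coincide if the derivatives of the entries of the rows
`m + w, ..., n + w - 1` vanish. Induction with `con_succ`. -/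
theorem BM.con_eq (m n : ℤ) (hmn : m ≤ n) (d : Derivation ℤ K K)
    (h : ∀ a, m + B.w ≤ a → a < n + B.w → ∀ c, d (B.h a c) = 0) : B.con n d = B.con m d := by
  obtain ⟨k, rfl⟩ := Int.le.dest hmn
  clear hmn
  induction k with
  | zero => simp
  | succ k ih =>
    have ih' := ih (fun a h1 h2 c => h a h1 (by push_cast; omega) c)
    rw [← ih']
    refine AddMonoidHom.ext fun v => ?_
    have h1 := B.con_succ (m + k) d v
    have h2 : ∑ c ∈ Finset.Icc (m + (k : ℤ) + B.w - B.w) (m + k + B.w + B.w),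
        d (B.h (m + k + B.w) c) * (v : ℤ → K) c = 0 := by
      refine Finset.sum_eq_zero fun c _ => ?_
      rw [h (m + k + B.w) (by omega) (by push_cast; omega) c, zero_mul]
    rw [h2, zero_smul, sub_zero] at h1
    have h3 : m + ((k + 1 : ℕ) : ℤ) = m + (k : ℤ) + 1 := by push_cast; ring
    rw [h3, h1]

/-- The difference of the connections of two windows. Induction with `con_succ`. -/
theorem BM.con_sub (m n : ℤ) (hmn : m ≤ n) (d : Derivation ℤ K K) (v : B.V) :
    B.con m d v - B.con n d v = ∑ b ∈ Finset.Ico (m + B.w) (n + B.w),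
      (∑ c ∈ Finset.Icc (b - B.w) (b + B.w), d (B.h b c) * (v : ℤ → K) c) • B.iv b := by
  obtain ⟨k, rfl⟩ := Int.le.dest hmn
  clear hmn
  induction k with
  | zero => simp
  | succ k ih =>
    have h3 : m + ((k + 1 : ℕ) : ℤ) = m + (k : ℤ) + 1 := by push_cast; ring
    have h4 : Finset.Ico (m + (B.w : ℤ)) (m + k + 1 + B.w) =
        insert (m + (k : ℤ) + B.w) (Finset.Ico (m + (B.w : ℤ)) (m + k + B.w)) := by
      ext x
      simp only [Finset.mem_insert, Finset.mem_Ico]
      omega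
    rw [h3, h4, Finset.sum_insert (by simp), ← ih, B.con_succ (m + k) d v]
    abel

/-- The shift moves the window: `win_ext` in the window `[m + 1, m + 1 + 2w)`, `sig_apply`, `con_apply`. -/
theorem BM.sig_con (θ : K ≃+* K) (hθ : ∀ a b, B.h (a + 1) (b + 1) = θ (B.h a b))
    (d d' : Derivation ℤ K K) (h : ∀ f, θ (d f) = d' (θ f)) (m : ℤ) (v : B.V) :
    B.sig θ hθ (B.con m d v) = B.con (m + 1) d' (B.sig θ hθ v) := by
  refine B.win_ext (m + 1) fun n h1 h2 => ?_
  rw [B.sig_apply, B.con_apply m d v (n - 1) (by omega) (by omega),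
    B.con_apply (m + 1) d' _ n h1 h2, B.sig_apply, h]

theorem BM.BCon_shift (θ : K ≃+* K) (hθ : ∀ a b, B.h (a + 1) (b + 1) = θ (B.h a b)) (g : ℤ → K)
    (a : ℤ) : bop B.w B.h (fun n => θ (g (n - 1))) a = θ (bop B.w B.h g (a - 1)) := by
  show ∑ b ∈ Finset.Icc (a - (B.w : ℤ)) (a + B.w), B.h a b * θ (g (b - 1)) =
    θ (∑ b ∈ Finset.Icc (a - 1 - (B.w : ℤ)) (a - 1 + B.w), B.h (a - 1) b * g b)
  rw [map_sum]
  refine Finset.sum_bij (fun b _ => b - 1) ?_ ?_ ?_ ?_
  · intro b hb
    rw [Finset.mem_Icc] at hb ⊢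
    omega
  · intro b _ b' _ h
    simpa using h
  · intro b hb
    refine ⟨b + 1, ?_, by ring⟩
    rw [Finset.mem_Icc] at hb ⊢
    omega
  · intro b _
    rw [map_mul, ← hθ, sub_add_cancel, sub_add_cancel]

theorem BM.BCon_single (θ : K ≃+* K) (b a : ℤ) :
    θ ((Pi.single b (1 : K) : ℤ → K) (a - 1)) = (Pi.single (b + 1) (1 : K) : ℤ → K) a := by
  rw [Pi.single_apply, Pi.single_apply]
  by_cases h : a = b + 1
  · rw [if_pos h, if_pos (by omega), map_one]
  · rw [if_neg h, if_neg (by omega), map_zero]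

/-- The shift of `Gp b` is `Gp (b + 1)`: both solve `h u = δ_{b+1}` and vanish to the left (`left_zero`). -/
theorem BM.Gp_succ (θ : K ≃+* K) (hθ : ∀ a b, B.h (a + 1) (b + 1) = θ (B.h a b)) (b c : ℤ) :
    B.Gp (b + 1) (c + 1) = θ (B.Gp b c) := by
  have h1 := B.left_zero (B.Gp (b + 1) - fun n => θ (B.Gp b (n - 1))) (by
    rw [map_sub, B.Gp_eq, sub_eq_zero]
    funext a
    rw [B.BCon_shift θ hθ, B.Gp_eq, BM.BCon_single]) (b + 1 + B.w) (by
    intro n hn
    rw [Pi.sub_apply, B.Gp_left (b + 1) n hn, B.Gp_left b (n - 1) (by omega), map_zero, sub_zero])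
  have h2 := congrFun h1 (c + 1)
  rw [Pi.sub_apply, Pi.zero_apply, sub_eq_zero, add_sub_cancel_right] at h2
  exact h2

theorem BM.Gm_succ (θ : K ≃+* K) (hθ : ∀ a b, B.h (a + 1) (b + 1) = θ (B.h a b)) (b c : ℤ) :
    B.Gm (b + 1) (c + 1) = θ (B.Gm b c) := by
  have h1 := B.right_zero (B.Gm (b + 1) - fun n => θ (B.Gm b (n - 1))) (by
    rw [map_sub, B.Gm_eq, sub_eq_zero]
    funext a
    rw [B.BCon_shift θ hθ, B.Gm_eq, BM.BCon_single]) (b + 1 - B.w) (by
    intro n hn
    rw [Pi.sub_apply, B.Gm_right (b + 1) n hn, B.Gm_right b (n - 1) (by omega), map_zero,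
      sub_zero])
  have h2 := congrFun h1 (c + 1)
  rw [Pi.sub_apply, Pi.zero_apply, sub_eq_zero, add_sub_cancel_right] at h2
  exact h2

theorem BM.sig_iv (θ : K ≃+* K) (hθ : ∀ a b, B.h (a + 1) (b + 1) = θ (B.h a b)) (b : ℤ) :
    B.sig θ hθ (B.iv b) = B.iv (b + 1) := by
  apply Subtype.ext
  funext n
  rw [B.sig_apply, B.iv_apply, B.iv_apply, map_sub]
  have h1 := B.Gp_succ θ hθ b (n - 1)
  have h2 := B.Gm_succ θ hθ b (n - 1)
  rw [sub_add_cancel] at h1 h2
  rw [h1, h2]

end Pool.Agent.Wb5ab1bf
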