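import Pool.Agent.W_b5ab1bf_h80.BBas

/-!
# Connections on the space of solutions (helper80)
-/

set_option autoImplicit false

noncomputable section

namespace Pool.Agent.Wb5ab1bf

variable {K : Type} [Field K] (B : BM K)

/-- The connection over the derivation `d` for which the solutions with `d`-constant values in the window
`[m, m + 2w)` are parallel. -/
def BM.con (m : ℤ) (d : Derivation ℤ K K) : B.V →+ B.V where
  toFun v := B.sol m fun n => d ((v : ℤ → K) n)
  map_zero' := by
    refine B.win_ext m fun n h1 h2 => ?_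
    rw [B.sol_apply m _ n h1 h2]
    simp
  map_add' v v' := by
    refine B.win_ext m fun n h1 h2 => ?_
    rw [B.sol_apply m _ n h1 h2, Submodule.coe_add, Submodule.coe_add, Pi.add_apply, Pi.add_apply,
      B.sol_apply m _ n h1 h2, B.sol_apply m _ n h1 h2, map_add]

theorem BM.con_apply (m : ℤ) (d : Derivation ℤ K K) (v : B.V) (n : ℤ) (h1 : m ≤ n)
    (h2 : n < m + 2 * B.w) : (B.con m d v : ℤ → K) n = d ((v : ℤ → K) n) :=
  B.sol_apply m _ n h1 h2

theorem BM.con_isCon (m : ℤ) (d : Derivation ℤ K K) : IsCon d (B.con m d) := by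
  intro f v
  refine B.win_ext m fun n h1 h2 => ?_
  rw [B.con_apply m d _ n h1 h2, Submodule.coe_smul, Submodule.coe_add, Submodule.coe_smul,
    Submodule.coe_smul, Pi.smul_apply, Pi.add_apply, Pi.smul_apply, Pi.smul_apply,
    B.con_apply m d v n h1 h2, smul_eq_mul, smul_eq_mul, smul_eq_mul, Derivation.leibniz,
    smul_eq_mul, smul_eq_mul]
  ring

/-- The shift of solutions, for a matrix with `h (a + 1) (b + 1) = θ (h a b)`. -/
def BM.sig (θ : K ≃+* K) (hθ : ∀ a b, B.h (a + 1) (b + 1) = θ (B.h a b)) : B.V ≃+ B.V where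
  toFun v := ⟨fun n => θ ((v : ℤ → K) (n - 1)), by
    rw [B.mem_V]
    funext a
    have h1 := congrFun (B.mem_V.1 v.2) (a - 1)
    have h2 : bop B.w B.h (fun n => θ ((v : ℤ → K) (n - 1))) a = θ (bop B.w B.h v (a - 1)) := by
      show ∑ b ∈ Finset.Icc (a - (B.w : ℤ)) (a + B.w), B.h a b * θ ((v : ℤ → K) (b - 1)) =
        θ (∑ b ∈ Finset.Icc (a - 1 - (B.w : ℤ)) (a - 1 + B.w), B.h (a - 1) b * (v : ℤ → K) b)
      rw [map_sum]
      refine Finset.sum_bij (fun b _ => b - 1) ?_ ?_ ?_ ?_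
      · intro b hb
        rw [Finset.mem_Icc] at hb ⊢
        omega
      · intro b _ b' _ h
        simpa using h
      · intro b hb
        refine ⟨b + 1, ?_, by ring⟩
        rw [Finset.mem_Icc] at hb ⊢
        omega
      · intro b _
        rw [map_mul, ← hθ, sub_add_cancel, sub_add_cancel]
    rw [h2, h1, Pi.zero_apply, map_zero, Pi.zero_apply]⟩
  invFun v := ⟨fun n => θ.symm ((v : ℤ → K) (n + 1)), by
    rw [B.mem_V]
    funext a
    have h1 := congrFun (B.mem_V.1 v.2) (a + 1)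
    apply θ.injective
    have h2 : θ (bop B.w B.h (fun n => θ.symm ((v : ℤ → K) (n + 1))) a) =
        bop B.w B.h v (a + 1) := by
      show θ (∑ b ∈ Finset.Icc (a - (B.w : ℤ)) (a + B.w),
          B.h a b * θ.symm ((v : ℤ → K) (b + 1))) =
        ∑ b ∈ Finset.Icc (a + 1 - (B.w : ℤ)) (a + 1 + B.w), B.h (a + 1) b * (v : ℤ → K) b
      rw [map_sum]
      refine Finset.sum_bij (fun b _ => b + 1) ?_ ?_ ?_ ?_
      · intro b hb
        rw [Finset.mem_Icc] at hb ⊢
        omega
      · intro b _ b' _ h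
        simpa using h
      · intro b hb
        refine ⟨b - 1, ?_, by ring⟩
        rw [Finset.mem_Icc] at hb ⊢
        omega
      · intro b _
        rw [map_mul, ← hθ, θ.apply_symm_apply]
    rw [h2, h1, Pi.zero_apply, Pi.zero_apply, map_zero]⟩
  left_inv v := by
    apply Subtype.ext
    funext n
    show θ.symm (θ ((v : ℤ → K) (n + 1 - 1))) = (v : ℤ → K) n
    rw [θ.symm_apply_apply, add_sub_cancel_right]
  right_inv v := by
    apply Subtype.ext
    funext n
    show θ (θ.symm ((v : ℤ → K) (n - 1 + 1))) = (v : ℤ → K) n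
    rw [θ.apply_symm_apply, sub_add_cancel]
  map_add' v v' := by
    apply Subtype.ext
    funext n
    show θ (((v + v' : B.V) : ℤ → K) (n - 1)) = θ ((v : ℤ → K) (n - 1)) + θ ((v' : ℤ → K) (n - 1))
    rw [Submodule.coe_add, Pi.add_apply, map_add]

theorem BM.sig_apply (θ : K ≃+* K) (hθ : ∀ a b, B.h (a + 1) (b + 1) = θ (B.h a b)) (v : B.V)
    (n : ℤ) : (B.sig θ hθ v : ℤ → K) n = θ ((v : ℤ → K) (n - 1)) := rfl

theorem BM.sig_smul (θ : K ≃+* K) (hθ : ∀ a b, B.h (a + 1) (b + 1) = θ (B.h a b)) (f : K) (v : B.V) :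
    B.sig θ hθ (f • v) = θ f • B.sig θ hθ v := by
  apply Subtype.ext
  funext n
  show θ (((f • v : B.V) : ℤ → K) (n - 1)) = θ f * θ ((v : ℤ → K) (n - 1))
  rw [Submodule.coe_smul, Pi.smul_apply, smul_eq_mul, map_mul]

end Pool.Agent.Wb5ab1bf
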