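import Pool.Agent.W_b5ab1bf_h80.ADefs
import Pool.Agent.W_b5ab1b_h80.GSh
import Pool.Agent.W_b5ab1b_h80.GField

/-!
# Band matrices: definitions (helper80)

* `bop w h`, `bpw w h n a b`, `bent w h a b`, `bP w h a b`: the band operator with matrix `h`, the entries of its
  powers, of polynomials in it, and the entry as a functional on polynomials.
* `derX j`: coefficientwise derivative of polynomials with Laurent coefficients.
* `KField k K`: the field `K` of fractions of `(Lau k)[X]` with its shift and its derivations.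
* `Bd k`: a stationary band matrix with Laurent polynomials as entries.
* `BM K`: a band matrix over a field with nonzero extreme diagonals.
-/

set_option autoImplicit false

noncomputable section

open scoped Polynomial
open Pool.Agent.Wb5ab1b

namespace Pool.Agent.Wb5ab1bf

section Band

variable {A : Type} [CommRing A]

/-- The band operator `(bop w h ψ) a = ∑_{|b - a| ≤ w} h a b * ψ b`. -/
def bop (w : ℕ) (h : ℤ → ℤ → A) : (ℤ → A) →ₗ[A] (ℤ → A) where
  toFun ψ := fun a => ∑ b ∈ Finset.Icc (a - w) (a + w), h a b * ψ b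
  map_add' ψ φ := by
    funext a
    simp only [Pi.add_apply, mul_add, Finset.sum_add_distrib]
  map_smul' c ψ := by
    funext a
    simp only [Pi.smul_apply, smul_eq_mul, RingHom.id_apply, Finset.mul_sum]
    refine Finset.sum_congr rfl fun b _ => ?_
    ring

/-- The entry `(a, b)` of the `n`-th power of the band operator. -/
def bpw (w : ℕ) (h : ℤ → ℤ → A) (n : ℕ) (a b : ℤ) : A := ((bop w h) ^ n) (Pi.single b 1) a

/-- The entry `(a, b)` of a polynomial in the band operator. -/
def bent (w : ℕ) (h : ℤ → ℤ → A) (a b : ℤ) : A[X] →ₗ[A] A :=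
  (LinearMap.proj a : (ℤ → A) →ₗ[A] A) ∘ₗ
    (LinearMap.applyₗ (R := A) (Pi.single b 1 : ℤ → A)) ∘ₗ
      (Polynomial.aeval (bop w h) : A[X] →ₐ[A] Module.End A (ℤ → A)).toLinearMap

/-- The entry `(a, b)` as a functional on polynomials. -/
def bP (w : ℕ) (h : ℤ → ℤ → A) (a b : ℤ) : Fn A := bent w h a b

theorem bP_app (w : ℕ) (h : ℤ → ℤ → A) (a b : ℤ) (g : A[X]) :
    (bP w h a b).app g = bent w h a b g := rfl

end Band

variable {k : ℕ}

/-- Coefficientwise derivative. -/
def derX (j : ℤ × Fin k) (p : (Lau k)[X]) : (Lau k)[X] :=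
  p.sum fun n a => Polynomial.monomial n (der j a)

/-- Complex polynomials as polynomials with Laurent coefficients. -/
def cX (k : ℕ) : ℂ[X] →+* (Lau k)[X] := Polynomial.mapRingHom (algebraMap ℂ (Lau k))

/-- Laurent series over the fractions of Laurent polynomials. -/
abbrev LS (k : ℕ) : Type := LaurentSeries (FractionRing (Lau k))

/-- The field of fractions of `(Lau k)[X]`, with its shift `θ`, the derivations `δ j` and `δX`, the embedding
`up` into Laurent series in `1 / X` and the coefficientwise shift `thL` of Laurent series. -/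
structure KField (k : ℕ) (K : Type) [Field K] extends DField k K where
  /-- the inclusion of the polynomials -/
  ι : (Lau k)[X] →+* K
  ι_inj : Function.Injective ι
  ι_frac : ∀ f : K, ∃ p q : (Lau k)[X], q ≠ 0 ∧ ι q * f = ι p
  θ_ι : ∀ p, θ (ι p) = ι (shX 1 p)
  δ_ι : ∀ j p, δ j (ι p) = ι (derX j p)
  δX_ι : ∀ p, δX (ι p) = ι (Polynomial.derivative p)
  cst_frac : ∀ f : K, (∀ j, δ j f = 0) → ∃ p q : ℂ[X], q ≠ 0 ∧ ι (cX k q) * f = ι (cX k p)
  /-- expansion at infinity -/
  up : K →+* LS k
  up_C : ∀ F : Lau k, up (ι (Polynomial.C F)) =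
    HahnSeries.C (algebraMap (Lau k) (FractionRing (Lau k)) F)
  up_X : up (ι Polynomial.X) = HahnSeries.single (-1 : ℤ) (1 : FractionRing (Lau k))
  /-- the shift of fractions of Laurent polynomials -/
  th : RingAut (FractionRing (Lau k))
  th_alg : ∀ F : Lau k, th (algebraMap (Lau k) (FractionRing (Lau k)) F) =
    algebraMap (Lau k) (FractionRing (Lau k)) (sh 1 F)
  th_fix : ∀ (n : ℕ) (f : FractionRing (Lau k)), 0 < n → (th ^ n) f = f →
    ∃ c : ℂ, f = algebraMap (Lau k) (FractionRing (Lau k)) (algebraMap ℂ (Lau k) c)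
  /-- the coefficientwise shift of Laurent series -/
  thL : RingAut (LS k)
  thL_coeff : ∀ (f : LS k) (n : ℤ), (thL f).coeff n = th (f.coeff n)
  up_θ : ∀ f : K, up (θ f) = thL (up f)

/-- A stationary band matrix: the entry `(a, b)` is `sh a (c (b - a))`. -/
structure Bd (k : ℕ) where
  /-- the band width -/
  w : ℕ
  w_pos : 0 < w
  /-- the diagonals -/
  c : ℤ → Lau k
  c_zero : ∀ m : ℤ, (w : ℤ) < |m| → c m = 0
  c_top : c (w : ℤ) ≠ 0
  c_bot : c (-(w : ℤ)) ≠ 0
  /-- the range of the sites -/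
  r : ℕ
  within : ∀ m, Within r (c m)

/-- The entries. -/
def Bd.H (B : Bd k) (a b : ℤ) : Lau k := sh a (B.c (b - a))

/-- The matrix is Hermitian on the torus. -/
def Bd.Herm (B : Bd k) : Prop :=
  ∀ (θ : ℤ × Fin k → ℝ) (a b : ℤ), ev θ (B.H b a) = (starRingEnd ℂ) (ev θ (B.H a b))

/-- The row sums are at most `R` on the torus. -/
def Bd.Bdd (B : Bd k) (R : ℝ) : Prop :=
  ∀ (θ : ℤ × Fin k → ℝ) (a : ℤ), ∑ b ∈ Finset.Icc (a - B.w) (a + B.w), ‖ev θ (B.H a b)‖ ≤ R

/-- The entry `(a, b)` as a functional. -/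
def Bd.P (B : Bd k) (a b : ℤ) : Fn (Lau k) := bP B.w B.H a b

/-- A band matrix over a field. -/
structure BM (K : Type) [Field K] where
  /-- the band width -/
  w : ℕ
  w_pos : 0 < w
  /-- the entries -/
  h : ℤ → ℤ → K
  h_zero : ∀ a b : ℤ, (w : ℤ) < |b - a| → h a b = 0
  h_top : ∀ a : ℤ, h a (a + w) ≠ 0
  h_bot : ∀ a : ℤ, h a (a - w) ≠ 0

/-- The solutions of `h v = 0`. -/
def BM.V {K : Type} [Field K] (B : BM K) : Submodule K (ℤ → K) := LinearMap.ker (bop B.w B.h)

theorem Bd.H_succ (B : Bd k) (n a b : ℤ) : B.H (a + n) (b + n) = sh n (B.H a b) := by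
  unfold Bd.H
  rw [sh_sh, add_sub_add_right_eq_sub, add_comm n a]

theorem Bd.H_zero (B : Bd k) {a b : ℤ} (h : (B.w : ℤ) < |b - a|) : B.H a b = 0 := by
  unfold Bd.H
  rw [B.c_zero _ h, map_zero]

theorem Bd.H_top (B : Bd k) (a : ℤ) : B.H a (a + B.w) ≠ 0 := by
  unfold Bd.H
  rw [add_sub_cancel_left]
  exact sh_ne_zero _ B.c_top

theorem Bd.H_bot (B : Bd k) (a : ℤ) : B.H a (a - B.w) ≠ 0 := by
  unfold Bd.H
  rw [sub_sub_cancel_left]
  exact sh_ne_zero _ B.c_bot

/-- The band matrix `H - X` over the field. -/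
def Bd.bm (B : Bd k) {K : Type} [Field K] (D : KField k K) : BM K where
  w := B.w
  w_pos := B.w_pos
  h a b := D.ι (Polynomial.C (B.H a b)) - if a = b then D.ι Polynomial.X else 0
  h_zero a b h := by
    have hab : a ≠ b := by
      rintro rfl
      rw [sub_self, abs_zero] at h
      omega
    rw [if_neg hab, B.H_zero h, map_zero, map_zero, sub_zero]
  h_top a := by
    have hab : a ≠ a + (B.w : ℤ) := by
      have := B.w_pos
      omega
    rw [if_neg hab, sub_zero]
    intro h
    rw [← map_zero D.ι] at h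
    have h1 := D.ι_inj h
    rw [Polynomial.C_eq_zero] at h1
    exact B.H_top a h1
  h_bot a := by
    have hab : a ≠ a - (B.w : ℤ) := by
      have := B.w_pos
      omega
    rw [if_neg hab, sub_zero]
    intro h
    rw [← map_zero D.ι] at h
    have h1 := D.ι_inj h
    rw [Polynomial.C_eq_zero] at h1
    exact B.H_bot a h1

end Pool.Agent.Wb5ab1bf
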