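import Pool.Agent.W_b5ab1bf_h80.BCon
import Pool.Agent.W_b5ab1bf_h80.BBndP
import Pool.Agent.W_b5ab1bf_h80.ABas

/-!
# Endomorphisms and functionals with given coefficients: definitions (helper80)

* `eI B D F = ∑ F (b, c) • Eb b c`, `eP B F = ∑ F (b, c) • P c b` for `F : (ℤ × ℤ) →₀ (Lau k)[X]`.
* `shF i F`: the shift. `Dfs B j`: the coefficients `der j (H b c)`.
* `IsShift B D S`: the system `S` is the one of the band matrix.
* `NgS B D M`: the endomorphisms which are represented by absolutely continuous functionals.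
-/

set_option autoImplicit false

noncomputable section

open scoped Polynomial
open Pool.Agent.Wb5ab1b

namespace Pool.Agent.Wb5ab1bf

variable {k : ℕ} (B : Bd k) {K : Type} [Field K] (D : KField k K)

/-- The space of solutions. -/
abbrev VV : Submodule K (ℤ → K) := (B.bm D).V

/-- The endomorphism with the coefficients `F`. -/
def eI (F : (ℤ × ℤ) →₀ (Lau k)[X]) : Module.End K (VV B D) :=
  F.sum fun p G => D.ι G • (B.bm D).Eb p.1 p.2

/-- The functional with the coefficients `F`. -/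
def eP (F : (ℤ × ℤ) →₀ (Lau k)[X]) : Fn (Lau k) := F.sum fun p G => G • B.P p.2 p.1

/-- The shift of the coefficients. -/
def shF (i : ℤ) (F : (ℤ × ℤ) →₀ (Lau k)[X]) : (ℤ × ℤ) →₀ (Lau k)[X] :=
  F.sum fun p G => Finsupp.single (p.1 + i, p.2 + i) (shX i G)

/-- The coefficients of the derivative of the matrix. -/
def Dfs (j : ℤ × Fin k) : (ℤ × ℤ) →₀ (Lau k)[X] :=
  ∑ b ∈ Finset.Icc (j.1 - B.r) (j.1 + B.r), ∑ c ∈ Finset.Icc (b - B.w) (b + B.w),
    Finsupp.single (b, c) (Polynomial.C (der j (B.H b c)))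

/-- The properties of the system of the band matrix which are used. -/
structure IsShift (S : Sys D.toDField (VV B D)) : Prop where
  shift : ∀ (v : VV B D) (n : ℤ), (S.σ v : ℤ → K) n = D.θ ((v : ℤ → K) (n - 1))
  E1_eq : S.E1 = (B.bm D).Eb B.w B.w
  Dj_eq : ∀ j, S.Dj j = eI B D (Dfs B j)

theorem eI_add (F G : (ℤ × ℤ) →₀ (Lau k)[X]) : eI B D (F + G) = eI B D F + eI B D G := by
  unfold eI
  refine Finsupp.sum_add_index' (fun p => by simp) fun p a b => ?_
  rw [map_add, add_smul]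

theorem eP_add (F G : (ℤ × ℤ) →₀ (Lau k)[X]) : eP B (F + G) = eP B F + eP B G := by
  unfold eP
  refine Finsupp.sum_add_index' (fun p => by simp) fun p a b => ?_
  rw [add_smul]

theorem eI_zero' : eI B D 0 = 0 := Finsupp.sum_zero_index

theorem eP_zero' : eP B 0 = 0 := Finsupp.sum_zero_index

theorem eI_single (p : ℤ × ℤ) (G : (Lau k)[X]) :
    eI B D (Finsupp.single p G) = D.ι G • (B.bm D).Eb p.1 p.2 := by
  unfold eI
  rw [Finsupp.sum_single_index (by simp)]

theorem eP_single (p : ℤ × ℤ) (G : (Lau k)[X]) :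
    eP B (Finsupp.single p G) = G • B.P p.2 p.1 := by
  unfold eP
  rw [Finsupp.sum_single_index (by simp)]

theorem eI_smul (g : (Lau k)[X]) (F : (ℤ × ℤ) →₀ (Lau k)[X]) :
    eI B D (g • F) = D.ι g • eI B D F := by
  induction F using Finsupp.induction_linear with
  | zero => rw [smul_zero, eI_zero', smul_zero]
  | add F G hF hG => rw [smul_add, eI_add, hF, hG, eI_add, smul_add]
  | single p G => rw [Finsupp.smul_single, eI_single, eI_single, smul_eq_mul, map_mul, mul_smul]

theorem eP_smul (g : (Lau k)[X]) (F : (ℤ × ℤ) →₀ (Lau k)[X]) :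
    eP B (g • F) = g • eP B F := by
  induction F using Finsupp.induction_linear with
  | zero => rw [smul_zero, eP_zero', smul_zero]
  | add F G hF hG => rw [smul_add, eP_add, hF, hG, eP_add, smul_add]
  | single p G => rw [Finsupp.smul_single, eP_single, eP_single, smul_eq_mul, mul_smul]

theorem shF_add (i : ℤ) (F G : (ℤ × ℤ) →₀ (Lau k)[X]) : shF i (F + G) = shF i F + shF i G := by
  unfold shF
  refine Finsupp.sum_add_index' (fun p => by simp) fun p a b => ?_
  rw [map_add, Finsupp.single_add]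

theorem shF_zero' (i : ℤ) : shF (k := k) i 0 = 0 := Finsupp.sum_zero_index

theorem shF_single (i : ℤ) (p : ℤ × ℤ) (G : (Lau k)[X]) :
    shF i (Finsupp.single p G) = Finsupp.single (p.1 + i, p.2 + i) (shX i G) := by
  unfold shF
  rw [Finsupp.sum_single_index (by simp)]

/-- The endomorphisms `x` such that `ι κ • x = eI F` with `κ ≠ 0` and `eP F` absolutely continuous. -/
def NgS (M : ℝ) : Submodule K (Module.End K (VV B D)) where
  carrier := {x | ∃ κ : (Lau k)[X], κ ≠ 0 ∧ ∃ F, D.ι κ • x = eI B D F ∧ eP B F ∈ AC k M}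
  zero_mem' := ⟨1, one_ne_zero, 0, by rw [smul_zero, eI_zero'], by
    rw [eP_zero']
    exact zero_mem _⟩
  add_mem' := by
    rintro x y ⟨κ, hκ, F, h1, h2⟩ ⟨κ', hκ', F', h1', h2'⟩
    refine ⟨κ * κ', mul_ne_zero hκ hκ', κ' • F + κ • F', ?_, ?_⟩
    · rw [eI_add, eI_smul, eI_smul, ← h1, ← h1', smul_add, map_mul, smul_smul, smul_smul,
        mul_comm (D.ι κ') (D.ι κ)]
    · rw [eP_add, eP_smul, eP_smul]
      exact add_mem (Submodule.smul_mem _ _ h2) (Submodule.smul_mem _ _ h2')
  smul_mem' := by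
    rintro f x ⟨κ, hκ, F, h1, h2⟩
    obtain ⟨p, q, hq, h3⟩ := D.ι_frac f
    refine ⟨κ * q, mul_ne_zero hκ hq, p • F, ?_, ?_⟩
    · rw [eI_smul, ← h1, ← h3, smul_smul, smul_smul, map_mul]
      congr 1
      ring
    · rw [eP_smul]
      exact Submodule.smul_mem _ _ h2

theorem mem_NgS (M : ℝ) (x : Module.End K (VV B D)) : x ∈ NgS B D M ↔
    ∃ κ : (Lau k)[X], κ ≠ 0 ∧ ∃ F, D.ι κ • x = eI B D F ∧ eP B F ∈ AC k M := Iff.rfl

end Pool.Agent.Wb5ab1bf
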