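import Pool.Agent.W_b5ab1bf_h80.BKap
import Pool.Agent.W_b5ab1bf_h80.AMain

/-!
# The algebraic conclusion (helper80)
-/

set_option autoImplicit false

noncomputable section

open scoped Polynomial
open Pool.Agent.Wb5ab1b

namespace Pool.Agent.Wb5ab1bf

variable {k : ℕ} (B : Bd k) {K : Type} [Field K] (D : KField k K)

/-- The coefficients which appear in the conclusion. -/
def Ffin (κ : (Lau k)[X]) (B₀ : (ℤ × ℤ) →₀ (Lau k)[X]) (n : ℕ) : (ℤ × ℤ) →₀ (Lau k)[X] :=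
  (κ * shX n κ) • (∑ j ∈ Finset.range n, Finsupp.single ((B.w : ℤ) + j, (B.w : ℤ) + j) 1) -
    shX n κ • B₀ + κ • shF n B₀

theorem BFin_tele {R : Type} [Ring R] (c : RingAut R) (E Z : R) (n : ℕ) :
    ∑ j ∈ Finset.range n, (c ^ (j : ℤ)) (E - (Z - c Z)) =
      ∑ j ∈ Finset.range n, (c ^ (j : ℤ)) E - (Z - (c ^ (n : ℤ)) Z) := by
  have h5 : ∀ j : ℕ, (c ^ (j : ℤ)) (E - (Z - c Z)) = (c ^ (j : ℤ)) E -
      ((c ^ (j : ℤ)) Z - (c ^ ((j + 1 : ℕ) : ℤ)) Z) := by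
    intro j
    have h6 : (c ^ ((j + 1 : ℕ) : ℤ)) Z = (c ^ (j : ℤ)) (c Z) := by
      push_cast
      rw [zpow_add_one, RingAut.mul_apply]
    rw [map_sub, map_sub, h6]
  simp only [h5]
  rw [Finset.sum_sub_distrib, Finset.sum_range_sub' (fun j : ℕ => (c ^ (j : ℤ)) Z) n]
  rw [Nat.cast_zero, zpow_zero, RingAut.one_apply]

theorem BFin_fin {K M : Type} [Field K] [AddCommGroup M] [Module K M] (c : K) (x y z : M) :
    c • x - c • y + c • z = c • (x - (y - z)) := by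
  rw [smul_sub, smul_sub]
  abel

/-- The telescoping sum.

Proof. `x := S.E1 - (Z - S.cj Z)`. Induction on `n`:
`∑ j ∈ range n, (S.cj ^ j) S.E1 - (Z - (S.cj ^ n) Z) = ∑ j ∈ range n, (S.cj ^ j) x`. With `E1_eq`, `cj_pow_eI`:
`(S.cj ^ j) S.E1 = eI (single (w + j, w + j) 1)`. Multiply by `ι (κ * shX n κ)` and use `ι κ • Z = eI B₀`,
`ι (shX n κ) • (S.cj ^ n) Z = eI (shF n B₀)` (`cj_pow_smul`, `θ_pow_ι`). -/
theorem eI_Ffin (S : Sys D.toDField (VV B D)) (hS : IsShift B D S) (Z : Module.End K (VV B D))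
    (κ : (Lau k)[X]) (B₀ : (ℤ × ℤ) →₀ (Lau k)[X]) (h : D.ι κ • Z = eI B D B₀) (n : ℕ) :
    eI B D (Ffin B κ B₀ n) = D.ι (κ * shX n κ) •
      ∑ j ∈ Finset.range n, (S.cj ^ (j : ℤ)) (S.E1 - (Z - S.cj Z)) := by
  have h1 : eI B D (∑ j ∈ Finset.range n, Finsupp.single ((B.w : ℤ) + j, (B.w : ℤ) + j) 1) =
      ∑ j ∈ Finset.range n, (S.cj ^ (j : ℤ)) S.E1 := by
    have h2 : eI B D (∑ j ∈ Finset.range n, Finsupp.single ((B.w : ℤ) + j, (B.w : ℤ) + j) 1) =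
        ∑ j ∈ Finset.range n, eI B D (Finsupp.single ((B.w : ℤ) + j, (B.w : ℤ) + j) 1) :=
      map_sum (AddMonoidHom.mk' (eI B D) (eI_add B D)) _ _
    rw [h2]
    refine Finset.sum_congr rfl fun j _ => ?_
    have h3 : S.E1 = eI B D (Finsupp.single ((B.w : ℤ), (B.w : ℤ)) 1) := by
      rw [eI_single, map_one, one_smul, hS.E1_eq]
    rw [h3, cj_pow_eI B D S hS, shF_single, map_one]
  have h4 : ∑ j ∈ Finset.range n, (S.cj ^ (j : ℤ)) (S.E1 - (Z - S.cj Z)) =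
      ∑ j ∈ Finset.range n, (S.cj ^ (j : ℤ)) S.E1 - (Z - (S.cj ^ (n : ℤ)) Z) :=
    BFin_tele S.cj S.E1 Z n
  have h6 : D.ι κ • eI B D (shF n B₀) = D.ι (κ * shX n κ) • (S.cj ^ (n : ℤ)) Z := by
    rw [← cj_pow_eI B D S hS, ← h, cj_pow_smul, θ_pow_ι, smul_smul, ← map_mul]
  have h7 : D.ι (shX n κ) • eI B D B₀ = D.ι (κ * shX n κ) • Z := by
    rw [← h, smul_smul, ← map_mul, mul_comm]
  unfold Ffin
  rw [eI_add, BKap_eI_sub, eI_smul, eI_smul, eI_smul, h1, h6, h7, h4]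
  exact BFin_fin (M := Module.End K (VV B D)) (D.ι (κ * shX n κ))
    (∑ j ∈ Finset.range n, (S.cj ^ (j : ℤ)) S.E1) Z ((S.cj ^ (n : ℤ)) Z)

/-- **The algebraic conclusion.**

Proof. `thmA` for `NgS B D M` gives `Z` with `x := S.E1 - (Z - S.cj Z) ∈ NgS` (`h1` with `hS.Dj_eq`: `eI (Dfs j)` is in
`NgS` with `κ = 1`). `exists_eI` for `Z`: `κ`, `B₀`. By `eI_Ffin` and `NgS_cj` `eI (Ffin κ B₀ n) ∈ NgS`.
`exists_kap'`. -/
theorem alg_main [CharZero K] (S : Sys D.toDField (VV B D)) (hS : IsShift B D S) (M : ℝ)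
    (h1 : ∀ j, eP B (Dfs B j) ∈ AC k M) (h2 : ∀ x ∈ S.fn, x ∈ NgS B D M) :
    ∃ κ κ' : (Lau k)[X], κ ≠ 0 ∧ κ' ≠ 0 ∧ ∃ B₀ : (ℤ × ℤ) →₀ (Lau k)[X], ∀ (n : ℕ) (i : ℤ),
      ∃ b : Lau k, b ≠ 0 ∧ (Polynomial.C b * shX i κ') • eP B (Ffin B κ B₀ n) ∈ AC k M := by
  obtain ⟨Z, hZ⟩ := thmA S (NgS B D M) (fun j => by
    rw [hS.Dj_eq, mem_NgS]
    exact ⟨1, one_ne_zero, Dfs B j, by rw [map_one, one_smul], h1 j⟩) h2
  obtain ⟨κ, hκ, B₀, hB⟩ := exists_eI B D Z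
  obtain ⟨κ', hκ', h3⟩ := exists_kap' B D S hS M
  refine ⟨κ, κ', hκ, hκ', B₀, fun n i => h3 _ ?_ i⟩
  rw [eI_Ffin B D S hS Z κ B₀ hB n]
  exact Submodule.smul_mem _ _ (Submodule.sum_mem _ fun j _ => NgS_cj B D S hS M j _ hZ)

end Pool.Agent.Wb5ab1bf
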