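import Pool.Agent.W_b5ab1bf_h80.BED
import Pool.Agent.W_b5ab1bf_h80.BRed

/-!
# Integrality, representation of endomorphisms and the kernel of `eI` (helper80)
-/

set_option autoImplicit false

noncomputable section

open scoped Polynomial
open Pool.Agent.Wb5ab1b

namespace Pool.Agent.Wb5ab1bf

variable {k : ℕ}

/-- The fractions with a denominator in `Lau k`. -/
def intR {K : Type} [Field K] (D : KField k K) : Subring K where
  carrier := {f | ∃ b : Lau k, b ≠ 0 ∧ ∃ G : (Lau k)[X], D.ι (Polynomial.C b) * f = D.ι G}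
  mul_mem' := by
    rintro f g ⟨b, hb, G, h1⟩ ⟨b', hb', G', h2⟩
    refine ⟨b * b', mul_ne_zero hb hb', G * G', ?_⟩
    rw [map_mul, map_mul, map_mul, ← h1, ← h2]
    ring
  one_mem' := ⟨1, one_ne_zero, 1, by simp⟩
  add_mem' := by
    rintro f g ⟨b, hb, G, h1⟩ ⟨b', hb', G', h2⟩
    refine ⟨b * b', mul_ne_zero hb hb', Polynomial.C b' * G + Polynomial.C b * G', ?_⟩
    rw [map_mul, map_mul, map_add, map_mul, map_mul, ← h1, ← h2]
    ring
  zero_mem' := ⟨1, one_ne_zero, 0, by simp⟩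
  neg_mem' := by
    rintro f ⟨b, hb, G, h1⟩
    refine ⟨b, hb, -G, ?_⟩
    rw [map_neg, ← h1]
    ring

variable (B : Bd k) {K : Type} [Field K] (D : KField k K)

theorem ι_mem_intR (G : (Lau k)[X]) : D.ι G ∈ intR D := ⟨1, one_ne_zero, G, by simp⟩

theorem h_mem_intR (a b : ℤ) : (B.bm D).h a b ∈ intR D := by
  have h1 : (B.bm D).h a b = D.ι (Polynomial.C (B.H a b) - if a = b then Polynomial.X else 0) := by
    show D.ι (Polynomial.C (B.H a b)) - (if a = b then D.ι Polynomial.X else 0) = _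
    split_ifs with h
    · rw [map_sub]
    · rw [map_sub, map_zero]
  rw [h1]
  exact ι_mem_intR D _

/-- `h a (a + w) = ι (C (H a (a + w)))`: take this denominator. -/
theorem h_top_inv_mem (a : ℤ) : ((B.bm D).h a (a + (B.bm D).w))⁻¹ ∈ intR D := by
  have hab : a ≠ a + (B.w : ℤ) := by
    have := B.w_pos
    omega
  have h1 : (B.bm D).h a (a + (B.bm D).w) = D.ι (Polynomial.C (B.H a (a + B.w))) := by
    show D.ι (Polynomial.C (B.H a (a + B.w))) - (if a = a + (B.w : ℤ) then D.ι Polynomial.X else 0)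
      = _
    rw [if_neg hab, sub_zero]
  refine ⟨B.H a (a + B.w), B.H_top a, 1, ?_⟩
  rw [h1, map_one]
  refine mul_inv_cancel₀ ?_
  rw [← h1]
  exact (B.bm D).h_top a

theorem h_bot_inv_mem (a : ℤ) : ((B.bm D).h a (a - (B.bm D).w))⁻¹ ∈ intR D := by
  have hab : a ≠ a - (B.w : ℤ) := by
    have := B.w_pos
    omega
  have h1 : (B.bm D).h a (a - (B.bm D).w) = D.ι (Polynomial.C (B.H a (a - B.w))) := by
    show D.ι (Polynomial.C (B.H a (a - B.w))) - (if a = a - (B.w : ℤ) then D.ι Polynomial.X else 0)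
      = _
    rw [if_neg hab, sub_zero]
  refine ⟨B.H a (a - B.w), B.H_bot a, 1, ?_⟩
  rw [h1, map_one]
  refine mul_inv_cancel₀ ?_
  rw [← h1]
  exact (B.bm D).h_bot a

/-- `Gp_mem`, `Gm_mem`. -/
theorem Gm_mem_intR (b c : ℤ) : (B.bm D).Gm b c ∈ intR D :=
  (B.bm D).Gm_mem _ (h_mem_intR B D) (h_bot_inv_mem B D) b c

theorem Gp_mem_intR (b c : ℤ) : (B.bm D).Gp b c ∈ intR D :=
  (B.bm D).Gp_mem _ (h_mem_intR B D) (h_top_inv_mem B D) b c

theorem BInt_iv (b c : ℤ) : ((B.bm D).iv b : ℤ → K) c ∈ intR D := by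
  rw [BM.iv_apply]
  exact sub_mem (Gp_mem_intR B D b c) (Gm_mem_intR B D b c)

/-- The trace of `eI F * eI G` is integral: by bilinearity and `trace_Eb`, `Eb_apply`, it is a combination of the
`iv b' c * iv b c'`. -/
theorem trace_mem_intR (F G : (ℤ × ℤ) →₀ (Lau k)[X]) :
    LinearMap.trace K (VV B D) (eI B D F * eI B D G) ∈ intR D := by
  induction F using Finsupp.induction_linear with
  | zero =>
    rw [eI_zero', zero_mul, map_zero]
    exact zero_mem _
  | add F F' hF hF' =>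
    rw [eI_add, add_mul, map_add]
    exact add_mem hF hF'
  | single p P =>
    induction G using Finsupp.induction_linear with
    | zero =>
      rw [eI_zero', mul_zero, map_zero]
      exact zero_mem _
    | add G G' hG hG' =>
      rw [eI_add, mul_add, map_add]
      exact add_mem hG hG'
    | single q Q =>
      rw [eI_single, eI_single, smul_mul_smul_comm, map_smul, BM.trace_Eb, BM.Eb_apply,
        smul_eq_mul]
      refine mul_mem (mul_mem (ι_mem_intR D _) (ι_mem_intR D _)) ?_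
      exact mul_mem (BInt_iv B D _ _) (BInt_iv B D _ _)

/-- the endomorphisms which are, up to a denominator, of the form `eI F` -/
def BInt_P (x : Module.End K (VV B D)) : Prop :=
  ∃ κ : (Lau k)[X], κ ≠ 0 ∧ ∃ F, D.ι κ • x = eI B D F

theorem BInt_P_zero : BInt_P B D 0 := ⟨1, one_ne_zero, 0, by rw [smul_zero, eI_zero']⟩

theorem BInt_P_add {x y : Module.End K (VV B D)} (hx : BInt_P B D x) (hy : BInt_P B D y) :
    BInt_P B D (x + y) := by
  obtain ⟨κ, hκ, F, h⟩ := hx
  obtain ⟨κ', hκ', F', h'⟩ := hy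
  refine ⟨κ * κ', mul_ne_zero hκ hκ', κ' • F + κ • F', ?_⟩
  rw [eI_add, eI_smul, eI_smul, ← h, ← h', smul_add, map_mul, smul_smul, smul_smul,
    mul_comm (D.ι κ') (D.ι κ)]

theorem BInt_P_Eb (a : K) (b c : ℤ) : BInt_P B D (a • (B.bm D).Eb b c) := by
  obtain ⟨p, q, hq, h⟩ := D.ι_frac a
  refine ⟨q, hq, Finsupp.single (b, c) p, ?_⟩
  rw [eI_single, smul_smul, h]

theorem BInt_P_sum {ι' : Type} (s : Finset ι') (f : ι' → Module.End K (VV B D))
    (h : ∀ i ∈ s, BInt_P B D (f i)) : BInt_P B D (∑ i ∈ s, f i) :=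
  Finset.sum_induction _ (BInt_P B D) (fun _ _ => BInt_P_add B D) (BInt_P_zero B D) h

/-- Every endomorphism is, up to a denominator, of the form `eI F` (`exists_Eb`, `ι_frac`). -/
theorem exists_eI (x : Module.End K (VV B D)) :
    ∃ κ : (Lau k)[X], κ ≠ 0 ∧ ∃ F, D.ι κ • x = eI B D F := by
  obtain ⟨a, ha⟩ := (B.bm D).exists_Eb x
  rw [ha]
  exact BInt_P_sum B D _ _ fun b _ => BInt_P_sum B D _ _ fun c _ => BInt_P_Eb B D _ b c

/-- The same for finitely many endomorphisms, with a common denominator. -/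
theorem exists_eI_fin (n : ℕ) (x : Fin n → Module.End K (VV B D)) :
    ∃ κ : (Lau k)[X], κ ≠ 0 ∧ ∀ i, ∃ F, D.ι κ • x i = eI B D F := by
  choose κ hκ F hF using fun i => exists_eI B D (x i)
  refine ⟨∏ i, κ i, Finset.prod_ne_zero_iff.2 fun i _ => hκ i, fun i => ?_⟩
  obtain ⟨m, hm⟩ := Finset.dvd_prod_of_mem κ (Finset.mem_univ i)
  refine ⟨m • F i, ?_⟩
  rw [hm, eI_smul, ← hF i, smul_smul, map_mul, mul_comm]

/-- the nonzero constants -/
def BInt_T (k : ℕ) : Submonoid (Lau k)[X] where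
  carrier := {f | ∃ d : Lau k, d ≠ 0 ∧ f = Polynomial.C d}
  one_mem' := ⟨1, one_ne_zero, Polynomial.C_1.symm⟩
  mul_mem' := by
    rintro _ _ ⟨d, hd, rfl⟩ ⟨d', hd', rfl⟩
    exact ⟨d * d', mul_ne_zero hd hd', Polynomial.C_mul.symm⟩

/-- row coefficients -/
def BInt_r (m n : ℤ) : (Lau k)[X] :=
  Polynomial.C (B.H (m + B.w) n) - if m + B.w = n then Polynomial.X else 0

/-- column coefficients -/
def BInt_c (m n : ℤ) : (Lau k)[X] :=
  Polynomial.C (B.H n (m + B.w)) - if n = m + B.w then Polynomial.X else 0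

theorem BInt_r_ι (m n : ℤ) : D.ι (BInt_r B m n) = (B.bm D).h (m + B.w) n := by
  show D.ι (Polynomial.C (B.H (m + B.w) n) - if m + B.w = n then Polynomial.X else 0) =
    D.ι (Polynomial.C (B.H (m + B.w) n)) - (if m + B.w = n then D.ι Polynomial.X else 0)
  split_ifs with h
  · rw [map_sub]
  · rw [map_sub, map_zero]

theorem BInt_c_ι (m n : ℤ) : D.ι (BInt_c B m n) = (B.bm D).h n (m + B.w) := by
  show D.ι (Polynomial.C (B.H n (m + B.w)) - if n = m + B.w then Polynomial.X else 0) =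
    D.ι (Polynomial.C (B.H n (m + B.w))) - (if n = m + B.w then D.ι Polynomial.X else 0)
  split_ifs with h
  · rw [map_sub]
  · rw [map_sub, map_zero]

/-- **The kernel of `eI`.**

Proof. `rec_red2` for `A := (Lau k)[X]`, `T := {C d | d ≠ 0}` (the image of `nonZeroDivisors (Lau k)` under
`Polynomial.C`), `L := 2 w`, `b m n := C (H (m + w) n) - if m + w = n then X else 0`,
`b' m n := C (H n (m + w)) - if n = m + w then X else 0` (`H_top`, `H_bot`) and the given `F`. Apply it (1) to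
`𝔉 := Module.End K (VV B D)` with the module structure `g • x := ι g • x` (`Module.compHom`) and `f b c := Eb b c`
(`ev_row` and `iv_col`: `Eb b c v = v c • iv b`), and (2) to `𝔉 := Fn (Lau k)`, `f b c := B.P c b` (`P_row`,
`P_col`). From (1) and `eI F = 0`, `Eb_indep`: all `ρ m l = 0` (`m, l ∈ [0, 2w)`); then (2) gives
`C d • eP F = 0`. -/
theorem eI_zero (F : (ℤ × ℤ) →₀ (Lau k)[X]) (h : eI B D F = 0) :
    ∃ b : Lau k, b ≠ 0 ∧ (Polynomial.C b : (Lau k)[X]) • eP B F = 0 := by
  have hw := B.w_pos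
  have hL : ((2 * B.w : ℕ) : ℤ) = 2 * (B.w : ℤ) := by push_cast; ring
  obtain ⟨d, ⟨d', hd', rfl⟩, ρ, hρ⟩ := rec_red2 (BInt_T k) (2 * B.w) (BInt_r B) (BInt_c B)
    (fun m => by
      refine ⟨B.H (m + B.w) m, ?_, ?_⟩
      · have h1 := B.H_bot (m + B.w)
        rwa [add_sub_cancel_right] at h1
      · unfold BInt_r
        rw [if_neg (by omega), sub_zero])
    (fun m => by
      refine ⟨B.H (m + B.w) (m + (2 * B.w : ℕ)), ?_, ?_⟩
      · have h1 := B.H_top (m + B.w)
        have h2 : m + (B.w : ℤ) + B.w = m + (2 * B.w : ℕ) := by rw [hL]; ring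
        rwa [h2] at h1
      · unfold BInt_r
        rw [if_neg (by rw [hL]; omega), sub_zero])
    (fun m => by
      refine ⟨B.H m (m + B.w), B.H_top m, ?_⟩
      unfold BInt_c
      rw [if_neg (by omega), sub_zero])
    (fun m => by
      refine ⟨B.H (m + (2 * B.w : ℕ)) (m + B.w), ?_, ?_⟩
      · have h1 := B.H_bot (m + (2 * B.w : ℕ))
        have h2 : m + ((2 * B.w : ℕ) : ℤ) - B.w = m + B.w := by rw [hL]; ring
        rwa [h2] at h1
      · unfold BInt_c
        rw [if_neg (by rw [hL]; omega), sub_zero]) F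
  have hIcc : ∀ m : ℤ, Finset.Icc m (m + (2 * B.w : ℕ)) =
      Finset.Icc (m + B.w - B.w) (m + B.w + B.w) := by
    intro m
    rw [hL]
    congr 1 <;> ring
  have hρ0 : ∀ m l : ℤ, 0 ≤ m → m < 2 * B.w → 0 ≤ l → l < 2 * B.w → ρ m l = 0 := by
    let inst : Module (Lau k)[X] (Module.End K (VV B D)) := Module.compHom _ D.ι
    have hsm : ∀ (g : (Lau k)[X]) (x : Module.End K (VV B D)), g • x = D.ι g • x :=
      fun g x => rfl
    have h1 := hρ (Module.End K (VV B D)) (fun b c => (B.bm D).Eb b c)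
      (fun p m => by
        rw [hIcc]
        refine LinearMap.ext fun v => ?_
        have h2 := congrArg (fun f : VV B D →ₗ[K] K => f v) ((B.bm D).ev_row (m + B.w))
        have h3 : ∑ c ∈ Finset.Icc (m + (B.w : ℤ) - B.w) (m + B.w + B.w),
            (B.bm D).h (m + B.w) c * (v : ℤ → K) c = 0 := by
          have h4 : (∑ c ∈ Finset.Icc (m + (B.w : ℤ) - B.w) (m + B.w + B.w),
            (B.bm D).h (m + B.w) c • (B.bm D).ev c) v = 0 := h2
          rw [LinearMap.sum_apply] at h4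
          exact h4
        rw [LinearMap.sum_apply, LinearMap.zero_apply]
        have h5 : ∀ n, (BInt_r B m n • (B.bm D).Eb p n) v =
            ((B.bm D).h (m + B.w) n * (v : ℤ → K) n) • (B.bm D).iv p := by
          intro n
          rw [hsm, LinearMap.smul_apply, BM.Eb_apply, BInt_r_ι, smul_smul]
        rw [Finset.sum_congr rfl fun n _ => h5 n, ← Finset.sum_smul, h3, zero_smul])
      (fun q m => by
        rw [hIcc]
        refine LinearMap.ext fun v => ?_
        have h3 : ∑ b ∈ Finset.Icc (m + (B.w : ℤ) - B.w) (m + B.w + B.w),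
            (B.bm D).h b (m + B.w) • (B.bm D).iv b = 0 := (B.bm D).iv_col (m + B.w)
        rw [LinearMap.sum_apply, LinearMap.zero_apply]
        have h5 : ∀ n, (BInt_c B m n • (B.bm D).Eb n q) v =
            (v : ℤ → K) q • ((B.bm D).h n (m + B.w) • (B.bm D).iv n) := by
          intro n
          rw [hsm, LinearMap.smul_apply, BM.Eb_apply, BInt_c_ι, smul_comm]
        rw [Finset.sum_congr rfl fun n _ => h5 n, ← Finset.smul_sum, h3, smul_zero])
    have h6 : (F.sum fun p G => G • (B.bm D).Eb p.1 p.2) = 0 := h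
    have h7 : (Polynomial.C d' : (Lau k)[X]) • (F.sum fun p G => G • (B.bm D).Eb p.1 p.2) =
      ∑ m ∈ Finset.Ico (0 : ℤ) (2 * B.w : ℕ), ∑ l ∈ Finset.Ico (0 : ℤ) (2 * B.w : ℕ),
        ρ m l • (B.bm D).Eb m l := h1
    rw [h6, smul_zero, hL] at h7
    intro m l hm hm' hl hl'
    have h8 := (B.bm D).Eb_indep (fun m l => D.ι (ρ m l)) h7.symm m l hm hm' hl hl'
    have h9 : D.ι (ρ m l) = 0 := h8
    rw [← map_zero D.ι] at h9
    exact D.ι_inj h9
  refine ⟨d', hd', ?_⟩
  have h1 := hρ (Fn (Lau k)) (fun b c => B.P c b)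
    (fun p m => by
      rw [hIcc]
      have h2 := B.P_row (m + B.w) p
      have h3 : ∀ n, BInt_r B m n • B.P n p = (Polynomial.C (B.H (m + B.w) n) : (Lau k)[X]) •
          B.P n p - if m + B.w = n then (Polynomial.X : (Lau k)[X]) • B.P n p else 0 := by
        intro n
        unfold BInt_r
        rw [sub_smul]
        split_ifs with h
        · rfl
        · rw [zero_smul]
      rw [Finset.sum_congr rfl fun n _ => h3 n, Finset.sum_sub_distrib, h2, Finset.sum_ite_eq,
        if_pos (Finset.mem_Icc.2 ⟨by omega, by omega⟩), sub_self])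
    (fun q m => by
      rw [hIcc]
      have h2 := B.P_col q (m + B.w)
      have h3 : ∀ n, BInt_c B m n • B.P q n = (Polynomial.C (B.H n (m + B.w)) : (Lau k)[X]) •
          B.P q n - if n = m + B.w then (Polynomial.X : (Lau k)[X]) • B.P q n else 0 := by
        intro n
        unfold BInt_c
        rw [sub_smul]
        split_ifs with h
        · rfl
        · rw [zero_smul]
      rw [Finset.sum_congr rfl fun n _ => h3 n, Finset.sum_sub_distrib, h2, Finset.sum_ite_eq',
        if_pos (Finset.mem_Icc.2 ⟨by omega, by omega⟩), sub_self])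
  have h7 : (Polynomial.C d' : (Lau k)[X]) • eP B F =
      ∑ m ∈ Finset.Ico (0 : ℤ) (2 * B.w : ℕ), ∑ l ∈ Finset.Ico (0 : ℤ) (2 * B.w : ℕ),
        ρ m l • B.P l m := h1
  rw [h7, hL]
  refine Finset.sum_eq_zero fun m hm => Finset.sum_eq_zero fun l hl => ?_
  rw [Finset.mem_Ico] at hm hl
  rw [hρ0 m l hm.1 hm.2 hl.1 hl.2, zero_smul]

end Pool.Agent.Wb5ab1bf
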