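import Pool.Agent.W_b5ab1bf_h80.BIvD

/-!
# Properties of the solutions `iv b` (helper80)
-/

set_option autoImplicit false

noncomputable section

namespace Pool.Agent.Wb5ab1bf

variable {K : Type} [Field K] (B : BM K)

/-- The value of `iv b` at `b + w`. Proof: row `b` of `h (Gp b) = δ_b`: all the values `Gp b c`, `c < b + w`,
vanish; `Gm b (b + w) = 0`. -/
theorem BM.iv_top (b : ℤ) : B.h b (b + B.w) * (B.iv b : ℤ → K) (b + B.w) = 1 := by
  have h1 := BOne_row_zero B (B.Gp b) b (fun n _ hn => B.Gp_left b n hn)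
  rw [B.Gp_eq, Pi.single_eq_same] at h1
  have hw := B.w_pos
  rw [B.iv_apply, B.Gm_right b (b + B.w) (by omega), sub_zero]
  exact h1.symm

/-- A row in which only the leftmost value is not zero. -/
theorem BIv_row_bot (v : ℤ → K) (a : ℤ) (h : ∀ n, a - (B.w : ℤ) < n → n ≤ a + B.w → v n = 0) :
    bop B.w B.h v a = B.h a (a - B.w) * v (a - B.w) := by
  show ∑ b ∈ Finset.Icc (a - (B.w : ℤ)) (a + B.w), B.h a b * v b = _
  refine Finset.sum_eq_single (a - (B.w : ℤ)) ?_ ?_
  · intro b hb hne
    rw [Finset.mem_Icc] at hb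
    rw [h b (by omega) (by omega), mul_zero]
  · intro hb
    exact absurd (Finset.mem_Icc.2 ⟨le_refl _, by omega⟩) hb

/-- The value of `iv b` at `b - w`. -/
theorem BM.iv_bot (b : ℤ) : B.h b (b - B.w) * (B.iv b : ℤ → K) (b - B.w) = -1 := by
  have h1 := BIv_row_bot B (B.Gm b) b (fun n hn _ => B.Gm_right b n hn)
  rw [B.Gm_eq, Pi.single_eq_same] at h1
  have hw := B.w_pos
  rw [B.iv_apply, B.Gp_left b (b - B.w) (by omega), zero_sub, mul_neg, ← h1]

/-- Every solution is a combination of the `iv b`, `b` in a window.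

Proof. Let `u := 1_{≥ m} v` and `φ := bop u`. For `a < m - w` all the `u b` in row `a` vanish; for `a ≥ m + w` all
the `b` in row `a` are `≥ m`, so `φ a = 0`. So `φ` is supported in `[m - w, m + w)`. The sequence
`u - ∑ b ∈ Ico (m - w) (m + w), φ b • Gp b` is mapped to `0` and vanishes to the left, so it is `0` (`left_zero`).
The sequence `1_{< m} v + ∑ b, φ b • Gm b` is mapped to `-φ + φ = 0` and vanishes to the right, so it is `0`
(`right_zero`). Add. -/
theorem BM.iv_rec (v : B.V) (m : ℤ) :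
    v = ∑ b ∈ Finset.Ico (m - B.w) (m + B.w),
      (bop B.w B.h (fun c => if m ≤ c then (v : ℤ → K) c else 0) b) • B.iv b := by
  classical
  set u : ℤ → K := fun c => if m ≤ c then (v : ℤ → K) c else 0 with hu
  set u' : ℤ → K := fun c => if m ≤ c then 0 else (v : ℤ → K) c with hu'
  have huv : u + u' = v := by
    funext c
    rw [Pi.add_apply, hu, hu']
    by_cases hc : m ≤ c
    · simp only [if_pos hc, add_zero]
    · simp only [if_neg hc, zero_add]
  have hv : bop B.w B.h (v : ℤ → K) = 0 := B.mem_V.1 v.2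
  have hφ : ∀ a, a ∉ Finset.Ico (m - (B.w : ℤ)) (m + B.w) → bop B.w B.h u a = 0 := by
    intro a ha
    rw [Finset.mem_Ico, not_and_or, not_le, not_lt] at ha
    show ∑ b ∈ Finset.Icc (a - (B.w : ℤ)) (a + B.w), B.h a b * u b = 0
    rcases ha with ha | ha
    · refine Finset.sum_eq_zero fun b hb => ?_
      rw [Finset.mem_Icc] at hb
      have : u b = 0 := if_neg (by omega)
      rw [this, mul_zero]
    · have h1 : bop B.w B.h (v : ℤ → K) a = 0 := by rw [hv]; rfl
      rw [← h1]
      show _ = ∑ b ∈ Finset.Icc (a - (B.w : ℤ)) (a + B.w), B.h a b * (v : ℤ → K) b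
      refine Finset.sum_congr rfl fun b hb => ?_
      rw [Finset.mem_Icc] at hb
      have : u b = (v : ℤ → K) b := if_pos (by omega)
      rw [this]
  have hsingle : ∑ b ∈ Finset.Ico (m - (B.w : ℤ)) (m + B.w),
      (bop B.w B.h u b) • (Pi.single b 1 : ℤ → K) = bop B.w B.h u := by
    funext a
    rw [Finset.sum_apply]
    by_cases ha : a ∈ Finset.Ico (m - (B.w : ℤ)) (m + B.w)
    · rw [Finset.sum_eq_single a]
      · rw [Pi.smul_apply, Pi.single_eq_same, smul_eq_mul, mul_one]
      · intro b _ hne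
        rw [Pi.smul_apply, Pi.single_eq_of_ne (Ne.symm hne), smul_zero]
      · intro h
        exact absurd ha h
    · rw [hφ a ha]
      refine Finset.sum_eq_zero fun b hb => ?_
      rw [Pi.smul_apply, Pi.single_eq_of_ne, smul_zero]
      rintro rfl
      exact ha hb
  -- the part to the right
  have h1 : u = ∑ b ∈ Finset.Ico (m - (B.w : ℤ)) (m + B.w), (bop B.w B.h u b) • B.Gp b := by
    rw [← sub_eq_zero]
    refine B.left_zero _ ?_ m fun n hn => ?_
    · rw [map_sub, map_sum, sub_eq_zero]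
      conv_lhs => rw [← hsingle]
      refine Finset.sum_congr rfl fun b _ => ?_
      rw [map_smul, B.Gp_eq]
    · rw [Pi.sub_apply, Finset.sum_apply]
      have : u n = 0 := if_neg (by omega)
      rw [this, zero_sub, neg_eq_zero]
      refine Finset.sum_eq_zero fun b hb => ?_
      rw [Finset.mem_Ico] at hb
      rw [Pi.smul_apply, B.Gp_left b n (by omega), smul_zero]
  have h2 : u' = -∑ b ∈ Finset.Ico (m - (B.w : ℤ)) (m + B.w), (bop B.w B.h u b) • B.Gm b := by
    rw [← sub_eq_zero, sub_neg_eq_add]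
    have h3 : bop B.w B.h u' = -bop B.w B.h u := by
      rw [eq_neg_iff_add_eq_zero, ← map_add, add_comm, huv, hv]
    refine B.right_zero _ ?_ (m + 2 * B.w) fun n hn => ?_
    · rw [map_add, map_sum, h3, neg_add_eq_zero]
      conv_lhs => rw [← hsingle]
      refine Finset.sum_congr rfl fun b _ => ?_
      rw [map_smul, B.Gm_eq]
    · rw [Pi.add_apply, Finset.sum_apply]
      have : u' n = 0 := if_pos (by omega)
      rw [this, zero_add]
      refine Finset.sum_eq_zero fun b hb => ?_
      rw [Finset.mem_Ico] at hb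
      rw [Pi.smul_apply, B.Gm_right b n (by omega), smul_zero]
  apply Subtype.ext
  rw [← huv, Submodule.coe_sum]
  conv_lhs => rw [h1, h2]
  rw [← sub_eq_add_neg, ← Finset.sum_sub_distrib]
  refine Finset.sum_congr rfl fun b _ => ?_
  rw [← smul_sub]
  rfl

/-- The relation between the `iv b`. Proof: `∑ b, h b a • Gp b = δ_a`: the image of both sides under `bop` is the
column `a`, that is `c ↦ h c a`, and both vanish to the left (`left_zero`); in the same way
`∑ b, h b a • Gm b = δ_a` (`right_zero`). -/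
theorem BM.iv_col (a : ℤ) : ∑ b ∈ Finset.Icc (a - B.w) (a + B.w), B.h b a • B.iv b = 0 := by
  classical
  have hcol : bop B.w B.h (Pi.single a 1 : ℤ → K) =
      ∑ b ∈ Finset.Icc (a - (B.w : ℤ)) (a + B.w), B.h b a • (Pi.single b 1 : ℤ → K) := by
    funext c
    rw [Finset.sum_apply]
    have h1 : bop B.w B.h (Pi.single a 1 : ℤ → K) c = B.h c a := by
      show ∑ b ∈ Finset.Icc (c - (B.w : ℤ)) (c + B.w), B.h c b * (Pi.single a 1 : ℤ → K) b = _
      by_cases ha : a ∈ Finset.Icc (c - (B.w : ℤ)) (c + B.w)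
      · rw [Finset.sum_eq_single a]
        · rw [Pi.single_eq_same, mul_one]
        · intro b _ hne
          rw [Pi.single_eq_of_ne hne, mul_zero]
        · intro h
          exact absurd ha h
      · rw [Finset.sum_eq_zero]
        · rw [B.h_zero]
          rw [Finset.mem_Icc] at ha
          rw [lt_abs]
          omega
        · intro b hb
          rw [Pi.single_eq_of_ne, mul_zero]
          rintro rfl
          exact ha hb
    rw [h1]
    by_cases hc : c ∈ Finset.Icc (a - (B.w : ℤ)) (a + B.w)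
    · rw [Finset.sum_eq_single c]
      · rw [Pi.smul_apply, Pi.single_eq_same, smul_eq_mul, mul_one]
      · intro b _ hne
        rw [Pi.smul_apply, Pi.single_eq_of_ne (Ne.symm hne), smul_zero]
      · intro h
        exact absurd hc h
    · rw [Finset.sum_eq_zero]
      · rw [B.h_zero]
        rw [Finset.mem_Icc] at hc
        rw [lt_abs]
        omega
      · intro b hb
        rw [Pi.smul_apply, Pi.single_eq_of_ne, smul_zero]
        rintro rfl
        exact hc hb
  have h1 : ∑ b ∈ Finset.Icc (a - (B.w : ℤ)) (a + B.w), B.h b a • B.Gp b = Pi.single a 1 := by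
    rw [← sub_eq_zero]
    refine B.left_zero _ ?_ a fun n hn => ?_
    · rw [map_sub, map_sum, hcol, sub_eq_zero]
      refine Finset.sum_congr rfl fun b _ => ?_
      rw [map_smul, B.Gp_eq]
    · rw [Pi.sub_apply, Finset.sum_apply, Pi.single_eq_of_ne (by omega), sub_zero]
      refine Finset.sum_eq_zero fun b hb => ?_
      rw [Finset.mem_Icc] at hb
      rw [Pi.smul_apply, B.Gp_left b n (by omega), smul_zero]
  have h2 : ∑ b ∈ Finset.Icc (a - (B.w : ℤ)) (a + B.w), B.h b a • B.Gm b = Pi.single a 1 := by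
    rw [← sub_eq_zero]
    refine B.right_zero _ ?_ a fun n hn => ?_
    · rw [map_sub, map_sum, hcol, sub_eq_zero]
      refine Finset.sum_congr rfl fun b _ => ?_
      rw [map_smul, B.Gm_eq]
    · rw [Pi.sub_apply, Finset.sum_apply, Pi.single_eq_of_ne (by omega), sub_zero]
      refine Finset.sum_eq_zero fun b hb => ?_
      rw [Finset.mem_Icc] at hb
      rw [Pi.smul_apply, B.Gm_right b n (by omega), smul_zero]
  apply Subtype.ext
  rw [Submodule.coe_sum]
  have h3 : ∑ b ∈ Finset.Icc (a - (B.w : ℤ)) (a + B.w), ((B.h b a • B.iv b : B.V) : ℤ → K) =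
      ∑ b ∈ Finset.Icc (a - (B.w : ℤ)) (a + B.w), B.h b a • B.Gp b -
      ∑ b ∈ Finset.Icc (a - (B.w : ℤ)) (a + B.w), B.h b a • B.Gm b := by
    rw [← Finset.sum_sub_distrib]
    refine Finset.sum_congr rfl fun b _ => ?_
    rw [← smul_sub]
    rfl
  rw [h3, h1, h2, sub_self]
  rfl

/-- The relation between the values. -/
theorem BM.ev_row (a : ℤ) : ∑ c ∈ Finset.Icc (a - B.w) (a + B.w), B.h a c • B.ev c = 0 := by
  refine LinearMap.ext fun v => ?_
  rw [LinearMap.sum_apply]
  have h1 := congrFun (B.mem_V.1 v.2) a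
  exact h1

/-- An element of `V` with `2w - 1` consecutive values `0` is a multiple of an `iv b`. Proof: the element
`v - (h b (b + w) * v (b + w)) • iv b` vanishes in the window `[b - w + 1, b + w]` (`iv_zero`, `iv_top`);
`win_ext`. -/
theorem BM.eq_smul_iv (v : B.V) (b : ℤ)
    (h : ∀ n, b - B.w < n → n < b + B.w → (v : ℤ → K) n = 0) :
    v = (B.h b (b + B.w) * (v : ℤ → K) (b + B.w)) • B.iv b := by
  refine B.win_ext (b - B.w + 1) fun n hn hn' => ?_
  show (v : ℤ → K) n = (B.h b (b + B.w) * (v : ℤ → K) (b + B.w)) * (B.iv b : ℤ → K) n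
  by_cases hn2 : n < b + B.w
  · rw [h n (by omega) hn2, B.iv_zero b n (by omega) hn2, mul_zero]
  · obtain rfl : n = b + B.w := by omega
    rw [mul_right_comm, B.iv_top, one_mul]

/-- Integrality of the values of `iv b` (`right_mem`, `left_mem`). -/
theorem BM.Gp_mem (A : Subring K) (h1 : ∀ a b, B.h a b ∈ A) (h2 : ∀ a, (B.h a (a + B.w))⁻¹ ∈ A)
    (b c : ℤ) : B.Gp b c ∈ A := by
  refine B.right_mem A h1 h2 _ _ (B.Gp_eq b) (b + B.w) (fun n hn => B.Gp_left b n hn) ?_ c
  intro a
  rw [Pi.single_apply]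
  split_ifs
  · exact A.one_mem
  · exact A.zero_mem

theorem BM.Gm_mem (A : Subring K) (h1 : ∀ a b, B.h a b ∈ A) (h2 : ∀ a, (B.h a (a - B.w))⁻¹ ∈ A)
    (b c : ℤ) : B.Gm b c ∈ A := by
  refine B.left_mem A h1 h2 _ _ (B.Gm_eq b) (b - B.w) (fun n hn => B.Gm_right b n hn) ?_ c
  intro a
  rw [Pi.single_apply]
  split_ifs
  · exact A.one_mem
  · exact A.zero_mem

end Pool.Agent.Wb5ab1bf
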