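import Pool.Agent.W_b5ab1bf_h80.BOne

/-!
# The solutions `iv b` (helper80)
-/

set_option autoImplicit false

noncomputable section

namespace Pool.Agent.Wb5ab1bf

variable {K : Type} [Field K] (B : BM K)

/-- The solution of `h u = δ_b` which vanishes to the left of `b + w`. -/
def BM.Gp (b : ℤ) : ℤ → K := Classical.choose (B.exists_right (Pi.single b 1) b
  (fun a ha => by rw [Pi.single_apply, if_neg (by omega)]))

theorem BM.Gp_left (b c : ℤ) (h : c < b + B.w) : B.Gp b c = 0 :=
  (Classical.choose_spec (B.exists_right (Pi.single b 1) b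
    (fun a ha => by rw [Pi.single_apply, if_neg (by omega)]))).1 c h

theorem BM.Gp_eq (b : ℤ) : bop B.w B.h (B.Gp b) = Pi.single b 1 :=
  (Classical.choose_spec (B.exists_right (Pi.single b 1) b
    (fun a ha => by rw [Pi.single_apply, if_neg (by omega)]))).2

/-- The solution of `h u = δ_b` which vanishes to the right of `b - w`. -/
def BM.Gm (b : ℤ) : ℤ → K := Classical.choose (B.exists_left (Pi.single b 1) b
  (fun a ha => by rw [Pi.single_apply, if_neg (by omega)]))

theorem BM.Gm_right (b c : ℤ) (h : b - B.w < c) : B.Gm b c = 0 :=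
  (Classical.choose_spec (B.exists_left (Pi.single b 1) b
    (fun a ha => by rw [Pi.single_apply, if_neg (by omega)]))).1 c h

theorem BM.Gm_eq (b : ℤ) : bop B.w B.h (B.Gm b) = Pi.single b 1 :=
  (Classical.choose_spec (B.exists_left (Pi.single b 1) b
    (fun a ha => by rw [Pi.single_apply, if_neg (by omega)]))).2

theorem BM.mem_V {v : ℤ → K} : v ∈ B.V ↔ bop B.w B.h v = 0 := LinearMap.mem_ker

/-- The difference of the two. -/
def BM.iv (b : ℤ) : B.V :=
  ⟨B.Gp b - B.Gm b, by rw [B.mem_V, map_sub, B.Gp_eq, B.Gm_eq, sub_self]⟩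

theorem BM.iv_apply (b c : ℤ) : (B.iv b : ℤ → K) c = B.Gp b c - B.Gm b c := rfl

theorem BM.iv_zero (b c : ℤ) (h1 : b - B.w < c) (h2 : c < b + B.w) : (B.iv b : ℤ → K) c = 0 := by
  rw [B.iv_apply, B.Gp_left b c h2, B.Gm_right b c h1, sub_zero]

/-- The value at `c`. -/
def BM.ev (c : ℤ) : B.V →ₗ[K] K := (LinearMap.proj c : (ℤ → K) →ₗ[K] K).comp B.V.subtype

theorem BM.ev_apply (c : ℤ) (v : B.V) : B.ev c v = (v : ℤ → K) c := rfl

/-- The endomorphism `v ↦ v c • iv b`. -/
def BM.Eb (b c : ℤ) : Module.End K B.V := (B.ev c).smulRight (B.iv b)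

theorem BM.Eb_apply (b c : ℤ) (v : B.V) : B.Eb b c v = (v : ℤ → K) c • B.iv b := rfl

/-- Uniqueness of solutions with given values in a window. -/
theorem BM.win_ext {v v' : B.V} (m : ℤ)
    (h : ∀ n, m ≤ n → n < m + 2 * B.w → (v : ℤ → K) n = (v' : ℤ → K) n) : v = v' := by
  have h1 : (v : ℤ → K) - v' = 0 := by
    refine B.win_zero _ ?_ m fun n h1 h2 => ?_
    · rw [map_sub, B.mem_V.1 v.2, B.mem_V.1 v'.2, sub_self]
    · rw [Pi.sub_apply, h n h1 h2, sub_self]
  exact Subtype.ext (sub_eq_zero.1 h1)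

/-- The solution with given values in a window. -/
def BM.sol (m : ℤ) (f : ℤ → K) : B.V :=
  ⟨Classical.choose (B.exists_win f m), B.mem_V.2 (Classical.choose_spec (B.exists_win f m)).1⟩

theorem BM.sol_apply (m : ℤ) (f : ℤ → K) (n : ℤ) (h1 : m ≤ n) (h2 : n < m + 2 * B.w) :
    (B.sol m f : ℤ → K) n = f n := (Classical.choose_spec (B.exists_win f m)).2 n h1 h2

end Pool.Agent.Wb5ab1bf
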