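import Pool.Agent.W_b5ab1bf_h80.BKd

/-!
# Existence of the field (helper80)
-/

set_option autoImplicit false

noncomputable section

open scoped Polynomial
open Pool.Agent.Wb5ab1b

namespace Pool.Agent.Wb5ab1bf

/-- The derivation `derX j` of the polynomial ring. -/
def derXD {k : ℕ} (j : ℤ × Fin k) : Derivation ℤ (Lau k)[X] (Lau k)[X] :=
  Derivation.mk' (AddMonoidHom.toIntLinearMap
    { toFun := derX j
      map_zero' := by
        have h := derX_add j (0 : (Lau k)[X]) 0
        rw [add_zero] at h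
        exact left_eq_add.1 h
      map_add' := derX_add j }) (by
    intro a b
    rw [smul_eq_mul, smul_eq_mul]
    exact derX_mul j a b)

theorem derXD_apply {k : ℕ} (j : ℤ × Fin k) (p : (Lau k)[X]) : derXD j p = derX j p := rfl

section BKaux

set_option linter.unusedSectionVars false

variable {k : ℕ} {K : Type} [Field K] [Algebra (Lau k)[X] K] [IsFractionRing (Lau k)[X] K]

/-- the derivation with respect to the energy -/
def BK_dX (k : ℕ) : Derivation ℤ (Lau k)[X] (Lau k)[X] :=
  Derivation.mk' (AddMonoidHom.toIntLinearMap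
    (Polynomial.derivative (R := Lau k)).toAddMonoidHom) (by
    intro a b
    rw [smul_eq_mul, smul_eq_mul]
    change Polynomial.derivative (a * b) = a * Polynomial.derivative b + b * Polynomial.derivative a
    rw [Polynomial.derivative_mul]
    ring)

theorem BK_dX_apply (p : (Lau k)[X]) : BK_dX k p = Polynomial.derivative p := rfl

/-- the shift as an automorphism of the polynomial ring -/
def BK_e (k : ℕ) : (Lau k)[X] ≃+* (Lau k)[X] :=
  RingEquiv.ofRingHom (shX 1) (shX (-1))
    (RingHom.ext fun p => by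
      rw [RingHom.comp_apply, shX_shX, add_neg_cancel, shX_zero]
      rfl)
    (RingHom.ext fun p => by
      rw [RingHom.comp_apply, shX_shX, neg_add_cancel, shX_zero]
      rfl)

theorem BK_e_apply (p : (Lau k)[X]) : BK_e k p = shX 1 p := rfl

theorem BK_frac (f : K) : ∃ p q : (Lau k)[X], q ≠ 0 ∧
    algebraMap (Lau k)[X] K q * f = algebraMap (Lau k)[X] K p := by
  obtain ⟨p, q, hq, rfl⟩ := IsFractionRing.div_surjective (A := (Lau k)[X]) f
  have hq0 : q ≠ 0 := nonZeroDivisors.ne_zero hq
  refine ⟨p, q, hq0, ?_⟩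
  have h1 : algebraMap (Lau k)[X] K q ≠ 0 := by
    rw [Ne, IsFractionRing.to_map_eq_zero_iff]
    exact hq0
  rw [mul_div_cancel₀ _ h1]

theorem BK_alg_ne {q : (Lau k)[X]} (hq : q ≠ 0) : algebraMap (Lau k)[X] K q ≠ 0 := by
  rw [Ne, IsFractionRing.to_map_eq_zero_iff]
  exact hq

/-- vanishing of a derivative of a fraction -/
theorem BK_van {d : Derivation ℤ K K} {j : ℤ × Fin k}
    (h : ∀ a, d (algebraMap (Lau k)[X] K a) = algebraMap (Lau k)[X] K (derX j a))
    {f : K} {p q : (Lau k)[X]} (hf : algebraMap (Lau k)[X] K q * f = algebraMap (Lau k)[X] K p)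
    (hd : d f = 0) : derX j p * q = p * derX j q := by
  have h1 := congrArg d hf
  rw [Derivation.leibniz, hd, smul_zero, zero_add, smul_eq_mul, h, h] at h1
  apply IsFractionRing.injective (Lau k)[X] K
  rw [map_mul, map_mul, ← h1, ← hf]
  ring

/-- if the numerator and the denominator are constants then so is the fraction -/
theorem BK_van' {d : Derivation ℤ K K} {j : ℤ × Fin k}
    (h : ∀ a, d (algebraMap (Lau k)[X] K a) = algebraMap (Lau k)[X] K (derX j a))
    {f : K} {p q : (Lau k)[X]} (hq : q ≠ 0)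
    (hf : algebraMap (Lau k)[X] K q * f = algebraMap (Lau k)[X] K p)
    (hp : derX j p = 0) (hq2 : derX j q = 0) : d f = 0 := by
  have h1 := congrArg d hf
  rw [Derivation.leibniz, h, h, hp, hq2, map_zero, smul_zero, add_zero, smul_eq_mul] at h1
  exact (mul_eq_zero.1 h1).resolve_left (BK_alg_ne hq)

/-- reduction of the fractions which do not depend on the variables outside `S` -/
theorem BK_red {δ : ℤ × Fin k → Derivation ℤ K K}
    (h : ∀ j a, δ j (algebraMap (Lau k)[X] K a) = algebraMap (Lau k)[X] K (derX j a))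
    (S : Set (ℤ × Fin k)) (f : K) (hf : ∀ j, j ∉ S → δ j f = 0) :
    ∃ p q : (Lau k)[X], q ≠ 0 ∧ algebraMap (Lau k)[X] K q * f = algebraMap (Lau k)[X] K p ∧
      ∀ j, j ∉ S → derX j p = 0 ∧ derX j q = 0 := by
  obtain ⟨p, q, hq, hpq⟩ := BK_frac (k := k) f
  obtain ⟨p', q', hq', h1, h2⟩ := cst_red S p q hq
    (fun j hj => BK_van (h j) hpq (hf j hj))
  refine ⟨p', q', hq', ?_, h2⟩
  have h3 : algebraMap (Lau k)[X] K q * (algebraMap (Lau k)[X] K q' * f) =
      algebraMap (Lau k)[X] K q * algebraMap (Lau k)[X] K p' := by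
    rw [← map_mul, mul_comm q p', h1, map_mul, ← hpq]
    ring
  exact mul_left_cancel₀ (BK_alg_ne hq) h3

/-- complex polynomials -/
theorem BK_cst {δ : ℤ × Fin k → Derivation ℤ K K}
    (h : ∀ j a, δ j (algebraMap (Lau k)[X] K a) = algebraMap (Lau k)[X] K (derX j a))
    (f : K) (hf : ∀ j, δ j f = 0) :
    ∃ p q : ℂ[X], q ≠ 0 ∧ algebraMap (Lau k)[X] K (cX k q) * f =
      algebraMap (Lau k)[X] K (cX k p) := by
  obtain ⟨p, q, hq, h1, h2⟩ := BK_red h ∅ f (fun j _ => hf j)
  obtain ⟨p₀, rfl⟩ := exists_cX (fun j => (h2 j (Set.notMem_empty j)).1)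
  obtain ⟨q₀, rfl⟩ := exists_cX (fun j => (h2 j (Set.notMem_empty j)).2)
  refine ⟨p₀, q₀, fun h0 => hq ?_, h1⟩
  rw [h0, map_zero]

theorem BK_fin {δ : ℤ × Fin k → Derivation ℤ K K}
    (h : ∀ j a, δ j (algebraMap (Lau k)[X] K a) = algebraMap (Lau k)[X] K (derX j a))
    (f : K) : {j | δ j f ≠ 0}.Finite := by
  obtain ⟨p, q, hq, hpq⟩ := BK_frac (k := k) f
  refine ((derX_finite p).union (derX_finite q)).subset fun j hj => ?_
  by_contra hn
  rw [Set.mem_union, not_or] at hn
  have h1 : derX j p = 0 := not_not.1 hn.1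
  have h2 : derX j q = 0 := not_not.1 hn.2
  exact hj (BK_van' (h j) hq hpq h1 h2)

theorem BK_fix {δ : ℤ × Fin k → Derivation ℤ K K} {θ : K ≃+* K}
    (h : ∀ j a, δ j (algebraMap (Lau k)[X] K a) = algebraMap (Lau k)[X] K (derX j a))
    (hθ : ∀ a, θ (algebraMap (Lau k)[X] K a) = algebraMap (Lau k)[X] K (shX 1 a))
    (f : K) (hf : ∀ j, δ j f = 0) : θ f = f := by
  obtain ⟨p, q, hq, h1⟩ := BK_cst h f hf
  have hq' : cX k q ≠ 0 := by
    intro h0
    rw [← map_zero (cX k)] at h0
    exact hq (cX_injective k h0)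
  have h2 := congrArg θ h1
  rw [map_mul, hθ, hθ, shX_cX, shX_cX, ← h1] at h2
  exact mul_left_cancel₀ (BK_alg_ne hq') h2

theorem BK_split {δ : ℤ × Fin k → Derivation ℤ K K}
    (h : ∀ j a, δ j (algebraMap (Lau k)[X] K a) = algebraMap (Lau k)[X] K (derX j a))
    (S T : Set (ℤ × Fin k)) {p : (Lau k)[X]} (hp : ∀ j, j ∉ S ∪ T → derX j p = 0) :
    algebraMap (Lau k)[X] K p ∈ Subring.closure ((cstF δ S : Set K) ∪ (cstF δ T : Set K)) := by
  have h1 := poly_split S T p hp
  have h2 : Subring.closure ({g : (Lau k)[X] | ∀ j, j ∉ S → derX j g = 0} ∪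
      {g : (Lau k)[X] | ∀ j, j ∉ T → derX j g = 0}) ≤
      (Subring.closure ((cstF δ S : Set K) ∪ (cstF δ T : Set K))).comap
        (algebraMap (Lau k)[X] K) := by
    rw [Subring.closure_le]
    intro g hg
    apply Subring.subset_closure
    rcases hg with hg | hg
    · left
      intro j hj
      rw [h, hg j hj, map_zero]
    · right
      intro j hj
      rw [h, hg j hj, map_zero]
  exact h2 h1

theorem BK_frac2 {δ : ℤ × Fin k → Derivation ℤ K K}
    (h : ∀ j a, δ j (algebraMap (Lau k)[X] K a) = algebraMap (Lau k)[X] K (derX j a))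
    (S T : Set (ℤ × Fin k)) (f : K) (hf : f ∈ cstF δ (S ∪ T)) :
    ∃ p ∈ Subring.closure ((cstF δ S : Set K) ∪ (cstF δ T : Set K)),
    ∃ q ∈ Subring.closure ((cstF δ S : Set K) ∪ (cstF δ T : Set K)), q ≠ 0 ∧ q * f = p := by
  obtain ⟨p, q, hq, h1, h2⟩ := BK_red h (S ∪ T) f hf
  exact ⟨_, BK_split h S T (fun j hj => (h2 j hj).1), _,
    BK_split h S T (fun j hj => (h2 j hj).2), BK_alg_ne hq, h1⟩

theorem BK_dfield (k : ℕ) (K : Type) [Field K] [Algebra (Lau k)[X] K]
    [IsFractionRing (Lau k)[X] K] :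
    ∃ D : DField k K,
      (∀ p, D.θ (algebraMap (Lau k)[X] K p) = algebraMap (Lau k)[X] K (shX 1 p)) ∧
      (∀ j p, D.δ j (algebraMap (Lau k)[X] K p) = algebraMap (Lau k)[X] K (derX j p)) ∧
      (∀ p, D.δX (algebraMap (Lau k)[X] K p) =
        algebraMap (Lau k)[X] K (Polynomial.derivative p)) ∧
      (∀ f, (∀ j, D.δ j f = 0) → ∃ p q : ℂ[X], q ≠ 0 ∧
        algebraMap (Lau k)[X] K (cX k q) * f = algebraMap (Lau k)[X] K (cX k p)) := by
  obtain ⟨θ, hθ⟩ : ∃ θ : K ≃+* K,
      ∀ a, θ (algebraMap (Lau k)[X] K a) = algebraMap (Lau k)[X] K (shX 1 a) :=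
    ⟨IsFractionRing.ringEquivOfRingEquiv (BK_e k), fun a =>
      IsFractionRing.ringEquivOfRingEquiv_algebraMap (BK_e k) a⟩
  have hδ' : ∀ j : ℤ × Fin k, ∃ d : Derivation ℤ K K, ∀ a, d (algebraMap (Lau k)[X] K a) =
        algebraMap (Lau k)[X] K (derX j a) := fun j => exists_ext_der (derXD j)
  choose δ hδ using hδ'
  obtain ⟨δX, hδX⟩ : ∃ d : Derivation ℤ K K, ∀ a, d (algebraMap (Lau k)[X] K a) =
        algebraMap (Lau k)[X] K (Polynomial.derivative a) := exists_ext_der (BK_dX k)
  refine ⟨{ θ := θ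
            δ := δ
            δX := δX
            comm := fun i j f => comm_der (A := (Lau k)[X]) (fun a => by
              rw [hδ, hδ, hδ, hδ, derX_comm]) f
            commX := fun j f => comm_der (A := (Lau k)[X]) (fun a => by
              rw [hδ, hδX, hδX, hδ, derX_derivative]) f
            θδ := fun j f => theta_der (A := (Lau k)[X]) (fun a => by
              rw [hδ, hθ, hθ, hδ, shX_derX]) f
            θX := fun f => theta_der (A := (Lau k)[X]) (fun a => by
              rw [hδX, hθ, hθ, hδX, shX_derivative]) f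
            fin := BK_fin hδ
            fix := BK_fix hδ hθ
            frac := BK_frac2 hδ }, hθ, hδ, hδX, BK_cst hδ⟩

end BKaux

/-- The differential field: all the axioms of `DField`, for `K := FractionRing (Lau k)[X]`.

Proof. `θ`: the extension of `shX 1` (inverse `shX (-1)`, `shX_shX`); `δ j`, `δX`: `exists_ext_der` for `derXD j` and
`Polynomial.derivative`. `comm`, `commX`: `comm_der` (`derX_comm`, `derX_derivative`); `θδ`, `θX`: `theta_der`
(`shX_derX`, `shX_derivative`). `fin`: for `q f = p`, `δ j f ≠ 0` implies `derX j p ≠ 0` or `derX j q ≠ 0`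
(`derX_finite`). `cst_frac`: for `q f = p` the condition `δ j f = 0` gives `derX j p * q = p * derX j q`; `cst_red` with
`S = ∅` and `exists_cX`. `fix`: from `cst_frac`, `shX_cX`. `frac`: `cst_red` with `S ∪ T`: `q' f = p'` and `p'`,
`q'` are in the closure of `poly_split`, the elements of which are mapped to `cstF S`, `cstF T`
(`Subring.closure_le` / `Subring.map`). -/
theorem exists_dfield (k : ℕ) :
    ∃ D : DField k (FractionRing (Lau k)[X]),
      (∀ p, D.θ (algebraMap (Lau k)[X] _ p) = algebraMap (Lau k)[X] _ (shX 1 p)) ∧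
      (∀ j p, D.δ j (algebraMap (Lau k)[X] _ p) = algebraMap (Lau k)[X] _ (derX j p)) ∧
      (∀ p, D.δX (algebraMap (Lau k)[X] _ p) = algebraMap (Lau k)[X] _ (Polynomial.derivative p)) ∧
      (∀ f, (∀ j, D.δ j f = 0) → ∃ p q : ℂ[X], q ≠ 0 ∧
        algebraMap (Lau k)[X] _ (cX k q) * f = algebraMap (Lau k)[X] _ (cX k p)) := by
  exact BK_dfield k (FractionRing (Lau k)[X])

/-- All together (`exists_dfield`, `exists_th`, `th_fixed`, `exists_thL`, `exists_up`). `up_θ`: both sides are ring
homomorphisms `K → LS k`, they coincide on `C F` and on `X`, so on `(Lau k)[X]`, so on `K`. -/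
theorem exists_kfield (k : ℕ) :
    ∃ (K : Type) (_ : Field K) (_ : CharZero K), Nonempty (KField k K) := by
  obtain ⟨D, hθ, hδ, hδX, hc⟩ := exists_dfield k
  obtain ⟨th, hth⟩ := exists_th k
  obtain ⟨thL, hthL⟩ := exists_thL th
  obtain ⟨up, hupC, hupX⟩ := exists_up k
  have hchar : CharZero (FractionRing (Lau k)[X]) :=
    charZero_of_injective_ringHom (f := (algebraMap (Lau k)[X] (FractionRing (Lau k)[X])).comp
      ((Polynomial.C : Lau k →+* (Lau k)[X]).comp (algebraMap ℂ (Lau k)))) (RingHom.injective _)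
  have hup : up.comp (D.θ : FractionRing (Lau k)[X] →+* FractionRing (Lau k)[X]) =
      ((thL : LS k ≃+* LS k) : LS k →+* LS k).comp up := by
    refine IsLocalization.ringHom_ext (nonZeroDivisors (Lau k)[X]) ?_
    refine Polynomial.ringHom_ext (fun F => ?_) ?_
    · simp only [RingHom.comp_apply, RingHom.coe_coe]
      rw [hθ]
      have h1 : shX 1 (Polynomial.C F) = Polynomial.C (sh 1 F) := by
        unfold shX
        rw [Polynomial.coe_mapRingHom, Polynomial.map_C]
        rfl
      rw [h1, hupC, hupC]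
      ext n
      rw [hthL, HahnSeries.C_apply, HahnSeries.C_apply, HahnSeries.coeff_single, HahnSeries.coeff_single]
      split_ifs
      · exact (hth F).symm
      · exact (map_zero th).symm
    · simp only [RingHom.comp_apply, RingHom.coe_coe]
      rw [hθ]
      have h1 : shX (k := k) 1 Polynomial.X = Polynomial.X := by
        unfold shX
        rw [Polynomial.coe_mapRingHom, Polynomial.map_X]
      rw [h1, hupX]
      ext n
      rw [hthL, HahnSeries.coeff_single]
      split_ifs
      · exact (map_one th).symm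
      · exact (map_zero th).symm
  refine ⟨FractionRing (Lau k)[X], inferInstance, hchar, ⟨{ D with
    ι := algebraMap (Lau k)[X] (FractionRing (Lau k)[X])
    ι_inj := IsFractionRing.injective _ _
    ι_frac := BK_frac
    θ_ι := hθ
    δ_ι := hδ
    δX_ι := hδX
    cst_frac := hc
    up := up
    up_C := hupC
    up_X := hupX
    th := th
    th_alg := hth
    th_fix := fun n f hn hf => th_fixed th hth n f hn hf
    thL := thL
    thL_coeff := hthL
    up_θ := fun f => RingHom.congr_fun hup f }⟩⟩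

end Pool.Agent.Wb5ab1bf
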