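import Pool.Agent.W_b5ab1bf_h80.BCj

/-!
# A uniform denominator (helper80)
-/

set_option autoImplicit false

noncomputable section

open scoped Polynomial
open Pool.Agent.Wb5ab1b

namespace Pool.Agent.Wb5ab1bf

variable {k : ℕ} (B : Bd k) {K : Type} [Field K] (D : KField k K)

/-- Every functional on the endomorphisms is `x ↦ trace (e * x)`. -/
theorem BKap_functional {K V : Type} [Field K] [AddCommGroup V] [Module K V] [FiniteDimensional K V]
    (g : Module.End K V →ₗ[K] K) :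
    ∃ e : Module.End K V, ∀ x, LinearMap.trace K V (e * x) = g x := by
  let Φ : Module.End K V →ₗ[K] (Module.End K V →ₗ[K] K) :=
    { toFun := fun e => (LinearMap.trace K V).comp (LinearMap.mulLeft K e)
      map_add' := fun e e' => by
        refine LinearMap.ext fun x => ?_
        show LinearMap.trace K V ((e + e') * x) =
          LinearMap.trace K V (e * x) + LinearMap.trace K V (e' * x)
        rw [add_mul, map_add]
      map_smul' := fun c e => by
        refine LinearMap.ext fun x => ?_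
        show LinearMap.trace K V ((c • e) * x) = c • LinearMap.trace K V (e * x)
        rw [smul_mul_assoc, map_smul] }
  have hinj : Function.Injective Φ := by
    rw [injective_iff_map_eq_zero]
    intro e he
    refine LinearMap.ext fun v => ?_
    rw [LinearMap.zero_apply, ← Module.forall_dual_apply_eq_zero_iff K]
    intro f
    have h1 : Φ e (f.smulRight v) = 0 := by rw [he, LinearMap.zero_apply]
    have h2 : e * f.smulRight v = f.smulRight (e v) := by
      refine LinearMap.ext fun w => ?_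
      rw [Module.End.mul_apply, LinearMap.smulRight_apply, LinearMap.smulRight_apply, map_smul]
    have h3 : Φ e (f.smulRight v) = LinearMap.trace K V (e * f.smulRight v) := rfl
    rw [h3, h2, LinearMap.trace_smulRight] at h1
    exact h1
  have hsurj : Function.Surjective Φ :=
    (LinearMap.injective_iff_surjective_of_finrank_eq_finrank
      (Subspace.dual_finrank_eq (K := K) (V := Module.End K V)).symm).1 hinj
  obtain ⟨e, he⟩ := hsurj g
  exact ⟨e, fun x => by rw [← he]; rfl⟩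

/-- Linear algebra: a finite-dimensional space of endomorphisms has a basis `z` and there are `e` with
`trace (e i * z l) = δ_{il}` (the trace form of `End V` is nondegenerate, so every functional on the subspace is
`z ↦ trace (e * z)`; see `LinearMap.trace`, `Matrix.trace`, `LinearMap.BilinForm` or use a basis of `V` and
matrix units). -/
theorem exists_dual {V : Type} [AddCommGroup V] [Module K V] [FiniteDimensional K V]
    (N : Submodule K (Module.End K V)) :
    ∃ (n : ℕ) (z e : Fin n → Module.End K V), (∀ i, z i ∈ N) ∧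
      (∀ x ∈ N, ∃ a : Fin n → K, x = ∑ i, a i • z i) ∧
      ∀ i l, LinearMap.trace K V (e i * z l) = if i = l then 1 else 0 := by
  obtain ⟨b, -⟩ : ∃ b : Module.Basis (Fin (Module.finrank K N)) K N, b = b :=
    ⟨Module.finBasis K N, rfl⟩
  have h1 : ∀ i, ∃ e : Module.End K V, ∀ x : N,
      LinearMap.trace K V (e * (x : Module.End K V)) = b.coord i x := by
    intro i
    obtain ⟨g, hg⟩ := LinearMap.exists_extend (b.coord i)
    obtain ⟨e, he⟩ := BKap_functional g
    refine ⟨e, fun x => ?_⟩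
    rw [he, ← hg]
    rfl
  choose e he using h1
  refine ⟨Module.finrank K N, fun i => (b i : Module.End K V), e, fun i => (b i).2, ?_, ?_⟩
  · intro x hx
    refine ⟨fun i => b.coord i ⟨x, hx⟩, ?_⟩
    have h2 := congrArg (fun y : N => (y : Module.End K V)) (b.sum_repr ⟨x, hx⟩)
    simp only [Submodule.coe_sum, Submodule.coe_smul] at h2
    exact h2.symm
  · intro i l
    rw [he, Module.Basis.coord_apply, b.repr_self, Finsupp.single_apply]
    exact if_congr eq_comm rfl rfl

theorem BKap_eI_sum {n : ℕ} (F : Fin n → (ℤ × ℤ) →₀ (Lau k)[X]) :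
    eI B D (∑ i, F i) = ∑ i, eI B D (F i) :=
  map_sum (AddMonoidHom.mk' (eI B D) (eI_add B D)) F Finset.univ

theorem BKap_eI_sub (F G : (ℤ × ℤ) →₀ (Lau k)[X]) : eI B D (F - G) = eI B D F - eI B D G :=
  map_sub (AddMonoidHom.mk' (eI B D) (eI_add B D)) F G

theorem BKap_eP_sum {n : ℕ} (F : Fin n → (ℤ × ℤ) →₀ (Lau k)[X]) :
    eP B (∑ i, F i) = ∑ i, eP B (F i) :=
  map_sum (AddMonoidHom.mk' (eP B) (eP_add B)) F Finset.univ

theorem BKap_eP_sub (F G : (ℤ × ℤ) →₀ (Lau k)[X]) : eP B (F - G) = eP B F - eP B G :=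
  map_sub (AddMonoidHom.mk' (eP B) (eP_add B)) F G

theorem BKap_cj_cancel (S : Sys D.toDField (VV B D)) (i : ℤ) (x : Module.End K (VV B D)) :
    (S.cj ^ i) ((S.cj ^ (-i)) x) = x := by
  rw [← RingAut.mul_apply, ← zpow_add, add_neg_cancel, zpow_zero, RingAut.one_apply]

/-- common denominators -/
theorem BKap_common {n : ℕ} (y : Fin n → K) (h : ∀ l, y l ∈ intR D) :
    ∃ b : Lau k, b ≠ 0 ∧ ∃ G : Fin n → (Lau k)[X], ∀ l, D.ι (Polynomial.C b) * y l = D.ι (G l) := by
  classical
  choose b hb G hG using h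
  refine ⟨∏ l, b l, Finset.prod_ne_zero_iff.2 fun l _ => hb l,
    fun l => Polynomial.C (∏ m ∈ Finset.univ.erase l, b m) * G l, fun l => ?_⟩
  rw [map_mul, ← hG l, ← Finset.prod_erase_mul Finset.univ b (Finset.mem_univ l), map_mul, map_mul,
    mul_assoc]

/-- the elements of `NgS` with normalized representatives -/
theorem BKap_basis (M : ℝ) : ∃ (n : ℕ) (z e : Fin n → Module.End K (VV B D))
    (Fz : Fin n → (ℤ × ℤ) →₀ (Lau k)[X]), (∀ l, z l = eI B D (Fz l)) ∧ (∀ l, eP B (Fz l) ∈ AC k M) ∧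
      (∀ x ∈ NgS B D M, ∃ a : Fin n → K, x = ∑ i, a i • z i) ∧
      ∀ i l, LinearMap.trace K (VV B D) (e i * z l) = if i = l then 1 else 0 := by
  obtain ⟨n, z, e, h1, h2, h3⟩ := exists_dual (NgS B D M)
  have h4 : ∀ l, ∃ κ : (Lau k)[X], κ ≠ 0 ∧ ∃ F, D.ι κ • z l = eI B D F ∧ eP B F ∈ AC k M :=
    fun l => (mem_NgS B D M (z l)).1 (h1 l)
  choose κ hκ Fz h5 h6 using h4
  have h7 : ∀ l, D.ι (κ l) ≠ 0 := fun l h => hκ l (D.ι_inj (by rw [h, map_zero]))
  refine ⟨n, fun l => D.ι (κ l) • z l, fun l => (D.ι (κ l))⁻¹ • e l, Fz, h5, h6, ?_, ?_⟩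
  · intro x hx
    obtain ⟨a, ha⟩ := h2 x hx
    refine ⟨fun i => a i * (D.ι (κ i))⁻¹, ?_⟩
    rw [ha]
    refine Finset.sum_congr rfl fun i _ => ?_
    rw [smul_smul, mul_assoc, inv_mul_cancel₀ (h7 i), mul_one]
  · intro i l
    rw [smul_mul_assoc, mul_smul_comm, map_smul, map_smul, h3, smul_eq_mul, smul_eq_mul]
    by_cases h : i = l
    · subst h
      rw [if_pos rfl, mul_one, inv_mul_cancel₀ (h7 i)]
    · rw [if_neg h, mul_zero, mul_zero]

/-- **The uniform denominator.**

Proof. Let `z i`, `e i` be as in `exists_dual` for `NgS B D M`. Multiplying `z i` by a denominator and `e i` by its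
inverse: `z i = eI (Fz i)` with `eP (Fz i) ∈ AC` (`mem_NgS`: `ι κ • z i = eI F`, `eP F ∈ AC`; replace `z i` by
`ι κ • z i` and `e i` by `(ι κ)⁻¹ • e i`). By `exists_eI_fin` there is `κ' ≠ 0` with `ι κ' • e i = eI (Fe i)`.
Let `F` with `x := eI F ∈ NgS` and `i : ℤ`. `y := (S.cj ^ (-i)) x ∈ NgS` (`NgS_cj`), `y = ∑ a l • z l`, so
`x = ∑ a' l • (S.cj ^ i) (z l)` with `a' l := (θ ^ i) (a l)` (`cj_pow_smul`). By `cj_pow_eI`
`(S.cj ^ i) (ι κ' • e l) = eI (shF i (Fe l))` and
`trace (eI (shF i (Fe l)) * x) = (θ ^ i) (trace (ι κ' • e l * y)) = ι (shX i κ') * a' l` (`trace_cj_pow`,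
`map_mul`, `θ_pow_ι`). By `trace_mem_intR` this is in `intR`: there are `b l ≠ 0` and `G l` with
`ι (C (b l)) * (ι (shX i κ') * a' l) = ι (G l)`; with `b₁ := ∏ b l` we get the same for all `l` with the factor
`b₁` and polynomials `G' l`. Hence
`eI (C b₁ * shX i κ' • F - ∑ G' l • shF i (Fz l)) = ι (C b₁ * shX i κ') • x - ∑ ι (G' l) • (S.cj ^ i) (z l) = 0`.
By `eI_zero` there is `b₀ ≠ 0` which kills `eP` of this; so
`(C (b₀ b₁) * shX i κ') • eP F = C b₀ • ∑ G' l • eP (shF i (Fz l)) ∈ AC` (`eP_shF_mem`). -/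
theorem exists_kap' (S : Sys D.toDField (VV B D)) (hS : IsShift B D S) (M : ℝ) :
    ∃ κ' : (Lau k)[X], κ' ≠ 0 ∧ ∀ F : (ℤ × ℤ) →₀ (Lau k)[X], eI B D F ∈ NgS B D M → ∀ i : ℤ,
      ∃ b : Lau k, b ≠ 0 ∧ (Polynomial.C b * shX i κ') • eP B F ∈ AC k M := by
  obtain ⟨n, z, e, Fz, hz, hAC, hspan, htr⟩ := BKap_basis B D M
  obtain ⟨κ', hκ', hFe⟩ := exists_eI_fin B D n e
  choose Fe hFe using hFe
  refine ⟨κ', hκ', fun F hF i => ?_⟩
  obtain ⟨a, ha⟩ := hspan _ (NgS_cj B D S hS M (-i) _ hF)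
  have hx : eI B D F = ∑ l, ((D.θ : RingAut K) ^ i) (a l) • eI B D (shF i (Fz l)) := by
    have h1 := congrArg (S.cj ^ i) ha
    rw [BKap_cj_cancel, map_sum] at h1
    rw [h1]
    refine Finset.sum_congr rfl fun l _ => ?_
    rw [cj_pow_smul, hz, cj_pow_eI B D S hS]
  have hint : ∀ l, D.ι (shX i κ') * ((D.θ : RingAut K) ^ i) (a l) ∈ intR D := by
    intro l
    have h1 : LinearMap.trace K (VV B D) (e l * (S.cj ^ (-i)) (eI B D F)) = a l := by
      rw [ha, Finset.mul_sum, map_sum, Finset.sum_eq_single l]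
      · rw [mul_smul_comm, map_smul, htr, if_pos rfl, smul_eq_mul, mul_one]
      · intro m _ hm
        rw [mul_smul_comm, map_smul, htr, if_neg hm.symm, smul_zero]
      · intro h
        exact absurd (Finset.mem_univ l) h
    have h2 : LinearMap.trace K (VV B D) (eI B D (shF i (Fe l)) * eI B D F) =
        D.ι (shX i κ') * ((D.θ : RingAut K) ^ i) (a l) := by
      have h3 : (S.cj ^ i) (eI B D (Fe l) * (S.cj ^ (-i)) (eI B D F)) =
          eI B D (shF i (Fe l)) * eI B D F := by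
        rw [map_mul, BKap_cj_cancel, cj_pow_eI B D S hS]
      rw [← h3, trace_cj_pow, ← hFe, smul_mul_assoc, map_smul, h1, smul_eq_mul, map_mul, θ_pow_ι]
    rw [← h2]
    exact trace_mem_intR B D _ _
  obtain ⟨b₁, hb₁, G', hG'⟩ := BKap_common D _ hint
  have h0 : eI B D ((Polynomial.C b₁ * shX i κ') • F - ∑ l, G' l • shF i (Fz l)) = 0 := by
    have h9 : D.ι (Polynomial.C b₁ * shX i κ') • eI B D F =
        ∑ l, eI B D (G' l • shF i (Fz l)) := by
      rw [hx, Finset.smul_sum]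
      refine Finset.sum_congr rfl fun l _ => ?_
      rw [eI_smul, ← hG' l, smul_smul, map_mul, mul_assoc]
    rw [BKap_eI_sub, BKap_eI_sum, eI_smul, h9]
    exact sub_self (G := Module.End K (VV B D)) _
  obtain ⟨b₀, hb₀, h1⟩ := eI_zero B D _ h0
  refine ⟨b₀ * b₁, mul_ne_zero hb₀ hb₁, ?_⟩
  rw [BKap_eP_sub, BKap_eP_sum, eP_smul, smul_sub, sub_eq_zero] at h1
  rw [map_mul, mul_assoc, mul_smul, h1]
  refine Submodule.smul_mem _ _ (Submodule.sum_mem _ fun l _ => ?_)
  rw [eP_smul]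
  exact Submodule.smul_mem _ _ (eP_shF_mem B M i (Fz l) (hAC l))

end Pool.Agent.Wb5ab1bf
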