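import Mathlib

/-!
# Derivations of fields of fractions (helper80)
-/

set_option autoImplicit false

noncomputable section

namespace Pool.Agent.Wb5ab1bf

variable {A K : Type} [CommRing A] [IsDomain A] [Field K] [Algebra A K] [IsFractionRing A K]

/-- The ring homomorphism `a ↦ (a, d a)`. -/
def BKb_hom (d : Derivation ℤ A A) : A →+* TrivSqZeroExt K K where
  toFun a := TrivSqZeroExt.inl (algebraMap A K a) + TrivSqZeroExt.inr (algebraMap A K (d a))
  map_one' := by
    rw [map_one, Derivation.map_one_eq_zero, map_zero]
    simp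
  map_zero' := by
    rw [map_zero, map_zero, map_zero]
    simp
  map_add' a b := by
    rw [map_add, map_add, map_add]
    apply TrivSqZeroExt.ext
    · simp
    · simp only [TrivSqZeroExt.snd_add, TrivSqZeroExt.snd_inl, TrivSqZeroExt.snd_inr, zero_add]
  map_mul' a b := by
    rw [map_mul, Derivation.leibniz, map_add]
    apply TrivSqZeroExt.ext
    · simp
    · simp only [smul_eq_mul, map_mul, TrivSqZeroExt.snd_add, TrivSqZeroExt.snd_inl,
        TrivSqZeroExt.snd_inr, zero_add, TrivSqZeroExt.snd_mul, TrivSqZeroExt.fst_add,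
        TrivSqZeroExt.fst_inl, TrivSqZeroExt.fst_inr, add_zero, MulOpposite.smul_eq_mul_unop,
        MulOpposite.unop_op]
      ring

theorem BKb_fst (d : Derivation ℤ A A) (a : A) :
    (BKb_hom (K := K) d a).fst = algebraMap A K a := by
  simp [BKb_hom]

theorem BKb_snd (d : Derivation ℤ A A) (a : A) :
    (BKb_hom (K := K) d a).snd = algebraMap A K (d a) := by
  show (TrivSqZeroExt.inl (algebraMap A K a) + TrivSqZeroExt.inr (algebraMap A K (d a)) :
    TrivSqZeroExt K K).snd = algebraMap A K (d a)
  rw [TrivSqZeroExt.snd_add, TrivSqZeroExt.snd_inl, TrivSqZeroExt.snd_inr, zero_add]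

theorem BKb_unit (d : Derivation ℤ A A) (y : nonZeroDivisors A) :
    IsUnit (BKb_hom (K := K) d y) := by
  rw [TrivSqZeroExt.isUnit_iff_isUnit_fst, BKb_fst]
  exact IsLocalization.map_units K y

/-- A derivation extends to the field of fractions.

Proof. One possibility: the ring homomorphism `A → TrivSqZeroExt K K`, `a ↦ (a, d a)` sends nonzero elements to
units (`TrivSqZeroExt.isUnit_iff_isUnit_fst`), so it lifts to `K` (`IsLocalization.lift`); its first component is the
identity of `K` (uniqueness of lifts), its second component is the derivation. Another one: define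
`d' f := (d p * q - p * d q) / q ^ 2` for `f = p / q` (`IsLocalization.sec`, well defined) and check the rules. -/
theorem exists_ext_der (d : Derivation ℤ A A) :
    ∃ d' : Derivation ℤ K K, ∀ a, d' (algebraMap A K a) = algebraMap A K (d a) := by
  let g : K →+* TrivSqZeroExt K K := IsLocalization.lift (M := nonZeroDivisors A)
    (g := BKb_hom (K := K) d) (BKb_unit d)
  have hg : ∀ a, g (algebraMap A K a) = BKb_hom (K := K) d a := fun a =>
    IsLocalization.lift_eq (M := nonZeroDivisors A) (BKb_unit d) a
  have hfst : ∀ x : K, (g x).fst = x := by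
    have h1 : ((TrivSqZeroExt.fstHom K K K : TrivSqZeroExt K K →ₐ[K] K) : TrivSqZeroExt K K →+* K).comp g =
        RingHom.id K := by
      apply IsLocalization.ringHom_ext (nonZeroDivisors A)
      apply RingHom.ext
      intro a
      show (g (algebraMap A K a)).fst = algebraMap A K a
      rw [hg, BKb_fst]
    intro x
    exact congrArg (fun f : K →+* K => f x) h1
  let D : K →+ K :=
    { toFun := fun x => (g x).snd
      map_zero' := by rw [map_zero]; rfl
      map_add' := fun x y => by rw [map_add]; rfl }
  refine ⟨Derivation.mk' D.toIntLinearMap ?_, ?_⟩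
  · intro a b
    show (g (a * b)).snd = a • (g b).snd + b • (g a).snd
    rw [map_mul, TrivSqZeroExt.snd_mul, hfst, hfst, MulOpposite.smul_eq_mul_unop,
      MulOpposite.unop_op, smul_eq_mul, smul_eq_mul, mul_comm b]
  · intro a
    show (g (algebraMap A K a)).snd = algebraMap A K (d a)
    rw [hg, BKb_snd]

theorem BKb_frac (f : K) : ∃ p q : A, algebraMap A K q ≠ 0 ∧ f * algebraMap A K q = algebraMap A K p := by
  obtain ⟨p, q, hq, rfl⟩ := IsFractionRing.div_surjective (A := A) f
  have hq0 : algebraMap A K q ≠ 0 := by
    intro h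
    have h1 : q = 0 := (IsFractionRing.injective A K) (by rw [h, map_zero])
    exact nonZeroDivisors.ne_zero hq h1
  exact ⟨p, q, hq0, div_mul_cancel₀ _ hq0⟩

/-- Two derivations of the field of fractions which coincide on `A` are equal. Proof: `f * q = p`,
`d f * q + f * d q = d p` (`Derivation.leibniz`). -/
theorem ext_der {d d' : Derivation ℤ K K} (h : ∀ a, d (algebraMap A K a) = d' (algebraMap A K a)) :
    d = d' := by
  apply Derivation.ext
  intro f
  obtain ⟨p, q, hq, hf⟩ := BKb_frac (A := A) f
  have h1 := congrArg d hf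
  have h2 := congrArg d' hf
  rw [Derivation.leibniz, h] at h1
  rw [Derivation.leibniz, ← h p, ← h1, ← h] at h2
  rw [h p, ← h p, h] at h1
  have h3 : algebraMap A K q • d f = algebraMap A K q • d' f := by
    rw [h] at h2
    exact (add_left_cancel h2).symm
  exact mul_left_cancel₀ hq h3

/-- Two commuting derivations of `A` commute on the field of fractions. The commutator of two
derivations is a derivation (`Derivation` has a Lie bracket, `Derivation.commutator_apply`); `ext_der`. -/
theorem comm_der {d₁ d₂ : Derivation ℤ K K}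
    (h : ∀ a, d₁ (d₂ (algebraMap A K a)) = d₂ (d₁ (algebraMap A K a))) (f : K) :
    d₁ (d₂ f) = d₂ (d₁ f) := by
  have h1 : ⁅d₁, d₂⁆ = 0 := by
    apply ext_der (A := A)
    intro a
    rw [Derivation.commutator_apply, h, sub_self, Derivation.zero_apply]
  have h2 := Derivation.commutator_apply (D1 := d₁) (D2 := d₂) f
  rw [h1, Derivation.zero_apply] at h2
  exact (sub_eq_zero.1 h2.symm)

/-- Compatibility with an automorphism. Proof: `f * q = p`; apply both sides to `d₁ f * q + f * d₁ q = d₁ p`. -/
theorem theta_der {θ : K ≃+* K} {d₁ d₂ : Derivation ℤ K K}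
    (h : ∀ a, θ (d₁ (algebraMap A K a)) = d₂ (θ (algebraMap A K a))) (f : K) :
    θ (d₁ f) = d₂ (θ f) := by
  obtain ⟨p, q, hq, hf⟩ := BKb_frac (A := A) f
  have h1 := congrArg (fun x => θ (d₁ x)) hf
  have h2 := congrArg (fun x => d₂ (θ x)) hf
  simp only [Derivation.leibniz, map_add, map_mul, smul_eq_mul, h] at h1 h2
  have hq' : θ (algebraMap A K q) ≠ 0 := fun h0 => hq (by simpa using h0)
  apply mul_left_cancel₀ hq'
  have h3 := h1.trans h2.symm
  exact add_left_cancel h3

end Pool.Agent.Wb5ab1bf
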