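import Pool.Agent.W_b5ab1bf_h80.BKa

/-!
# Fractions which do not depend on some of the variables (helper80)
-/

set_option autoImplicit false

noncomputable section

open scoped Polynomial
open Pool.Agent.Wb5ab1b

namespace Pool.Agent.Wb5ab1bf

variable {k : ℕ}

theorem BKc_derX_zero (j : ℤ × Fin k) : derX j (0 : (Lau k)[X]) = 0 := by
  apply Polynomial.ext
  intro n
  rw [coeff_derX, Polynomial.coeff_zero, GSh_der_zero]

theorem BKc_der_smul (j : ℤ × Fin k) (c : ℂ) (F : Lau k) : der j (c • F) = c • der j F := by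
  apply AddMonoidAlgebra.coeff_injective
  apply Finsupp.ext
  intro η
  rw [GSh_der_coeff, AddMonoidAlgebra.coeff_smul, AddMonoidAlgebra.coeff_smul, Finsupp.smul_apply,
    Finsupp.smul_apply, GSh_der_coeff, smul_eq_mul, smul_eq_mul]
  ring

/-- The derivative as a linear map. -/
def BKc_D (j : ℤ × Fin k) : (Lau k)[X] →ₗ[ℂ] (Lau k)[X] where
  toFun := derX j
  map_add' := derX_add j
  map_smul' c p := by
    apply Polynomial.ext
    intro n
    rw [coeff_derX, Polynomial.coeff_smul, RingHom.id_apply, Polynomial.coeff_smul, coeff_derX,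
      BKc_der_smul]

theorem BKc_D_apply (j : ℤ × Fin k) (p : (Lau k)[X]) : BKc_D j p = derX j p := rfl

theorem BKc_neg (j : ℤ × Fin k) (p : (Lau k)[X]) : derX j (-p) = -derX j p :=
  map_neg (BKc_D j) p

theorem BKc_pow (j : ℤ × Fin k) (p q : (Lau k)[X]) (hq : q ≠ 0)
    (h : derX j p * q = p * derX j q) (n : ℕ) :
    ((BKc_D j) ^ n) p * q = p * ((BKc_D j) ^ n) q := by
  induction n with
  | zero => simp
  | succ n ih =>
    have e1 : ((BKc_D j) ^ (n + 1)) p = derX j (((BKc_D j) ^ n) p) := by
      rw [pow_succ']; rfl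
    have e2 : ((BKc_D j) ^ (n + 1)) q = derX j (((BKc_D j) ^ n) q) := by
      rw [pow_succ']; rfl
    rw [e1, e2]
    set P := ((BKc_D j) ^ n) p
    set Q := ((BKc_D j) ^ n) q
    have h1 := congrArg (derX j) ih
    rw [derX_mul, derX_mul] at h1
    have h2 : P * derX j q = Q * derX j p := by
      apply mul_right_cancel₀ hq
      calc P * derX j q * q = (P * q) * derX j q := by ring
        _ = (p * Q) * derX j q := by rw [ih]
        _ = Q * (p * derX j q) := by ring
        _ = Q * (derX j p * q) := by rw [h]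
        _ = Q * derX j p * q := by ring
    rw [h2] at h1
    have h3 : q * derX j P = p * derX j Q := by
      have := h1
      rw [add_comm (p * derX j Q)] at this
      exact add_left_cancel this
    rw [mul_comm]
    exact h3

theorem BKc_aeval (j : ℤ × Fin k) (p q : (Lau k)[X]) (hq : q ≠ 0)
    (h : derX j p * q = p * derX j q) (P : ℂ[X]) :
    (Polynomial.aeval (BKc_D j) P) p * q = p * (Polynomial.aeval (BKc_D j) P) q := by
  induction P using Polynomial.induction_on' with
  | add P Q hP hQ =>
    rw [map_add, LinearMap.add_apply, LinearMap.add_apply, add_mul, mul_add, hP, hQ]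
  | monomial n c =>
    rw [Polynomial.aeval_monomial, ← Algebra.smul_def, LinearMap.smul_apply, LinearMap.smul_apply,
      smul_mul_assoc, mul_smul_comm, BKc_pow j p q hq h n]

/-- The polynomial with the roots `2 π i m`, `m ∈ M`. -/
def BKc_P (M : Finset ℤ) : ℂ[X] :=
  ∏ m ∈ M, (Polynomial.X - Polynomial.C (2 * Real.pi * Complex.I * (m : ℂ)))

theorem BKc_mono {j : ℤ × Fin k} {M N : Finset ℤ} (h : M ⊆ N) {p : (Lau k)[X]}
    (hp : (Polynomial.aeval (BKc_D j) (BKc_P M)) p = 0) :
    (Polynomial.aeval (BKc_D j) (BKc_P N)) p = 0 := by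
  obtain ⟨c, hc⟩ := Finset.prod_dvd_prod_of_subset M N
    (fun m : ℤ => (Polynomial.X - Polynomial.C (2 * Real.pi * Complex.I * (m : ℂ)) : ℂ[X])) h
  have h1 : BKc_P N = c * BKc_P M := by
    unfold BKc_P
    rw [hc, mul_comm]
  rw [h1, map_mul, Module.End.mul_apply, hp, map_zero]

theorem BKc_exists (j : ℤ × Fin k) (p : (Lau k)[X]) :
    ∃ M : Finset ℤ, (Polynomial.aeval (BKc_D j) (BKc_P M)) p = 0 := by
  classical
  induction p using Polynomial.induction_on' with
  | add p q hp hq =>
    obtain ⟨M, hM⟩ := hp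
    obtain ⟨N, hN⟩ := hq
    refine ⟨M ∪ N, ?_⟩
    rw [map_add, BKc_mono Finset.subset_union_left hM, BKc_mono Finset.subset_union_right hN,
      add_zero]
  | monomial n F =>
    induction F using AddMonoidAlgebra.induction_linear with
    | zero => exact ⟨∅, by rw [Polynomial.monomial_zero_right, map_zero]⟩
    | add F G hF hG =>
      obtain ⟨M, hM⟩ := hF
      obtain ⟨N, hN⟩ := hG
      refine ⟨M ∪ N, ?_⟩
      rw [map_add (Polynomial.monomial n), map_add, BKc_mono Finset.subset_union_left hM,
        BKc_mono Finset.subset_union_right hN, add_zero]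
    | single η c =>
      refine ⟨{η j}, ?_⟩
      unfold BKc_P
      rw [Finset.prod_singleton, map_sub, Polynomial.aeval_X, Polynomial.aeval_C,
        LinearMap.sub_apply, BKc_D_apply, Module.algebraMap_end_apply, sub_eq_zero]
      apply Polynomial.ext
      intro m
      rw [coeff_derX, Polynomial.coeff_smul, Polynomial.coeff_monomial]
      split_ifs
      · rw [der_single, AddMonoidAlgebra.smul_single, smul_eq_mul]
      · rw [GSh_der_zero, smul_zero]

theorem BKc_min (j : ℤ × Fin k) (q : (Lau k)[X]) (hq : q ≠ 0) (M : Finset ℤ)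
    (hM : (Polynomial.aeval (BKc_D j) (BKc_P M)) q = 0) :
    ∃ (N : Finset ℤ) (m : ℤ), (Polynomial.aeval (BKc_D j) (BKc_P N)) q ≠ 0 ∧
      (Polynomial.aeval (BKc_D j)
        ((Polynomial.X - Polynomial.C (2 * Real.pi * Complex.I * (m : ℂ))) * BKc_P N)) q = 0 := by
  classical
  induction M using Finset.induction_on with
  | empty =>
    exfalso
    apply hq
    unfold BKc_P at hM
    rw [Finset.prod_empty, map_one, Module.End.one_apply] at hM
    exact hM
  | insert a M ha ih =>
    by_cases h0 : (Polynomial.aeval (BKc_D j) (BKc_P M)) q = 0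
    · exact ih h0
    · refine ⟨M, a, h0, ?_⟩
      unfold BKc_P at hM ⊢
      rw [Finset.prod_insert ha] at hM
      exact hM

theorem BKc_comm (i j : ℤ × Fin k) (P : ℂ[X]) (p : (Lau k)[X]) (h : derX i p = 0) :
    derX i ((Polynomial.aeval (BKc_D j) P) p) = 0 := by
  induction P using Polynomial.induction_on' with
  | add P Q hP hQ => rw [map_add, LinearMap.add_apply, derX_add, hP, hQ, add_zero]
  | monomial n c =>
    rw [Polynomial.aeval_monomial, ← Algebra.smul_def, LinearMap.smul_apply]
    have h1 : derX i (((BKc_D j) ^ n) p) = 0 := by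
      induction n with
      | zero => simpa using h
      | succ n ih =>
        have e1 : ((BKc_D j) ^ (n + 1)) p = derX j (((BKc_D j) ^ n) p) := by
          rw [pow_succ']; rfl
        rw [e1, derX_comm, ih, BKc_derX_zero]
    have h2 : derX i (c • ((BKc_D j) ^ n) p) = c • derX i (((BKc_D j) ^ n) p) :=
      map_smul (BKc_D i) c _
    rw [h2, h1, smul_zero]

/-- One variable is removed: if the derivative of `p / q` with respect to the variable `j` is `0` then
`p / q = p' / q'` with `derX j p' = 0`, `derX j q' = 0`, and no new variables.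

Proof. For `m : ℤ` let `comp m F` be the part of the Laurent polynomial `F` with exponent `η j = m`
(`Finsupp.filter` of the coefficients), coefficientwise for polynomials. `p = ∑ p_m`, `q = ∑ q_m`
(finite sums), `derX j p_m = (2 π i m) p_m`. From the hypothesis by induction on `n`:
`(derX j)^n p * q = p * (derX j)^n q`. Hence `∑_m (2 π i m)^n (p_m * q - p * q_m) = 0` for all `n`; the numbers
`2 π i m` are distinct, so (Vandermonde, or: apply a polynomial in `derX j` which vanishes at all the
`2 π i m` of the finite set except one) `p_m * q = p * q_m` for all `m`. Choose `m` with `q_m ≠ 0` and put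
`p' := y_j^(-m) p_m`, `q' := y_j^(-m) q_m`, where `y_j^(-m) = AddMonoidAlgebra.single (Finsupp.single j (-m)) 1`:
the exponents of `j` are `0`, so `derX j p' = derX j q' = 0`. If `derX i p = 0` then `η i = 0` for all exponents
`η` of `p`, so for those of `p'` (for `i ≠ j`). -/
theorem cst_step (j : ℤ × Fin k) (p q : (Lau k)[X]) (hq : q ≠ 0)
    (h : derX j p * q = p * derX j q) :
    ∃ p' q' : (Lau k)[X], q' ≠ 0 ∧ p' * q = p * q' ∧ derX j p' = 0 ∧ derX j q' = 0 ∧
      ∀ i, derX i p = 0 → derX i q = 0 → derX i p' = 0 ∧ derX i q' = 0 := by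
  classical
  obtain ⟨M, hM⟩ := BKc_exists j q
  obtain ⟨N, m, hN, hm⟩ := BKc_min j q hq M hM
  set P := BKc_P N with hP
  set lam : ℂ := 2 * Real.pi * Complex.I * (m : ℂ) with hlam
  set Q'' := (Polynomial.aeval (BKc_D j) P) q with hQ''
  set P'' := (Polynomial.aeval (BKc_D j) P) p with hP''
  have hPQ : P'' * q = p * Q'' := BKc_aeval j p q hq h P
  have hQd : derX j Q'' = lam • Q'' := by
    rw [map_mul, Module.End.mul_apply, map_sub, Polynomial.aeval_X, Polynomial.aeval_C,
      LinearMap.sub_apply, Module.algebraMap_end_apply, sub_eq_zero] at hm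
    exact hm
  have hPd : derX j P'' = lam • P'' := by
    have h1 := BKc_aeval j p q hq h ((Polynomial.X - Polynomial.C lam) * P)
    rw [hm, mul_zero] at h1
    have h2 := (mul_eq_zero.1 h1).resolve_right hq
    rw [map_mul, Module.End.mul_apply, map_sub, Polynomial.aeval_X, Polynomial.aeval_C,
      LinearMap.sub_apply, Module.algebraMap_end_apply, sub_eq_zero] at h2
    exact h2
  set y : Lau k := AddMonoidAlgebra.single (Finsupp.single j (-m)) 1 with hy
  have hy0 : y ≠ 0 := by
    intro h0
    have h1 : (1 : ℂ) = 0 := AddMonoidAlgebra.single_eq_zero.1 h0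
    exact one_ne_zero h1
  have hdy : der j y = (-lam) • y := by
    rw [hy, der_single, AddMonoidAlgebra.smul_single, Finsupp.single_eq_same, smul_eq_mul, hlam]
    congr 1
    push_cast
    ring
  have hdyi : ∀ i, i ≠ j → der i y = 0 := by
    intro i hi
    rw [hy, der_single, Finsupp.single_eq_of_ne hi]
    simp
  have key : ∀ W : (Lau k)[X], derX j W = lam • W → derX j (Polynomial.C y * W) = 0 := by
    intro W hW
    rw [derX_mul, hW, derX_C, hdy, mul_smul_comm, mul_comm W]
    have e : (Polynomial.C ((-lam) • y) : (Lau k)[X]) = (-lam) • Polynomial.C y :=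
      Polynomial.smul_C (-lam) y |>.symm
    rw [e, smul_mul_assoc, neg_smul, add_neg_cancel]
  refine ⟨Polynomial.C y * P'', Polynomial.C y * Q'', ?_, ?_, key P'' hPd, key Q'' hQd, ?_⟩
  · exact mul_ne_zero (Polynomial.C_ne_zero.2 hy0) hN
  · rw [mul_assoc, hPQ]; ring
  · intro i hpi hqi
    by_cases hij : i = j
    · subst hij
      exact ⟨key P'' hPd, key Q'' hQd⟩
    · have h1 : derX i P'' = 0 := BKc_comm i j P p hpi
      have h2 : derX i Q'' = 0 := BKc_comm i j P q hqi
      rw [derX_mul, derX_mul, h1, h2, derX_C, hdyi i hij, Polynomial.C_0]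
      simp

/-- All the variables outside `S` are removed. Induction on the number of `j ∉ S` with `derX j p ≠ 0` or
`derX j q ≠ 0` (finite by `derX_finite`) with `cst_step`; from `p' * q = p * q'` the hypothesis passes to
`p'`, `q'`: multiply `derX i p' * q + p' * derX i q = derX i p * q' + p * derX i q'` by `q` and use
`derX i p * q = p * derX i q`, `p' * q = p * q'`; cancel `q`, `q`. -/
theorem cst_red (S : Set (ℤ × Fin k)) (p q : (Lau k)[X]) (hq : q ≠ 0)
    (h : ∀ j, j ∉ S → derX j p * q = p * derX j q) :
    ∃ p' q' : (Lau k)[X], q' ≠ 0 ∧ p' * q = p * q' ∧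
      ∀ j, j ∉ S → derX j p' = 0 ∧ derX j q' = 0 := by
  have main : ∀ (n : ℕ) (p q : (Lau k)[X]), q ≠ 0 →
      (∀ j, j ∉ S → derX j p * q = p * derX j q) →
      {j | j ∉ S ∧ (derX j p ≠ 0 ∨ derX j q ≠ 0)}.ncard ≤ n →
      ∃ p' q' : (Lau k)[X], q' ≠ 0 ∧ p' * q = p * q' ∧
        ∀ j, j ∉ S → derX j p' = 0 ∧ derX j q' = 0 := by
    intro n
    induction n with
    | zero =>
      intro p q hq h hn
      have hfin : {j | j ∉ S ∧ (derX j p ≠ 0 ∨ derX j q ≠ 0)}.Finite := by
        refine ((derX_finite p).union (derX_finite q)).subset ?_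
        rintro j ⟨_, hj⟩
        exact hj
      have hemp := (Set.ncard_eq_zero hfin).1 (Nat.le_zero.1 hn)
      refine ⟨p, q, hq, rfl, fun j hj => ?_⟩
      by_contra hcon
      have : j ∈ ({j | j ∉ S ∧ (derX j p ≠ 0 ∨ derX j q ≠ 0)} : Set (ℤ × Fin k)) := by
        refine ⟨hj, ?_⟩
        by_contra h2
        push Not at h2
        exact hcon h2
      rw [hemp] at this
      exact this
    | succ n ih =>
      intro p q hq h hn
      have hfin : {j | j ∉ S ∧ (derX j p ≠ 0 ∨ derX j q ≠ 0)}.Finite := by
        refine ((derX_finite p).union (derX_finite q)).subset ?_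
        rintro j ⟨_, hj⟩
        exact hj
      by_cases hemp : {j | j ∉ S ∧ (derX j p ≠ 0 ∨ derX j q ≠ 0)} = ∅
      · apply ih p q hq h
        rw [hemp, Set.ncard_empty]
        exact Nat.zero_le _
      · obtain ⟨j, hj, hjd⟩ := Set.nonempty_iff_ne_empty.2 hemp
        obtain ⟨p₁, q₁, hq₁, h₁, hp₁j, hq₁j, hi⟩ := cst_step j p q hq (h j hj)
        have h' : ∀ i, i ∉ S → derX i p₁ * q₁ = p₁ * derX i q₁ := by
          intro i hiS
          have e1 := congrArg (derX i) h₁
          rw [derX_mul, derX_mul] at e1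
          have e2 := h i hiS
          have e3 : derX i p₁ * q = p * derX i q₁ := by
            apply mul_right_cancel₀ hq
            have e4 : (p₁ * derX i q + q * derX i p₁) * q = (p * derX i q₁ + q₁ * derX i p) * q := by
              rw [e1]
            have e5 : q₁ * derX i p * q = p₁ * derX i q * q := by
              calc q₁ * derX i p * q = q₁ * (derX i p * q) := by ring
                _ = q₁ * (p * derX i q) := by rw [e2]
                _ = (p * q₁) * derX i q := by ring
                _ = (p₁ * q) * derX i q := by rw [h₁]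
                _ = p₁ * derX i q * q := by ring
            have e6 : p₁ * derX i q * q + derX i p₁ * q * q =
                p₁ * derX i q * q + p * derX i q₁ * q := by
              calc p₁ * derX i q * q + derX i p₁ * q * q = (p₁ * derX i q + q * derX i p₁) * q := by ring
                _ = (p * derX i q₁ + q₁ * derX i p) * q := e4
                _ = q₁ * derX i p * q + p * derX i q₁ * q := by ring
                _ = p₁ * derX i q * q + p * derX i q₁ * q := by rw [e5]
            exact add_left_cancel e6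
          apply mul_right_cancel₀ hq
          calc derX i p₁ * q₁ * q = (derX i p₁ * q) * q₁ := by ring
            _ = (p * derX i q₁) * q₁ := by rw [e3]
            _ = (p * q₁) * derX i q₁ := by ring
            _ = (p₁ * q) * derX i q₁ := by rw [h₁]
            _ = p₁ * derX i q₁ * q := by ring
        have hlt : {i | i ∉ S ∧ (derX i p₁ ≠ 0 ∨ derX i q₁ ≠ 0)}.ncard ≤ n := by
          have hss : {i | i ∉ S ∧ (derX i p₁ ≠ 0 ∨ derX i q₁ ≠ 0)} ⊂
              {i | i ∉ S ∧ (derX i p ≠ 0 ∨ derX i q ≠ 0)} := by
            rw [Set.ssubset_iff_of_subset]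
            · refine ⟨j, ⟨hj, hjd⟩, ?_⟩
              rintro ⟨_, h3⟩
              rcases h3 with h3 | h3
              · exact h3 hp₁j
              · exact h3 hq₁j
            · rintro i ⟨hiS, h3⟩
              refine ⟨hiS, ?_⟩
              by_contra h4
              push Not at h4
              have h5 := hi i h4.1 h4.2
              rcases h3 with h3 | h3
              · exact h3 h5.1
              · exact h3 h5.2
          have := Set.ncard_lt_ncard hss hfin
          omega
        obtain ⟨p', q', hq', h₂, h₃⟩ := ih p₁ q₁ hq₁ h' hlt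
        refine ⟨p', q', hq', ?_, h₃⟩
        apply mul_right_cancel₀ hq₁
        calc p' * q * q₁ = (p' * q₁) * q := by ring
          _ = (p₁ * q') * q := by rw [h₂]
          _ = (p₁ * q) * q' := by ring
          _ = (p * q₁) * q' := by rw [h₁]
          _ = p * q' * q₁ := by ring
  exact main _ p q hq h le_rfl

/-- The same for Laurent polynomials. `cst_red` for `C p`, `C q`; take a coefficient `n` with
`q'.coeff n ≠ 0`. -/
theorem cst_redL (p q : Lau k) (hq : q ≠ 0) (h : ∀ j, der j p * q = p * der j q) :
    ∃ c d : ℂ, d ≠ 0 ∧ algebraMap ℂ (Lau k) c * q = p * algebraMap ℂ (Lau k) d := by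
  obtain ⟨p', q', hq', h₁, h₂⟩ := cst_red (∅ : Set (ℤ × Fin k)) (Polynomial.C p) (Polynomial.C q)
    (Polynomial.C_ne_zero.2 hq) (fun j _ => by
      rw [derX_C, derX_C, ← Polynomial.C_mul, ← Polynomial.C_mul, h j])
  obtain ⟨p₀, rfl⟩ := exists_cX (fun j => (h₂ j (Set.notMem_empty j)).1)
  obtain ⟨q₀, rfl⟩ := exists_cX (fun j => (h₂ j (Set.notMem_empty j)).2)
  have hq₀ : q₀ ≠ 0 := by
    rintro rfl
    exact hq' (map_zero _)
  obtain ⟨n, hn⟩ : ∃ n, q₀.coeff n ≠ 0 := by
    by_contra hcon
    push Not at hcon
    exact hq₀ (Polynomial.ext (fun n => by rw [hcon n, Polynomial.coeff_zero]))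
  refine ⟨p₀.coeff n, q₀.coeff n, hn, ?_⟩
  have h3 := congrArg (fun r : (Lau k)[X] => r.coeff n) h₁
  simp only [Polynomial.coeff_mul_C, Polynomial.coeff_C_mul] at h3
  unfold cX at h3
  rw [Polynomial.coe_mapRingHom, Polynomial.coeff_map, Polynomial.coeff_map] at h3
  exact h3

/-- A polynomial which depends only on the variables of `S ∪ T` is a sum of products of polynomials which
depend only on the variables of `S` and of `T`. Monomials: `x^η = x^(η on S) * x^(η outside S)`. -/
theorem poly_split (S T : Set (ℤ × Fin k)) (p : (Lau k)[X])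
    (h : ∀ j, j ∉ S ∪ T → derX j p = 0) :
    p ∈ Subring.closure ({g : (Lau k)[X] | ∀ j, j ∉ S → derX j g = 0} ∪
      {g : (Lau k)[X] | ∀ j, j ∉ T → derX j g = 0}) := by
  classical
  set R := Subring.closure ({g : (Lau k)[X] | ∀ j, j ∉ S → derX j g = 0} ∪
      {g : (Lau k)[X] | ∀ j, j ∉ T → derX j g = 0}) with hR
  have hX : (Polynomial.X : (Lau k)[X]) ∈ R :=
    Subring.subset_closure (Or.inl (fun j _ => derX_X j))
  have hsplit : ∀ (η : (ℤ × Fin k) →₀ ℤ) (c : ℂ), (∀ j, j ∉ S ∪ T → η j = 0) →
      (Polynomial.C (AddMonoidAlgebra.single η c) : (Lau k)[X]) ∈ R := by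
    intro η c hη
    have e1 : (AddMonoidAlgebra.single η c : Lau k) =
        AddMonoidAlgebra.single (η.filter (fun j => j ∈ S)) c *
          AddMonoidAlgebra.single (η.filter (fun j => ¬ j ∈ S)) 1 := by
      rw [AddMonoidAlgebra.single_mul_single, mul_one, Finsupp.filter_pos_add_filter_neg]
    rw [e1, Polynomial.C_mul]
    apply Subring.mul_mem
    · apply Subring.subset_closure
      left
      intro j hj
      rw [derX_C, der_single, Finsupp.filter_apply_neg _ _ hj]
      simp
    · apply Subring.subset_closure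
      right
      intro j hj
      rw [derX_C, der_single]
      have h0 : (η.filter (fun j => ¬ j ∈ S)) j = 0 := by
        by_cases hjS : j ∈ S
        · exact Finsupp.filter_apply_neg _ _ (not_not.2 hjS)
        · rw [Finsupp.filter_apply_pos (fun j => ¬ j ∈ S) _ hjS]
          exact hη j (fun hu => hu.elim hjS hj)
      rw [h0]
      simp
  have hC : ∀ F : Lau k, (∀ j, j ∉ S ∪ T → der j F = 0) → (Polynomial.C F : (Lau k)[X]) ∈ R := by
    intro F hF
    rw [← AddMonoidAlgebra.sum_coeff_single F, Finsupp.sum, map_sum]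
    apply Subring.sum_mem
    intro η hη
    apply hsplit
    intro j hj
    exact (GSh_der_eq_zero j F).1 (hF j hj) η (Finsupp.mem_support_iff.1 hη)
  rw [p.as_sum_support_C_mul_X_pow]
  apply Subring.sum_mem
  intro n _
  apply Subring.mul_mem _ _ (Subring.pow_mem _ hX n)
  apply hC
  intro j hj
  rw [← coeff_derX, h j hj, Polynomial.coeff_zero]

end Pool.Agent.Wb5ab1bf
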