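import Pool.Agent.W_b5ab1bf_h80.BKb
import Pool.Agent.W_b5ab1bf_h80.BKc

/-!
# The shift of fractions and of Laurent series, the expansion at infinity (helper80)
-/

set_option autoImplicit false

noncomputable section

open scoped Polynomial
open Pool.Agent.Wb5ab1b

namespace Pool.Agent.Wb5ab1bf

/-- the shift as an automorphism -/
def BKd_shE (k : ℕ) : Lau k ≃+* Lau k where
  toFun := sh 1
  invFun := sh (-1)
  left_inv F := by
    rw [sh_sh, neg_add_cancel, sh_zero]
  right_inv F := by
    rw [sh_sh, add_neg_cancel, sh_zero]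
  map_mul' := map_mul (sh 1)
  map_add' := map_add (sh 1)

theorem BKd_ext {A K : Type} [CommRing A] [IsDomain A] [Field K] [Algebra A K]
    [IsFractionRing A K] (D : A → A) (h0 : D 0 = 0) (hadd : ∀ x y, D (x + y) = D x + D y)
    (hmul : ∀ x y, D (x * y) = x * D y + y * D x) :
    ∃ d' : Derivation ℤ K K, ∀ a, d' (algebraMap A K a) = algebraMap A K (D a) :=
  exists_ext_der (A := A) (K := K) (Derivation.mk' (AddMonoidHom.toIntLinearMap
    { toFun := D
      map_zero' := h0
      map_add' := hadd }) (fun F G => by
    change D (F * G) = F • D G + G • D F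
    rw [hmul, smul_eq_mul, smul_eq_mul]))

theorem BKd_fixed {k : ℕ} {K : Type} [Field K] [Algebra (Lau k) K] [IsFractionRing (Lau k) K]
    (th : RingAut K) (h : ∀ F : Lau k, th (algebraMap (Lau k) K F) =
      algebraMap (Lau k) K (sh 1 F))
    (n : ℕ) (f : K) (hn : 0 < n) (hf : (th ^ n) f = f) :
    ∃ c : ℂ, f = algebraMap (Lau k) K (algebraMap ℂ (Lau k) c) := by
  choose δ hδ using fun j : ℤ × Fin k =>
    BKd_ext (A := Lau k) (K := K) (der j) (GSh_der_zero j) (der_add j) (der_mul j)
  obtain ⟨p, q, hq, rfl⟩ := IsFractionRing.div_surjective (A := Lau k) f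
  have hq0 : q ≠ 0 := nonZeroDivisors.ne_zero hq
  have hinj : Function.Injective (algebraMap (Lau k) K) :=
    IsFractionRing.injective (Lau k) K
  have hq1 : algebraMap (Lau k) K q ≠ 0 := by
    intro h0
    apply hq0
    apply hinj
    rw [h0, map_zero]
  set f : K := algebraMap (Lau k) K p /
    algebraMap (Lau k) K q with hfd
  have hfq : f * algebraMap (Lau k) K q =
      algebraMap (Lau k) K p := div_mul_cancel₀ _ hq1
  have hleib : ∀ j, f * algebraMap (Lau k) K (der j q) +
      algebraMap (Lau k) K q * δ j f =
        algebraMap (Lau k) K (der j p) := by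
    intro j
    have h1 := congrArg (δ j) hfq
    rw [Derivation.leibniz, hδ, hδ, smul_eq_mul, smul_eq_mul] at h1
    exact h1
  have hzero : ∀ j, der j p = 0 → der j q = 0 → δ j f = 0 := by
    intro j h1 h2
    have h3 := hleib j
    rw [h1, h2, map_zero, mul_zero, zero_add] at h3
    exact (mul_eq_zero.mp h3).resolve_left hq1
  have hfin : {j | δ j f ≠ 0}.Finite := by
    refine ((der_finite p).union (der_finite q)).subset fun j hj => ?_
    by_contra hcon
    rw [Set.mem_union, not_or] at hcon
    obtain ⟨h1, h2⟩ := hcon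
    exact hj (hzero j (not_not.mp h1) (not_not.mp h2))
  have hth1 : ∀ j g, th (δ j g) = δ (sft 1 j) (th g) := by
    intro j g
    refine theta_der (A := Lau k) (θ := th) (d₁ := δ j) (d₂ := δ (sft 1 j)) (fun a => ?_) g
    rw [hδ, h, h, hδ, der_sh]
    congr 3
    refine Prod.ext ?_ rfl
    change j.1 = j.1 + 1 - 1
    ring
  have hthm : ∀ (m : ℕ) j g, (th ^ m) (δ j g) = δ (sft m j) ((th ^ m) g) := by
    intro m
    induction m with
    | zero =>
      intro j g
      rw [pow_zero, Nat.cast_zero, sft_zero]
      rfl
    | succ m ih =>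
      intro j g
      rw [pow_succ']
      change th ((th ^ m) (δ j g)) = δ (sft ((m + 1 : ℕ) : ℤ) j) (th ((th ^ m) g))
      rw [ih, hth1, sft_sft]
      push_cast
      rfl
  have hper : ∀ m : ℕ, (th ^ (n * m)) f = f := by
    intro m
    induction m with
    | zero => rfl
    | succ m ih =>
      rw [Nat.mul_succ, pow_add]
      change (th ^ (n * m)) ((th ^ n) f) = f
      rw [hf, ih]
  have hall : ∀ j, δ j f = 0 := by
    intro j
    by_contra hj
    have hmem : ∀ m : ℕ, sft ((n * m : ℕ) : ℤ) j ∈ {j | δ j f ≠ 0} := by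
      intro m hcon
      have h1 := hthm (n * m) j f
      rw [hper m, hcon] at h1
      apply hj
      exact (map_eq_zero_iff (th ^ (n * m)) (th ^ (n * m)).injective).mp h1
    refine Set.infinite_of_injective_forall_mem (f := fun m : ℕ => sft ((n * m : ℕ) : ℤ) j)
      ?_ hmem hfin
    intro m m' hmm
    have h1 := congrArg Prod.fst hmm
    simp only [sft_fst] at h1
    have h2 : ((n * m : ℕ) : ℤ) = ((n * m' : ℕ) : ℤ) := by linarith
    have h3 : n * m = n * m' := by exact_mod_cast h2
    exact Nat.eq_of_mul_eq_mul_left hn h3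
  have hcross : ∀ j, der j p * q = p * der j q := by
    intro j
    have h1 := hleib j
    rw [hall j, mul_zero, add_zero] at h1
    apply hinj
    rw [map_mul, map_mul, ← h1, ← hfq]
    ring
  obtain ⟨c, d, hd, hcd⟩ := cst_redL p q hq0 hcross
  refine ⟨c / d, ?_⟩
  have h1 := congrArg (algebraMap (Lau k) K) hcd
  rw [map_mul, map_mul] at h1
  let ρ : ℂ →+* K :=
    (algebraMap (Lau k) K).comp (algebraMap ℂ (Lau k))
  have h2 : ρ c * algebraMap (Lau k) K q =
      algebraMap (Lau k) K p * ρ d := h1
  have h3 : ρ d ≠ 0 := (map_ne_zero ρ).mpr hd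
  change f = ρ (c / d)
  rw [map_div₀, eq_div_iff h3, hfd, div_mul_eq_mul_div, div_eq_iff hq1]
  exact h2.symm

/-- The shift of fractions of Laurent polynomials (`IsFractionRing` extension of the automorphism
`sh 1`, inverse `sh (-1)`). -/
theorem exists_th (k : ℕ) : ∃ th : RingAut (FractionRing (Lau k)), ∀ F : Lau k,
    th (algebraMap (Lau k) (FractionRing (Lau k)) F) =
      algebraMap (Lau k) (FractionRing (Lau k)) (sh 1 F) := by
  refine ⟨IsFractionRing.ringEquivOfRingEquiv (BKd_shE k), fun F => ?_⟩
  exact IsFractionRing.ringEquivOfRingEquiv_algebraMap (BKd_shE k) F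

/-- A fraction which is fixed by a power of the shift is a constant.

Proof. Let `δ j` be the extension of the derivation `der j` (`exists_ext_der`). `f = p / q`; by
`der_finite` the set `{j | δ j f ≠ 0}` is finite; `th (δ j f) = δ (sft 1 j) (th f)` (`theta_der`, `der_sh`), so
`δ j f ≠ 0` implies `δ (sft n j) f = (th ^ n) (δ j f) ≠ 0`, and the set would be infinite (sites `j.1 + m n`);
so all `δ j f = 0`, that is `der j p * q = p * der j q`; `cst_redL`. -/
theorem th_fixed {k : ℕ} (th : RingAut (FractionRing (Lau k)))
    (h : ∀ F : Lau k, th (algebraMap (Lau k) (FractionRing (Lau k)) F) =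
      algebraMap (Lau k) (FractionRing (Lau k)) (sh 1 F))
    (n : ℕ) (f : FractionRing (Lau k)) (hn : 0 < n) (hf : (th ^ n) f = f) :
    ∃ c : ℂ, f = algebraMap (Lau k) (FractionRing (Lau k)) (algebraMap ℂ (Lau k) c) := by
  exact BKd_fixed th h n f hn hf

/-- Coefficientwise extension of an automorphism to Laurent series (`HahnSeries.map`). -/
theorem exists_thL {F : Type} [Field F] (th : RingAut F) :
    ∃ thL : RingAut (LaurentSeries F), ∀ (f : LaurentSeries F) (n : ℤ),
      (thL f).coeff n = th (f.coeff n) := by
  have hmul : ∀ (s : F ≃+* F) (x y : LaurentSeries F),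
      HahnSeries.map (x * y) s = HahnSeries.map x s * HahnSeries.map y s := by
    intro s x y
    exact HahnSeries.map_mul (s.toRingHom.toNonUnitalRingHom) (x := x) (y := y)
  have hadd : ∀ (s : F ≃+* F) (x y : LaurentSeries F),
      HahnSeries.map (x + y) s = HahnSeries.map x s + HahnSeries.map y s := by
    intro s x y
    exact HahnSeries.map_add (s.toRingHom.toAddMonoidHom) (x := x) (y := y)
  let thL : LaurentSeries F ≃+* LaurentSeries F :=
    { toFun := fun x => HahnSeries.map x (th : F ≃+* F)
      invFun := fun x => HahnSeries.map x (RingEquiv.symm th : F ≃+* F)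
      left_inv := fun x => by
        ext n
        simp only [HahnSeries.map_coeff]
        exact RingEquiv.symm_apply_apply th _
      right_inv := fun x => by
        ext n
        simp only [HahnSeries.map_coeff]
        exact RingEquiv.apply_symm_apply th _
      map_mul' := hmul th
      map_add' := hadd th }
  exact ⟨thL, fun f n => rfl⟩

/-- The expansion at infinity. The ring homomorphism `(Lau k)[X] → LS k`, `Polynomial.eval₂RingHom` of
`HahnSeries.C ∘ algebraMap` and `single (-1) 1`, is injective (the image of `∑ F_n X^n` is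
`∑ single (-n) F_n`), so it extends to the field of fractions (`IsFractionRing.lift`). -/
theorem exists_up (k : ℕ) :
    ∃ up : FractionRing (Lau k)[X] →+* LS k,
      (∀ F : Lau k, up (algebraMap (Lau k)[X] (FractionRing (Lau k)[X]) (Polynomial.C F)) =
        HahnSeries.C (algebraMap (Lau k) (FractionRing (Lau k)) F)) ∧
      up (algebraMap (Lau k)[X] (FractionRing (Lau k)[X]) Polynomial.X) =
        HahnSeries.single (-1 : ℤ) (1 : FractionRing (Lau k)) := by
  let φ : (Lau k)[X] →+* LS k := Polynomial.eval₂RingHom
    ((HahnSeries.C : FractionRing (Lau k) →+* LS k).comp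
      (algebraMap (Lau k) (FractionRing (Lau k))))
    (HahnSeries.single (-1 : ℤ) (1 : FractionRing (Lau k)))
  have hmon : ∀ (m : ℕ) (a : Lau k), φ (Polynomial.monomial m a) =
      HahnSeries.single (-(m : ℤ)) (algebraMap (Lau k) (FractionRing (Lau k)) a) := by
    intro m a
    change Polynomial.eval₂ _ _ (Polynomial.monomial m a) = _
    rw [Polynomial.eval₂_monomial, HahnSeries.single_pow, one_pow]
    change HahnSeries.single (0 : ℤ) (algebraMap (Lau k) (FractionRing (Lau k)) a) * _ = _
    rw [HahnSeries.single_mul_single, mul_one, zero_add]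
    congr 1
    simp
  have hco : ∀ (p : (Lau k)[X]) (n : ℕ), (φ p).coeff (-(n : ℤ)) =
      algebraMap (Lau k) (FractionRing (Lau k)) (p.coeff n) := by
    intro p n
    induction p using Polynomial.induction_on' with
    | add p q hp hq => rw [map_add, HahnSeries.coeff_add, hp, hq, Polynomial.coeff_add, map_add]
    | monomial m a =>
      rw [hmon, HahnSeries.coeff_single, Polynomial.coeff_monomial]
      by_cases hmn : m = n
      · subst hmn
        rw [if_pos rfl, if_pos rfl]
      · rw [if_neg hmn, if_neg (by omega), map_zero]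
  have hinj : Function.Injective φ := by
    rw [injective_iff_map_eq_zero]
    intro p hp
    ext1 n
    apply IsFractionRing.injective (Lau k) (FractionRing (Lau k))
    rw [← hco, hp]
    simp
  refine ⟨IsFractionRing.lift hinj, fun F => ?_, ?_⟩
  · rw [IsFractionRing.lift_algebraMap]
    change Polynomial.eval₂ _ _ (Polynomial.C F) = _
    rw [Polynomial.eval₂_C]
    rfl
  · rw [IsFractionRing.lift_algebraMap]
    change Polynomial.eval₂ _ _ Polynomial.X = _
    rw [Polynomial.eval₂_X]

end Pool.Agent.Wb5ab1bf
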