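import Pool.Agent.W_b5ab1bf_h80.BDefs

/-!
# Solutions of band equations: existence and uniqueness (helper80)
-/

set_option autoImplicit false

noncomputable section

namespace Pool.Agent.Wb5ab1bf

variable {K : Type} [Field K] (B : BM K)

/-- The matrix with reversed indices. -/
def BM.refl (B : BM K) : BM K where
  w := B.w
  w_pos := B.w_pos
  h a b := B.h (-a) (-b)
  h_zero a b h := B.h_zero _ _ (by rwa [show -b - -a = -(b - a) by ring, abs_neg])
  h_top a := by
    show B.h (-a) (-(a + B.w)) ≠ 0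
    rw [show -(a + (B.w : ℤ)) = -a - B.w by ring]
    exact B.h_bot _
  h_bot a := by
    show B.h (-a) (-(a - B.w)) ≠ 0
    rw [show -(a - (B.w : ℤ)) = -a + B.w by ring]
    exact B.h_top _

/-- Reversal of the band equation. Proof: reindex the sum by `b ↦ -b`. -/
theorem BM.refl_ap (v : ℤ → K) (a : ℤ) :
    bop B.refl.w B.refl.h (fun n => v (-n)) a = bop B.w B.h v (-a) := by
  show ∑ b ∈ Finset.Icc (a - (B.w : ℤ)) (a + B.w), B.h (-a) (-b) * v (-b) =
    ∑ b ∈ Finset.Icc (-a - (B.w : ℤ)) (-a + B.w), B.h (-a) b * v b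
  refine Finset.sum_nbij' (fun b => -b) (fun b => -b) ?_ ?_ ?_ ?_ ?_
  · intro b hb
    rw [Finset.mem_Icc] at hb ⊢
    omega
  · intro b hb
    rw [Finset.mem_Icc] at hb ⊢
    omega
  · intro b _
    exact neg_neg b
  · intro b _
    exact neg_neg b
  · intro b _
    rfl

theorem BOne_row (v : ℤ → K) (a : ℤ) :
    bop B.w B.h v a = B.h a (a + B.w) * v (a + B.w) +
      ∑ b ∈ (Finset.Icc (a - (B.w : ℤ)) (a + B.w)).erase (a + B.w), B.h a b * v b := by
  show ∑ b ∈ Finset.Icc (a - (B.w : ℤ)) (a + B.w), B.h a b * v b = _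
  rw [Finset.add_sum_erase _ (fun b => B.h a b * v b)]
  rw [Finset.mem_Icc]
  omega

theorem BOne_mem {a b : ℤ} (h : b ∈ (Finset.Icc (a - (B.w : ℤ)) (a + B.w)).erase (a + B.w)) :
    a - (B.w : ℤ) ≤ b ∧ b < a + B.w := by
  rw [Finset.mem_erase, Finset.mem_Icc] at h
  omega

theorem BOne_row_zero (v : ℤ → K) (a : ℤ) (h : ∀ n, a - (B.w : ℤ) ≤ n → n < a + B.w → v n = 0) :
    bop B.w B.h v a = B.h a (a + B.w) * v (a + B.w) := by
  rw [BOne_row, Finset.sum_eq_zero, add_zero]
  intro b hb
  obtain ⟨h1, h2⟩ := BOne_mem B hb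
  rw [h b h1 h2, mul_zero]

theorem BOne_refl_eq (v φ : ℤ → K) :
    bop B.refl.w B.refl.h v = φ ↔ bop B.w B.h (fun n => v (-n)) = fun n => φ (-n) := by
  have h : ∀ a, bop B.refl.w B.refl.h v a = bop B.w B.h (fun n => v (-n)) (-a) := by
    intro a
    rw [← B.refl_ap (fun n => v (-n)) a]
    simp only [neg_neg]
  constructor
  · intro h1
    funext a
    have h2 := h (-a)
    rw [neg_neg] at h2
    rw [← h2, h1]
  · intro h1
    funext a
    rw [h a, h1]
    show φ (- -a) = φ a
    rw [neg_neg]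

/-- A sequence which vanishes to the left and is mapped to `0` is `0`. Proof: by induction on `c`: if
`v n = 0` for `n < c + w` then row `c` gives `h c (c + w) * v (c + w) = 0`. -/
theorem BM.left_zero (v : ℤ → K) (hv : bop B.w B.h v = 0) (n₀ : ℤ) (h : ∀ n, n < n₀ → v n = 0) :
    v = 0 := by
  have key : ∀ k : ℕ, ∀ n, n < n₀ + k → v n = 0 := by
    intro k
    induction k with
    | zero => intro n hn; exact h n (by push_cast at hn; omega)
    | succ k ih =>
      intro n hn
      by_cases hn' : n < n₀ + k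
      · exact ih n hn'
      · have h1 : n - (B.w : ℤ) + B.w = n := by ring
        have h2 := BOne_row_zero B v (n - B.w) (fun b _ hb => ih b (by push_cast at hn; omega))
        rw [hv, h1, Pi.zero_apply] at h2
        have h3 := B.h_top (n - B.w)
        rw [h1] at h3
        exact (mul_eq_zero.1 h2.symm).resolve_left h3
  funext n
  exact key (n - n₀ + 1).toNat n (by omega)

/-- From `left_zero` for `B.refl`. -/
theorem BM.right_zero (v : ℤ → K) (hv : bop B.w B.h v = 0) (n₀ : ℤ) (h : ∀ n, n₀ < n → v n = 0) :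
    v = 0 := by
  have h1 : (fun n => v (-n)) = 0 := by
    refine B.refl.left_zero _ ?_ (-n₀) fun n hn => h (-n) (by omega)
    funext a
    rw [B.refl_ap, hv]
    rfl
  funext n
  have h2 := congrFun h1 (-n)
  simp only [neg_neg] at h2
  exact h2

/-- Approximate solutions. -/
def BOne_F (φ : ℤ → K) (m : ℤ) : ℕ → ℤ → K
  | 0 => 0
  | n + 1 => BOne_F φ m n + Pi.single (m + n + B.w)
      ((B.h (m + n) (m + n + B.w))⁻¹ * (φ (m + n) - bop B.w B.h (BOne_F φ m n) (m + n)))

theorem BOne_F_succ (φ : ℤ → K) (m : ℤ) (n : ℕ) (c : ℤ) (h : c ≠ m + n + B.w) :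
    BOne_F B φ m (n + 1) c = BOne_F B φ m n c := by
  show BOne_F B φ m n c + (Pi.single (m + n + B.w)
      ((B.h (m + n) (m + n + B.w))⁻¹ *
        (φ (m + n) - bop B.w B.h (BOne_F B φ m n) (m + n))) : ℤ → K) c = _
  rw [Pi.single_eq_of_ne h, add_zero]

theorem BOne_F_left (φ : ℤ → K) (m : ℤ) (n : ℕ) (c : ℤ) (h : c < m + B.w) :
    BOne_F B φ m n c = 0 := by
  induction n with
  | zero => rfl
  | succ n ih => rw [BOne_F_succ B φ m n c (by omega), ih]

theorem BOne_F_right (φ : ℤ → K) (m : ℤ) (n : ℕ) (c : ℤ) (h : m + n + B.w ≤ c) :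
    BOne_F B φ m n c = 0 := by
  induction n with
  | zero => rfl
  | succ n ih =>
    push_cast at h
    rw [BOne_F_succ B φ m n c (by omega), ih (by omega)]

theorem BOne_F_stab (φ : ℤ → K) (m : ℤ) (n n' : ℕ) (hn : n ≤ n') (c : ℤ) (h : c < m + n + B.w) :
    BOne_F B φ m n' c = BOne_F B φ m n c := by
  induction n', hn using Nat.le_induction with
  | base => rfl
  | succ n' hn' ih => rw [BOne_F_succ B φ m n' c (by omega), ih]

/-- A right hand side which vanishes to the left of `m` has a solution which vanishes to the left of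
`m + w`.

Proof. Define `u` by strong recursion on `(c - m - w).toNat`: `u c = 0` for `c < m + w` and
`u (a + w) = (h a (a + w))⁻¹ * (φ a - ∑ b ∈ Ico (a - w) (a + w), h a b * u b)` for `a ≥ m`. One way to organise
it: for every `n : ℕ` there is `u` which vanishes to the left of `m + w` and solves the rows `a < m + n`
(induction on `n`, changing the value at `m + n + w`), two such solutions coincide to the left of `m + n + w`;
take the limit. -/
theorem BM.exists_right (φ : ℤ → K) (m : ℤ) (hφ : ∀ a, a < m → φ a = 0) :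
    ∃ u : ℤ → K, (∀ c, c < m + B.w → u c = 0) ∧ bop B.w B.h u = φ := by
  have hu0 : ∀ c, c < m + B.w → BOne_F B φ m (c - m - B.w + 1).toNat c = 0 := fun c hc =>
    BOne_F_left B φ m _ c hc
  refine ⟨fun c => BOne_F B φ m (c - m - B.w + 1).toNat c, hu0, ?_⟩
  funext a
  by_cases ha : a < m
  · rw [hφ a ha]
    show ∑ b ∈ Finset.Icc (a - (B.w : ℤ)) (a + B.w),
      B.h a b * BOne_F B φ m (b - m - B.w + 1).toNat b = 0
    refine Finset.sum_eq_zero fun b hb => ?_
    rw [Finset.mem_Icc] at hb
    rw [hu0 b (by omega), mul_zero]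
  · obtain ⟨n, rfl⟩ : ∃ n : ℕ, a = m + n := ⟨(a - m).toNat, by omega⟩
    have h1 : bop B.w B.h (fun c => BOne_F B φ m (c - m - B.w + 1).toNat c) (m + n) =
        bop B.w B.h (BOne_F B φ m (n + 1)) (m + n) := by
      show ∑ b ∈ Finset.Icc (m + n - (B.w : ℤ)) (m + n + B.w),
        B.h (m + n) b * BOne_F B φ m (b - m - B.w + 1).toNat b =
        ∑ b ∈ Finset.Icc (m + n - (B.w : ℤ)) (m + n + B.w),
          B.h (m + n) b * BOne_F B φ m (n + 1) b
      refine Finset.sum_congr rfl fun b hb => ?_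
      rw [Finset.mem_Icc] at hb
      by_cases hb' : b < m + B.w
      · rw [hu0 b hb', BOne_F_left B φ m _ b hb']
      · rw [BOne_F_stab B φ m (b - m - B.w + 1).toNat (n + 1) (by omega) b (by omega)]
    rw [h1]
    have h2 : BOne_F B φ m (n + 1) = BOne_F B φ m n + Pi.single (m + n + B.w)
      ((B.h (m + n) (m + n + B.w))⁻¹ *
        (φ (m + n) - bop B.w B.h (BOne_F B φ m n) (m + n))) := rfl
    rw [h2, map_add, Pi.add_apply, BOne_row_zero B (Pi.single _ _)]
    · rw [Pi.single_eq_same, mul_inv_cancel_left₀ (B.h_top _), add_sub_cancel]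
    · intro c _ hc
      exact Pi.single_eq_of_ne (by omega) _

/-- From `exists_right` for `B.refl`. -/
theorem BM.exists_left (φ : ℤ → K) (m : ℤ) (hφ : ∀ a, m < a → φ a = 0) :
    ∃ u : ℤ → K, (∀ c, m - B.w < c → u c = 0) ∧ bop B.w B.h u = φ := by
  obtain ⟨u, h1, h2⟩ := B.refl.exists_right (fun n => φ (-n)) (-m) (fun a ha => hφ _ (by omega))
  refine ⟨fun n => u (-n), fun c hc => h1 _ ?_, ?_⟩
  · show -c < -m + (B.w : ℤ)
    omega
  · rw [BOne_refl_eq] at h2
    rw [h2]
    funext n
    show φ (- -n) = φ n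
    rw [neg_neg]

/-- A solution is determined by its values in a window of length `2w`. Proof: `v = 1_{≥ m} v + 1_{< m} v`;
directly: row `a` with `h_top` gives `v = 0` to the right by induction, with `h_bot` to the left. -/
theorem BM.win_zero (v : ℤ → K) (hv : bop B.w B.h v = 0) (m : ℤ)
    (h : ∀ n, m ≤ n → n < m + 2 * B.w → v n = 0) : v = 0 := by
  have key : ∀ k : ℕ, ∀ n, m ≤ n → n < m + 2 * B.w + k → v n = 0 := by
    intro k
    induction k with
    | zero => intro n hn hn'; exact h n hn (by push_cast at hn'; omega)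
    | succ k ih =>
      intro n hn hn'
      by_cases hk : n < m + 2 * B.w + k
      · exact ih n hn hk
      · have h1 : n - (B.w : ℤ) + B.w = n := by ring
        have h2 := BOne_row_zero B v (n - B.w)
          (fun b hb hb' => ih b (by omega) (by push_cast at hn'; omega))
        rw [hv, h1, Pi.zero_apply] at h2
        have h3 := B.h_top (n - B.w)
        rw [h1] at h3
        exact (mul_eq_zero.1 h2.symm).resolve_left h3
  -- `v` vanishes to the right of `m`
  exact B.right_zero v hv (m - 1) fun n hn => key (n - m + 1).toNat n (by omega) (by omega)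

/-- Every choice of values in a window of length `2w` extends to a solution.

Proof. Let `g := 1_{[m, m + 2w)} f` and `φ := bop g`. It has finite support; `φ = φ₁ + φ₂` with `φ₁` supported in
`a ≥ m + w` and `φ₂` in `a < m + w`. Take `u₁` for `φ₁` by `exists_right` (it vanishes for `c < m + 2w`), and
`u₂` for `φ₂` by `exists_left` with `m + w - 1` (it vanishes for `c > m - 1`). `v := g - u₁ - u₂`. -/
theorem BM.exists_win (f : ℤ → K) (m : ℤ) :
    ∃ v : ℤ → K, bop B.w B.h v = 0 ∧ ∀ n, m ≤ n → n < m + 2 * B.w → v n = f n := by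
  classical
  let g : ℤ → K := fun n => if m ≤ n ∧ n < m + 2 * B.w then f n else 0
  obtain ⟨u₁, h1, h1'⟩ := B.exists_right (fun a => if m + B.w ≤ a then bop B.w B.h g a else 0)
    (m + B.w) (fun a ha => if_neg (by omega))
  obtain ⟨u₂, h2, h2'⟩ := B.exists_left (fun a => if m + B.w ≤ a then 0 else bop B.w B.h g a)
    (m + B.w - 1) (fun a ha => if_pos (by omega))
  refine ⟨g - u₁ - u₂, ?_, ?_⟩
  · rw [map_sub, map_sub, h1', h2']
    funext a
    simp only [Pi.sub_apply, Pi.zero_apply]
    by_cases ha : m + (B.w : ℤ) ≤ a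
    · rw [if_pos ha, if_pos ha, sub_self, sub_zero]
    · rw [if_neg ha, if_neg ha, sub_zero, sub_self]
  · intro n hn hn'
    rw [Pi.sub_apply, Pi.sub_apply, h1 n (by omega), h2 n (by omega), sub_zero, sub_zero]
    exact if_pos ⟨hn, hn'⟩

/-- Integrality of the one-sided solutions: if the subring `A` contains the entries, the inverses of
the `h a (a + w)` and the right hand side then it contains the values. Proof: strong induction on `c`, row `c - w`
gives `h (c - w) c * u c = φ (c - w) - ∑_{b < c} h (c - w) b * u b`. -/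
theorem BM.right_mem (A : Subring K) (h1 : ∀ a b, B.h a b ∈ A) (h2 : ∀ a, (B.h a (a + B.w))⁻¹ ∈ A)
    (u φ : ℤ → K) (hu : bop B.w B.h u = φ) (n₀ : ℤ) (h0 : ∀ n, n < n₀ → u n = 0)
    (hφ : ∀ a, φ a ∈ A) (c : ℤ) : u c ∈ A := by
  have key : ∀ k : ℕ, ∀ n, n < n₀ + k → u n ∈ A := by
    intro k
    induction k with
    | zero => intro n hn; rw [h0 n (by push_cast at hn; omega)]; exact A.zero_mem
    | succ k ih =>
      intro n hn
      by_cases hn' : n < n₀ + k
      · exact ih n hn'
      · have h3 : n - (B.w : ℤ) + B.w = n := by ring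
        have h4 := BOne_row B u (n - B.w)
        rw [hu, h3] at h4
        have h5 := B.h_top (n - B.w)
        rw [h3] at h5
        have h6 := h2 (n - B.w)
        rw [h3] at h6
        have h7 : u n = (B.h (n - B.w) n)⁻¹ * (φ (n - B.w) -
            ∑ b ∈ (Finset.Icc (n - (B.w : ℤ) - (B.w : ℤ)) n).erase n,
              B.h (n - B.w) b * u b) := by
          rw [h4, add_sub_cancel_right, inv_mul_cancel_left₀ h5]
        rw [h7]
        refine A.mul_mem h6 (A.sub_mem (hφ _) (A.sum_mem fun b hb => A.mul_mem (h1 _ _) (ih b ?_)))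
        rw [Finset.mem_erase, Finset.mem_Icc] at hb
        push_cast at hn
        omega
  exact key (c - n₀ + 1).toNat c (by omega)

/-- From `right_mem` for `B.refl`. -/
theorem BM.left_mem (A : Subring K) (h1 : ∀ a b, B.h a b ∈ A) (h2 : ∀ a, (B.h a (a - B.w))⁻¹ ∈ A)
    (u φ : ℤ → K) (hu : bop B.w B.h u = φ) (n₀ : ℤ) (h0 : ∀ n, n₀ < n → u n = 0)
    (hφ : ∀ a, φ a ∈ A) (c : ℤ) : u c ∈ A := by
  have h3 := B.refl.right_mem A (fun a b => h1 _ _) (fun a => by
    show (B.h (-a) (-(a + (B.w : ℤ))))⁻¹ ∈ A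
    rw [show -(a + (B.w : ℤ)) = -a - B.w by ring]
    exact h2 (-a)) (fun n => u (-n)) (fun n => φ (-n)) (by
      funext a
      rw [B.refl_ap, hu]) (-n₀) (fun n hn => h0 _ (by omega)) (fun a => hφ _) (-c)
  simp only [neg_neg] at h3
  exact h3

end Pool.Agent.Wb5ab1bf
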