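import Pool.Agent.W_b5ab1bf_h80.BIrr

/-!
# The system of a band matrix (helper80)
-/

set_option autoImplicit false

noncomputable section

open scoped Polynomial
open Pool.Agent.Wb5ab1b

namespace Pool.Agent.Wb5ab1bf

variable {k : ℕ} (B : Bd k) {K : Type} [Field K] (D : KField k K)

/-- The rows outside `[j.1 - r, j.1 + r]` do not depend on the variable `j`: `der_sh` and `der_of_within`. -/
theorem der_H_zero (j : ℤ × Fin k) (a c : ℤ) (h : a < j.1 - B.r ∨ j.1 + B.r < a) :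
    der j (B.H a c) = 0 := by
  unfold Bd.H
  rw [der_sh, der_of_within (B.within _) _ (by
    show (B.r : ℤ) < |j.1 - a|
    rw [lt_abs]
    omega), map_zero]

/-- The derivatives of the entries of `H - X`: `δ_ι`, `derX_C`, `derX_X`. -/
theorem δ_h (j : ℤ × Fin k) (a c : ℤ) :
    D.δ j ((B.bm D).h a c) = D.ι (Polynomial.C (der j (B.H a c))) := by
  show D.δ j (D.ι (Polynomial.C (B.H a c)) - (if a = c then D.ι Polynomial.X else 0)) = _
  rw [map_sub, D.δ_ι, derX_C]
  by_cases h : a = c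
  · rw [if_pos h, D.δ_ι, derX_X, map_zero, sub_zero]
  · rw [if_neg h, map_zero, sub_zero]

/-- `δX_ι`. -/
theorem δX_h (a c : ℤ) : D.δX ((B.bm D).h a c) = if a = c then -1 else 0 := by
  show D.δX (D.ι (Polynomial.C (B.H a c)) - (if a = c then D.ι Polynomial.X else 0)) = _
  rw [map_sub, D.δX_ι, Polynomial.derivative_C, map_zero]
  by_cases h : a = c
  · rw [if_pos h, if_pos h, D.δX_ι, Polynomial.derivative_X, map_one, zero_sub]
  · rw [if_neg h, if_neg h, map_zero, sub_zero]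

/-- The connections of the windows to the right of `j.1 + r - w` coincide (`con_eq`, `δ_h`, `der_H_zero`). -/
theorem con_right (j : ℤ × Fin k) (m : ℤ) (h : j.1 + B.r - B.w < m) :
    (B.bm D).con m (D.δ j) = (B.bm D).con (j.1 + B.r) (D.δ j) := by
  have hw : 0 < B.w := B.w_pos
  have hw' : (B.bm D).w = B.w := rfl
  rcases le_total m (j.1 + B.r) with h1 | h1
  · symm
    refine (B.bm D).con_eq _ _ h1 _ fun a h2 _ c => ?_
    rw [hw'] at h2
    rw [δ_h, der_H_zero B j a c (by omega), map_zero, map_zero]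
  · refine (B.bm D).con_eq _ _ h1 _ fun a h2 _ c => ?_
    rw [hw'] at h2
    rw [δ_h, der_H_zero B j a c (by omega), map_zero, map_zero]

/-- The connections of the windows to the left of `j.1 - r - w` coincide. -/
theorem con_left (j : ℤ × Fin k) (m : ℤ) (h : m ≤ j.1 - B.r - B.w) :
    (B.bm D).con m (D.δ j) = (B.bm D).con (j.1 - B.r - B.w) (D.δ j) := by
  have hw' : (B.bm D).w = B.w := rfl
  symm
  refine (B.bm D).con_eq _ _ h _ fun a _ h2 c => ?_
  rw [hw'] at h2
  rw [δ_h, der_H_zero B j a c (by omega), map_zero, map_zero]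

theorem BSys_fin (v : VV B D) : ∃ lo hi : ℤ, ∀ j : ℤ × Fin k, (j.1 ≤ lo ∨ hi ≤ j.1) →
    (B.bm D).con 0 (D.δ j) v = 0 := by
  have h1 : (⋃ n ∈ Finset.range (2 * B.w), {j | D.δ j ((v : ℤ → K) ((n : ℕ) : ℤ)) ≠ 0}).Finite :=
    Set.Finite.biUnion (Finset.finite_toSet _) fun n _ => D.fin _
  have h2 := h1.image Prod.fst
  obtain ⟨lo, hlo⟩ := h2.bddBelow
  obtain ⟨hi, hhi⟩ := h2.bddAbove
  refine ⟨lo - 1, hi + 1, fun j hj => ?_⟩
  refine (B.bm D).win_ext 0 fun n h3 h4 => ?_
  have hw' : (B.bm D).w = B.w := rfl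
  rw [(B.bm D).con_apply 0 _ _ n h3 h4]
  rw [hw'] at h4
  by_contra h5
  have h6 : D.δ j ((v : ℤ → K) n) ≠ 0 := h5
  have h7 : j.1 ∈ Prod.fst '' (⋃ n ∈ Finset.range (2 * B.w),
      {j | D.δ j ((v : ℤ → K) ((n : ℕ) : ℤ)) ≠ 0}) := by
    refine ⟨j, ?_, rfl⟩
    rw [Set.mem_iUnion₂]
    refine ⟨n.toNat, Finset.mem_range.2 (by omega), ?_⟩
    have h10 : D.δ j ((v : ℤ → K) ((n.toNat : ℕ) : ℤ)) ≠ 0 := by
      rw [Int.toNat_of_nonneg h3]
      exact h6
    exact h10
  have h8 := hlo h7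
  have h9 := hhi h7
  omega

/-- The system of a band matrix. -/
def BSys_S : Sys D.toDField (VV B D) where
  σ := sgV B D
  hσ := (B.bm D).sig_smul D.θ (bm_h_succ B D)
  p j := (B.bm D).con (j.1 + B.r) (D.δ j)
  m j := (B.bm D).con (j.1 - B.r - B.w) (D.δ j)
  X := (B.bm D).con 0 D.δX
  hp j := (B.bm D).con_isCon _ _
  hm j := (B.bm D).con_isCon _ _
  hX := (B.bm D).con_isCon _ _
  pp i j v := by
    have hw : 0 < B.w := B.w_pos
    have h1 := con_right B D i (max (i.1 + B.r) (j.1 + B.r)) (by omega)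
    have h2 := con_right B D j (max (i.1 + B.r) (j.1 + B.r)) (by omega)
    rw [← h1, ← h2]
    exact (B.bm D).con_comm _ _ _ (D.comm i j) v
  mm i j v := by
    have h1 := con_left B D i (min (i.1 - B.r - B.w) (j.1 - B.r - B.w)) (by omega)
    have h2 := con_left B D j (min (i.1 - B.r - B.w) (j.1 - B.r - B.w)) (by omega)
    rw [← h1, ← h2]
    exact (B.bm D).con_comm _ _ _ (D.comm i j) v
  c₀ := 2 * B.r + B.w + 1
  pm i j v h := by
    have h1 := con_right B D i (j.1 - B.r - B.w) (by omega)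
    rw [← h1]
    exact (B.bm D).con_comm _ _ _ (D.comm i j) v
  σp j v := by
    have h1 := (B.bm D).sig_con D.θ (bm_h_succ B D) (D.δ j) (D.δ (sft 1 j)) (D.θδ j)
      (j.1 + B.r) v
    have h2 : (sft 1 j).1 + (B.r : ℤ) = j.1 + B.r + 1 := by
      rw [sft_fst]
      ring
    rw [h2]
    exact h1
  σm j v := by
    have h1 := (B.bm D).sig_con D.θ (bm_h_succ B D) (D.δ j) (D.δ (sft 1 j)) (D.θδ j)
      (j.1 - B.r - B.w) v
    have h2 : (sft 1 j).1 - (B.r : ℤ) - B.w = j.1 - B.r - B.w + 1 := by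
      rw [sft_fst]
      ring
    rw [h2]
    exact h1
  finp v := by
    have hw : 0 < B.w := B.w_pos
    obtain ⟨lo, hi, h1⟩ := BSys_fin B D v
    refine ⟨min lo (-B.r), fun j hj => ?_⟩
    have h2 := con_right B D j 0 (by omega)
    rw [← h2]
    exact h1 j (Or.inl (by omega))
  finm v := by
    obtain ⟨lo, hi, h1⟩ := BSys_fin B D v
    refine ⟨max hi (B.r + B.w), fun j hj => ?_⟩
    have h2 := con_left B D j 0 (by omega)
    rw [← h2]
    exact h1 j (Or.inr (by omega))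
  Xm j v h := by
    have h2 := con_left B D j 0 (by omega)
    rw [← h2]
    exact (B.bm D).con_comm _ _ _ (D.commX j) v
  Xp j v h := by
    have hw : 0 < B.w := B.w_pos
    have h2 := con_right B D j 0 (by omega)
    rw [← h2]
    exact (B.bm D).con_comm _ _ _ (D.commX j) v
  irr := irr_V B D
  nz := (B.bm D).nontrivial

theorem BSys_eI_sum {ι : Type} (s : Finset ι) (F : ι → (ℤ × ℤ) →₀ (Lau k)[X]) :
    eI B D (∑ i ∈ s, F i) = ∑ i ∈ s, eI B D (F i) := by
  classical
  induction s using Finset.induction_on with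
  | empty => rw [Finset.sum_empty, Finset.sum_empty, eI_zero']
  | insert a s ha ih => rw [Finset.sum_insert ha, Finset.sum_insert ha, eI_add, ih]

theorem BSys_E1 : (BSys_S B D).E1 = (B.bm D).Eb B.w B.w := by
  have hw : 0 < B.w := B.w_pos
  have hw' : (B.bm D).w = B.w := rfl
  refine LinearMap.ext fun v => ?_
  rw [Sys.E1_apply, BM.Eb_apply]
  have h1 := (B.bm D).sig_con D.θ (bm_h_succ B D) D.δX D.δX D.θX 0 ((sgV B D).symm v)
  have h2 := (B.bm D).con_succ 0 D.δX v
  have h3 : (B.bm D).sig D.θ (bm_h_succ B D) ((sgV B D).symm v) = v :=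
    (sgV B D).apply_symm_apply v
  rw [h3, h2] at h1
  have h4 : ∑ c ∈ Finset.Icc (0 + ((B.bm D).w : ℤ) - (B.bm D).w)
      (0 + ((B.bm D).w : ℤ) + (B.bm D).w), D.δX ((B.bm D).h (0 + (B.bm D).w) c) *
        (v : ℤ → K) c = -((v : ℤ → K) B.w) := by
    rw [Finset.sum_eq_single (B.w : ℤ)]
    · rw [δX_h, if_pos (by rw [hw', zero_add]), neg_one_mul]
    · intro c _ hc
      rw [δX_h, if_neg (by rw [hw', zero_add]; exact fun h => hc h.symm), zero_mul]
    · intro h
      exact absurd (Finset.mem_Icc.2 (by rw [hw']; omega)) h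
  rw [h4] at h1
  have h5 : (BSys_S B D).σ ((BSys_S B D).X ((BSys_S B D).σ.symm v)) =
      (B.bm D).con 0 D.δX v - (-((v : ℤ → K) B.w)) • (B.bm D).iv (0 + (B.bm D).w) := h1
  rw [h5, hw', zero_add]
  show (B.bm D).con 0 D.δX v - (-((v : ℤ → K) B.w)) • (B.bm D).iv B.w - (B.bm D).con 0 D.δX v =
    (v : ℤ → K) B.w • (B.bm D).iv B.w
  have h6 : (-((v : ℤ → K) B.w)) • (B.bm D).iv B.w = -((v : ℤ → K) B.w • (B.bm D).iv B.w) :=
    neg_smul ((v : ℤ → K) B.w) ((B.bm D).iv B.w)
  rw [h6]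
  abel

theorem BSys_Dj (j : ℤ × Fin k) : (BSys_S B D).Dj j = eI B D (Dfs B j) := by
  have hw : 0 < B.w := B.w_pos
  have hw' : (B.bm D).w = B.w := rfl
  refine LinearMap.ext fun v => ?_
  rw [Sys.Dj_apply]
  show (B.bm D).con (j.1 - B.r - B.w) (D.δ j) v - (B.bm D).con (j.1 + B.r) (D.δ j) v = _
  rw [(B.bm D).con_sub _ _ (by omega), Dfs, BSys_eI_sum, LinearMap.sum_apply, hw']
  rw [sub_add_cancel]
  have h1 : Finset.Icc (j.1 - (B.r : ℤ)) (j.1 + B.r) ⊆
      Finset.Ico (j.1 - (B.r : ℤ)) (j.1 + B.r + B.w) := by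
    intro b hb
    rw [Finset.mem_Icc] at hb
    rw [Finset.mem_Ico]
    omega
  rw [← Finset.sum_subset h1]
  · refine Finset.sum_congr rfl fun b _ => ?_
    rw [BSys_eI_sum, LinearMap.sum_apply, Finset.sum_smul]
    refine Finset.sum_congr rfl fun c _ => ?_
    rw [eI_single, LinearMap.smul_apply, BM.Eb_apply, smul_smul, δ_h]
  · intro b hb hb'
    rw [Finset.mem_Ico] at hb
    rw [Finset.mem_Icc] at hb'
    rw [Finset.sum_eq_zero, zero_smul]
    intro c _
    rw [δ_h, der_H_zero B j b c (by omega), map_zero, map_zero, zero_mul]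

/-- **The system of a band matrix.** `σ := sgV`, `p j := con (j.1 + r) (δ j)`, `m j := con (j.1 - r - w) (δ j)`,
`X := con 0 δX`, `c₀ := 2 r + w + 1`.

Proof of the axioms (with `con_right`, `con_left` all the connections in question can be taken for the same window,
then `con_comm` with `D.comm`, `D.commX`): `pp`, `mm`: a window far to the right (left) of both sites; `pm`: the
window `j.1 - r - w ≥ i.1 + r`; `σp`, `σm`: `sig_con` with `D.θδ`; `finp`: for `j.1 ≤ -r` the connection `p j` is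
the one of the window `0`, and for almost all `j` the `δ j (v n)`, `n ∈ [0, 2w)`, vanish (`D.fin`), `win_ext`; `finm`: for
`j.1 ≥ r + w` in the same way; `Xm`, `Xp`: window `0`; `irr`: `irr_V`; `nz`: `BM.nontrivial`. `IsShift`:
`shift` is `sig_apply`; `E1_eq`: `E1 v = sgV (con 0 δX (sgV.symm v)) - con 0 δX v = con 1 δX v - con 0 δX v`
(`sig_con` with `D.θX`) and `con_succ` with `δX_h`: the sum is `-v w`; `Dj_eq`: `con_sub` with `m = j.1 - r - w`,
`n = j.1 + r` and `δ_h`; the rows `b > j.1 + r` do not contribute (`der_H_zero`); `eI` of a sum of singles is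
`eI_add`, `eI_single`. -/
theorem exists_sys : ∃ S : Sys D.toDField (VV B D), IsShift B D S :=
  ⟨BSys_S B D, ⟨fun _ _ => rfl, BSys_E1 B D, BSys_Dj B D⟩⟩

end Pool.Agent.Wb5ab1bf
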