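import Pool.Agent.W_b5ab1bf_h80.VFam
import Pool.Agent.W_b5ab1bf_h80.BED

/-!
# The families of shifted coefficients and of diagonal entries (helper80)
-/

set_option autoImplicit false

noncomputable section

open scoped Polynomial
open Pool.Agent.Wb5ab1b MeasureTheory

namespace Pool.Agent.Wb5ab1bf

variable {k : ℕ} (B : Bd k)

/-- The family of the shift by `n` of the coefficients `F`. -/
def famS (n : ℤ) (F : (ℤ × ℤ) →₀ (Lau k)[X]) : Fam k where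
  ι := F.support × Fin 4
  c l := (l.1 : ℤ × ℤ).2 + n
  b l := (l.1 : ℤ × ℤ).1 + n
  z l := Complex.I ^ (l.2 : ℕ)
  G l := shX n (F l.1) * cC ((1 / 4 : ℂ) * (Complex.I ^ (l.2 : ℕ))⁻¹)

/-- The family of the diagonal entries `w, ..., w + n - 1` with the coefficient `g`. -/
def famD (n : ℕ) (g : (Lau k)[X]) : Fam k where
  ι := Fin n
  c l := (B.w : ℤ) + ((l : ℕ) : ℤ)
  b l := (B.w : ℤ) + ((l : ℕ) : ℤ)
  z _ := 0
  G _ := g

/-- The union of two families. -/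
def Fam.add (T T' : Fam k) : Fam k where
  ι := T.ι ⊕ T'.ι
  c := Sum.elim T.c T'.c
  b := Sum.elim T.b T'.b
  z := Sum.elim T.z T'.z
  G := Sum.elim T.G T'.G

theorem Fam.add_Φ (T T' : Fam k) : (T.add T').Φ B = T.Φ B + T'.Φ B := by
  unfold Fam.Φ Fam.add
  rw [Fintype.sum_sum_type]
  rfl

theorem Fam.add_J (T T' : Fam k) (m : ℤ → ℤ → ℂ → Measure (Om k)) (N : Set ℝ) (f : Om k → ℂ) :
    (T.add T').J m N f = T.J m N f + T'.J m N f := by
  unfold Fam.J Fam.add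
  rw [Fintype.sum_sum_type]
  rfl

theorem VFamS_eP_shF (n : ℤ) (F : (ℤ × ℤ) →₀ (Lau k)[X]) :
    eP B (shF n F) = F.sum fun p G => shX n G • B.P (p.2 + n) (p.1 + n) := by
  induction F using Finsupp.induction_linear with
  | zero => rw [shF_zero', eP_zero', Finsupp.sum_zero_index]
  | add F G hF hG =>
    rw [shF_add, eP_add, hF, hG]
    symm
    refine Finsupp.sum_add_index' (fun p => by simp) fun p a b => ?_
    rw [map_add, add_smul]
  | single p G =>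
    rw [shF_single, eP_single, Finsupp.sum_single_index (by simp)]

/-- `P_polar`, `Phz`, additivity of `eP` and `shF`. -/
theorem famS_Φ (n : ℤ) (F : (ℤ × ℤ) →₀ (Lau k)[X]) : (famS n F).Φ B = eP B (shF n F) := by
  rw [VFamS_eP_shF]
  show ∑ l : F.support × Fin 4, (shX n (F l.1) * cC ((1 / 4 : ℂ) * (Complex.I ^ (l.2 : ℕ))⁻¹)) •
    Phz B ((l.1 : ℤ × ℤ).2 + n) ((l.1 : ℤ × ℤ).1 + n) (Complex.I ^ (l.2 : ℕ)) =
      ∑ p ∈ F.support, shX n (F p) • B.P (p.2 + n) (p.1 + n)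
  rw [Fintype.sum_prod_type, ← Finset.sum_coe_sort F.support]
  refine Finset.sum_congr rfl fun p _ => ?_
  rw [P_polar B ((p : ℤ × ℤ).2 + n) ((p : ℤ × ℤ).1 + n), Finset.smul_sum]
  exact Finset.sum_congr rfl fun l _ => mul_smul _ _ _

theorem VFamS_eP_sum {ι : Type} (s : Finset ι) (f : ι → (ℤ × ℤ) →₀ (Lau k)[X]) :
    eP B (∑ j ∈ s, f j) = ∑ j ∈ s, eP B (f j) := by
  classical
  induction s using Finset.induction_on with
  | empty => rw [Finset.sum_empty, Finset.sum_empty, eP_zero']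
  | insert a s ha ih => rw [Finset.sum_insert ha, Finset.sum_insert ha, eP_add, ih]

/-- `Phz_self`. -/
theorem famD_Φ (n : ℕ) (g : (Lau k)[X]) : (famD B n g).Φ B =
    g • eP B (∑ j ∈ Finset.range n, Finsupp.single ((B.w : ℤ) + j, (B.w : ℤ) + j) 1) := by
  rw [VFamS_eP_sum, Finset.smul_sum, Finset.sum_range]
  show ∑ l : Fin n, g • Phz B ((B.w : ℤ) + ((l : ℕ) : ℤ)) ((B.w : ℤ) + ((l : ℕ) : ℤ)) 0 = _
  refine Finset.sum_congr rfl fun l _ => ?_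
  rw [Phz_self, eP_single, one_smul]

/-- A bound for the integrals of the shifted families, uniform in `n`.

Proof. For each index: `‖f p * evO p (g * G l)‖ ≤ D * C₁` with `C₁` from `evO_sh_bdd` for the finitely many `F p`
(`‖cC ...‖ = 1 / 4`), on `p.2 ∈ [-R, R]` (almost everywhere), and the mass is at most `4` (`mass_le`,
`‖I ^ l‖ = 1`); `norm_setIntegral_le_of_norm_le_const`. -/
theorem famS_bound {R : ℝ} (m : ℤ → ℤ → ℂ → Measure (Om k))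
    (hm : ∀ c b z, IsM B R c b z (m c b z)) (F : (ℤ × ℤ) →₀ (Lau k)[X]) :
    ∃ C : ℝ, 0 ≤ C ∧ ∀ (n : ℤ) (N : Set ℝ) (g : (Lau k)[X]) (f : Om k → ℂ) (D : ℝ), 0 ≤ D →
      MeasurableSet N → (∀ p, ‖f p * evO p g‖ ≤ D) → ‖((famS n F).mul g).J m N f‖ ≤ C * D := by
  choose C₁ hC₁ hC₁' using fun p : ℤ × ℤ => evO_sh_bdd (k := k) R (F p)
  refine ⟨∑ l : F.support × Fin 4, C₁ l.1 * 4, Finset.sum_nonneg fun l _ => ?_, ?_⟩
  · have := hC₁ l.1
    positivity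
  intro n N g f D hD hN hf
  show ‖∑ l : F.support × Fin 4, ∫ p in {p : Om k | p.2 ∈ N}, f p *
    evO p (g * (shX n (F l.1) * cC ((1 / 4 : ℂ) * (Complex.I ^ (l.2 : ℕ))⁻¹)))
      ∂(m ((l.1 : ℤ × ℤ).2 + n) ((l.1 : ℤ × ℤ).1 + n) (Complex.I ^ (l.2 : ℕ)))‖ ≤ _
  rw [Finset.sum_mul]
  refine norm_sum_le_of_le _ fun l _ => ?_
  have hIM := hm ((l.1 : ℤ × ℤ).2 + n) ((l.1 : ℤ × ℤ).1 + n) (Complex.I ^ (l.2 : ℕ))
  have hI : ‖(Complex.I ^ (l.2 : ℕ) : ℂ)‖ = 1 := by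
    rw [norm_pow, Complex.norm_I, one_pow]
  have hmass := mass_le B hIM hI.le
  haveI := hIM.1
  have hae : ∀ᵐ p ∂(m ((l.1 : ℤ × ℤ).2 + n) ((l.1 : ℤ × ℤ).1 + n) (Complex.I ^ (l.2 : ℕ))),
      p.2 ∈ Set.Icc (-R) R := by
    rw [ae_iff]
    exact hIM.2.1
  have hb : ∀ᵐ p ∂((m ((l.1 : ℤ × ℤ).2 + n) ((l.1 : ℤ × ℤ).1 + n)
      (Complex.I ^ (l.2 : ℕ))).restrict {p : Om k | p.2 ∈ N}), ‖f p *
        evO p (g * (shX n (F l.1) * cC ((1 / 4 : ℂ) * (Complex.I ^ (l.2 : ℕ))⁻¹)))‖ ≤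
          D * C₁ l.1 := by
    refine ae_restrict_of_ae ?_
    filter_upwards [hae] with p hp
    rw [map_mul, map_mul, evO_cC, ← mul_assoc, norm_mul, norm_mul _ ((1 / 4 : ℂ) * _)]
    have h1 : ‖(1 / 4 : ℂ) * (Complex.I ^ (l.2 : ℕ))⁻¹‖ ≤ 1 := by
      rw [norm_mul, norm_inv, hI]
      norm_num
    have h2 := hC₁' l.1 n p hp
    have h3 : ‖evO p (shX n (F l.1))‖ * ‖(1 / 4 : ℂ) * (Complex.I ^ (l.2 : ℕ))⁻¹‖ ≤ C₁ l.1 := by
      have := norm_nonneg (evO p (shX n (F l.1)))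
      nlinarith
    exact mul_le_mul (hf p) h3 (by positivity) hD
  refine (norm_integral_le_of_norm_le_const hb).trans ?_
  have h4 : ((m ((l.1 : ℤ × ℤ).2 + n) ((l.1 : ℤ × ℤ).1 + n)
      (Complex.I ^ (l.2 : ℕ))).restrict {p : Om k | p.2 ∈ N}).real Set.univ ≤ 4 := by
    refine le_trans ?_ hmass
    rw [measureReal_restrict_apply MeasurableSet.univ]
    exact measureReal_mono (Set.subset_univ _)
  have h5 : 0 ≤ D * C₁ l.1 := mul_nonneg hD (hC₁ _)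
  calc D * C₁ l.1 * _ ≤ D * C₁ l.1 * 4 := mul_le_mul_of_nonneg_left h4 h5
    _ = _ := by ring

end Pool.Agent.Wb5ab1bf
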