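import Pool.Agent.W_b5ab1bf_h80.LSer
import Pool.Agent.W_b5ab1bf_h80.VFamS
import Pool.Agent.W_b5ab1bf_h80.BKa

/-!
# Complex functionals of the form `q ↦ E (W * Φ q)` (helper80)
-/

set_option autoImplicit false

noncomputable section

open scoped Polynomial
open Pool.Agent.Wb5ab1b MeasureTheory

namespace Pool.Agent.Wb5ab1bf

variable {k : ℕ} (B : Bd k)

/-- The functional `q ↦ E (W * Φ q)` on complex polynomials. -/
def LW (Φ : Fn (Lau k)) (W : Lau k) : ℂ[X] →ₗ[ℂ] ℂ where
  toFun q := E (W * Φ.app (cX k q))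
  map_add' p q := by
    have h1 : Φ.app (cX k (p + q)) = Φ.app (cX k p) + Φ.app (cX k q) := by
      rw [map_add]
      exact map_add (show (Lau k)[X] →ₗ[Lau k] Lau k from Φ) _ _
    rw [h1, mul_add, E_add]
  map_smul' c q := by
    have h1 : Φ.app (cX k (c • q)) = algebraMap ℂ (Lau k) c * Φ.app (cX k q) := by
      have h2 : cX k (c • q) = algebraMap ℂ (Lau k) c • cX k q := by
        ext n
        simp [cX, Algebra.smul_def]
      rw [h2]
      exact map_smul (show (Lau k)[X] →ₗ[Lau k] Lau k from Φ) _ _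
    rw [h1, RingHom.id_apply, smul_eq_mul]
    have h3 : W * (algebraMap ℂ (Lau k) c * Φ.app (cX k q)) =
        algebraMap ℂ (Lau k) c * (W * Φ.app (cX k q)) := by ring
    rw [h3, Joint_E_C]

theorem LW_apply (Φ : Fn (Lau k)) (W : Lau k) (q : ℂ[X]) : LW Φ W q = E (W * Φ.app (cX k q)) := rfl

theorem CAlg_shF_zero (F : (ℤ × ℤ) →₀ (Lau k)[X]) : shF 0 F = F := by
  unfold shF
  conv_rhs => rw [← Finsupp.sum_single F]
  apply Finsupp.sum_congr
  intro p _
  rw [shX_zero, add_zero, add_zero]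

theorem CAlg_evO_cX (p : Om k) (q : ℂ[X]) : evO p (cX k q) = q.eval (p.2 : ℂ) := by
  unfold evO cX
  rw [Polynomial.coe_eval₂RingHom, Polynomial.coe_mapRingHom, Polynomial.eval₂_map,
    Polynomial.eval]
  congr 1
  ext c
  rw [RingHom.comp_apply]
  show evY p.1 (algebraMap ℂ (Lau k) c) = c
  rw [AlgHom.commutes]
  rfl

/-- The functionals of `eP F` are bounded by the supremum on `[-R, R]`.

Proof. `eP B F = (famS 0 F).Φ` (`famS_Φ`, `shF_id`); `Fam.int_eq` for `G = C W * cX q`: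
`E (W * Φ (cX q)) = ∑ l, ∫ evO p (C W * cX q * G l) dm_l`, `evO p (cX q) = q.eval p.2`,
`‖evO p (C W * G l)‖` bounded by a constant, total masses finite; `m_l` is supported in `p.2 ∈ [-R, R]`. -/
theorem LW_supBd (hH : B.Herm) {R : ℝ} (hR : B.Bdd R) (F : (ℤ × ℤ) →₀ (Lau k)[X]) (W : Lau k) :
    ∃ C₀ : ℝ, SupBd R C₀ (LW (eP B F) W) := by
  choose m hm using fun c b z => exists_meas B hH hR c b z
  set T : Fam k := famS 0 F with hT
  choose C hC0 hC using fun l : T.ι => evO_bdd R (Polynomial.C W * T.G l)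
  refine ⟨∑ l, C l * (m (T.c l) (T.b l) (T.z l)).real Set.univ, fun q b hb => ?_⟩
  have h1 : LW (eP B F) W q = E ((T.Φ B).app (Polynomial.C W * cX k q)) := by
    rw [LW_apply, Joint_app_C, hT, famS_Φ, CAlg_shF_zero]
  rw [h1, Fam.int_eq B T m hm, Finset.sum_mul]
  refine (norm_sum_le _ _).trans (Finset.sum_le_sum fun l _ => ?_)
  obtain ⟨hfin, hsupp, -⟩ := hm (T.c l) (T.b l) (T.z l)
  have hae : ∀ᵐ p ∂(m (T.c l) (T.b l) (T.z l)), p.2 ∈ Set.Icc (-R) R := hsupp
  have h2 : ∀ᵐ p ∂(m (T.c l) (T.b l) (T.z l)),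
      ‖evO p (Polynomial.C W * cX k q * T.G l)‖ ≤ C l * b := by
    filter_upwards [hae] with p hp
    have h3 : Polynomial.C W * cX k q * T.G l = (Polynomial.C W * T.G l) * cX k q := by ring
    rw [h3, map_mul, CAlg_evO_cX, norm_mul]
    exact mul_le_mul (hC l p hp) (hb p.2 hp) (norm_nonneg _) (hC0 l)
  refine (norm_integral_le_of_norm_le_const h2).trans (le_of_eq ?_)
  ring

/-- The polynomial `∑ i, E (W * κ_i) X ^ i`. -/
def pW (κ : (Lau k)[X]) (W : Lau k) : ℂ[X] :=
  ∑ i ∈ Finset.range (κ.natDegree + 1), Polynomial.monomial i (E (W * κ.coeff i))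

theorem CAlg_E_single (η : (ℤ × Fin k) →₀ ℤ) (F : Lau k) :
    E (AddMonoidAlgebra.single (-η) 1 * F) = F.coeff η := by
  unfold E
  simp

theorem CAlg_E_mul_C (c : ℂ) (W F : Lau k) :
    E (W * (F * algebraMap ℂ (Lau k) c)) = E (W * F) * c := by
  have h : W * (F * algebraMap ℂ (Lau k) c) = algebraMap ℂ (Lau k) c * (W * F) := by ring
  rw [h, Joint_E_C, mul_comm]

theorem CAlg_E_neg (F : Lau k) : E (-F) = -E F := by
  unfold E
  simp

/-- Some `pW κ W` is not `0`: choose a coefficient `κ_i ≠ 0`, an exponent `η` in its support and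
`W = single (-η) 1`. -/
theorem exists_pW (κ : (Lau k)[X]) (hκ : κ ≠ 0) : ∃ W : Lau k, pW κ W ≠ 0 := by
  obtain ⟨i, hi⟩ : ∃ i, κ.coeff i ≠ 0 := by
    by_contra hne
    push Not at hne
    exact hκ (Polynomial.ext fun n => by rw [hne n, Polynomial.coeff_zero])
  obtain ⟨η, hη⟩ : ∃ η, (κ.coeff i).coeff η ≠ 0 := by
    by_contra hne
    push Not at hne
    apply hi
    apply AddMonoidAlgebra.coeff_injective
    apply Finsupp.ext
    intro η
    rw [hne η]
    rfl
  refine ⟨AddMonoidAlgebra.single (-η) 1, fun h0 => hη ?_⟩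
  have h1 := congrArg (fun p : ℂ[X] => p.coeff i) h0
  simp only [Polynomial.coeff_zero] at h1
  have h2 : (pW κ (AddMonoidAlgebra.single (-η) 1)).coeff i =
      E (AddMonoidAlgebra.single (-η) 1 * κ.coeff i) := by
    unfold pW
    rw [Polynomial.finsetSum_coeff]
    simp only [Polynomial.coeff_monomial]
    rw [Finset.sum_ite_eq' (Finset.range (κ.natDegree + 1)) i, if_pos]
    rw [Finset.mem_range]
    exact Nat.lt_succ_of_le (Polynomial.le_natDegree_of_ne_zero hi)
  rw [h2] at h1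
  rw [← CAlg_E_single, h1]

/-- The relation between the functionals `LW` for different `W`.

Proof. Let `τ : ℂ[X] → ℂ` be the linear functional with `τ (X ^ n) = t.coeff (n + 1)`. By the hypothesis
`LW Φ W (X ^ n) = -∑ i, E (W * κ_i) * t.coeff (n + 1 + i) = -τ (pW κ W * X ^ n)`, so
`LW Φ W q = -τ (pW κ W * q)` for all `q`. -/
theorem LW_tau (Φ : Fn (Lau k)) (κ : (Lau k)[X]) (t : LaurentSeries ℂ)
    (h : ∀ n : ℕ, Φ.app (Polynomial.X ^ n) = -∑ i ∈ Finset.range (κ.natDegree + 1),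
      κ.coeff i * algebraMap ℂ (Lau k) (t.coeff ((n : ℤ) + 1 + i))) (W W₀ : Lau k) (q : ℂ[X]) :
    LW Φ W (pW κ W₀ * q) = LW Φ W₀ (pW κ W * q) := by
  have hX : ∀ (V : Lau k) (n : ℕ) (c : ℂ), LW Φ V (Polynomial.monomial n c) =
      -(c * ∑ i ∈ Finset.range (κ.natDegree + 1), E (V * κ.coeff i) * t.coeff ((n : ℤ) + 1 + i)) := by
    intro V n c
    rw [← Polynomial.C_mul_X_pow_eq_monomial, ← Polynomial.smul_eq_C_mul, map_smul, LW_apply,
      map_pow]
    have h1 : cX k Polynomial.X = Polynomial.X := by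
      unfold cX
      rw [Polynomial.coe_mapRingHom, Polynomial.map_X]
    rw [h1, h n, mul_neg, CAlg_E_neg, Finset.mul_sum, E_sum, smul_eq_mul, mul_neg]
    congr 2
    exact Finset.sum_congr rfl fun i _ => CAlg_E_mul_C _ _ _
  induction q using Polynomial.induction_on' with
  | add p q hp hq => rw [mul_add, mul_add, map_add, map_add, hp, hq]
  | monomial n c =>
    have hexp : ∀ V V₀ : Lau k, LW Φ V (pW κ V₀ * Polynomial.monomial n c) =
        -∑ j ∈ Finset.range (κ.natDegree + 1), ∑ i ∈ Finset.range (κ.natDegree + 1),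
          c * (E (V₀ * κ.coeff j) * E (V * κ.coeff i) * t.coeff ((n : ℤ) + 1 + i + j)) := by
      intro V V₀
      unfold pW
      rw [Finset.sum_mul, map_sum, ← Finset.sum_neg_distrib]
      apply Finset.sum_congr rfl
      intro j _
      rw [Polynomial.monomial_mul_monomial, hX, Finset.mul_sum]
      congr 1
      apply Finset.sum_congr rfl
      intro i _
      have h2 : (((j + n : ℕ) : ℤ) + 1 + i) = (n : ℤ) + 1 + i + j := by
        push_cast
        ring
      rw [h2]
      ring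
    rw [hexp, hexp, Finset.sum_comm]
    congr 1
    apply Finset.sum_congr rfl
    intro i _
    apply Finset.sum_congr rfl
    intro j _
    have h3 : (n : ℤ) + 1 + i + j = (n : ℤ) + 1 + j + i := by ring
    rw [h3]
    ring

end Pool.Agent.Wb5ab1bf
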