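import Pool.Agent.W_b5ab1bf_h80.CAlg

/-!
# The generating series is algebraic (helper80)
-/

set_option autoImplicit false

noncomputable section

open scoped Polynomial
open Pool.Agent.Wb5ab1b MeasureTheory

namespace Pool.Agent.Wb5ab1bf

variable {k : ℕ}

theorem CAlgS_psi_pos (p : ℂ[X]) (m : ℤ) (hm : 0 < m) : (psi p).coeff m = 0 := by
  rw [LSer_psi_eq, HahnSeries.coeff_sum]
  refine Finset.sum_eq_zero fun n _ => ?_
  rw [HahnSeries.coeff_single_of_ne]
  omega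

theorem CAlgS_poly (D : LaurentSeries ℂ) (hD : ∀ m : ℤ, 0 < m → D.coeff m = 0) :
    ∃ r : ℂ[X], psi r = D := by
  refine ⟨∑ n ∈ Finset.range (D.order.natAbs + 1),
    Polynomial.monomial n (D.coeff (-(n : ℤ))), ?_⟩
  ext m
  rcases lt_or_ge 0 m with hm | hm
  · rw [CAlgS_psi_pos _ _ hm, hD m hm]
  · obtain ⟨n, rfl⟩ : ∃ n : ℕ, m = -(n : ℤ) := ⟨m.natAbs, by omega⟩
    rw [LSer_psi_coeff, Polynomial.finset_sum_coeff]
    simp only [Polynomial.coeff_monomial]
    rw [Finset.sum_ite_eq']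
    split_ifs with h
    · rfl
    · symm
      apply HahnSeries.coeff_eq_zero_of_lt_order
      rw [Finset.mem_range] at h
      omega

theorem CAlgS_mul_coeff (N : ℕ) (a : ℕ → ℂ) (t : LaurentSeries ℂ) (m : ℤ) :
    (psi (∑ i ∈ Finset.range (N + 1), Polynomial.monomial i (a i)) * t).coeff m =
      ∑ i ∈ Finset.range (N + 1), a i * t.coeff (m + i) := by
  rw [map_sum, Finset.sum_mul, HahnSeries.coeff_sum]
  refine Finset.sum_congr rfl fun i _ => ?_
  rw [LSer_psi_monomial]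
  have h := HahnSeries.coeff_single_mul_add (r := a i) (x := t) (a := m + i) (b := -(i : ℤ))
  rw [add_neg_cancel_right] at h
  exact h

theorem CAlgS_app (Φ : Fn (Lau k)) (κ : (Lau k)[X]) (t : LaurentSeries ℂ)
    (h : ∀ n : ℕ, Φ.app (Polynomial.X ^ n) = -∑ i ∈ Finset.range (κ.natDegree + 1),
      κ.coeff i * algebraMap ℂ (Lau k) (t.coeff ((n : ℤ) + 1 + i))) (W : Lau k) (n : ℕ) :
    LW Φ W (Polynomial.X ^ n) = -∑ i ∈ Finset.range (κ.natDegree + 1),
      E (W * κ.coeff i) * t.coeff ((n : ℤ) + 1 + i) := by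
  rw [LW_apply, map_pow]
  have h1 : cX k (Polynomial.X : ℂ[X]) = Polynomial.X := by
    simp [cX]
  rw [h1, h n, mul_neg, Finset.mul_sum, ← Finset.sum_neg_distrib, E_sum,
    ← Finset.sum_neg_distrib]
  refine Finset.sum_congr rfl fun i _ => ?_
  have h2 : -(W * (κ.coeff i * algebraMap ℂ (Lau k) (t.coeff ((n : ℤ) + 1 + i)))) =
      algebraMap ℂ (Lau k) (-(t.coeff ((n : ℤ) + 1 + i))) * (W * κ.coeff i) := by
    rw [map_neg]
    ring
  rw [h2, Joint_E_C]
  ring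

/-- The generating series of `LW Φ W` is algebraic.

Proof. `S := ∑ n ≥ 0, LW (X ^ n) u ^ (n + 1)` (as in `Rs`, or `HahnSeries.ofPowerSeries`). `psi (pW κ W) * t` has the
coefficient `∑ i, E (W * κ_i) * t.coeff (m + i)` at `m`; for `m = n + 1 ≥ 1` this is `-S.coeff m`; its part of
exponents `m ≤ 0` is a finite sum (the support of a Laurent series is bounded below), so it is `psi r` for a
polynomial `r`. So `S = psi r - psi p * t`, `p := pW κ W`. If `Q(t) = 0`, `Q ≠ 0`, then `t` is algebraic over `ℂ[X]`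
(through `psi`); sums and products of algebraic elements over a domain are algebraic
(`IsAlgebraic.add`, `IsAlgebraic.mul` with the algebra structure `psi.toAlgebra` on the field
`LaurentSeries ℂ`). -/
theorem exists_series (Φ : Fn (Lau k)) (κ : (Lau k)[X]) (t : LaurentSeries ℂ) (Q : ℂ[X][X])
    (hQ : Q ≠ 0) (hQt : Q.eval₂ psi t = 0)
    (h : ∀ n : ℕ, Φ.app (Polynomial.X ^ n) = -∑ i ∈ Finset.range (κ.natDegree + 1),
      κ.coeff i * algebraMap ℂ (Lau k) (t.coeff ((n : ℤ) + 1 + i))) (W : Lau k) :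
    ∃ S : LaurentSeries ℂ, (∀ n : ℕ, S.coeff ((n : ℤ) + 1) = LW Φ W (Polynomial.X ^ n)) ∧
      (∀ m : ℤ, m ≤ 0 → S.coeff m = 0) ∧ ∃ P : ℂ[X][X], P ≠ 0 ∧ P.eval₂ psi S = 0 := by
  classical
  set S : LaurentSeries ℂ := HahnSeries.ofPowerSeries ℤ ℂ
    (PowerSeries.mk fun n => if n = 0 then 0 else LW Φ W (Polynomial.X ^ (n - 1))) with hS
  have hS1 : ∀ n : ℕ, S.coeff ((n : ℤ) + 1) = LW Φ W (Polynomial.X ^ n) := by
    intro n
    have h1 : ((n : ℤ) + 1) = ((n + 1 : ℕ) : ℤ) := by push_cast; rfl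
    rw [h1, hS, HahnSeries.ofPowerSeries_apply_coeff, PowerSeries.coeff_mk,
      if_neg (Nat.succ_ne_zero n), Nat.add_sub_cancel]
  have hS2 : ∀ m : ℤ, m ≤ 0 → S.coeff m = 0 := by
    intro m hm
    rcases eq_or_lt_of_le hm with rfl | hm'
    · have h1 : (0 : ℤ) = ((0 : ℕ) : ℤ) := rfl
      rw [h1, hS, HahnSeries.ofPowerSeries_apply_coeff, PowerSeries.coeff_mk, if_pos rfl]
    · rw [hS, HahnSeries.ofPowerSeries_apply]
      apply HahnSeries.embDomain_notin_range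
      rintro ⟨n, hn⟩
      have h2 : ((n : ℕ) : ℤ) = m := hn
      omega
  refine ⟨S, hS1, hS2, ?_⟩
  obtain ⟨r, hr⟩ := CAlgS_poly (S + psi (∑ i ∈ Finset.range (κ.natDegree + 1),
    Polynomial.monomial i (E (W * κ.coeff i))) * t) (by
      intro m hm
      obtain ⟨n, rfl⟩ : ∃ n : ℕ, m = (n : ℤ) + 1 := ⟨(m - 1).toNat, by omega⟩
      rw [HahnSeries.coeff_add, hS1, CAlgS_mul_coeff, CAlgS_app Φ κ t h W n]
      ring)
  have hSe : S = psi r - psi (∑ i ∈ Finset.range (κ.natDegree + 1),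
      Polynomial.monomial i (E (W * κ.coeff i))) * t := by
    rw [hr]
    ring
  letI : Algebra ℂ[X] (LaurentSeries ℂ) := psi.toAlgebra
  have ht : IsAlgebraic ℂ[X] t := ⟨Q, hQ, hQt⟩
  have hSa : IsAlgebraic ℂ[X] S := by
    rw [hSe]
    exact (isAlgebraic_algebraMap r).sub ((isAlgebraic_algebraMap _).mul ht)
  obtain ⟨P, hP, hP'⟩ := hSa
  exact ⟨P, hP, hP'⟩

end Pool.Agent.Wb5ab1bf
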