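import Mathlib

/-!
# Base change of endomorphisms, traces (helper80)
-/

set_option autoImplicit false

noncomputable section

namespace Pool.Agent.Wb5ab1bf

/-- Base change of endomorphisms along a semilinear map which maps a basis to a basis.

Proof. `Φ x := Matrix.toLin e' e' ((LinearMap.toMatrix e e x).map φ)`. It is a ring homomorphism
(`LinearMap.toMatrixAlgEquiv`, `RingHom.mapMatrix`); `Φ x (e' i) = ∑ l, φ (a l i) • e' l = j (x (e i))`, and for
`v = ∑ c i • e i` both sides of the first claim are semilinear in `v`. Trace: `LinearMap.trace_eq_matrix_trace`. -/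
theorem base_change {K K' V V' : Type} [Field K] [Field K'] (φ : K →+* K') [AddCommGroup V]
    [Module K V] [AddCommGroup V'] [Module K' V'] (j : V →+ V')
    (hj : ∀ (f : K) (v : V), j (f • v) = φ f • j v) {n : ℕ} (e : Module.Basis (Fin n) K V)
    (e' : Module.Basis (Fin n) K' V') (he : ∀ i, j (e i) = e' i) :
    ∃ Φ : Module.End K V →+* Module.End K' V', (∀ x v, Φ x (j v) = j (x v)) ∧
      (∀ (f : K) x, Φ (f • x) = φ f • Φ x) ∧
      ∀ x, LinearMap.trace K' V' (Φ x) = φ (LinearMap.trace K V x) := by
  classical
  let Φ : Module.End K V →+* Module.End K' V' :=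
    (((Matrix.toLinAlgEquiv e').toAlgHom.toRingHom).comp (φ.mapMatrix)).comp
      ((LinearMap.toMatrixAlgEquiv e).toAlgHom.toRingHom)
  have hdef : ∀ x, Φ x = Matrix.toLinAlgEquiv e' ((LinearMap.toMatrixAlgEquiv e x).map φ) :=
    fun x => rfl
  have hj0 : ∀ v, j v = ∑ i, φ (e.repr v i) • e' i := by
    intro v
    conv_lhs => rw [← e.sum_repr v]
    rw [map_sum]
    exact Finset.sum_congr rfl fun i _ => by rw [hj, he]
  have hbas : ∀ x i, Φ x (e' i) = j (x (e i)) := by
    intro x i
    rw [hdef, Matrix.toLinAlgEquiv_self, hj0]
    exact Finset.sum_congr rfl fun l _ => by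
      rw [Matrix.map_apply, LinearMap.toMatrixAlgEquiv_apply]
  refine ⟨Φ, ?_, ?_, ?_⟩
  · intro x v
    rw [hj0 v, map_sum]
    conv_rhs => rw [← e.sum_repr v]
    rw [map_sum, map_sum]
    refine Finset.sum_congr rfl fun i _ => ?_
    rw [map_smul, hbas, map_smul, hj]
  · intro f x
    refine e'.ext fun i => ?_
    rw [hbas, LinearMap.smul_apply, LinearMap.smul_apply, hj, hbas]
  · intro x
    rw [LinearMap.trace_eq_matrix_trace K' e', LinearMap.trace_eq_matrix_trace K e]
    simp only [Matrix.trace, Matrix.diag_apply, map_sum]
    refine Finset.sum_congr rfl fun i _ => ?_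
    rw [LinearMap.toMatrix_apply, LinearMap.toMatrix_apply, hbas, hj0]
    simp [Finsupp.single_apply]

/-- The trace of an endomorphism killed by a polynomial over a domain is algebraic over it. -/
theorem trace_algebraic_dom {A K' V' : Type} [CommRing A] [IsDomain A] [Field K'] [Algebra A K']
    [AddCommGroup V']
    [Module K' V'] [FiniteDimensional K' V'] (f : Module.End K' V') (P : Polynomial A) (hP : P ≠ 0)
    (h : Polynomial.aeval f (P.map (algebraMap A K')) = 0) :
    IsAlgebraic A (LinearMap.trace K' V' f) := by
  classical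
  let Ω := AlgebraicClosure K'
  let b := Module.finBasis K' V'
  let ρ : Module.End K' V' →+* Matrix (Fin (Module.finrank K' V')) (Fin (Module.finrank K' V')) Ω :=
    ((algebraMap K' Ω).mapMatrix).comp ((LinearMap.toMatrixAlgEquiv b).toAlgHom.toRingHom)
  have htr : algebraMap K' Ω (LinearMap.trace K' V' f) = (ρ f).trace := by
    rw [LinearMap.trace_eq_matrix_trace K' b]
    change _ = (((LinearMap.toMatrix b b) f).map (algebraMap K' Ω)).trace
    simp [Matrix.trace, map_sum]
  have hρ : ∀ Q : Polynomial K', ρ (Polynomial.aeval f Q) =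
      Polynomial.aeval (ρ f) (Q.map (algebraMap K' Ω)) := by
    intro Q
    rw [Polynomial.aeval_def, Polynomial.hom_eval₂, Polynomial.aeval_def, Polynomial.eval₂_map]
    congr 1
    ext a i j
    simp only [RingHom.comp_apply]
    change algebraMap K' Ω ((LinearMap.toMatrixAlgEquiv b) (algebraMap K' (Module.End K' V') a) i j)
      = _
    rw [AlgEquiv.commutes, Matrix.algebraMap_matrix_apply, Matrix.algebraMap_matrix_apply]
    split_ifs <;> simp
  have h0 : Polynomial.aeval (ρ f) (P.map (algebraMap A Ω)) = 0 := by
    have h1 := hρ (P.map (algebraMap A K'))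
    rw [h, map_zero, Polynomial.map_map, ← IsScalarTower.algebraMap_eq] at h1
    exact h1.symm
  have hroot : ∀ r ∈ (ρ f).charpoly.roots, IsAlgebraic A r := by
    intro r hr
    have hr1 : r ∈ spectrum Ω (ρ f) :=
      Matrix.mem_spectrum_iff_isRoot_charpoly.mpr (Polynomial.isRoot_of_mem_roots hr)
    have hr2 : Polynomial.eval r (P.map (algebraMap A Ω)) ∈
        spectrum Ω (Polynomial.aeval (ρ f) (P.map (algebraMap A Ω))) :=
      spectrum.subset_polynomial_aeval (ρ f) _ ⟨r, hr1, rfl⟩
    rw [h0, spectrum.mem_iff, sub_zero] at hr2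
    refine ⟨P, hP, ?_⟩
    rw [Polynomial.aeval_def, ← Polynomial.eval_map]
    by_contra hne
    exact hr2 ((IsUnit.mk0 _ hne).map (algebraMap Ω _))
  have hsum : IsAlgebraic A (algebraMap K' Ω (LinearMap.trace K' V' f)) := by
    rw [htr, Matrix.trace_eq_sum_roots_charpoly]
    have hm : (ρ f).charpoly.roots.sum ∈ Subalgebra.algebraicClosure A Ω :=
      multiset_sum_mem _ fun r hr => hroot r hr
    exact hm
  exact (isAlgebraic_algebraMap_iff (algebraMap K' Ω).injective).mp hsum

/-- The trace of an endomorphism which is killed by a polynomial over a subfield is algebraic over it.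

Proof. Let `Ω` be an algebraic closure of `K'`. The trace is (up to the inclusion in `Ω`) the sum of the roots of the
characteristic polynomial (`Matrix.trace_eq_sum_roots_charpoly` for the matrix of `f` in a basis). Every root is
an eigenvalue, a root of the minimal polynomial, which divides `P` mapped to `K'`; so it is algebraic over the subfield
`L`; sums of algebraic elements are algebraic. Here `L` is a field, `ψ : L →+* K'`, and algebraic means to be a
root of a nonzero polynomial over `L`. -/
theorem trace_algebraic {L K' V' : Type} [Field L] [Field K'] [Algebra L K'] [AddCommGroup V']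
    [Module K' V'] [FiniteDimensional K' V'] (f : Module.End K' V') (P : Polynomial L) (hP : P ≠ 0)
    (h : Polynomial.aeval f (P.map (algebraMap L K')) = 0) :
    IsAlgebraic L (LinearMap.trace K' V' f) :=
  trace_algebraic_dom f P hP h

/-- The version for a domain `A` instead of a field (pass to the fraction field; `A → K'` injective). -/
theorem trace_algebraic' {A K' V' : Type} [CommRing A] [IsDomain A] [Field K'] (ψ : A →+* K')
    (hψ : Function.Injective ψ) [AddCommGroup V'] [Module K' V'] [FiniteDimensional K' V']
    (f : Module.End K' V') (P : Polynomial A) (hP : P ≠ 0)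
    (h : Polynomial.aeval f (P.map ψ) = 0) :
    ∃ Q : Polynomial A, Q ≠ 0 ∧ Q.eval₂ ψ (LinearMap.trace K' V' f) = 0 := by
  let _ := hψ
  letI : Algebra A K' := ψ.toAlgebra
  obtain ⟨Q, hQ, h1⟩ := trace_algebraic_dom f P hP h
  exact ⟨Q, hQ, h1⟩

/-- The trace of a semilinear conjugate. Proof: as for `trace_cj` in `ATr.lean`: if `e` is a basis then `σ ∘ e` is
a basis, and the matrix of the conjugate in it is `θ` of the matrix. Here `y` is the conjugate of `x`. -/
theorem trace_semi {K V : Type} [Field K] [AddCommGroup V] [Module K V] [FiniteDimensional K V]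
    (θ : K ≃+* K) (σ : V ≃+ V) (hσ : ∀ (f : K) (v : V), σ (f • v) = θ f • σ v)
    (x y : Module.End K V) (h : ∀ v, y (σ v) = σ (x v)) :
    LinearMap.trace K V y = θ (LinearMap.trace K V x) := by
  classical
  let e := Module.finBasis K V
  have hσ' : ∀ (f : K) (v : V), σ.symm (f • v) = θ.symm f • σ.symm v := by
    intro f v
    apply σ.injective
    rw [hσ, AddEquiv.apply_symm_apply, RingEquiv.apply_symm_apply, AddEquiv.apply_symm_apply]
  let E : V ≃ₗ[K] (Fin (Module.finrank K V) → K) :=
    { toFun := fun v i => θ (e.equivFun (σ.symm v) i)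
      map_add' := by
        intro u v
        ext i
        simp
      map_smul' := by
        intro f v
        ext i
        rw [hσ']
        simp
      invFun := fun c => σ (e.equivFun.symm fun i => θ.symm (c i))
      left_inv := by
        intro v
        have h1 : (fun i => θ.symm (θ (e.equivFun (σ.symm v) i))) = e.equivFun (σ.symm v) := by
          ext i
          simp
        change σ (e.equivFun.symm fun i => θ.symm (θ (e.equivFun (σ.symm v) i))) = v
        rw [h1, LinearEquiv.symm_apply_apply, AddEquiv.apply_symm_apply]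
      right_inv := by
        intro c
        ext i
        change θ (e.equivFun (σ.symm (σ (e.equivFun.symm fun i => θ.symm (c i)))) i) = c i
        rw [AddEquiv.symm_apply_apply, LinearEquiv.apply_symm_apply, RingEquiv.apply_symm_apply] }
  let e' : Module.Basis (Fin (Module.finrank K V)) K V := Module.Basis.ofEquivFun E
  have he : ∀ i, (σ : V →+ V) (e i) = e' i := by
    intro i
    have h1 : (fun l => θ.symm ((Pi.single i 1 : Fin (Module.finrank K V) → K) l)) =
        Pi.single i 1 := by
      ext l
      by_cases hl : l = i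
      · subst hl
        simp
      · simp [hl]
    have h2 : e' i = σ (e.equivFun.symm fun l => θ.symm ((Pi.single i 1 :
        Fin (Module.finrank K V) → K) l)) := by
      change Module.Basis.ofEquivFun E i = _
      rw [Module.Basis.coe_ofEquivFun]
      rfl
    rw [h2, h1, Module.Basis.equivFun_symm_apply]
    simp [Pi.single_apply]
  obtain ⟨Φ, h1, -, h3⟩ := base_change (θ : K →+* K) (σ : V →+ V) (fun f v => hσ f v) e e' he
  have hy : Φ x = y := by
    ext v
    obtain ⟨u, rfl⟩ := σ.surjective v
    rw [h]
    exact h1 x u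
  rw [← hy, h3]
  rfl

end Pool.Agent.Wb5ab1bf
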