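import Pool.Agent.W_b5ab1bf_h80.BIrr
import Pool.Agent.W_b5ab1bf_h80.BInt

/-!
# Laurent series: filtration, formal resolvent, decaying solutions: definitions (helper80)
-/

set_option autoImplicit false

noncomputable section

open scoped Polynomial
open Pool.Agent.Wb5ab1b

namespace Pool.Agent.Wb5ab1bf

/-- All the coefficients below `N` vanish. -/
def GE {F : Type} [Field F] (f : LaurentSeries F) (N : ℤ) : Prop := ∀ i : ℤ, i < N → f.coeff i = 0

/-- Band matrix under a homomorphism of fields. -/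
def BM.map {K K' : Type} [Field K] [Field K'] (B : BM K) (φ : K →+* K') : BM K' where
  w := B.w
  w_pos := B.w_pos
  h a b := φ (B.h a b)
  h_zero a b h := by rw [B.h_zero a b h, map_zero]
  h_top a := (map_ne_zero φ).2 (B.h_top a)
  h_bot a := (map_ne_zero φ).2 (B.h_bot a)

variable {k : ℕ} (B : Bd k) {K : Type} [Field K] (D : KField k K)

/-- The band matrix over the Laurent series. -/
def Bi : BM (LS k) := (B.bm D).map D.up

/-- The space of solutions over the Laurent series. -/
abbrev Vi : Submodule (LS k) (ℤ → LS k) := (Bi B D).V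

/-- The inclusion of the solutions. -/
def jv : VV B D →+ Vi B D where
  toFun v := ⟨fun n => D.up ((v : ℤ → K) n), by
    rw [BM.mem_V]
    funext a
    have h1 := congrFun ((B.bm D).mem_V.1 v.2) a
    have h2 : bop (Bi B D).w (Bi B D).h (fun n => D.up ((v : ℤ → K) n)) a =
        D.up (bop (B.bm D).w (B.bm D).h v a) := by
      show ∑ b ∈ Finset.Icc (a - ((B.bm D).w : ℤ)) (a + (B.bm D).w),
          D.up ((B.bm D).h a b) * D.up ((v : ℤ → K) b) =
        D.up (∑ b ∈ Finset.Icc (a - ((B.bm D).w : ℤ)) (a + (B.bm D).w),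
          (B.bm D).h a b * (v : ℤ → K) b)
      rw [map_sum]
      exact Finset.sum_congr rfl fun b _ => (map_mul _ _ _).symm
    rw [h2, h1, Pi.zero_apply, map_zero, Pi.zero_apply]⟩
  map_zero' := by
    apply Subtype.ext
    funext n
    show D.up 0 = 0
    rw [map_zero]
  map_add' v v' := by
    apply Subtype.ext
    funext n
    show D.up (((v + v' : VV B D) : ℤ → K) n) = D.up ((v : ℤ → K) n) + D.up ((v' : ℤ → K) n)
    rw [Submodule.coe_add, Pi.add_apply, map_add]

theorem jv_apply (v : VV B D) (n : ℤ) : (jv B D v : ℤ → LS k) n = D.up ((v : ℤ → K) n) := rfl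

theorem jv_smul (f : K) (v : VV B D) : jv B D (f • v) = D.up f • jv B D v := by
  apply Subtype.ext
  funext n
  show D.up (((f • v : VV B D) : ℤ → K) n) = D.up f * D.up ((v : ℤ → K) n)
  rw [Submodule.coe_smul, Pi.smul_apply, smul_eq_mul, map_mul]

/-- Decay at `+∞`. -/
def DecP (v : ℤ → LS k) : Prop := ∀ N : ℤ, ∃ n₀ : ℤ, ∀ n, n₀ ≤ n → GE (v n) N

/-- Decay at `-∞`. -/
def DecM (v : ℤ → LS k) : Prop := ∀ N : ℤ, ∃ n₀ : ℤ, ∀ n, n ≤ n₀ → GE (v n) N

/-- The formal resolvent: the coefficient of `u ^ (n + 1)` is minus the entry of the `n`-th power. -/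
def Rs (c b : ℤ) : LS k :=
  HahnSeries.single (1 : ℤ) (1 : FractionRing (Lau k)) *
    HahnSeries.ofPowerSeries ℤ (FractionRing (Lau k)) (PowerSeries.mk fun n =>
      -algebraMap (Lau k) (FractionRing (Lau k)) (bpw B.w B.H n c b))

theorem hθi (a b : ℤ) : (Bi B D).h (a + 1) (b + 1) = D.thL ((Bi B D).h a b) := by
  show D.up ((B.bm D).h (a + 1) (b + 1)) = D.thL (D.up ((B.bm D).h a b))
  rw [bm_h_succ, D.up_θ]

/-- The shift of solutions over the Laurent series. -/
def sgi : Vi B D ≃+ Vi B D := (Bi B D).sig D.thL (hθi B D)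

theorem sgi_apply (v : Vi B D) (n : ℤ) :
    (sgi B D v : ℤ → LS k) n = D.thL ((v : ℤ → LS k) (n - 1)) := rfl

theorem sgi_jv (v : VV B D) : sgi B D (jv B D v) = jv B D (sgV B D v) := by
  apply Subtype.ext
  funext n
  show D.thL (D.up ((v : ℤ → K) (n - 1))) = D.up (D.θ ((v : ℤ → K) (n - 1)))
  rw [D.up_θ]

end Pool.Agent.Wb5ab1bf
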