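import Pool.Agent.W_b5ab1bf_h80.CPhi
import Pool.Agent.W_b5ab1bf_h80.BSys

/-!
# Endomorphisms with finite orbit preserve decay (helper80)
-/

set_option autoImplicit false

noncomputable section

open scoped Polynomial
open Pool.Agent.Wb5ab1b

namespace Pool.Agent.Wb5ab1bf

variable {k : ℕ} (B : Bd k) {K : Type} [Field K] (D : KField k K)

/-! ### Auxiliary results -/

/-- The shift of the field, as an element of the group of automorphisms. -/
def CFn_T : RingAut K := D.θ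

theorem CFn_iter (S : Sys D.toDField (VV B D)) (x : Module.End K (VV B D)) (m : ℕ)
    (v : VV B D) : ((S.cj ^ m) x) (S.σ^[m] v) = S.σ^[m] (x v) := by
  induction m generalizing x v with
  | zero => rfl
  | succ m ih =>
    rw [pow_succ, Function.iterate_succ_apply, Function.iterate_succ_apply]
    have h1 := ih (S.cj x) (S.σ v)
    have h2 : (S.cj x) (S.σ v) = S.σ (x v) := by
      show S.σ (x (S.σ.symm (S.σ v))) = S.σ (x v)
      rw [S.σ.symm_apply_apply]
    rw [h2] at h1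
    exact h1

theorem CFn_shift (S : Sys D.toDField (VV B D)) (hS : IsShift B D S) (m : ℕ) (v : VV B D)
    (n : ℤ) : ((S.σ^[m] v : VV B D) : ℤ → K) n = (CFn_T D ^ (m : ℤ)) ((v : ℤ → K) (n - m)) := by
  induction m generalizing n with
  | zero =>
    rw [Nat.cast_zero, zpow_zero, sub_zero]
    rfl
  | succ m ih =>
    rw [Function.iterate_succ_apply', hS.shift, ih, Nat.cast_succ, add_comm (m : ℤ) 1, zpow_add,
      zpow_one, sub_sub]
    rfl

theorem CFn_P (S : Sys D.toDField (VV B D)) (hS : IsShift B D S) (x : Module.End K (VV B D))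
    (m : ℕ) (hm : (S.cj ^ m) x = x) (t : ℤ) (v : VV B D) :
    ∃ v' : VV B D, (∀ n, (v : ℤ → K) n = (CFn_T D ^ (t * m)) ((v' : ℤ → K) (n - t * m))) ∧
      ∀ n, ((x v : VV B D) : ℤ → K) n =
        (CFn_T D ^ (t * m)) (((x v' : VV B D) : ℤ → K) (n - t * m)) := by
  have hx : ∀ v, x (S.σ^[m] v) = S.σ^[m] (x v) := by
    intro v
    have h1 := CFn_iter B D S x m v
    rw [hm] at h1
    exact h1
  have hp : ∀ v : VV B D, ∃ v' : VV B D,
      (∀ n, (v : ℤ → K) n = (CFn_T D ^ (m : ℤ)) ((v' : ℤ → K) (n - m))) ∧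
      ∀ n, ((x v : VV B D) : ℤ → K) n =
        (CFn_T D ^ (m : ℤ)) (((x v' : VV B D) : ℤ → K) (n - m)) := by
    intro v
    obtain ⟨v', rfl⟩ := (S.σ.surjective.iterate m) v
    refine ⟨v', fun n => CFn_shift B D S hS m v' n, fun n => ?_⟩
    rw [hx]
    exact CFn_shift B D S hS m (x v') n
  have hn : ∀ v : VV B D, ∃ v' : VV B D,
      (∀ n, (v : ℤ → K) n = (CFn_T D ^ (-(m : ℤ))) ((v' : ℤ → K) (n + m))) ∧
      ∀ n, ((x v : VV B D) : ℤ → K) n =
        (CFn_T D ^ (-(m : ℤ))) (((x v' : VV B D) : ℤ → K) (n + m)) := by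
    intro v
    have key : ∀ (w : VV B D) (n : ℤ), (w : ℤ → K) n =
        (CFn_T D ^ (-(m : ℤ))) (((S.σ^[m] w : VV B D) : ℤ → K) (n + m)) := by
      intro w n
      rw [CFn_shift B D S hS, add_sub_cancel_right]
      have h1 : (CFn_T D ^ (-(m : ℤ))) * (CFn_T D ^ (m : ℤ)) = 1 := by
        rw [← zpow_add, neg_add_cancel, zpow_zero]
      exact (DFunLike.congr_fun h1 ((w : ℤ → K) n)).symm
    refine ⟨S.σ^[m] v, key v, fun n => ?_⟩
    rw [hx]
    exact key (x v) n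
  induction t using Int.induction_on with
  | zero =>
    refine ⟨v, fun n => ?_, fun n => ?_⟩
    · rw [zero_mul, zpow_zero, sub_zero]
      rfl
    · rw [zero_mul, zpow_zero, sub_zero]
      rfl
  | succ t ih =>
    obtain ⟨v₁, h1, h2⟩ := ih
    obtain ⟨v₂, h3, h4⟩ := hp v₁
    refine ⟨v₂, fun n => ?_, fun n => ?_⟩
    · rw [h1, h3, add_one_mul, zpow_add, ← sub_sub]
      rfl
    · rw [h2, h4, add_one_mul, zpow_add, ← sub_sub]
      rfl
  | pred t ih =>
    obtain ⟨v₁, h1, h2⟩ := ih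
    obtain ⟨v₂, h3, h4⟩ := hn v₁
    have e : ∀ n : ℤ, n - -(t : ℤ) * m + m = n - (-(t : ℤ) - 1) * m := fun n => by ring
    refine ⟨v₂, fun n => ?_, fun n => ?_⟩
    · rw [h1, h3, e, sub_one_mul, sub_eq_add_neg (-(t : ℤ) * m), zpow_add]
      rfl
    · rw [h2, h4, e, sub_one_mul, sub_eq_add_neg (-(t : ℤ) * m), zpow_add]
      rfl

theorem CFn_up (q : ℤ) (f : K) : D.up ((CFn_T D ^ q) f) = (D.thL ^ q) (D.up f) := by
  have hn : ∀ (n : ℕ) (f : K), D.up ((CFn_T D ^ n) f) = (D.thL ^ n) (D.up f) := by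
    intro n
    induction n with
    | zero => intro f; rfl
    | succ n ih =>
      intro f
      rw [pow_succ', pow_succ']
      show D.up (D.θ ((CFn_T D ^ n) f)) = D.thL ((D.thL ^ n) (D.up f))
      rw [D.up_θ, ih]
  cases q with
  | ofNat n =>
    rw [Int.ofNat_eq_natCast, zpow_natCast, zpow_natCast]
    exact hn n f
  | negSucc n =>
    rw [zpow_negSucc, zpow_negSucc]
    apply (D.thL ^ (n + 1)).injective
    rw [← hn]
    have h1 : (CFn_T D ^ (n + 1)) * (CFn_T D ^ (n + 1))⁻¹ = 1 := mul_inv_cancel _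
    have h2 : (D.thL ^ (n + 1)) * (D.thL ^ (n + 1))⁻¹ = 1 := mul_inv_cancel _
    have h3 : (CFn_T D ^ (n + 1)) ((CFn_T D ^ (n + 1))⁻¹ f) = f := DFunLike.congr_fun h1 f
    have h4 : (D.thL ^ (n + 1)) ((D.thL ^ (n + 1))⁻¹ (D.up f)) = D.up f :=
      DFunLike.congr_fun h2 (D.up f)
    rw [h3, h4]

theorem CFn_GE (q : ℤ) (f : LS k) (N : ℤ) : GE ((D.thL ^ q) f) N ↔ GE f N := by
  cases q with
  | ofNat n =>
    rw [Int.ofNat_eq_natCast, zpow_natCast]
    exact GE_thL_pow D f n N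
  | negSucc n =>
    rw [zpow_negSucc]
    have h2 : (D.thL ^ (n + 1)) * (D.thL ^ (n + 1))⁻¹ = 1 := mul_inv_cancel _
    have h4 : (D.thL ^ (n + 1)) ((D.thL ^ (n + 1))⁻¹ f) = f := DFunLike.congr_fun h2 f
    have h5 := GE_thL_pow D ((D.thL ^ (n + 1))⁻¹ f) (n + 1) N
    rw [h4] at h5
    exact h5.symm

theorem CFn_bound {ι : Type} (s : Finset ι) (f : ι → LS k) : ∃ N : ℤ, ∀ i ∈ s, GE (f i) N := by
  classical
  induction s using Finset.induction_on with
  | empty => exact ⟨0, fun i hi => absurd hi (Finset.notMem_empty i)⟩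
  | insert a s _ ih =>
    obtain ⟨N, hN⟩ := ih
    obtain ⟨M, hM⟩ := exists_GE (f a)
    refine ⟨min M N, fun i hi => ?_⟩
    rcases Finset.mem_insert.1 hi with rfl | h
    · exact GE_mono (min_le_left _ _) hM
    · exact GE_mono (min_le_right _ _) (hN i h)

theorem CFn_key (S : Sys D.toDField (VV B D)) (hS : IsShift B D S)
    (Φ : Module.End K (VV B D) →+* Module.End (LS k) (Vi B D))
    (hΦ : ∀ x v, Φ x (jv B D v) = jv B D (x v)) (x : Module.End K (VV B D)) (hx : x ∈ S.fn) :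
    ∃ (N₀ : ℤ) (m : ℕ), ∀ (v : Vi B D) (n M : ℤ),
      (∀ l, n - m < l → l < n + 2 * B.w → GE ((v : ℤ → LS k) l) M) →
        GE (((Φ x v : Vi B D) : ℤ → LS k) n) (N₀ + M) := by
  obtain ⟨m, hm0, hm⟩ := hx
  have hex : ∀ i : ℤ, ∃ a : ℤ → K, ∀ v : VV B D, ((x v : VV B D) : ℤ → K) i =
      ∑ l ∈ Finset.Ico (0 : ℤ) (2 * B.w), a l * (v : ℤ → K) l := by
    intro i
    obtain ⟨a, ha⟩ := (B.bm D).exists_ev (((B.bm D).ev i).comp x) 0
    refine ⟨a, fun v => ?_⟩
    have h1 := LinearMap.congr_fun ha v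
    rw [LinearMap.comp_apply, BM.ev_apply, LinearMap.sum_apply, zero_add] at h1
    exact h1
  choose a ha using hex
  obtain ⟨N₀, hN₀⟩ := CFn_bound (Finset.Ico (0 : ℤ) m ×ˢ Finset.Ico (0 : ℤ) (2 * B.w))
    (fun p => D.up (a p.1 p.2))
  refine ⟨N₀, m, fun v n M hv => ?_⟩
  set t : ℤ := n / m with ht
  set i : ℤ := n % m with hi
  have hm0' : (0 : ℤ) < m := by exact_mod_cast hm0
  have hi0 : 0 ≤ i := Int.emod_nonneg n hm0'.ne'
  have him : i < m := Int.emod_lt_of_pos n hm0'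
  have hn : n = i + t * m := by
    have h1 := Int.emod_add_mul_ediv n m
    rw [← ht, ← hi] at h1
    rw [← h1]
    ring
  have hval : ∀ v : VV B D, ((x v : VV B D) : ℤ → K) n =
      ∑ l ∈ Finset.Ico (t * m) (t * m + 2 * B.w),
        (CFn_T D ^ (t * m)) (a i (l - t * m)) * (v : ℤ → K) l := by
    intro v
    obtain ⟨v', h1, h2⟩ := CFn_P B D S hS x m hm t v
    rw [h2, show n - t * m = i by rw [hn]; ring, ha, map_sum]
    refine Finset.sum_nbij' (fun l => l + t * m) (fun l => l - t * m) ?_ ?_ ?_ ?_ ?_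
    · intro l hl
      rw [Finset.mem_Ico] at hl ⊢
      omega
    · intro l hl
      rw [Finset.mem_Ico] at hl ⊢
      omega
    · intro l _
      ring
    · intro l _
      ring
    · intro l _
      show _ = (CFn_T D ^ (t * m)) (a i (l + t * m - t * m)) * (v : ℤ → K) (l + t * m)
      rw [h1, add_sub_cancel_right, map_mul]
  rw [Phi_value B D Φ hΦ x n _ _ hval v]
  refine GE_sum _ _ _ fun l hl => ?_
  rw [Finset.mem_Ico] at hl
  refine GE_mul ?_ (hv l (by omega) (by omega))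
  rw [CFn_up, CFn_GE]
  exact hN₀ (i, l - t * m) (Finset.mem_product.2
    ⟨Finset.mem_Ico.2 ⟨hi0, him⟩, Finset.mem_Ico.2 (by constructor <;> omega)⟩)

/-- **Endomorphisms with finite orbit preserve decay.**

Proof. Let `(S.cj ^ m) x = x`, `m > 0`. For `0 ≤ i < m` the functional `v ↦ (x v) i` is `∑ l ∈ [0, 2w), Δ i l * v l`
(`exists_ev`). For `n : ℤ` (put `q := m n`) `(S.cj ^ q) x = x`, so `x v = S.σ^q (x (S.σ^(-q) v))`, which gives
`(x v) (i + q) = θ^q ((x (S.σ^(-q) v)) i) = ∑ l, θ^q (Δ i l) * v (l + q)` (`IsShift.shift` iterated). By `Phi_value`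
the same formula holds for `Φ x` on `Vi` with the coefficients `up (θ^q (Δ i l)) = thL^q (up (Δ i l))` (`up_θ`), which have
`GE (·) N₀` with `N₀` independent of `q`, `i`, `l` (`exists_GE`, `GE_thL` for both signs of `q`). If the values `v n` have
`GE (v n) N` for `n ≥ n₀` then those of `Φ x v` have `GE (·) (N + N₀)` for `n ≥ n₀ + m`. -/
theorem fn_DecP (S : Sys D.toDField (VV B D)) (hS : IsShift B D S)
    (Φ : Module.End K (VV B D) →+* Module.End (LS k) (Vi B D))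
    (hΦ : ∀ x v, Φ x (jv B D v) = jv B D (x v)) (x : Module.End K (VV B D)) (hx : x ∈ S.fn)
    (v : Vi B D) (hv : DecP (v : ℤ → LS k)) : DecP ((Φ x v : Vi B D) : ℤ → LS k) := by
  obtain ⟨N₀, m, h⟩ := CFn_key B D S hS Φ hΦ x hx
  intro N
  obtain ⟨n₀, hn₀⟩ := hv (N - N₀)
  refine ⟨n₀ + m, fun n hn => ?_⟩
  have h1 := h v n (N - N₀) fun l hl _ => hn₀ l (by omega)
  rwa [add_sub_cancel] at h1

/-- The same at the other end. -/
theorem fn_DecM (S : Sys D.toDField (VV B D)) (hS : IsShift B D S)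
    (Φ : Module.End K (VV B D) →+* Module.End (LS k) (Vi B D))
    (hΦ : ∀ x v, Φ x (jv B D v) = jv B D (x v)) (x : Module.End K (VV B D)) (hx : x ∈ S.fn)
    (v : Vi B D) (hv : DecM (v : ℤ → LS k)) : DecM ((Φ x v : Vi B D) : ℤ → LS k) := by
  obtain ⟨N₀, m, h⟩ := CFn_key B D S hS Φ hΦ x hx
  intro N
  obtain ⟨n₀, hn₀⟩ := hv (N - N₀)
  refine ⟨n₀ - 2 * B.w, fun n hn => ?_⟩
  have h1 := h v n (N - N₀) fun l _ hl => hn₀ l (by omega)
  rwa [add_sub_cancel] at h1

end Pool.Agent.Wb5ab1bf
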