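import Pool.Agent.W_b5ab1bf_h80.CDefs

/-!
# The filtration of Laurent series (helper80)
-/

set_option autoImplicit false

noncomputable section

open scoped Polynomial
open Pool.Agent.Wb5ab1b

namespace Pool.Agent.Wb5ab1bf

section F

variable {F : Type} [Field F]

theorem GE_zero (N : ℤ) : GE (0 : LaurentSeries F) N := fun _ _ => HahnSeries.coeff_zero

theorem GE_add {f g : LaurentSeries F} {N : ℤ} (hf : GE f N) (hg : GE g N) : GE (f + g) N := fun i hi => by
  rw [HahnSeries.coeff_add, hf i hi, hg i hi, add_zero]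

theorem GE_neg {f : LaurentSeries F} {N : ℤ} (hf : GE f N) : GE (-f) N := fun i hi => by
  rw [HahnSeries.coeff_neg, hf i hi, neg_zero]

theorem GE_sum {ι : Type} (s : Finset ι) (f : ι → LaurentSeries F) (N : ℤ)
    (h : ∀ i ∈ s, GE (f i) N) : GE (∑ i ∈ s, f i) N := fun i hi => by
  rw [HahnSeries.coeff_sum]
  exact Finset.sum_eq_zero fun j hj => h j hj i hi

theorem GE_mono {f : LaurentSeries F} {M N : ℤ} (h : M ≤ N) (hf : GE f N) : GE f M := fun i hi => hf i (by omega)

/-- The coefficient of a product at `i < M + N` is a sum over `a + b = i`, so `a < M` or `b < N`. -/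
theorem GE_mul {f g : LaurentSeries F} {M N : ℤ} (hf : GE f M) (hg : GE g N) :
    GE (f * g) (M + N) := fun i hi => by
  rw [HahnSeries.coeff_mul]
  refine Finset.sum_eq_zero fun ij hij => ?_
  have h1 := (Finset.mem_antidiagonal.1 hij).2.2
  by_cases h2 : ij.1 < M
  · rw [hf _ h2, zero_mul]
  · rw [hg _ (by omega), mul_zero]

theorem exists_GE (f : LaurentSeries F) : ∃ N : ℤ, GE f N :=
  ⟨f.order, fun _ hi => HahnSeries.coeff_eq_zero_of_lt_order hi⟩

theorem eq_zero_of_GE {f : LaurentSeries F} (h : ∀ N : ℤ, GE f N) : f = 0 := by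
  ext i
  exact h (i + 1) i (by omega)

/-- Multiplication by `single m 1` shifts the filtration. -/
theorem GE_single_mul (f : LaurentSeries F) (m N : ℤ) :
    GE (HahnSeries.single m (1 : F) * f) (N + m) ↔ GE f N := by
  constructor
  · intro h i hi
    have h1 := h (i + m) (by omega)
    rwa [HahnSeries.coeff_single_mul_add, one_mul] at h1
  · intro h i hi
    rw [HahnSeries.coeff_single_mul, one_mul]
    exact h _ (by omega)

theorem GE_C (c : F) : GE (HahnSeries.C c : LaurentSeries F) 0 := fun i hi => by
  rw [HahnSeries.C_apply, HahnSeries.coeff_single_of_ne hi.ne]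

theorem GE_C_mul (c : F) {f : LaurentSeries F} {N : ℤ} (hf : GE f N) :
    GE ((HahnSeries.C c : LaurentSeries F) * f) N := by
  have h := GE_mul (GE_C c) hf
  rwa [zero_add] at h

end F

variable {k : ℕ} {K : Type} [Field K] (D : KField k K)

/-- The coefficientwise shift preserves the filtration. -/
theorem GE_thL (f : LS k) (N : ℤ) : GE (D.thL f) N ↔ GE f N := by
  refine forall_congr' fun i => forall_congr' fun _ => ?_
  rw [D.thL_coeff]
  exact map_eq_zero_iff D.th D.th.injective

theorem GE_thL_pow (f : LS k) (n : ℕ) (N : ℤ) : GE ((D.thL ^ n) f) N ↔ GE f N := by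
  induction n with
  | zero => rfl
  | succ n ih =>
    rw [pow_succ', RingAut.mul_apply, GE_thL, ih]

/-- The embedding of a polynomial: coefficients. -/
theorem up_ι_coeff (G : (Lau k)[X]) (m : ℤ) : (D.up (D.ι G)).coeff m =
    if m ≤ 0 then algebraMap (Lau k) (FractionRing (Lau k)) (G.coeff (-m).toNat) else 0 := by
  induction G using Polynomial.induction_on' with
  | add p q hp hq =>
    rw [map_add, map_add, HahnSeries.coeff_add, hp, hq, Polynomial.coeff_add, map_add]
    split_ifs
    · rfl
    · rw [add_zero]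
  | monomial n a =>
    rw [← Polynomial.C_mul_X_pow_eq_monomial, map_mul, map_mul, map_pow, map_pow, D.up_C, D.up_X,
      HahnSeries.single_pow, one_pow, HahnSeries.C_apply, HahnSeries.single_mul_single, mul_one,
      zero_add, Polynomial.coeff_C_mul, Polynomial.coeff_X_pow]
    by_cases hm : m = n • (-1 : ℤ)
    · subst hm
      rw [HahnSeries.coeff_single_same, if_pos (by simp), if_pos (by simp), mul_one]
    · rw [HahnSeries.coeff_single_of_ne hm]
      rw [nsmul_eq_mul] at hm
      split_ifs with h1 h2
      · omega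
      · rw [mul_zero, map_zero]
      · rfl

/-- The coefficients of the product of a polynomial and a series. -/
theorem up_ι_mul_coeff (G : (Lau k)[X]) (f : LS k) (m : ℤ) :
    (D.up (D.ι G) * f).coeff m = ∑ i ∈ Finset.range (G.natDegree + 1),
      algebraMap (Lau k) (FractionRing (Lau k)) (G.coeff i) * f.coeff (m + i) := by
  have h1 : ∀ (i : ℕ) (a : Lau k), (D.up (D.ι (Polynomial.monomial i a)) * f).coeff m =
      algebraMap (Lau k) (FractionRing (Lau k)) a * f.coeff (m + i) := by
    intro i a
    rw [← Polynomial.C_mul_X_pow_eq_monomial, map_mul, map_mul, map_pow, map_pow, D.up_C, D.up_X,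
      HahnSeries.single_pow, one_pow, HahnSeries.C_apply, HahnSeries.single_mul_single, mul_one,
      zero_add, HahnSeries.coeff_single_mul]
    congr 2
    rw [nsmul_eq_mul]
    omega
  conv_lhs => rw [G.as_sum_range' (G.natDegree + 1) (Nat.lt_succ_self _)]
  rw [map_sum, map_sum, Finset.sum_mul, HahnSeries.coeff_sum]
  exact Finset.sum_congr rfl fun i _ => h1 i _

/-- Fractions with a denominator in `Lau k` have no coefficients at `m ≥ 1` (multiply by the denominator, which
is a nonzero constant series). -/
theorem up_intR_coeff (f : K) (hf : f ∈ intR D) (m : ℤ) (hm : 1 ≤ m) : (D.up f).coeff m = 0 := by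
  obtain ⟨b, hb, G, hG⟩ := hf
  have h1 : (D.up (D.ι (Polynomial.C b) * f)).coeff m = (D.up (D.ι G)).coeff m := by rw [hG]
  rw [map_mul, D.up_C, up_ι_coeff, if_neg (by omega), HahnSeries.C_apply,
    HahnSeries.coeff_single_mul, sub_zero] at h1
  refine (mul_eq_zero.1 h1).resolve_left ?_
  intro h2
  exact hb ((map_eq_zero_iff _ (IsFractionRing.injective (Lau k) (FractionRing (Lau k)))).1 h2)

end Pool.Agent.Wb5ab1bf
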