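import Pool.Agent.W_b5ab1b_h80.Defs

/-!
# The Stieltjes transform of a functional: definitions (helper80)
-/

set_option autoImplicit false

noncomputable section

open scoped Polynomial
open Pool.Agent.Wb5ab1b

namespace Pool.Agent.Wb5ab1bf

/-- A polynomial as a continuous function on `[-R, R]`. -/
def pc (R : ℝ) (q : ℂ[X]) : C(Set.Icc (-R) R, ℂ) := ⟨fun x => q.eval ((x : ℝ) : ℂ), by fun_prop⟩

theorem pc_apply (R : ℝ) (q : ℂ[X]) (x : Set.Icc (-R) R) : pc R q x = q.eval ((x : ℝ) : ℂ) := rfl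

open scoped Classical in
/-- The function `x ↦ 1 / (z - x)` on `[-R, R]`, for `z` with `z ≠ x` (and `0` otherwise). -/
def rz (R : ℝ) (z : ℂ) : C(Set.Icc (-R) R, ℂ) :=
  if h : ∀ x : Set.Icc (-R) R, z - ((x : ℝ) : ℂ) ≠ 0 then
    ⟨fun x => (z - ((x : ℝ) : ℂ))⁻¹, by
      refine Continuous.inv₀ (by fun_prop) h⟩
  else 0

theorem rz_apply {R : ℝ} {z : ℂ} (h : ∀ x : Set.Icc (-R) R, z - ((x : ℝ) : ℂ) ≠ 0)
    (x : Set.Icc (-R) R) : rz R z x = (z - ((x : ℝ) : ℂ))⁻¹ := by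
  unfold rz
  rw [dif_pos h]
  rfl

theorem ne_of_im {R : ℝ} {z : ℂ} (h : z.im ≠ 0) (x : Set.Icc (-R) R) : z - ((x : ℝ) : ℂ) ≠ 0 := by
  intro h1
  apply h
  have h2 := congrArg Complex.im h1
  simpa using h2

/-- The Stieltjes transform. -/
def stj {R : ℝ} (Λ : C(Set.Icc (-R) R, ℂ) →L[ℂ] ℂ) (z : ℂ) : ℂ := Λ (rz R z)

/-- Polynomials in `X` as Laurent series in `1 / X`. -/
def psi : ℂ[X] →+* LaurentSeries ℂ :=
  Polynomial.eval₂RingHom (HahnSeries.C : ℂ →+* LaurentSeries ℂ) (HahnSeries.single (-1 : ℤ) (1 : ℂ))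

/-- The functional `L` is bounded by the supremum on `[-R, R]`. -/
def SupBd (R C₀ : ℝ) (L : ℂ[X] →ₗ[ℂ] ℂ) : Prop :=
  ∀ (q : ℂ[X]) (b : ℝ), (∀ x ∈ Set.Icc (-R) R, ‖q.eval (x : ℂ)‖ ≤ b) → ‖L q‖ ≤ C₀ * b

end Pool.Agent.Wb5ab1bf
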