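import Pool.Agent.W_b5ab1bf_h80.CRs
import Pool.Agent.W_b5ab1bf_h80.LDefs
import Pool.Agent.W_b5ab1bf_h80.BKa

/-!
# Comparison of coefficients (helper80)
-/

set_option autoImplicit false

noncomputable section

open scoped Polynomial
open Pool.Agent.Wb5ab1b

namespace Pool.Agent.Wb5ab1bf

variable {k : ℕ} (B : Bd k) {K : Type} [Field K] (D : KField k K)

/-- One term of the sum. -/
theorem CSerA_app (G : (Lau k)[X]) (c b : ℤ) (n : ℕ) :
    (G • B.P c b).app (Polynomial.X ^ n) =
      ∑ i ∈ Finset.range (G.natDegree + 1), G.coeff i * bpw B.w B.H (n + i) c b := by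
  rw [Fn.app_smul]
  show bent B.w B.H c b (G * Polynomial.X ^ n) = _
  conv_lhs => rw [G.as_sum_range_C_mul_X_pow]
  rw [Finset.sum_mul, map_sum]
  refine Finset.sum_congr rfl fun i _ => ?_
  rw [mul_assoc, ← pow_add, ← Polynomial.smul_eq_C_mul, map_smul, smul_eq_mul, bent_X_pow,
    add_comm i n]

theorem CSerA_term (G : (Lau k)[X]) (b c : ℤ) (n : ℕ) :
    (D.up (D.ι G) * (Rs B c b - D.up ((B.bm D).Gm b c))).coeff ((n : ℤ) + 1) =
      -algebraMap (Lau k) (FractionRing (Lau k)) ((G • B.P c b).app (Polynomial.X ^ n)) := by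
  rw [mul_sub, ← map_mul, HahnSeries.coeff_sub,
    up_intR_coeff D _ (mul_mem (ι_mem_intR D G) (Gm_mem_intR B D b c)) _ (by omega), sub_zero,
    up_ι_mul_coeff, CSerA_app, map_sum, ← Finset.sum_neg_distrib]
  refine Finset.sum_congr rfl fun i _ => ?_
  have h1 : (n : ℤ) + 1 + (i : ℤ) = ((n + i : ℕ) : ℤ) + 1 := by push_cast; ring
  rw [h1, Rs_coeff, map_mul, mul_neg]

/-- The coefficients of the sum in `trace_eI` at `n + 1`, `n ≥ 0`.

Proof. By additivity, for `F = single (b, c) G`: `up_ι_mul_coeff` and `Rs_coeff` give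
`∑ i, G_i * (-(bpw (n + i) c b)) = -(G • B.P c b).app (X ^ n)` (`Fn.app_smul`, `bent_X_pow`), and the term with
`Gm` is in the image of `intR` (`Gm_mem_intR`, `ι_mem_intR`, `mul_mem`), so it has no coefficient at `n + 1`
(`up_intR_coeff`). -/
theorem sum_coeff (F : (ℤ × ℤ) →₀ (Lau k)[X]) (n : ℕ) :
    (F.sum fun p G => D.up (D.ι G) * (Rs B p.2 p.1 - D.up ((B.bm D).Gm p.1 p.2))).coeff
        ((n : ℤ) + 1) =
      -algebraMap (Lau k) (FractionRing (Lau k)) ((eP B F).app (Polynomial.X ^ n)) := by
  classical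
  unfold eP
  rw [Finsupp.sum, Finsupp.sum, HahnSeries.coeff_sum, BBndP_app_sum, map_sum,
    ← Finset.sum_neg_distrib]
  refine Finset.sum_congr rfl fun p _ => ?_
  exact CSerA_term B D (F p) p.1 p.2 n

/-- The coefficientwise inclusion of the Laurent series. -/
def CSerA_emb (k : ℕ) : LaurentSeries ℂ →+* LS k where
  toFun f := f.map ((algebraMap (Lau k) (FractionRing (Lau k))).comp (algebraMap ℂ (Lau k)))
  map_one' := by
    ext n
    rw [HahnSeries.map_coeff, HahnSeries.coeff_one, HahnSeries.coeff_one]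
    split_ifs with h
    · exact map_one _
    · exact map_zero _
  map_mul' f g := HahnSeries.map_mul
    (((algebraMap (Lau k) (FractionRing (Lau k))).comp (algebraMap ℂ (Lau k))).toNonUnitalRingHom)
  map_zero' := by
    ext n
    rw [HahnSeries.map_coeff, HahnSeries.coeff_zero, HahnSeries.coeff_zero]
    exact map_zero _
  map_add' f g := by
    ext n
    rw [HahnSeries.map_coeff, HahnSeries.coeff_add, HahnSeries.coeff_add, HahnSeries.map_coeff,
      HahnSeries.map_coeff]
    exact map_add _ _ _

theorem CSerA_emb_coeff (f : LaurentSeries ℂ) (n : ℤ) : (CSerA_emb k f).coeff n =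
    algebraMap (Lau k) (FractionRing (Lau k)) (algebraMap ℂ (Lau k) (f.coeff n)) := rfl

theorem CSerA_emb_single (m : ℤ) (c : ℂ) : CSerA_emb k (HahnSeries.single m c) =
    HahnSeries.single m (algebraMap (Lau k) (FractionRing (Lau k)) (algebraMap ℂ (Lau k) c)) := by
  ext n
  rw [CSerA_emb_coeff]
  by_cases h : n = m
  · rw [h, HahnSeries.coeff_single_same, HahnSeries.coeff_single_same]
  · rw [HahnSeries.coeff_single_of_ne h, HahnSeries.coeff_single_of_ne h, map_zero, map_zero]

theorem CSerA_emb_psi : (CSerA_emb k).comp psi = D.up.comp (D.ι.comp (cX k)) := by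
  apply Polynomial.ringHom_ext
  · intro c
    rw [RingHom.comp_apply, RingHom.comp_apply, RingHom.comp_apply]
    have h1 : cX k (Polynomial.C c) = Polynomial.C (algebraMap ℂ (Lau k) c) := by
      unfold cX
      rw [Polynomial.coe_mapRingHom, Polynomial.map_C]
    rw [h1, D.up_C]
    unfold psi
    rw [Polynomial.coe_eval₂RingHom, Polynomial.eval₂_C]
    exact CSerA_emb_single 0 c
  · rw [RingHom.comp_apply, RingHom.comp_apply, RingHom.comp_apply]
    have h1 : cX k (Polynomial.X) = Polynomial.X := by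
      unfold cX
      rw [Polynomial.coe_mapRingHom, Polynomial.map_X]
    rw [h1, D.up_X]
    unfold psi
    rw [Polynomial.coe_eval₂RingHom, Polynomial.eval₂_X, CSerA_emb_single, map_one, map_one]

/-- A Laurent series over the fractions with constant coefficients comes from a complex Laurent series, and
algebraic equations over `ℂ[X]` descend.

Proof. `t₀ := HahnSeries` with the coefficients `c n` (the support is contained in that of `t`, so it is partially well
ordered). The map `LaurentSeries ℂ →+* LS k` given by the coefficientwise `algebraMap ∘ algebraMap`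
(`HahnSeries.map` as a ring homomorphism) is injective, maps `t₀` to `t`, and its composition with `psi` is
`up ∘ ι ∘ cX` (both are ring homomorphisms on `ℂ[X]`, compare on constants and on `X`: `up_C`, `up_X`). So
`Q.eval₂ psi t₀` is mapped to `Q.eval₂ (up ∘ ι ∘ cX) t = 0` (`Polynomial.hom_eval₂`). -/
theorem descend_series (t : LS k)
    (ht : ∀ n, ∃ c : ℂ, t.coeff n = algebraMap (Lau k) (FractionRing (Lau k)) (algebraMap ℂ (Lau k) c))
    (Q : ℂ[X][X]) (hQ : Q.eval₂ (D.up.comp (D.ι.comp (cX k))) t = 0) :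
    ∃ t₀ : LaurentSeries ℂ, (∀ n, t.coeff n =
      algebraMap (Lau k) (FractionRing (Lau k)) (algebraMap ℂ (Lau k) (t₀.coeff n))) ∧
      Q.eval₂ psi t₀ = 0 := by
  choose c hc using ht
  have hinj : Function.Injective
      (fun z : ℂ => algebraMap (Lau k) (FractionRing (Lau k)) (algebraMap ℂ (Lau k) z)) := by
    intro x y hxy
    exact FaithfulSMul.algebraMap_injective ℂ (Lau k)
      (IsFractionRing.injective (Lau k) (FractionRing (Lau k)) hxy)
  have hsub : Function.support c ⊆ t.support := by
    intro n hn h0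
    apply hn
    apply hinj
    show algebraMap (Lau k) (FractionRing (Lau k)) (algebraMap ℂ (Lau k) (c n)) =
      algebraMap (Lau k) (FractionRing (Lau k)) (algebraMap ℂ (Lau k) 0)
    rw [← hc n, map_zero, map_zero]
    exact h0
  let t₀ : LaurentSeries ℂ := ⟨c, t.isPWO_support.mono hsub⟩
  have h1 : CSerA_emb k t₀ = t := by
    ext n
    rw [CSerA_emb_coeff, hc n]
  have hi : Function.Injective (CSerA_emb k) := (CSerA_emb k).injective
  refine ⟨t₀, hc, ?_⟩
  apply hi
  rw [map_zero, Polynomial.hom_eval₂, CSerA_emb_psi D, h1]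
  exact hQ

end Pool.Agent.Wb5ab1bf
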