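import Pool.Agent.W_b5ab1bf_h80.CRs

/-!
# Decomposition of the solutions over the Laurent series (helper80)
-/

set_option autoImplicit false

noncomputable section

open scoped Polynomial
open Pool.Agent.Wb5ab1b

namespace Pool.Agent.Wb5ab1bf

variable {k : ℕ} (B : Bd k) {K : Type} [Field K] (D : KField k K)

theorem CPr_neg (f : ℤ → LS k) : -f = (-1 : LS k) • f := by
  funext n
  show -f n = (-1 : LS k) * f n
  ring

theorem CPr_subP {f g : ℤ → LS k} (hf : DecP f) (hg : DecP g) : DecP (f - g) := by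
  rw [sub_eq_add_neg, CPr_neg]
  exact DecP_add hf (DecP_smul _ hg)

theorem CPr_subM {f g : ℤ → LS k} (hf : DecM f) (hg : DecM g) : DecM (f - g) := by
  rw [sub_eq_add_neg, CPr_neg]
  exact DecM_add hf (DecM_smul _ hg)

/-- the entries over the Laurent series -/
theorem CPr_h (a b : ℤ) : (Bi B D).h a b =
    HahnSeries.C (algebraMap (Lau k) (FractionRing (Lau k)) (B.H a b)) -
      if a = b then HahnSeries.single (-1 : ℤ) (1 : FractionRing (Lau k)) else 0 := by
  show D.up (D.ι (Polynomial.C (B.H a b)) - if a = b then D.ι Polynomial.X else 0) = _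
  rw [map_sub, D.up_C]
  congr 1
  split_ifs
  · exact D.up_X
  · exact map_zero _

/-- a row of a solution -/
theorem CPr_row (v : Vi B D) (a : ℤ) :
    HahnSeries.single (-1 : ℤ) (1 : FractionRing (Lau k)) * (v : ℤ → LS k) a =
      ∑ b ∈ Finset.Icc (a - (B.w : ℤ)) (a + B.w),
        HahnSeries.C (algebraMap (Lau k) (FractionRing (Lau k)) (B.H a b)) * (v : ℤ → LS k) b := by
  have h1 := congrFun ((Bi B D).mem_V.1 v.2) a
  rw [bop_apply, Pi.zero_apply] at h1
  have h2 : ∀ b ∈ Finset.Icc (a - ((Bi B D).w : ℤ)) (a + (Bi B D).w),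
      (Bi B D).h a b * (v : ℤ → LS k) b =
      HahnSeries.C (algebraMap (Lau k) (FractionRing (Lau k)) (B.H a b)) * (v : ℤ → LS k) b -
        if b = a then HahnSeries.single (-1 : ℤ) (1 : FractionRing (Lau k)) * (v : ℤ → LS k) b
          else 0 := by
    intro b _
    rw [CPr_h, sub_mul]
    congr 1
    by_cases h : a = b
    · rw [if_pos h, if_pos h.symm]
    · rw [if_neg h, if_neg (fun h' => h h'.symm), zero_mul]
  rw [Finset.sum_congr rfl h2, Finset.sum_sub_distrib, Finset.sum_ite_eq',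
    if_pos (Finset.mem_Icc.2 ⟨by omega, by omega⟩), sub_eq_zero] at h1
  exact h1.symm

theorem CPr_step (v : Vi B D) (N : ℤ) (h : ∀ a, GE ((v : ℤ → LS k) a) N) (a : ℤ) :
    GE ((v : ℤ → LS k) a) (N + 1) := by
  rw [← GE_single_mul _ (-1) (N + 1), CPr_row, add_neg_cancel_right]
  exact GE_sum _ _ _ fun b _ => GE_C_mul _ (h b)

/-- A solution which decays at both ends is `0`.

Proof. For some `N` all the values have `GE (v n) N` (decay for `|n|` large, `exists_GE` for the finitely many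
others, `GE_mono`). The row `a` says `X * v a = ∑ c, H a c * v c`, so `GE (v a) N` for all `a` implies
`GE (v a) (N + 1)` for all `a` (`GE_C_mul`, `GE_single_mul`). So `GE (v a) N'` for all `N'`. -/
theorem dec_zero (v : Vi B D) (h1 : DecP (v : ℤ → LS k)) (h2 : DecM (v : ℤ → LS k)) : v = 0 := by
  have hex : ∃ N : ℤ, ∀ n, GE ((v : ℤ → LS k) n) N := by
    obtain ⟨n₁, h1⟩ := h1 0
    obtain ⟨n₂, h2⟩ := h2 0
    choose N hN using fun n : ℤ => exists_GE ((v : ℤ → LS k) n)
    obtain ⟨M, hM⟩ := ((Finset.Icc n₂ n₁).image N).bddBelow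
    refine ⟨min M 0, fun n => ?_⟩
    by_cases h3 : n₁ ≤ n
    · exact GE_mono (min_le_right _ _) (h1 n h3)
    · by_cases h4 : n ≤ n₂
      · exact GE_mono (min_le_right _ _) (h2 n h4)
      · refine GE_mono ((min_le_left _ _).trans
          (hM (Finset.mem_coe.2 (Finset.mem_image_of_mem N
            (Finset.mem_Icc.2 ⟨by omega, by omega⟩))))) (hN n)
  obtain ⟨N, hN⟩ := hex
  have hall : ∀ (m : ℕ) (n : ℤ), GE ((v : ℤ → LS k) n) (N + m) := by
    intro m
    induction m with
    | zero => intro n; simpa using hN n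
    | succ m ih =>
      intro n
      have := CPr_step B D v (N + m) ih n
      rwa [add_assoc] at this
  apply Subtype.ext
  funext n
  refine eq_zero_of_GE fun M => ?_
  refine GE_mono ?_ (hall (M - N).toNat n)
  omega

/-- Every solution is the sum of a solution which decays at `+∞` and one which decays at `-∞`.

Proof. Let `v₀ := fun n => if 0 ≤ n then v n else 0` and `φ := bop v₀`; it has finite support in `[-w, w)`
(compare `iv_rec`). `q n := v₀ n - ∑ b ∈ Ico (-w) w, φ b * Rs n b` is mapped to `0` (`Rs_eq`) and decays at `-∞`;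
`p := v - q` is a solution and for `n ≥ 0` it is `∑ b, φ b * Rs n b`, which decays at `+∞`. -/
theorem dec_sum (v : Vi B D) : ∃ p q : Vi B D, v = p + q ∧ DecP (p : ℤ → LS k) ∧
    DecM (q : ℤ → LS k) := by
  set v₀ : ℤ → LS k := fun n => if 0 ≤ n then (v : ℤ → LS k) n else 0 with hv₀
  set φ : ℤ → LS k := bop (Bi B D).w (Bi B D).h v₀ with hφ
  have hw : ((Bi B D).w : ℤ) = B.w := rfl
  have hφ0 : ∀ a, a ∉ Finset.Ico (-(B.w : ℤ)) B.w → φ a = 0 := by
    intro a ha
    rw [Finset.mem_Ico, not_and_or, not_le, not_lt] at ha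
    rcases ha with ha | ha
    · rw [hφ, bop_apply]
      refine Finset.sum_eq_zero fun b hb => ?_
      have hb' := Finset.mem_Icc.1 hb
      rw [hv₀]
      simp only []
      rw [if_neg (by omega), mul_zero]
    · have h1 := congrFun ((Bi B D).mem_V.1 v.2) a
      rw [bop_apply, Pi.zero_apply] at h1
      rw [hφ, bop_apply, ← h1]
      refine Finset.sum_congr rfl fun b hb => ?_
      have hb' := Finset.mem_Icc.1 hb
      rw [hv₀]
      simp only []
      rw [if_pos (by omega)]
  have hφs : φ = ∑ b ∈ Finset.Ico (-(B.w : ℤ)) B.w, φ b • (Pi.single b 1 : ℤ → LS k) := by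
    funext a
    rw [Finset.sum_apply]
    simp only [Pi.smul_apply, Pi.single_apply, smul_eq_mul, mul_ite, mul_one, mul_zero]
    rw [Finset.sum_ite_eq]
    split_ifs with h
    · rfl
    · exact hφ0 a h
  set R : ℤ → LS k := ∑ b ∈ Finset.Ico (-(B.w : ℤ)) B.w, φ b • (fun c => Rs B c b) with hR
  have hRb : bop (Bi B D).w (Bi B D).h R = φ := by
    rw [hR, map_sum]
    conv_rhs => rw [hφs]
    refine Finset.sum_congr rfl fun b _ => ?_
    rw [map_smul, Rs_eq]
  have hRP : DecP R := by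
    rw [hR]
    refine Finset.sum_induction _ (fun f : ℤ → LS k => DecP f) (fun a b ha hb => DecP_add ha hb)
      (DecP_zero _ 0 fun n _ => rfl) fun b _ => DecP_smul _ (Rs_DecP B b)
  have hRM : DecM R := by
    rw [hR]
    refine Finset.sum_induction _ (fun f : ℤ → LS k => DecM f) (fun a b ha hb => DecM_add ha hb)
      (DecM_zero _ 0 fun n _ => rfl) fun b _ => DecM_smul _ (Rs_DecM B b)
  have hq : v₀ - R ∈ (Bi B D).V := by
    rw [(Bi B D).mem_V, map_sub, hRb, ← hφ, sub_self]
  refine ⟨v - ⟨v₀ - R, hq⟩, ⟨v₀ - R, hq⟩, ?_, ?_, ?_⟩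
  · apply Subtype.ext
    show (v : ℤ → LS k) = ((v : ℤ → LS k) - (v₀ - R)) + (v₀ - R)
    rw [sub_add_cancel]
  · have h1 : (((v - ⟨v₀ - R, hq⟩ : Vi B D)) : ℤ → LS k) = ((v : ℤ → LS k) - v₀) + R := by
      show (v : ℤ → LS k) - (v₀ - R) = _
      abel
    rw [h1]
    refine DecP_add (DecP_zero _ 0 fun n hn => ?_) hRP
    show (v : ℤ → LS k) n - v₀ n = 0
    rw [hv₀]
    simp only []
    rw [if_pos hn, sub_self]
  · have h1 : (((⟨v₀ - R, hq⟩ : Vi B D)) : ℤ → LS k) = v₀ + (-1 : LS k) • R := by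
      show v₀ - R = _
      rw [sub_eq_add_neg, CPr_neg]
    rw [h1]
    refine DecM_add (DecM_zero _ (-1) fun n hn => ?_) (DecM_smul _ hRM)
    rw [hv₀]
    simp only []
    rw [if_neg (by omega)]

/-- The projection onto the solutions which decay at `+∞` (`Submodule.linearProjOfIsCompl` or directly from
`dec_zero`, `dec_sum`). -/
theorem exists_proj : ∃ π : Module.End (LS k) (Vi B D),
    (∀ v, DecP (k := k) (π v : Vi B D)) ∧ (∀ v, DecM (k := k) ((v - π v : Vi B D) : ℤ → LS k)) ∧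
    ∀ p q : Vi B D, DecP (p : ℤ → LS k) → DecM (q : ℤ → LS k) → π (p + q) = p := by
  choose P Q hPQ hP hQ using dec_sum B D
  have huniq : ∀ v p q : Vi B D, v = p + q → DecP (p : ℤ → LS k) → DecM (q : ℤ → LS k) →
      P v = p := by
    intro v p q h hp hq
    have h0 : P v + Q v = p + q := by rw [← hPQ v, h]
    have h1 : ((P v - p : Vi B D) : ℤ → LS k) = (P v : ℤ → LS k) - p := rfl
    have h2 : ((P v - p : Vi B D) : ℤ → LS k) = (q : ℤ → LS k) - Q v := by
      funext n
      have h3 : (P v : ℤ → LS k) n + (Q v : ℤ → LS k) n = (p : ℤ → LS k) n + (q : ℤ → LS k) n :=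
        congrFun (congrArg Subtype.val h0) n
      show (P v : ℤ → LS k) n - (p : ℤ → LS k) n = (q : ℤ → LS k) n - (Q v : ℤ → LS k) n
      linear_combination h3
    have h4 : P v - p = 0 := by
      refine dec_zero B D _ ?_ ?_
      · rw [h1]
        exact CPr_subP (hP v) hp
      · rw [h2]
        exact CPr_subM hq (hQ v)
    exact sub_eq_zero.1 h4
  refine ⟨{ toFun := P, map_add' := fun v v' => ?_, map_smul' := fun c v => ?_ },
    hP, fun v => ?_, fun p q hp hq => huniq _ p q rfl hp hq⟩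
  · refine huniq _ _ (Q v + Q v') ?_ (DecP_add (hP v) (hP v')) (DecM_add (hQ v) (hQ v'))
    nth_rewrite 1 [hPQ v, hPQ v']
    abel
  · refine huniq _ _ (c • Q v) ?_ (DecP_smul c (hP v)) (DecM_smul c (hQ v))
    nth_rewrite 1 [hPQ v]
    rw [smul_add]
    rfl
  · have h1 : ((v - P v : Vi B D) : ℤ → LS k) = (Q v : ℤ → LS k) := by
      funext n
      have h3 : (v : ℤ → LS k) n = (P v : ℤ → LS k) n + (Q v : ℤ → LS k) n :=
        congrFun (congrArg Subtype.val (hPQ v)) n
      show (v : ℤ → LS k) n - (P v : ℤ → LS k) n = (Q v : ℤ → LS k) n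
      linear_combination h3
    show DecM ((v - P v : Vi B D) : ℤ → LS k)
    rw [h1]
    exact hQ v

/-- The projection of `iv b`.

Proof. `p := Rs · b - up (Gm b ·)` is a solution (both are mapped to `δ_b`: `Rs_eq`, `Gm_eq` and `up`), it decays at
`+∞` (`Rs_DecP`, `Gm b c = 0` for large `c`); `jv (iv b) - p = up (Gp b ·) - Rs · b` decays at `-∞`. -/
theorem proj_iv (π : Module.End (LS k) (Vi B D))
    (hπ : ∀ p q : Vi B D, DecP (p : ℤ → LS k) → DecM (q : ℤ → LS k) → π (p + q) = p) (b c : ℤ) :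
    ((π (jv B D ((B.bm D).iv b)) : Vi B D) : ℤ → LS k) c = Rs B c b - D.up ((B.bm D).Gm b c) := by
  have hup : ∀ u : ℤ → K, bop (Bi B D).w (Bi B D).h (fun n => D.up (u n)) =
      fun a => D.up (bop (B.bm D).w (B.bm D).h u a) := by
    intro u
    funext a
    show ∑ b ∈ Finset.Icc (a - ((B.bm D).w : ℤ)) (a + (B.bm D).w),
        D.up ((B.bm D).h a b) * D.up (u b) =
      D.up (∑ b ∈ Finset.Icc (a - ((B.bm D).w : ℤ)) (a + (B.bm D).w), (B.bm D).h a b * u b)
    rw [map_sum]
    exact Finset.sum_congr rfl fun b _ => (map_mul _ _ _).symm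
  have hsg : (fun a : ℤ => D.up ((Pi.single b 1 : ℤ → K) a)) = Pi.single b 1 := by
    funext a
    rw [Pi.single_apply, Pi.single_apply]
    split_ifs
    · exact map_one _
    · exact map_zero _
  have hm : bop (Bi B D).w (Bi B D).h (fun n => D.up ((B.bm D).Gm b n)) = Pi.single b 1 := by
    rw [hup, (B.bm D).Gm_eq, hsg]
  have hp : bop (Bi B D).w (Bi B D).h (fun n => D.up ((B.bm D).Gp b n)) = Pi.single b 1 := by
    rw [hup, (B.bm D).Gp_eq, hsg]
  have h1 : (fun c => Rs B c b) - (fun n => D.up ((B.bm D).Gm b n)) ∈ (Bi B D).V := by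
    rw [(Bi B D).mem_V, map_sub, Rs_eq, hm, sub_self]
  have h2 : (fun n => D.up ((B.bm D).Gp b n)) - (fun c => Rs B c b) ∈ (Bi B D).V := by
    rw [(Bi B D).mem_V, map_sub, Rs_eq, hp, sub_self]
  have h3 : jv B D ((B.bm D).iv b) = (⟨_, h1⟩ : Vi B D) + ⟨_, h2⟩ := by
    apply Subtype.ext
    funext n
    show D.up ((B.bm D).Gp b n - (B.bm D).Gm b n) =
      (Rs B n b - D.up ((B.bm D).Gm b n)) + (D.up ((B.bm D).Gp b n) - Rs B n b)
    rw [map_sub]
    ring
  rw [h3, hπ]
  · rfl
  · have h4 : (((⟨_, h1⟩ : Vi B D)) : ℤ → LS k) =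
        (fun c => Rs B c b) + (-1 : LS k) • (fun n => D.up ((B.bm D).Gm b n)) := by
      funext n
      show Rs B n b - D.up ((B.bm D).Gm b n) = Rs B n b + (-1 : LS k) * D.up ((B.bm D).Gm b n)
      ring
    rw [h4]
    refine DecP_add (Rs_DecP B b) (DecP_smul _ (DecP_zero _ b fun n hn => ?_))
    have hw := (B.bm D).w_pos
    rw [(B.bm D).Gm_right b n (by omega), map_zero]
  · have h4 : (((⟨_, h2⟩ : Vi B D)) : ℤ → LS k) =
        (fun n => D.up ((B.bm D).Gp b n)) + (-1 : LS k) • (fun c => Rs B c b) := by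
      funext n
      show D.up ((B.bm D).Gp b n) - Rs B n b = D.up ((B.bm D).Gp b n) + (-1 : LS k) * Rs B n b
      ring
    rw [h4]
    refine DecM_add (DecM_zero _ b fun n hn => ?_) (DecM_smul _ (Rs_DecM B b))
    have hw := (B.bm D).w_pos
    rw [(B.bm D).Gp_left b n (by omega), map_zero]

end Pool.Agent.Wb5ab1bf
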