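import Pool.Agent.W_b5ab1bf_h80.CFn
import Pool.Agent.W_b5ab1bf_h80.CPr

/-!
# The trace has constant coefficients (helper80)
-/

set_option autoImplicit false

noncomputable section

open scoped Polynomial
open Pool.Agent.Wb5ab1b

namespace Pool.Agent.Wb5ab1bf

variable {k : ℕ} (B : Bd k) {K : Type} [Field K] (D : KField k K)

theorem CTrB_sgi_smul (f : LS k) (v : Vi B D) : sgi B D (f • v) = D.thL f • sgi B D v :=
  (Bi B D).sig_smul D.thL (hθi B D) f v

theorem CTrB_itr_smul (m : ℕ) (f : LS k) (v : Vi B D) :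
    itr (sgi B D) m (f • v) = (D.thL ^ m) f • itr (sgi B D) m v := by
  induction m with
  | zero =>
    rw [Nat.cast_zero, itr_zero, itr_zero, pow_zero]
    rfl
  | succ m ih =>
    rw [Nat.cast_succ, itr_succ, itr_succ, ih, CTrB_sgi_smul, pow_succ']
    rfl

theorem CTrB_sig (S : Sys D.toDField (VV B D)) (hS : IsShift B D S) (v : VV B D) :
    sgV B D v = S.σ v := by
  apply Subtype.ext
  funext n
  rw [hS.shift]
  rfl

theorem CTrB_itr_jv (S : Sys D.toDField (VV B D)) (hS : IsShift B D S) (m : ℕ) (v : VV B D) :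
    itr (sgi B D) m (jv B D v) = jv B D (itr S.σ m v) := by
  induction m with
  | zero => rw [Nat.cast_zero, itr_zero, itr_zero]
  | succ m ih => rw [Nat.cast_succ, itr_succ, itr_succ, ih, sgi_jv, CTrB_sig B D S hS]

theorem CTrB_cj (S : Sys D.toDField (VV B D)) (x : Module.End K (VV B D)) (m : ℕ) (v : VV B D) :
    ((S.cj ^ m) x) (itr S.σ m v) = itr S.σ m (x v) := by
  induction m with
  | zero =>
    rw [Nat.cast_zero, itr_zero, itr_zero, pow_zero]
    rfl
  | succ m ih =>
    rw [Nat.cast_succ, itr_succ, itr_succ, pow_succ']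
    show S.σ (((S.cj ^ m) x) (S.σ.symm (S.σ (itr S.σ m v)))) = S.σ (itr S.σ m (x v))
    rw [S.σ.symm_apply_apply, ih]

theorem CTrB_DecP (m : ℕ) (v : Vi B D) (h : DecP (v : ℤ → LS k)) :
    DecP ((itr (sgi B D) m v : Vi B D) : ℤ → LS k) := by
  induction m with
  | zero =>
    rw [Nat.cast_zero, itr_zero]
    exact h
  | succ m ih =>
    rw [Nat.cast_succ, itr_succ]
    intro N
    obtain ⟨n₀, hn⟩ := ih N
    refine ⟨n₀ + 1, fun n h1 => ?_⟩
    rw [sgi_apply, GE_thL]
    exact hn (n - 1) (by omega)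

theorem CTrB_DecM (m : ℕ) (v : Vi B D) (h : DecM (v : ℤ → LS k)) :
    DecM ((itr (sgi B D) m v : Vi B D) : ℤ → LS k) := by
  induction m with
  | zero =>
    rw [Nat.cast_zero, itr_zero]
    exact h
  | succ m ih =>
    rw [Nat.cast_succ, itr_succ]
    intro N
    obtain ⟨n₀, hn⟩ := ih N
    refine ⟨n₀, fun n h1 => ?_⟩
    rw [sgi_apply, GE_thL]
    exact hn (n - 1) (by omega)

theorem CTrB_coeff (m : ℕ) (f : LS k) (n : ℤ) :
    ((D.thL ^ m) f).coeff n = (D.th ^ m) (f.coeff n) := by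
  induction m with
  | zero =>
    rw [pow_zero, pow_zero]
    rfl
  | succ m ih =>
    rw [pow_succ', pow_succ']
    show (D.thL ((D.thL ^ m) f)).coeff n = D.th ((D.th ^ m) (f.coeff n))
    rw [D.thL_coeff, ih]

/-- The trace on the decaying solutions is fixed by a power of the shift, so its coefficients are constants.

Proof. `(S.cj ^ m) x = x`, `m > 0`. Let `σ' := sgi` iterated `m` times, semilinear over `thL ^ m`. `σ' ∘ Φ x = Φ x ∘ σ'`: both
sides are semilinear, and on the image of `jv` it is `S.σ^m (x v) = x (S.σ^m v)` (`sgi_jv`, `jv_ext'`). `σ'` maps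
decaying solutions to decaying ones at both ends (`GE_thL`), so it commutes with `π`. `trace_semi`:
`(thL ^ m) t = t`. Coefficientwise (`thL_coeff`) `(th ^ m) (t.coeff n) = t.coeff n`; `D.th_fix`. -/
theorem trace_const (S : Sys D.toDField (VV B D)) (hS : IsShift B D S)
    (Φ : Module.End K (VV B D) →+* Module.End (LS k) (Vi B D))
    (hΦ : ∀ x v, Φ x (jv B D v) = jv B D (x v)) (π : Module.End (LS k) (Vi B D))
    (hπ0 : ∀ v, DecP (k := k) (π v : Vi B D))
    (hπ1 : ∀ v, DecM (k := k) ((v - π v : Vi B D) : ℤ → LS k))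
    (hπ : ∀ p q : Vi B D, DecP (p : ℤ → LS k) → DecM (q : ℤ → LS k) → π (p + q) = p)
    (x : Module.End K (VV B D)) (hx : x ∈ S.fn) (n : ℤ) :
    ∃ c : ℂ, (LinearMap.trace (LS k) (Vi B D) (Φ x * π)).coeff n =
      algebraMap (Lau k) (FractionRing (Lau k)) (algebraMap ℂ (Lau k) c) := by
  obtain ⟨m, hm, hcj⟩ := hx
  have h1 : ∀ v : Vi B D, itr (sgi B D) m (Φ x v) = Φ x (itr (sgi B D) m v) := by
    let F : Vi B D →+ Vi B D := AddMonoidHom.mk' (fun v => itr (sgi B D) m (Φ x v))
      (fun v w => by rw [map_add, map_add])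
    let G : Vi B D →+ Vi B D := AddMonoidHom.mk' (fun v => Φ x (itr (sgi B D) m v))
      (fun v w => by rw [map_add, map_add])
    have h2 : F = G := by
      refine jv_ext' B D ((D.thL ^ m : RingAut (LS k)) : LS k ≃+* LS k).toRingHom _ _ ?_ ?_ ?_
      · intro a v
        show itr (sgi B D) m (Φ x (a • v)) = (D.thL ^ m) a • itr (sgi B D) m (Φ x v)
        rw [map_smul, CTrB_itr_smul]
      · intro a v
        show Φ x (itr (sgi B D) m (a • v)) = (D.thL ^ m) a • Φ x (itr (sgi B D) m v)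
        rw [CTrB_itr_smul, map_smul]
      · intro v
        show itr (sgi B D) m (Φ x (jv B D v)) = Φ x (itr (sgi B D) m (jv B D v))
        rw [hΦ, CTrB_itr_jv B D S hS, CTrB_itr_jv B D S hS, hΦ, ← CTrB_cj B D S x m v, hcj]
    exact fun v => DFunLike.congr_fun h2 v
  have h3 : ∀ v : Vi B D, π (itr (sgi B D) m v) = itr (sgi B D) m (π v) := by
    intro v
    have h4 : itr (sgi B D) m v = itr (sgi B D) m (π v) + itr (sgi B D) m (v - π v) := by
      have h6 : π v + (v - π v) = v := by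
        apply Subtype.ext
        show ((π v : Vi B D) : ℤ → LS k) + ((v : ℤ → LS k) - ((π v : Vi B D) : ℤ → LS k)) = v
        exact add_sub_cancel _ _
      have h8 : itr (sgi B D) m (π v + (v - π v)) =
          itr (sgi B D) m (π v) + itr (sgi B D) m (v - π v) :=
        (itr (sgi B D) (m : ℤ)).map_add' (π v) (v - π v)
      rw [h6] at h8
      exact h8
    rw [h4]
    exact hπ _ _ (CTrB_DecP B D m _ (hπ0 v)) (CTrB_DecM B D m _ (hπ1 v))
  have h7 : ∀ v : Vi B D, (Φ x * π) (itr (sgi B D) m v) =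
      itr (sgi B D) m ((Φ x * π) v) := by
    intro v
    show Φ x (π (itr (sgi B D) m v)) = itr (sgi B D) m (Φ x (π v))
    rw [h3, h1]
  have h5 := trace_semi (K := LS k) (V := Vi B D) (D.thL ^ m : RingAut (LS k))
    (itr (sgi B D) m) (CTrB_itr_smul B D m) (Φ x * π) (Φ x * π) h7
  refine D.th_fix m _ hm ?_
  rw [← CTrB_coeff, ← h5]

end Pool.Agent.Wb5ab1bf
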