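import Pool.Agent.W_b5ab1bf_h80.CPhi
import Pool.Agent.W_b5ab1bf_h80.CPr

/-!
# The trace of a combination of rank one endomorphisms (helper80)
-/

set_option autoImplicit false

noncomputable section

open scoped Polynomial
open Pool.Agent.Wb5ab1b

namespace Pool.Agent.Wb5ab1bf

variable {k : ℕ} (B : Bd k) {K : Type} [Field K] (D : KField k K)

/-- The trace of a rank one endomorphism, general field. -/
theorem CTrC_gen {K' : Type} [Field K'] (B' : BM K') (c : ℤ) (x : Module.End K' B'.V) (u : B'.V) :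
    LinearMap.trace K' B'.V (((B'.ev c) ∘ₗ x).smulRight u) = B'.ev c (x u) := by
  rw [LinearMap.trace_smulRight]
  rfl

/-- The image of a rank one endomorphism. -/
theorem CTrC_Eb (Φ : Module.End K (VV B D) →+* Module.End (LS k) (Vi B D))
    (hΦ : ∀ x v, Φ x (jv B D v) = jv B D (x v)) (b c : ℤ) :
    Φ ((B.bm D).Eb b c) = ((Bi B D).ev c).smulRight (jv B D ((B.bm D).iv b)) := by
  refine jv_ext (W := Vi B D) B D (Φ ((B.bm D).Eb b c))
    (((Bi B D).ev c).smulRight (jv B D ((B.bm D).iv b))) fun v => ?_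
  rw [hΦ, BM.Eb_apply, jv_smul, LinearMap.smulRight_apply, BM.ev_apply, jv_apply]

/-- The trace for one rank one endomorphism. -/
theorem CTrC_one (Φ : Module.End K (VV B D) →+* Module.End (LS k) (Vi B D))
    (hΦ : ∀ x v, Φ x (jv B D v) = jv B D (x v)) (π : Module.End (LS k) (Vi B D))
    (hπ : ∀ p q : Vi B D, DecP (p : ℤ → LS k) → DecM (q : ℤ → LS k) → π (p + q) = p) (b c : ℤ) :
    LinearMap.trace (LS k) (Vi B D) (Φ ((B.bm D).Eb b c) * π) =
      Rs B c b - D.up ((B.bm D).Gm b c) := by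
  have h1 : Φ ((B.bm D).Eb b c) * π =
      (((Bi B D).ev c) ∘ₗ π).smulRight (jv B D ((B.bm D).iv b)) := by
    rw [CTrC_Eb B D Φ hΦ]
    refine LinearMap.ext fun v => ?_
    rfl
  rw [h1]
  refine (CTrC_gen (Bi B D) c π (jv B D ((B.bm D).iv b))).trans ?_
  rw [BM.ev_apply, proj_iv B D π hπ]

/-- The trace of `Φ (eI F) * π`.

Proof. By additivity (induction on `F`) it is enough to treat `F = single (b, c) G`: `eI_single`,
`Φ (ι G • Eb b c) = up (ι G) • Φ (Eb b c)`, and `Φ (Eb b c) v = v c • jv (iv b)` (`jv_ext`), so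
`(Φ (Eb b c) * π) v = (π v) c • jv (iv b)` has the trace `(π (jv (iv b))) c` (compare `trace_Eb`), which is
`Rs B c b - up (Gm b c)` (`proj_iv`). -/
theorem trace_eI (Φ : Module.End K (VV B D) →+* Module.End (LS k) (Vi B D))
    (hΦ : ∀ x v, Φ x (jv B D v) = jv B D (x v))
    (hΦ' : ∀ (f : K) x, Φ (f • x) = D.up f • Φ x) (π : Module.End (LS k) (Vi B D))
    (hπ : ∀ p q : Vi B D, DecP (p : ℤ → LS k) → DecM (q : ℤ → LS k) → π (p + q) = p)
    (F : (ℤ × ℤ) →₀ (Lau k)[X]) :
    LinearMap.trace (LS k) (Vi B D) (Φ (eI B D F) * π) =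
      F.sum fun p G => D.up (D.ι G) * (Rs B p.2 p.1 - D.up ((B.bm D).Gm p.1 p.2)) := by
  induction F using Finsupp.induction_linear with
  | zero => rw [eI_zero', map_zero, zero_mul, map_zero, Finsupp.sum_zero_index]
  | add F G hF hG =>
    rw [eI_add, map_add, add_mul, map_add, hF, hG, Finsupp.sum_add_index']
    · intro p
      rw [map_zero, map_zero, zero_mul]
    · intro p a b
      rw [map_add, map_add, add_mul]
  | single p G =>
    rw [eI_single, hΦ', smul_mul_assoc, map_smul, CTrC_one B D Φ hΦ π hπ, smul_eq_mul,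
      Finsupp.sum_single_index]
    rw [map_zero, map_zero, zero_mul]

end Pool.Agent.Wb5ab1bf
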