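import Pool.Agent.W_b5ab1bf_h80.CTrA
import Pool.Agent.W_b5ab1bf_h80.CTrB
import Pool.Agent.W_b5ab1bf_h80.CTrC
import Pool.Agent.W_b5ab1bf_h80.CSerA

/-!
# The functional of an endomorphism with finite orbit (helper80)
-/

set_option autoImplicit false

noncomputable section

open scoped Polynomial
open Pool.Agent.Wb5ab1b

namespace Pool.Agent.Wb5ab1bf

variable {k : ℕ} (B : Bd k) {K : Type} [Field K] (D : KField k K)

/-- **The functional of an endomorphism with finite orbit.**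

Proof. `exists_Phi`, `exists_proj`, `t := trace (Φ x * π)`. `trace_const`, `trace_alg`, `descend_series` give `t₀`.
`up (ι κ) * t = trace (Φ (ι κ • x) * π) = trace (Φ (eI F) * π)`; compare the coefficients at `n + 1`
(`up_ι_mul_coeff`, `trace_eI`, `sum_coeff`) and use that `algebraMap (Lau k) (FractionRing (Lau k))` is injective. -/
theorem fn_series (S : Sys D.toDField (VV B D)) (hS : IsShift B D S)
    (x : Module.End K (VV B D)) (hx : x ∈ S.fn) (κ : (Lau k)[X]) (F : (ℤ × ℤ) →₀ (Lau k)[X])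
    (h : D.ι κ • x = eI B D F) :
    ∃ t : LaurentSeries ℂ, (∃ Q : ℂ[X][X], Q ≠ 0 ∧ Q.eval₂ psi t = 0) ∧
      ∀ n : ℕ, (eP B F).app (Polynomial.X ^ n) = -∑ i ∈ Finset.range (κ.natDegree + 1),
        κ.coeff i * algebraMap ℂ (Lau k) (t.coeff ((n : ℤ) + 1 + i)) := by
  obtain ⟨Φ, hΦ, hΦ', -⟩ := exists_Phi B D
  obtain ⟨π, hπ0, hπ1, hπ⟩ := exists_proj B D
  have ht := trace_const B D S hS Φ hΦ π hπ0 hπ1 hπ x hx
  obtain ⟨Q, hQ0, hQ⟩ := trace_alg B D S hS Φ hΦ hΦ' π hπ0 hπ1 hπ x hx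
  obtain ⟨t₀, ht₀, hQt⟩ := descend_series D _ ht Q hQ
  refine ⟨t₀, ⟨Q, hQ0, hQt⟩, fun n => ?_⟩
  have h1 : D.up (D.ι κ) * LinearMap.trace (LS k) (Vi B D) (Φ x * π) =
      F.sum fun p G => D.up (D.ι G) * (Rs B p.2 p.1 - D.up ((B.bm D).Gm p.1 p.2)) := by
    rw [← trace_eI B D Φ hΦ hΦ' π hπ F, ← h, hΦ', smul_mul_assoc, map_smul, smul_eq_mul]
  have h2 := sum_coeff B D F n
  rw [← h1, up_ι_mul_coeff] at h2
  apply IsFractionRing.injective (Lau k) (FractionRing (Lau k))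
  rw [map_neg, map_sum, ← neg_eq_iff_eq_neg, ← h2]
  refine Finset.sum_congr rfl fun i _ => ?_
  rw [ht₀, map_mul]

end Pool.Agent.Wb5ab1bf
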