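import Pool.Agent.W_b5ab1bf_h80.LDefs

/-!
# Evaluation of an algebraic equation for a convergent series (helper80)
-/

set_option autoImplicit false

noncomputable section

open scoped Polynomial
open Pool.Agent.Wb5ab1b

namespace Pool.Agent.Wb5ab1bf

theorem LSer_psi_monomial (n : ℕ) (c : ℂ) :
    psi (Polynomial.monomial n c) = HahnSeries.single (-(n : ℤ)) c := by
  unfold psi
  rw [Polynomial.coe_eval₂RingHom, Polynomial.eval₂_monomial, HahnSeries.single_pow,
    HahnSeries.C_apply, HahnSeries.single_mul_single, zero_add, one_pow, mul_one]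
  congr 1
  simp

theorem LSer_psi_coeff (p : ℂ[X]) (n : ℕ) : (psi p).coeff (-(n : ℤ)) = p.coeff n := by
  induction p using Polynomial.induction_on' with
  | add p q hp hq => rw [map_add, HahnSeries.coeff_add, hp, hq, Polynomial.coeff_add]
  | monomial m c =>
    rw [LSer_psi_monomial, HahnSeries.coeff_single, Polynomial.coeff_monomial]
    by_cases h : m = n
    · subst h; simp
    · rw [if_neg h, if_neg]
      intro h'
      apply h
      have : (n : ℤ) = m := by simpa using h'
      exact_mod_cast this.symm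

theorem LSer_psi_eq (p : ℂ[X]) : psi p = ∑ n ∈ Finset.range (p.natDegree + 1),
    HahnSeries.single (-(n : ℤ)) (p.coeff n) := by
  conv_lhs => rw [p.as_sum_range' (p.natDegree + 1) (Nat.lt_succ_self _)]
  rw [map_sum]
  exact Finset.sum_congr rfl fun n _ => LSer_psi_monomial n _

/-- `psi` is injective: the coefficient of `psi p` at `-n` is `p.coeff n`. -/
theorem psi_injective : Function.Injective psi := by
  intro p q h
  ext n
  rw [← LSer_psi_coeff p n, ← LSer_psi_coeff q n, h]

theorem LSer_coeff_mul (u : ℂ) (f g : PowerSeries ℂ) (n : ℕ) :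
    PowerSeries.coeff n (f * g) * u ^ n = ∑ kl ∈ Finset.HasAntidiagonal.antidiagonal n,
      (PowerSeries.coeff kl.1 f * u ^ kl.1) * (PowerSeries.coeff kl.2 g * u ^ kl.2) := by
  rw [PowerSeries.coeff_mul, Finset.sum_mul]
  apply Finset.sum_congr rfl
  intro kl hkl
  rw [← Finset.HasAntidiagonal.mem_antidiagonal.1 hkl, pow_add]
  ring

theorem LSer_hasSum_monomial (u c : ℂ) (k : ℕ) :
    HasSum (fun n => PowerSeries.coeff n (PowerSeries.monomial k c) * u ^ n) (c * u ^ k) := by
  have h := hasSum_single (f := fun n => PowerSeries.coeff n (PowerSeries.monomial k c) * u ^ n) k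
    (by
      intro n hn
      rw [PowerSeries.coeff_monomial, if_neg hn, zero_mul])
  rwa [PowerSeries.coeff_monomial, if_pos rfl] at h

theorem LSer_summable_monomial (u c : ℂ) (k : ℕ) :
    Summable (fun n => ‖PowerSeries.coeff n (PowerSeries.monomial k c) * u ^ n‖) := by
  have h := hasSum_single
    (f := fun n => ‖PowerSeries.coeff n (PowerSeries.monomial k c) * u ^ n‖) k
    (by
      intro n hn
      rw [PowerSeries.coeff_monomial, if_neg hn, zero_mul, norm_zero])
  exact h.summable

/-- The power series that converge absolutely at `u`. -/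
def LSer_A (u : ℂ) : Subring (PowerSeries ℂ) where
  carrier := {f | Summable (fun n => ‖PowerSeries.coeff n f * u ^ n‖)}
  mul_mem' := by
    intro f g hf hg
    have h := summable_norm_sum_mul_antidiagonal_of_summable_norm
      (show Summable (fun n => ‖PowerSeries.coeff n f * u ^ n‖) from hf)
      (show Summable (fun n => ‖PowerSeries.coeff n g * u ^ n‖) from hg)
    show Summable (fun n => ‖PowerSeries.coeff n (f * g) * u ^ n‖)
    refine Summable.congr h fun n => ?_
    rw [LSer_coeff_mul]
  one_mem' := by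
    have h := LSer_summable_monomial u 1 0
    rw [PowerSeries.monomial_zero_eq_C_apply, map_one] at h
    exact h
  add_mem' := by
    intro f g hf hg
    have h := Summable.add (show Summable (fun n => ‖PowerSeries.coeff n f * u ^ n‖) from hf)
      (show Summable (fun n => ‖PowerSeries.coeff n g * u ^ n‖) from hg)
    show Summable (fun n => ‖PowerSeries.coeff n (f + g) * u ^ n‖)
    refine Summable.of_nonneg_of_le (fun n => norm_nonneg _) (fun n => ?_) h
    rw [map_add, add_mul]
    exact norm_add_le _ _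
  zero_mem' := by
    show Summable (fun n => ‖PowerSeries.coeff n (0 : PowerSeries ℂ) * u ^ n‖)
    simp only [map_zero, zero_mul, norm_zero]
    exact summable_zero
  neg_mem' := by
    intro f hf
    show Summable (fun n => ‖PowerSeries.coeff n (-f) * u ^ n‖)
    refine Summable.congr (show Summable (fun n => ‖PowerSeries.coeff n f * u ^ n‖) from hf)
      fun n => ?_
    rw [map_neg, neg_mul, norm_neg]

/-- Absolutely convergent evaluation of power series is a ring homomorphism: the power series `f` with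
`Summable (fun n => ‖coeff n f * u ^ n‖)` form a subring, and `f ↦ ∑' n, coeff n f * u ^ n` is multiplicative
on it (`PowerSeries.coeff_mul`, Cauchy product
`tsum_mul_tsum_eq_tsum_sum_antidiagonal_of_summable_norm`). -/
theorem exists_evps (u : ℂ) : ∃ (A : Subring (PowerSeries ℂ)) (e : A →+* ℂ),
    (∀ f : PowerSeries ℂ, f ∈ A ↔ Summable (fun n => ‖PowerSeries.coeff n f * u ^ n‖)) ∧
    ∀ f : A, e f = ∑' n, PowerSeries.coeff n (f : PowerSeries ℂ) * u ^ n := by
  refine ⟨LSer_A u,
    { toFun := fun f => ∑' n, PowerSeries.coeff n (f : PowerSeries ℂ) * u ^ n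
      map_one' := ?_
      map_mul' := ?_
      map_zero' := ?_
      map_add' := ?_ }, fun f => Iff.rfl, fun f => rfl⟩
  · have h := (LSer_hasSum_monomial u 1 0).tsum_eq
    rw [pow_zero, mul_one, PowerSeries.monomial_zero_eq_C_apply, map_one] at h
    exact h
  · intro f g
    have hf : Summable (fun n => ‖PowerSeries.coeff n (f : PowerSeries ℂ) * u ^ n‖) := f.2
    have hg : Summable (fun n => ‖PowerSeries.coeff n (g : PowerSeries ℂ) * u ^ n‖) := g.2
    have h := tsum_mul_tsum_eq_tsum_sum_antidiagonal_of_summable_norm hf hg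
    rw [h]
    apply tsum_congr
    intro n
    exact LSer_coeff_mul u _ _ n
  · simp
  · intro f g
    have hf : Summable (fun n => ‖PowerSeries.coeff n (f : PowerSeries ℂ) * u ^ n‖) := f.2
    have hg : Summable (fun n => ‖PowerSeries.coeff n (g : PowerSeries ℂ) * u ^ n‖) := g.2
    rw [← hf.of_norm.tsum_add hg.of_norm]
    apply tsum_congr
    intro n
    show PowerSeries.coeff n ((f : PowerSeries ℂ) + (g : PowerSeries ℂ)) * u ^ n = _
    rw [map_add, add_mul]

theorem LSer_ofPS_monomial (k : ℕ) (c : ℂ) :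
    HahnSeries.ofPowerSeries ℤ ℂ (PowerSeries.monomial k c) = HahnSeries.single (k : ℤ) c := by
  have h1 : PowerSeries.monomial k c = PowerSeries.C c * PowerSeries.X ^ k := by
    ext n
    rw [PowerSeries.coeff_monomial, PowerSeries.coeff_C_mul, PowerSeries.coeff_X_pow]
    split_ifs <;> simp
  rw [h1, map_mul, HahnSeries.ofPowerSeries_C, HahnSeries.ofPowerSeries_X_pow,
    HahnSeries.C_apply, HahnSeries.single_mul_single, zero_add, mul_one]

theorem LSer_lift (d : ℕ) (p : ℂ[X]) (hd : p.natDegree ≤ d) :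
    HahnSeries.ofPowerSeries ℤ ℂ (∑ n ∈ Finset.range (p.natDegree + 1),
      PowerSeries.monomial (d - n) (p.coeff n)) = HahnSeries.single (d : ℤ) (1 : ℂ) * psi p := by
  rw [LSer_psi_eq, map_sum, Finset.mul_sum]
  apply Finset.sum_congr rfl
  intro n hn
  rw [Finset.mem_range] at hn
  rw [LSer_ofPS_monomial, HahnSeries.single_mul_single, one_mul]
  rw [Nat.cast_sub (by omega), sub_eq_add_neg]

/-- An algebraic equation for a Laurent series in `1 / X` without nonnegative powers of `X` holds for its sum at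
every `z` with `‖z‖ > R`, if the coefficients are `O(R ^ n)`.

Proof. Let `u := 1 / z` and `Sp` the power series with coefficients `0, a 0, a 1, ...`; its image in Laurent series
(`HahnSeries.ofPowerSeries ℤ ℂ`) is `S`. Let `d` be larger than the degrees of all the coefficients `P.coeff i`; then
`single d 1 * psi (P.coeff i)` is the image of the power series (polynomial)
`g i := ∑ n ≤ d, (P.coeff i).coeff n • X ^ (d - n)`. Multiply `∑ i, psi (P.coeff i) * S ^ i = 0` by `single d 1`: by
injectivity of `ofPowerSeries` `∑ i, g i * Sp ^ i = 0` in `PowerSeries ℂ`. All the terms are in the subring `A` of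
`exists_evps` (`‖a n * u ^ (n + 1)‖ ≤ C₀ * R ^ n * ‖u‖ ^ (n + 1)`, geometric); apply `e`:
`∑ i, u ^ d * (P.coeff i).eval z * s ^ i = 0`, `s = ∑' n, a n * u ^ (n + 1)`; divide by `u ^ d`. -/
theorem eval_series {R C₀ : ℝ} (hR : 0 ≤ R) (a : ℕ → ℂ) (ha : ∀ n, ‖a n‖ ≤ C₀ * R ^ n)
    (S : LaurentSeries ℂ) (hS : ∀ n : ℕ, S.coeff ((n : ℤ) + 1) = a n)
    (hS' : ∀ m : ℤ, m ≤ 0 → S.coeff m = 0) (P : ℂ[X][X]) (hP : P.eval₂ psi S = 0) (z : ℂ)
    (hz : R < ‖z‖) (s : ℂ) (hs : HasSum (fun n : ℕ => a n / z ^ (n + 1)) s) :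
    P.eval₂ (Polynomial.evalRingHom z) s = 0 := by
  classical
  have hz0 : z ≠ 0 := by
    intro h
    rw [h, norm_zero] at hz
    linarith
  set u : ℂ := z⁻¹ with hu
  have hu0 : u ≠ 0 := inv_ne_zero hz0
  obtain ⟨A, e, hA, he⟩ := exists_evps u
  -- the power series of S
  set Sp : PowerSeries ℂ := PowerSeries.mk (fun n => if n = 0 then 0 else a (n - 1)) with hSp
  have hSpS : HahnSeries.ofPowerSeries ℤ ℂ Sp = S := by
    ext m
    have hc := PowerSeries.coeff_coe (R := ℂ) (f := Sp) m
    rw [hc]
    split_ifs with hm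
    · exact (hS' m hm.le).symm
    · obtain ⟨n, rfl⟩ := Int.eq_ofNat_of_zero_le (not_lt.1 hm)
      rw [Int.natAbs_natCast, hSp, PowerSeries.coeff_mk]
      rcases n with _ | n
      · rw [if_pos rfl]
        exact (hS' _ (by simp)).symm
      · rw [if_neg (Nat.succ_ne_zero n), Nat.add_sub_cancel]
        have := hS n
        push_cast
        rw [this]
  have hsu : ∀ n : ℕ, a n / z ^ (n + 1) = a n * u ^ (n + 1) := by
    intro n
    rw [hu, inv_pow, div_eq_mul_inv]
  have hSpA : Sp ∈ A := by
    rw [hA]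
    rw [← summable_nat_add_iff 1]
    have h1 : ∀ n : ℕ, ‖PowerSeries.coeff (n + 1) Sp * u ^ (n + 1)‖ ≤
        (|C₀| * ‖u‖) * (R * ‖u‖) ^ n := by
      intro n
      rw [hSp, PowerSeries.coeff_mk, if_neg (Nat.succ_ne_zero n), Nat.add_sub_cancel, norm_mul,
        norm_pow]
      have h2 := ha n
      have h3 : C₀ * R ^ n ≤ |C₀| * R ^ n :=
        mul_le_mul_of_nonneg_right (le_abs_self _) (by positivity)
      calc ‖a n‖ * ‖u‖ ^ (n + 1) ≤ (|C₀| * R ^ n) * ‖u‖ ^ (n + 1) :=
            mul_le_mul_of_nonneg_right (h2.trans h3) (by positivity)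
        _ = (|C₀| * ‖u‖) * (R * ‖u‖) ^ n := by rw [mul_pow, pow_succ]; ring
    have h4 : R * ‖u‖ < 1 := by
      rw [hu, norm_inv, ← div_eq_mul_inv, div_lt_one (norm_pos_iff.2 hz0)]
      exact hz
    exact Summable.of_nonneg_of_le (fun n => norm_nonneg _) h1
      ((summable_geometric_of_lt_one (by positivity) h4).mul_left _)
  have heS : e ⟨Sp, hSpA⟩ = s := by
    rw [he]
    have h1 : HasSum (fun n => PowerSeries.coeff n Sp * u ^ n) s := by
      have h2 : HasSum (fun n => PowerSeries.coeff (n + 1) Sp * u ^ (n + 1)) s := by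
        have h4 : (fun n => PowerSeries.coeff (n + 1) Sp * u ^ (n + 1)) =
            fun n : ℕ => a n / z ^ (n + 1) := by
          funext n
          rw [hsu, hSp, PowerSeries.coeff_mk, if_neg (Nat.succ_ne_zero n), Nat.add_sub_cancel]
        rw [h4]
        exact hs
      have h3 := (hasSum_nat_add_iff (f := fun n => PowerSeries.coeff n Sp * u ^ n) 1).1 h2
      rw [Finset.sum_range_one, hSp, PowerSeries.coeff_mk, if_pos rfl, zero_mul, add_zero] at h3
      exact h3
    exact h1.tsum_eq
  -- degrees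
  set d : ℕ := (Finset.range (P.natDegree + 1)).sup (fun i => (P.coeff i).natDegree) with hd
  have hdi : ∀ i ∈ Finset.range (P.natDegree + 1), (P.coeff i).natDegree ≤ d := fun i hi =>
    Finset.le_sup (f := fun i => (P.coeff i).natDegree) hi
  set g : ℕ → PowerSeries ℂ := fun i => ∑ n ∈ Finset.range ((P.coeff i).natDegree + 1),
      PowerSeries.monomial (d - n) ((P.coeff i).coeff n) with hg
  have hmono : ∀ (k : ℕ) (c : ℂ), PowerSeries.monomial k c ∈ A := by
    intro k c
    rw [hA]
    exact LSer_summable_monomial u c k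
  have hgA : ∀ i, g i ∈ A := fun i => Subring.sum_mem A fun n _ => hmono _ _
  have hmonoe : ∀ (k : ℕ) (c : ℂ), e ⟨PowerSeries.monomial k c, hmono k c⟩ = c * u ^ k := by
    intro k c
    rw [he]
    exact (LSer_hasSum_monomial u c k).tsum_eq
  have hge : ∀ i ∈ Finset.range (P.natDegree + 1), e ⟨g i, hgA i⟩ = u ^ d * (P.coeff i).eval z := by
    intro i hi
    have h1 : (⟨g i, hgA i⟩ : A) = ∑ n ∈ Finset.range ((P.coeff i).natDegree + 1),
        (⟨PowerSeries.monomial (d - n) ((P.coeff i).coeff n), hmono _ _⟩ : A) := by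
      apply Subtype.ext
      rw [AddSubmonoidClass.coe_finsetSum]
    rw [h1, map_sum, Polynomial.eval_eq_sum_range, Finset.mul_sum]
    apply Finset.sum_congr rfl
    intro n hn
    rw [Finset.mem_range] at hn
    have hnd : n ≤ d := by
      have := hdi i hi
      omega
    rw [hmonoe]
    have h2 : u ^ d = u ^ (d - n) * u ^ n := by rw [← pow_add, Nat.sub_add_cancel hnd]
    rw [h2]
    have h3 : u ^ n * z ^ n = 1 := by
      rw [← mul_pow, hu, inv_mul_cancel₀ hz0, one_pow]
    calc (P.coeff i).coeff n * u ^ (d - n) = (P.coeff i).coeff n * u ^ (d - n) * (u ^ n * z ^ n) := by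
          rw [h3, mul_one]
      _ = _ := by ring
  -- the equation in power series
  have heq : ∑ i ∈ Finset.range (P.natDegree + 1), g i * Sp ^ i = 0 := by
    apply HahnSeries.ofPowerSeries_injective (Γ := ℤ) (R := ℂ)
    rw [map_zero, map_sum]
    have h1 : ∀ i ∈ Finset.range (P.natDegree + 1),
        HahnSeries.ofPowerSeries ℤ ℂ (g i * Sp ^ i) =
          HahnSeries.single (d : ℤ) (1 : ℂ) * (psi (P.coeff i) * S ^ i) := by
      intro i hi
      rw [map_mul, map_pow, hSpS, hg, LSer_lift d _ (hdi i hi), mul_assoc]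
    rw [Finset.sum_congr rfl h1, ← Finset.mul_sum, ← Polynomial.eval₂_eq_sum_range, hP, mul_zero]
  have heq' : ∑ i ∈ Finset.range (P.natDegree + 1),
      (⟨g i, hgA i⟩ : A) * (⟨Sp, hSpA⟩ : A) ^ i = 0 := by
    apply Subtype.ext
    rw [AddSubmonoidClass.coe_finsetSum]
    exact heq
  have h5 := congrArg e heq'
  rw [map_zero, map_sum] at h5
  have h6 : ∑ i ∈ Finset.range (P.natDegree + 1),
      e ((⟨g i, hgA i⟩ : A) * (⟨Sp, hSpA⟩ : A) ^ i) =
      u ^ d * ∑ i ∈ Finset.range (P.natDegree + 1), (P.coeff i).eval z * s ^ i := by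
    rw [Finset.mul_sum]
    apply Finset.sum_congr rfl
    intro i hi
    rw [map_mul, map_pow, heS, hge i hi, mul_assoc]
  rw [h6] at h5
  rw [Polynomial.eval₂_eq_sum_range]
  exact (mul_eq_zero.1 h5).resolve_left (pow_ne_zero _ hu0)

end Pool.Agent.Wb5ab1bf
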