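import Pool.Agent.W_b5ab1bf_h80.LExt
import Pool.Agent.W_b5ab1bf_h80.LSer

/-!
# The algebraic equation outside the real line, bound for the numerator (helper80)
-/

set_option autoImplicit false

noncomputable section

open scoped Polynomial
open Pool.Agent.Wb5ab1b

namespace Pool.Agent.Wb5ab1bf

lemma LId_pcnorm {R : ℝ} (hR : 0 ≤ R) (n : ℕ) : ‖pc R (Polynomial.X ^ n)‖ ≤ R ^ n := by
  rw [ContinuousMap.norm_le _ (pow_nonneg hR n)]
  intro x
  rw [pc_apply, Polynomial.eval_pow, Polynomial.eval_X, norm_pow, Complex.norm_real]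
  apply pow_le_pow_left₀ (norm_nonneg _)
  rw [Real.norm_eq_abs, abs_le]
  exact ⟨x.2.1, x.2.2⟩

lemma LId_half {R : ℝ} (hR : 0 ≤ R) (Λ : C(Set.Icc (-R) R, ℂ) →L[ℂ] ℂ) (S : LaurentSeries ℂ)
    (hS : ∀ n : ℕ, S.coeff ((n : ℤ) + 1) = Λ (pc R (Polynomial.X ^ n)))
    (hS' : ∀ m : ℤ, m ≤ 0 → S.coeff m = 0) (P : ℂ[X][X]) (hP : P.eval₂ psi S = 0)
    (U : Set ℂ) (hU : IsOpen U) (hUc : IsPreconnected U) (hUi : ∀ z ∈ U, z.im ≠ 0)
    (z₀ : ℂ) (hz₀ : z₀ ∈ U) (hz₀R : R < ‖z₀‖) (z : ℂ) (hz : z ∈ U) :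
    P.eval₂ (Polynomial.evalRingHom z) (stj Λ z) = 0 := by
  set g : ℂ → ℂ := fun z => P.eval₂ (Polynomial.evalRingHom z) (stj Λ z) with hg
  have hdiff : DifferentiableOn ℂ g U := by
    intro w hw
    have h1 : g = fun z => ∑ i ∈ Finset.range (P.natDegree + 1),
        (P.coeff i).eval z * (stj Λ z) ^ i := by
      funext z
      rw [hg]
      simp only [Polynomial.eval₂_eq_sum_range, Polynomial.coe_evalRingHom]
    rw [h1]
    apply DifferentiableAt.differentiableWithinAt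
    apply DifferentiableAt.fun_sum
    intro i _
    apply DifferentiableAt.mul
    · exact (P.coeff i).differentiable.differentiableAt
    · exact (stj_differentiableAt Λ w (hUi w hw)).pow i
  have han : AnalyticOnNhd ℂ g U := hdiff.analyticOnNhd hU
  have hev : g =ᶠ[nhds z₀] 0 := by
    have hop : IsOpen {w : ℂ | R < ‖w‖} := isOpen_lt continuous_const continuous_norm
    filter_upwards [hop.mem_nhds hz₀R] with w hw
    show P.eval₂ (Polynomial.evalRingHom w) (stj Λ w) = 0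
    refine eval_series (C₀ := ‖Λ‖) hR (fun n => Λ (pc R (Polynomial.X ^ n))) ?_ S hS hS' P hP w hw
      (stj Λ w) (stj_hasSum hR Λ w hw)
    intro n
    exact (Λ.le_opNorm _).trans (mul_le_mul_of_nonneg_left (LId_pcnorm hR n) (norm_nonneg _))
  exact han.eqOn_zero_of_preconnected_of_eventuallyEq_zero hUc hz₀ hev hz

/-- The algebraic equation holds at every nonreal point.

Proof. `g z := P.eval₂ (evalRingHom z) (stj Λ z) = ∑ i, (P.coeff i).eval z * (stj Λ z) ^ i` is holomorphic on the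
upper half plane and on the lower half plane (`stj_differentiableAt`), which are convex, so preconnected, and it
vanishes for `‖z‖ > R` by `stj_hasSum` and `eval_series` (`a n := Λ (pc R (X ^ n))`,
`‖a n‖ ≤ ‖Λ‖ * R ^ n`). Identity theorem: `AnalyticOnNhd.eqOn_zero_of_preconnected_of_eventuallyEq_zero` with a
point `± i (R + 1)`. -/
theorem stj_root {R : ℝ} (hR : 0 ≤ R) (Λ : C(Set.Icc (-R) R, ℂ) →L[ℂ] ℂ) (S : LaurentSeries ℂ)
    (hS : ∀ n : ℕ, S.coeff ((n : ℤ) + 1) = Λ (pc R (Polynomial.X ^ n)))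
    (hS' : ∀ m : ℤ, m ≤ 0 → S.coeff m = 0) (P : ℂ[X][X]) (hP : P.eval₂ psi S = 0) (z : ℂ)
    (hz : z.im ≠ 0) : P.eval₂ (Polynomial.evalRingHom z) (stj Λ z) = 0 := by
  rcases lt_or_gt_of_ne hz with h | h
  · refine LId_half hR Λ S hS hS' P hP {w : ℂ | w.im < 0}
      (isOpen_lt Complex.continuous_im continuous_const)
      (convex_halfSpace_im_lt 0).isPreconnected (fun w hw => ne_of_lt hw)
      (-(((R + 1 : ℝ) : ℂ) * Complex.I)) ?_ ?_ z h
    · show (-(((R + 1 : ℝ) : ℂ) * Complex.I)).im < 0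
      simp
      linarith
    · rw [norm_neg, norm_mul, Complex.norm_I, mul_one, Complex.norm_real,
        Real.norm_of_nonneg (by linarith)]
      linarith
  · refine LId_half hR Λ S hS hS' P hP {w : ℂ | 0 < w.im}
      (isOpen_lt continuous_const Complex.continuous_im)
      (convex_halfSpace_im_gt 0).isPreconnected (fun w hw => ne_of_gt hw)
      (((R + 1 : ℝ) : ℂ) * Complex.I) ?_ ?_ z h
    · show 0 < (((R + 1 : ℝ) : ℂ) * Complex.I).im
      simp
      linarith
    · rw [norm_mul, Complex.norm_I, mul_one, Complex.norm_real,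
        Real.norm_of_nonneg (by linarith)]
      linarith

/-- A bound for the roots of a polynomial with bounded coefficients.

Proof. Let `N := P.natDegree ≥ 1`, `a := P.leadingCoeff`. If `P(z, s) = 0` then `u := a(z) s` satisfies
`u ^ N + ∑ i < N, (P.coeff i)(z) * a(z) ^ (N - 1 - i) * u ^ i = 0` (multiply by `a(z) ^ (N - 1)`). If `1 ≤ ‖u‖` this
gives `‖u‖ ≤ ∑ i < N, ‖(P.coeff i)(z) * a(z) ^ (N - 1 - i)‖`, which is bounded for `‖z‖ ≤ T`
(continuity, compact ball). -/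
theorem root_bound (P : ℂ[X][X]) (hP : P.natDegree ≠ 0) (T : ℝ) :
    ∃ C : ℝ, ∀ z s : ℂ, ‖z‖ ≤ T → P.eval₂ (Polynomial.evalRingHom z) s = 0 →
      ‖P.leadingCoeff.eval z * s‖ ≤ C := by
  obtain ⟨N, hN⟩ : ∃ N, P.natDegree = N + 1 := Nat.exists_eq_succ_of_ne_zero hP
  set f : ℂ → ℝ := fun z => ∑ i ∈ Finset.range (N + 1),
    ‖(P.coeff i).eval z * P.leadingCoeff.eval z ^ (N - i)‖ with hf
  have hfc : Continuous f := by
    rw [hf]
    apply continuous_finsetSum
    intro i _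
    apply Continuous.norm
    exact (P.coeff i).continuous.mul (P.leadingCoeff.continuous.pow _)
  obtain ⟨B, hB⟩ := (isCompact_closedBall (0 : ℂ) T).exists_bound_of_continuousOn hfc.continuousOn
  refine ⟨max 1 B, fun z s hz hroot => ?_⟩
  have hBz : f z ≤ B := by
    have := hB z (by rwa [mem_closedBall_zero_iff])
    exact (le_abs_self _).trans this
  set a : ℂ := P.leadingCoeff.eval z with ha
  set u : ℂ := a * s with hu
  rcases le_or_gt ‖u‖ 1 with h1 | h1
  · exact h1.trans (le_max_left _ _)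
  refine le_trans ?_ (hBz.trans (le_max_right _ _))
  rw [Polynomial.eval₂_eq_sum_range, hN, Finset.sum_range_succ] at hroot
  have hlead : (Polynomial.evalRingHom z) (P.coeff (N + 1)) = a := by
    rw [ha, Polynomial.leadingCoeff, hN]; rfl
  rw [hlead] at hroot
  have hkey : u ^ (N + 1) = -∑ i ∈ Finset.range (N + 1),
      ((P.coeff i).eval z * a ^ (N - i)) * u ^ i := by
    have h2 : a ^ N * (∑ i ∈ Finset.range (N + 1),
        (Polynomial.evalRingHom z) (P.coeff i) * s ^ i + a * s ^ (N + 1)) = 0 := by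
      rw [hroot, mul_zero]
    rw [mul_add, Finset.mul_sum] at h2
    have h3 : a ^ N * (a * s ^ (N + 1)) = u ^ (N + 1) := by
      rw [hu, mul_pow]; ring
    have h4 : ∑ i ∈ Finset.range (N + 1), a ^ N * ((Polynomial.evalRingHom z) (P.coeff i) * s ^ i) =
        ∑ i ∈ Finset.range (N + 1), ((P.coeff i).eval z * a ^ (N - i)) * u ^ i := by
      apply Finset.sum_congr rfl
      intro i hi
      have hi' : i ≤ N := Nat.lt_succ_iff.1 (Finset.mem_range.1 hi)
      have h5 : a ^ N = a ^ (N - i) * a ^ i := by rw [← pow_add, Nat.sub_add_cancel hi']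
      rw [h5, hu, mul_pow, Polynomial.coe_evalRingHom]
      ring
    rw [h3, h4] at h2
    linear_combination h2
  have hnorm : ‖u‖ ^ (N + 1) ≤ f z * ‖u‖ ^ N := by
    rw [← norm_pow, hkey, norm_neg]
    refine (norm_sum_le _ _).trans ?_
    rw [hf, Finset.sum_mul]
    apply Finset.sum_le_sum
    intro i hi
    have hi' : i ≤ N := Nat.lt_succ_iff.1 (Finset.mem_range.1 hi)
    rw [norm_mul, norm_pow]
    exact mul_le_mul_of_nonneg_left (pow_le_pow_right₀ h1.le hi') (norm_nonneg _)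
  have hpos : 0 < ‖u‖ ^ N := pow_pos (by linarith) N
  rw [pow_succ, mul_comm (f z)] at hnorm
  exact le_of_mul_le_mul_left hnorm hpos

/-- The bound on horizontal lines near `[-M, M]`.

Proof. `‖a(x) s(x ± iε)‖ ≤ ‖a(x ± iε) s(x ± iε)‖ + ‖a(x) - a(x ± iε)‖ * ‖s(x ± iε)‖`; the first term is bounded by
`root_bound` (with `stj_root`, `T = M + 1`), the second one by `C' * ε * (‖Λ‖ / ε)` (`a` is Lipschitz on bounded
sets, `stj_bound`). `P.natDegree ≠ 0`: otherwise `P = C p₀`, `psi p₀ = 0`, and `p₀ = 0` by `psi_injective`. -/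
theorem line_bound {R M : ℝ} (hR : 0 ≤ R) (hM : R < M) (Λ : C(Set.Icc (-R) R, ℂ) →L[ℂ] ℂ)
    (S : LaurentSeries ℂ)
    (hS : ∀ n : ℕ, S.coeff ((n : ℤ) + 1) = Λ (pc R (Polynomial.X ^ n)))
    (hS' : ∀ m : ℤ, m ≤ 0 → S.coeff m = 0) (P : ℂ[X][X]) (hP0 : P ≠ 0)
    (hP : P.eval₂ psi S = 0) :
    ∃ C : ℝ, ∀ x ε : ℝ, x ∈ Set.Icc (-M) M → 0 < |ε| → |ε| ≤ 1 →
      ‖P.leadingCoeff.eval (x : ℂ) * stj Λ ((x : ℂ) + (ε : ℂ) * Complex.I)‖ ≤ C := by
  have hdeg : P.natDegree ≠ 0 := by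
    intro h0
    obtain ⟨p₀, hp₀⟩ := Polynomial.natDegree_eq_zero.1 h0
    rw [← hp₀, Polynomial.eval₂_C] at hP
    have h1 : p₀ = 0 := psi_injective (by rw [hP, map_zero])
    rw [h1, map_zero] at hp₀
    exact hP0 hp₀.symm
  obtain ⟨C₁, hC₁⟩ := root_bound P hdeg (M + 1)
  set A := P.leadingCoeff with hA
  obtain ⟨K, hK⟩ := (isCompact_closedBall (0 : ℂ) (M + 1)).exists_bound_of_continuousOn
    (f := fun z => deriv (fun w => A.eval w) z)
    (by
      have : (fun z => deriv (fun w => A.eval w) z) = fun z => A.derivative.eval z := by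
        funext z; exact A.deriv
      rw [this]
      exact A.derivative.continuous.continuousOn)
  refine ⟨C₁ + K * ‖Λ‖, fun x ε hx hε hε1 => ?_⟩
  set z : ℂ := (x : ℂ) + (ε : ℂ) * Complex.I with hz
  have hzim : z.im = ε := by rw [hz]; simp
  have hε0 : ε ≠ 0 := abs_pos.1 hε
  have hzim0 : z.im ≠ 0 := by rw [hzim]; exact hε0
  have hxM : |x| ≤ M := abs_le.2 hx
  have hxn : ‖(x : ℂ)‖ ≤ M + 1 := by
    rw [Complex.norm_real, Real.norm_eq_abs]; linarith
  have hzn : ‖z‖ ≤ M + 1 := by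
    rw [hz]
    refine (norm_add_le _ _).trans ?_
    rw [norm_mul, Complex.norm_I, mul_one, Complex.norm_real, Complex.norm_real,
      Real.norm_eq_abs, Real.norm_eq_abs]
    linarith
  have h1 : ‖A.eval z * stj Λ z‖ ≤ C₁ := hC₁ z _ hzn (stj_root hR Λ S hS hS' P hP z hzim0)
  have h2 : ‖A.eval (x : ℂ) - A.eval z‖ ≤ K * ‖(x : ℂ) - z‖ := by
    apply Convex.norm_image_sub_le_of_norm_deriv_le (𝕜 := ℂ) (s := Metric.closedBall (0 : ℂ) (M + 1))
      (f := fun w => A.eval w)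
    · intro w _
      exact A.differentiable.differentiableAt
    · exact hK
    · exact convex_closedBall _ _
    · rwa [mem_closedBall_zero_iff]
    · rwa [mem_closedBall_zero_iff]
  have h3 : ‖(x : ℂ) - z‖ = |ε| := by
    rw [hz, sub_add_cancel_left, norm_neg, norm_mul, Complex.norm_I, mul_one, Complex.norm_real,
      Real.norm_eq_abs]
  have h4 := stj_bound Λ z hzim0
  rw [hzim] at h4
  have hK0 : 0 ≤ K := (norm_nonneg _).trans (hK (x : ℂ) (by rwa [mem_closedBall_zero_iff]))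
  calc ‖A.eval (x : ℂ) * stj Λ z‖ = ‖A.eval z * stj Λ z + (A.eval (x : ℂ) - A.eval z) * stj Λ z‖ := by
        congr 1; ring
    _ ≤ ‖A.eval z * stj Λ z‖ + ‖(A.eval (x : ℂ) - A.eval z) * stj Λ z‖ := norm_add_le _ _
    _ ≤ C₁ + K * ‖Λ‖ := by
        apply add_le_add h1
        rw [norm_mul]
        calc ‖A.eval (x : ℂ) - A.eval z‖ * ‖stj Λ z‖ ≤ (K * |ε|) * ‖stj Λ z‖ := by
              apply mul_le_mul_of_nonneg_right _ (norm_nonneg _)
              rw [← h3]; exact h2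
          _ = K * (‖stj Λ z‖ * |ε|) := by ring
          _ ≤ K * ‖Λ‖ := mul_le_mul_of_nonneg_left h4 hK0

end Pool.Agent.Wb5ab1bf
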