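import Pool.Agent.W_b5ab1bf_h80.LInv
import Pool.Agent.W_b5ab1bf_h80.LId

/-!
# Functionals with an algebraic Stieltjes transform (helper80)
-/

set_option autoImplicit false

noncomputable section

open scoped Polynomial
open Pool.Agent.Wb5ab1b MeasureTheory

namespace Pool.Agent.Wb5ab1bf

/-- **Functionals with an algebraic Stieltjes transform are absolutely continuous up to a factor.**

Proof. `exists_ext` gives `Λ`. `κ₁ := P.leadingCoeff`. By `line_bound` there is `C` with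
`‖κ₁(x) * stj Λ (x ± i ε)‖ ≤ C` for `x ∈ [-M, M]`, `0 < ε ≤ 1`. For a real polynomial `q` and
`g := κ₁ * q.map (algebraMap ℝ ℂ)` the integrals in `stj_inv` are bounded by
`∫ x in Icc (-M) M, |q x| * C = C * nrm M q` (`norm_integral_le_of_norm_le`). So
`‖L g‖ ≤ (C / π) * nrm M q`. -/
theorem lemma_alg {R M C₀ : ℝ} (hR : 0 ≤ R) (hM : R < M) {L : ℂ[X] →ₗ[ℂ] ℂ} (hL : SupBd R C₀ L)
    (S : LaurentSeries ℂ) (hS : ∀ n : ℕ, S.coeff ((n : ℤ) + 1) = L (Polynomial.X ^ n))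
    (hS' : ∀ m : ℤ, m ≤ 0 → S.coeff m = 0) (P : ℂ[X][X]) (hP0 : P ≠ 0)
    (hP : P.eval₂ psi S = 0) :
    ∃ κ₁ : ℂ[X], κ₁ ≠ 0 ∧ ∃ C : ℝ, ∀ q : ℝ[X],
      ‖L (κ₁ * q.map (algebraMap ℝ ℂ))‖ ≤ C * nrm M q := by
  obtain ⟨Λ, hΛ⟩ := exists_ext hR hL
  obtain ⟨C, hC⟩ := line_bound hR hM Λ S (fun n => by rw [hS, hΛ]) hS' P hP0 hP
  refine ⟨P.leadingCoeff, Polynomial.leadingCoeff_ne_zero.2 hP0, C / Real.pi, fun q => ?_⟩
  have key : Real.pi * ‖Λ (pc R (P.leadingCoeff * q.map (algebraMap ℝ ℂ)))‖ ≤ C * nrm M q := by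
    apply stj_inv hR hM Λ _ (C * nrm M q)
    intro ε hε hε1
    unfold nrm
    rw [← integral_const_mul]
    apply norm_integral_le_of_norm_le ((nrm_integrable M q).const_mul C)
    refine (ae_restrict_iff' measurableSet_Icc).2 (Filter.Eventually.of_forall fun x hx => ?_)
    have h1 := hC x ε hx (by rwa [abs_of_pos hε]) (by rwa [abs_of_pos hε])
    have h2 := hC x (-ε) hx (by rwa [abs_neg, abs_of_pos hε]) (by rwa [abs_neg, abs_of_pos hε])
    have h3 : (q.map (algebraMap ℝ ℂ)).eval (x : ℂ) = ((q.eval x : ℝ) : ℂ) := by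
      rw [Polynomial.eval_map, ← Complex.coe_algebraMap, Polynomial.eval₂_at_apply]
    rw [Polynomial.eval_mul, h3]
    have h4 : P.leadingCoeff.eval (x : ℂ) * ((q.eval x : ℝ) : ℂ) * (Complex.I / 2 *
        (stj Λ ((x : ℂ) + (ε : ℂ) * Complex.I) - stj Λ ((x : ℂ) + ((-ε : ℝ) : ℂ) * Complex.I))) =
        ((q.eval x : ℝ) : ℂ) * (Complex.I / 2) *
        (P.leadingCoeff.eval (x : ℂ) * stj Λ ((x : ℂ) + (ε : ℂ) * Complex.I) -
          P.leadingCoeff.eval (x : ℂ) * stj Λ ((x : ℂ) + ((-ε : ℝ) : ℂ) * Complex.I)) := by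
      ring
    rw [h4, norm_mul, norm_mul]
    have h5 : ‖((q.eval x : ℝ) : ℂ)‖ = |q.eval x| := by
      rw [Complex.norm_real, Real.norm_eq_abs]
    have h6 : ‖Complex.I / 2‖ = 1 / 2 := by
      rw [norm_div, Complex.norm_I]
      norm_num
    rw [h5, h6]
    have h7 := norm_sub_le (P.leadingCoeff.eval (x : ℂ) * stj Λ ((x : ℂ) + (ε : ℂ) * Complex.I))
      (P.leadingCoeff.eval (x : ℂ) * stj Λ ((x : ℂ) + ((-ε : ℝ) : ℂ) * Complex.I))
    have h8 := abs_nonneg (q.eval x)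
    have h9 : ‖P.leadingCoeff.eval (x : ℂ) * stj Λ ((x : ℂ) + (ε : ℂ) * Complex.I) -
          P.leadingCoeff.eval (x : ℂ) * stj Λ ((x : ℂ) + ((-ε : ℝ) : ℂ) * Complex.I)‖ ≤ 2 * C := by
      linarith
    have h10 := mul_le_mul_of_nonneg_left h9 h8
    linarith
  rw [hΛ] at key
  rw [div_mul_eq_mul_div, le_div_iff₀ Real.pi_pos]
  linarith

end Pool.Agent.Wb5ab1bf
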