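import Pool.Agent.W_b5ab1bf_h80.CAlgS
import Pool.Agent.W_b5ab1bf_h80.CSer
import Pool.Agent.W_b5ab1bf_h80.LAlg

/-!
# Endomorphisms with finite orbit are represented by absolutely continuous functionals (helper80)
-/

set_option autoImplicit false

noncomputable section

open scoped Polynomial
open Pool.Agent.Wb5ab1b MeasureTheory

namespace Pool.Agent.Wb5ab1bf

variable {k : ℕ} (B : Bd k) {K : Type} [Field K] (D : KField k K)

theorem CMem_toL (q : ℝ[X]) : (toL q : (Lau k)[X]) = cX k (q.map (algebraMap ℝ ℂ)) := by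
  unfold toL cX
  rw [Polynomial.coe_mapRingHom, Polynomial.map_map]
  congr 1

theorem CMem_cX_ne (p : ℂ[X]) (hp : p ≠ 0) : cX k p ≠ 0 := by
  unfold cX
  rw [Polynomial.coe_mapRingHom]
  exact (Polynomial.map_ne_zero_iff (algebraMap ℂ (Lau k)).injective).2 hp

theorem CMem_bd {L : ℂ[X] →ₗ[ℂ] ℂ} {κ₁ : ℂ[X]} {C M : ℝ}
    (hC : ∀ q : ℝ[X], ‖L (κ₁ * q.map (algebraMap ℝ ℂ))‖ ≤ C * nrm M q) (p : ℂ[X]) :
    ∃ C' : ℝ, ∀ q : ℝ[X],
      ‖L (p * (κ₁ * q.map (algebraMap ℝ ℂ)))‖ ≤ C' * nrm M q := by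
  refine ⟨∑ i ∈ p.support, ‖p.coeff i‖ * (|C| * |M| ^ i), fun q => ?_⟩
  have key : p * (κ₁ * q.map (algebraMap ℝ ℂ)) = ∑ i ∈ p.support,
      p.coeff i • (κ₁ * (Polynomial.X ^ i * q).map (algebraMap ℝ ℂ)) := by
    conv_lhs => rw [p.as_sum_support_C_mul_X_pow]
    rw [Finset.sum_mul]
    refine Finset.sum_congr rfl fun i _ => ?_
    rw [Polynomial.smul_eq_C_mul, Polynomial.map_mul, Polynomial.map_pow, Polynomial.map_X]
    ring
  rw [key, map_sum, Finset.sum_mul]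
  refine (norm_sum_le _ _).trans (Finset.sum_le_sum fun i _ => ?_)
  have h1 : L (p.coeff i • (κ₁ * (Polynomial.X ^ i * q).map (algebraMap ℝ ℂ))) =
      p.coeff i * L (κ₁ * (Polynomial.X ^ i * q).map (algebraMap ℝ ℂ)) := L.map_smul _ _
  rw [h1, norm_mul, mul_assoc]
  refine mul_le_mul_of_nonneg_left ?_ (norm_nonneg _)
  have h2 := hC (Polynomial.X ^ i * q)
  have h3 : C * nrm M (Polynomial.X ^ i * q) ≤ |C| * nrm M (Polynomial.X ^ i * q) :=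
    mul_le_mul_of_nonneg_right (le_abs_self _) (nrm_nonneg _ _)
  have h4 : |C| * nrm M (Polynomial.X ^ i * q) ≤ |C| * (|M| ^ i * nrm M q) :=
    mul_le_mul_of_nonneg_left (nrm_X_pow_mul M i q) (abs_nonneg _)
  have h5 : |C| * (|M| ^ i * nrm M q) = |C| * |M| ^ i * nrm M q := by ring
  linarith

/-- **Endomorphisms with finite orbit.**

Proof. `exists_eI` for `x`: `κ ≠ 0`, `F`. `fn_series` gives `t`, `Q`. Let `Φ := eP B F`, `W₀` with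
`p₀ := pW κ W₀ ≠ 0` (`exists_pW`). `LW_supBd` for `W₀`, `exists_series` for `W₀`, `lemma_alg`: `κ₁ ≠ 0`, `C` with
`‖LW Φ W₀ (κ₁ * q)‖ ≤ C * nrm M q`. For every `W` (`LW_tau`)
`E (W * ((cX (κ₁ * p₀)) • Φ).app (toL q)) = LW Φ W (p₀ * (κ₁ * q)) = LW Φ W₀ (pW κ W * (κ₁ * q))
= LW Φ W₀ (κ₁ * (pW κ W * q))`; the polynomial `pW κ W` is complex: write it as `∑ i, a_i X ^ i`, so the value is at
most `∑ i, ‖a_i‖ * C * nrm M (X ^ i * q) ≤ C' * nrm M q` (`nrm_X_pow_mul`). So `cX (κ₁ p₀) • Φ ∈ AC` and with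
`cX (κ₁ p₀) * κ` and `cX (κ₁ p₀) • F` (`eI_smul`, `eP_smul`) `x ∈ NgS`. -/
theorem fn_mem (hH : B.Herm) {R M : ℝ} (hR : B.Bdd R) (hM : R < M) (S : Sys D.toDField (VV B D))
    (hS : IsShift B D S) (x : Module.End K (VV B D)) (hx : x ∈ S.fn) : x ∈ NgS B D M := by
  obtain ⟨κ, hκ, F, hF⟩ := exists_eI B D x
  obtain ⟨t, ⟨Q, hQ, hQt⟩, ht⟩ := fn_series B D S hS x hx κ F hF
  obtain ⟨W₀, hW₀⟩ := exists_pW κ hκ
  obtain ⟨C₀, hC₀⟩ := LW_supBd B hH hR F W₀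
  obtain ⟨Sr, hS1, hS2, P, hP0, hP⟩ := exists_series (eP B F) κ t Q hQ hQt ht W₀
  have hR0 : 0 ≤ R :=
    (Finset.sum_nonneg fun b _ => norm_nonneg _).trans (hR (fun _ => 0) 0)
  obtain ⟨κ₁, hκ₁, C, hC⟩ := lemma_alg hR0 hM hC₀ Sr hS1 hS2 P hP0 hP
  rw [mem_NgS]
  refine ⟨cX k (κ₁ * pW κ W₀) * κ, mul_ne_zero (CMem_cX_ne _ (mul_ne_zero hκ₁ hW₀)) hκ,
    cX k (κ₁ * pW κ W₀) • F, ?_, ?_⟩
  · rw [eI_smul, ← hF, smul_smul, map_mul]
  · rw [eP_smul]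
    intro W
    obtain ⟨C', hC'⟩ := CMem_bd hC (pW κ W)
    refine ⟨C', fun q => ?_⟩
    have h1 : E (W * ((cX k (κ₁ * pW κ W₀)) • eP B F).app (toL q)) =
        LW (eP B F) W₀ (pW κ W * (κ₁ * q.map (algebraMap ℝ ℂ))) := by
      rw [← LW_tau (eP B F) κ t ht W W₀, LW_apply, Fn.app_smul, CMem_toL, ← map_mul]
      congr 4
      ring
    rw [h1]
    exact hC' q

end Pool.Agent.Wb5ab1bf
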