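import Pool.Agent.W_b5ab1bf_h80.CRs
import Pool.Agent.W_b5ab1bf_h80.CBC

/-!
# Endomorphisms over the Laurent series (helper80)
-/

set_option autoImplicit false

noncomputable section

open scoped Polynomial
open Pool.Agent.Wb5ab1b

namespace Pool.Agent.Wb5ab1bf

variable {k : ℕ} (B : Bd k) {K : Type} [Field K] (D : KField k K)

/-- the bases of solutions correspond -/
theorem CPhi_bases : ∃ (e : Module.Basis (Fin (2 * B.w)) K (VV B D))
    (e' : Module.Basis (Fin (2 * B.w)) (LS k) (Vi B D)), ∀ i, jv B D (e i) = e' i := by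
  classical
  obtain ⟨e0, h0⟩ : ∃ e : VV B D ≃ₗ[K] (Fin (2 * B.w) → K),
      ∀ (v : VV B D) (i : Fin (2 * B.w)), e v i = (v : ℤ → K) ((i : ℕ) : ℤ) :=
    (B.bm D).exists_equiv
  obtain ⟨e1, h1⟩ : ∃ e : Vi B D ≃ₗ[LS k] (Fin (2 * B.w) → LS k),
      ∀ (v : Vi B D) (i : Fin (2 * B.w)), e v i = (v : ℤ → LS k) ((i : ℕ) : ℤ) :=
    (Bi B D).exists_equiv
  refine ⟨Module.Basis.ofEquivFun e0, Module.Basis.ofEquivFun e1, fun i => ?_⟩
  apply e1.injective
  rw [Module.Basis.coe_ofEquivFun, Module.Basis.coe_ofEquivFun]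
  change e1 (jv B D (e0.symm (Pi.single i 1))) = e1 (e1.symm (Pi.single i 1))
  rw [LinearEquiv.apply_symm_apply]
  funext l
  rw [h1, jv_apply, ← h0, LinearEquiv.apply_symm_apply, Pi.single_apply, Pi.single_apply]
  split_ifs
  · rw [map_one]
  · rw [map_zero]

/-- Base change of endomorphisms. `base_change` for the bases of solutions with values `δ_i` in the window `[0, 2w)`
(`exists_equiv` for `B.bm D` and for `Bi B D`; `jv` maps the first to the second by `win_ext`). -/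
theorem exists_Phi : ∃ Φ : Module.End K (VV B D) →+* Module.End (LS k) (Vi B D),
    (∀ x v, Φ x (jv B D v) = jv B D (x v)) ∧ (∀ (f : K) x, Φ (f • x) = D.up f • Φ x) ∧
      ∀ x, LinearMap.trace (LS k) (Vi B D) (Φ x) = D.up (LinearMap.trace K (VV B D) x) := by
  obtain ⟨e, e', he⟩ := CPhi_bases B D
  exact base_change D.up (jv B D) (jv_smul B D) e e' he

/-- Linear maps on `Vi` which coincide on the image of `jv` are equal: the image contains a basis. -/
theorem jv_ext {W : Type} [AddCommGroup W] [Module (LS k) W] (f g : Vi B D →ₗ[LS k] W)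
    (h : ∀ v, f (jv B D v) = g (jv B D v)) : f = g := by
  obtain ⟨e, e', he⟩ := CPhi_bases B D
  exact e'.ext fun i => by rw [← he, h]

/-- Semilinear additive maps which coincide on the image of `jv`. -/
theorem jv_ext' {W : Type} [AddCommGroup W] [Module (LS k) W] (θ : LS k →+* LS k)
    (f g : Vi B D →+ W) (hf : ∀ (a : LS k) v, f (a • v) = θ a • f v)
    (hg : ∀ (a : LS k) v, g (a • v) = θ a • g v)
    (h : ∀ v, f (jv B D v) = g (jv B D v)) : f = g := by
  obtain ⟨e, e', he⟩ := CPhi_bases B D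
  ext v
  conv_lhs => rw [← e'.sum_repr v]
  conv_rhs => rw [← e'.sum_repr v]
  rw [map_sum, map_sum]
  exact Finset.sum_congr rfl fun i _ => by rw [hf, hg, ← he, h]

/-- Transfer of a formula for the values. -/
theorem Phi_value (Φ : Module.End K (VV B D) →+* Module.End (LS k) (Vi B D))
    (hΦ : ∀ x v, Φ x (jv B D v) = jv B D (x v)) (x : Module.End K (VV B D)) (c : ℤ)
    (s : Finset ℤ) (a : ℤ → K)
    (h : ∀ v : VV B D, ((x v : VV B D) : ℤ → K) c = ∑ l ∈ s, a l * (v : ℤ → K) l)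
    (v : Vi B D) : ((Φ x v : Vi B D) : ℤ → LS k) c = ∑ l ∈ s, D.up (a l) * (v : ℤ → LS k) l := by
  let f : Vi B D →ₗ[LS k] LS k := ((LinearMap.proj c : (ℤ → LS k) →ₗ[LS k] LS k) ∘ₗ
    (Vi B D).subtype) ∘ₗ (Φ x)
  let g : Vi B D →ₗ[LS k] LS k := ∑ l ∈ s, (D.up (a l)) •
    ((LinearMap.proj l : (ℤ → LS k) →ₗ[LS k] LS k) ∘ₗ (Vi B D).subtype)
  have hg : ∀ u : Vi B D, g u = ∑ l ∈ s, D.up (a l) * (u : ℤ → LS k) l := by
    intro u
    change (∑ l ∈ s, (D.up (a l)) •
      ((LinearMap.proj l : (ℤ → LS k) →ₗ[LS k] LS k) ∘ₗ (Vi B D).subtype)) u = _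
    rw [LinearMap.sum_apply]
    rfl
  have hfg : f = g := by
    refine jv_ext B D f g fun u => ?_
    rw [hg]
    change ((Φ x (jv B D u) : Vi B D) : ℤ → LS k) c = _
    rw [hΦ, jv_apply, h, map_sum]
    exact Finset.sum_congr rfl fun l _ => by rw [map_mul, jv_apply]
  rw [← hg v, ← hfg]
  rfl

end Pool.Agent.Wb5ab1bf
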