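import Pool.Agent.W_b5ab1bf_h80.CGE

/-!
# The formal resolvent (helper80)
-/

set_option autoImplicit false

noncomputable section

open scoped Polynomial
open Pool.Agent.Wb5ab1b

namespace Pool.Agent.Wb5ab1bf

variable {k : ℕ} (B : Bd k) {K : Type} [Field K] (D : KField k K)

theorem Rs_coeff (c b : ℤ) (n : ℕ) : (Rs B c b).coeff ((n : ℤ) + 1) =
    -algebraMap (Lau k) (FractionRing (Lau k)) (bpw B.w B.H n c b) := by
  unfold Rs
  rw [HahnSeries.coeff_single_mul_add, one_mul, PowerSeries.coeff_coe, if_neg (by omega),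
    Int.natAbs_natCast, PowerSeries.coeff_mk]

theorem Rs_coeff' (c b m : ℤ) (hm : m ≤ 0) : (Rs B c b).coeff m = 0 := by
  unfold Rs
  have h1 : m = (m - 1) + 1 := by ring
  rw [h1, HahnSeries.coeff_single_mul_add, one_mul, PowerSeries.coeff_coe, if_pos (by omega)]

theorem CRs_C_mul (r : FractionRing (Lau k)) (x : LS k) (m : ℤ) :
    ((HahnSeries.C r : LS k) * x).coeff m = r * x.coeff m := by
  rw [HahnSeries.C_mul_eq_smul, HahnSeries.coeff_smul, smul_eq_mul]

theorem CRs_X_mul (x : LS k) (m : ℤ) :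
    (HahnSeries.single (-1 : ℤ) (1 : FractionRing (Lau k)) * x).coeff m = x.coeff (m + 1) := by
  have h1 : m = (m + 1) + (-1) := by ring
  conv_lhs => rw [h1]
  rw [HahnSeries.coeff_single_mul_add, one_mul]

/-- the rows of the band matrix over the Laurent series -/
theorem CRs_row (x : ℤ → LS k) (a m : ℤ) :
    (bop (Bi B D).w (Bi B D).h x a).coeff m = (∑ c ∈ Finset.Icc (a - (B.w : ℤ)) (a + B.w),
      algebraMap (Lau k) (FractionRing (Lau k)) (B.H a c) * (x c).coeff m) -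
        (x a).coeff (m + 1) := by
  have h1 : bop (Bi B D).w (Bi B D).h x a =
      (∑ c ∈ Finset.Icc (a - (B.w : ℤ)) (a + B.w), HahnSeries.C
        (algebraMap (Lau k) (FractionRing (Lau k)) (B.H a c)) * x c) -
          HahnSeries.single (-1 : ℤ) (1 : FractionRing (Lau k)) * x a := by
    have h2 : HahnSeries.single (-1 : ℤ) (1 : FractionRing (Lau k)) * x a =
        ∑ c ∈ Finset.Icc (a - (B.w : ℤ)) (a + B.w),
          if a = c then HahnSeries.single (-1 : ℤ) (1 : FractionRing (Lau k)) * x c else 0 := by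
      rw [Finset.sum_ite_eq, if_pos]
      rw [Finset.mem_Icc]
      omega
    rw [h2, ← Finset.sum_sub_distrib, bop_apply]
    refine Finset.sum_congr rfl fun c _ => ?_
    change D.up (D.ι (Polynomial.C (B.H a c)) - if a = c then D.ι Polynomial.X else 0) * x c = _
    rw [map_sub, D.up_C, sub_mul]
    congr 1
    split_ifs
    · rw [D.up_X]
    · rw [map_zero, zero_mul]
  rw [h1, HahnSeries.coeff_sub, HahnSeries.coeff_sum, CRs_X_mul]
  congr 1
  exact Finset.sum_congr rfl fun c _ => CRs_C_mul _ _ _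

/-- The formal resolvent is an inverse: `∑ c, H a c * Rs c b - X * Rs a b = δ_{ab}`. Compare coefficients: at
`n + 1` (`n ≥ 0`) the first term is `-bpw (n + 1) a b` (`bpw_succ`) and `X * Rs a b` has the coefficient
`-bpw (n + 1) a b`; at `0` it is `bpw 0 a b = δ`. (`up_C`, `up_X`; `X` is `single (-1) 1`.) -/
theorem Rs_eq (b : ℤ) :
    bop (Bi B D).w (Bi B D).h (fun c => Rs B c b) = Pi.single b 1 := by
  funext a
  ext m
  rw [CRs_row, Pi.single_apply]
  rcases lt_trichotomy m 0 with h | h | h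
  · rw [Rs_coeff' B a b _ (by omega), sub_zero, Finset.sum_eq_zero]
    · split_ifs
      · rw [HahnSeries.coeff_one, if_neg (by omega)]
      · rw [HahnSeries.coeff_zero]
    · intro c _
      rw [Rs_coeff' B c b _ (by omega), mul_zero]
  · subst h
    have h1 := Rs_coeff B a b 0
    rw [Nat.cast_zero] at h1
    rw [h1, bpw_zero, Finset.sum_eq_zero]
    · split_ifs
      · rw [HahnSeries.coeff_one, if_pos rfl, map_one, zero_sub, neg_neg]
      · rw [HahnSeries.coeff_zero, map_zero, neg_zero, sub_zero]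
    · intro c _
      rw [Rs_coeff' B c b _ le_rfl, mul_zero]
  · obtain ⟨n, rfl⟩ : ∃ n : ℕ, m = (n : ℤ) + 1 := ⟨(m - 1).toNat, by omega⟩
    have h1 := Rs_coeff B a b (n + 1)
    rw [Nat.cast_add, Nat.cast_one] at h1
    rw [h1, bpw_succ, sub_neg_eq_add]
    have h2 : (if a = b then (1 : LS k) else 0).coeff ((n : ℤ) + 1) = 0 := by
      split_ifs
      · rw [HahnSeries.coeff_one, if_neg (by omega)]
      · rw [HahnSeries.coeff_zero]
    rw [h2, map_sum, ← Finset.sum_add_distrib]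
    refine Finset.sum_eq_zero fun c _ => ?_
    rw [Rs_coeff, map_mul]
    ring

theorem CRs_far (c b N : ℤ) (h : (N.toNat : ℤ) * B.w < |b - c|) : GE (Rs B c b) N := by
  intro i hi
  rcases le_or_gt i 0 with h1 | h1
  · exact Rs_coeff' B c b i h1
  · obtain ⟨n, rfl⟩ : ∃ n : ℕ, i = (n : ℤ) + 1 := ⟨(i - 1).toNat, by omega⟩
    rw [Rs_coeff, bpw_far, map_zero, neg_zero]
    refine lt_of_le_of_lt ?_ h
    exact mul_le_mul_of_nonneg_right (by omega) (by omega)

/-- Decay: `bpw n c b = 0` for `n * w < |c - b|` (`bpw_far`). -/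
theorem Rs_DecP (b : ℤ) : DecP (fun c => Rs B c b) := by
  intro N
  refine ⟨b + (N.toNat : ℤ) * B.w + 1, fun n hn => CRs_far B n b N ?_⟩
  rw [lt_abs]
  right
  linarith

theorem Rs_DecM (b : ℤ) : DecM (fun c => Rs B c b) := by
  intro N
  refine ⟨b - (N.toNat : ℤ) * B.w - 1, fun n hn => CRs_far B n b N ?_⟩
  rw [lt_abs]
  left
  linarith

/-- Sums and multiples of decaying sequences. -/
theorem DecP_add {v v' : ℤ → LS k} (h : DecP v) (h' : DecP v') : DecP (v + v') := by
  intro N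
  obtain ⟨n₀, h1⟩ := h N
  obtain ⟨n₁, h2⟩ := h' N
  exact ⟨max n₀ n₁, fun n hn => GE_add (h1 n (le_trans (le_max_left _ _) hn))
    (h2 n (le_trans (le_max_right _ _) hn))⟩

theorem DecM_add {v v' : ℤ → LS k} (h : DecM v) (h' : DecM v') : DecM (v + v') := by
  intro N
  obtain ⟨n₀, h1⟩ := h N
  obtain ⟨n₁, h2⟩ := h' N
  exact ⟨min n₀ n₁, fun n hn => GE_add (h1 n (le_trans hn (min_le_left _ _)))
    (h2 n (le_trans hn (min_le_right _ _)))⟩

theorem CRs_smul (f : LS k) {v : LS k} {M N : ℤ} (hf : GE f M) (hv : GE v (N - M)) :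
    GE (f * v) N := by
  have h1 := GE_mul hf hv
  have h2 : M + (N - M) = N := by ring
  rw [h2] at h1
  exact h1

theorem DecP_smul (f : LS k) {v : ℤ → LS k} (h : DecP v) : DecP (f • v) := by
  obtain ⟨M, hM⟩ := exists_GE f
  intro N
  obtain ⟨n₀, h1⟩ := h (N - M)
  exact ⟨n₀, fun n hn => CRs_smul f hM (h1 n hn)⟩

theorem DecM_smul (f : LS k) {v : ℤ → LS k} (h : DecM v) : DecM (f • v) := by
  obtain ⟨M, hM⟩ := exists_GE f
  intro N
  obtain ⟨n₀, h1⟩ := h (N - M)
  exact ⟨n₀, fun n hn => CRs_smul f hM (h1 n hn)⟩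

theorem DecP_zero (v : ℤ → LS k) (n₀ : ℤ) (h : ∀ n, n₀ ≤ n → v n = 0) : DecP v := by
  intro N
  refine ⟨n₀, fun n hn => ?_⟩
  rw [h n hn]
  exact GE_zero N

theorem DecM_zero (v : ℤ → LS k) (n₀ : ℤ) (h : ∀ n, n ≤ n₀ → v n = 0) : DecM v := by
  intro N
  refine ⟨n₀, fun n hn => ?_⟩
  rw [h n hn]
  exact GE_zero N

end Pool.Agent.Wb5ab1bf
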