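import Pool.Agent.W_b5ab1bf_h80.CFn
import Pool.Agent.W_b5ab1bf_h80.CPr
import Pool.Agent.W_b5ab1bf_h80.ADin

/-!
# The trace is algebraic (helper80)
-/

set_option autoImplicit false

noncomputable section

open scoped Polynomial
open Pool.Agent.Wb5ab1b

namespace Pool.Agent.Wb5ab1bf

variable {k : ℕ} (B : Bd k) {K : Type} [Field K] (D : KField k K)

theorem CTrA_den {A K' : Type} [CommRing A] [IsDomain A] [Field K'] (ψ : A →+* K') (a : ℕ → K')
    (h : ∀ i, ∃ p q : A, q ≠ 0 ∧ ψ q * a i = ψ p) (n : ℕ) :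
    ∃ q : A, q ≠ 0 ∧ ∀ i, i < n → ∃ p, ψ q * a i = ψ p := by
  induction n with
  | zero => exact ⟨1, one_ne_zero, fun i hi => absurd hi (Nat.not_lt_zero i)⟩
  | succ n ih =>
    obtain ⟨q, hq, hi⟩ := ih
    obtain ⟨p', q', hq', hp'⟩ := h n
    refine ⟨q * q', mul_ne_zero hq hq', fun i hin => ?_⟩
    rcases Nat.lt_succ_iff_lt_or_eq.1 hin with h1 | rfl
    · obtain ⟨p, hp⟩ := hi i h1
      exact ⟨q' * p, by rw [map_mul, map_mul, ← hp]; ring⟩
    · exact ⟨q * p', by rw [map_mul, map_mul, ← hp']; ring⟩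

/-- Clearing denominators of a polynomial. -/
theorem CTrA_clear {A K' : Type} [CommRing A] [IsDomain A] [Field K'] (ψ : A →+* K')
    (hψ : Function.Injective ψ) (m : K'[X])
    (h : ∀ i, ∃ p q : A, q ≠ 0 ∧ ψ q * m.coeff i = ψ p) :
    ∃ (q : A) (P : A[X]), q ≠ 0 ∧ P.map ψ = Polynomial.C (ψ q) * m := by
  obtain ⟨q, hq, hq2⟩ := CTrA_den ψ (fun i => m.coeff i) h (m.natDegree + 1)
  choose! p hp using hq2
  refine ⟨q, ∑ i ∈ Finset.range (m.natDegree + 1), Polynomial.C (p i) * Polynomial.X ^ i, hq, ?_⟩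
  rw [Polynomial.map_sum]
  conv_rhs => rw [m.as_sum_range_C_mul_X_pow, Finset.mul_sum]
  refine Finset.sum_congr rfl fun i hi => ?_
  rw [Polynomial.map_mul, Polynomial.map_C, Polynomial.map_pow, Polynomial.map_X,
    ← hp i (Finset.mem_range.1 hi), Polynomial.C_mul, mul_assoc]

/-- The coefficients of the minimal polynomial of a parallel endomorphism are constants. -/
theorem CTrA_coeff {D' : DField k K} {V : Type} [AddCommGroup V] [Module K V]
    [FiniteDimensional K V] (S : Sys D' V) (x : Module.End K V) (hx : ∀ j, S.bp j x = 0) (i : ℕ)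
    (j : ℤ × Fin k) : D'.δ j ((minpoly K x).coeff i) = 0 := by
  have hpow : ∀ n : ℕ, S.bp j (x ^ n) = 0 := by
    intro n
    induction n with
    | zero => rw [pow_zero]; exact brL_one _
    | succ n ih => rw [pow_succ, Sys.bp_mul, ih, hx j, zero_mul, mul_zero, add_zero]
  have hint : IsIntegral K x := Algebra.IsIntegral.isIntegral x
  have h0 : Polynomial.aeval x (minpoly K x) = 0 := minpoly.aeval K x
  rw [Polynomial.aeval_eq_sum_range] at h0
  let F : Module.End K V →+ Module.End K V := AddMonoidHom.mk' (S.bp j) (fun a b => S.bp_add j a b)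
  have h1 : F (∑ i ∈ Finset.range ((minpoly K x).natDegree + 1),
      (minpoly K x).coeff i • x ^ i) = 0 := by
    rw [h0, map_zero]
  rw [map_sum] at h1
  set md : K[X] := ∑ i ∈ Finset.range ((minpoly K x).natDegree + 1),
    Polynomial.C (D'.δ j ((minpoly K x).coeff i)) * Polynomial.X ^ i with hmd
  have h2 : Polynomial.aeval x md = 0 := by
    rw [hmd, map_sum, ← h1]
    refine Finset.sum_congr rfl fun i _ => ?_
    show _ = S.bp j ((minpoly K x).coeff i • x ^ i)
    rw [Sys.bp_smul, hpow, smul_zero, add_zero, map_mul, map_pow, Polynomial.aeval_X,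
      Polynomial.aeval_C, ← Algebra.smul_def]
  have hcoeff : ∀ l, l < (minpoly K x).natDegree + 1 →
      md.coeff l = D'.δ j ((minpoly K x).coeff l) := by
    intro l hl
    rw [hmd, Polynomial.finsetSum_coeff]
    simp only [Polynomial.coeff_C_mul, Polynomial.coeff_X_pow, mul_ite, mul_one, mul_zero]
    rw [Finset.sum_ite_eq, if_pos (Finset.mem_range.2 hl)]
  have hmd0 : md = 0 := by
    by_contra hne
    have h3 := minpoly.degree_le_of_ne_zero K x hne h2
    have h4 : md.degree < (minpoly K x).degree := by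
      rw [Polynomial.degree_eq_natDegree (minpoly.ne_zero hint), Polynomial.degree_lt_iff_coeff_zero]
      intro l hl
      rcases hl.eq_or_lt with rfl | hl
      · rw [hcoeff _ (Nat.lt_succ_self _)]
        have h5 : (minpoly K x).coeff (minpoly K x).natDegree = 1 :=
          (minpoly.monic hint).coeff_natDegree
        rw [h5, Derivation.map_one_eq_zero]
      · rw [hmd, Polynomial.finsetSum_coeff]
        refine Finset.sum_eq_zero fun i hi => ?_
        rw [Polynomial.coeff_C_mul, Polynomial.coeff_X_pow, if_neg, mul_zero]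
        have := Finset.mem_range.1 hi
        omega
    exact absurd h3 (not_le.2 h4)
  rcases lt_or_ge i ((minpoly K x).natDegree + 1) with hi | hi
  · rw [← hcoeff i hi, hmd0, Polynomial.coeff_zero]
  · rw [Polynomial.coeff_eq_zero_of_natDegree_lt (by omega), map_zero]

theorem CTrA_alg {D' : DField k K} {V : Type} [AddCommGroup V] [Module K V]
    [FiniteDimensional K V] (S : Sys D' V) (x : Module.End K V) (hx : ∀ j, S.bp j x = 0)
    {A : Type} [CommRing A] [IsDomain A] (ψ : A →+* K) (hψ : Function.Injective ψ)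
    (hf : ∀ f : K, (∀ j, D'.δ j f = 0) → ∃ p q : A, q ≠ 0 ∧ ψ q * f = ψ p) :
    ∃ P : A[X], P ≠ 0 ∧ Polynomial.aeval x (P.map ψ) = 0 := by
  have hint : IsIntegral K x := Algebra.IsIntegral.isIntegral x
  obtain ⟨q, P, hq, hP⟩ := CTrA_clear ψ hψ (minpoly K x) (fun i =>
    hf ((minpoly K x).coeff i) (fun j => CTrA_coeff S x hx i j))
  refine ⟨P, ?_, ?_⟩
  · rintro rfl
    rw [Polynomial.map_zero] at hP
    rcases mul_eq_zero.1 hP.symm with h | h
    · rw [Polynomial.C_eq_zero] at h
      exact hq (hψ (h.trans (map_zero _).symm))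
    · exact minpoly.ne_zero hint h
  · rw [hP, map_mul, minpoly.aeval, mul_zero]

/-- An endomorphism with finite orbit is algebraic over `ℂ(X)`.

Proof. Let `n` be minimal such that `x ^ n` is a `K`-combination of the `x ^ i`, `i < n` (it exists, `End V` is
finite-dimensional): `x ^ n + ∑ i < n, a i • x ^ i = 0`, and the `x ^ i`, `i < n`, are independent. Apply
`S.bp j`: `S.bp j (x ^ i) = 0` (`fn_parallel`, `bp_mul`), so `∑ i < n, (D.δ j (a i)) • x ^ i = 0` (`bp_smul`) and
`D.δ j (a i) = 0` for all `j`. By `D.cst_frac` `ι (cX q_i) * a i = ι (cX p_i)`; multiply by the product of the `q_i`. -/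
theorem fn_alg (S : Sys D.toDField (VV B D)) (x : Module.End K (VV B D)) (hx : x ∈ S.fn) :
    ∃ P : ℂ[X][X], P ≠ 0 ∧ Polynomial.aeval x (P.map (D.ι.comp (cX k))) = 0 := by
  have hψ : Function.Injective (D.ι.comp (cX k)) := by
    intro a b hab
    exact cX_injective k (D.ι_inj hab)
  exact CTrA_alg S x (fun j => (fn_parallel S x hx j).1) (D.ι.comp (cX k)) hψ D.cst_frac

theorem CTrA_aeval {F : Type} [Field F] {V : Type} [AddCommGroup V] [Module F V]
    (f π : Module.End F V) (hc : f * π = π * f) (hi : π * π = π) (R : F[X]) :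
    (f * π) * Polynomial.aeval (f * π) R = f * Polynomial.aeval f R * π := by
  have hfp : ∀ n : ℕ, (f * π) ^ (n + 1) = f ^ (n + 1) * π := by
    intro n
    induction n with
    | zero => rw [zero_add, pow_one, pow_one]
    | succ n ih =>
      rw [pow_succ, ih, pow_succ f (n + 1)]
      have e : f ^ (n + 1) * π * (f * π) = f ^ (n + 1) * (f * (π * π)) := by
        rw [mul_assoc, ← mul_assoc π, ← hc, mul_assoc]
      rw [e, hi, mul_assoc]
  induction R using Polynomial.induction_on' with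
  | add p q hp hq => rw [map_add, mul_add, hp, hq, map_add, mul_add, add_mul]
  | monomial n a =>
    rw [Polynomial.aeval_monomial, Polynomial.aeval_monomial, ← Algebra.smul_def,
      ← Algebra.smul_def, mul_smul_comm, mul_smul_comm, smul_mul_assoc, ← pow_succ', hfp,
      ← pow_succ']

theorem CTrA_comm {F : Type} [Field F] {V : Type} [AddCommGroup V] [Module F V]
    (f π : Module.End F V) (P M : V → Prop) (hπ0 : ∀ v, P (π v)) (hπ1 : ∀ v, M (v - π v))
    (hπ : ∀ p q, P p → M q → π (p + q) = p) (hfP : ∀ v, P v → P (f v))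
    (hfM : ∀ v, M v → M (f v)) (h0 : M 0) : f * π = π * f ∧ π * π = π := by
  constructor
  · refine LinearMap.ext fun v => ?_
    show f (π v) = π (f v)
    have h3 := hπ (f (π v)) (f (v - π v)) (hfP _ (hπ0 v)) (hfM _ (hπ1 v))
    rw [← map_add, add_sub_cancel] at h3
    exact h3.symm
  · refine LinearMap.ext fun v => ?_
    show π (π v) = π v
    have h := hπ (π v) 0 (hπ0 v) h0
    rw [add_zero] at h
    exact h

theorem CTrA_hom {F F' : Type} [Field F] [Field F'] {V V' : Type} [AddCommGroup V] [Module F V]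
    [AddCommGroup V'] [Module F' V'] (Φ : Module.End F V →+* Module.End F' V') (up : F →+* F')
    (hΦ' : ∀ (f : F) x, Φ (f • x) = up f • Φ x) {A : Type} [CommRing A] (ψ : A →+* F) (P : A[X])
    (x : Module.End F V) :
    Polynomial.aeval (Φ x) (P.map (up.comp ψ)) = Φ (Polynomial.aeval x (P.map ψ)) := by
  induction P using Polynomial.induction_on' with
  | add p q hp hq => rw [Polynomial.map_add, Polynomial.map_add, map_add, map_add, map_add, hp, hq]
  | monomial n a =>
    rw [Polynomial.map_monomial, Polynomial.map_monomial, Polynomial.aeval_monomial,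
      Polynomial.aeval_monomial, ← Algebra.smul_def, ← Algebra.smul_def, hΦ', map_pow,
      RingHom.comp_apply]

/-- The trace on the decaying solutions is algebraic.

Proof. By `fn_DecP`, `fn_DecM` and `hπ` `Φ x * π = π * Φ x`, `π * π = π`. So `(Φ x * π) ^ (i + 1) = Φ (x ^ (i + 1)) * π`
and with `P` from `fn_alg`: `(X * P)` mapped by `up ∘ ι ∘ cX` kills `Φ x * π`: the value is
`Φ x * Φ (aeval x (P.map _)) * π = 0`. `trace_algebraic'` (`ψ := up ∘ ι ∘ cX` is injective: `cX_injective`,
`ι_inj`, field homomorphism). -/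
theorem trace_alg (S : Sys D.toDField (VV B D)) (hS : IsShift B D S)
    (Φ : Module.End K (VV B D) →+* Module.End (LS k) (Vi B D))
    (hΦ : ∀ x v, Φ x (jv B D v) = jv B D (x v))
    (hΦ' : ∀ (f : K) x, Φ (f • x) = D.up f • Φ x) (π : Module.End (LS k) (Vi B D))
    (hπ0 : ∀ v, DecP (k := k) (π v : Vi B D))
    (hπ1 : ∀ v, DecM (k := k) ((v - π v : Vi B D) : ℤ → LS k))
    (hπ : ∀ p q : Vi B D, DecP (p : ℤ → LS k) → DecM (q : ℤ → LS k) → π (p + q) = p)
    (x : Module.End K (VV B D)) (hx : x ∈ S.fn) :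
    ∃ Q : ℂ[X][X], Q ≠ 0 ∧
      Q.eval₂ (D.up.comp (D.ι.comp (cX k))) (LinearMap.trace (LS k) (Vi B D) (Φ x * π)) = 0 := by
  have hψ : Function.Injective (D.up.comp (D.ι.comp (cX k))) := by
    intro a b hab
    exact cX_injective k (D.ι_inj (D.up.injective hab))
  have hdec0 : DecM (((0 : Vi B D) : Vi B D) : ℤ → LS k) := by
    intro N
    refine ⟨0, fun n _ i _ => ?_⟩
    show (0 : LS k).coeff i = 0
    rfl
  obtain ⟨hc, hπ2⟩ := CTrA_comm (F := LS k) (V := Vi B D) (Φ x) π
    (fun v => DecP (v : ℤ → LS k)) (fun v => DecM (v : ℤ → LS k)) hπ0 hπ1 hπ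
    (fun v hv => fn_DecP B D S hS Φ hΦ x hx v hv)
    (fun v hv => fn_DecM B D S hS Φ hΦ x hx v hv) hdec0
  obtain ⟨P, hP, hPx⟩ := fn_alg B D S x hx
  refine trace_algebraic' (A := ℂ[X]) (K' := LS k) (V' := Vi B D)
    (D.up.comp (D.ι.comp (cX k))) hψ (Φ x * π) (Polynomial.X * P)
    (mul_ne_zero Polynomial.X_ne_zero hP) ?_
  rw [Polynomial.map_mul, Polynomial.map_X, map_mul, Polynomial.aeval_X]
  refine (CTrA_aeval (F := LS k) (V := Vi B D) (Φ x) π hc hπ2 _).trans ?_
  have h5 := CTrA_hom (F := K) (F' := LS k) (V := VV B D) (V' := Vi B D) Φ D.up hΦ'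
    (D.ι.comp (cX k)) P x
  rw [h5, hPx, map_zero, mul_zero, zero_mul]

end Pool.Agent.Wb5ab1bf
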