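import Mathlib

set_option autoImplicit false

/-!
# Casimir data (copy of W_b4801b_h32/Casimir.lean by helper32 and its workers, without algebraic closedness)

Theorem `exists_casimir`: let `L` be a finite-dimensional Lie algebra over the algebraically closed field
`K` of characteristic zero with trivial radical, `M` a finite-dimensional `L`-module.  There are
`x₁, …, x_r, y₁, …, y_r ∈ L` such that
(a) the tensor `∑ x_i ⊗ y_i` is invariant: `∑ β([z, x_i], y_i) + β(x_i, [z, y_i]) = 0` for all bilinear maps
    `β` on `L` and all `z ∈ L`;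
(b) `∑ tr_M (x_i y_i) = r`;
(c) if `r = 0` then `L` acts trivially on `M`.

Proof.  Let `I` be the kernel of `L → End M` (a Lie ideal) and `J` the orthogonal of `I` for the Killing
form (a Lie ideal, `LieIdeal.killingCompl`); the Killing form is nondegenerate
(`LieAlgebra.hasTrivialRadical_iff_isKilling`, Cartan).  `I ⊓ J`: the Killing form of `L` vanishes on it,
so it is a solvable ideal (`LieIdeal.isSolvable_of_killingForm_apply_lie_eq_zero` or Mathlib's results
on `killingCompl` in `Mathlib/Algebra/Lie/Killing.lean`), so it is `⊥`; by dimension `I ⊔ J = ⊤`.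
Let `B(x, y) = tr_M (x y)` (`LieModule.traceForm K L M`).  `B` is nondegenerate on `J`: the set `R` of the
`x ∈ J` with `B(x, y) = 0` for all `y ∈ J` is an ideal of `J`, and of `L` (`B` is invariant and `J` is an
ideal), `B` vanishes on `R`, and `R` acts faithfully on `M` as `R ⊓ I = ⊥`; by Cartan's criterion
(`LieAlgebra.isNilpotent_derivedSeries_of_traceForm_eq_zero`, in
`Mathlib/Algebra/Lie/CartanCriterion.lean`) `R` is solvable, so `R = ⊥`.
Let `x_i` be a basis of `J`, `y_i` the dual basis of `J` for `B`: `B(x_i, y_j) = δ_ij`.  (b) is clear, and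
(c): if `r = 0` then `J = ⊥`, `I = ⊤`.
(a): let `z ∈ L`, `[z, x_i] = ∑_j a_ij x_j`, `[z, y_i] = ∑_j b_ij y_j` (`J` is an ideal); then
`a_ij = B([z, x_i], y_j) = -B(x_i, [z, y_j]) = -b_ji`, so
`∑_i β([z, x_i], y_i) + β(x_i, [z, y_i]) = ∑ a_ij β(x_j, y_i) + b_ij β(x_i, y_j) = 0`.
-/

noncomputable section

namespace Pool.Agent.Wb5ab1bf

open LieAlgebra in
/-- An ideal on which the trace form of a module vanishes and which acts faithfully is solvable. -/
theorem Casimir_solvable (K : Type*) [Field K] [CharZero K] (L : Type*) [LieRing L]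
    [LieAlgebra K L] [FiniteDimensional K L] (M : Type*)
    [AddCommGroup M] [Module K M] [LieRingModule L M] [LieModule K L M] [FiniteDimensional K M]
    (R : LieIdeal K L) (hR : ∀ x ∈ R, ∀ y ∈ R, LieModule.traceForm K L M x y = 0)
    (hf : ∀ x ∈ R, (∀ m : M, ⁅x, m⁆ = 0) → x = 0) : IsSolvable R := by
  set DR : LieIdeal K L := ⁅R, R⁆ with hDR
  have tf_eq_zero : LieModule.traceForm K R M = 0 := by
    ext ⟨x, hx⟩ ⟨y, hy⟩
    exact hR x hx y hy
  have module_nilp : LieModule.IsNilpotent (derivedSeries K R 1) M :=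
    LieModule.isNilpotent_derivedSeries_of_traceForm_eq_zero tf_eq_zero
  have hDRle : DR ≤ R := LieSubmodule.lie_le_left R R
  have hxnil : ∀ x ∈ DR, IsNilpotent (LieModule.toEnd K L M x) := by
    intro x hx
    refine (LieModule.isNilpotent_iff_forall' (R := K)).mp module_nilp ⟨⟨x, hDRle hx⟩, ?_⟩
    rwa [LieIdeal.derivedSeries_eq_derivedSeriesOfIdeal_comap, LieIdeal.mem_comap]
  have ring_nilp : LieRing.IsNilpotent DR := by
    rw [LieAlgebra.isNilpotent_iff_forall (R := K)]
    rintro ⟨x, hx⟩
    set a : Module.End K M := LieModule.toEnd K L M x with ha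
    set A : Module.End K (Module.End K M) := LinearMap.mulLeft K a - LinearMap.mulRight K a with hA
    have hAnil : IsNilpotent A := by
      have hl : IsNilpotent (LinearMap.mulLeft K a) := by
        rw [LinearMap.isNilpotent_mulLeft_iff]; exact hxnil x hx
      have hr : IsNilpotent (LinearMap.mulRight K a) := by
        rw [LinearMap.isNilpotent_mulRight_iff]; exact hxnil x hx
      exact (LinearMap.commute_mulLeft_right a a).isNilpotent_sub hl hr
    obtain ⟨k, hk⟩ := hAnil
    refine ⟨k, ?_⟩
    have hpow : ∀ (j : ℕ) (y : DR),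
        LieModule.toEnd K L M ((((LieAlgebra.ad K DR ⟨x, hx⟩) ^ j) y : DR) : L) =
          (A ^ j) (LieModule.toEnd K L M (y : L)) := by
      intro j
      induction j with
      | zero => intro y; simp
      | succ j ih =>
        intro y
        rw [pow_succ, pow_succ, Module.End.mul_apply, Module.End.mul_apply, ih]
        congr 1
        ext m
        show ⁅⁅x, (y : L)⁆, m⁆ = ⁅x, ⁅(y : L), m⁆⁆ - ⁅(y : L), ⁅x, m⁆⁆
        rw [lie_lie]
    ext y
    have h1 := hpow k y
    rw [hk, LinearMap.zero_apply] at h1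
    have h2 : ((((LieAlgebra.ad K DR ⟨x, hx⟩) ^ k) y : DR) : L) = 0 := by
      apply hf _ (hDRle (((LieAlgebra.ad K DR ⟨x, hx⟩) ^ k) y).2)
      intro m
      have := congrArg (fun g : Module.End K M => g m) h1
      simpa using this
    rw [h2]
    simp
  obtain ⟨k, hk⟩ := IsSolvable.solvable K DR
  rw [LieIdeal.derivedSeries_eq_bot_iff] at hk
  refine IsSolvable.mk (k := k + 1) ((LieIdeal.derivedSeries_eq_bot_iff R (k + 1)).mpr ?_)
  rwa [derivedSeriesOfIdeal_add, derivedSeriesOfIdeal_succ,
    derivedSeriesOfIdeal_zero]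

theorem exists_casimir (K : Type*) [Field K] [CharZero K] (L : Type*) [LieRing L]
    [LieAlgebra K L] [FiniteDimensional K L] [LieAlgebra.HasTrivialRadical K L] (M : Type*)
    [AddCommGroup M] [Module K M] [LieRingModule L M] [LieModule K L M] [FiniteDimensional K M] :
    ∃ (r : ℕ) (x y : Fin r → L),
      (∀ (P : Type*) [AddCommGroup P] [Module K P] (β : L →ₗ[K] L →ₗ[K] P) (z : L),
        ∑ i, (β ⁅z, x i⁆ (y i) + β (x i) ⁅z, y i⁆) = 0) ∧
      (∑ i, LinearMap.trace K M (LieModule.toEnd K L M (x i) * LieModule.toEnd K L M (y i)) = r) ∧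
      (r = 0 → ∀ (z : L) (m : M), ⁅z, m⁆ = 0) := by
  classical
  set I : LieIdeal K L := LieModule.ker K L M with hI
  set J : LieIdeal K L := I.killingCompl with hJ
  have hcompl : IsCompl I J := I.isCompl_killingCompl
  set B := LieModule.traceForm K L M with hB
  set R : LieIdeal K L := J ⊓ LieAlgebra.InvariantForm.orthogonal B
    (LieModule.traceForm_lieInvariant K L M) J with hR
  have hRmem : ∀ x, x ∈ R ↔ x ∈ J ∧ ∀ y ∈ J, B y x = 0 := by
    intro x
    rw [hR, LieSubmodule.mem_inf, LieAlgebra.InvariantForm.mem_orthogonal]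
  have hRbot : R = ⊥ := by
    have hsol : LieAlgebra.IsSolvable R := by
      apply Casimir_solvable K L M R
      · intro x hx y hy
        exact ((hRmem y).mp hy).2 x ((hRmem x).mp hx).1
      · intro x hx hm
        have h1 : x ∈ I ⊓ J := ⟨(LieModule.mem_ker K L M x).mpr hm, ((hRmem x).mp hx).1⟩
        rw [hcompl.inf_eq_bot] at h1
        exact (LieSubmodule.mem_bot x).mp h1
    exact LieAlgebra.HasTrivialRadical.eq_bot_of_isSolvable R
  set BJ : LinearMap.BilinForm K J := B.restrict J.toSubmodule with hBJ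
  have hBJapp : ∀ x y : J, BJ x y = B (x : L) (y : L) := fun x y => rfl
  have hsymm : BJ.IsSymm := ⟨fun x y => by
    rw [hBJapp, hBJapp]
    exact LieModule.traceForm_comm K L M _ _⟩
  have hnd : BJ.Nondegenerate := by
    refine hsymm.isRefl.nondegenerate_iff_separatingLeft.mpr ?_
    intro x hx
    have h1 : (x : L) ∈ R := by
      rw [hRmem]
      refine ⟨x.2, fun y hy => ?_⟩
      rw [hB, LieModule.traceForm_comm]
      exact hx ⟨y, hy⟩
    rw [hRbot] at h1
    exact Subtype.ext ((LieSubmodule.mem_bot _).mp h1)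
  set b : Module.Basis (Fin (Module.finrank K J)) K J := Module.finBasis K J with hb
  set b' : Module.Basis (Fin (Module.finrank K J)) K J := BJ.dualBasis hnd b with hb'
  have hdual : ∀ i j, B ((b' i : J) : L) ((b j : J) : L) = if j = i then 1 else 0 := by
    intro i j
    exact LinearMap.BilinForm.apply_dualBasis_left hnd b i j
  -- expansions
  have hexp' : ∀ x : J, (x : L) = ∑ j, B (x : L) ((b j : J) : L) • ((b' j : J) : L) := by
    intro x
    have h1 := b'.sum_repr x
    have h2 : ∀ j, b'.repr x j = B (x : L) ((b j : J) : L) := fun j =>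
      LinearMap.BilinForm.dualBasis_repr_apply hnd b x j
    have h3 := congrArg J.toSubmodule.subtype h1
    rw [map_sum] at h3
    simp only [h2, map_smul] at h3
    exact h3.symm
  have hexp : ∀ x : J, (x : L) = ∑ j, B (x : L) ((b' j : J) : L) • ((b j : J) : L) := by
    intro x
    have h1 := b.sum_repr x
    have h2 : ∀ j, b.repr x j = B (x : L) ((b' j : J) : L) := by
      intro j
      conv_rhs => rw [← h1]
      have : (((∑ i, b.repr x i • b i : J)) : L) = ∑ i, b.repr x i • ((b i : J) : L) := by
        show J.toSubmodule.subtype _ = _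
        rw [map_sum]
        rfl
      rw [this, map_sum, LinearMap.sum_apply]
      simp only [map_smul, LinearMap.smul_apply, smul_eq_mul]
      have h4 : ∀ i, B ((b i : J) : L) ((b' j : J) : L) = if i = j then 1 else 0 := by
        intro i
        rw [hB, LieModule.traceForm_comm]
        exact hdual j i
      simp [h4]
    have h3 := congrArg J.toSubmodule.subtype h1
    rw [map_sum] at h3
    simp only [h2, map_smul] at h3
    exact h3.symm
  refine ⟨Module.finrank K J, fun i => ((b i : J) : L), fun i => ((b' i : J) : L), ?_, ?_, ?_⟩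
  · intro P _ _ β z
    have hz : ∀ x : J, ⁅z, (x : L)⁆ ∈ J := fun x => J.lie_mem x.2
    have h1 : ∀ i, β ⁅z, ((b i : J) : L)⁆ ((b' i : J) : L) =
        ∑ j, B ⁅z, ((b i : J) : L)⁆ ((b' j : J) : L) • β ((b j : J) : L) ((b' i : J) : L) := by
      intro i
      have h5 := hexp ⟨⁅z, ((b i : J) : L)⁆, hz _⟩
      have h6 : β ⁅z, ((b i : J) : L)⁆ ((b' i : J) : L) =
        β (∑ j, B ⁅z, ((b i : J) : L)⁆ ((b' j : J) : L) • ((b j : J) : L)) ((b' i : J) : L) :=
        congrArg (fun w => β w ((b' i : J) : L)) h5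
      rw [h6, map_sum, LinearMap.sum_apply]
      simp only [map_smul, LinearMap.smul_apply]
    have h2 : ∀ i, β ((b i : J) : L) ⁅z, ((b' i : J) : L)⁆ =
        ∑ j, B ⁅z, ((b' i : J) : L)⁆ ((b j : J) : L) • β ((b i : J) : L) ((b' j : J) : L) := by
      intro i
      have h5 := hexp' ⟨⁅z, ((b' i : J) : L)⁆, hz _⟩
      have h6 : β ((b i : J) : L) ⁅z, ((b' i : J) : L)⁆ = β ((b i : J) : L)
        (∑ j, B ⁅z, ((b' i : J) : L)⁆ ((b j : J) : L) • ((b' j : J) : L)) :=
        congrArg (fun w => β ((b i : J) : L) w) h5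
      rw [h6, map_sum]
      simp only [map_smul]
    rw [Finset.sum_add_distrib]
    simp only [h1, h2]
    rw [Finset.sum_comm, ← Finset.sum_add_distrib]
    apply Finset.sum_eq_zero
    intro i _
    rw [← Finset.sum_add_distrib]
    apply Finset.sum_eq_zero
    intro j _
    have h3 : B ⁅z, ((b j : J) : L)⁆ ((b' i : J) : L) =
        - B ⁅z, ((b' i : J) : L)⁆ ((b j : J) : L) := by
      rw [hB, LieModule.traceForm_apply_lie_apply', LieModule.traceForm_comm]
    rw [h3, neg_smul, neg_add_cancel]
  · have h1 : ∀ i, LinearMap.trace K M (LieModule.toEnd K L M ((b i : J) : L) *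
        LieModule.toEnd K L M ((b' i : J) : L)) = 1 := by
      intro i
      have h2 := hdual i i
      rw [if_pos rfl, hB, LieModule.traceForm_comm] at h2
      exact h2
    simp [h1]
  · intro h0 z m
    have hJ0 : J = ⊥ := by
      have h1 : Module.finrank K J.toSubmodule = 0 := h0
      rw [Submodule.finrank_eq_zero] at h1
      exact (LieSubmodule.toSubmodule_eq_bot J).mp h1
    have hIt : I = ⊤ := by
      have := hcompl.sup_eq_top
      rwa [hJ0, sup_bot_eq] at this
    have : z ∈ I := by rw [hIt]; exact LieSubmodule.mem_top z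
    exact (LieModule.mem_ker K L M z).mp this m

end Pool.Agent.Wb5ab1bf
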