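import Pool.Agent.W_b5ab1b_h80.Fin1
import Pool.Agent.W_b5ab1b_h80.Fin1b

/-!
# Hermitian matrices (helper80)
-/

set_option autoImplicit false

noncomputable section

open scoped Polynomial
open Pool.Agent.Wb5ab1b

namespace Pool.Agent.Wb5ab1bf

variable {ι : Type} [Fintype ι] [DecidableEq ι]

/-- The real matrix of size `2n` of a complex matrix of size `n`. -/
def dbl (A : Matrix ι ι ℂ) : Matrix (ι ⊕ ι) (ι ⊕ ι) ℝ :=
  Matrix.fromBlocks (A.map Complex.re) (-(A.map Complex.im)) (A.map Complex.im) (A.map Complex.re)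

theorem KMat_add (A B : Matrix ι ι ℂ) : dbl (A + B) = dbl A + dbl B := by
  unfold dbl
  rw [Matrix.fromBlocks_add]
  congr 1 <;> ext i j <;> simp <;> ring

theorem KMat_sub (A B : Matrix ι ι ℂ) : dbl (A - B) = dbl A - dbl B := by
  rw [eq_sub_iff_add_eq, ← KMat_add, sub_add_cancel]

theorem KMat_mul (A B : Matrix ι ι ℂ) : dbl (A * B) = dbl A * dbl B := by
  unfold dbl
  rw [Matrix.fromBlocks_multiply]
  congr 1
  · ext i j
    simp only [Matrix.map_apply, Matrix.mul_apply, Matrix.add_apply, Matrix.neg_apply,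
      Complex.re_sum, Complex.mul_re, Finset.sum_sub_distrib, neg_mul, Finset.sum_neg_distrib]
    ring
  · ext i j
    simp only [Matrix.map_apply, Matrix.mul_apply, Matrix.add_apply, Matrix.neg_apply,
      Complex.im_sum, Complex.mul_im, Finset.sum_add_distrib, neg_mul, mul_neg,
      Finset.sum_neg_distrib]
    ring
  · ext i j
    simp only [Matrix.map_apply, Matrix.mul_apply, Matrix.add_apply, Matrix.neg_apply,
      Complex.im_sum, Complex.mul_im, Finset.sum_add_distrib, neg_mul, mul_neg,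
      Finset.sum_neg_distrib]
    ring
  · ext i j
    simp only [Matrix.map_apply, Matrix.mul_apply, Matrix.add_apply, Matrix.neg_apply,
      Complex.re_sum, Complex.mul_re, Finset.sum_sub_distrib, neg_mul, mul_neg,
      Finset.sum_neg_distrib]
    ring

theorem KMat_alg (r : ℝ) : dbl (algebraMap ℝ (Matrix ι ι ℂ) r) =
    algebraMap ℝ (Matrix (ι ⊕ ι) (ι ⊕ ι) ℝ) r := by
  unfold dbl
  ext a b
  rw [Matrix.algebraMap_matrix_apply]
  rcases a with i | i <;> rcases b with j | j
  · rw [Matrix.fromBlocks_apply₁₁, Matrix.map_apply, Matrix.algebraMap_matrix_apply]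
    by_cases h : i = j <;> simp [h]
  · rw [Matrix.fromBlocks_apply₁₂, Matrix.neg_apply, Matrix.map_apply,
      Matrix.algebraMap_matrix_apply]
    by_cases h : i = j <;> simp [h]
  · rw [Matrix.fromBlocks_apply₂₁, Matrix.map_apply, Matrix.algebraMap_matrix_apply]
    by_cases h : i = j <;> simp [h]
  · rw [Matrix.fromBlocks_apply₂₂, Matrix.map_apply, Matrix.algebraMap_matrix_apply]
    by_cases h : i = j <;> simp [h]

/-- `dbl` as a homomorphism of real algebras -/
def KMat_hom (ι : Type) [Fintype ι] [DecidableEq ι] :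
    Matrix ι ι ℂ →ₐ[ℝ] Matrix (ι ⊕ ι) (ι ⊕ ι) ℝ where
  toFun := dbl
  map_one' := by
    have h := KMat_alg (ι := ι) 1
    rwa [map_one, map_one] at h
  map_mul' := KMat_mul
  map_zero' := by
    have h := KMat_alg (ι := ι) 0
    rwa [map_zero, map_zero] at h
  map_add' := KMat_add
  commutes' := KMat_alg

/-- the complex vector of a real vector -/
def KMat_Phi (ι : Type) : (ι ⊕ ι → ℝ) →ₗ[ℝ] (ι → ℂ) where
  toFun x := fun i => (⟨x (Sum.inl i), x (Sum.inr i)⟩ : ℂ)
  map_add' x y := by
    funext i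
    apply Complex.ext <;> simp
  map_smul' c x := by
    funext i
    apply Complex.ext <;> simp

theorem KMat_Phi_apply (x : ι ⊕ ι → ℝ) (i : ι) :
    KMat_Phi ι x i = (⟨x (Sum.inl i), x (Sum.inr i)⟩ : ℂ) := rfl

theorem KMat_Phi_inj : Function.Injective (KMat_Phi ι) := by
  intro x y h
  funext a
  rcases a with i | i
  · exact congrArg Complex.re (congrFun h i)
  · exact congrArg Complex.im (congrFun h i)

theorem KMat_Phi_mulVec (A : Matrix ι ι ℂ) (x : ι ⊕ ι → ℝ) :
    KMat_Phi ι ((dbl A).mulVec x) = A.mulVec (KMat_Phi ι x) := by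
  unfold dbl
  rw [Matrix.fromBlocks_mulVec]
  funext i
  rw [KMat_Phi_apply]
  apply Complex.ext
  · simp only [Sum.elim_inl, Pi.add_apply, Matrix.mulVec, dotProduct, Matrix.map_apply,
      Matrix.neg_apply, Function.comp_apply, Complex.re_sum, Complex.mul_re, KMat_Phi_apply,
      Finset.sum_sub_distrib, neg_mul, Finset.sum_neg_distrib]
    ring
  · simp only [Sum.elim_inr, Pi.add_apply, Matrix.mulVec, dotProduct, Matrix.map_apply,
      Function.comp_apply, Complex.im_sum, Complex.mul_im, KMat_Phi_apply,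
      Finset.sum_add_distrib]
    ring

theorem KMat_Phi_dot (x y : ι ⊕ ι → ℝ) :
    dotProduct x y = (dotProduct (star (KMat_Phi ι x)) (KMat_Phi ι y)).re := by
  unfold dotProduct
  rw [Fintype.sum_sum_type, Complex.re_sum, ← Finset.sum_add_distrib]
  refine Finset.sum_congr rfl fun i _ => ?_
  rw [Pi.star_apply, KMat_Phi_apply, KMat_Phi_apply, Complex.star_def, Complex.mul_re,
    Complex.conj_re, Complex.conj_im]
  ring

/-- `dbl` is compatible with polynomials: it is additive, real linear, multiplicative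
(`Matrix.fromBlocks_multiply`) and maps `1` to `1`. -/
theorem dbl_aeval (A : Matrix ι ι ℂ) (Q : ℝ[X]) :
    dbl (Polynomial.aeval A Q) = Polynomial.aeval (dbl A) Q :=
  (Polynomial.aeval_algHom_apply (KMat_hom ι) A Q).symm

theorem dbl_trace (A : Matrix ι ι ℂ) : (dbl A).trace = 2 * A.trace.re := by
  unfold dbl Matrix.trace
  rw [Fintype.sum_sum_type, Complex.re_sum]
  simp only [Matrix.diag_apply, Matrix.fromBlocks_apply₁₁, Matrix.fromBlocks_apply₂₂,
    Matrix.map_apply]
  ring

theorem dbl_herm (A : Matrix ι ι ℂ) (hA : A.IsHermitian) : (dbl A).IsHermitian := by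
  have h : ∀ i j, (A j i).re = (A i j).re ∧ -(A j i).im = (A i j).im := by
    intro i j
    have h1 := hA.apply i j
    rw [← h1]
    simp
  refine Matrix.IsHermitian.ext fun a b => ?_
  rw [star_trivial]
  unfold dbl
  rcases a with i | i <;> rcases b with j | j
  · rw [Matrix.fromBlocks_apply₁₁, Matrix.fromBlocks_apply₁₁, Matrix.map_apply, Matrix.map_apply]
    exact (h i j).1
  · rw [Matrix.fromBlocks_apply₂₁, Matrix.fromBlocks_apply₁₂, Matrix.neg_apply, Matrix.map_apply,
      Matrix.map_apply]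
    have := (h i j).2
    linarith
  · rw [Matrix.fromBlocks_apply₁₂, Matrix.fromBlocks_apply₂₁, Matrix.neg_apply, Matrix.map_apply,
      Matrix.map_apply]
    exact (h i j).2
  · rw [Matrix.fromBlocks_apply₂₂, Matrix.fromBlocks_apply₂₂, Matrix.map_apply, Matrix.map_apply]
    exact (h i j).1

/-- The rank: `(dbl A).mulVec (x, y)` corresponds to `A.mulVec (x + i y)`; the range of `dbl A` is the range of
`A`, of real dimension `2 * rank A`. (Or: `A = U * V` with `U : ι × rank`, `V : rank × ι` and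
`dbl A = dbl' U * dbl' V`.) -/
theorem dbl_rank (A : Matrix ι ι ℂ) : (dbl A).rank ≤ 2 * A.rank := by
  unfold Matrix.rank
  rw [← finrank_real_of_complex]
  let L : LinearMap.range (dbl A).mulVecLin →ₗ[ℝ] LinearMap.range A.mulVecLin :=
    { toFun := fun y => ⟨KMat_Phi ι y, by
        obtain ⟨y, x, rfl⟩ := y
        exact ⟨KMat_Phi ι x, (KMat_Phi_mulVec A x).symm⟩⟩
      map_add' := fun y z => Subtype.ext (map_add (KMat_Phi ι) _ _)
      map_smul' := fun c y => Subtype.ext (map_smul (KMat_Phi ι) _ _) }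
  have hL : Function.Injective L := by
    intro y z h
    exact Subtype.ext (KMat_Phi_inj (congrArg Subtype.val h))
  haveI : Module.Finite ℝ (LinearMap.range A.mulVecLin) :=
    Module.Finite.trans ℂ (LinearMap.range A.mulVecLin)
  exact LinearMap.finrank_le_finrank_of_injective hL

/-- The quadratic form: `⟨(x, y), dbl A (x, y)⟩ = re ⟨x + i y, A (x + i y)⟩`. -/
theorem dbl_quad (A : Matrix ι ι ℂ) (x : ι ⊕ ι → ℝ) :
    dotProduct x ((dbl A).mulVec x) =
      (dotProduct (star fun i => (⟨x (Sum.inl i), x (Sum.inr i)⟩ : ℂ))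
        (A.mulVec fun i => (⟨x (Sum.inl i), x (Sum.inr i)⟩ : ℂ))).re := by
  rw [KMat_Phi_dot, KMat_Phi_mulVec]
  rfl

/-- The trace of a polynomial in a Hermitian matrix is real: `aeval A Q` is Hermitian. -/
theorem herm_aeval (A : Matrix ι ι ℂ) (hA : A.IsHermitian) (Q : ℝ[X]) :
    (Polynomial.aeval A Q).IsHermitian := by
  induction Q using Polynomial.induction_on' with
  | add p q hp hq =>
    rw [map_add]
    exact hp.add hq
  | monomial k a =>
    rw [Polynomial.aeval_monomial, ← Algebra.smul_def]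
    exact (hA.pow k).smul (IsSelfAdjoint.all a)

theorem KMat_trace_im (A : Matrix ι ι ℂ) (hA : A.IsHermitian) : A.trace.im = 0 := by
  have h := Matrix.trace_conjTranspose A
  rw [hA.eq] at h
  exact Complex.conj_eq_iff_im.1 h.symm

theorem KMat_bd (A : Matrix ι ι ℂ) (M : ℝ)
    (hAM : ∀ x : ι → ℂ, ‖dotProduct (star x) (A.mulVec x)‖ ≤ M * ∑ i, ‖x i‖ ^ 2)
    (x : ι ⊕ ι → ℝ) : |dotProduct x ((dbl A).mulVec x)| ≤ M * dotProduct x x := by
  rw [KMat_Phi_dot, KMat_Phi_mulVec]
  refine (Complex.abs_re_le_norm _).trans ((hAM _).trans (le_of_eq ?_))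
  congr 1
  unfold dotProduct
  rw [Fintype.sum_sum_type, ← Finset.sum_add_distrib]
  refine Finset.sum_congr rfl fun i _ => ?_
  rw [← Complex.normSq_eq_norm_sq, Complex.normSq_apply, KMat_Phi_apply]

/-- **Trace inequality for Hermitian matrices.**

Proof. `trace_poly_sub_le` for `dbl A`, `dbl B`, rank at most `2 r` (`dbl_rank`, `dbl` is additive):
`|2 re (trace (Q A) - trace (Q B))| ≤ 2 r * nrm M Q'`, and the traces are real (`herm_aeval`). -/
theorem herm_trace_le (A B : Matrix ι ι ℂ) (hA : A.IsHermitian) (hB : B.IsHermitian) (M : ℝ)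
    (hAM : ∀ x : ι → ℂ, ‖dotProduct (star x) (A.mulVec x)‖ ≤ M * ∑ i, ‖x i‖ ^ 2)
    (hBM : ∀ x : ι → ℂ, ‖dotProduct (star x) (B.mulVec x)‖ ≤ M * ∑ i, ‖x i‖ ^ 2)
    (r : ℕ) (hr : (A - B).rank ≤ r) (Q : ℝ[X]) :
    ‖(Polynomial.aeval A Q).trace - (Polynomial.aeval B Q).trace‖ ≤ r * nrm M Q.derivative := by
  have h1 := trace_poly_sub_le (dbl A) (dbl B) (dbl_herm A hA) (dbl_herm B hB) M
    (KMat_bd A M hAM) (KMat_bd B M hBM) (2 * r) (by
      rw [← KMat_sub]
      exact (dbl_rank _).trans (by omega)) Q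
  rw [← dbl_aeval, ← dbl_aeval, dbl_trace, dbl_trace] at h1
  have h2 := KMat_trace_im _ (herm_aeval A hA Q)
  have h3 := KMat_trace_im _ (herm_aeval B hB Q)
  have h4 : ‖(Polynomial.aeval A Q).trace - (Polynomial.aeval B Q).trace‖ =
      |(Polynomial.aeval A Q).trace.re - (Polynomial.aeval B Q).trace.re| := by
    have h5 : (Polynomial.aeval A Q).trace - (Polynomial.aeval B Q).trace =
        (((Polynomial.aeval A Q).trace.re - (Polynomial.aeval B Q).trace.re : ℝ) : ℂ) := by
      apply Complex.ext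
      · simp
      · rw [Complex.sub_im, h2, h3, Complex.ofReal_im, sub_zero]
    rw [h5, Complex.norm_real, Real.norm_eq_abs]
  rw [h4]
  rw [← mul_sub, abs_mul, abs_of_pos (by norm_num : (0 : ℝ) < 2)] at h1
  push_cast at h1
  linarith

/-- **Positivity of the functional calculus.**

Proof. The spectral theorem for `A` (`Matrix.IsHermitian.spectral_theorem`): the value is
`∑ i, q (λ i) * ‖(U* x) i‖ ^ 2` with `λ i ∈ [-M, M]` (`hAM` for the eigenvectors). Compare
`diag_poly_nonneg` and `Fin1b_eig` in `Pool/Agent/W_b5ab1b_h80/Fin1b.lean`; or use them for `dbl A` and the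
vector of real and imaginary parts (there the diagonal entries are treated; a quadratic form is treated in the same
way). -/
theorem herm_quad_nonneg (A : Matrix ι ι ℂ) (hA : A.IsHermitian) (M : ℝ)
    (hAM : ∀ x : ι → ℂ, ‖dotProduct (star x) (A.mulVec x)‖ ≤ M * ∑ i, ‖x i‖ ^ 2)
    (q : ℝ[X]) (hq : ∀ t ∈ Set.Icc (-M) M, 0 ≤ q.eval t) (x : ι → ℂ) :
    0 ≤ (dotProduct (star x) ((Polynomial.aeval A q).mulVec x)).re ∧
      (dotProduct (star x) ((Polynomial.aeval A q).mulVec x)).im = 0 := by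
  refine ⟨?_, (herm_aeval A hA q).im_star_dotProduct_mulVec_self x⟩
  set w : ι ⊕ ι → ℝ := Sum.elim (fun i => (x i).re) (fun i => (x i).im) with hw
  have hx : KMat_Phi ι w = x := by
    funext i
    rw [KMat_Phi_apply, hw, Sum.elim_inl, Sum.elim_inr]
  have h1 : (dotProduct (star x) ((Polynomial.aeval A q).mulVec x)).re =
      dotProduct w ((Polynomial.aeval (dbl A) q).mulVec w) := by
    rw [KMat_Phi_dot w, ← dbl_aeval, KMat_Phi_mulVec, hx]
  rw [h1]
  obtain ⟨l, U, h2, h3, eA⟩ := Fin1_diag (dbl A) (dbl_herm A hA)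
  have hb : ∀ i, |l i| ≤ M := Fin1_bd U l h2 h3 M (by rw [← eA]; exact KMat_bd A M hAM)
  rw [eA, Fin1_aeval U l h2 h3, Fin1_quad]
  refine Finset.sum_nonneg fun i _ => ?_
  exact mul_nonneg (hq _ (abs_le.1 (hb i))) (sq_nonneg _)

/-- A matrix with all entries outside the rows and columns of `S` equal to `0` has rank at most
`2 * card S`. See `GFin_rank` in `Pool/Agent/W_b5ab1b_h80/GFin.lean` (real matrices, same proof). -/
theorem rank_le_rows (A : Matrix ι ι ℂ) (S : Finset ι) (h : ∀ x y, x ∉ S → y ∉ S → A x y = 0) :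
    A.rank ≤ 2 * S.card := by
  have h1 : A = (Matrix.of fun (x : ι) (k : S ⊕ S) =>
      (Sum.elim (fun k : S => if x = (k : ι) then (1 : ℂ) else 0)
        (fun k : S => if x ∈ S then (0 : ℂ) else A x k) k)) *
      (Matrix.of fun (k : S ⊕ S) (y : ι) =>
        (Sum.elim (fun k : S => A k y) (fun k : S => if y = (k : ι) then (1 : ℂ) else 0) k)) := by
    ext x y
    rw [Matrix.mul_apply, Fintype.sum_sum_type]
    simp only [Matrix.of_apply, Sum.elim_inl, Sum.elim_inr]
    rw [Finset.sum_coe_sort S (fun k => (if x = k then (1 : ℂ) else 0) * A k y),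
      Finset.sum_coe_sort S (fun k => (if x ∈ S then (0 : ℂ) else A x k) *
        (if y = k then (1 : ℂ) else 0))]
    simp only [ite_mul, one_mul, zero_mul, mul_ite, mul_one, mul_zero]
    rw [Finset.sum_ite_eq, Finset.sum_ite_eq]
    by_cases hx : x ∈ S
    · simp [hx]
    · by_cases hy : y ∈ S
      · simp [hx, hy]
      · simp [hx, hy, h x y hx hy]
  rw [h1]
  refine (Matrix.rank_mul_le_left _ _).trans ?_
  refine (Matrix.rank_le_card_width _).trans (le_of_eq ?_)
  rw [Fintype.card_sum, Fintype.card_coe]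
  ring

end Pool.Agent.Wb5ab1bf
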