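import Pool.Agent.W_b5ab1bf_h80.BBnd
import Pool.Agent.W_b5ab1bf_h80.KMat

/-!
# Truncations of Hermitian band matrices (helper80)
-/

set_option autoImplicit false

noncomputable section

open scoped Polynomial
open Pool.Agent.Wb5ab1b

namespace Pool.Agent.Wb5ab1bf

/-- The truncation to `[-N, N]`. -/
def Tc (w : ℕ) (H : ℤ → ℤ → ℂ) (N : ℕ) :
    Matrix (Finset.Icc (-(N : ℤ)) N) (Finset.Icc (-(N : ℤ)) N) ℂ :=
  fun a b => if |(b : ℤ) - (a : ℤ)| ≤ w then H a b else 0

/-- Hermitian with row sums at most `M`. -/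
def HB (w : ℕ) (H : ℤ → ℤ → ℂ) (M : ℝ) : Prop :=
  (∀ a b, H b a = (starRingEnd ℂ) (H a b)) ∧
    ∀ a : ℤ, ∑ b ∈ Finset.Icc (a - w) (a + w), ‖H a b‖ ≤ M

theorem Tc_herm (w : ℕ) (H : ℤ → ℤ → ℂ) (M : ℝ) (h : HB w H M) (N : ℕ) :
    (Tc w H N).IsHermitian := by
  ext a b
  rw [Matrix.conjTranspose_apply]
  unfold Tc
  rw [abs_sub_comm]
  split_ifs with hab
  · rw [h.1 a b]
    exact Complex.conj_conj _
  · exact star_zero _

/-- A row sum of the truncation. -/
theorem KTrn_row (w : ℕ) (H : ℤ → ℤ → ℂ) (M : ℝ) (h : HB w H M) (N : ℕ)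
    (a : Finset.Icc (-(N : ℤ)) N) : ∑ b, ‖Tc w H N a b‖ ≤ M := by
  have h1 : ∑ b, ‖Tc w H N a b‖ =
      ∑ b ∈ Finset.Icc (-(N : ℤ)) N, if |b - (a : ℤ)| ≤ w then ‖H a b‖ else 0 := by
    rw [← Finset.sum_coe_sort (Finset.Icc (-(N : ℤ)) N)
      (fun b => if |b - (a : ℤ)| ≤ w then ‖H a b‖ else 0)]
    refine Finset.sum_congr rfl fun b _ => ?_
    unfold Tc
    split_ifs
    · rfl
    · exact norm_zero
  rw [h1, ← Finset.sum_filter]
  refine le_trans (Finset.sum_le_sum_of_subset_of_nonneg ?_ fun _ _ _ => norm_nonneg _) (h.2 a)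
  intro b hb
  rw [Finset.mem_filter, abs_le] at hb
  rw [Finset.mem_Icc]
  omega

/-- Schur test: `|∑ conj (x a) H a b x b| ≤ ∑ ‖H a b‖ (‖x a‖ ^ 2 + ‖x b‖ ^ 2) / 2 ≤ M ∑ ‖x a‖ ^ 2` by symmetry of
`‖H a b‖`. -/
theorem Tc_bound (w : ℕ) (H : ℤ → ℤ → ℂ) (M : ℝ) (h : HB w H M) (N : ℕ)
    (x : Finset.Icc (-(N : ℤ)) N → ℂ) :
    ‖dotProduct (star x) ((Tc w H N).mulVec x)‖ ≤ M * ∑ i, ‖x i‖ ^ 2 := by
  set A := Tc w H N with hA
  have hsym : ∀ a b, ‖A a b‖ = ‖A b a‖ := by
    intro a b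
    have h1 := congrFun (congrFun (Tc_herm w H M h N) a) b
    rw [Matrix.conjTranspose_apply] at h1
    rw [hA, ← h1]
    exact norm_star _
  have h1 : ‖dotProduct (star x) (A.mulVec x)‖ ≤
      ∑ a, ∑ b, (‖A a b‖ * ‖x a‖ ^ 2 / 2 + ‖A a b‖ * ‖x b‖ ^ 2 / 2) := by
    unfold dotProduct Matrix.mulVec dotProduct
    refine (norm_sum_le _ _).trans (Finset.sum_le_sum fun a _ => ?_)
    rw [norm_mul, Pi.star_apply, norm_star]
    refine (mul_le_mul_of_nonneg_left (norm_sum_le _ _) (norm_nonneg _)).trans ?_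
    rw [Finset.mul_sum]
    refine Finset.sum_le_sum fun b _ => ?_
    rw [norm_mul]
    have h2 := norm_nonneg (A a b)
    nlinarith [mul_nonneg h2 (sq_nonneg (‖x a‖ - ‖x b‖))]
  refine h1.trans ?_
  have h2 : ∑ a, ∑ b, (‖A a b‖ * ‖x a‖ ^ 2 / 2 + ‖A a b‖ * ‖x b‖ ^ 2 / 2) =
      ∑ a, (∑ b, ‖A a b‖) * ‖x a‖ ^ 2 := by
    simp only [Finset.sum_add_distrib]
    have h3 : ∑ a, ∑ b, ‖A a b‖ * ‖x b‖ ^ 2 / 2 = ∑ a, ∑ b, ‖A a b‖ * ‖x a‖ ^ 2 / 2 := by
      rw [Finset.sum_comm]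
      refine Finset.sum_congr rfl fun b _ => Finset.sum_congr rfl fun a _ => ?_
      rw [hsym]
    rw [h3, ← Finset.sum_add_distrib]
    refine Finset.sum_congr rfl fun a _ => ?_
    rw [← Finset.sum_add_distrib, Finset.sum_mul]
    refine Finset.sum_congr rfl fun b _ => ?_
    ring
  rw [h2, Finset.mul_sum]
  exact Finset.sum_le_sum fun a _ =>
    mul_le_mul_of_nonneg_right (KTrn_row w H M h N a) (sq_nonneg _)

/-- Far from the boundary the powers coincide: induction on `n` with `pow_succ'` and `bpw_succ`. -/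
theorem Tc_pow (w : ℕ) (H : ℤ → ℤ → ℂ) (N n : ℕ) (a b : Finset.Icc (-(N : ℤ)) N)
    (ha : |(a : ℤ)| + n * w ≤ N) : ((Tc w H N) ^ n) a b = bpw w H n a b := by
  induction n generalizing a with
  | zero =>
    rw [pow_zero, bpw_zero, Matrix.one_apply]
    by_cases hab : a = b
    · rw [if_pos hab, if_pos (by rw [hab])]
    · rw [if_neg hab, if_neg fun h => hab (Subtype.ext h)]
  | succ n ih =>
    have hnw : (0 : ℤ) ≤ (n : ℤ) * w := by positivity
    have h5 : ((n : ℤ) + 1) * w = n * w + w := by ring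
    push_cast at ha
    rw [h5] at ha
    rw [pow_succ', Matrix.mul_apply, bpw_succ]
    have h1 : ∀ c : Finset.Icc (-(N : ℤ)) N, Tc w H N a c * ((Tc w H N) ^ n) c b =
        if |(c : ℤ) - (a : ℤ)| ≤ w then H a c * bpw w H n c b else 0 := by
      intro c
      unfold Tc
      split_ifs with hc
      · have h2 : |(c : ℤ)| ≤ |(c : ℤ) - a| + |(a : ℤ)| := by
          have := abs_add_le ((c : ℤ) - a) a
          rwa [sub_add_cancel] at this
        rw [← ih c (by omega)]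
        rfl
      · rw [zero_mul]
    rw [Finset.sum_congr rfl fun c _ => h1 c,
      Finset.sum_coe_sort (Finset.Icc (-(N : ℤ)) N)
        (fun c => if |c - (a : ℤ)| ≤ w then H a c * bpw w H n c b else 0), ← Finset.sum_filter]
    refine Finset.sum_congr ?_ fun _ _ => rfl
    ext c
    rw [Finset.mem_filter, Finset.mem_Icc, Finset.mem_Icc, abs_le]
    have h3 := neg_abs_le (a : ℤ)
    have h4 := le_abs_self (a : ℤ)
    constructor
    · rintro ⟨h6, h7⟩
      omega
    · intro h6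
      omega

theorem KTrn_bent (w : ℕ) (H : ℤ → ℤ → ℂ) (q : ℝ[X]) (a b : ℤ) :
    bent w H a b (q.map (algebraMap ℝ ℂ)) =
      ∑ j ∈ Finset.range (q.natDegree + 1), (q.coeff j : ℂ) * bpw w H j a b := by
  rw [bent_eq_sum, Polynomial.sum_over_range' _ (fun j => by rw [zero_mul]) (q.natDegree + 1)
    (Nat.lt_succ_of_le Polynomial.natDegree_map_le)]
  refine Finset.sum_congr rfl fun j _ => ?_
  rw [Polynomial.coeff_map]
  rfl

theorem KTrn_aeval {ι : Type} [Fintype ι] [DecidableEq ι] (A : Matrix ι ι ℂ) (q : ℝ[X]) (a b : ι) :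
    (Polynomial.aeval A q) a b =
      ∑ j ∈ Finset.range (q.natDegree + 1), (q.coeff j : ℂ) * (A ^ j) a b := by
  rw [Polynomial.aeval_eq_sum_range, Matrix.sum_apply]
  refine Finset.sum_congr rfl fun j _ => ?_
  rw [Matrix.smul_apply, Complex.real_smul]

/-- The same for polynomials: `bent_eq_sum`. -/
theorem Tc_aeval (w : ℕ) (H : ℤ → ℤ → ℂ) (N : ℕ) (q : ℝ[X]) (a b : Finset.Icc (-(N : ℤ)) N)
    (ha : |(a : ℤ)| + q.natDegree * w ≤ N) :
    (Polynomial.aeval (Tc w H N) q) a b = bent w H a b (q.map (algebraMap ℝ ℂ)) := by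
  rw [KTrn_bent, KTrn_aeval]
  refine Finset.sum_congr rfl fun j hj => ?_
  rw [Finset.mem_range] at hj
  rw [Tc_pow w H N j a b]
  have h1 : (j : ℤ) * w ≤ (q.natDegree : ℤ) * w :=
    mul_le_mul_of_nonneg_right (by omega) (by positivity)
  omega

/-- Positivity of the entries of polynomials in a Hermitian band matrix. From `herm_quad_nonneg` for a large
truncation and the vector `x` restricted to `s` (extended by `0`), `Tc_aeval`. -/
theorem quad_nonneg (w : ℕ) (H : ℤ → ℤ → ℂ) (M : ℝ) (h : HB w H M) (s : Finset ℤ) (x : ℤ → ℂ)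
    (q : ℝ[X]) (hq : ∀ t ∈ Set.Icc (-M) M, 0 ≤ q.eval t) :
    0 ≤ (∑ a ∈ s, ∑ b ∈ s, (starRingEnd ℂ) (x a) * x b *
      bent w H a b (q.map (algebraMap ℝ ℂ))).re := by
  classical
  obtain ⟨B, hB⟩ : ∃ B : ℤ, ∀ a ∈ s, |a| ≤ B := by
    have hf : ((fun j : ℤ => |j|) '' (s : Set ℤ)).Finite := s.finite_toSet.image _
    obtain ⟨B, hB⟩ := hf.bddAbove
    exact ⟨B, fun j hj => hB ⟨j, hj, rfl⟩⟩
  have hdw : (0 : ℤ) ≤ (q.natDegree : ℤ) * w := by positivity
  obtain ⟨N, hN⟩ : ∃ N : ℕ, B + q.natDegree * w ≤ (N : ℤ) :=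
    ⟨(B + q.natDegree * w).toNat, Int.self_le_toNat _⟩
  set y : Finset.Icc (-(N : ℤ)) N → ℂ := fun a => if (a : ℤ) ∈ s then x a else 0 with hy
  have h1 := (herm_quad_nonneg (Tc w H N) (Tc_herm w H M h N) M (Tc_bound w H M h N) q hq y).1
  have h2 : dotProduct (star y) ((Polynomial.aeval (Tc w H N) q).mulVec y) =
      ∑ a ∈ s, ∑ b ∈ s, (starRingEnd ℂ) (x a) * x b * bent w H a b (q.map (algebraMap ℝ ℂ)) := by
    have hsub : s ⊆ Finset.Icc (-(N : ℤ)) N := by
      intro a ha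
      have h3 := hB a ha
      rw [abs_le] at h3
      rw [Finset.mem_Icc]
      omega
    have e1 : ∀ (f : ℤ → ℂ), ∑ a : Finset.Icc (-(N : ℤ)) N, (if (a : ℤ) ∈ s then f a else 0) =
        ∑ a ∈ s, f a := by
      intro f
      rw [Finset.sum_coe_sort (Finset.Icc (-(N : ℤ)) N) (fun a => if a ∈ s then f a else 0),
        ← Finset.sum_filter]
      refine Finset.sum_congr ?_ fun _ _ => rfl
      ext a
      rw [Finset.mem_filter]
      exact ⟨fun h => h.2, fun h => ⟨hsub h, h⟩⟩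
    have e2 : ∀ a : Finset.Icc (-(N : ℤ)) N, (a : ℤ) ∈ s →
        (Polynomial.aeval (Tc w H N) q).mulVec y a =
        ∑ b ∈ s, x b * bent w H a b (q.map (algebraMap ℝ ℂ)) := by
      intro a ha
      rw [← e1]
      unfold Matrix.mulVec dotProduct
      refine Finset.sum_congr rfl fun b _ => ?_
      simp only [hy]
      split_ifs with hb
      · rw [Tc_aeval w H N q a b, mul_comm]
        have h3 := hB a ha
        omega
      · rw [mul_zero]
    rw [← e1]
    unfold dotProduct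
    refine Finset.sum_congr rfl fun a _ => ?_
    split_ifs with ha
    · rw [e2 a ha, Pi.star_apply, Finset.mul_sum]
      refine Finset.sum_congr rfl fun b _ => ?_
      simp only [hy, if_pos ha]
      rw [← mul_assoc]
      rfl
    · simp only [Pi.star_apply, hy, if_neg ha, star_zero, zero_mul]
  rw [h2] at h1
  exact h1

/-- Real polynomials in a Hermitian matrix have Hermitian entries: induction, `bpw_succ`, `bpw_succ'`. -/
theorem bpw_conj (w : ℕ) (H : ℤ → ℤ → ℂ) (M : ℝ) (h : HB w H M) (n : ℕ) (a b : ℤ) :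
    bpw w H n b a = (starRingEnd ℂ) (bpw w H n a b) := by
  rw [bpw_map]
  have h1 : (fun x y => (starRingEnd ℂ) (H x y)) = fun x y => H y x := by
    funext x y
    exact (h.1 x y).symm
  rw [h1]
  exact (bpw_transpose w H n b a).symm

theorem KTrn_pow (w : ℕ) (H H' : ℤ → ℤ → ℂ) (n₀ : ℤ) (r : ℕ)
    (heq : ∀ a b, a ∉ Finset.Icc (n₀ - r) (n₀ + r) → H' a b = H a b) (N j : ℕ) :
    ∀ (x y : Finset.Icc (-(N : ℤ)) N), (r : ℤ) + j * w < |(x : ℤ) - n₀| →
      ((Tc w H N) ^ j) x y = ((Tc w H' N) ^ j) x y := by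
  induction j with
  | zero =>
    intro x y _
    rw [pow_zero, pow_zero]
  | succ j ih =>
    intro x y hx
    push_cast at hx
    have h5 : ((j : ℤ) + 1) * w = j * w + w := by ring
    have hjw : (0 : ℤ) ≤ (j : ℤ) * w := by positivity
    rw [h5] at hx
    rw [pow_succ', pow_succ', Matrix.mul_apply, Matrix.mul_apply]
    refine Finset.sum_congr rfl fun c _ => ?_
    by_cases hc : |(c : ℤ) - (x : ℤ)| ≤ w
    · rw [ih c y]
      · congr 1
        unfold Tc
        rw [if_pos hc, if_pos hc, heq]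
        rw [Finset.mem_Icc]
        rw [lt_abs] at hx
        omega
      · have h2 : |(x : ℤ) - n₀| ≤ |(x : ℤ) - c| + |(c : ℤ) - n₀| := abs_sub_le _ _ _
        rw [abs_sub_comm] at hc
        omega
    · unfold Tc
      rw [if_neg hc, if_neg hc, zero_mul, zero_mul]

/-- **The window trace.**

Proof. Let `N` be large (`|n₀| + L + Q.natDegree * w ≤ N`), `A := Tc w H N`, `A' := Tc w H' N`. `A - A'` vanishes
outside the rows and columns of `S := [n₀ - r, n₀ + r]` (for `a ∉ S`: `heq`; then for `b ∉ S` by Hermitian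
symmetry), so its rank is at most `2 (2 r + 1)` (`rank_le_rows`) and `herm_trace_le` applies. The trace of
`aeval A Q - aeval A' Q` is the sum over all `m ∈ [-N, N]`; for `|m - n₀| > L` the entries `(m, m)` of the powers
`j ≤ Q.natDegree` of `A` and `A'` coincide (induction on `j`: `(A ^ j) m b = (A' ^ j) m b` if
`|m - n₀| > r + (j - 1) w`, since the rows of `A` and `A'` outside `S` coincide, see `GFin_pow` in
`Pool/Agent/W_b5ab1b_h80/GFin.lean`); for `|m - n₀| ≤ L` they are the entries of the band operators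
(`Tc_aeval`). -/
theorem window_bd (w : ℕ) (H H' : ℤ → ℤ → ℂ) (M : ℝ) (h : HB w H M) (h' : HB w H' M) (n₀ : ℤ)
    (r : ℕ) (heq : ∀ a b, a ∉ Finset.Icc (n₀ - r) (n₀ + r) → H' a b = H a b) (Q : ℝ[X]) (L : ℤ)
    (hL : (Q.natDegree : ℤ) * w + r + w ≤ L) :
    ‖∑ m ∈ Finset.Icc (n₀ - L) (n₀ + L), (bent w H m m (Q.map (algebraMap ℝ ℂ)) -
      bent w H' m m (Q.map (algebraMap ℝ ℂ)))‖ ≤ (2 * (2 * r + 1)) * nrm M Q.derivative := by
  classical
  set d := Q.natDegree with hd
  have hdw : (0 : ℤ) ≤ (d : ℤ) * w := by positivity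
  obtain ⟨N, hN⟩ : ∃ N : ℕ, |n₀| + L + d * w ≤ (N : ℤ) :=
    ⟨(|n₀| + L + d * w).toNat, Int.self_le_toNat _⟩
  have hL0 : 0 ≤ L := by omega
  have habs := abs_nonneg n₀
  have hn1 := neg_abs_le n₀
  have hn2 := le_abs_self n₀
  set A := Tc w H N with hA
  set B := Tc w H' N with hB
  have hjd : ∀ j : ℕ, j < d + 1 → (j : ℤ) * w ≤ (d : ℤ) * w := fun j hj =>
    mul_le_mul_of_nonneg_right (by omega) (by positivity)
  have hfar : ∀ m : Finset.Icc (-(N : ℤ)) N, L < |(m : ℤ) - n₀| →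
      (Polynomial.aeval A Q) m m = (Polynomial.aeval B Q) m m := by
    intro m hm
    rw [KTrn_aeval, KTrn_aeval]
    refine Finset.sum_congr rfl fun j hj => ?_
    rw [Finset.mem_range] at hj
    have := hjd j hj
    rw [hA, hB, KTrn_pow w H H' n₀ r heq N j m m (by omega)]
  have hnear : ∀ (H : ℤ → ℤ → ℂ) (m : Finset.Icc (-(N : ℤ)) N), |(m : ℤ) - n₀| ≤ L →
      (Polynomial.aeval (Tc w H N) Q) m m = bent w H m m (Q.map (algebraMap ℝ ℂ)) := by
    intro H m hm
    refine Tc_aeval w H N Q m m ?_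
    rw [← hd]
    have h1 : |(m : ℤ)| ≤ |(m : ℤ) - n₀| + |n₀| := by
      have := abs_add_le ((m : ℤ) - n₀) n₀
      rwa [sub_add_cancel] at this
    omega
  have htr : (Polynomial.aeval A Q).trace - (Polynomial.aeval B Q).trace =
      ∑ m ∈ Finset.Icc (n₀ - L) (n₀ + L), (bent w H m m (Q.map (algebraMap ℝ ℂ)) -
        bent w H' m m (Q.map (algebraMap ℝ ℂ))) := by
    set f : ℤ → ℂ := fun m => if |m - n₀| ≤ L then bent w H m m (Q.map (algebraMap ℝ ℂ)) -
        bent w H' m m (Q.map (algebraMap ℝ ℂ)) else 0 with hf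
    have h1 : (Polynomial.aeval A Q).trace - (Polynomial.aeval B Q).trace =
        ∑ m : Finset.Icc (-(N : ℤ)) N, f m := by
      rw [Matrix.trace, Matrix.trace, ← Finset.sum_sub_distrib]
      refine Finset.sum_congr rfl fun m _ => ?_
      rw [Matrix.diag_apply, Matrix.diag_apply]
      simp only [hf]
      split_ifs with h
      · rw [hA, hB, hnear H m h, hnear H' m h]
      · rw [hfar m (not_le.1 h), sub_self]
    have h2 : ∑ m : Finset.Icc (-(N : ℤ)) N, f m = ∑ m ∈ Finset.Icc (-(N : ℤ)) N, f m :=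
      Finset.sum_coe_sort (Finset.Icc (-(N : ℤ)) N) f
    rw [h1, h2]
    have h3 : Finset.Icc (n₀ - L) (n₀ + L) ⊆ Finset.Icc (-(N : ℤ)) N := by
      intro m hm
      rw [Finset.mem_Icc] at hm ⊢
      omega
    rw [← Finset.sum_subset h3]
    · refine Finset.sum_congr rfl fun m hm => ?_
      rw [Finset.mem_Icc] at hm
      simp only [hf]
      rw [if_pos (by rw [abs_le]; omega)]
    · intro m _ hm
      rw [Finset.mem_Icc] at hm
      simp only [hf]
      rw [if_neg]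
      intro h
      rw [abs_le] at h
      apply hm
      omega
  have hrank : (A - B).rank ≤ 2 * (2 * r + 1) := by
    obtain ⟨S, hS⟩ : ∃ S : Finset (Finset.Icc (-(N : ℤ)) N),
        S = Finset.univ.filter (fun x : Finset.Icc (-(N : ℤ)) N =>
          (x : ℤ) ∈ Finset.Icc (n₀ - r) (n₀ + r)) := ⟨_, rfl⟩
    have hcard : S.card ≤ 2 * r + 1 := by
      have h1 : S.card = (S.image Subtype.val).card :=
        (Finset.card_image_of_injective S Subtype.val_injective).symm
      have h2 : S.image Subtype.val ⊆ Finset.Icc (n₀ - r) (n₀ + r) := by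
        intro m hm
        obtain ⟨x, hx, rfl⟩ := Finset.mem_image.1 hm
        rw [hS, Finset.mem_filter] at hx
        exact hx.2
      have h3 := Finset.card_le_card h2
      rw [Int.card_Icc] at h3
      rw [h1]
      omega
    have h4 := rank_le_rows (A - B) S (by
      intro x y hx hy
      rw [hS, Finset.mem_filter] at hx
      rw [Matrix.sub_apply, sub_eq_zero, hA, hB]
      unfold Tc
      split_ifs
      · rw [heq _ _ fun h => hx ⟨Finset.mem_univ _, h⟩]
      · rfl)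
    omega
  rw [← htr]
  have := herm_trace_le A B (Tc_herm w H M h N) (Tc_herm w H' M h' N) M
    (Tc_bound w H M h N) (Tc_bound w H' M h' N) (2 * (2 * r + 1)) hrank Q
  push_cast at this
  exact this

end Pool.Agent.Wb5ab1bf
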