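import Pool.Agent.W_b5ab1bf_h80.KTr
import Pool.Agent.W_b5ab1bf_h80.KTrn
import Pool.Agent.W_b5ab1bf_h80.BSys
import Pool.Agent.W_b5ab1b_h80.GKI

/-!
# The averaged Krein inequality for band matrices (helper80)
-/

set_option autoImplicit false

noncomputable section

open scoped Polynomial
open Pool.Agent.Wb5ab1b

namespace Pool.Agent.Wb5ab1bf

variable {k : ℕ} (B : Bd k)

/-- The band matrix at a point of the torus. -/
def Bd.Hθ (B : Bd k) (θ : ℤ × Fin k → ℝ) (a b : ℤ) : ℂ := ev θ (B.H a b)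

theorem Hθ_HB (hH : B.Herm) {R : ℝ} (hR : B.Bdd R) (θ : ℤ × Fin k → ℝ) :
    HB B.w (B.Hθ θ) R := ⟨fun a b => hH θ a b, fun a => hR θ a⟩

/-- Evaluation of the entries of powers (`bpw_map`) -/
theorem ev_bpw (θ : ℤ × Fin k → ℝ) (n : ℕ) (a b : ℤ) :
    ev θ (bpw B.w B.H n a b) = bpw B.w (B.Hθ θ) n a b :=
  bpw_map B.w B.H (ev θ : Lau k →+* ℂ) n a b

/-- and of real polynomials (`bent_shift` with shift `0`; `toL q` is `q.map`). -/
theorem ev_P_toL (θ : ℤ × Fin k → ℝ) (a b : ℤ) (q : ℝ[X]) :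
    ev θ ((B.P a b).app (toL q)) = bent B.w (B.Hθ θ) a b (q.map (algebraMap ℝ ℂ)) := by
  have h1 := bent_shift B.w B.H (ev θ : Lau k →+* ℂ) (B.Hθ θ) 0
    (fun a b => by rw [add_zero, add_zero]; rfl) (toL q) a b
  rw [add_zero, add_zero] at h1
  have h2 : (toL q).map (ev θ : Lau k →+* ℂ) = q.map (algebraMap ℝ ℂ) := by
    unfold toL
    rw [Polynomial.map_map]
    congr 1
    exact RingHom.ext fun a => KI_ev_real θ a
  rw [h2] at h1
  exact h1.symm

theorem KKI_app (j : ℤ × Fin k) (g : (Lau k)[X]) :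
    (eP B (Dfs B j)).app g = ∑ b ∈ Finset.Icc (j.1 - B.r) (j.1 + B.r),
      ∑ c ∈ Finset.Icc (b - (B.w : ℤ)) (b + B.w), der j (B.H b c) * bent B.w B.H c b g := by
  have hs : ∀ (s : Finset ℤ) (f : ℤ → (ℤ × ℤ) →₀ (Lau k)[X]),
      eP B (∑ b ∈ s, f b) = ∑ b ∈ s, eP B (f b) := by
    intro s f
    induction s using Finset.induction_on with
    | empty => exact eP_zero' B
    | insert a s ha ih => rw [Finset.sum_insert ha, eP_add, ih, Finset.sum_insert ha]
  unfold Dfs
  rw [hs, GKI_app_sum]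
  refine Finset.sum_congr rfl fun b _ => ?_
  rw [hs, GKI_app_sum]
  refine Finset.sum_congr rfl fun c _ => ?_
  rw [eP_single, Jac1_app_C]
  rfl

theorem KKI_mon (a b : ℤ) (t : ℕ) (c : Lau k) :
    bent B.w B.H a b (Polynomial.monomial t c) = c * bpw B.w B.H t a b := by
  rw [bent_eq_sum, Polynomial.sum_monomial_index _ _ (by rw [zero_mul])]

/-- The derivative of the trace of a primitive (compare `GKI_trace` in `Pool/Agent/W_b5ab1b_h80/GKI.lean`; both
sides are additive in `Q`, for monomials it is `der_trace_b`; the rows outside `[j.1 - r, j.1 + r]` do not contain the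
variable `j`, `der_H_zero`). -/
theorem der_trace_P (j : ℤ × Fin k) (L : ℤ) (Q : ℝ[X])
    (hL : (Q.natDegree : ℤ) * B.w + B.r + B.w ≤ L) :
    der j (∑ m ∈ Finset.Icc (j.1 - L) (j.1 + L), (B.P m m).app (toL Q)) =
      (eP B (Dfs B j)).app (toL (Polynomial.derivative Q)) := by
  have hP : ∀ (m : ℤ) (g : (Lau k)[X]), (B.P m m).app g = bent B.w B.H m m g := fun m g => rfl
  have hmon : ∀ t : ℕ, (t : ℤ) * B.w + B.r + B.w ≤ L → ∀ a : ℝ,
      der j (∑ m ∈ Finset.Icc (j.1 - L) (j.1 + L), (B.P m m).app (toL (Polynomial.monomial t a))) =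
      (eP B (Dfs B j)).app (toL (Polynomial.derivative (Polynomial.monomial t a))) := by
    intro t ht a
    have e1 : ∑ m ∈ Finset.Icc (j.1 - L) (j.1 + L), (B.P m m).app (toL (Polynomial.monomial t a)) =
        algebraMap ℝ (Lau k) a * ∑ m ∈ Finset.Icc (j.1 - L) (j.1 + L), bpw B.w B.H t m m := by
      rw [Finset.mul_sum]
      refine Finset.sum_congr rfl fun m _ => ?_
      rw [hP, KI_toL_monomial, KKI_mon]
    have e2' : der j (algebraMap ℝ (Lau k) a *
        ∑ m ∈ Finset.Icc (j.1 - L) (j.1 + L), bpw B.w B.H t m m) = _ :=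
      KI_D_real j a (∑ m ∈ Finset.Icc (j.1 - L) (j.1 + L), bpw B.w B.H t m m)
    rw [e1, e2', KKI_app, Polynomial.derivative_monomial, KI_toL_monomial]
    cases t with
    | zero =>
      have e3 : KI_D j (∑ m ∈ Finset.Icc (j.1 - L) (j.1 + L), bpw B.w B.H 0 m m) = 0 := by
        rw [map_sum]
        refine Finset.sum_eq_zero fun m _ => ?_
        rw [bpw_zero, if_pos rfl]
        show der j 1 = 0
        have e5 : (1 : Lau k) = AddMonoidAlgebra.single 0 1 := rfl
        rw [e5, der_single]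
        simp
      rw [e3]
      simp
    | succ t =>
      have e3 := der_trace_b (KI_D j) (fun x y => der_mul j x y) B.w B.H j.1 B.r
        (fun a c ha => by
          rw [Finset.mem_Icc] at ha
          exact der_H_zero B j a c (by omega)) t L
        (by push_cast at ht; exact ht)
      rw [e3, Nat.add_sub_cancel, map_mul]
      have e6 : algebraMap ℝ (Lau k) (((t + 1 : ℕ) : ℝ)) = (t : Lau k) + 1 := by
        rw [map_natCast]
        push_cast
        rfl
      rw [e6, ← mul_assoc, Finset.mul_sum]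
      refine Finset.sum_congr rfl fun b _ => ?_
      rw [Finset.mul_sum]
      refine Finset.sum_congr rfl fun c _ => ?_
      rw [KKI_mon]
      show algebraMap ℝ (Lau k) a * ((t : Lau k) + 1) *
        (der j (B.H b c) * bpw B.w B.H t c b) = _
      ring
  have hf : ∀ (s : Finset ℕ) (g : ℕ → ℝ[X]), (∀ t ∈ s,
      der j (∑ m ∈ Finset.Icc (j.1 - L) (j.1 + L), (B.P m m).app (toL (g t))) =
      (eP B (Dfs B j)).app (toL (Polynomial.derivative (g t)))) →
      der j (∑ m ∈ Finset.Icc (j.1 - L) (j.1 + L), (B.P m m).app (toL (∑ t ∈ s, g t))) =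
      (eP B (Dfs B j)).app (toL (Polynomial.derivative (∑ t ∈ s, g t))) := by
    intro s g
    have e2 : ∀ (Φ : Fn (Lau k)) x y, Φ.app (x + y) = Φ.app x + Φ.app y :=
      fun Φ x y => map_add (show (Lau k)[X] →ₗ[Lau k] Lau k from Φ) x y
    induction s using Finset.induction_on with
    | empty =>
      intro _
      have e1 : toL (k := k) 0 = 0 := by simp [toL]
      have e2 : ∀ Φ : Fn (Lau k), Φ.app 0 = 0 := fun Φ => map_zero (show (Lau k)[X] →ₗ[Lau k] Lau k from Φ)
      rw [Finset.sum_empty, map_zero, e1, e2]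
      simp only [e2, Finset.sum_const_zero, KI_der_zero]
    | insert t s ht ih =>
      intro h
      rw [Finset.sum_insert ht, map_add, KI_toL_add, KI_toL_add, e2,
        ← h t (Finset.mem_insert_self _ _), ← ih fun t' ht' => h t' (Finset.mem_insert_of_mem ht'),
        ← der_add, ← Finset.sum_add_distrib]
      congr 1
      refine Finset.sum_congr rfl fun m _ => ?_
      rw [e2]
  have h1 := hf (Finset.range (Q.natDegree + 1)) (fun t => Polynomial.monomial t (Q.coeff t))
    (fun t ht => hmon t (by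
      rw [Finset.mem_range] at ht
      have h2 : (t : ℤ) * B.w ≤ (Q.natDegree : ℤ) * B.w :=
        mul_le_mul_of_nonneg_right (by omega) (by positivity)
      omega) _)
  rw [← Q.as_sum_range] at h1
  exact h1

theorem KKI_nrm {R M : ℝ} (hM : R ≤ M) (q : ℝ[X]) : nrm R q ≤ nrm M q := by
  unfold nrm
  refine MeasureTheory.setIntegral_mono_set (nrm_integrable M q) ?_ ?_
  · exact Filter.Eventually.of_forall fun x => abs_nonneg _
  · refine (Set.Icc_subset_Icc (by linarith) hM).eventuallyLE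

/-- **The averaged Krein inequality.** Proof: as for `KI_g` in `Pool/Agent/W_b5ab1b_h80/GKI.lean`, with
`der_trace_P`, `freeze`, `E_bound`, `window_bd` (for `B.Hθ θ` and `B.Hθ (Function.update θ j 0)`, which coincide in
the rows outside `[j.1 - r, j.1 + r]`: `GKI_ev_update`, `der_H_zero`), and `nrm R q ≤ nrm M q` for
`R ≤ M` (`nrm R` is an integral of a nonnegative function over a smaller set). -/
theorem KI_band (hH : B.Herm) {R M : ℝ} (hR : B.Bdd R) (hM : R ≤ M) (j : ℤ × Fin k) :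
    eP B (Dfs B j) ∈ AC k M := by
  show ∀ W : Lau k, ∃ C : ℝ, ∀ q : ℝ[X], ‖E (W * (eP B (Dfs B j)).app (toL q))‖ ≤ C * nrm M q
  intro W
  obtain ⟨C1, hC1⟩ := ev_bdd (der j W)
  have hC10 : 0 ≤ C1 := (norm_nonneg _).trans (hC1 fun _ => 0)
  refine ⟨C1 * (2 * (2 * B.r + 1)), fun q => ?_⟩
  obtain ⟨Q, hQ⟩ := KI_anti q
  set L : ℤ := (Q.natDegree : ℤ) * B.w + B.r + B.w with hL
  set G : Lau k := ∑ m ∈ Finset.Icc (j.1 - L) (j.1 + L), (B.P m m).app (toL Q) with hG
  have h1 := der_trace_P B j L Q le_rfl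
  rw [hQ, ← hG] at h1
  rw [← h1]
  obtain ⟨G0, hG0, hG0'⟩ := freeze j G
  have h2 : E (W * der j G) = -E (der j W * (G - G0)) := by
    have e1 := E_der j (W * G)
    rw [der_mul, E_add] at e1
    have e2 : G * der j W = der j W * (G - G0) + der j W * G0 := by ring
    rw [e2, E_add, hG0', add_zero] at e1
    exact eq_neg_of_add_eq_zero_left e1
  rw [h2, norm_neg]
  refine E_bound _ _ fun θ => ?_
  rw [map_mul, norm_mul, mul_assoc]
  refine mul_le_mul (hC1 θ) ?_ (norm_nonneg _) hC10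
  rw [map_sub, hG0, hG, map_sum, map_sum]
  have h3 := window_bd B.w (B.Hθ θ) (B.Hθ (Function.update θ j 0)) R (Hθ_HB B hH hR θ)
    (Hθ_HB B hH hR _) j.1 B.r (by
      intro a b ha
      rw [Finset.mem_Icc] at ha
      exact GKI_ev_update (der_H_zero B j a b (by omega)) θ) Q L le_rfl
  rw [hQ] at h3
  rw [← Finset.sum_sub_distrib]
  have h4 : ∑ m ∈ Finset.Icc (j.1 - L) (j.1 + L), (ev θ ((B.P m m).app (toL Q)) -
      ev (Function.update θ j 0) ((B.P m m).app (toL Q))) =
      ∑ m ∈ Finset.Icc (j.1 - L) (j.1 + L), (bent B.w (B.Hθ θ) m m (Q.map (algebraMap ℝ ℂ)) -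
        bent B.w (B.Hθ (Function.update θ j 0)) m m (Q.map (algebraMap ℝ ℂ))) := by
    refine Finset.sum_congr rfl fun m _ => ?_
    rw [ev_P_toL, ev_P_toL]
  rw [h4]
  refine h3.trans ?_
  exact mul_le_mul_of_nonneg_left (KKI_nrm hM q) (by positivity)

end Pool.Agent.Wb5ab1bf
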