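import Pool.Agent.W_b5ab1bf_h80.BBnd

/-!
# The derivative of the trace (helper80)
-/

set_option autoImplicit false

noncomputable section

namespace Pool.Agent.Wb5ab1bf

variable {A : Type} [CommRing A]

/-- The derivative of a power: for a derivation `D` with `D (h b c) = 0` for `b ∉ s`. Induction on `n` with
`bpw_succ` (compare `GJac_der` in `Pool/Agent/W_b5ab1b_h80/GJac.lean`). -/
theorem der_bpw (D : A →+ A) (hD : ∀ x y, D (x * y) = x * D y + y * D x) (w : ℕ) (h : ℤ → ℤ → A)
    (s : Finset ℤ) (hh : ∀ a b, a ∉ s → D (h a b) = 0) (n : ℕ) (a a' : ℤ) :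
    D (bpw w h n a a') = ∑ i ∈ Finset.range n, ∑ b ∈ s, ∑ c ∈ Finset.Icc (b - w) (b + w),
      bpw w h i a b * D (h b c) * bpw w h (n - 1 - i) c a' := by
  have h1 : D 1 = 0 := by
    have h := hD 1 1
    rw [mul_one, one_mul] at h
    have h2 : D 1 + D 1 = D 1 + 0 := by rw [add_zero]; exact h.symm
    exact add_left_cancel h2
  induction n generalizing a with
  | zero =>
    rw [bpw_zero, Finset.sum_range_zero]
    split_ifs
    · exact h1
    · exact map_zero D
  | succ n ih =>
    rw [bpw_succ, map_sum]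
    have e0 : ∀ e ∈ Finset.Icc (a - (w : ℤ)) (a + w), D (h a e * bpw w h n e a') =
        h a e * D (bpw w h n e a') + bpw w h n e a' * D (h a e) := fun e _ => hD _ _
    rw [Finset.sum_congr rfl e0, Finset.sum_add_distrib, Finset.sum_range_succ']
    congr 1
    · have e1 : ∀ e ∈ Finset.Icc (a - (w : ℤ)) (a + w), h a e * D (bpw w h n e a') =
          ∑ i ∈ Finset.range n, ∑ b ∈ s, ∑ c ∈ Finset.Icc (b - (w : ℤ)) (b + w),
            (h a e * bpw w h i e b) * D (h b c) * bpw w h (n - 1 - i) c a' := by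
        intro e _
        rw [ih, Finset.mul_sum]
        refine Finset.sum_congr rfl fun i _ => ?_
        rw [Finset.mul_sum]
        refine Finset.sum_congr rfl fun b _ => ?_
        rw [Finset.mul_sum]
        refine Finset.sum_congr rfl fun c _ => ?_
        ring
      rw [Finset.sum_congr rfl e1, Finset.sum_comm]
      refine Finset.sum_congr rfl fun i _ => ?_
      rw [Finset.sum_comm]
      refine Finset.sum_congr rfl fun b _ => ?_
      rw [Finset.sum_comm]
      refine Finset.sum_congr rfl fun c _ => ?_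
      have e2 : n + 1 - 1 - (i + 1) = n - 1 - i := by omega
      rw [e2, bpw_succ, Finset.sum_mul, Finset.sum_mul]
    · have e3 : ∀ b ∈ s, ∑ c ∈ Finset.Icc (b - (w : ℤ)) (b + w),
          bpw w h 0 a b * D (h b c) * bpw w h (n + 1 - 1 - 0) c a' =
          if a = b then ∑ c ∈ Finset.Icc (a - (w : ℤ)) (a + w), D (h a c) * bpw w h n c a'
            else 0 := by
        intro b _
        rw [bpw_zero]
        split_ifs with hab
        · subst hab
          refine Finset.sum_congr rfl fun c _ => ?_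
          rw [one_mul]
          rfl
        · refine Finset.sum_eq_zero fun c _ => ?_
          rw [zero_mul, zero_mul]
      rw [Finset.sum_congr rfl e3, Finset.sum_ite_eq]
      split_ifs with ha
      · exact Finset.sum_congr rfl fun c _ => mul_comm _ _
      · refine Finset.sum_eq_zero fun c _ => ?_
        rw [hh a c ha, mul_zero]

/-- **The derivative of the trace of a power.**

Proof. By `der_bpw` and exchanging the sums, `∑ m, bpw (n - i) c m * bpw i m b = bpw n c b` (`bpw_add'`, the window is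
large around `b`), for each of the `n + 1` values of `i` (power `n + 1`). -/
theorem der_trace_b (D : A →+ A) (hD : ∀ x y, D (x * y) = x * D y + y * D x) (w : ℕ)
    (h : ℤ → ℤ → A) (n₀ : ℤ) (r : ℕ) (hh : ∀ a b, a ∉ Finset.Icc (n₀ - r) (n₀ + r) → D (h a b) = 0)
    (n : ℕ) (L : ℤ) (hL : ((n : ℤ) + 1) * w + r + w ≤ L) :
    D (∑ m ∈ Finset.Icc (n₀ - L) (n₀ + L), bpw w h (n + 1) m m) =
      ((n : A) + 1) * ∑ b ∈ Finset.Icc (n₀ - r) (n₀ + r), ∑ c ∈ Finset.Icc (b - w) (b + w),
        D (h b c) * bpw w h n c b := by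
  rw [map_sum]
  have h1 : ∀ m ∈ Finset.Icc (n₀ - L) (n₀ + L), D (bpw w h (n + 1) m m) =
      ∑ i ∈ Finset.range (n + 1), ∑ b ∈ Finset.Icc (n₀ - (r : ℤ)) (n₀ + r),
        ∑ c ∈ Finset.Icc (b - (w : ℤ)) (b + w),
          D (h b c) * (bpw w h (n - i) c m * bpw w h i m b) := by
    intro m _
    rw [der_bpw D hD w h _ hh]
    refine Finset.sum_congr rfl fun i _ => Finset.sum_congr rfl fun b _ =>
      Finset.sum_congr rfl fun c _ => ?_
    rw [Nat.add_sub_cancel]
    ring
  rw [Finset.sum_congr rfl h1, Finset.sum_comm]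
  have h2 : ∀ i ∈ Finset.range (n + 1), ∑ m ∈ Finset.Icc (n₀ - L) (n₀ + L),
      ∑ b ∈ Finset.Icc (n₀ - (r : ℤ)) (n₀ + r), ∑ c ∈ Finset.Icc (b - (w : ℤ)) (b + w),
          D (h b c) * (bpw w h (n - i) c m * bpw w h i m b) =
      ∑ b ∈ Finset.Icc (n₀ - (r : ℤ)) (n₀ + r), ∑ c ∈ Finset.Icc (b - (w : ℤ)) (b + w),
          D (h b c) * bpw w h n c b := by
    intro i hi
    rw [Finset.mem_range] at hi
    rw [Finset.sum_comm]
    refine Finset.sum_congr rfl fun b hb => ?_
    rw [Finset.sum_comm]
    refine Finset.sum_congr rfl fun c hc => ?_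
    rw [Finset.mem_Icc] at hb hc
    have h3 : ((n - i : ℕ) : ℤ) * w ≤ (n : ℤ) * w := by
      have : ((n - i : ℕ) : ℤ) ≤ n := by omega
      exact mul_le_mul_of_nonneg_right this (by positivity)
    have h5 : ((n : ℤ) + 1) * w = n * w + w := by ring
    rw [← Finset.mul_sum, ← bpw_add w h (n - i) i c b _ _ (by omega) (by omega)]
    have h4 : n - i + i = n := by omega
    rw [h4]
  rw [Finset.sum_congr rfl h2, Finset.sum_const, Finset.card_range, nsmul_eq_mul]
  push_cast
  ring

end Pool.Agent.Wb5ab1bf
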