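import Pool.Agent.W_b5ab1bf_h80.LDefs

/-!
# Extension to continuous functions, elementary properties of the Stieltjes transform (helper80)
-/

set_option autoImplicit false

noncomputable section

open scoped Polynomial
open Pool.Agent.Wb5ab1b

namespace Pool.Agent.Wb5ab1bf

/-- auxiliary: `pc` as a linear map -/
def LExt_pcL (R : ℝ) : ℂ[X] →ₗ[ℂ] C(Set.Icc (-R) R, ℂ) where
  toFun := pc R
  map_add' p q := by
    ext x
    simp [pc_apply]
  map_smul' c p := by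
    ext x
    simp [pc_apply]

/-- A functional on polynomials which is bounded by the supremum on `[-R, R]` extends to the continuous functions.

Proof. Let `p` be the range of the linear map `q ↦ pc R q`. If `pc R q = pc R q'` then `‖L (q - q')‖ ≤ C₀ * 0`, so
`L` factors through a linear functional on the subspace `p`, bounded by `C₀ * ‖·‖` (`SupBd` with
`b = ‖pc R q‖`); `LinearMap.mkContinuous` and Hahn-Banach (`exists_extension_norm_eq`). -/
theorem exists_ext {R C₀ : ℝ} (hR : 0 ≤ R) {L : ℂ[X] →ₗ[ℂ] ℂ} (hL : SupBd R C₀ L) :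
    ∃ Λ : C(Set.Icc (-R) R, ℂ) →L[ℂ] ℂ, ∀ q : ℂ[X], Λ (pc R q) = L q := by
  have hb : ∀ q : ℂ[X], ‖L q‖ ≤ C₀ * ‖pc R q‖ := by
    intro q
    apply hL
    intro x hx
    exact (pc R q).norm_coe_le_norm ⟨x, hx⟩
  have hker : LinearMap.ker (LExt_pcL R) ≤ LinearMap.ker L := by
    intro q hq
    rw [LinearMap.mem_ker] at hq ⊢
    have h1 := hb q
    have h2 : pc R q = 0 := hq
    rw [h2, norm_zero, mul_zero] at h1
    exact norm_le_zero_iff.1 h1
  set f : (LinearMap.range (LExt_pcL R)) →ₗ[ℂ] ℂ :=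
    ((LinearMap.ker (LExt_pcL R)).liftQ L hker).comp
      (LExt_pcL R).quotKerEquivRange.symm.toLinearMap with hf
  have hfv : ∀ q : ℂ[X], f ⟨LExt_pcL R q, LinearMap.mem_range_self _ q⟩ = L q := by
    intro q
    have h1 : (LExt_pcL R).quotKerEquivRange.symm ⟨LExt_pcL R q, LinearMap.mem_range_self _ q⟩ =
        (LinearMap.ker (LExt_pcL R)).mkQ q := by
      rw [LinearEquiv.symm_apply_eq]
      rfl
    rw [hf, LinearMap.comp_apply, LinearEquiv.coe_coe, h1]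
    rfl
  have hfb : ∀ y : LinearMap.range (LExt_pcL R), ‖f y‖ ≤ C₀ * ‖y‖ := by
    rintro ⟨y, q, rfl⟩
    rw [hfv]
    exact hb q
  obtain ⟨g, hg, _⟩ := exists_extension_norm_eq (LinearMap.range (LExt_pcL R))
    (f.mkContinuous C₀ hfb)
  refine ⟨g, fun q => ?_⟩
  have h1 := hg ⟨LExt_pcL R q, LinearMap.mem_range_self _ q⟩
  exact h1.trans (hfv q)

lemma LExt_rznorm {R : ℝ} (z : ℂ) (hz : z.im ≠ 0) : ‖rz R z‖ ≤ |z.im|⁻¹ := by
  rw [ContinuousMap.norm_le _ (inv_nonneg.2 (abs_nonneg _))]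
  intro x
  rw [rz_apply (ne_of_im hz), norm_inv]
  apply inv_anti₀ (abs_pos.2 hz)
  have h1 := Complex.abs_im_le_norm (z - ((x : ℝ) : ℂ))
  simpa using h1

/-- `|1 / (z - x)| ≤ 1 / |im z|`. -/
theorem stj_bound {R : ℝ} (Λ : C(Set.Icc (-R) R, ℂ) →L[ℂ] ℂ) (z : ℂ) (hz : z.im ≠ 0) :
    ‖stj Λ z‖ * |z.im| ≤ ‖Λ‖ := by
  have h1 : ‖stj Λ z‖ ≤ ‖Λ‖ * |z.im|⁻¹ :=
    (Λ.le_opNorm _).trans (mul_le_mul_of_nonneg_left (LExt_rznorm z hz) (norm_nonneg _))
  have h2 : 0 < |z.im| := abs_pos.2 hz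
  calc ‖stj Λ z‖ * |z.im| ≤ (‖Λ‖ * |z.im|⁻¹) * |z.im| := mul_le_mul_of_nonneg_right h1 h2.le
    _ = ‖Λ‖ := by rw [mul_assoc, inv_mul_cancel₀ h2.ne', mul_one]

/-- `z ↦ rz R z` is holomorphic outside the real line. -/
theorem LExt_rz_diff {R : ℝ} (z : ℂ) (hz : z.im ≠ 0) :
    DifferentiableAt ℂ (fun w => rz R w) z := by
  have hmul : ∀ w : ℂ, w.im ≠ 0 →
      (algebraMap ℂ C(Set.Icc (-R) R, ℂ) w - pc R Polynomial.X) * rz R w = 1 := by
    intro w hw
    ext x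
    rw [ContinuousMap.mul_apply, rz_apply (ne_of_im hw), ContinuousMap.sub_apply, pc_apply,
      Polynomial.eval_X]
    exact mul_inv_cancel₀ (ne_of_im hw x)
  have hunit : ∀ w : ℂ, w.im ≠ 0 →
      IsUnit (algebraMap ℂ C(Set.Icc (-R) R, ℂ) w - pc R Polynomial.X) := by
    intro w hw
    exact IsUnit.of_mul_eq_one _ (hmul w hw)
  have hres : ∀ w : ℂ, w.im ≠ 0 → rz R w = resolvent (pc R Polynomial.X) w := by
    intro w hw
    unfold resolvent
    have h2 := Ring.inverse_mul_cancel _ (hunit w hw)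
    calc rz R w = (Ring.inverse (algebraMap ℂ C(Set.Icc (-R) R, ℂ) w - pc R Polynomial.X) *
          (algebraMap ℂ C(Set.Icc (-R) R, ℂ) w - pc R Polynomial.X)) * rz R w := by
          rw [h2, one_mul]
      _ = _ := by rw [mul_assoc, hmul w hw, mul_one]
  have hd : HasDerivAt (resolvent (pc R Polynomial.X : C(Set.Icc (-R) R, ℂ)))
      (-resolvent (pc R Polynomial.X) z ^ 2) z := spectrum.hasDerivAt_resolvent_const_left (hunit z hz)
  refine hd.differentiableAt.congr_of_eventuallyEq ?_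
  have hop : IsOpen {w : ℂ | w.im ≠ 0} := isOpen_ne_fun Complex.continuous_im continuous_const
  filter_upwards [hop.mem_nhds hz] with w hw using hres w hw

/-- The Stieltjes transform is holomorphic outside the real line.

Proof. `rz R z - rz R z₀ = -(z - z₀) • (rz R z * rz R z₀)`, so
`(stj Λ z - stj Λ z₀) / (z - z₀) = -Λ (rz R z * rz R z₀)`, which tends to `-Λ (rz R z₀ ^ 2)` since
`‖rz R z - rz R z₀‖ ≤ |z - z₀| * ‖rz R z‖ * ‖rz R z₀‖` and `‖rz R z‖ ≤ 1 / |im z|`. -/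
theorem stj_differentiableAt {R : ℝ} (Λ : C(Set.Icc (-R) R, ℂ) →L[ℂ] ℂ) (z : ℂ) (hz : z.im ≠ 0) :
    DifferentiableAt ℂ (stj Λ) z :=
  Λ.differentiableAt.comp z (LExt_rz_diff z hz)

/-- The expansion at infinity. For `‖z‖ > R` the series `∑ pc R (X ^ n) / z ^ (n + 1)` converges in norm to
`rz R z` (geometric series, `‖pc R (X ^ n)‖ ≤ R ^ n`; `summable_geometric_of_lt_one`,
`ContinuousMap` sum evaluated pointwise), apply `Λ`. -/
theorem stj_hasSum {R : ℝ} (hR : 0 ≤ R) (Λ : C(Set.Icc (-R) R, ℂ) →L[ℂ] ℂ) (z : ℂ) (hz : R < ‖z‖) :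
    HasSum (fun n : ℕ => Λ (pc R (Polynomial.X ^ n)) / z ^ (n + 1)) (stj Λ z) := by
  have hz0 : 0 < ‖z‖ := lt_of_le_of_lt hR hz
  have hzne : z ≠ 0 := norm_pos_iff.1 hz0
  have hxn : ∀ x : Set.Icc (-R) R, ‖((x : ℝ) : ℂ)‖ ≤ R := by
    intro x
    rw [Complex.norm_real, Real.norm_eq_abs, abs_le]
    exact ⟨x.2.1, x.2.2⟩
  have hne : ∀ x : Set.Icc (-R) R, z - ((x : ℝ) : ℂ) ≠ 0 := by
    intro x h
    have h1 : z = ((x : ℝ) : ℂ) := sub_eq_zero.1 h
    have h2 := hxn x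
    rw [← h1] at h2
    linarith
  have hnorm : ∀ n : ℕ, ‖pc R (Polynomial.X ^ n)‖ ≤ R ^ n := by
    intro n
    rw [ContinuousMap.norm_le _ (pow_nonneg hR n)]
    intro x
    rw [pc_apply, Polynomial.eval_pow, Polynomial.eval_X, norm_pow]
    exact pow_le_pow_left₀ (norm_nonneg _) (hxn x) n
  have hsum : Summable (fun n : ℕ => (z ^ (n + 1))⁻¹ • pc R (Polynomial.X ^ n)) := by
    refine Summable.of_norm_bounded (g := fun n : ℕ => ‖z‖⁻¹ * (R / ‖z‖) ^ n) ?_ ?_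
    · apply Summable.mul_left
      exact summable_geometric_of_lt_one (div_nonneg hR hz0.le) ((div_lt_one hz0).2 hz)
    · intro n
      rw [norm_smul, norm_inv, norm_pow]
      calc (‖z‖ ^ (n + 1))⁻¹ * ‖pc R (Polynomial.X ^ n)‖ ≤ (‖z‖ ^ (n + 1))⁻¹ * R ^ n :=
            mul_le_mul_of_nonneg_left (hnorm n) (by positivity)
        _ = ‖z‖⁻¹ * (R / ‖z‖) ^ n := by
            rw [div_pow, pow_succ]
            field_simp
  have hval : ∑' n : ℕ, (z ^ (n + 1))⁻¹ • pc R (Polynomial.X ^ n) = rz R z := by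
    ext x
    have h1 : HasSum (fun n : ℕ => ((z ^ (n + 1))⁻¹ • pc R (Polynomial.X ^ n)) x)
        ((∑' n : ℕ, (z ^ (n + 1))⁻¹ • pc R (Polynomial.X ^ n)) x) := by
      have h2 := hsum.hasSum.mapL (ContinuousMap.evalCLM ℂ x)
      exact h2
    have h3 : HasSum (fun n : ℕ => ((z ^ (n + 1))⁻¹ • pc R (Polynomial.X ^ n)) x)
        ((z - ((x : ℝ) : ℂ))⁻¹) := by
      have h4 : ‖((x : ℝ) : ℂ) / z‖ < 1 := by
        rw [norm_div, div_lt_one hz0]
        exact lt_of_le_of_lt (hxn x) hz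
      have h5 := (hasSum_geometric_of_norm_lt_one h4).mul_left z⁻¹
      have h6 : z⁻¹ * (1 - ((x : ℝ) : ℂ) / z)⁻¹ = (z - ((x : ℝ) : ℂ))⁻¹ := by
        rw [← mul_inv, mul_sub, mul_one, mul_div_cancel₀ _ hzne]
      rw [h6] at h5
      refine h5.congr_fun ?_
      intro n
      show (z ^ (n + 1))⁻¹ • (pc R (Polynomial.X ^ n)) x = z⁻¹ * (((x : ℝ) : ℂ) / z) ^ n
      rw [pc_apply, Polynomial.eval_pow, Polynomial.eval_X, smul_eq_mul, div_pow, pow_succ]
      field_simp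
    rw [rz_apply hne]
    exact h1.unique h3
  have h7 := hsum.hasSum.mapL Λ
  rw [hval] at h7
  refine h7.congr_fun ?_
  intro n
  show Λ (pc R (Polynomial.X ^ n)) / z ^ (n + 1) = Λ ((z ^ (n + 1))⁻¹ • pc R (Polynomial.X ^ n))
  rw [map_smul, smul_eq_mul, div_eq_inv_mul]

end Pool.Agent.Wb5ab1bf
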