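import Pool.Agent.W_b5ab1bf_h80.LPoi
import Pool.Agent.W_b5ab1bf_h80.LExt

/-!
# Inversion of the Stieltjes transform (helper80)
-/

set_option autoImplicit false

noncomputable section

open scoped Polynomial
open Pool.Agent.Wb5ab1b MeasureTheory

namespace Pool.Agent.Wb5ab1bf

lemma LInv_cont {R : ℝ} (ε : ℝ) (hε : ε ≠ 0) :
    Continuous (fun x : ℝ => rz R ((x : ℂ) + (ε : ℂ) * Complex.I)) := by
  rw [continuous_iff_continuousAt]
  intro x
  have him : ((x : ℂ) + (ε : ℂ) * Complex.I).im ≠ 0 := by simpa using hε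
  have h1 : ContinuousAt (fun w => rz R w) ((x : ℂ) + (ε : ℂ) * Complex.I) :=
    (LExt_rz_diff _ him).continuousAt
  have h2 : ContinuousAt (fun x : ℝ => (x : ℂ) + (ε : ℂ) * Complex.I) x := by fun_prop
  exact ContinuousAt.comp (g := fun w => rz R w) (f := fun x : ℝ => (x : ℂ) + (ε : ℂ) * Complex.I)
    h1 h2

lemma LInv_kern (x y ε : ℝ) (hε : ε ≠ 0) :
    Complex.I / 2 * (((x : ℂ) + (ε : ℂ) * Complex.I - (y : ℂ))⁻¹ -
      ((x : ℂ) + ((-ε : ℝ) : ℂ) * Complex.I - (y : ℂ))⁻¹) =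
      ((ε / ((x - y) ^ 2 + ε ^ 2) : ℝ) : ℂ) := by
  have h1 : (x : ℂ) + (ε : ℂ) * Complex.I - (y : ℂ) ≠ 0 := by
    intro h
    have := congrArg Complex.im h
    simp at this
    exact hε this
  have h2 : (x : ℂ) + ((-ε : ℝ) : ℂ) * Complex.I - (y : ℂ) ≠ 0 := by
    intro h
    have := congrArg Complex.im h
    simp at this
    exact hε this
  have h3 : ((x : ℂ) + (ε : ℂ) * Complex.I - (y : ℂ)) *
      ((x : ℂ) + ((-ε : ℝ) : ℂ) * Complex.I - (y : ℂ)) = ((x : ℂ) - y) ^ 2 + (ε : ℂ) ^ 2 := by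
    push_cast
    linear_combination (-(ε : ℂ) ^ 2) * Complex.I_sq
  have h4 : ((x : ℂ) - y) ^ 2 + (ε : ℂ) ^ 2 ≠ 0 := by
    rw [← h3]; exact mul_ne_zero h1 h2
  rw [inv_sub_inv h1 h2, h3]
  push_cast
  rw [← mul_div_assoc]
  congr 1
  linear_combination (-(ε : ℂ)) * Complex.I_sq

/-- The functional of the Poisson integral.

Proof. For `ε > 0` let `F ε : C(Icc (-R) R, ℂ)` be `y ↦ ∫ x in Icc (-M) M, g x * ε / ((x - y) ^ 2 + ε ^ 2)`. It is
the Bochner integral `∫ x in Icc (-M) M, g x • kern x` of the continuous function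
`x ↦ g x • kern x` with values in `C(Icc (-R) R, ℂ)`, where
`kern x := (I / 2) • (rz R (x + ε I) - rz R (x - ε I))`, since
`(I / 2) * (1 / (x + ε I - y) - 1 / (x - ε I - y)) = ε / ((x - y) ^ 2 + ε ^ 2)` (continuity: `x ↦ rz R (x ± ε I)` is
Lipschitz, see the proof of `stj_differentiableAt`; evaluation at `y` is a continuous linear map:
`ContinuousMap.evalCLM`, `ContinuousLinearMap.integral_comp_comm`). Apply `Λ` under the integral. -/
theorem stj_swap {R M : ℝ} (hR : 0 ≤ R) (hM : R < M) (Λ : C(Set.Icc (-R) R, ℂ) →L[ℂ] ℂ) (g : ℂ[X])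
    (ε : ℝ) (hε : 0 < ε) :
    ∃ F : C(Set.Icc (-R) R, ℂ),
      (∀ y : Set.Icc (-R) R, F y = ∫ x in Set.Icc (-M) M, g.eval (x : ℂ) *
        ((ε / ((x - (y : ℝ)) ^ 2 + ε ^ 2) : ℝ) : ℂ)) ∧
      Λ F = ∫ x in Set.Icc (-M) M, g.eval (x : ℂ) * (Complex.I / 2 *
        (stj Λ ((x : ℂ) + (ε : ℂ) * Complex.I) - stj Λ ((x : ℂ) + ((-ε : ℝ) : ℂ) * Complex.I))) := by
  set G : ℝ → C(Set.Icc (-R) R, ℂ) := fun x => (g.eval (x : ℂ) * (Complex.I / 2)) •
    (rz R ((x : ℂ) + (ε : ℂ) * Complex.I) - rz R ((x : ℂ) + ((-ε : ℝ) : ℂ) * Complex.I)) with hG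
  have hGc : Continuous G := by
    have c1 : Continuous (fun x : ℝ => g.eval (x : ℂ) * (Complex.I / 2)) :=
      (g.continuous.comp Complex.continuous_ofReal).mul continuous_const
    exact c1.smul ((LInv_cont ε hε.ne').sub (LInv_cont (-ε) (neg_ne_zero.2 hε.ne')))
  have hGi : Integrable G (volume.restrict (Set.Icc (-M) M)) := hGc.integrableOn_Icc
  refine ⟨∫ x in Set.Icc (-M) M, G x, ?_, ?_⟩
  · intro y
    have h1 := (ContinuousMap.evalCLM ℂ y).integral_comp_comm hGi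
    have h2 : (ContinuousMap.evalCLM ℂ y) (∫ x in Set.Icc (-M) M, G x) =
        (∫ x in Set.Icc (-M) M, G x) y := rfl
    rw [← h2, ← h1]
    apply integral_congr_ae
    apply Filter.Eventually.of_forall
    intro x
    show (G x) y = g.eval (x : ℂ) * ((ε / ((x - (y : ℝ)) ^ 2 + ε ^ 2) : ℝ) : ℂ)
    have him1 : ((x : ℂ) + (ε : ℂ) * Complex.I).im ≠ 0 := by simpa using hε.ne'
    have him2 : ((x : ℂ) + ((-ε : ℝ) : ℂ) * Complex.I).im ≠ 0 := by simpa using hε.ne'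
    rw [hG]
    show (g.eval (x : ℂ) * (Complex.I / 2)) • ((rz R ((x : ℂ) + (ε : ℂ) * Complex.I)) y -
      (rz R ((x : ℂ) + ((-ε : ℝ) : ℂ) * Complex.I)) y) = _
    rw [rz_apply (ne_of_im him1), rz_apply (ne_of_im him2), smul_eq_mul, mul_assoc,
      LInv_kern x y ε hε.ne']
  · have h1 := Λ.integral_comp_comm hGi
    rw [← h1]
    apply integral_congr_ae
    apply Filter.Eventually.of_forall
    intro x
    show Λ (G x) = _
    rw [hG]
    simp only [map_smul, map_sub, smul_eq_mul, stj]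
    ring

/-- **Inversion.** `π Λ (g)` is the limit of the integrals of `g` against the jump of the Stieltjes transform; in
particular it is bounded by every uniform bound for these integrals.

Proof. By `poisson_unif` `‖F ε - π • pc R g‖ ≤ η` for small `ε`, so `‖Λ (F ε) - π * Λ (pc R g)‖ ≤ ‖Λ‖ η`. -/
theorem stj_inv {R M : ℝ} (hR : 0 ≤ R) (hM : R < M) (Λ : C(Set.Icc (-R) R, ℂ) →L[ℂ] ℂ) (g : ℂ[X])
    (C : ℝ) (h : ∀ ε : ℝ, 0 < ε → ε ≤ 1 → ‖∫ x in Set.Icc (-M) M, g.eval (x : ℂ) * (Complex.I / 2 *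
      (stj Λ ((x : ℂ) + (ε : ℂ) * Complex.I) - stj Λ ((x : ℂ) + ((-ε : ℝ) : ℂ) * Complex.I)))‖ ≤ C) :
    Real.pi * ‖Λ (pc R g)‖ ≤ C := by
  apply le_of_forall_pos_le_add
  intro δ hδ
  have hΛ : 0 < ‖Λ‖ + 1 := by positivity
  obtain ⟨ε₀, hε₀, hunif⟩ := poisson_unif hR hM g (δ / (‖Λ‖ + 1)) (div_pos hδ hΛ)
  set ε := min ε₀ 1 with hε
  have hεpos : 0 < ε := lt_min hε₀ one_pos
  obtain ⟨F, hF1, hF2⟩ := stj_swap hR hM Λ g ε hεpos
  have h1 := h ε hεpos (min_le_right _ _)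
  rw [← hF2] at h1
  have h2 : ‖F - (Real.pi : ℂ) • pc R g‖ ≤ δ / (‖Λ‖ + 1) := by
    rw [ContinuousMap.norm_le _ (div_pos hδ hΛ).le]
    intro y
    have h3 := hunif ε hεpos (min_le_left _ _) y y.2
    rw [← hF1 y] at h3
    exact h3
  have h3 : ‖Λ F - (Real.pi : ℂ) * Λ (pc R g)‖ ≤ δ := by
    have h4 : Λ F - (Real.pi : ℂ) * Λ (pc R g) = Λ (F - (Real.pi : ℂ) • pc R g) := by
      rw [map_sub, map_smul, smul_eq_mul]
    rw [h4]
    calc ‖Λ (F - (Real.pi : ℂ) • pc R g)‖ ≤ ‖Λ‖ * ‖F - (Real.pi : ℂ) • pc R g‖ := Λ.le_opNorm _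
      _ ≤ ‖Λ‖ * (δ / (‖Λ‖ + 1)) := mul_le_mul_of_nonneg_left h2 (norm_nonneg Λ)
      _ ≤ δ := by
          rw [mul_div_assoc', div_le_iff₀ hΛ]
          nlinarith [norm_nonneg Λ]
  have h5 : Real.pi * ‖Λ (pc R g)‖ = ‖(Real.pi : ℂ) * Λ (pc R g)‖ := by
    rw [norm_mul, Complex.norm_real, Real.norm_of_nonneg Real.pi_pos.le]
  rw [h5]
  have h6 : (Real.pi : ℂ) * Λ (pc R g) = Λ F - (Λ F - (Real.pi : ℂ) * Λ (pc R g)) := by ring
  rw [h6]
  exact (norm_sub_le _ _).trans (add_le_add h1 h3)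

end Pool.Agent.Wb5ab1bf
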