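import Pool.Agent.W_b5ab1bf_h80.LDefs

/-!
# The Poisson kernel (helper80)
-/

set_option autoImplicit false

noncomputable section

open scoped Polynomial
open Pool.Agent.Wb5ab1b MeasureTheory

namespace Pool.Agent.Wb5ab1bf

theorem LPoi_arctan_le {s : ℝ} (hs : 0 ≤ s) : Real.arctan s ≤ s := by
  have h1 : 0 ≤ Real.arctan s := by
    rcases hs.eq_or_lt with h | h
    · rw [← h, Real.arctan_zero]
    · exact (Real.arctan_pos.mpr h).le
  have h2 := Real.le_tan h1 (Real.arctan_lt_pi_div_two s)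
  rwa [Real.tan_arctan] at h2

theorem LPoi_arctan_ge {t : ℝ} (ht : 0 < t) : Real.pi / 2 - 1 / t ≤ Real.arctan t := by
  have h1 := Real.arctan_inv_of_pos ht
  have h2 : Real.arctan t⁻¹ ≤ t⁻¹ := LPoi_arctan_le (inv_nonneg.mpr ht.le)
  rw [one_div]
  linarith

theorem LPoi_cont (y ε : ℝ) (hε : 0 < ε) :
    Continuous (fun x : ℝ => ε / ((x - y) ^ 2 + ε ^ 2)) := by
  refine Continuous.div (by fun_prop) (by fun_prop) ?_
  intro x
  positivity

theorem LPoi_int {M : ℝ} (hM : 0 ≤ M) (y ε : ℝ) (hε : 0 < ε) :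
    (∫ x in Set.Icc (-M) M, ε / ((x - y) ^ 2 + ε ^ 2)) =
      Real.arctan ((M - y) / ε) + Real.arctan ((M + y) / ε) := by
  rw [integral_Icc_eq_integral_Ioc, ← intervalIntegral.integral_of_le (by linarith)]
  have hd : ∀ x ∈ Set.uIcc (-M) M,
      HasDerivAt (fun x : ℝ => Real.arctan ((x - y) / ε)) (ε / ((x - y) ^ 2 + ε ^ 2)) x := by
    intro x _
    have h1 : HasDerivAt (fun x : ℝ => (x - y) / ε) (1 / ε) x :=
      ((hasDerivAt_id x).sub_const y).div_const ε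
    have h2 := h1.arctan
    refine h2.congr_deriv ?_
    have h3 : ε ≠ 0 := hε.ne'
    field_simp
    ring
  rw [intervalIntegral.integral_eq_sub_of_hasDerivAt hd
    ((LPoi_cont y ε hε).intervalIntegrable _ _)]
  have h4 : (-M - y) / ε = -((M + y) / ε) := by ring
  rw [h4, Real.arctan_neg]
  ring

/-- The mass of the Poisson kernel on `[-M, M]` tends to `π` uniformly on `[-R, R]`, `R < M`:
`∫ ε / ((x - y) ^ 2 + ε ^ 2) dx = arctan ((M - y) / ε) + arctan ((M + y) / ε)` and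
`arctan t ≥ π / 2 - 1 / t` for `t > 0`. -/
theorem poisson_mass {R M : ℝ} (hM : R < M) (y ε : ℝ) (hy : y ∈ Set.Icc (-R) R) (hε : 0 < ε) :
    |(∫ x in Set.Icc (-M) M, ε / ((x - y) ^ 2 + ε ^ 2)) - Real.pi| ≤ 2 * ε / (M - R) := by
  obtain ⟨hy1, hy2⟩ := hy
  rw [LPoi_int (by linarith) y ε hε]
  have ha : 0 < (M - y) / ε := div_pos (by linarith) hε
  have hb : 0 < (M + y) / ε := div_pos (by linarith) hε
  have h1 := LPoi_arctan_ge ha
  have h2 := LPoi_arctan_ge hb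
  have h3 := Real.arctan_lt_pi_div_two ((M - y) / ε)
  have h4 := Real.arctan_lt_pi_div_two ((M + y) / ε)
  have h5 : 1 / ((M - y) / ε) ≤ ε / (M - R) := by
    rw [one_div_div]
    exact div_le_div_of_nonneg_left hε.le (by linarith) (by linarith)
  have h6 : 1 / ((M + y) / ε) ≤ ε / (M - R) := by
    rw [one_div_div]
    exact div_le_div_of_nonneg_left hε.le (by linarith) (by linarith)
  have h7 : 2 * ε / (M - R) = ε / (M - R) + ε / (M - R) := by ring
  rw [h7, abs_le]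
  constructor <;> linarith

theorem LPoi_pt (t ε : ℝ) (hε : 0 < ε) :
    |t| * (ε / (t ^ 2 + ε ^ 2)) ≤ Real.sqrt ε + Real.sqrt ε * (ε / (t ^ 2 + ε ^ 2)) := by
  have hs : 0 < Real.sqrt ε := Real.sqrt_pos.mpr hε
  have hss : Real.sqrt ε * Real.sqrt ε = ε := Real.mul_self_sqrt hε.le
  have hk : 0 ≤ ε / (t ^ 2 + ε ^ 2) := by positivity
  rcases le_total |t| (Real.sqrt ε) with h | h
  · have h1 := mul_le_mul_of_nonneg_right h hk
    linarith
  · have h1 : |t| * (ε / (t ^ 2 + ε ^ 2)) ≤ Real.sqrt ε := by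
      have hp : 0 < t ^ 2 + ε ^ 2 := by positivity
      rw [← mul_div_assoc, div_le_iff₀ hp]
      have h2 : t ^ 2 = |t| * |t| := by rw [← abs_mul_abs_self]; simp [sq]
      have h3 : |t| * ε ≤ Real.sqrt ε * (|t| * |t|) := by
        have h4 : ε ≤ Real.sqrt ε * |t| := by
          calc ε = Real.sqrt ε * Real.sqrt ε := hss.symm
            _ ≤ Real.sqrt ε * |t| := mul_le_mul_of_nonneg_left h hs.le
        calc |t| * ε ≤ |t| * (Real.sqrt ε * |t|) := mul_le_mul_of_nonneg_left h4 (abs_nonneg t)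
          _ = Real.sqrt ε * (|t| * |t|) := by ring
      have h5 : 0 ≤ Real.sqrt ε * ε ^ 2 := by positivity
      rw [h2]
      linarith
    have h6 : 0 ≤ Real.sqrt ε * (ε / (t ^ 2 + ε ^ 2)) := mul_nonneg hs.le hk
    linarith

theorem LPoi_le_pi {M : ℝ} (hM : 0 < M) (y ε : ℝ) (hε : 0 < ε) :
    (∫ x in Set.Icc (-M) M, ε / ((x - y) ^ 2 + ε ^ 2)) ≤ Real.pi := by
  rw [LPoi_int hM.le y ε hε]
  have h3 := Real.arctan_lt_pi_div_two ((M - y) / ε)
  have h4 := Real.arctan_lt_pi_div_two ((M + y) / ε)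
  linarith

/-- The first absolute moment of the Poisson kernel tends to `0`:
`∫ |x - y| ε / ((x - y) ^ 2 + ε ^ 2) dx ≤ ε * log (1 + 4 M ^ 2 / ε ^ 2)`; or
`|t| ε / (t ^ 2 + ε ^ 2) ≤ √ε * |t|^(1/2)...`; a simple way: `|t| ε / (t ^ 2 + ε ^ 2) ≤ √ε` for `|t| ≥ √ε` (it is
`≤ ε / |t|`) and for `|t| ≤ √ε` it is `≤ √ε * (ε / (t ^ 2 + ε ^ 2))`, whose integral is `≤ π √ε`. So the
integral is at most `√ε (2 M + π)`. -/
theorem poisson_moment {M : ℝ} (hM : 0 < M) (y ε : ℝ) (hε : 0 < ε) :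
    ∫ x in Set.Icc (-M) M, |x - y| * (ε / ((x - y) ^ 2 + ε ^ 2)) ≤
      Real.sqrt ε * (2 * M + Real.pi) := by
  have hc := LPoi_cont y ε hε
  have hi1 : IntegrableOn (fun x : ℝ => |x - y| * (ε / ((x - y) ^ 2 + ε ^ 2))) (Set.Icc (-M) M) :=
    (Continuous.mul (by fun_prop) hc).integrableOn_Icc
  have hi2 : IntegrableOn (fun x : ℝ => Real.sqrt ε + Real.sqrt ε * (ε / ((x - y) ^ 2 + ε ^ 2)))
      (Set.Icc (-M) M) :=
    (continuous_const.add (continuous_const.mul hc)).integrableOn_Icc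
  have h1 : ∫ x in Set.Icc (-M) M, |x - y| * (ε / ((x - y) ^ 2 + ε ^ 2)) ≤
      ∫ x in Set.Icc (-M) M, (Real.sqrt ε + Real.sqrt ε * (ε / ((x - y) ^ 2 + ε ^ 2))) :=
    setIntegral_mono hi1 hi2 (fun x => LPoi_pt (x - y) ε hε)
  have h2 : ∫ x in Set.Icc (-M) M, (Real.sqrt ε + Real.sqrt ε * (ε / ((x - y) ^ 2 + ε ^ 2))) =
      (2 * M) * Real.sqrt ε + Real.sqrt ε * ∫ x in Set.Icc (-M) M, (ε / ((x - y) ^ 2 + ε ^ 2)) := by
    have ha : IntegrableOn (fun _ : ℝ => Real.sqrt ε) (Set.Icc (-M) M) :=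
      continuous_const.integrableOn_Icc
    have hb : IntegrableOn (fun x : ℝ => Real.sqrt ε * (ε / ((x - y) ^ 2 + ε ^ 2)))
        (Set.Icc (-M) M) := (continuous_const.mul hc).integrableOn_Icc
    rw [integral_add ha hb, integral_const_mul]
    congr 1
    rw [setIntegral_const]
    simp only [smul_eq_mul]
    congr 1
    rw [Measure.real, Real.volume_Icc, ENNReal.toReal_ofReal (by linarith)]
    ring
  have h3 := LPoi_le_pi hM y ε hε
  have h4 : Real.sqrt ε * (∫ x in Set.Icc (-M) M, (ε / ((x - y) ^ 2 + ε ^ 2))) ≤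
      Real.sqrt ε * Real.pi := mul_le_mul_of_nonneg_left h3 (Real.sqrt_nonneg ε)
  calc _ ≤ _ := h1
    _ = _ := h2
    _ ≤ (2 * M) * Real.sqrt ε + Real.sqrt ε * Real.pi := by linarith
    _ = _ := by ring

theorem LPoi_bd (M : ℝ) (g : ℂ[X]) :
    ∃ C : ℝ, 0 ≤ C ∧ ∀ x ∈ Set.Icc (-M) M, ‖g.eval (x : ℂ)‖ ≤ C := by
  have hc : Continuous (fun x : ℝ => g.eval (x : ℂ)) := by fun_prop
  obtain ⟨C, hC⟩ := (isCompact_Icc (a := -M) (b := M)).exists_bound_of_continuousOn hc.continuousOn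
  exact ⟨max C 0, le_max_right _ _, fun x hx => (hC x hx).trans (le_max_left _ _)⟩

theorem LPoi_lip (M : ℝ) (g : ℂ[X]) :
    ∃ K : ℝ, 0 ≤ K ∧ ∀ x ∈ Set.Icc (-M) M, ∀ y ∈ Set.Icc (-M) M,
      ‖g.eval (x : ℂ) - g.eval (y : ℂ)‖ ≤ K * |x - y| := by
  obtain ⟨K, hK0, hK⟩ := LPoi_bd M (Polynomial.derivative g)
  refine ⟨K, hK0, ?_⟩
  intro x hx y hy
  have hd : ∀ z ∈ Set.Icc (-M) M, HasDerivWithinAt (fun x : ℝ => g.eval (x : ℂ))
      ((Polynomial.derivative g).eval (z : ℂ)) (Set.Icc (-M) M) z := by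
    intro z _
    exact ((g.hasDerivAt (z : ℂ)).comp_ofReal).hasDerivWithinAt
  have h := (convex_Icc (-M) M).norm_image_sub_le_of_norm_hasDerivWithin_le hd hK hy hx
  simpa [Real.norm_eq_abs] using h

/-- Uniform convergence of the Poisson integrals of a polynomial. From `poisson_mass`, `poisson_moment` and
`‖g x - g y‖ ≤ K |x - y|` on `[-M, M]`. -/
theorem poisson_unif {R M : ℝ} (hR : 0 ≤ R) (hM : R < M) (g : ℂ[X]) (η : ℝ) (hη : 0 < η) :
    ∃ ε₀ : ℝ, 0 < ε₀ ∧ ∀ ε : ℝ, 0 < ε → ε ≤ ε₀ → ∀ y ∈ Set.Icc (-R) R,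
      ‖(∫ x in Set.Icc (-M) M, g.eval (x : ℂ) * ((ε / ((x - y) ^ 2 + ε ^ 2) : ℝ) : ℂ)) -
        (Real.pi : ℂ) * g.eval (y : ℂ)‖ ≤ η := by
  obtain ⟨C, hC0, hC⟩ := LPoi_bd M g
  obtain ⟨K, hK0, hK⟩ := LPoi_lip M g
  have hM0 : 0 < M := by linarith
  have hMR : 0 < M - R := by linarith
  set D : ℝ := K * (2 * M + Real.pi) + C * (2 / (M - R)) + 1 with hD
  have hpi := Real.pi_pos
  have hDpos : 0 < D := by
    have h1 : 0 ≤ K * (2 * M + Real.pi) := mul_nonneg hK0 (by linarith)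
    have h2 : 0 ≤ C * (2 / (M - R)) := mul_nonneg hC0 (by positivity)
    linarith
  refine ⟨min 1 ((η / D) ^ 2), lt_min one_pos (by positivity), ?_⟩
  intro ε hε hε0 y hy
  have hε1 : ε ≤ 1 := hε0.trans (min_le_left _ _)
  have hε2 : ε ≤ (η / D) ^ 2 := hε0.trans (min_le_right _ _)
  have hs0 : 0 ≤ Real.sqrt ε := Real.sqrt_nonneg ε
  have hs1 : Real.sqrt ε ≤ η / D := Real.sqrt_le_iff.mpr ⟨by positivity, hε2⟩
  have hs2 : ε ≤ Real.sqrt ε := by
    have h1 : Real.sqrt ε ≤ 1 := Real.sqrt_le_one.mpr hε1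
    have h2 : Real.sqrt ε * Real.sqrt ε = ε := Real.mul_self_sqrt hε.le
    nlinarith
  have hyM : y ∈ Set.Icc (-M) M := ⟨by linarith [hy.1], by linarith [hy.2]⟩
  have hc := LPoi_cont y ε hε
  set P : ℝ → ℝ := fun x => ε / ((x - y) ^ 2 + ε ^ 2) with hP
  have hPpos : ∀ x, 0 ≤ P x := fun x => by simp only [hP]; positivity
  have hPc : Continuous P := hc
  have hgc : Continuous (fun x : ℝ => g.eval (x : ℂ)) := by fun_prop
  have hPcc : Continuous (fun x : ℝ => ((P x : ℝ) : ℂ)) := Complex.continuous_ofReal.comp hPc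
  have hsplit : (∫ x in Set.Icc (-M) M, g.eval (x : ℂ) * ((P x : ℝ) : ℂ)) -
        (Real.pi : ℂ) * g.eval (y : ℂ) =
      (∫ x in Set.Icc (-M) M, (g.eval (x : ℂ) - g.eval (y : ℂ)) * ((P x : ℝ) : ℂ)) +
        g.eval (y : ℂ) * (((∫ x in Set.Icc (-M) M, P x) - Real.pi : ℝ) : ℂ) := by
    have h1 : (∫ x in Set.Icc (-M) M, (g.eval (x : ℂ) - g.eval (y : ℂ)) * ((P x : ℝ) : ℂ)) =
        (∫ x in Set.Icc (-M) M, g.eval (x : ℂ) * ((P x : ℝ) : ℂ)) -
          ∫ x in Set.Icc (-M) M, g.eval (y : ℂ) * ((P x : ℝ) : ℂ) := by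
      have ha : IntegrableOn (fun x : ℝ => g.eval (x : ℂ) * ((P x : ℝ) : ℂ)) (Set.Icc (-M) M) :=
        (hgc.mul hPcc).integrableOn_Icc
      have hb : IntegrableOn (fun x : ℝ => g.eval (y : ℂ) * ((P x : ℝ) : ℂ)) (Set.Icc (-M) M) :=
        (continuous_const.mul hPcc).integrableOn_Icc
      rw [← integral_sub ha hb]
      congr 1
      funext x
      ring
    have h2 : (∫ x in Set.Icc (-M) M, ((P x : ℝ) : ℂ)) = ((∫ x in Set.Icc (-M) M, P x : ℝ) : ℂ) :=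
      integral_ofReal
    rw [h1, integral_const_mul, h2]
    push_cast
    ring
  have hfst : ‖∫ x in Set.Icc (-M) M, (g.eval (x : ℂ) - g.eval (y : ℂ)) * ((P x : ℝ) : ℂ)‖ ≤
      K * (Real.sqrt ε * (2 * M + Real.pi)) := by
    have h1 : ‖∫ x in Set.Icc (-M) M, (g.eval (x : ℂ) - g.eval (y : ℂ)) * ((P x : ℝ) : ℂ)‖ ≤
        ∫ x in Set.Icc (-M) M, K * (|x - y| * P x) := by
      refine (norm_integral_le_integral_norm _).trans ?_
      refine setIntegral_mono_on ?_ ?_ measurableSet_Icc ?_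
      · exact (((hgc.sub continuous_const).mul hPcc).norm).integrableOn_Icc
      · exact (continuous_const.mul ((by fun_prop : Continuous fun x : ℝ => |x - y|).mul
          hPc)).integrableOn_Icc
      · intro x hx
        rw [norm_mul, Complex.norm_real, Real.norm_of_nonneg (hPpos x), ← mul_assoc]
        exact mul_le_mul_of_nonneg_right (hK x hx y hyM) (hPpos x)
    rw [integral_const_mul] at h1
    exact h1.trans (mul_le_mul_of_nonneg_left (poisson_moment hM0 y ε hε) hK0)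
  have hsnd : ‖g.eval (y : ℂ) * (((∫ x in Set.Icc (-M) M, P x) - Real.pi : ℝ) : ℂ)‖ ≤
      C * (2 * ε / (M - R)) := by
    rw [norm_mul, Complex.norm_real, Real.norm_eq_abs]
    exact mul_le_mul (hC y hyM) (poisson_mass hM y ε hy hε) (abs_nonneg _) hC0
  have hgoal : ‖(∫ x in Set.Icc (-M) M, g.eval (x : ℂ) * ((P x : ℝ) : ℂ)) -
        (Real.pi : ℂ) * g.eval (y : ℂ)‖ ≤ η := by
    rw [hsplit]
    refine (norm_add_le _ _).trans ?_
    have h3 : C * (2 * ε / (M - R)) ≤ C * (2 / (M - R)) * Real.sqrt ε := by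
      have h4 : C * (2 * ε / (M - R)) = C * (2 / (M - R)) * ε := by ring
      rw [h4]
      exact mul_le_mul_of_nonneg_left hs2 (mul_nonneg hC0 (by positivity))
    have h5 : K * (Real.sqrt ε * (2 * M + Real.pi)) + C * (2 / (M - R)) * Real.sqrt ε ≤
        D * Real.sqrt ε := by
      rw [hD]
      nlinarith
    have h6 : D * Real.sqrt ε ≤ η := by
      have h7 := mul_le_mul_of_nonneg_left hs1 hDpos.le
      rwa [mul_div_cancel₀ _ hDpos.ne'] at h7
    linarith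
  exact hgoal

end Pool.Agent.Wb5ab1bf
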