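import Pool.Agent.W_b5ab1bf_h80.BDefs

/-!
# The infinite torus and the functionals `Phz`: definitions (helper80)
-/

set_option autoImplicit false

noncomputable section

open scoped Polynomial
open Pool.Agent.Wb5ab1b MeasureTheory

namespace Pool.Agent.Wb5ab1bf

/-- The infinite torus times the real line. -/
abbrev Om (k : ℕ) : Type := (ℤ × Fin k → UnitAddCircle) × ℝ

variable {k : ℕ}

/-- Real representatives of a point of the torus. -/
def rp (y : ℤ × Fin k → UnitAddCircle) : ℤ × Fin k → ℝ :=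
  fun j => ((AddCircle.equivIco (1 : ℝ) 0 (y j) : Set.Ico (0 : ℝ) (0 + 1)) : ℝ)

theorem coe_rp (y : ℤ × Fin k → UnitAddCircle) (j : ℤ × Fin k) :
    ((rp y j : ℝ) : UnitAddCircle) = y j := (AddCircle.equivIco (1 : ℝ) 0).symm_apply_apply (y j)

/-- Evaluation of a Laurent polynomial at a point of the torus. -/
def evY (y : ℤ × Fin k → UnitAddCircle) : Lau k →ₐ[ℂ] ℂ := ev (rp y)

/-- Evaluation of a polynomial with Laurent coefficients. -/
def evO (p : Om k) : (Lau k)[X] →+* ℂ :=
  Polynomial.eval₂RingHom (evY p.1 : Lau k →+* ℂ) (p.2 : ℂ)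

theorem evO_C (p : Om k) (F : Lau k) : evO p (Polynomial.C F) = evY p.1 F := by
  unfold evO
  simp

theorem evO_X (p : Om k) : evO p (Polynomial.X : (Lau k)[X]) = (p.2 : ℂ) := by
  unfold evO
  simp

/-- A complex number as a constant polynomial. -/
def cC (z : ℂ) : (Lau k)[X] := Polynomial.C (algebraMap ℂ (Lau k) z)

theorem evO_cC (p : Om k) (z : ℂ) : evO p (cC z : (Lau k)[X]) = z := by
  unfold cC
  rw [evO_C, AlgHom.commutes]
  rfl

/-- The functional of the quadratic form at the vector `δ_c + z δ_b`. -/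
def Phz (B : Bd k) (c b : ℤ) (z : ℂ) : Fn (Lau k) :=
  B.P c c + (cC z : (Lau k)[X]) • B.P c b + (cC ((starRingEnd ℂ) z) : (Lau k)[X]) • B.P b c +
    (cC (z * (starRingEnd ℂ) z) : (Lau k)[X]) • B.P b b

/-- The measure `m` represents the functional `Phz B c b z`. -/
def IsM (B : Bd k) (R : ℝ) (c b : ℤ) (z : ℂ) (m : Measure (Om k)) : Prop :=
  IsFiniteMeasure m ∧ m {p | p.2 ∉ Set.Icc (-R) R} = 0 ∧
    ∀ G : (Lau k)[X], ∫ p, evO p G ∂m = E ((Phz B c b z).app G)

/-- Restriction of a point of the torus to finitely many variables, after a shift. -/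
def prS (s : Finset (ℤ × Fin k)) (i : ℤ) (y : ℤ × Fin k → UnitAddCircle) : UnitAddTorus s :=
  fun q => y (sft i (q : ℤ × Fin k))

end Pool.Agent.Wb5ab1bf
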