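import Pool.Agent.W_b5ab1bf_h80.VEv

/-!
# Density of the polynomials on the infinite torus (helper80)
-/

set_option autoImplicit false

noncomputable section

open scoped Polynomial
open Pool.Agent.Wb5ab1b MeasureTheory

namespace Pool.Agent.Wb5ab1bf

variable {k : ℕ}

/-- A polynomial as a continuous function on torus times `[-R, R]`. -/
def evCC (R : ℝ) (G : (Lau k)[X]) :
    C((ℤ × Fin k → UnitAddCircle) × Set.Icc (-R) R, ℂ) :=
  ⟨fun q => evO ((q.1, ((q.2 : Set.Icc (-R) R) : ℝ)) : Om k) G,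
    (evO_continuous G).comp (continuous_fst.prodMk (continuous_subtype_val.comp continuous_snd))⟩

theorem evCC_apply (R : ℝ) (G : (Lau k)[X])
    (q : (ℤ × Fin k → UnitAddCircle) × Set.Icc (-R) R) :
    evCC R G q = evO ((q.1, ((q.2 : Set.Icc (-R) R) : ℝ)) : Om k) G := rfl

/-- The star subalgebra of the polynomials. -/
def VDen_alg (k : ℕ) (R : ℝ) :
    StarSubalgebra ℂ C((ℤ × Fin k → UnitAddCircle) × Set.Icc (-R) R, ℂ) where
  carrier := Set.range (evCC (k := k) R)
  mul_mem' := by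
    rintro _ _ ⟨G, rfl⟩ ⟨G', rfl⟩
    refine ⟨G * G', ?_⟩
    ext q
    rw [ContinuousMap.mul_apply, evCC_apply, evCC_apply, evCC_apply, map_mul]
  add_mem' := by
    rintro _ _ ⟨G, rfl⟩ ⟨G', rfl⟩
    refine ⟨G + G', ?_⟩
    ext q
    rw [ContinuousMap.add_apply, evCC_apply, evCC_apply, evCC_apply, map_add]
  algebraMap_mem' c := by
    refine ⟨cC c, ?_⟩
    ext q
    rw [evCC_apply, evO_cC]
    rfl
  star_mem' := by
    rintro _ ⟨G, rfl⟩
    obtain ⟨G', hG'⟩ := exists_conj G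
    refine ⟨G', ?_⟩
    ext q
    rw [ContinuousMap.star_apply, evCC_apply, evCC_apply, hG']
    rfl

theorem VDen_sep (R : ℝ) : (VDen_alg k R).SeparatesPoints := by
  rintro ⟨y, t⟩ ⟨y', t'⟩ hne
  by_cases hy : y = y'
  · have ht : t ≠ t' := by
      rintro rfl
      exact hne (by rw [hy])
    refine ⟨_, ⟨evCC R Polynomial.X, ⟨_, rfl⟩, rfl⟩, ?_⟩
    show evCC R Polynomial.X (y, t) ≠ evCC R Polynomial.X (y', t')
    rw [evCC_apply, evCC_apply, evO_X, evO_X]
    intro h
    apply ht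
    apply Subtype.ext
    exact_mod_cast h
  · obtain ⟨F, hF⟩ := evY_sep y y' hy
    refine ⟨_, ⟨evCC R (Polynomial.C F), ⟨_, rfl⟩, rfl⟩, ?_⟩
    show evCC R (Polynomial.C F) (y, t) ≠ evCC R (Polynomial.C F) (y', t')
    rw [evCC_apply, evCC_apply, evO_C, evO_C]
    exact hF

/-- **Density.** Stone-Weierstrass (`ContinuousMap.starSubalgebra_topologicalClosure_eq_top_of_separatesPoints`):
the functions `evCC R G` form a star subalgebra (`exists_conj`) which separates the points (`evY_sep`, and `X` for the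
second coordinate). Compare `Pool/Agent/W_b5ab1b_h80/Dense.lean` (finite torus). -/
theorem dense_evCC (R : ℝ) (φ : C((ℤ × Fin k → UnitAddCircle) × Set.Icc (-R) R, ℂ)) (ε : ℝ)
    (hε : 0 < ε) : ∃ G : (Lau k)[X], ∀ q, ‖evCC R G q - φ q‖ ≤ ε := by
  have h1 := ContinuousMap.starSubalgebra_topologicalClosure_eq_top_of_separatesPoints
    (VDen_alg k R) (VDen_sep R)
  have h2 : φ ∈ (VDen_alg k R).topologicalClosure := by
    rw [h1]
    exact StarSubalgebra.mem_top
  have h3 : φ ∈ closure (VDen_alg k R :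
    Set C((ℤ × Fin k → UnitAddCircle) × Set.Icc (-R) R, ℂ)) := h2
  obtain ⟨g, hg, hd⟩ := Metric.mem_closure_iff.1 h3 ε hε
  obtain ⟨G, rfl⟩ := hg
  refine ⟨G, fun z => ?_⟩
  have h4 := ContinuousMap.dist_apply_le_dist (f := φ) (g := evCC R G) z
  rw [dist_comm, dist_eq_norm] at h4
  exact h4.trans hd.le

/-- The real parts. -/
def evRe (R : ℝ) : (Lau k)[X] →ₗ[ℝ] C((ℤ × Fin k → UnitAddCircle) × Set.Icc (-R) R, ℝ) where
  toFun G := ⟨fun q => (evCC R G q).re, Complex.continuous_re.comp (evCC R G).continuous⟩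
  map_add' G G' := by
    ext q
    simp [evCC_apply]
  map_smul' r G := by
    ext q
    have h : r • G = (cC (r : ℂ) : (Lau k)[X]) * G := by
      rw [cC, ← Polynomial.smul_eq_C_mul]
      ext n
      rw [Polynomial.coeff_smul, Polynomial.coeff_smul, smul_eq_mul, ← Algebra.smul_def]
      rfl
    simp only [ContinuousMap.coe_mk, ContinuousMap.smul_apply, RingHom.id_apply, smul_eq_mul]
    rw [h, evCC_apply, map_mul, evO_cC, Complex.re_ofReal_mul, evCC_apply]

theorem evRe_apply (R : ℝ) (G : (Lau k)[X]) (q : (ℤ × Fin k → UnitAddCircle) × Set.Icc (-R) R) :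
    evRe R G q = (evO ((q.1, ((q.2 : Set.Icc (-R) R) : ℝ)) : Om k) G).re := rfl

/-- From `dense_evCC` for a real function as a complex function. -/
theorem dense_evRe (R : ℝ) : DenseRange (evRe (k := k) R) := by
  intro φ
  rw [Metric.mem_closure_iff]
  intro ε hε
  obtain ⟨G, hG⟩ := dense_evCC R (⟨fun q => ((φ q : ℝ) : ℂ), by fun_prop⟩ :
    C((ℤ × Fin k → UnitAddCircle) × Set.Icc (-R) R, ℂ)) (ε / 2) (by positivity)
  refine ⟨evRe R G, ⟨G, rfl⟩, ?_⟩
  refine lt_of_le_of_lt ((ContinuousMap.dist_le (by positivity)).2 fun q => ?_) (half_lt_self hε)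
  rw [dist_comm, dist_eq_norm]
  have h1 := hG q
  have h2 : evRe R G q - φ q = (evCC R G q - ((φ q : ℝ) : ℂ)).re := by
    rw [Complex.sub_re, Complex.ofReal_re]
    rfl
  rw [h2]
  exact (Complex.abs_re_le_norm _).trans h1

end Pool.Agent.Wb5ab1bf
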