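import Pool.Agent.W_b5ab1bf_h80.VDefs
import Pool.Agent.W_b5ab1b_h80.GJointA

/-!
# Evaluation on the infinite torus (helper80)
-/

set_option autoImplicit false

noncomputable section

open scoped Polynomial
open Pool.Agent.Wb5ab1b MeasureTheory

namespace Pool.Agent.Wb5ab1bf

variable {k : ℕ}

/-- The exponential as a product of `fourier` characters. -/
theorem VEv_exp (θ : ℤ × Fin k → ℝ) (η : (ℤ × Fin k) →₀ ℤ) :
    Complex.exp (2 * Real.pi * Complex.I * (η.sum fun j e => (e : ℝ) * θ j : ℝ)) =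
      η.prod fun j e => (fourier e ((θ j : ℝ) : UnitAddCircle) : ℂ) := by
  unfold Finsupp.sum Finsupp.prod
  have h1 : ∀ j, (fourier (η j)) ((θ j : ℝ) : UnitAddCircle) =
      Complex.exp (2 * Real.pi * Complex.I * ((η j : ℝ) * θ j : ℝ)) := by
    intro j
    rw [fourier_coe_apply]
    congr 1
    push_cast
    ring
  simp_rw [h1]
  rw [← Complex.exp_sum]
  congr 1
  rw [← Finset.mul_sum]
  congr 1
  push_cast
  rfl

/-- The value depends only on the classes modulo `1`. On monomials (`ev_single`): the exponents are integers,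
`exp (2 π i n) = 1`. -/
theorem ev_congr (θ θ' : ℤ × Fin k → ℝ)
    (h : ∀ j, ((θ j : ℝ) : UnitAddCircle) = ((θ' j : ℝ) : UnitAddCircle)) (F : Lau k) :
    ev θ F = ev θ' F := by
  induction F using AddMonoidAlgebra.induction_linear with
  | zero => rw [map_zero, map_zero]
  | add F1 F2 h1 h2 => rw [map_add, map_add, h1, h2]
  | single η c =>
    rw [ev_single, ev_single, VEv_exp, VEv_exp]
    simp_rw [h]

theorem evY_coe (θ : ℤ × Fin k → ℝ) (F : Lau k) :
    evY (fun j => ((θ j : ℝ) : UnitAddCircle)) F = ev θ F := by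
  refine ev_congr _ _ (fun j => ?_) F
  rw [coe_rp]

/-- The value at a monomial is a product of `fourier` characters. -/
theorem evY_single (y : ℤ × Fin k → UnitAddCircle) (η : (ℤ × Fin k) →₀ ℤ) (c : ℂ) :
    evY y (AddMonoidAlgebra.single η c) = c * η.prod fun j e => (fourier e (y j) : ℂ) := by
  unfold evY
  rw [ev_single, VEv_exp]
  simp_rw [coe_rp]

theorem evY_continuous (F : Lau k) :
    Continuous fun y : ℤ × Fin k → UnitAddCircle => evY y F := by
  induction F using AddMonoidAlgebra.induction_linear with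
  | zero =>
    simp_rw [map_zero]
    exact continuous_const
  | add F1 F2 h1 h2 =>
    simp_rw [map_add]
    exact h1.add h2
  | single η c =>
    simp_rw [evY_single]
    unfold Finsupp.prod
    exact continuous_const.mul
      (continuous_finsetProd _ fun j _ => (fourier (η j)).continuous.comp (continuous_apply j))

/-- Evaluation as a sum of coefficients. -/
theorem VEv_sum (p : Om k) (G : (Lau k)[X]) :
    evO p G = G.sum fun n F => evY p.1 F * (p.2 : ℂ) ^ n := by
  unfold evO
  rw [Polynomial.coe_eval₂RingHom, Polynomial.eval₂_eq_sum]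
  rfl

theorem VEv_bddG (R : ℝ) (G : (Lau k)[X]) :
    ∃ C : ℝ, 0 ≤ C ∧ ∀ (f : Lau k →+* ℂ) (x : ℝ), (∀ F, ∃ θ, f F = ev θ F) →
      x ∈ Set.Icc (-R) R → ‖Polynomial.eval₂ f (x : ℂ) G‖ ≤ C := by
  have h0 : ∀ F : Lau k, ∃ C : ℝ, 0 ≤ C ∧ ∀ θ : ℤ × Fin k → ℝ, ‖ev θ F‖ ≤ C := by
    intro F
    obtain ⟨C, hC⟩ := ev_bdd F
    exact ⟨C, (norm_nonneg _).trans (hC 0), hC⟩
  choose K hK0 hK using h0
  refine ⟨∑ n ∈ G.support, K (G.coeff n) * |R| ^ n, ?_, fun f x hf hx => ?_⟩
  · exact Finset.sum_nonneg fun n _ => mul_nonneg (hK0 _) (pow_nonneg (abs_nonneg _) _)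
  · rw [Polynomial.eval₂_eq_sum]
    unfold Polynomial.sum
    refine (norm_sum_le _ _).trans (Finset.sum_le_sum fun n _ => ?_)
    rw [norm_mul, norm_pow, Complex.norm_real, Real.norm_eq_abs]
    obtain ⟨θ, hθ⟩ := hf (G.coeff n)
    have h1 : |x| ≤ |R| := by
      rw [abs_le]
      have h2 := le_abs_self R
      constructor
      · linarith [hx.1]
      · linarith [hx.2]
    refine mul_le_mul ?_ (pow_le_pow_left₀ (abs_nonneg _) h1 n) (pow_nonneg (abs_nonneg _) _)
      (hK0 _)
    rw [hθ]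
    exact hK _ θ

/-- Conjugation of the coefficients. -/
theorem VEv_conjF (F : Lau k) :
    ∃ F' : Lau k, ∀ y, evY y F' = (starRingEnd ℂ) (evY y F) := by
  induction F using AddMonoidAlgebra.induction_linear with
  | zero => exact ⟨0, fun y => by rw [map_zero, map_zero]⟩
  | add F1 F2 h1 h2 =>
    obtain ⟨F1', h1⟩ := h1
    obtain ⟨F2', h2⟩ := h2
    exact ⟨F1' + F2', fun y => by rw [map_add, map_add, map_add, h1, h2]⟩
  | single η c =>
    refine ⟨AddMonoidAlgebra.single (-η) ((starRingEnd ℂ) c), fun y => ?_⟩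
    rw [evY_single, evY_single, map_mul,
      Finsupp.prod_neg_index (h := fun j e => (fourier e (y j) : ℂ)) (fun _ => fourier_zero)]
    congr 1
    unfold Finsupp.prod
    rw [map_prod]
    refine Finset.prod_congr rfl fun j _ => ?_
    exact fourier_neg

theorem evO_continuous (G : (Lau k)[X]) : Continuous fun p : Om k => evO p G := by
  simp_rw [VEv_sum]
  unfold Polynomial.sum
  refine continuous_finsetSum _ fun n _ => ?_
  exact ((evY_continuous _).comp continuous_fst).mul
    ((Complex.continuous_ofReal.comp continuous_snd).pow n)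

/-- Evaluation as a sum of coefficients. -/
theorem evO_sum (p : Om k) (G : (Lau k)[X]) :
    evO p G = G.sum fun n F => evY p.1 F * (p.2 : ℂ) ^ n := by
  exact VEv_sum p G

/-- Compactness, or the bound for the coefficients (`ev_bdd`). -/
theorem evO_bdd (R : ℝ) (G : (Lau k)[X]) :
    ∃ C : ℝ, 0 ≤ C ∧ ∀ p : Om k, p.2 ∈ Set.Icc (-R) R → ‖evO p G‖ ≤ C := by
  obtain ⟨C, h1, h2⟩ := VEv_bddG R G
  refine ⟨C, h1, fun p hp => ?_⟩
  have h3 := h2 (evY p.1 : Lau k →+* ℂ) p.2 (fun F => ⟨rp p.1, rfl⟩) hp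
  exact h3

/-- A bound which is uniform under the shifts (`ev_sh`, `ev_bdd` for the coefficients). -/
theorem evO_sh_bdd (R : ℝ) (G : (Lau k)[X]) :
    ∃ C : ℝ, 0 ≤ C ∧ ∀ (i : ℤ) (p : Om k), p.2 ∈ Set.Icc (-R) R → ‖evO p (shX i G)‖ ≤ C := by
  obtain ⟨C, h1, h2⟩ := VEv_bddG R G
  refine ⟨C, h1, fun i p hp => ?_⟩
  have h3 := h2 ((evY p.1 : Lau k →+* ℂ).comp (sh (k := k) i : Lau k →+* Lau k)) p.2
    (fun F => ⟨fun q => rp p.1 (i + q.1, q.2), ev_sh i (rp p.1) F⟩) hp
  have h4 : evO p (shX i G) = Polynomial.eval₂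
      ((evY p.1 : Lau k →+* ℂ).comp (sh (k := k) i : Lau k →+* Lau k)) (p.2 : ℂ) G := by
    unfold evO shX
    rw [Polynomial.coe_eval₂RingHom, Polynomial.coe_mapRingHom, Polynomial.eval₂_map]
  rw [h4]
  exact h3

/-- Complex conjugation of values: `single η c ↦ single (-η) (conj c)`. -/
theorem exists_conj (G : (Lau k)[X]) :
    ∃ G' : (Lau k)[X], ∀ p : Om k, evO p G' = (starRingEnd ℂ) (evO p G) := by
  induction G using Polynomial.induction_on' with
  | add G1 G2 h1 h2 =>
    obtain ⟨G1', h1⟩ := h1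
    obtain ⟨G2', h2⟩ := h2
    refine ⟨G1' + G2', fun p => ?_⟩
    rw [map_add, map_add, map_add, h1, h2]
  | monomial n F =>
    obtain ⟨F', h1⟩ := VEv_conjF F
    refine ⟨Polynomial.monomial n F', fun p => ?_⟩
    unfold evO
    rw [Polynomial.coe_eval₂RingHom, Polynomial.eval₂_monomial, Polynomial.eval₂_monomial,
      map_mul, map_pow, Complex.conj_ofReal]
    congr 1
    exact h1 p.1

/-- Shift: `ev_sh`, `coe_rp`. -/
theorem evY_sh (i : ℤ) (y : ℤ × Fin k → UnitAddCircle) (F : Lau k) :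
    evY y (sh i F) = evY (fun j => y (sft i j)) F := by
  unfold evY
  rw [ev_sh]
  refine ev_congr _ _ (fun j => ?_) F
  rw [coe_rp]
  rw [coe_rp (fun j => y (sft i j)) j]
  unfold sft
  rw [add_comm i j.1]

/-- Relation with the finite torus: `ev_embS`, `evY_sh`, `coe_rp`. -/
theorem evY_embS (s : Finset (ℤ × Fin k)) (i : ℤ) (y : ℤ × Fin k → UnitAddCircle) (F : LauS s) :
    evY y (sh i (embS s F)) = evP (prS s i y) F := by
  rw [evY_sh]
  unfold evY
  rw [ev_embS]
  have h1 : projS s (rp fun j => y (sft i j)) = prS s i y := by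
    funext q
    unfold projS prS
    rw [coe_rp]
  rw [h1]

theorem evO_embSX (s : Finset (ℤ × Fin k)) (i : ℤ) (p : Om k) (G : (LauS s)[X]) :
    evO p (shX i (embSX s G)) = evG (prS s i p.1, p.2) G := by
  unfold evO shX embSX evG
  rw [Polynomial.coe_eval₂RingHom, Polynomial.coe_mapRingHom, Polynomial.coe_mapRingHom,
    Polynomial.eval₂_map, Polynomial.eval₂_map, Polynomial.coe_eval₂RingHom]
  congr 1
  apply RingHom.ext
  intro F
  exact evY_embS s i p.1 F

/-- Every polynomial involves only finitely many variables (`exists_embSX`, `derX_finite`). -/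
theorem exists_S (G : (Lau k)[X]) : ∃ (s : Finset (ℤ × Fin k)) (G' : (LauS s)[X]), embSX s G' = G := by
  classical
  refine ⟨G.support.biUnion fun n => (der_finite (G.coeff n)).toFinset, ?_⟩
  refine exists_embSX _ G fun l hl j => ?_
  by_cases hj : j ∈ G.support
  · by_contra h0
    apply hl
    rw [Finset.mem_biUnion]
    refine ⟨j, hj, ?_⟩
    rw [Set.Finite.mem_toFinset]
    exact h0
  · rw [Polynomial.notMem_support_iff.1 hj]
    exact GSh_der_zero l

/-- Two points of the torus are separated by a variable `single (single j 1) 1` (`fourier 1` is injective). -/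
theorem evY_sep (y y' : ℤ × Fin k → UnitAddCircle) (h : y ≠ y') : ∃ F : Lau k, evY y F ≠ evY y' F := by
  obtain ⟨j, hj⟩ := Function.ne_iff.1 h
  refine ⟨AddMonoidAlgebra.single (Finsupp.single j 1) 1, fun h0 => hj ?_⟩
  have h1 : ∀ z : ℤ × Fin k → UnitAddCircle,
      (Finsupp.single j (1 : ℤ)).prod (fun j e => (fourier e (z j) : ℂ)) = fourier 1 (z j) :=
    fun z => Finsupp.prod_single_index (h := fun j e => (fourier e (z j) : ℂ)) fourier_zero
  rw [evY_single, evY_single, one_mul, one_mul, h1, h1, fourier_one, fourier_one] at h0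
  exact AddCircle.injective_toCircle one_ne_zero (Subtype.ext h0)

end Pool.Agent.Wb5ab1bf
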