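import Pool.Agent.W_b5ab1bf_h80.VMeas

/-!
# Finite families of functionals (helper80)
-/

set_option autoImplicit false

noncomputable section

open scoped Polynomial
open Pool.Agent.Wb5ab1b MeasureTheory

namespace Pool.Agent.Wb5ab1bf

variable {k : ℕ} (B : Bd k)

/-- A finite family of indices of functionals `Phz` with polynomial coefficients. -/
structure Fam (k : ℕ) where
  ι : Type
  [fin : Fintype ι]
  c : ι → ℤ
  b : ι → ℤ
  z : ι → ℂ
  G : ι → (Lau k)[X]

attribute [instance] Fam.fin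

/-- The functional of the family. -/
def Fam.Φ (T : Fam k) : Fn (Lau k) := ∑ l, T.G l • Phz B (T.c l) (T.b l) (T.z l)

/-- The integral over the set `p.2 ∈ N` of a function for the family. -/
def Fam.J (T : Fam k) (m : ℤ → ℤ → ℂ → Measure (Om k)) (N : Set ℝ) (f : Om k → ℂ) : ℂ :=
  ∑ l, ∫ p in {p : Om k | p.2 ∈ N}, f p * evO p (T.G l) ∂(m (T.c l) (T.b l) (T.z l))

theorem VFam_app_sum {ι : Type} (s : Finset ι) (Φ : ι → Fn (Lau k)) (g : (Lau k)[X]) :
    (∑ i ∈ s, Φ i).app g = ∑ i ∈ s, (Φ i).app g := by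
  classical
  induction s using Finset.induction_on with
  | empty => rfl
  | insert a s ha ih => rw [Finset.sum_insert ha, Finset.sum_insert ha, Fn.app_add, ih]

theorem VFam_E_sum {ι : Type} (s : Finset ι) (F : ι → Lau k) :
    E (∑ i ∈ s, F i) = ∑ i ∈ s, E (F i) := by
  classical
  induction s using Finset.induction_on with
  | empty =>
    have h : E (0 : Lau k) + E (0 : Lau k) = E (0 : Lau k) := by rw [← E_add, add_zero]
    simpa using h
  | insert a s ha ih => rw [Finset.sum_insert ha, Finset.sum_insert ha, E_add, ih]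

/-- The integral of a polynomial: `E (W * Φ (G))`. -/
theorem Fam.int_eq (T : Fam k) {R : ℝ} (m : ℤ → ℤ → ℂ → Measure (Om k))
    (hm : ∀ c b z, IsM B R c b z (m c b z)) (G : (Lau k)[X]) :
    E ((T.Φ B).app G) = ∑ l, ∫ p, evO p (G * T.G l) ∂(m (T.c l) (T.b l) (T.z l)) := by
  unfold Fam.Φ
  rw [VFam_app_sum, VFam_E_sum]
  refine Finset.sum_congr rfl fun l _ => ?_
  rw [Fn.app_smul, mul_comm G (T.G l)]
  exact ((hm (T.c l) (T.b l) (T.z l)).2.2 (T.G l * G)).symm

/-- Multiplication of the coefficients. -/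
def Fam.mul (T : Fam k) (g : (Lau k)[X]) : Fam k where
  ι := T.ι
  c := T.c
  b := T.b
  z := T.z
  G l := g * T.G l

theorem Fam.mul_Φ (T : Fam k) (g : (Lau k)[X]) : (T.mul g).Φ B = g • T.Φ B := by
  unfold Fam.Φ Fam.mul
  rw [Finset.smul_sum]
  exact Finset.sum_congr rfl fun l _ => mul_smul _ _ _

end Pool.Agent.Wb5ab1bf
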