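import Pool.Agent.W_b5ab1b_h80.Dense
import Pool.Agent.W_b5ab1b_h80.NullB
import Pool.Agent.W_b5ab1b_h80.AcB

/-!
# Cutoff functions on the finite torus (helper80)
-/

set_option autoImplicit false

noncomputable section

open scoped Polynomial
open Pool.Agent.Wb5ab1b MeasureTheory

namespace Pool.Agent.Wb5ab1bf

theorem VMixB_univ {d : Type} [Fintype d] : (volume : Measure (UnitAddTorus d)) Set.univ = 1 := by
  show (Measure.pi fun _ : d => (volume : Measure UnitAddCircle)) Set.univ = 1
  rw [Measure.pi_univ]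
  refine Finset.prod_eq_one fun i _ => ?_
  rw [UnitAddCircle.measure_univ]

/-- The cutoff function. -/
def VMixB_F {d : Type} [Fintype d] (N : Set ℝ) (G : (AddMonoidAlgebra ℂ (d → ℤ))[X]) (n : ℕ)
    (z : ℝ × UnitAddTorus d) : ℝ :=
  max 0 (2 - (n + 1) * ‖evG (z.2, z.1) G‖) * max 0 (1 - (n + 1) * Metric.infDist z.1 N)

theorem VMixB_cont {d : Type} [Fintype d] (N : Set ℝ) (G : (AddMonoidAlgebra ℂ (d → ℤ))[X])
    (n : ℕ) : Continuous (VMixB_F N G n) := by
  unfold VMixB_F
  refine Continuous.mul ?_ ?_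
  · refine continuous_const.max (continuous_const.sub (continuous_const.mul ?_))
    exact ((evG_continuous G).comp (continuous_snd.prodMk continuous_fst)).norm
  · refine continuous_const.max (continuous_const.sub (continuous_const.mul ?_))
    exact (Metric.continuous_infDist_pt N).comp continuous_fst

theorem VMixB_nonneg {d : Type} [Fintype d] (N : Set ℝ) (G : (AddMonoidAlgebra ℂ (d → ℤ))[X])
    (n : ℕ) (z : ℝ × UnitAddTorus d) : 0 ≤ VMixB_F N G n z :=
  mul_nonneg (le_max_left _ _) (le_max_left _ _)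

theorem VMixB_le {d : Type} [Fintype d] (N : Set ℝ) (G : (AddMonoidAlgebra ℂ (d → ℤ))[X])
    (n : ℕ) (z : ℝ × UnitAddTorus d) : VMixB_F N G n z ≤ 2 := by
  unfold VMixB_F
  have h1 : max 0 (2 - ((n : ℝ) + 1) * ‖evG (z.2, z.1) G‖) ≤ 2 :=
    max_le (by norm_num) (by
      have : 0 ≤ ((n : ℝ) + 1) * ‖evG (z.2, z.1) G‖ := by positivity
      linarith)
  have h2 : max 0 (1 - ((n : ℝ) + 1) * Metric.infDist z.1 N) ≤ 1 :=
    max_le (by norm_num) (by
      have : 0 ≤ ((n : ℝ) + 1) * Metric.infDist z.1 N :=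
        mul_nonneg (by positivity) Metric.infDist_nonneg
      linarith)
  calc _ ≤ (2 : ℝ) * 1 := mul_le_mul h1 h2 (le_max_left _ _) (by norm_num)
    _ = 2 := by norm_num

theorem VMixB_lim {d : Type} [Fintype d] {N : Set ℝ} (hN : IsClosed N) (hN' : N.Nonempty)
    (G : (AddMonoidAlgebra ℂ (d → ℤ))[X]) (z : ℝ × UnitAddTorus d)
    (hz : ¬ (z.1 ∈ N ∧ evG (z.2, z.1) G = 0)) :
    Filter.Tendsto (fun n => VMixB_F N G n z) Filter.atTop (nhds 0) := by
  have key : ∀ c : ℝ, 0 < c → ∀ᶠ n : ℕ in Filter.atTop, 2 ≤ ((n : ℝ) + 1) * c := by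
    intro c hc
    obtain ⟨m, hm⟩ := exists_nat_gt (2 / c)
    filter_upwards [Filter.eventually_ge_atTop m] with n hn
    have h1 : (m : ℝ) ≤ n := by exact_mod_cast hn
    have h2 : 2 / c ≤ (n : ℝ) + 1 := by linarith
    rwa [div_le_iff₀ hc] at h2
  refine tendsto_const_nhds.congr' ?_
  by_cases h1 : z.1 ∈ N
  · have h2 : 0 < ‖evG (z.2, z.1) G‖ := norm_pos_iff.2 fun h => hz ⟨h1, h⟩
    filter_upwards [key _ h2] with n hn
    unfold VMixB_F
    rw [max_eq_left (by linarith : 2 - ((n : ℝ) + 1) * ‖evG (z.2, z.1) G‖ ≤ 0), zero_mul]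
  · have h2 : 0 < Metric.infDist z.1 N := (hN.notMem_iff_infDist_pos hN').1 h1
    filter_upwards [key _ h2] with n hn
    unfold VMixB_F
    rw [max_eq_left (by linarith : 1 - ((n : ℝ) + 1) * Metric.infDist z.1 N ≤ 0), mul_zero]

theorem VMixB_int {d : Type} [Fintype d] (ρ : Measure ℝ) [IsFiniteMeasure ρ]
    {N : Set ℝ} (hN : IsClosed N) (hN' : N.Nonempty)
    (G : (AddMonoidAlgebra ℂ (d → ℤ))[X])
    (hG : ∀ x ∈ N, G.eval (algebraMap ℂ (AddMonoidAlgebra ℂ (d → ℤ)) (x : ℂ)) ≠ 0) :
    Filter.Tendsto (fun n => ∫ z, VMixB_F N G n z ∂(ρ.prod (volume : Measure (UnitAddTorus d))))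
      Filter.atTop (nhds 0) := by
  have h0 : ∀ᵐ z ∂(ρ.prod (volume : Measure (UnitAddTorus d))),
      ¬ (z.1 ∈ N ∧ evG (z.2, z.1) G = 0) := by
    rw [ae_iff]
    simp only [not_not]
    have hcl : IsClosed {z : ℝ × UnitAddTorus d | z.1 ∈ N ∧ evG (z.2, z.1) G = 0} :=
      (hN.preimage continuous_fst).inter (isClosed_eq
        ((evG_continuous G).comp (continuous_snd.prodMk continuous_fst)) continuous_const)
    rw [Measure.measure_prod_null hcl.measurableSet]
    refine Filter.Eventually.of_forall fun x => ?_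
    by_cases hx : x ∈ N
    · refine measure_mono_null ?_ (null_zero _ (hG x hx))
      rintro y ⟨_, hy⟩
      show evP y _ = 0
      rw [← evG_eq_evP]
      exact hy
    · have : Prod.mk x ⁻¹' {z : ℝ × UnitAddTorus d | z.1 ∈ N ∧ evG (z.2, z.1) G = 0} = ∅ := by
        ext y
        constructor
        · intro h
          exact absurd h.1 hx
        · intro h
          exact absurd h (Set.notMem_empty y)
      show volume (Prod.mk x ⁻¹' {z : ℝ × UnitAddTorus d | z.1 ∈ N ∧ evG (z.2, z.1) G = 0}) = 0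
      rw [this]
      exact measure_empty
  have h1 : Filter.Tendsto (fun n => ∫ z, VMixB_F N G n z
      ∂(ρ.prod (volume : Measure (UnitAddTorus d)))) Filter.atTop
      (nhds (∫ _ : ℝ × UnitAddTorus d, (0 : ℝ) ∂(ρ.prod (volume : Measure (UnitAddTorus d))))) := by
    refine tendsto_integral_of_dominated_convergence (fun _ => 2)
      (fun n => (VMixB_cont N G n).aestronglyMeasurable) (integrable_const _) ?_ ?_
    · intro n
      refine Filter.Eventually.of_forall fun z => ?_
      rw [Real.norm_of_nonneg (VMixB_nonneg N G n z)]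
      exact VMixB_le N G n z
    · filter_upwards [h0] with z hz using VMixB_lim hN hN' G z hz
  rwa [integral_zero] at h1

/-- A polynomial which is (almost) at least the indicator function of the set where `x ∈ N` and `|G| ≤ δ`, and whose
mean value is small.

Proof. For `δ > 0` let `F δ (y, x) := max 0 (2 - ‖evG (y, x) G‖ / δ) * max 0 (1 - infDist x N / δ)`: continuous, with
values in `[0, 2]`, `≥ 1` if `x ∈ N` and `‖evG (y, x) G‖ ≤ δ`, and for `δ → 0` (along `1 / n`) it tends to
`2 * 1_{x ∈ N, evG (y, x) G = 0}` (`N` closed; if `N = ∅` take `G' = constant ε`, the first statement is empty). For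
`x ∈ N` the set `{y | evG (y, x) G = 0}` has volume `0` (`null_zero` for `G.eval x ≠ 0`, `evG_eq_evP`). By dominated
convergence (for the finite measure `volume × ρ`) `∫ ∫ F δ → 0`; choose `δ` with `∫ ∫ F δ ≤ ε / 2`. By `dense_evG`
there is `H` with `‖evG (y, x) H - F δ (y, x)‖ ≤ ε'` on `[-R, R]`, `ε' := ε / (4 (1 + ρ univ))`; take
`G' := H + constant ε'`. -/
theorem cutoff {d : Type} [Fintype d] (R : ℝ) (ρ : Measure ℝ) [IsFiniteMeasure ρ]
    (hρ : ρ (Set.Icc (-R) R)ᶜ = 0) (N : Set ℝ) (hN : IsCompact N)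
    (G : (AddMonoidAlgebra ℂ (d → ℤ))[X])
    (hG : ∀ x ∈ N, G.eval (algebraMap ℂ (AddMonoidAlgebra ℂ (d → ℤ)) (x : ℂ)) ≠ 0) (ε : ℝ)
    (hε : 0 < ε) :
    ∃ δ : ℝ, 0 < δ ∧ ∃ G' : (AddMonoidAlgebra ℂ (d → ℤ))[X],
      (∀ (y : UnitAddTorus d) (x : ℝ), x ∈ Set.Icc (-R) R → 0 ≤ (evG (y, x) G').re) ∧
      (∀ (y : UnitAddTorus d) (x : ℝ), x ∈ Set.Icc (-R) R → x ∈ N → ‖evG (y, x) G‖ ≤ δ →
        1 ≤ (evG (y, x) G').re) ∧
      (∫ x, (∫ y : UnitAddTorus d, evG (y, x) G') ∂ρ).re ≤ ε := by
  classical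
  -- the value of a constant
  have hconst : ∀ (c : ℝ) (p : UnitAddTorus d × ℝ), evG p (Polynomial.C
      (algebraMap ℂ (AddMonoidAlgebra ℂ (d → ℤ)) (c : ℂ))) = (c : ℂ) := by
    intro c p
    simp only [evG, Polynomial.coe_eval₂RingHom, Polynomial.eval₂_C]
    exact (evP p.1).commutes (c : ℂ)
  have hρ0 : 0 ≤ ρ.real Set.univ := measureReal_nonneg
  have hvol1 : (volume : Measure (UnitAddTorus d)) Set.univ = 1 := VMixB_univ
  have hvol : (volume : Measure (UnitAddTorus d)).real Set.univ = 1 := by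
    rw [measureReal_def, hvol1, ENNReal.toReal_one]
  rcases N.eq_empty_or_nonempty with rfl | hN'
  · refine ⟨1, one_pos, Polynomial.C (algebraMap ℂ (AddMonoidAlgebra ℂ (d → ℤ))
      ((ε / (1 + ρ.real Set.univ) : ℝ) : ℂ)), ?_, ?_, ?_⟩
    · intro y x _
      rw [hconst, Complex.ofReal_re]
      positivity
    · intro y x _ hx
      exact absurd hx (Set.notMem_empty x)
    · simp only [hconst]
      rw [integral_const, integral_const, hvol, one_smul, Complex.real_smul,
        ← Complex.ofReal_mul, Complex.ofReal_re]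
      rw [mul_div_assoc', div_le_iff₀ (by positivity)]
      nlinarith
  · have hlim := VMixB_int ρ hN.isClosed hN' G hG
    obtain ⟨n, hn⟩ := (hlim.eventually (gt_mem_nhds (by positivity : (0 : ℝ) < ε / 2))).exists
    set ε' : ℝ := ε / (4 * (1 + ρ.real Set.univ)) with hε'
    have hε'0 : 0 < ε' := by positivity
    obtain ⟨H, hH⟩ := dense_evG (d := d) R
      ⟨fun z => ((VMixB_F N G n ((z.2 : ℝ), z.1) : ℝ) : ℂ), by
        refine Complex.continuous_ofReal.comp ((VMixB_cont N G n).comp ?_)
        exact (continuous_subtype_val.comp continuous_snd).prodMk continuous_fst⟩ ε' hε'0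
    have hH' : ∀ (y : UnitAddTorus d) (x : ℝ), x ∈ Set.Icc (-R) R →
        |(evG (y, x) H).re - VMixB_F N G n (x, y)| ≤ ε' := by
      intro y x hx
      have h1 := hH (y, ⟨x, hx⟩)
      have h2 : (evG (y, x) H).re - VMixB_F N G n (x, y) =
          (evG (y, x) H - ((VMixB_F N G n (x, y) : ℝ) : ℂ)).re := by
        rw [Complex.sub_re, Complex.ofReal_re]
      rw [h2]
      exact (Complex.abs_re_le_norm _).trans h1
    set G' := H + Polynomial.C (algebraMap ℂ (AddMonoidAlgebra ℂ (d → ℤ)) (ε' : ℂ)) with hG'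
    have hG'v : ∀ (y : UnitAddTorus d) (x : ℝ), (evG (y, x) G').re = (evG (y, x) H).re + ε' := by
      intro y x
      rw [hG', map_add, hconst, Complex.add_re, Complex.ofReal_re]
    refine ⟨1 / (n + 1), by positivity, G', ?_, ?_, ?_⟩
    · intro y x hx
      rw [hG'v]
      have h1 := hH' y x hx
      have h2 := VMixB_nonneg N G n (x, y)
      rw [abs_le] at h1
      linarith [h1.1]
    · intro y x hx hxN hle
      rw [hG'v]
      have h1 := hH' y x hx
      have h2 : 1 ≤ VMixB_F N G n (x, y) := by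
        unfold VMixB_F
        have h3 : Metric.infDist x N = 0 := Metric.infDist_zero_of_mem hxN
        simp only [h3, mul_zero, sub_zero]
        rw [max_eq_right (by norm_num : (0 : ℝ) ≤ 1), mul_one]
        refine le_max_of_le_right ?_
        have h4 : ((n : ℝ) + 1) * ‖evG (y, x) G‖ ≤ 1 := by
          calc ((n : ℝ) + 1) * ‖evG (y, x) G‖ ≤ ((n : ℝ) + 1) * (1 / (n + 1)) :=
                mul_le_mul_of_nonneg_left hle (by positivity)
            _ = 1 := by field_simp
        linarith
      rw [abs_le] at h1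
      linarith [h1.1]
    · obtain ⟨C, hC0, hC⟩ := AcB_bound R G'
      have haeR : ∀ᵐ z ∂(ρ.prod (volume : Measure (UnitAddTorus d))), z.1 ∈ Set.Icc (-R) R := by
        have h1 : ∀ᵐ x ∂ρ, x ∈ Set.Icc (-R) R := hρ
        exact Measure.quasiMeasurePreserving_fst.ae h1
      have hint : Integrable (fun z : ℝ × UnitAddTorus d => evG (z.2, z.1) G')
          (ρ.prod (volume : Measure (UnitAddTorus d))) := by
        refine Integrable.of_bound ((evG_continuous G').comp
          (continuous_snd.prodMk continuous_fst)).aestronglyMeasurable C ?_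
        filter_upwards [haeR] with z hz using hC (z.2, z.1) hz
      have hF : Integrable (VMixB_F N G n) (ρ.prod (volume : Measure (UnitAddTorus d))) := by
        refine Integrable.of_bound (VMixB_cont N G n).aestronglyMeasurable 2 ?_
        refine Filter.Eventually.of_forall fun z => ?_
        rw [Real.norm_of_nonneg (VMixB_nonneg N G n z)]
        exact VMixB_le N G n z
      have h1 : (∫ x, (∫ y : UnitAddTorus d, evG (y, x) G') ∂ρ).re =
          ∫ z, (evG (z.2, z.1) G').re ∂(ρ.prod (volume : Measure (UnitAddTorus d))) := by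
        have h2 := integral_prod (fun z : ℝ × UnitAddTorus d => evG (z.2, z.1) G') hint
        have h3 : ∫ z, (evG (z.2, z.1) G').re ∂(ρ.prod (volume : Measure (UnitAddTorus d))) =
            (∫ z, evG (z.2, z.1) G' ∂(ρ.prod (volume : Measure (UnitAddTorus d)))).re :=
          integral_re hint
        rw [h3, h2]
      rw [h1]
      have h4 : ∫ z, (evG (z.2, z.1) G').re ∂(ρ.prod (volume : Measure (UnitAddTorus d))) ≤
          ∫ z, (VMixB_F N G n z + 2 * ε') ∂(ρ.prod (volume : Measure (UnitAddTorus d))) := by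
        refine integral_mono_ae hint.re (hF.add (integrable_const _)) ?_
        filter_upwards [haeR] with z hz
        show (evG (z.2, z.1) G').re ≤ VMixB_F N G n z + 2 * ε'
        rw [hG'v]
        have h5 := hH' z.2 z.1 hz
        rw [abs_le] at h5
        have h6 : VMixB_F N G n (z.1, z.2) = VMixB_F N G n z := rfl
        rw [h6] at h5
        linarith [h5.2]
      refine h4.trans ?_
      rw [integral_add hF (integrable_const _), integral_const]
      have h7 : (ρ.prod (volume : Measure (UnitAddTorus d))).real Set.univ = ρ.real Set.univ := by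
        rw [measureReal_def, measureReal_def, ← Set.univ_prod_univ, Measure.prod_prod,
          hvol1, mul_one]
      rw [h7, smul_eq_mul]
      have h8 : ρ.real Set.univ * (2 * ε') ≤ ε / 2 := by
        rw [hε']
        rw [show ρ.real Set.univ * (2 * (ε / (4 * (1 + ρ.real Set.univ)))) =
          (ε / 2) * (ρ.real Set.univ / (1 + ρ.real Set.univ)) by field_simp; ring]
        have h9 : ρ.real Set.univ / (1 + ρ.real Set.univ) ≤ 1 := by
          rw [div_le_one (by positivity)]
          linarith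
        nlinarith
      linarith

end Pool.Agent.Wb5ab1bf
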