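import Pool.Agent.W_b5ab1bf_h80.VMixA
import Pool.Agent.W_b5ab1bf_h80.VMixB

/-!
# Mixing (helper80)
-/

set_option autoImplicit false

noncomputable section

open scoped Polynomial
open Pool.Agent.Wb5ab1b MeasureTheory

namespace Pool.Agent.Wb5ab1bf

variable {k : ℕ} (B : Bd k)

theorem VMix_eval (s : Finset (ℤ × Fin k)) (G₀ : (LauS s)[X]) (x : ℂ) :
    (embSX s G₀).eval (algebraMap ℂ (Lau k) x) = embS s (G₀.eval (algebraMap ℂ (LauS s) x)) := by
  unfold embSX
  rw [Polynomial.coe_mapRingHom, Polynomial.eval_map, ← AlgHom.commutes (embS s) x]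
  exact Polynomial.eval₂_at_apply (embS s : LauS s →+* Lau k) _

theorem VMix_integrable {R : ℝ} (μ : Measure (Om k)) [IsFiniteMeasure μ]
    (h : ∀ᵐ p ∂μ, p.2 ∈ Set.Icc (-R) R) (G : (Lau k)[X]) :
    Integrable (fun p => evO p G) μ := by
  obtain ⟨C, _, hC⟩ := evO_bdd R G
  refine Integrable.of_bound (evO_continuous G).measurable.aestronglyMeasurable C ?_
  filter_upwards [h] with p hp
  exact hC p hp

/-- **Mixing.** The set where `x ∈ N` and a far shift of `G` is small has small measure, uniformly.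

Proof. `G = embSX s G₀` (`exists_S`); `G₀.eval x ≠ 0` for `x ∈ N` (`embSX_C`: the image of `G₀.eval x` under `embS s`
is `G.eval x`). `ρ := (m c b z).map snd` (finite, supported in `[-R, R]`). `cutoff` gives `δ`, `G'`; by `E_far` and
`limI_eq` there is `i₀` with `∫ p, evO p (shX i (embSX s G')) ∂(m (c + a) (b + a) z) = limI = ∫ ∫ evG (y, x) G'` for
`i₀ ≤ |i - a|`, so its real part is `≤ ε`. Almost everywhere `p.2 ∈ [-R, R]`, and there
`re (evO p (shX i (embSX s G'))) = re (evG (prS s i p.1, p.2) G')` (`evO_embSX`) is `≥ 0`, and `≥ 1` if `p.2 ∈ N` and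
`‖evO p (shX i G)‖ ≤ δ`. So the measure of this (measurable: `evO_continuous`, `N` closed) set is at most the
integral, `≤ ε`. -/
theorem mixing {R : ℝ} (m : ℤ → ℤ → ℂ → Measure (Om k)) (hm : ∀ c b z, IsM B R c b z (m c b z))
    (N : Set ℝ) (hN : IsCompact N) (G : (Lau k)[X])
    (hG : ∀ x ∈ N, G.eval (algebraMap ℂ (Lau k) ((x : ℝ) : ℂ)) ≠ 0) (c b : ℤ) (z : ℂ) (ε : ℝ)
    (hε : 0 < ε) :
    ∃ δ : ℝ, 0 < δ ∧ ∃ i₀ : ℤ, ∀ a i : ℤ, i₀ ≤ |i - a| →
      (m (c + a) (b + a) z) {p | p.2 ∈ N ∧ ‖evO p (shX i G)‖ ≤ δ} ≤ ENNReal.ofReal ε := by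
  obtain ⟨s, G₀, rfl⟩ := exists_S G
  have hG₀ : ∀ x ∈ N, G₀.eval (algebraMap ℂ (LauS s) ((x : ℝ) : ℂ)) ≠ 0 := by
    intro x hx h
    apply hG x hx
    rw [VMix_eval, h, map_zero]
  haveI : IsFiniteMeasure (m c b z) := (hm c b z).1
  have hρ : ((m c b z).map Prod.snd) (Set.Icc (-R) R)ᶜ = 0 := by
    rw [Measure.map_apply measurable_snd measurableSet_Icc.compl]
    exact (hm c b z).2.1
  obtain ⟨δ, hδ, G', h1, h2, h3⟩ := cutoff (d := s) R ((m c b z).map Prod.snd) hρ N hN G₀ hG₀ ε hε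
  obtain ⟨i₀, hi₀⟩ := E_far B c b z (embSX s G')
  refine ⟨δ, hδ, i₀, fun a i hai => ?_⟩
  obtain ⟨hfin, hsupp, hint⟩ := hm (c + a) (b + a) z
  set μ : Measure (Om k) := m (c + a) (b + a) z with hμ
  have hae : ∀ᵐ p ∂μ, p.2 ∈ Set.Icc (-R) R := by
    rw [ae_iff]
    exact hsupp
  have hI := VMix_integrable μ hae (shX i (embSX s G'))
  set f : Om k → ℝ := fun p => (evO p (shX i (embSX s G'))).re with hf
  have hfI : Integrable f μ := hI.re
  have hf0 : 0 ≤ᵐ[μ] f := by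
    filter_upwards [hae] with p hp
    show 0 ≤ (evO p (shX i (embSX s G'))).re
    rw [evO_embSX]
    exact h1 _ _ hp
  have hle : ∫ p, f p ∂μ ≤ ε := by
    have e1 : ∫ p, f p ∂μ = (∫ p, evO p (shX i (embSX s G')) ∂μ).re := integral_re hI
    rw [e1, hint, hi₀ a i hai, limI_eq B (hm c b z) s G']
    exact h3
  have hmeas : MeasurableSet {p : Om k | p.2 ∈ N ∧ ‖evO p (shX i (embSX s G₀))‖ ≤ δ} := by
    apply MeasurableSet.inter
    · exact measurable_snd hN.measurableSet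
    · exact measurableSet_le (evO_continuous _).norm.measurable measurable_const
  calc μ {p | p.2 ∈ N ∧ ‖evO p (shX i (embSX s G₀))‖ ≤ δ}
      = ∫⁻ p, Set.indicator {p : Om k | p.2 ∈ N ∧ ‖evO p (shX i (embSX s G₀))‖ ≤ δ} 1 p ∂μ :=
        (lintegral_indicator_one hmeas).symm
    _ ≤ ∫⁻ p, ENNReal.ofReal (f p) ∂μ := by
        apply lintegral_mono_ae
        filter_upwards [hae] with p hp
        by_cases hpS : p ∈ {p : Om k | p.2 ∈ N ∧ ‖evO p (shX i (embSX s G₀))‖ ≤ δ}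
        · rw [Set.indicator_of_mem hpS]
          have h4 : 1 ≤ f p := by
            show 1 ≤ (evO p (shX i (embSX s G'))).re
            rw [evO_embSX]
            refine h2 _ _ hp hpS.1 ?_
            rw [← evO_embSX]
            exact hpS.2
          have h5 := ENNReal.ofReal_le_ofReal h4
          rw [ENNReal.ofReal_one] at h5
          exact h5
        · rw [Set.indicator_of_notMem hpS]
          exact zero_le
    _ = ENNReal.ofReal (∫ p, f p ∂μ) := (ofReal_integral_eq_lintegral_ofReal hfI hf0).symm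
    _ ≤ ENNReal.ofReal ε := ENNReal.ofReal_le_ofReal hle

end Pool.Agent.Wb5ab1bf
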