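import Pool.Agent.W_b5ab1bf_h80.VFam

/-!
# From polynomials to bounded measurable functions (helper80)
-/

set_option autoImplicit false

noncomputable section

open scoped Polynomial
open Pool.Agent.Wb5ab1b MeasureTheory

namespace Pool.Agent.Wb5ab1bf

variable {k : ℕ} (B : Bd k)

/-- Bounded measurable functions are integrable against the terms of the family. -/
theorem VVb_int (T : Fam k) {R : ℝ} (m : ℤ → ℤ → ℂ → Measure (Om k))
    (hm : ∀ c b z, IsM B R c b z (m c b z)) (N : Set ℝ) (f : Om k → ℂ)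
    (hf : Measurable f) (C : ℝ)
    (hC : ∀ p : Om k, p.2 ∈ Set.Icc (-R) R → ‖f p‖ ≤ C) (l : T.ι) :
    Integrable (fun p => f p * evO p (T.G l))
      ((m (T.c l) (T.b l) (T.z l)).restrict {p : Om k | p.2 ∈ N}) := by
  obtain ⟨h1, h2, -⟩ := hm (T.c l) (T.b l) (T.z l)
  obtain ⟨D, hD0, hD⟩ := evO_bdd R (T.G l)
  have hae : ∀ᵐ p ∂((m (T.c l) (T.b l) (T.z l)).restrict {p : Om k | p.2 ∈ N}),
      p.2 ∈ Set.Icc (-R) R := by
    refine ae_restrict_of_ae ?_
    exact h2
  refine Integrable.of_bound (hf.mul (evO_continuous _).measurable).aestronglyMeasurable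
    (C * D) ?_
  filter_upwards [hae] with p hp
  rw [norm_mul]
  exact mul_le_mul (hC p hp) (hD p hp) (norm_nonneg _) ((norm_nonneg _).trans (hC p hp))

/-- The bound of the functional by the supremum. -/
theorem VVb_bd (T : Fam k) {R : ℝ} (m : ℤ → ℤ → ℂ → Measure (Om k))
    (hm : ∀ c b z, IsM B R c b z (m c b z)) (N : Set ℝ) :
    ∃ A : ℝ, 0 ≤ A ∧ ∀ (f : Om k → ℂ) (C : ℝ), 0 ≤ C →
      (∀ p : Om k, p.2 ∈ Set.Icc (-R) R → ‖f p‖ ≤ C) → ‖T.J m N f‖ ≤ A * C := by
  choose D hD0 hD using fun l => evO_bdd R (T.G l)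
  refine ⟨∑ l, D l * (((m (T.c l) (T.b l) (T.z l)).restrict {p : Om k | p.2 ∈ N}).real Set.univ),
    Finset.sum_nonneg fun l _ => mul_nonneg (hD0 l) measureReal_nonneg, fun f C hC0 hC => ?_⟩
  rw [Finset.sum_mul]
  refine (norm_sum_le _ _).trans (Finset.sum_le_sum fun l _ => ?_)
  obtain ⟨h1, h2, -⟩ := hm (T.c l) (T.b l) (T.z l)
  have hae : ∀ᵐ p ∂((m (T.c l) (T.b l) (T.z l)).restrict {p : Om k | p.2 ∈ N}),
      p.2 ∈ Set.Icc (-R) R := by
    refine ae_restrict_of_ae ?_
    exact h2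
  have h3 : ∀ᵐ p ∂((m (T.c l) (T.b l) (T.z l)).restrict {p : Om k | p.2 ∈ N}),
      ‖f p * evO p (T.G l)‖ ≤ C * D l := by
    filter_upwards [hae] with p hp
    rw [norm_mul]
    exact mul_le_mul (hC p hp) (hD l p hp) (norm_nonneg _) hC0
  refine (norm_integral_le_of_norm_le_const h3).trans (le_of_eq ?_)
  ring

/-- Additivity. -/
theorem VVb_sub (T : Fam k) {R : ℝ} (m : ℤ → ℤ → ℂ → Measure (Om k))
    (hm : ∀ c b z, IsM B R c b z (m c b z)) (N : Set ℝ) (f g : Om k → ℂ)
    (hf : Measurable f) (hg : Measurable g) (C C' : ℝ)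
    (hC : ∀ p : Om k, p.2 ∈ Set.Icc (-R) R → ‖f p‖ ≤ C)
    (hC' : ∀ p : Om k, p.2 ∈ Set.Icc (-R) R → ‖g p‖ ≤ C') :
    T.J m N (fun p => f p - g p) = T.J m N f - T.J m N g := by
  unfold Fam.J
  rw [← Finset.sum_sub_distrib]
  refine Finset.sum_congr rfl fun l _ => ?_
  rw [← integral_sub (VVb_int B T m hm N f hf C hC l) (VVb_int B T m hm N g hg C' hC' l)]
  refine integral_congr_ae (Filter.Eventually.of_forall fun p => ?_)
  show (f p - g p) * evO p (T.G l) = f p * evO p (T.G l) - g p * evO p (T.G l)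
  ring

/-- Continuous functions. -/
theorem VVb_cont (T : Fam k) {R : ℝ} (m : ℤ → ℤ → ℂ → Measure (Om k))
    (hm : ∀ c b z, IsM B R c b z (m c b z)) (N : Set ℝ)
    (h : ∀ W : (Lau k)[X], T.J m N (fun p => evO p W) = 0) (g : Om k → ℂ) (hg : Continuous g)
    (C : ℝ) (hC : ∀ p, ‖g p‖ ≤ C) : T.J m N g = 0 := by
  obtain ⟨A, hA0, hA⟩ := VVb_bd B T m hm N
  rw [← norm_eq_zero]
  refine le_antisymm (le_of_forall_pos_le_add fun ε hε => ?_) (norm_nonneg _)
  rw [zero_add]
  obtain ⟨W, hW⟩ := dense_evCC (k := k) R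
    ⟨fun q => g (q.1, ((q.2 : Set.Icc (-R) R) : ℝ)), by
      exact hg.comp (continuous_fst.prodMk (continuous_subtype_val.comp continuous_snd))⟩
    (ε / (A + 1)) (by positivity)
  obtain ⟨D, hD0, hD⟩ := evO_bdd R W
  have h1 := VVb_sub B T m hm N g (fun p => evO p W) hg.measurable (evO_continuous W).measurable
    C D (fun p _ => hC p) hD
  rw [h W, sub_zero] at h1
  rw [← h1]
  refine (hA _ (ε / (A + 1)) (by positivity) fun p hp => ?_).trans ?_
  · have h2 := hW (p.1, ⟨p.2, hp⟩)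
    rw [norm_sub_rev] at h2
    exact h2
  · rw [mul_div_assoc', div_le_iff₀ (by positivity)]
    nlinarith

/-- From polynomials to bounded measurable functions.

Proof. Let `ρ := ∑ l, m_l` (a finite measure, supported in `p.2 ∈ [-R, R]`) and `C` a bound of all the
`‖evO p (T.G l)‖` there. The functional `T.J m N f` is bounded by `C * ∫ ‖f‖ dρ`. The bounded continuous functions are
dense in `L¹(ρ)` (`MeasureTheory.Integrable.exists_hasCompactSupport_integral_sub_le` or
`MeasureTheory.Lp` density; the space is a second countable compact metrizable torus times the line), and a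
continuous function is uniformly approximated on `p.2 ∈ [-R, R]` by polynomials (`dense_evCC`). -/
theorem Fam.int_zero' (T : Fam k) {R : ℝ} (m : ℤ → ℤ → ℂ → Measure (Om k))
    (hm : ∀ c b z, IsM B R c b z (m c b z)) (N : Set ℝ) (hN : IsCompact N)
    (h : ∀ W : (Lau k)[X], T.J m N (fun p => evO p W) = 0) (f : Om k → ℂ) (hf : Measurable f)
    (C : ℝ) (hC : ∀ p, ‖f p‖ ≤ C) : T.J m N f = 0 := by
  classical
  choose D hD0 hD using fun l => evO_bdd R (T.G l)
  have hfin : ∀ l, IsFiniteMeasure (m (T.c l) (T.b l) (T.z l)) := fun l =>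
    (hm (T.c l) (T.b l) (T.z l)).1
  let ρ : Measure (Om k) := ∑ l, (m (T.c l) (T.b l) (T.z l)).restrict {p : Om k | p.2 ∈ N}
  have hρ : ∀ l, (m (T.c l) (T.b l) (T.z l)).restrict {p : Om k | p.2 ∈ N} ≤ ρ := by
    intro l
    refine Measure.le_iff.2 fun s _ => ?_
    show _ ≤ (∑ l, (m (T.c l) (T.b l) (T.z l)).restrict {p : Om k | p.2 ∈ N}) s
    rw [Measure.finset_sum_apply]
    exact Finset.single_le_sum (f := fun l => ((m (T.c l) (T.b l) (T.z l)).restrict
      {p : Om k | p.2 ∈ N}) s) (fun _ _ => bot_le) (Finset.mem_univ l)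
  have hρf : IsFiniteMeasure ρ := by
    refine ⟨?_⟩
    show (∑ l, (m (T.c l) (T.b l) (T.z l)).restrict {p : Om k | p.2 ∈ N}) Set.univ < ⊤
    rw [Measure.finset_sum_apply]
    exact ENNReal.sum_lt_top.2 fun l _ => measure_lt_top _ _
  have hfi : Integrable f ρ := Integrable.of_bound hf.aestronglyMeasurable C
    (Filter.Eventually.of_forall hC)
  have hDs : 0 ≤ ∑ l, D l := Finset.sum_nonneg fun l _ => hD0 l
  rw [← norm_eq_zero]
  refine le_antisymm (le_of_forall_pos_le_add fun ε hε => ?_) (norm_nonneg _)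
  rw [zero_add]
  obtain ⟨g, hg, hgi⟩ := hfi.exists_boundedContinuous_integral_sub_le
    (ε := ε / (∑ l, D l + 1)) (by positivity)
  have hgm : Measurable (fun p => g p) := g.continuous.measurable
  have hgb : ∀ p, ‖g p‖ ≤ ‖g‖ := fun p => g.norm_coe_le_norm p
  have h1 := VVb_sub B T m hm N f (fun p => g p) hf hgm C ‖g‖ (fun p _ => hC p) (fun p _ => hgb p)
  rw [VVb_cont B T m hm N h (fun p => g p) g.continuous ‖g‖ hgb, sub_zero] at h1
  rw [← h1]
  unfold Fam.J
  refine (norm_sum_le _ _).trans ?_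
  have h2 : ∀ l ∈ (Finset.univ : Finset T.ι),
      ‖∫ p in {p : Om k | p.2 ∈ N}, (f p - g p) * evO p (T.G l)
        ∂(m (T.c l) (T.b l) (T.z l))‖ ≤ D l * (ε / (∑ l, D l + 1)) := by
    intro l _
    obtain ⟨-, h2, -⟩ := hm (T.c l) (T.b l) (T.z l)
    have hae : ∀ᵐ p ∂((m (T.c l) (T.b l) (T.z l)).restrict {p : Om k | p.2 ∈ N}),
        p.2 ∈ Set.Icc (-R) R := by
      refine ae_restrict_of_ae ?_
      exact h2
    have hfg : Integrable (fun p => ‖f p - g p‖) ρ := (hfi.sub hgi).norm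
    have hfg' : Integrable (fun p => ‖f p - g p‖)
        ((m (T.c l) (T.b l) (T.z l)).restrict {p : Om k | p.2 ∈ N}) := hfg.mono_measure (hρ l)
    have h3 : ‖∫ p in {p : Om k | p.2 ∈ N}, (f p - g p) * evO p (T.G l)
        ∂(m (T.c l) (T.b l) (T.z l))‖ ≤
        ∫ p in {p : Om k | p.2 ∈ N}, D l * ‖f p - g p‖ ∂(m (T.c l) (T.b l) (T.z l)) := by
      refine norm_integral_le_of_norm_le (hfg'.const_mul _) ?_
      filter_upwards [hae] with p hp
      rw [norm_mul, mul_comm]
      exact mul_le_mul_of_nonneg_right (hD l p hp) (norm_nonneg _)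
    refine h3.trans ?_
    rw [integral_const_mul]
    refine mul_le_mul_of_nonneg_left ?_ (hD0 l)
    refine le_trans ?_ hg
    exact integral_mono_measure (hρ l) (Filter.Eventually.of_forall fun p => norm_nonneg _) hfg
  refine (Finset.sum_le_sum h2).trans ?_
  rw [← Finset.sum_mul, mul_div_assoc', div_le_iff₀ (by positivity)]
  nlinarith

end Pool.Agent.Wb5ab1bf
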