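import Pool.Agent.W_b5ab1bf_h80.VVa
import Pool.Agent.W_b5ab1bf_h80.VVb
import Pool.Agent.W_b5ab1bf_h80.VMix

/-!
# Removal of the denominators (helper80)
-/

set_option autoImplicit false

noncomputable section

open scoped Polynomial
open Pool.Agent.Wb5ab1b MeasureTheory

namespace Pool.Agent.Wb5ab1bf

variable {k : ℕ} (B : Bd k)

theorem VVan_mul_J (T : Fam k) (m : ℤ → ℤ → ℂ → Measure (Om k)) (N : Set ℝ) (g : (Lau k)[X])
    (f : Om k → ℂ) : (T.mul g).J m N f = T.J m N (fun p => f p * evO p g) := by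
  unfold Fam.J
  refine Finset.sum_congr rfl fun l _ => ?_
  refine integral_congr_ae (Filter.Eventually.of_forall fun p => ?_)
  show f p * evO p (g * T.G l) = f p * evO p g * evO p (T.G l)
  rw [map_mul, mul_assoc]

/-- The functional vanishes on functions supported where `evO p g ≠ 0`. -/
theorem VVan_supp (T : Fam k) {R : ℝ} (m : ℤ → ℤ → ℂ → Measure (Om k))
    (hm : ∀ c b z, IsM B R c b z (m c b z)) (N : Set ℝ)
    (g : (Lau k)[X])
    (h : ∀ f : Om k → ℂ, Measurable f → (∃ C : ℝ, ∀ p, ‖f p‖ ≤ C) → (T.mul g).J m N f = 0)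
    (f : Om k → ℂ) (hf : Measurable f) (C : ℝ) (hC : ∀ p, ‖f p‖ ≤ C) :
    T.J m N (fun p => ({p : Om k | evO p g ≠ 0}).indicator f p) = 0 := by
  classical
  have hfin : ∀ l, IsFiniteMeasure (m (T.c l) (T.b l) (T.z l)) := fun l => (hm _ _ _).1
  have hg : Measurable fun p : Om k => evO p g := (evO_continuous g).measurable
  have hC0 : 0 ≤ C := (norm_nonneg _).trans (hC (fun _ => 0, 0))
  set S : ℕ → Set (Om k) := fun n => {p | 1 / ((n : ℝ) + 1) < ‖evO p g‖} with hS
  have hSm : ∀ n, MeasurableSet (S n) := fun n => measurableSet_lt measurable_const hg.norm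
  have h0 : ∀ n, T.J m N (fun p => (S n).indicator f p) = 0 := by
    intro n
    have hpos : 0 < 1 / ((n : ℝ) + 1) := by positivity
    have h1 := h (fun p => (S n).indicator (fun p => f p / evO p g) p)
      ((hf.div hg).indicator (hSm n)) ⟨C / (1 / ((n : ℝ) + 1)), fun p => ?_⟩
    · rw [VVan_mul_J] at h1
      rw [← h1]
      congr 1
      funext p
      by_cases hp : p ∈ S n
      · rw [Set.indicator_of_mem hp, Set.indicator_of_mem hp]
        have h2 : evO p g ≠ 0 := by
          intro h3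
          have h4 : 1 / ((n : ℝ) + 1) < ‖evO p g‖ := hp
          rw [h3, norm_zero] at h4
          exact absurd h4 (not_lt.mpr hpos.le)
        rw [div_mul_cancel₀ _ h2]
      · rw [Set.indicator_of_notMem hp, Set.indicator_of_notMem hp, zero_mul]
    · by_cases hp : p ∈ S n
      · rw [Set.indicator_of_mem hp, norm_div]
        have h4 : 1 / ((n : ℝ) + 1) < ‖evO p g‖ := hp
        exact div_le_div₀ hC0 (hC p) hpos h4.le
      · rw [Set.indicator_of_notMem hp, norm_zero]
        positivity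
  have hlim : Filter.Tendsto (fun n => T.J m N (fun p => (S n).indicator f p)) Filter.atTop
      (nhds (T.J m N (fun p => ({p : Om k | evO p g ≠ 0}).indicator f p))) := by
    unfold Fam.J
    refine tendsto_finsetSum _ fun l _ => ?_
    obtain ⟨C', hC'0, hC'⟩ := evO_bdd (k := k) R (T.G l)
    have hmem : ∀ᵐ p ∂(m (T.c l) (T.b l) (T.z l)), p.2 ∈ Set.Icc (-R) R := by
      rw [ae_iff]
      exact (hm _ _ _).2.1
    refine tendsto_integral_of_dominated_convergence (fun _ => C * C') (fun n => ?_)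
      (integrable_const _) (fun n => ?_) ?_
    · exact ((hf.indicator (hSm n)).mul (evO_continuous _).measurable).aestronglyMeasurable
    · filter_upwards [ae_restrict_of_ae hmem] with p hp
      rw [norm_mul]
      exact mul_le_mul ((norm_indicator_le_norm_self _ _).trans (hC p)) (hC' p hp)
        (norm_nonneg _) hC0
    · refine Filter.Eventually.of_forall fun p => ?_
      refine Filter.Tendsto.mul_const _ ?_
      by_cases hp : evO p g = 0
      · have h1 : ∀ n, p ∉ S n := by
          intro n hn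
          have h4 : 1 / ((n : ℝ) + 1) < ‖evO p g‖ := hn
          rw [hp, norm_zero] at h4
          have hpos : 0 < 1 / ((n : ℝ) + 1) := by positivity
          exact absurd h4 (not_lt.mpr hpos.le)
        have h2 : p ∉ {p : Om k | evO p g ≠ 0} := fun h3 => h3 hp
        simp only [Set.indicator_of_notMem (h1 _), Set.indicator_of_notMem h2]
        exact tendsto_const_nhds
      · have h2 : p ∈ {p : Om k | evO p g ≠ 0} := hp
        simp only [Set.indicator_of_mem h2]
        have h3 : Filter.Tendsto (fun n : ℕ => 1 / ((n : ℝ) + 1)) Filter.atTop (nhds 0) :=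
          tendsto_one_div_add_atTop_nhds_zero_nat
        have h4 : ∀ᶠ n : ℕ in Filter.atTop, 1 / ((n : ℝ) + 1) < ‖evO p g‖ :=
          h3.eventually (gt_mem_nhds (norm_pos_iff.mpr hp))
        refine tendsto_const_nhds.congr' ?_
        filter_upwards [h4] with n hn
        have h5 : p ∈ S n := hn
        rw [Set.indicator_of_mem h5]
  have h1 : (fun n => T.J m N (fun p => (S n).indicator f p)) = fun _ => 0 := funext h0
  rw [h1] at hlim
  exact (tendsto_nhds_unique hlim tendsto_const_nhds)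

/-- **Removal of the denominators.**

Proof. Let `i : ℤ`, `β` as in the hypothesis, `g := C β * shX i κ'`. `int_zero`, `int_zero'` for `T.mul g`:
`(T.mul g).J m N f' = 0` for bounded measurable `f'`. For `η > 0` take `f' := f * 1_{‖evO p g‖ > η} / evO p g`:
`T.J m N (f * 1_{‖evO p g‖ > η}) = 0`; `η → 0` (dominated convergence): `T.J m N (f * 1_{evO p g ≠ 0}) = 0`. So
`‖T.J m N f‖ ≤ C * C' * ∑ l, m_l {p | p.2 ∈ N, evO p g = 0}` (`C'` a bound of the `evO p (T.G l)`), and
`m_l {evY p.1 β = 0} = 0` (`null_zero_Om`), `m_l {p | p.2 ∈ N, evO p (shX i κ') = 0} ≤ ε` for large `i`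
(`mixing` with `a = 0`). -/
theorem Fam.vanish (T : Fam k) {R M : ℝ} (m : ℤ → ℤ → ℂ → Measure (Om k))
    (hm : ∀ c b z, IsM B R c b z (m c b z)) (N : Set ℝ) (hN : IsCompact N) (hN0 : volume N = 0)
    (κ' : (Lau k)[X]) (hκ' : ∀ x ∈ N, κ'.eval (algebraMap ℂ (Lau k) ((x : ℝ) : ℂ)) ≠ 0)
    (h : ∀ i : ℤ, ∃ β : Lau k, β ≠ 0 ∧ (Polynomial.C β * shX i κ') • T.Φ B ∈ AC k M)
    (f : Om k → ℂ) (hf : Measurable f) (C : ℝ) (hC : ∀ p, ‖f p‖ ≤ C) : T.J m N f = 0 := by
  classical
  have hfin : ∀ l, IsFiniteMeasure (m (T.c l) (T.b l) (T.z l)) := fun l => (hm _ _ _).1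
  have hC0 : 0 ≤ C := (norm_nonneg _).trans (hC (fun _ => 0, 0))
  choose C' hC'0 hC' using fun l => evO_bdd (k := k) R (T.G l)
  have hSN : MeasurableSet {p : Om k | p.2 ∈ N} := measurable_snd hN.measurableSet
  have hmem : ∀ l, ∀ᵐ p ∂(m (T.c l) (T.b l) (T.z l)), p.2 ∈ Set.Icc (-R) R := by
    intro l
    rw [ae_iff]
    exact (hm _ _ _).2.1
  have key : ∀ ε : ℝ, 0 < ε → ‖T.J m N f‖ ≤ (∑ l, C * C' l) * ε := by
    intro ε hε
    choose δ hδ i₀ hi₀ using fun l => mixing B m hm N hN κ' hκ' (T.c l) (T.b l) (T.z l) ε hε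
    set i : ℤ := ∑ l, |i₀ l| with hi
    have hil : ∀ l, i₀ l ≤ |i - 0| := by
      intro l
      have h1 : |i₀ l| ≤ ∑ l, |i₀ l| :=
        Finset.single_le_sum (f := fun l => |i₀ l|) (fun _ _ => abs_nonneg _) (Finset.mem_univ l)
      rw [sub_zero]
      exact (le_abs_self _).trans (h1.trans (le_abs_self _))
    obtain ⟨β, hβ, hAC⟩ := h i
    set g : (Lau k)[X] := Polynomial.C β * shX i κ' with hg
    have hgm : Measurable fun p : Om k => evO p g := (evO_continuous g).measurable
    have hJ0 : ∀ f : Om k → ℂ, Measurable f → (∃ C : ℝ, ∀ p, ‖f p‖ ≤ C) →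
        (T.mul g).J m N f = 0 := by
      rintro f hf ⟨C, hC⟩
      refine (T.mul g).int_zero' B m hm N hN (fun W => ?_) f hf C hC
      refine (T.mul g).int_zero B (M := M) m hm ?_ N hN hN0 W
      rw [Fam.mul_Φ]
      exact hAC
    have h1 := VVan_supp B T m hm N g hJ0 f hf C hC
    have hS0 : MeasurableSet {p : Om k | evO p g ≠ 0} :=
      (measurableSet_eq_fun hgm measurable_const).compl
    have h2 : T.J m N f = T.J m N (fun p => ({p : Om k | evO p g ≠ 0}ᶜ).indicator f p) := by
      have h3 : T.J m N f = T.J m N (fun p => ({p : Om k | evO p g ≠ 0}ᶜ).indicator f p) +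
          T.J m N (fun p => ({p : Om k | evO p g ≠ 0}).indicator f p) := by
        unfold Fam.J
        rw [← Finset.sum_add_distrib]
        refine Finset.sum_congr rfl fun l _ => ?_
        have hint : ∀ S : Set (Om k), MeasurableSet S → Integrable
            (fun p => S.indicator f p * evO p (T.G l))
            ((m (T.c l) (T.b l) (T.z l)).restrict {p : Om k | p.2 ∈ N}) := by
          intro S hS
          refine (integrable_const (C * C' l)).mono'
            ((hf.indicator hS).mul (evO_continuous _).measurable).aestronglyMeasurable ?_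
          filter_upwards [ae_restrict_of_ae (hmem l)] with p hp
          rw [norm_mul]
          exact mul_le_mul ((norm_indicator_le_norm_self _ _).trans (hC p)) (hC' l p hp)
            (norm_nonneg _) hC0
        rw [← integral_add (hint _ hS0.compl) (hint _ hS0)]
        refine integral_congr_ae (Filter.Eventually.of_forall fun p => ?_)
        show f p * evO p (T.G l) = ({p : Om k | evO p g ≠ 0}ᶜ).indicator f p * evO p (T.G l) +
          ({p : Om k | evO p g ≠ 0}).indicator f p * evO p (T.G l)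
        rw [← add_mul, Set.indicator_compl_add_self_apply]
      rw [h3, h1, add_zero]
    rw [h2]
    unfold Fam.J
    refine (norm_sum_le _ _).trans ?_
    rw [Finset.sum_mul]
    refine Finset.sum_le_sum fun l _ => ?_
    have hsub : ∀ᵐ p ∂(m (T.c l) (T.b l) (T.z l)),
        p ∈ {p : Om k | p.2 ∈ N} ∩ {p : Om k | evO p g ≠ 0}ᶜ →
          p ∈ {p : Om k | p.2 ∈ N ∧ ‖evO p (shX i κ')‖ ≤ δ l} := by
      have h3 : ∀ᵐ p ∂(m (T.c l) (T.b l) (T.z l)), evY p.1 β ≠ 0 := by
        rw [ae_iff]
        simp only [ne_eq, not_not]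
        exact null_zero_Om B (hm _ _ _) β hβ
      filter_upwards [h3] with p hp
      rintro ⟨hp1, hp2⟩
      refine ⟨hp1, ?_⟩
      have h4 : evO p g = 0 := by
        by_contra h5
        exact hp2 h5
      rw [hg, map_mul, evO_C] at h4
      rcases mul_eq_zero.1 h4 with h5 | h5
      · exact absurd h5 hp
      · rw [h5, norm_zero]
        exact (hδ l).le
    have hmeas : (m (T.c l) (T.b l) (T.z l)).real
        ({p : Om k | p.2 ∈ N} ∩ {p : Om k | evO p g ≠ 0}ᶜ) ≤ ε := by
      have h3 := hi₀ l 0 i (hil l)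
      rw [add_zero, add_zero] at h3
      have h4 : (m (T.c l) (T.b l) (T.z l)) ({p : Om k | p.2 ∈ N} ∩ {p : Om k | evO p g ≠ 0}ᶜ) ≤
          ENNReal.ofReal ε := (measure_mono_ae hsub).trans h3
      rw [measureReal_def]
      exact ENNReal.toReal_le_of_le_ofReal hε.le h4
    have h5 : ∫ p in {p : Om k | p.2 ∈ N}, ({p : Om k | evO p g ≠ 0}ᶜ).indicator f p *
          evO p (T.G l) ∂(m (T.c l) (T.b l) (T.z l)) =
        ∫ p in {p : Om k | p.2 ∈ N} ∩ {p : Om k | evO p g ≠ 0}ᶜ, f p *
          evO p (T.G l) ∂(m (T.c l) (T.b l) (T.z l)) := by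
      rw [← setIntegral_indicator hS0.compl]
      refine integral_congr_ae (Filter.Eventually.of_forall fun p => ?_)
      show ({p : Om k | evO p g ≠ 0}ᶜ).indicator f p * evO p (T.G l) =
        ({p : Om k | evO p g ≠ 0}ᶜ).indicator (fun p => f p * evO p (T.G l)) p
      rw [Set.indicator_mul_left]
    rw [h5]
    have h6 : ‖∫ p in {p : Om k | p.2 ∈ N} ∩ {p : Om k | evO p g ≠ 0}ᶜ, f p *
        evO p (T.G l) ∂(m (T.c l) (T.b l) (T.z l))‖ ≤
        C * C' l * (m (T.c l) (T.b l) (T.z l)).real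
          ({p : Om k | p.2 ∈ N} ∩ {p : Om k | evO p g ≠ 0}ᶜ) := by
      refine norm_setIntegral_le_of_norm_le_const_ae' (measure_lt_top _ _) ?_
      filter_upwards [hmem l] with p hp _
      rw [norm_mul]
      exact mul_le_mul (hC p) (hC' l p hp) (norm_nonneg _) hC0
    exact h6.trans (mul_le_mul_of_nonneg_left hmeas (mul_nonneg hC0 (hC'0 l)))
  have hK : 0 ≤ ∑ l, C * C' l := Finset.sum_nonneg fun l _ => mul_nonneg hC0 (hC'0 l)
  have h0 : ‖T.J m N f‖ ≤ 0 := by
    refine le_of_forall_pos_le_add fun ε hε => ?_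
    have h1 := key (ε / ((∑ l, C * C' l) + 1)) (by positivity)
    refine h1.trans ?_
    rw [zero_add, mul_div_assoc', div_le_iff₀ (by positivity)]
    nlinarith
  exact norm_le_zero_iff.1 h0

end Pool.Agent.Wb5ab1bf
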