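import Pool.Agent.W_b5ab1bf_h80.VFamS
import Pool.Agent.W_b5ab1bf_h80.VVan
import Pool.Agent.W_b5ab1bf_h80.BFin

/-!
# The key inequality (helper80)
-/

set_option autoImplicit false

noncomputable section

open scoped Polynomial
open Pool.Agent.Wb5ab1b MeasureTheory

namespace Pool.Agent.Wb5ab1bf

variable {k : ℕ} (B : Bd k)

/-- **The key inequality.**

Proof. Let `T := (famD n (κ * shX n κ)).add (((famS 0 B₀).mul (-shX n κ)).add ((famS n B₀).mul κ))`. Its functional is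
`eP B (Ffin B κ B₀ n)` (`add_Φ`, `mul_Φ`, `famS_Φ`, `famD_Φ`, `shF_id`, `eP_add`, `eP_smul`), so `vanish` applies. Take
`f p := if δ < ‖evO p κ‖ ∧ δ < ‖evO p (shX n κ)‖ then (evO p κ * evO p (shX n κ))⁻¹ else 0`, bounded by `1 / δ ^ 2` and
measurable. The first part of `T.J m N f` is the sum of the masses on the left side; the other two are bounded by
`C * (1 / δ)` each by `famS_bound` (`‖f p * evO p (shX n κ)‖ ≤ 1 / δ`). -/
theorem key_ineq {R M : ℝ} (m : ℤ → ℤ → ℂ → Measure (Om k))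
    (hm : ∀ c b z, IsM B R c b z (m c b z)) (κ κ' : (Lau k)[X]) (B₀ : (ℤ × ℤ) →₀ (Lau k)[X])
    (N : Set ℝ) (hN : IsCompact N) (hN0 : volume N = 0)
    (hκ' : ∀ x ∈ N, κ'.eval (algebraMap ℂ (Lau k) ((x : ℝ) : ℂ)) ≠ 0)
    (h : ∀ (n : ℕ) (i : ℤ), ∃ b : Lau k, b ≠ 0 ∧
      (Polynomial.C b * shX i κ') • eP B (Ffin B κ B₀ n) ∈ AC k M) :
    ∃ C : ℝ, 0 ≤ C ∧ ∀ (n : ℕ) (δ : ℝ), 0 < δ →
      ∑ j ∈ Finset.range n, (m ((B.w : ℤ) + j) ((B.w : ℤ) + j) 0).real
        {p | p.2 ∈ N ∧ δ < ‖evO p κ‖ ∧ δ < ‖evO p (shX n κ)‖} ≤ C / δ := by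
  obtain ⟨C, hC, hCb⟩ := famS_bound B m hm B₀
  refine ⟨2 * C, by positivity, fun n δ hδ => ?_⟩
  -- the family
  set T : Fam k := (famD B n (κ * shX n κ)).add (((famS 0 B₀).mul (-shX n κ)).add
    ((famS n B₀).mul κ)) with hT
  have hΦ : T.Φ B = eP B (Ffin B κ B₀ n) := by
    rw [hT, Fam.add_Φ, Fam.add_Φ, Fam.mul_Φ, Fam.mul_Φ, famS_Φ, famS_Φ, famD_Φ, shF_id]
    have hF : Ffin B κ B₀ n = (κ * shX n κ) • (∑ j ∈ Finset.range n,
        Finsupp.single ((B.w : ℤ) + j, (B.w : ℤ) + j) 1) + (-shX n κ) • B₀ + κ • shF n B₀ := by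
      unfold Ffin
      refine Finsupp.ext fun q => ?_
      simp only [Finsupp.add_apply, Finsupp.sub_apply, Finsupp.smul_apply, smul_eq_mul]
      ring
    rw [hF, eP_add, eP_add, eP_smul, eP_smul, eP_smul, add_assoc]
  have hmκ : Measurable fun p : Om k => ‖evO p κ‖ := (evO_continuous κ).measurable.norm
  have hmκn : Measurable fun p : Om k => ‖evO p (shX n κ)‖ :=
    (evO_continuous (shX n κ)).measurable.norm
  set A : Set (Om k) := {p | δ < ‖evO p κ‖ ∧ δ < ‖evO p (shX n κ)‖} with hA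
  have hAm : MeasurableSet A :=
    (measurableSet_lt measurable_const hmκ).inter (measurableSet_lt measurable_const hmκn)
  classical
  set f : Om k → ℂ := fun p => if p ∈ A then (evO p κ * evO p (shX n κ))⁻¹ else 0 with hf
  have hfm : Measurable f := by
    apply Measurable.ite hAm _ measurable_const
    exact ((evO_continuous κ).measurable.mul (evO_continuous (shX n κ)).measurable).inv
  have hfb : ∀ p, ‖f p‖ ≤ (δ * δ)⁻¹ := by
    intro p
    simp only [hf]
    split_ifs with hp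
    · rw [norm_inv, norm_mul]
      have h1 : δ < ‖evO p κ‖ := hp.1
      have h2 : δ < ‖evO p (shX n κ)‖ := hp.2
      exact inv_anti₀ (by positivity) (mul_le_mul h1.le h2.le hδ.le (norm_nonneg _))
    · rw [norm_zero]
      positivity
  have hvan := Fam.vanish B T m hm N hN hN0 κ' hκ' (fun i => by
    rw [hΦ]
    exact h n i) f hfm _ hfb
  rw [hT, Fam.add_J, Fam.add_J] at hvan
  -- the bounds of the other parts
  have hb1 : ∀ p, ‖f p * evO p (-shX n κ)‖ ≤ 1 / δ := by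
    intro p
    simp only [hf]
    split_ifs with hp
    · have h1 : δ < ‖evO p κ‖ := hp.1
      have h2 : δ < ‖evO p (shX n κ)‖ := hp.2
      rw [norm_mul, norm_inv, norm_mul, map_neg, norm_neg, mul_inv, mul_assoc,
        inv_mul_cancel₀ (by linarith : ‖evO p (shX n κ)‖ ≠ 0), mul_one, one_div]
      exact inv_anti₀ hδ h1.le
    · rw [zero_mul, norm_zero]
      positivity
  have hb2 : ∀ p, ‖f p * evO p κ‖ ≤ 1 / δ := by
    intro p
    simp only [hf]
    split_ifs with hp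
    · have h1 : δ < ‖evO p κ‖ := hp.1
      have h2 : δ < ‖evO p (shX n κ)‖ := hp.2
      rw [norm_mul, norm_inv, norm_mul, mul_inv, mul_comm (‖evO p κ‖)⁻¹, mul_assoc,
        inv_mul_cancel₀ (by linarith : ‖evO p κ‖ ≠ 0), mul_one, one_div]
      exact inv_anti₀ hδ h2.le
    · rw [zero_mul, norm_zero]
      positivity
  have hNm : MeasurableSet N := hN.measurableSet
  have hB1 := hCb 0 N (-shX n κ) f (1 / δ) (by positivity) hNm hb1
  have hB2 := hCb n N κ f (1 / δ) (by positivity) hNm hb2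
  -- the diagonal part
  have hD : (famD B n (κ * shX n κ)).J m N f =
      ((∑ j ∈ Finset.range n, (m ((B.w : ℤ) + j) ((B.w : ℤ) + j) 0).real
        {p | p.2 ∈ N ∧ δ < ‖evO p κ‖ ∧ δ < ‖evO p (shX n κ)‖} : ℝ) : ℂ) := by
    show ∑ l : Fin n, ∫ p in {p : Om k | p.2 ∈ N}, f p * evO p (κ * shX n κ)
      ∂(m ((B.w : ℤ) + ((l : ℕ) : ℤ)) ((B.w : ℤ) + ((l : ℕ) : ℤ)) 0) = _
    rw [Finset.sum_range, Complex.ofReal_sum]
    refine Finset.sum_congr rfl fun l _ => ?_
    have h1 : ∀ p, f p * evO p (κ * shX n κ) = A.indicator (fun _ => (1 : ℂ)) p := by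
      intro p
      by_cases hp : p ∈ A
      · have h1 : δ < ‖evO p κ‖ := hp.1
        have h2 : δ < ‖evO p (shX n κ)‖ := hp.2
        have h3 : evO p κ ≠ 0 := norm_pos_iff.1 (hδ.trans h1)
        have h4 : evO p (shX n κ) ≠ 0 := norm_pos_iff.1 (hδ.trans h2)
        rw [Set.indicator_of_mem hp]
        simp only [hf]
        rw [if_pos hp, map_mul, inv_mul_cancel₀ (mul_ne_zero h3 h4)]
      · rw [Set.indicator_of_notMem hp]
        simp only [hf]
        rw [if_neg hp, zero_mul]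
    simp only [h1]
    rw [setIntegral_indicator hAm, setIntegral_const]
    have h2 : {p : Om k | p.2 ∈ N} ∩ A =
        {p | p.2 ∈ N ∧ δ < ‖evO p κ‖ ∧ δ < ‖evO p (shX n κ)‖} := rfl
    rw [h2, Complex.real_smul, mul_one]
  rw [hD] at hvan
  set Sm : ℝ := ∑ j ∈ Finset.range n, (m ((B.w : ℤ) + j) ((B.w : ℤ) + j) 0).real
        {p | p.2 ∈ N ∧ δ < ‖evO p κ‖ ∧ δ < ‖evO p (shX n κ)‖} with hSm
  have h5 : (Sm : ℂ) = -(((famS 0 B₀).mul (-shX n κ)).J m N f +
      ((famS n B₀).mul κ).J m N f) := by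
    linear_combination hvan
  have h6 : Sm ≤ ‖(Sm : ℂ)‖ := by
    rw [Complex.norm_real]
    exact le_abs_self _
  rw [h5, norm_neg] at h6
  have h7 := norm_add_le (((famS 0 B₀).mul (-shX n κ)).J m N f) (((famS n B₀).mul κ).J m N f)
  calc Sm ≤ C * (1 / δ) + C * (1 / δ) := by linarith
    _ = 2 * C / δ := by ring

end Pool.Agent.Wb5ab1bf
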