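import Pool.Agent.W_b5ab1bf_h80.VEv
import Pool.Agent.W_b5ab1bf_h80.KKI

/-!
# Positivity of the functionals `Phz` (helper80)
-/

set_option autoImplicit false

noncomputable section

open scoped Polynomial
open Pool.Agent.Wb5ab1b MeasureTheory

namespace Pool.Agent.Wb5ab1bf

variable {k : ℕ} (B : Bd k)

theorem VPos_smul (Φ : Fn (Lau k)) (z : ℂ) (g : (Lau k)[X]) :
    ((cC z : (Lau k)[X]) • Φ).app g = algebraMap ℂ (Lau k) z * Φ.app g := by
  rw [Fn.app_smul]
  unfold cC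
  rw [← Polynomial.smul_eq_C_mul]
  exact map_smul (show (Lau k)[X] →ₗ[Lau k] Lau k from Φ) _ _

theorem VPos_app (c b : ℤ) (z : ℂ) (g : (Lau k)[X]) :
    (Phz B c b z).app g = (B.P c c).app g + algebraMap ℂ (Lau k) z * (B.P c b).app g +
      algebraMap ℂ (Lau k) ((starRingEnd ℂ) z) * (B.P b c).app g +
      algebraMap ℂ (Lau k) (z * (starRingEnd ℂ) z) * (B.P b b).app g := by
  unfold Phz
  rw [Fn.app_add, Fn.app_add, Fn.app_add, VPos_smul, VPos_smul, VPos_smul]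

theorem VPos_mon {A : Type} [CommRing A] (w : ℕ) (h : ℤ → ℤ → A) (a b : ℤ) (n : ℕ) (c : A) :
    bent w h a b (Polynomial.monomial n c) = c * bpw w h n a b := by
  rw [bent_eq_sum, Polynomial.sum_monomial_index _ _ (by rw [zero_mul])]

theorem VPos_E_alg (z : ℂ) : E (algebraMap ℂ (Lau k) z) = z := by
  have h : algebraMap ℂ (Lau k) z = AddMonoidAlgebra.single 0 z := rfl
  rw [h]
  unfold E
  rw [AddMonoidAlgebra.coeff_single, Finsupp.single_eq_same]

theorem VPos_sum {A : Type} [CommRing A] (w : ℕ) (h : ℤ → ℤ → A) (a b : ℤ) (s : Finset ℕ)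
    (f : ℕ → A) : bent w h a b (∑ j ∈ s, Polynomial.monomial j (f j)) =
      ∑ j ∈ s, f j * bpw w h j a b := by
  rw [map_sum]
  exact Finset.sum_congr rfl fun j _ => VPos_mon w h a b j (f j)

/-- From `P_shX`. -/
theorem Phz_shX (c b n : ℤ) (z : ℂ) (g : (Lau k)[X]) :
    (Phz B (c + n) (b + n) z).app (shX n g) = sh n ((Phz B c b z).app g) := by
  rw [VPos_app, VPos_app, B.P_shX, B.P_shX, B.P_shX, B.P_shX]
  simp only [map_add, map_mul, AlgHom.commutes]

theorem P_one (a b : ℤ) : (B.P a b).app 1 = if a = b then 1 else 0 := by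
  show bent B.w B.H a b 1 = _
  rw [← pow_zero Polynomial.X, bent_X_pow, bpw_zero]

/-- The mass: `(B.P a b).app 1 = if a = b then 1 else 0`. -/
theorem Phz_mass (c b : ℤ) (z : ℂ) (hz : ‖z‖ ≤ 1) : ‖E ((Phz B c b z).app 1)‖ ≤ 4 := by
  have h0 : ‖(starRingEnd ℂ) z‖ ≤ 1 := by rw [RCLike.norm_conj]; exact hz
  have h1 : ‖z * (starRingEnd ℂ) z‖ ≤ 1 := by
    rw [norm_mul]
    exact mul_le_one₀ hz (norm_nonneg _) h0
  have hE1 : E (1 : Lau k) = 1 := by
    have h := VPos_E_alg (k := k) 1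
    rwa [map_one] at h
  have key : ∀ (u : ℂ) (p q : ℤ), ‖u‖ ≤ 1 →
      ‖E (algebraMap ℂ (Lau k) u * (if p = q then 1 else 0))‖ ≤ 1 := by
    intro u p q hu
    by_cases h : p = q
    · rw [if_pos h, mul_one, VPos_E_alg]
      exact hu
    · rw [if_neg h, mul_zero, E_zero, norm_zero]
      exact zero_le_one
  rw [VPos_app, P_one, P_one, P_one, P_one, E_add, E_add, E_add, if_pos rfl, hE1]
  have k1 := key z c b hz
  have k2 := key ((starRingEnd ℂ) z) b c h0
  have k3 := key (z * (starRingEnd ℂ) z) b b h1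
  refine (norm_add_le _ _).trans ?_
  have n1 : ‖(1 : ℂ)‖ = 1 := norm_one
  have n2 := norm_add_le (1 + E (algebraMap ℂ (Lau k) z * (if c = b then 1 else 0)))
    (E (algebraMap ℂ (Lau k) ((starRingEnd ℂ) z) * (if b = c then 1 else 0)))
  have n3 := norm_add_le (1 : ℂ) (E (algebraMap ℂ (Lau k) z * (if c = b then 1 else 0)))
  linarith

theorem Phz_C (c b : ℤ) (z : ℂ) (F : Lau k) :
    (Phz B c b z).app (Polynomial.C F) = F * (Phz B c b z).app 1 := by
  have h : (Polynomial.C F : (Lau k)[X]) = F • 1 := by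
    rw [Polynomial.smul_eq_C_mul, mul_one]
  rw [h]
  exact map_smul (show (Lau k)[X] →ₗ[Lau k] Lau k from Phz B c b z) _ _

theorem Phz_self (a : ℤ) : Phz B a a 0 = B.P a a := by
  unfold Phz
  have h : (cC 0 : (Lau k)[X]) = 0 := by
    unfold cC
    rw [map_zero, map_zero]
  rw [map_zero, mul_zero, h, zero_smul, add_zero, add_zero, add_zero]

/-- Polarisation: `∑_{l < 4} i^(-l) i^l = 4`, `∑ i^(-l) = 0`, `∑ i^(-l) i^(-l) = 0`. -/
theorem P_polar (c b : ℤ) :
    B.P c b = ∑ l : Fin 4, (cC ((1 / 4 : ℂ) * (Complex.I ^ (l : ℕ))⁻¹) : (Lau k)[X]) •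
      Phz B c b (Complex.I ^ (l : ℕ)) := by
  refine LinearMap.ext fun g => ?_
  show (B.P c b).app g = (∑ l : Fin 4, (cC ((1 / 4 : ℂ) * (Complex.I ^ (l : ℕ))⁻¹) : (Lau k)[X]) •
      Phz B c b (Complex.I ^ (l : ℕ))).app g
  rw [Fin.sum_univ_four, Fn.app_add, Fn.app_add, Fn.app_add, VPos_smul, VPos_smul, VPos_smul,
    VPos_smul, VPos_app, VPos_app, VPos_app, VPos_app]
  have e0 : Complex.I ^ ((0 : Fin 4) : ℕ) = 1 := pow_zero _
  have e1 : Complex.I ^ ((1 : Fin 4) : ℕ) = Complex.I := pow_one _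
  have e2 : Complex.I ^ ((2 : Fin 4) : ℕ) = -1 := Complex.I_sq
  have e3 : Complex.I ^ ((3 : Fin 4) : ℕ) = -Complex.I := Complex.I_pow_three
  rw [e0, e1, e2, e3]
  have i1 : (Complex.I)⁻¹ = -Complex.I := Complex.inv_I
  have i3 : (-Complex.I)⁻¹ = Complex.I := by rw [inv_neg, i1, neg_neg]
  have i2 : (-1 : ℂ)⁻¹ = -1 := by norm_num
  rw [i1, i2, i3]
  have hJ : algebraMap ℂ (Lau k) Complex.I * algebraMap ℂ (Lau k) Complex.I = -1 := by
    rw [← map_mul, Complex.I_mul_I, map_neg, map_one]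
  have hq : (4 : Lau k) * algebraMap ℂ (Lau k) (1 / 4) = 1 := by
    have h4 : (4 : Lau k) = algebraMap ℂ (Lau k) 4 := (map_ofNat (algebraMap ℂ (Lau k)) 4).symm
    rw [h4, ← map_mul, mul_one_div_cancel (by norm_num), map_one]
  simp only [map_mul, map_neg, map_one, inv_one, Complex.conj_I, neg_neg, neg_mul, mul_neg,
    mul_one, one_mul]
  set J := algebraMap ℂ (Lau k) Complex.I
  set q := algebraMap ℂ (Lau k) (1 / 4)
  linear_combination (-(B.P c b).app g) * hq +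
    (2 * q * ((B.P c b).app g - (B.P b c).app g)) * hJ

/-- **Positivity.**

Proof. By `E_nonneg` it is enough to see `0 ≤ (ev θ ((Phz B c b z).app G)).re` for every `θ`. With
`t a b j := bpw B.w (B.Hθ θ) j a b` (`ev_bpw`, `bent_eq_sum`) and `x := Pi.single c 1 + z • Pi.single b 1`
`ev θ ((Phz B c b z).app G) = ∑ j, ev θ (G.coeff j) * u j`, `u j := ∑ a ∈ {c, b}, ∑ a' ∈ {c, b}, conj (x a) * x a' * t a a' j`
(treat the cases `c = b` and `c ≠ b`), and `u j` is real (`bpw_conj`). So the real part is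
`∑ j, re (ev θ (G.coeff j)) * u j`, which is the quadratic form of `quad_nonneg` for
`q := ∑ j, monomial j (re (ev θ (G.coeff j)))`; `q.eval t = re (evO (y, t) G) ≥ 0` for `t ∈ [-R, R]`,
`y` the class of `θ` (`evY_coe`, `evO_sum`). -/
theorem Phz_nonneg (hH : B.Herm) {R : ℝ} (hR : B.Bdd R) (c b : ℤ) (z : ℂ) (G : (Lau k)[X])
    (hG : ∀ p : Om k, p.2 ∈ Set.Icc (-R) R → 0 ≤ (evO p G).re) :
    0 ≤ (E ((Phz B c b z).app G)).re := by
  classical
  refine E_nonneg _ fun θ => ?_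
  have hHB := Hθ_HB B hH hR θ
  set f : ℕ → ℂ := fun j => ev θ (G.coeff j) with hf
  set q : ℝ[X] := ∑ j ∈ G.support, Polynomial.monomial j (f j).re with hq
  -- the polynomial is nonnegative
  have hq0 : ∀ t ∈ Set.Icc (-R) R, 0 ≤ q.eval t := by
    intro t ht
    have h1 := hG (fun j => ((θ j : ℝ) : UnitAddCircle), t) ht
    rw [evO_sum] at h1
    have h2 : (G.sum fun n F => evY (fun j => ((θ j : ℝ) : UnitAddCircle)) F * (t : ℂ) ^ n) =
        ∑ j ∈ G.support, f j * (t : ℂ) ^ j := by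
      rw [Polynomial.sum_def]
      refine Finset.sum_congr rfl fun j _ => ?_
      rw [evY_coe]
    have h3 : q.eval t = ((∑ j ∈ G.support, f j * (t : ℂ) ^ j)).re := by
      rw [hq, Polynomial.eval_finsetSum, Complex.re_sum]
      refine Finset.sum_congr rfl fun j _ => ?_
      rw [Polynomial.eval_monomial, ← Complex.ofReal_pow, Complex.re_mul_ofReal]
    rw [h3, ← h2]
    exact h1
  have hqm : q.map (algebraMap ℝ ℂ) =
      ∑ j ∈ G.support, Polynomial.monomial j (((f j).re : ℝ) : ℂ) := by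
    rw [hq, Polynomial.map_sum]
    refine Finset.sum_congr rfl fun j _ => ?_
    rw [Polynomial.map_monomial]
    rfl
  have hbq : ∀ a b : ℤ, bent B.w (B.Hθ θ) a b (q.map (algebraMap ℝ ℂ)) =
      ∑ j ∈ G.support, (((f j).re : ℝ) : ℂ) * bpw B.w (B.Hθ θ) j a b := by
    intro a b
    rw [hqm, VPos_sum]
  have hP : ∀ a b : ℤ, ev θ ((B.P a b).app G) =
      ∑ j ∈ G.support, f j * bpw B.w (B.Hθ θ) j a b := by
    intro a b
    show ev θ (bent B.w B.H a b G) = _
    rw [bent_eq_sum, Polynomial.sum_def, map_sum]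
    refine Finset.sum_congr rfl fun j _ => ?_
    rw [map_mul, ev_bpw]
  -- the numbers u j
  set u : ℕ → ℂ := fun j => bpw B.w (B.Hθ θ) j c c + z * bpw B.w (B.Hθ θ) j c b +
    (starRingEnd ℂ) z * bpw B.w (B.Hθ θ) j b c +
      z * (starRingEnd ℂ) z * bpw B.w (B.Hθ θ) j b b with hu
  have hureal : ∀ j, (u j).im = 0 := by
    intro j
    rw [← Complex.conj_eq_iff_im, hu]
    simp only [map_add, map_mul, Complex.conj_conj]
    rw [← bpw_conj B.w (B.Hθ θ) R hHB j c c, ← bpw_conj B.w (B.Hθ θ) R hHB j c b,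
      ← bpw_conj B.w (B.Hθ θ) R hHB j b c, ← bpw_conj B.w (B.Hθ θ) R hHB j b b]
    ring
  have hev : ev θ ((Phz B c b z).app G) = ∑ j ∈ G.support, f j * u j := by
    have hc : ∀ w : ℂ, ev θ (algebraMap ℂ (Lau k) w) = w := fun w => (ev θ).commutes w
    rw [VPos_app, map_add, map_add, map_add, map_mul, map_mul, map_mul, hc, hc, hc, hP, hP, hP,
      hP, Finset.mul_sum, Finset.mul_sum, Finset.mul_sum, ← Finset.sum_add_distrib,
      ← Finset.sum_add_distrib, ← Finset.sum_add_distrib]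
    refine Finset.sum_congr rfl fun j _ => ?_
    rw [hu]
    ring
  have hre : (ev θ ((Phz B c b z).app G)).re =
      (∑ j ∈ G.support, (((f j).re : ℝ) : ℂ) * u j).re := by
    rw [hev, Complex.re_sum, Complex.re_sum]
    refine Finset.sum_congr rfl fun j _ => ?_
    rw [Complex.mul_re, Complex.mul_re, hureal, mul_zero, mul_zero, Complex.ofReal_re]
  have hsum : ∑ j ∈ G.support, (((f j).re : ℝ) : ℂ) * u j =
      bent B.w (B.Hθ θ) c c (q.map (algebraMap ℝ ℂ)) +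
      z * bent B.w (B.Hθ θ) c b (q.map (algebraMap ℝ ℂ)) +
      (starRingEnd ℂ) z * bent B.w (B.Hθ θ) b c (q.map (algebraMap ℝ ℂ)) +
      z * (starRingEnd ℂ) z * bent B.w (B.Hθ θ) b b (q.map (algebraMap ℝ ℂ)) := by
    rw [hbq, hbq, hbq, hbq, Finset.mul_sum, Finset.mul_sum, Finset.mul_sum,
      ← Finset.sum_add_distrib, ← Finset.sum_add_distrib, ← Finset.sum_add_distrib]
    refine Finset.sum_congr rfl fun j _ => ?_
    rw [hu]
    ring
  rw [hre, hsum]
  by_cases hcb : c = b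
  · subst hcb
    have h1 := quad_nonneg B.w (B.Hθ θ) R hHB {c} (fun _ => 1 + z) q hq0
    rw [Finset.sum_singleton, Finset.sum_singleton] at h1
    have h2 : (starRingEnd ℂ) (1 + z) * (1 + z) * bent B.w (B.Hθ θ) c c
        (q.map (algebraMap ℝ ℂ)) = bent B.w (B.Hθ θ) c c (q.map (algebraMap ℝ ℂ)) +
      z * bent B.w (B.Hθ θ) c c (q.map (algebraMap ℝ ℂ)) +
      (starRingEnd ℂ) z * bent B.w (B.Hθ θ) c c (q.map (algebraMap ℝ ℂ)) +
      z * (starRingEnd ℂ) z * bent B.w (B.Hθ θ) c c (q.map (algebraMap ℝ ℂ)) := by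
      rw [map_add, map_one]
      ring
    rw [← h2]
    exact h1
  · have h1 := quad_nonneg B.w (B.Hθ θ) R hHB {c, b} (fun a => if a = c then 1 else z) q hq0
    rw [Finset.sum_pair hcb, Finset.sum_pair hcb, Finset.sum_pair hcb, if_pos rfl,
      if_neg (Ne.symm hcb), map_one, one_mul, one_mul, one_mul] at h1
    have h2 : bent B.w (B.Hθ θ) c c (q.map (algebraMap ℝ ℂ)) +
      z * bent B.w (B.Hθ θ) c b (q.map (algebraMap ℝ ℂ)) +
      (starRingEnd ℂ) z * bent B.w (B.Hθ θ) b c (q.map (algebraMap ℝ ℂ)) +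
      z * (starRingEnd ℂ) z * bent B.w (B.Hθ θ) b b (q.map (algebraMap ℝ ℂ)) =
      bent B.w (B.Hθ θ) c c (q.map (algebraMap ℝ ℂ)) +
      z * bent B.w (B.Hθ θ) c b (q.map (algebraMap ℝ ℂ)) +
      ((starRingEnd ℂ) z * 1 * bent B.w (B.Hθ θ) b c (q.map (algebraMap ℝ ℂ)) +
      (starRingEnd ℂ) z * z * bent B.w (B.Hθ θ) b b (q.map (algebraMap ℝ ℂ))) := by
      ring
    rw [h2]
    exact h1

end Pool.Agent.Wb5ab1bf
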