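import Pool.Agent.W_b5ab1bf_h80.VDen
import Pool.Agent.W_b5ab1bf_h80.VPos
import Pool.Agent.W_b5ab1b_h80.GJoint
import Pool.Agent.W_b5ab1b_h80.Uniq
import Pool.Agent.W_b5ab1b_h80.NullA

/-!
# The measures of the functionals `Phz` (helper80)
-/

set_option autoImplicit false

noncomputable section

open scoped Polynomial
open Pool.Agent.Wb5ab1b MeasureTheory

namespace Pool.Agent.Wb5ab1bf

variable {k : ℕ} (B : Bd k)

theorem VMeas_app_cC (Φ : Fn (Lau k)) (c : ℂ) (G : (Lau k)[X]) :
    E (Φ.app (cC c * G)) = c * E (Φ.app G) := by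
  unfold cC
  rw [Joint_app_C, Joint_E_C]

/-- The functional. -/
def VMeas_l (Φ : Fn (Lau k)) : (Lau k)[X] →ₗ[ℝ] ℝ where
  toFun G := (E (Φ.app G)).re
  map_add' G H := by
    have h : Φ.app (G + H) = Φ.app G + Φ.app H :=
      (show (Lau k)[X] →ₗ[Lau k] Lau k from Φ).map_add _ _
    rw [h, E_add, Complex.add_re]
  map_smul' r G := by
    have h : r • G = (cC (r : ℂ) : (Lau k)[X]) * G := by
      rw [cC, ← Polynomial.smul_eq_C_mul]
      ext n
      rw [Polynomial.coeff_smul, Polynomial.coeff_smul, smul_eq_mul, ← Algebra.smul_def]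
      rfl
    rw [h, VMeas_app_cC, Complex.re_ofReal_mul]
    rfl

theorem VMeas_integrable {R : ℝ} {m : Measure (Om k)} [IsFiniteMeasure m]
    (hm : m {p | p.2 ∉ Set.Icc (-R) R} = 0) (G : (Lau k)[X]) :
    Integrable (fun p => evO p G) m := by
  obtain ⟨C, -, hC⟩ := evO_bdd R G
  have hae : ∀ᵐ p ∂m, p.2 ∈ Set.Icc (-R) R := hm
  refine Integrable.of_bound (evO_continuous G).aestronglyMeasurable C ?_
  filter_upwards [hae] with p hp using hC p hp

/-- **Existence.**

Proof. `exists_measure` (`Pool/Agent/W_b5ab1b_h80/Riesz.lean`) for the compact space torus times `[-R, R]`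
(`BorelSpace` of countable products), `e := evRe R`, `l G := re E (Φ G)`, `Φ := Phz B c b z`, positivity
`Phz_nonneg`; push forward to `Om k` along `(y, x) ↦ (y, (x : ℝ))`. This gives
`∫ re (evO p G) = re (E (Φ G))`; for the imaginary part replace `G` by `cC (-I) * G`
(`re (-i w) = im w`), `Φ (cC c * G) = c Φ G`. If `R < 0` the interval is empty: in that case `hR` fails for the empty
reason that row sums are `≥ 0` (take `θ = 0`, `a = 0`), so `0 ≤ R`. Compare `exists_joint_g` in
`Pool/Agent/W_b5ab1b_h80/GJoint.lean`. -/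
theorem exists_meas (hH : B.Herm) {R : ℝ} (hR : B.Bdd R) (c b : ℤ) (z : ℂ) :
    ∃ m : Measure (Om k), IsM B R c b z m := by
  obtain ⟨p0, hp0, hint⟩ := exists_measure (evRe (k := k) R) (dense_evRe R)
    ⟨1, by
      ext q
      rw [evRe_apply, map_one, Complex.one_re]
      rfl⟩ (VMeas_l (Phz B c b z)) (by
      intro G hG
      refine Phz_nonneg B hH hR c b z G fun p hp => ?_
      exact hG (p.1, ⟨p.2, hp⟩))
  let ι : (ℤ × Fin k → UnitAddCircle) × Set.Icc (-R) R → Om k :=
    fun q => (q.1, ((q.2 : Set.Icc (-R) R) : ℝ))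
  have hιc : Continuous ι := continuous_fst.prodMk (continuous_subtype_val.comp continuous_snd)
  have hιm : Measurable ι := hιc.measurable
  have hM : (p0.map ι) {p | p.2 ∉ Set.Icc (-R) R} = 0 := by
    have hms : MeasurableSet {p : Om k | p.2 ∉ Set.Icc (-R) R} :=
      (measurableSet_Icc.preimage measurable_snd).compl
    rw [Measure.map_apply hιm hms]
    have h1 : ι ⁻¹' {p | p.2 ∉ Set.Icc (-R) R} = ∅ := by
      ext q
      simp only [Set.mem_preimage, Set.mem_ofPred_eq, Set.mem_empty_iff_false, iff_false, not_not]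
      exact q.2.2
    rw [h1, measure_empty]
  have hfin : IsFiniteMeasure (p0.map ι) := inferInstance
  have hintg : ∀ G : (Lau k)[X], Integrable (fun p => evO p G) (p0.map ι) :=
    fun G => VMeas_integrable hM G
  have hre : ∀ G : (Lau k)[X], (∫ p, evO p G ∂(p0.map ι)).re =
      (E ((Phz B c b z).app G)).re := by
    intro G
    have h1 : (∫ p, evO p G ∂(p0.map ι)).re = ∫ p, (evO p G).re ∂(p0.map ι) :=
      (integral_re (hintg G)).symm
    have h2 : Continuous fun p : Om k => (evO p G).re :=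
      Complex.continuous_re.comp (evO_continuous G)
    rw [h1, integral_map hιm.aemeasurable h2.aestronglyMeasurable]
    exact hint G
  refine ⟨p0.map ι, hfin, hM, ?_⟩
  intro G
  refine Complex.ext (hre G) ?_
  have h1 := hre (cC (-Complex.I) * G)
  rw [VMeas_app_cC] at h1
  simp only [map_mul, evO_cC] at h1
  rw [integral_const_mul] at h1
  simpa using h1

theorem VMeas_mass {R : ℝ} {c b : ℤ} {z : ℂ} {m : Measure (Om k)} (hm : IsM B R c b z m) :
    ((m.real Set.univ : ℝ) : ℂ) = E ((Phz B c b z).app 1) := by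
  obtain ⟨hfin, -, h⟩ := hm
  have h1 := h 1
  simp only [map_one] at h1
  rw [← h1, integral_const]
  simp

/-- The mass: `G = 1` in `IsM`, `Phz_mass`. -/
theorem mass_le {R : ℝ} {c b : ℤ} {z : ℂ} {m : Measure (Om k)} (hm : IsM B R c b z m)
    (hz : ‖z‖ ≤ 1) : m.real Set.univ ≤ 4 := by
  have h1 := VMeas_mass B hm
  have h2 := Phz_mass B c b z hz
  rw [← h1, Complex.norm_real] at h2
  exact (le_abs_self _).trans h2

theorem VMeas_app_one (c b : ℤ) (z : ℂ) :
    ∃ c0 : ℂ, (Phz B c b z).app 1 = algebraMap ℂ (Lau k) c0 := by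
  refine ⟨1 + z * (if c = b then 1 else 0) + (starRingEnd ℂ) z * (if b = c then 1 else 0) +
    z * (starRingEnd ℂ) z, ?_⟩
  unfold Phz
  rw [Fn.app_add, Fn.app_add, Fn.app_add, Fn.app_smul, Fn.app_smul, Fn.app_smul]
  unfold cC
  rw [Joint_app_C, Joint_app_C, Joint_app_C, P_one, P_one, P_one, P_one, map_add, map_add,
    map_add, map_mul, map_mul, map_one, if_pos rfl, if_pos rfl, mul_one]
  congr 2
  · congr 1
    split_ifs
    · rw [map_one]
    · rw [map_zero]
  · split_ifs
    · rw [mul_one, mul_one]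
    · rw [mul_zero, mul_zero, map_zero]

/-- Zero sets of Laurent polynomials are null sets.

Proof. `C F = embSX s (C F')`-like: `F = embS s F'` (`exists_embS`), `F' ≠ 0`. The image `μ` of `m` under
`p ↦ prS s 0 p.1` satisfies `∫ evP y F₀ dμ = E (Φ (C (embS s F₀))) = (mass constant) * E (embS s F₀) =
(mass) * ∫ evP y F₀ d volume` for all `F₀ : LauS s` (`Phz_C`; `(Phz).app 1` is a constant: `P_one`; `E_embS`), so `μ`
is a multiple of `volume` (`Joint_torus`), and `null_zero`. -/
theorem null_zero_Om {R : ℝ} {c b : ℤ} {z : ℂ} {m : Measure (Om k)} (hm : IsM B R c b z m)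
    (F : Lau k) (hF : F ≠ 0) : m {p | evY p.1 F = 0} = 0 := by
  obtain ⟨s, G', hG'⟩ := exists_S (Polynomial.C F)
  have hF' : embS s (G'.coeff 0) = F := by
    have h1 := congrArg (fun q : (Lau k)[X] => q.coeff 0) hG'
    simp only [Polynomial.coeff_C_zero] at h1
    rw [← h1]
    unfold embSX
    rw [Polynomial.coe_mapRingHom, Polynomial.coeff_map]
    rfl
  set F' : LauS s := G'.coeff 0 with hF'def
  have hF'0 : F' ≠ 0 := by
    intro h0
    rw [h0, map_zero] at hF'
    exact hF hF'.symm
  have hevS : ∀ (y : ℤ × Fin k → UnitAddCircle) (F₀ : LauS s),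
      evP (prS s 0 y) F₀ = evY y (embS s F₀) := by
    intro y F₀
    rw [← evY_embS, sh_zero]
  obtain ⟨c0, hc0⟩ := VMeas_app_one B c b z
  have hmass := VMeas_mass B hm
  obtain ⟨hfin, hsupp, hint⟩ := hm
  let π : Om k → UnitAddTorus s := fun p => prS s 0 p.1
  have hπc : Continuous π := by
    refine continuous_pi fun q => ?_
    exact (continuous_apply _).comp continuous_fst
  have hπm : Measurable π := hπc.measurable
  have hval : m.map π = m Set.univ • (volume : Measure (UnitAddTorus s)) := by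
    have hfin1 : IsFiniteMeasure (m.map π) := inferInstance
    have hfin2 : IsFiniteMeasure (m Set.univ • (volume : Measure (UnitAddTorus s))) := by
      constructor
      rw [Measure.smul_apply, smul_eq_mul]
      exact ENNReal.mul_lt_top (measure_lt_top _ _) (measure_lt_top _ _)
    refine Joint_torus _ _ fun F₀ => ?_
    have hc1 : Continuous fun y : UnitAddTorus s => evP y F₀ := (evT F₀).continuous
    rw [integral_map hπm.aemeasurable hc1.aestronglyMeasurable]
    have h1 : ∀ p : Om k, evP (π p) F₀ = evO p (Polynomial.C (embS s F₀)) := by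
      intro p
      rw [evO_C]
      exact hevS p.1 F₀
    simp only [h1]
    rw [hint, Phz_C, hc0, integral_smul_measure, mul_comm, Joint_E_C, E_embS]
    have h2 : ((m.real Set.univ : ℝ) : ℂ) = c0 := by
      rw [hmass, hc0]
      have h3 := Joint_E_C c0 (1 : Lau k)
      rw [mul_one] at h3
      rw [h3]
      have h4 : E (1 : Lau k) = 1 := by simp [E]
      rw [h4, mul_one]
    rw [← h2, measureReal_def]
    rfl
  have hset : {p : Om k | evY p.1 F = 0} = π ⁻¹' {y | evP y F' = 0} := by
    ext p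
    simp only [Set.mem_preimage, Set.mem_ofPred_eq]
    rw [← hF', ← hevS]
  rw [hset, ← Measure.map_apply hπm (isClosed_zero F').measurableSet, hval, Measure.smul_apply,
    null_zero F' hF'0, smul_zero]

theorem VMeas_snd {R : ℝ} {c b : ℤ} {z : ℂ} {m : Measure (Om k)} (hm : IsM B R c b z m) :
    (m.map Prod.snd) (Set.Icc (-R) R)ᶜ = 0 := by
  rw [Measure.map_apply measurable_snd measurableSet_Icc.compl]
  exact hm.2.1

theorem VMeas_mom {R : ℝ} {a : ℤ} {m : Measure (Om k)} (hm : IsM B R a a 0 m) (n : ℕ) :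
    ((∫ x, x ^ n ∂(m.map Prod.snd) : ℝ) : ℂ) = E ((B.P 0 0).app (Polynomial.X ^ n)) := by
  have hc1 : Continuous fun x : ℝ => x ^ n := by fun_prop
  rw [integral_map measurable_snd.aemeasurable hc1.aestronglyMeasurable]
  have h1 := hm.2.2 (Polynomial.X ^ n)
  simp only [map_pow, evO_X] at h1
  rw [Phz_self] at h1
  have h2 := B.P_shX 0 0 a (Polynomial.X ^ n)
  have h3 : shX (k := k) a (Polynomial.X ^ n) = Polynomial.X ^ n := by
    unfold shX
    rw [Polynomial.coe_mapRingHom, Polynomial.map_pow, Polynomial.map_X]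
  rw [h3, zero_add] at h2
  rw [h2, E_sh] at h1
  rw [← h1, ← integral_complex_ofReal]
  congr 1
  funext p
  push_cast
  rfl

/-- The second marginal of the diagonal measures does not depend on the site: the moments are
`E ((B.P a a).app (X ^ n)) = E ((B.P 0 0).app (X ^ n))` (`P_shX`, `E_sh`, `shX` fixes `X ^ n`), `moments_unique`. -/
theorem marg_x {R : ℝ} {a : ℤ} {m m' : Measure (Om k)} (hm : IsM B R a a 0 m)
    (hm' : IsM B R 0 0 0 m') : m.map Prod.snd = m'.map Prod.snd := by
  have hf1 : IsFiniteMeasure m := hm.1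
  have hf2 : IsFiniteMeasure m' := hm'.1
  refine moments_unique _ _ R (VMeas_snd B hm) (VMeas_snd B hm') fun n => ?_
  have h1 := VMeas_mom B hm n
  rw [← VMeas_mom B hm' n] at h1
  exact_mod_cast h1

/-- The second marginal of the diagonal measure is the spectral measure: it is a probability measure on `[-R, R]`
with moments `E (bpw B.w B.H n 0 0)`. -/
theorem marg_prob {R : ℝ} {m : Measure (Om k)} (hm : IsM B R 0 0 0 m) :
    IsProbabilityMeasure (m.map Prod.snd) ∧ (m.map Prod.snd) (Set.Icc (-R) R)ᶜ = 0 ∧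
      ∀ n : ℕ, ((∫ x, x ^ n ∂(m.map Prod.snd) : ℝ) : ℂ) = E (bpw B.w B.H n 0 0) := by
  have hf1 : IsFiniteMeasure m := hm.1
  refine ⟨?_, VMeas_snd B hm, fun n => ?_⟩
  · have h1 := VMeas_mass B hm
    rw [Phz_self, P_one, if_pos rfl] at h1
    have h2 : E (1 : Lau k) = 1 := by simp [E]
    rw [h2] at h1
    have h3 : m.real Set.univ = 1 := by exact_mod_cast h1
    rw [measureReal_def] at h3
    have h4 : IsProbabilityMeasure m := ⟨(ENNReal.toReal_eq_one_iff _).1 h3⟩
    exact Measure.isProbabilityMeasure_map measurable_snd.aemeasurable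
  · rw [VMeas_mom B hm n]
    congr 1
    exact bent_X_pow B.w B.H 0 0 n

end Pool.Agent.Wb5ab1bf
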