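import Pool.Agent.W_b5ab1bf_h80.VPos

/-!
# Asymptotic independence (helper80)
-/

set_option autoImplicit false

noncomputable section

open scoped Polynomial
open Pool.Agent.Wb5ab1b MeasureTheory

namespace Pool.Agent.Wb5ab1bf

variable {k : ℕ} (B : Bd k)

theorem VMixA_bd (η : (ℤ × Fin k) →₀ ℤ) : ∃ N : ℤ, ∀ p : ℤ × Fin k, η p ≠ 0 → |p.1| ≤ N := by
  have h : ((fun p : ℤ × Fin k => |p.1|) '' (η.support : Set (ℤ × Fin k))).Finite :=
    η.support.finite_toSet.image _
  obtain ⟨N, hN⟩ := h.bddAbove
  refine ⟨N, fun p hp => hN ⟨p, ?_, rfl⟩⟩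
  exact Finset.mem_coe.2 (Finsupp.mem_support_iff.2 hp)

theorem VMixA_single (η η' : (ℤ × Fin k) →₀ ℤ) (c d : ℂ) : ∃ i₀ : ℤ, ∀ i : ℤ, i₀ ≤ |i| →
    E (sh i (AddMonoidAlgebra.single η c) * (AddMonoidAlgebra.single η' d : Lau k)) =
      E (AddMonoidAlgebra.single η c : Lau k) * E (AddMonoidAlgebra.single η' d : Lau k) := by
  obtain ⟨N, hN⟩ := VMixA_bd η
  obtain ⟨N', hN'⟩ := VMixA_bd η'
  refine ⟨N + N' + 1, fun i hi => ?_⟩
  have key : shE i η + η' = 0 ↔ η = 0 ∧ η' = 0 := by
    constructor
    · intro h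
      have h1 : η' = 0 := by
        by_contra hne
        obtain ⟨p, hp⟩ : ∃ p, η' p ≠ 0 := by
          by_contra hcon
          push Not at hcon
          exact hne (Finsupp.ext hcon)
        have h2 := DFunLike.congr_fun h p
        rw [Finsupp.add_apply, shE_apply, Finsupp.zero_apply] at h2
        have h3 : η (p.1 - i, p.2) ≠ 0 := by
          intro h4
          rw [h4, zero_add] at h2
          exact hp h2
        have h4 := hN _ h3
        have h5 := hN' _ hp
        have h6 : |i| ≤ |p.1| + |p.1 - i| := by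
          have h7 := abs_sub p.1 (p.1 - i)
          rwa [sub_sub_cancel] at h7
        have h8 : |(p.1 - i, p.2).1| = |p.1 - i| := rfl
        rw [h8] at h4
        linarith
      rw [h1, add_zero] at h
      refine ⟨?_, h1⟩
      exact (map_eq_zero_iff (shE i) (shE i).injective).1 h
    · rintro ⟨h1, h2⟩
      rw [h1, h2, map_zero, add_zero]
  rw [sh_single, AddMonoidAlgebra.single_mul_single]
  unfold E
  rw [AddMonoidAlgebra.coeff_single, AddMonoidAlgebra.coeff_single, AddMonoidAlgebra.coeff_single,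
    Finsupp.single_apply, Finsupp.single_apply, Finsupp.single_apply]
  by_cases h : η = 0
  · by_cases h' : η' = 0
    · rw [if_pos (key.2 ⟨h, h'⟩), if_pos h, if_pos h']
    · rw [if_neg (fun h2 => h' (key.1 h2).2), if_neg h', mul_zero]
  · rw [if_neg (fun h2 => h (key.1 h2).1), if_neg h, zero_mul]

/-- Laurent polynomials at far sites are independent: if the sites of the exponents of `sh i F` and of `F'` are
disjoint then the constant coefficient of the product is the product of the constant coefficients (an exponent `η + η'`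
is `0` only if both are). -/
theorem E_indep (F F' : Lau k) : ∃ i₀ : ℤ, ∀ i : ℤ, i₀ ≤ |i| → E (sh i F * F') = E F * E F' := by
  induction F using AddMonoidAlgebra.induction_linear with
  | zero =>
    refine ⟨0, fun i _ => ?_⟩
    rw [map_zero, zero_mul, E_zero, zero_mul]
  | add F1 F2 h1 h2 =>
    obtain ⟨i1, h1⟩ := h1
    obtain ⟨i2, h2⟩ := h2
    refine ⟨max i1 i2, fun i hi => ?_⟩
    rw [map_add, add_mul, E_add, E_add, h1 i ((le_max_left _ _).trans hi),
      h2 i ((le_max_right _ _).trans hi), add_mul]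
  | single η c =>
    induction F' using AddMonoidAlgebra.induction_linear with
    | zero =>
      refine ⟨0, fun i _ => ?_⟩
      rw [mul_zero, E_zero, mul_zero]
    | add F1 F2 h1 h2 =>
      obtain ⟨i1, h1⟩ := h1
      obtain ⟨i2, h2⟩ := h2
      refine ⟨max i1 i2, fun i hi => ?_⟩
      rw [mul_add, E_add, E_add, h1 i ((le_max_left _ _).trans hi),
        h2 i ((le_max_right _ _).trans hi), mul_add]
    | single η' d => exact VMixA_single η η' c d

/-- The limit of the mean values. -/
def limI (Φ : Fn (Lau k)) (G : (Lau k)[X]) : ℂ :=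
  G.sum fun n F => E F * E (Φ.app (Polynomial.X ^ n))

theorem VMixA_limI_add (Φ : Fn (Lau k)) (p q : (Lau k)[X]) :
    limI Φ (p + q) = limI Φ p + limI Φ q := by
  unfold limI
  exact Polynomial.sum_add_index p q _ (fun n => by rw [E_zero, zero_mul])
    (fun n a b => by rw [E_add, add_mul])

theorem VMixA_limI_mon (Φ : Fn (Lau k)) (n : ℕ) (F : Lau k) :
    limI Φ (Polynomial.monomial n F) = E F * E (Φ.app (Polynomial.X ^ n)) := by
  unfold limI
  exact Polynomial.sum_monomial_index _ _ (by rw [E_zero, zero_mul])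

theorem VMixA_app_add (Φ : Fn (Lau k)) (p q : (Lau k)[X]) :
    Φ.app (p + q) = Φ.app p + Φ.app q :=
  map_add (show (Lau k)[X] →ₗ[Lau k] Lau k from Φ) p q

theorem VMixA_app_mon (Φ : Fn (Lau k)) (n : ℕ) (F : Lau k) :
    Φ.app (Polynomial.monomial n F) = F * Φ.app (Polynomial.X ^ n) := by
  rw [← Polynomial.C_mul_X_pow_eq_monomial, ← Polynomial.smul_eq_C_mul]
  exact map_smul (show (Lau k)[X] →ₗ[Lau k] Lau k from Φ) _ _

theorem VMixA_far (Φ : Fn (Lau k)) (G : (Lau k)[X]) :
    ∃ i₀ : ℤ, ∀ i : ℤ, i₀ ≤ |i| → E (Φ.app (shX i G)) = limI Φ G := by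
  induction G using Polynomial.induction_on' with
  | add p q hp hq =>
    obtain ⟨i1, h1⟩ := hp
    obtain ⟨i2, h2⟩ := hq
    refine ⟨max i1 i2, fun i hi => ?_⟩
    rw [map_add, VMixA_app_add, E_add, h1 i ((le_max_left _ _).trans hi),
      h2 i ((le_max_right _ _).trans hi), VMixA_limI_add]
  | monomial n F =>
    obtain ⟨i₀, h⟩ := E_indep F (Φ.app (Polynomial.X ^ n))
    refine ⟨i₀, fun i hi => ?_⟩
    have h1 : shX i (Polynomial.monomial n F) = Polynomial.monomial n (sh i F) := by
      show (Polynomial.monomial n F).map _ = _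
      rw [Polynomial.map_monomial]
      rfl
    rw [h1, VMixA_app_mon, VMixA_limI_mon, h i hi]

/-- Mean values at far shifts.

Proof. With `Φ := Phz B c b z` and `Phz_shX` (`shX a (shX (i - a) G) = shX i G`, `E_sh`) the left side is
`E (Φ (shX (i - a) G)) = ∑ n, E (sh (i - a) (G.coeff n) * Φ (X ^ n))`; `E_indep` for each `n`. -/
theorem E_far (c b : ℤ) (z : ℂ) (G : (Lau k)[X]) :
    ∃ i₀ : ℤ, ∀ a i : ℤ, i₀ ≤ |i - a| →
      E ((Phz B (c + a) (b + a) z).app (shX i G)) = limI (Phz B c b z) G := by
  obtain ⟨i₀, h⟩ := VMixA_far (Phz B c b z) G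
  refine ⟨i₀, fun a i hi => ?_⟩
  have h1 : shX i G = shX a (shX (i - a) G) := by
    rw [shX_shX, add_sub_cancel]
  rw [h1, Phz_shX, E_sh]
  exact h (i - a) hi

/-- The limit as an iterated integral over the finite torus and the second marginal. `E_embS`, `evG` as a sum. -/
theorem limI_eq {R : ℝ} {c b : ℤ} {z : ℂ} {m : Measure (Om k)} (hm : IsM B R c b z m)
    (s : Finset (ℤ × Fin k)) (G : (LauS s)[X]) :
    limI (Phz B c b z) (embSX s G) = ∫ x, (∫ y : UnitAddTorus s, evG (y, x) G) ∂(m.map Prod.snd) := by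
  obtain ⟨hfin, hsupp, hint⟩ := hm
  set Φ := Phz B c b z with hΦ
  -- the left side
  have hL : limI Φ (embSX s G) = ∑ n ∈ G.support, E (embS s (G.coeff n)) *
      E (Φ.app (Polynomial.X ^ n)) := by
    unfold limI
    rw [Polynomial.sum_def]
    have hc : ∀ n, (embSX s G).coeff n = embS s (G.coeff n) := fun n => by
      show (G.map _).coeff n = _
      rw [Polynomial.coeff_map]
      rfl
    have hsub : (embSX s G).support ⊆ G.support := by
      intro n hn
      rw [Polynomial.mem_support_iff] at hn ⊢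
      intro h
      rw [hc, h, map_zero] at hn
      exact hn rfl
    rw [Finset.sum_subset hsub]
    · exact Finset.sum_congr rfl fun n _ => by rw [hc]
    · intro n _ hn
      rw [Polynomial.mem_support_iff, not_not] at hn
      rw [hn, E_zero, zero_mul]
  -- the inner integral
  have hi : ∀ F : LauS s, Integrable (fun y => evP y F) (volume : Measure (UnitAddTorus s)) := by
    intro F
    have h1 : Continuous (fun y : UnitAddTorus s => evP y F) := (evT F).continuous
    exact h1.integrable_of_hasCompactSupport (HasCompactSupport.of_compactSpace _)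
  have hI : ∀ x : ℝ, (∫ y : UnitAddTorus s, evG (y, x) G) =
      ∑ n ∈ G.support, E (embS s (G.coeff n)) * (x : ℂ) ^ n := by
    intro x
    have h1 : ∀ y : UnitAddTorus s, evG (y, x) G =
        ∑ n ∈ G.support, evP y (G.coeff n) * (x : ℂ) ^ n := by
      intro y
      unfold evG
      rw [Polynomial.coe_eval₂RingHom, Polynomial.eval₂_eq_sum, Polynomial.sum_def]
      rfl
    simp only [h1]
    rw [integral_finsetSum _ fun n _ => (hi (G.coeff n)).mul_const _]
    refine Finset.sum_congr rfl fun n _ => ?_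
    rw [integral_mul_const, E_embS]
  -- moments of the second marginal
  have hbd : ∀ n : ℕ, Integrable (fun p : Om k => ((p.2 : ℝ) : ℂ) ^ n) m := by
    intro n
    refine Integrable.of_bound (C := |R| ^ n) ?_ ?_
    · have h1 : Measurable (fun p : Om k => ((p.2 : ℝ) : ℂ) ^ n) :=
        (Complex.measurable_ofReal.comp measurable_snd).pow_const n
      exact h1.aestronglyMeasurable
    · have h2 : ∀ᵐ p ∂m, p.2 ∈ Set.Icc (-R) R := by
        rw [ae_iff]
        exact hsupp
      filter_upwards [h2] with p hp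
      rw [norm_pow, Complex.norm_real]
      refine pow_le_pow_left₀ (norm_nonneg _) ?_ n
      rw [Real.norm_eq_abs]
      exact (abs_le.2 hp).trans (le_abs_self R)
  have hmom : ∀ n : ℕ, ∫ p : Om k, ((p.2 : ℝ) : ℂ) ^ n ∂m = E (Φ.app (Polynomial.X ^ n)) := by
    intro n
    rw [← hint]
    refine integral_congr_ae (Filter.Eventually.of_forall fun p => ?_)
    show ((p.2 : ℝ) : ℂ) ^ n = evO p (Polynomial.X ^ n)
    rw [map_pow, evO_X]
  have hmeas : ∀ n : ℕ, AEStronglyMeasurable (fun x : ℝ => (x : ℂ) ^ n) (m.map Prod.snd) :=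
    fun n => (Complex.continuous_ofReal.pow n).aestronglyMeasurable
  have hint2 : ∀ n : ℕ, Integrable (fun x : ℝ => (x : ℂ) ^ n) (m.map Prod.snd) := by
    intro n
    rw [integrable_map_measure (hmeas n) measurable_snd.aemeasurable]
    exact hbd n
  rw [hL]
  simp only [hI]
  rw [integral_finsetSum _ fun n _ => (hint2 n).const_mul _]
  refine Finset.sum_congr rfl fun n _ => ?_
  rw [integral_const_mul, integral_map measurable_snd.aemeasurable (hmeas n), ← hmom n]

end Pool.Agent.Wb5ab1bf
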