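import Pool.Agent.W_b5ab1bf_h80.VKey

/-!
# No mass on null sets (helper80)
-/

set_option autoImplicit false

noncomputable section

open scoped Polynomial
open Pool.Agent.Wb5ab1b MeasureTheory

namespace Pool.Agent.Wb5ab1bf

variable {k : ℕ} (B : Bd k)

/-- **No mass on null sets.**

Proof. Let `s := (m 0 0 0).real {p | p.2 ∈ N}`; by `marg_x` the same value for all `m a a 0`. Suppose `0 < s`.
`mixing` for `κ`, `c = b = 0`, `z = 0` and `ε = s / 4` gives `δ`, `i₀`. For `n : ℕ` and `j < n` with `i₀ ≤ |w + j|` and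
`i₀ ≤ |n - w - j|` the set `{p | p.2 ∈ N ∧ δ < ‖evO p κ‖ ∧ δ < ‖evO p (shX n κ)‖}` has `m (w + j) (w + j) 0` measure at
least `s - s / 4 - s / 4 = s / 2` (`shX 0 κ = κ`, `i = 0` and `i = n`, `a = w + j`). The number of the other `j` is at
most `2 * |i₀| + 2 * w + 2` or so, so `(n - 4 |i₀| - 4 w - 4) * s / 2 ≤ C / δ` for all `n` (`key_ineq`), a
contradiction for large `n`. -/
theorem no_mass {R M : ℝ} (m : ℤ → ℤ → ℂ → Measure (Om k))
    (hm : ∀ c b z, IsM B R c b z (m c b z)) (κ κ' : (Lau k)[X]) (B₀ : (ℤ × ℤ) →₀ (Lau k)[X])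
    (N : Set ℝ) (hN : IsCompact N) (hN0 : volume N = 0)
    (hκ : ∀ x ∈ N, κ.eval (algebraMap ℂ (Lau k) ((x : ℝ) : ℂ)) ≠ 0)
    (hκ' : ∀ x ∈ N, κ'.eval (algebraMap ℂ (Lau k) ((x : ℝ) : ℂ)) ≠ 0)
    (h : ∀ (n : ℕ) (i : ℤ), ∃ b : Lau k, b ≠ 0 ∧
      (Polynomial.C b * shX i κ') • eP B (Ffin B κ B₀ n) ∈ AC k M) :
    (m 0 0 0) {p | p.2 ∈ N} = 0 := by
  classical
  obtain ⟨C, hC0, hC⟩ := key_ineq B m hm κ κ' B₀ N hN hN0 hκ' h
  haveI hfin : ∀ c b z, IsFiniteMeasure (m c b z) := fun c b z => (hm c b z).1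
  have hNm : MeasurableSet N := hN.isClosed.measurableSet
  have hmarg : ∀ a : ℤ, (m a a 0) {p | p.2 ∈ N} = (m 0 0 0) {p | p.2 ∈ N} := by
    intro a
    have h1 := congrArg (fun μ : Measure ℝ => μ N) (marg_x B (hm a a 0) (hm 0 0 0))
    simp only [Measure.map_apply measurable_snd hNm] at h1
    exact h1
  by_contra hne
  set s : ℝ := (m 0 0 0).real {p | p.2 ∈ N} with hs
  have hs0 : 0 < s := by
    rw [hs, measureReal_def]
    exact ENNReal.toReal_pos hne (measure_ne_top _ _)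
  obtain ⟨δ, hδ, i₀, hmix⟩ := mixing B m hm N hN κ hκ 0 0 0 (s / 4) (by linarith)
  have hmix' : ∀ a i : ℤ, i₀ ≤ |i - a| →
      (m a a 0).real {p | p.2 ∈ N ∧ ‖evO p (shX i κ)‖ ≤ δ} ≤ s / 4 := by
    intro a i hai
    have h1 := hmix a i hai
    rw [zero_add] at h1
    rw [measureReal_def]
    exact ENNReal.toReal_le_of_le_ofReal (by linarith) h1
  have hlow : ∀ (a : ℤ) (n : ℕ), i₀ ≤ |0 - a| → i₀ ≤ |(n : ℤ) - a| →
      s / 2 ≤ (m a a 0).real {p | p.2 ∈ N ∧ δ < ‖evO p κ‖ ∧ δ < ‖evO p (shX n κ)‖} := by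
    intro a n h0 hn
    have h1 := hmix' a 0 h0
    have h2 := hmix' a n hn
    rw [shX_zero] at h1
    have hsub : {p : Om k | p.2 ∈ N} ⊆
        {p | p.2 ∈ N ∧ δ < ‖evO p κ‖ ∧ δ < ‖evO p (shX n κ)‖} ∪
          ({p | p.2 ∈ N ∧ ‖evO p κ‖ ≤ δ} ∪ {p | p.2 ∈ N ∧ ‖evO p (shX n κ)‖ ≤ δ}) := by
      intro p hp
      simp only [Set.mem_setOf_eq] at hp
      simp only [Set.mem_union, Set.mem_setOf_eq]
      by_cases ha : δ < ‖evO p κ‖
      · by_cases hb : δ < ‖evO p (shX n κ)‖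
        · exact Or.inl ⟨hp, ha, hb⟩
        · exact Or.inr (Or.inr ⟨hp, not_lt.mp hb⟩)
      · exact Or.inr (Or.inl ⟨hp, not_lt.mp ha⟩)
    have h3 : s ≤ (m a a 0).real
        ({p | p.2 ∈ N ∧ δ < ‖evO p κ‖ ∧ δ < ‖evO p (shX n κ)‖} ∪
          ({p | p.2 ∈ N ∧ ‖evO p κ‖ ≤ δ} ∪ {p | p.2 ∈ N ∧ ‖evO p (shX n κ)‖ ≤ δ})) := by
      rw [hs, measureReal_def, ← hmarg a, ← measureReal_def]
      exact measureReal_mono hsub (measure_ne_top _ _)
    have h4 := measureReal_union_le (μ := m a a 0)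
      {p | p.2 ∈ N ∧ δ < ‖evO p κ‖ ∧ δ < ‖evO p (shX n κ)‖}
      ({p | p.2 ∈ N ∧ ‖evO p κ‖ ≤ δ} ∪ {p | p.2 ∈ N ∧ ‖evO p (shX n κ)‖ ≤ δ})
    have h5 := measureReal_union_le (μ := m a a 0)
      {p : Om k | p.2 ∈ N ∧ ‖evO p κ‖ ≤ δ} {p | p.2 ∈ N ∧ ‖evO p (shX n κ)‖ ≤ δ}
    linarith
  set J : ℕ := i₀.natAbs with hJ
  have hJi : i₀ ≤ (J : ℤ) := by
    rw [hJ]
    omega
  have hbig : ∀ L : ℕ, (L : ℝ) * (s / 2) ≤ C / δ := by
    intro L
    have h1 := hC (J + B.w + J + L) δ hδ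
    refine le_trans ?_ h1
    have h2 : ∑ j ∈ Finset.Ico J (J + L), (s / 2) = (L : ℝ) * (s / 2) := by
      rw [Finset.sum_const, Nat.card_Ico, nsmul_eq_mul, Nat.add_sub_cancel_left]
    rw [← h2]
    have h3 : Finset.Ico J (J + L) ⊆ Finset.range (J + B.w + J + L) := by
      intro j hj
      rw [Finset.mem_Ico] at hj
      rw [Finset.mem_range]
      omega
    refine le_trans ?_ (Finset.sum_le_sum_of_subset_of_nonneg h3
      (fun j _ _ => measureReal_nonneg))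
    apply Finset.sum_le_sum
    intro j hj
    rw [Finset.mem_Ico] at hj
    apply hlow
    · rw [zero_sub, abs_neg, abs_of_nonneg (by omega)]
      omega
    · push_cast
      rw [abs_of_nonneg (by omega)]
      omega
  obtain ⟨L, hL⟩ := exists_nat_gt (C / δ / (s / 2))
  have h1 := hbig L
  rw [div_lt_iff₀ (by linarith)] at hL
  linarith

/-- The exceptional set of a polynomial is finite: the `x` for which `G.eval x = 0` are roots of `G` in the integral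
domain `Lau k` (`algebraMap` is injective). -/
theorem exists_exc (G : (Lau k)[X]) (hG : G ≠ 0) :
    ∃ F : Finset ℝ, ∀ x : ℝ, x ∉ F → G.eval (algebraMap ℂ (Lau k) (x : ℂ)) ≠ 0 := by
  classical
  have hinj : Function.Injective (fun x : ℝ => algebraMap ℂ (Lau k) (x : ℂ)) := by
    intro x y hxy
    have h1 := FaithfulSMul.algebraMap_injective ℂ (Lau k) hxy
    exact Complex.ofReal_injective h1
  refine ⟨G.roots.toFinset.preimage (fun x : ℝ => algebraMap ℂ (Lau k) (x : ℂ))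
    hinj.injOn, ?_⟩
  intro x hx h0
  apply hx
  rw [Finset.mem_preimage, Multiset.mem_toFinset, Polynomial.mem_roots hG]
  exact h0

end Pool.Agent.Wb5ab1bf
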