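import Pool.Agent.W_b5ab1bf_h80.VFam
import Pool.Agent.W_b5ab1b_h80.AcA

/-!
# Absolutely continuous functionals vanish on null sets: polynomials (helper80)
-/

set_option autoImplicit false

noncomputable section

open scoped Polynomial
open Pool.Agent.Wb5ab1b MeasureTheory

namespace Pool.Agent.Wb5ab1bf

variable {k : ℕ} (B : Bd k)

theorem VVa_toL (p : Om k) (q : ℝ[X]) : evO p (toL q) = ((q.eval p.2 : ℝ) : ℂ) := by
  unfold evO toL
  rw [Polynomial.coe_eval₂RingHom, Polynomial.eval₂_map]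
  have h : (evY p.1 : Lau k →+* ℂ).comp (algebraMap ℝ (Lau k)) = algebraMap ℝ ℂ := by
    ext1 r
    show evY p.1 (algebraMap ℝ (Lau k) r) = algebraMap ℝ ℂ r
    rw [IsScalarTower.algebraMap_apply ℝ ℂ (Lau k)]
    exact (evY p.1).commutes _
  rw [h]
  exact Polynomial.eval₂_at_apply (algebraMap ℝ ℂ) p.2

theorem VVa_nrm {M R : ℝ} (h : M ≤ R) (q : ℝ[X]) : nrm M q ≤ nrm R q := by
  unfold nrm
  apply setIntegral_mono_set (nrm_integrable R q)
  · exact Filter.Eventually.of_forall fun _ => abs_nonneg _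
  · exact (Set.Icc_subset_Icc (by linarith) h).eventuallyLE

theorem VVa_int {ι Y : Type} [Fintype ι] [MeasurableSpace ι] [MeasurableSpace Y]
    (m : ι → Measure (Y × ℝ)) (hm : ∀ l, IsFiniteMeasure (m l)) (F : (ι × Y) × ℝ → ℂ)
    (hF : Measurable F) (B : ℝ) (hB : ∀ l, ∀ᵐ p ∂(m l), ‖F ((l, p.1), p.2)‖ ≤ B) :
    ∫ z, F z ∂(∑ l, (m l).map (fun p => ((l, p.1), p.2))) =
      ∑ l, ∫ p, F ((l, p.1), p.2) ∂(m l) := by
  have hme : ∀ l, Measurable (fun p : Y × ℝ => (((l, p.1), p.2) : (ι × Y) × ℝ)) := fun l =>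
    (measurable_const.prodMk measurable_fst).prodMk measurable_snd
  rw [integral_finsetSum_measure]
  · refine Finset.sum_congr rfl fun l _ => ?_
    rw [integral_map (hme l).aemeasurable hF.aestronglyMeasurable]
  · intro l _
    rw [integrable_map_measure hF.aestronglyMeasurable (hme l).aemeasurable]
    exact (integrable_const B).mono' (hF.comp (hme l)).aestronglyMeasurable (hB l)

/-- An absolutely continuous family has integral `0` over `x ∈ N`, `N` a compact null set.

Proof. Apply `int_zero_of_bound` (`Pool/Agent/W_b5ab1b_h80/AcA.lean`) to the measure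
`ν := ∑ l, (m l).map (fun p => ((l, p.1), p.2))` on `(T.ι × (ℤ × Fin k → UnitAddCircle)) × ℝ` and the function
`F ((l, y), x) := evO (y, x) (W * T.G l)` (measurable, bounded for `x ∈ [-R', R']`; take `R' := max R M`, `M` of `AC`; the
bound `nrm M q ≤ nrm R' q`). The hypothesis of `int_zero_of_bound`: for a real polynomial `q`
`∫ F q dν = ∑ l, ∫ evO p (W * toL q * T.G l) dm_l = E (W₀-combination)`. For `W = C W₀ * X ^ n` it is
`E (W₀ * ((X ^ n • Φ).app (toL q)))`, and `X ^ n • Φ ∈ AC`; a general `W` is a sum of such. -/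
theorem Fam.int_zero (T : Fam k) {R M : ℝ} (m : ℤ → ℤ → ℂ → Measure (Om k))
    (hm : ∀ c b z, IsM B R c b z (m c b z)) (hΦ : T.Φ B ∈ AC k M) (N : Set ℝ) (hN : IsCompact N)
    (hN0 : volume N = 0) (W : (Lau k)[X]) : T.J m N (fun p => evO p W) = 0 := by
  classical
  let _ : MeasurableSpace T.ι := ⊤
  have hfin : ∀ l, IsFiniteMeasure (m (T.c l) (T.b l) (T.z l)) := fun l => (hm _ _ _).1
  have hme : ∀ l : T.ι, Measurable (fun p : Om k =>
      (((l, p.1), p.2) : (T.ι × (ℤ × Fin k → UnitAddCircle)) × ℝ)) := fun l =>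
    (measurable_const.prodMk measurable_fst).prodMk measurable_snd
  set R' : ℝ := max R M with hR'
  have hsub : Set.Icc (-R) R ⊆ Set.Icc (-R') R' :=
    Set.Icc_subset_Icc (neg_le_neg (le_max_left _ _)) (le_max_left _ _)
  have hmem : ∀ l, ∀ᵐ p ∂(m (T.c l) (T.b l) (T.z l)), p.2 ∈ Set.Icc (-R') R' := by
    intro l
    have h1 : ∀ᵐ p ∂(m (T.c l) (T.b l) (T.z l)), p.2 ∈ Set.Icc (-R) R := by
      rw [ae_iff]
      exact (hm _ _ _).2.1
    filter_upwards [h1] with p hp using hsub hp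
  choose B0 hB0 hB1 using fun l => evO_bdd (k := k) R' (W * T.G l)
  set F : (T.ι × (ℤ × Fin k → UnitAddCircle)) × ℝ → ℂ :=
    fun z => evO (z.1.2, z.2) (W * T.G z.1.1) with hFdef
  have hF : Measurable F := by
    have h1 : F = fun z => ∑ l, if z.1.1 = l then evO (z.1.2, z.2) (W * T.G l) else 0 := by
      funext z
      rw [Finset.sum_ite_eq, if_pos (Finset.mem_univ _)]
    rw [h1]
    refine Finset.measurable_sum _ fun l _ => ?_
    refine Measurable.ite ?_ ?_ measurable_const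
    · exact (measurable_fst.comp measurable_fst) (MeasurableSpace.measurableSet_top (s := {l}))
    · exact (evO_continuous (W * T.G l)).measurable.comp
        ((measurable_snd.comp measurable_fst).prodMk measurable_snd)
  set Bb : ℝ := ∑ l, B0 l with hBb
  have hBl : ∀ l, B0 l ≤ Bb := fun l => Finset.single_le_sum (fun l _ => hB0 l) (Finset.mem_univ l)
  have hbd : ∀ l, ∀ᵐ p ∂(m (T.c l) (T.b l) (T.z l)), ‖F ((l, p.1), p.2)‖ ≤ Bb := by
    intro l
    filter_upwards [hmem l] with p hp using (hB1 l p hp).trans (hBl l)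
  set ν : Measure ((T.ι × (ℤ × Fin k → UnitAddCircle)) × ℝ) :=
    ∑ l, (m (T.c l) (T.b l) (T.z l)).map (fun p => ((l, p.1), p.2)) with hν
  have hae : ∀ P : (T.ι × (ℤ × Fin k → UnitAddCircle)) × ℝ → Prop, MeasurableSet {z | P z} →
      (∀ l, ∀ᵐ p ∂(m (T.c l) (T.b l) (T.z l)), P ((l, p.1), p.2)) → ∀ᵐ z ∂ν, P z := by
    intro P hP h1
    rw [ae_iff, hν, Measure.finsetSum_apply]
    refine Finset.sum_eq_zero fun l _ => ?_
    have h3 : MeasurableSet {z : (T.ι × (ℤ × Fin k → UnitAddCircle)) × ℝ | ¬ P z} := hP.compl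
    rw [Measure.map_apply (hme l) h3]
    exact h1 l
  have hνfin : IsFiniteMeasure ν := by
    refine ⟨?_⟩
    rw [hν, Measure.finsetSum_apply]
    refine ENNReal.sum_lt_top.mpr fun l _ => ?_
    rw [Measure.map_apply (hme l) MeasurableSet.univ]
    exact measure_lt_top _ _
  have hν0 : ν {z | z.2 ∉ Set.Icc (-R') R'} = 0 :=
    hae (fun z => z.2 ∈ Set.Icc (-R') R') (measurable_snd measurableSet_Icc) hmem
  have hνB : ∀ᵐ z ∂ν, ‖F z‖ ≤ Bb :=
    hae (fun z => ‖F z‖ ≤ Bb) (measurableSet_le hF.norm measurable_const) hbd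
  have h1 : W • T.Φ B ∈ AC k M := Submodule.smul_mem _ _ hΦ
  obtain ⟨K, hK⟩ := h1 1
  have h2 : ∀ q : ℝ[X], ‖∫ z, F z * ((q.eval z.2 : ℝ) : ℂ) ∂ν‖ ≤ |K| * nrm R' q := by
    intro q
    obtain ⟨Bq, hBq⟩ : ∃ Bq : ℝ, ∀ x ∈ Set.Icc (-R') R', ‖((q.eval x : ℝ) : ℂ)‖ ≤ Bq := by
      have h3 : ContinuousOn (fun x : ℝ => ((q.eval x : ℝ) : ℂ)) (Set.Icc (-R') R') :=
        (Complex.continuous_ofReal.comp q.continuous).continuousOn
      exact isCompact_Icc.exists_bound_of_continuousOn h3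
    have h3 : ∫ z, F z * ((q.eval z.2 : ℝ) : ℂ) ∂ν =
        ∑ l, ∫ p, evO p (W * toL q * T.G l) ∂(m (T.c l) (T.b l) (T.z l)) := by
      rw [hν, VVa_int (fun l => m (T.c l) (T.b l) (T.z l)) hfin
        (fun z => F z * ((q.eval z.2 : ℝ) : ℂ))
        (hF.mul (Complex.measurable_ofReal.comp (q.continuous.measurable.comp measurable_snd)))
        (|Bb| * |Bq|)]
      · refine Finset.sum_congr rfl fun l _ => integral_congr_ae
          (Filter.Eventually.of_forall fun p => ?_)
        show evO (p.1, p.2) (W * T.G l) * ((q.eval p.2 : ℝ) : ℂ) = evO p (W * toL q * T.G l)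
        rw [map_mul, map_mul, map_mul, VVa_toL]
        ring
      · intro l
        filter_upwards [hbd l, hmem l] with p hp1 hp2
        rw [norm_mul]
        exact mul_le_mul (hp1.trans (le_abs_self _)) ((hBq _ hp2).trans (le_abs_self _))
          (norm_nonneg _) (abs_nonneg _)
    rw [h3, ← T.int_eq B m hm]
    have h4 := hK q
    rw [one_mul, Fn.app_smul] at h4
    refine h4.trans ?_
    calc K * nrm M q ≤ |K| * nrm M q := mul_le_mul_of_nonneg_right (le_abs_self _) (nrm_nonneg _ _)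
      _ ≤ |K| * nrm R' q := mul_le_mul_of_nonneg_left (VVa_nrm (le_max_right _ _) q) (abs_nonneg _)
  have h5 := int_zero_of_bound ν R' hν0 F hF Bb hνB |K| h2 N hN hN0
  have hSN : MeasurableSet {z : (T.ι × (ℤ × Fin k → UnitAddCircle)) × ℝ | z.2 ∈ N} :=
    measurable_snd hN.measurableSet
  rw [← integral_indicator hSN, hν, VVa_int (fun l => m (T.c l) (T.b l) (T.z l)) hfin
    (fun z => ({z : (T.ι × (ℤ × Fin k → UnitAddCircle)) × ℝ | z.2 ∈ N}).indicator F z)
    (hF.indicator hSN) Bb] at h5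
  · unfold Fam.J
    rw [← h5]
    refine Finset.sum_congr rfl fun l _ => ?_
    have hS : MeasurableSet {p : Om k | p.2 ∈ N} := measurable_snd hN.measurableSet
    rw [← integral_indicator hS]
    refine integral_congr_ae (Filter.Eventually.of_forall fun p => ?_)
    by_cases hp : p.2 ∈ N
    · have hp1 : p ∈ {p : Om k | p.2 ∈ N} := hp
      have hp2 : (((l, p.1), p.2) : (T.ι × (ℤ × Fin k → UnitAddCircle)) × ℝ) ∈
          {z : (T.ι × (ℤ × Fin k → UnitAddCircle)) × ℝ | z.2 ∈ N} := hp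
      simp only [Set.indicator_of_mem hp1, Set.indicator_of_mem hp2]
      rw [hFdef]
      show evO p W * evO p (T.G l) = evO (p.1, p.2) (W * T.G l)
      rw [map_mul]
    · have hp1 : p ∉ {p : Om k | p.2 ∈ N} := hp
      have hp2 : (((l, p.1), p.2) : (T.ι × (ℤ × Fin k → UnitAddCircle)) × ℝ) ∉
          {z : (T.ι × (ℤ × Fin k → UnitAddCircle)) × ℝ | z.2 ∈ N} := hp
      simp only [Set.indicator_of_notMem hp1, Set.indicator_of_notMem hp2]
  · intro l
    filter_upwards [hbd l] with p hp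
    exact (norm_indicator_le_norm_self _ _).trans hp

end Pool.Agent.Wb5ab1bf
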