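import Pool.Agent.W_b5ab1bf_h80.BBnd
import Pool.Agent.W_b5ab1b_h80.GGrp
import Pool.Agent.W_b5ab1b_h80.Lau2b

/-!
# Elements of the group ring of `ℤ^k ≀ ℤ` as band matrices (helper80)
-/

set_option autoImplicit false

noncomputable section

open scoped Polynomial
open Pool.Agent.Wb5ab1b MeasureTheory

namespace Pool.Agent.Wb5ab1bf

variable {k : ℕ}

/-- The coefficient of the power `m` of the shift. -/
def cT (T : MonoidAlgebra ℝ (Wr (Fin k → ℤ))) (m : ℤ) : Lau k :=
  T.coeff.sum fun g a => if Multiplicative.toAdd g.right = m then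
    AddMonoidAlgebra.single (expo (Multiplicative.toAdd g.left)) (a : ℂ) else 0

/-- The band matrix. -/
def hT (T : MonoidAlgebra ℝ (Wr (Fin k → ℤ))) (a b : ℤ) : Lau k := sh a (cT T (b - a))

theorem cT_zero (T : MonoidAlgebra ℝ (Wr (Fin k → ℤ))) (m : ℤ)
    (h : ∀ g, T.coeff g ≠ 0 → Multiplicative.toAdd g.right ≠ m) : cT T m = 0 := by
  unfold cT Finsupp.sum
  refine Finset.sum_eq_zero fun g hg => ?_
  exact if_neg (h g (Finsupp.mem_support_iff.1 hg))

theorem WGrp_cT_zero (m : ℤ) : cT (0 : MonoidAlgebra ℝ (Wr (Fin k → ℤ))) m = 0 := by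
  unfold cT
  simp

theorem WGrp_cT_add (S T : MonoidAlgebra ℝ (Wr (Fin k → ℤ))) (m : ℤ) :
    cT (S + T) m = cT S m + cT T m := by
  unfold cT
  rw [MonoidAlgebra.coeff_add]
  refine Finsupp.sum_add_index' (fun g => ?_) (fun g x y => ?_)
  · split_ifs
    · simp
    · rfl
  · split_ifs
    · rw [Complex.ofReal_add, AddMonoidAlgebra.single_add]
    · rw [add_zero]

theorem WGrp_cT_single (g : Wr (Fin k → ℤ)) (c : ℝ) (m : ℤ) :
    cT (MonoidAlgebra.single g c) m = if Multiplicative.toAdd g.right = m then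
      AddMonoidAlgebra.single (expo (Multiplicative.toAdd g.left)) (c : ℂ) else 0 := by
  unfold cT
  rw [MonoidAlgebra.coeff_single, Finsupp.sum_single_index]
  split_ifs
  · simp
  · rfl

theorem WGrp_expo_inj {x y : ℤ →₀ (Fin k → ℤ)} (h : expo x = expo y) : x = y := by
  have h1 : expo (x - y) = 0 := by rw [map_sub, h, sub_self]
  exact sub_eq_zero.1 (GrpA_expo_inj _ h1)

theorem WGrp_cT_coeff (T : MonoidAlgebra ℝ (Wr (Fin k → ℤ))) (g : Wr (Fin k → ℤ)) :
    (cT T (Multiplicative.toAdd g.right)).coeff (expo (Multiplicative.toAdd g.left)) =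
      ((T.coeff g : ℝ) : ℂ) := by
  classical
  induction T using MonoidAlgebra.induction_linear with
  | zero =>
    rw [WGrp_cT_zero]
    simp
  | add y z hy hz =>
    rw [WGrp_cT_add, AddMonoidAlgebra.coeff_add, Finsupp.add_apply, hy, hz,
      MonoidAlgebra.coeff_add, Finsupp.add_apply, Complex.ofReal_add]
  | single h c =>
    rw [WGrp_cT_single, MonoidAlgebra.coeff_single, Finsupp.single_apply]
    by_cases hgh : h = g
    · subst hgh
      rw [if_pos rfl, if_pos rfl, AddMonoidAlgebra.coeff_single, Finsupp.single_eq_same]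
    · rw [if_neg hgh, Complex.ofReal_zero]
      by_cases hr : Multiplicative.toAdd h.right = Multiplicative.toAdd g.right
      · rw [if_pos hr, AddMonoidAlgebra.coeff_single, Finsupp.single_apply, if_neg]
        intro hx
        apply hgh
        apply SemidirectProduct.ext
        · exact Multiplicative.toAdd.injective (WGrp_expo_inj hx)
        · exact Multiplicative.toAdd.injective hr
      · rw [if_neg hr, AddMonoidAlgebra.coeff_zero, Finsupp.zero_apply]

/-- The involution of the group ring. -/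
def WGrp_inv (T : MonoidAlgebra ℝ (Wr (Fin k → ℤ))) : MonoidAlgebra ℝ (Wr (Fin k → ℤ)) :=
  T.coeff.sum fun g a => MonoidAlgebra.single g⁻¹ a

theorem WGrp_inv_zero : WGrp_inv (0 : MonoidAlgebra ℝ (Wr (Fin k → ℤ))) = 0 := by
  unfold WGrp_inv
  simp

theorem WGrp_inv_add (S T : MonoidAlgebra ℝ (Wr (Fin k → ℤ))) :
    WGrp_inv (S + T) = WGrp_inv S + WGrp_inv T := by
  unfold WGrp_inv
  rw [MonoidAlgebra.coeff_add]
  refine Finsupp.sum_add_index' (fun g => by simp) (fun g x y => ?_)
  rw [MonoidAlgebra.single_add]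

theorem WGrp_inv_single (g : Wr (Fin k → ℤ)) (c : ℝ) :
    WGrp_inv (MonoidAlgebra.single g c) = MonoidAlgebra.single g⁻¹ c := by
  unfold WGrp_inv
  rw [MonoidAlgebra.coeff_single, Finsupp.sum_single_index (by simp)]

theorem WGrp_inv_coeff (T : MonoidAlgebra ℝ (Wr (Fin k → ℤ))) (g : Wr (Fin k → ℤ)) :
    (WGrp_inv T).coeff g = T.coeff g⁻¹ := by
  classical
  induction T using MonoidAlgebra.induction_linear with
  | zero =>
    rw [WGrp_inv_zero]
    rfl
  | add y z hy hz =>
    rw [WGrp_inv_add, MonoidAlgebra.coeff_add, MonoidAlgebra.coeff_add, Finsupp.add_apply,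
      Finsupp.add_apply, hy, hz]
  | single h c =>
    rw [WGrp_inv_single, MonoidAlgebra.coeff_single, MonoidAlgebra.coeff_single,
      Finsupp.single_apply, Finsupp.single_apply]
    have h1 : (h⁻¹ = g) ↔ (h = g⁻¹) := by
      constructor
      · rintro rfl
        rw [inv_inv]
      · rintro rfl
        rw [inv_inv]
    simp only [h1]

theorem WGrp_ev_neg (θ : ℤ × Fin k → ℝ) (η : (ℤ × Fin k) →₀ ℤ) (c : ℝ) :
    ev θ (AddMonoidAlgebra.single (-η) (c : ℂ)) =
      (starRingEnd ℂ) (ev θ (AddMonoidAlgebra.single η (c : ℂ))) := by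
  rw [ev_single, ev_single, map_mul, ← Complex.exp_conj, Complex.conj_ofReal]
  congr 2
  have h : ((-η).sum fun j e => (e : ℝ) * θ j) = -(η.sum fun j e => (e : ℝ) * θ j) := by
    rw [Finsupp.sum_neg_index (by simp)]
    unfold Finsupp.sum
    rw [← Finset.sum_neg_distrib]
    refine Finset.sum_congr rfl fun i _ => ?_
    push_cast
    ring
  rw [h, map_mul, map_mul, map_mul, Complex.conj_I, Complex.conj_ofReal, Complex.conj_ofReal,
    Complex.conj_ofNat]
  push_cast
  ring

theorem WGrp_expo_inv (g : Wr (Fin k → ℤ)) :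
    expo (Multiplicative.toAdd (g⁻¹).left) =
      -(shE (-(Multiplicative.toAdd g.right)) (expo (Multiplicative.toAdd g.left))) := by
  have e1 : Multiplicative.toAdd (g⁻¹).left =
      Finsupp.domCongr (Equiv.addLeft (-(Multiplicative.toAdd g.right)))
        (-(Multiplicative.toAdd g.left)) := rfl
  rw [e1, GGrp_expo_shift, map_neg, map_neg]

theorem WGrp_herm (T : MonoidAlgebra ℝ (Wr (Fin k → ℤ))) (θ : ℤ × Fin k → ℝ) (a b : ℤ) :
    ev θ (sh b (cT (WGrp_inv T) (a - b))) = (starRingEnd ℂ) (ev θ (sh a (cT T (b - a)))) := by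
  induction T using MonoidAlgebra.induction_linear with
  | zero =>
    rw [WGrp_inv_zero, WGrp_cT_zero, WGrp_cT_zero, map_zero, map_zero, map_zero, map_zero,
      map_zero]
  | add y z hy hz =>
    rw [WGrp_inv_add, WGrp_cT_add, WGrp_cT_add, map_add, map_add, hy, hz, map_add, map_add,
      map_add]
  | single g c =>
    rw [WGrp_inv_single, WGrp_cT_single, WGrp_cT_single]
    have e2 : Multiplicative.toAdd (g⁻¹).right = -(Multiplicative.toAdd g.right) := rfl
    rw [e2]
    by_cases h : Multiplicative.toAdd g.right = b - a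
    · rw [if_pos h, if_pos (by rw [h]; ring), sh_single, sh_single, ← WGrp_ev_neg, WGrp_expo_inv,
        map_neg, GSh_shE_shE]
      congr 3
      rw [h]
      congr 1
      congr 1
      ring
    · rw [if_neg h, if_neg (by intro h'; apply h; linarith), map_zero, map_zero, map_zero,
        map_zero, map_zero]

/-- The elements `g` with `g.right = m` are determined by `g.left`, and `expo` is injective (`GrpA_expo_inj`), so the
monomials do not cancel: the coefficient of `cT T m` at `expo g.left` is `T.coeff g`. -/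
theorem cT_ne_zero (T : MonoidAlgebra ℝ (Wr (Fin k → ℤ))) (g : Wr (Fin k → ℤ))
    (hg : T.coeff g ≠ 0) : cT T (Multiplicative.toAdd g.right) ≠ 0 := by
  intro h
  have h1 := WGrp_cT_coeff T g
  rw [h, AddMonoidAlgebra.coeff_zero, Finsupp.zero_apply] at h1
  exact hg (Complex.ofReal_eq_zero.1 h1.symm)

theorem WGrp_L (T : MonoidAlgebra ℝ (Wr (Fin k → ℤ))) (ψ : ℤ → Lau k) (n : ℤ) :
    GrpA_L T ψ n = T.coeff.sum fun g a => AddMonoidAlgebra.single
      (shE n (expo (Multiplicative.toAdd g.left))) (a : ℂ) *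
        ψ (n + Multiplicative.toAdd g.right) := by
  induction T using MonoidAlgebra.induction_linear with
  | zero =>
    rw [map_zero]
    simp
  | add y z hy hz =>
    rw [map_add, MonoidAlgebra.coeff_add, Finsupp.sum_add_index' (fun g => by simp)
      (fun g x y => by rw [Complex.ofReal_add, AddMonoidAlgebra.single_add, add_mul]), ← hy, ← hz]
    rfl
  | single g c =>
    rw [GrpA_L_single, MonoidAlgebra.coeff_single, Finsupp.sum_single_index (by simp),
      GGrp_expo_shift]

/-- The representation is the band operator: both sides are additive in `T`; for `T = single g c` use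
`GrpA_L_single`, `sh_single`, `GGrp_expo_shift`. The support condition for sums: state the helper lemma for the sum over
all `b` in an interval containing the support, or for `T.coeff.sum`. -/
theorem L_eq_bop (T : MonoidAlgebra ℝ (Wr (Fin k → ℤ))) (w : ℕ)
    (hw : ∀ g, T.coeff g ≠ 0 → |Multiplicative.toAdd g.right| ≤ w) :
    GrpA_L T = bop w (hT T) := by
  refine LinearMap.ext fun ψ => ?_
  funext n
  rw [WGrp_L, bop_apply]
  unfold hT cT Finsupp.sum
  simp only [map_sum, Finset.sum_mul]
  rw [Finset.sum_comm]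
  refine Finset.sum_congr rfl fun g hg => ?_
  have hg' := hw g (Finsupp.mem_support_iff.1 hg)
  rw [abs_le] at hg'
  rw [Finset.sum_eq_single (n + Multiplicative.toAdd g.right)]
  · rw [if_pos (by ring), sh_single]
  · intro b _ hb
    rw [if_neg, map_zero, zero_mul]
    intro h
    apply hb
    rw [h]
    ring
  · intro h
    exfalso
    apply h
    rw [Finset.mem_Icc]
    constructor <;> linarith [hg'.1, hg'.2]

/-- The moments: `E_rho` for `T ^ n`, `map_pow`, `L_eq_bop`. -/
theorem moment_T (T : MonoidAlgebra ℝ (Wr (Fin k → ℤ))) (w : ℕ)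
    (hw : ∀ g, T.coeff g ≠ 0 → |Multiplicative.toAdd g.right| ≤ w) (n : ℕ) :
    (((T ^ n).coeff 1 : ℝ) : ℂ) = E (bpw w (hT T) n 0 0) := by
  rw [← E_rho _ 0, map_pow]
  have h := L_eq_bop T w hw
  unfold GrpA_L at h
  rw [h]
  rfl

/-- Hermitian symmetry on the torus.

Proof. Both sides are sums over the support of `T`; `g ↦ g⁻¹` is a bijection of the elements with
`g.right = b - a` onto those with `g.right = a - b`, `T.coeff g⁻¹ = T.coeff g`, and
`g⁻¹.left = -(shift by -(g.right)) g.left`, so `shE b (expo g⁻¹.left) = -(shE a (expo g.left))`: the monomials are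
inverse to each other and have conjugate values (`ev_single`: the exponent changes sign, `T` is real). Compare
`ev_inv` in `Pool/Agent/W_b5ab1b_h80/GGrp.lean`. -/
theorem hT_herm (T : MonoidAlgebra ℝ (Wr (Fin k → ℤ))) (hT' : ∀ g, T.coeff g⁻¹ = T.coeff g)
    (θ : ℤ × Fin k → ℝ) (a b : ℤ) : ev θ (hT T b a) = (starRingEnd ℂ) (ev θ (hT T a b)) := by
  have hT2 : WGrp_inv T = T := by
    apply MonoidAlgebra.ext
    ext g
    rw [WGrp_inv_coeff, hT']
  have h := WGrp_herm T θ a b
  rw [hT2] at h
  exact h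

/-- The row sums are bounded: `ev_sh` and `ev_bdd` for the finitely many `cT T m`, `|m| ≤ w`. -/
theorem hT_bdd (T : MonoidAlgebra ℝ (Wr (Fin k → ℤ))) (w : ℕ) :
    ∃ R : ℝ, ∀ (θ : ℤ × Fin k → ℝ) (a : ℤ),
      ∑ b ∈ Finset.Icc (a - w) (a + w), ‖ev θ (hT T a b)‖ ≤ R := by
  choose C hC using fun m : ℤ => ev_bdd (cT T m)
  refine ⟨∑ m ∈ Finset.Icc (-(w : ℤ)) w, C m, fun θ a => ?_⟩
  have h1 : ∑ m ∈ Finset.Icc (-(w : ℤ)) w, C m =
      ∑ b ∈ Finset.Icc (a - w) (a + w), C (b - a) := by
    refine Finset.sum_nbij' (fun m => a + m) (fun b => b - a) ?_ ?_ ?_ ?_ ?_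
    · intro m hm
      rw [Finset.mem_Icc] at hm ⊢
      omega
    · intro b hb
      rw [Finset.mem_Icc] at hb ⊢
      omega
    · intro m _
      ring
    · intro b _
      ring
    · intro m _
      rw [add_sub_cancel_left]
  rw [h1]
  refine Finset.sum_le_sum fun b _ => ?_
  unfold hT
  rw [ev_sh]
  exact hC (b - a) _

/-- A common range: `exists_within` for the finitely many `cT T m`, `|m| ≤ w`, the others are `0`. -/
theorem cT_within (T : MonoidAlgebra ℝ (Wr (Fin k → ℤ))) :
    ∃ r : ℕ, ∀ m, Within r (cT T m) := by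
  choose r hr using fun m : ℤ => exists_within (cT T m)
  refine ⟨∑ g ∈ T.coeff.support, r (Multiplicative.toAdd g.right), fun m => ?_⟩
  by_cases h : ∃ g, T.coeff g ≠ 0 ∧ Multiplicative.toAdd g.right = m
  · obtain ⟨g, hg, rfl⟩ := h
    refine within_mono (hr _) ?_
    exact Finset.single_le_sum (f := fun g : Wr (Fin k → ℤ) => r (Multiplicative.toAdd g.right))
      (fun _ _ => Nat.zero_le _) (Finsupp.mem_support_iff.2 hg)
  · push Not at h
    rw [cT_zero T m h]
    intro η hη
    simp at hη

end Pool.Agent.Wb5ab1bf
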