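import Pool.Agent.W_b5ab1b_h80.Defs

/-!
# Restricted wreath products `A ≀ G` (helper80)
-/

set_option autoImplicit false

noncomputable section

open MeasureTheory
open Pool.Agent.Wb5ab1b

namespace Pool.Agent.Wb5ab1bf

/-- The automorphisms of the lamp group `⊕_G A`: `g` moves the lamp at `x` to `g * x`. -/
def shiftG (A G : Type) [AddCommGroup A] [Group G] : G →* MulAut (Multiplicative (G →₀ A)) where
  toFun g := AddEquiv.toMultiplicative (Finsupp.domCongr (Equiv.mulLeft g))
  map_one' := by
    ext x : 1
    apply Multiplicative.toAdd.injective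
    apply Finsupp.ext
    intro m
    simp [Finsupp.domCongr]
    rfl
  map_mul' a b := by
    ext x : 1
    apply Multiplicative.toAdd.injective
    apply Finsupp.ext
    intro m
    simp [Finsupp.domCongr]
    rfl

/-- The restricted wreath product `A ≀ G`. -/
abbrev WrG (A G : Type) [AddCommGroup A] [Group G] : Type :=
  Multiplicative (G →₀ A) ⋊[shiftG A G] G

end Pool.Agent.Wb5ab1bf
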