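import Pool.Agent.W_b5ab1bf_h80.XDefs
import Pool.Agent.W_b5ab1b_h80.GenA
import Pool.Agent.W_b5ab1b_h80.GenB

/-!
# Subgroups of `A ≀ G` over cyclic subgroups of `G` (helper80)
-/

set_option autoImplicit false

noncomputable section

open MeasureTheory
open Pool.Agent.Wb5ab1b

namespace Pool.Agent.Wb5ab1bf

/-- `A ≀ G` is torsion-free if `A` and `G` are. Proof: as `torsionFree` in
`Pool/Agent/W_b5ab1b_h80/GenA.lean`. -/
theorem torsionFreeG (A G : Type) [AddCommGroup A] [IsAddTorsionFree A] [Group G]
    (hG : ∀ (g : G) (n : ℕ), n ≠ 0 → g ^ n = 1 → g = 1) (g : WrG A G) (n : ℕ) (hn : n ≠ 0)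
    (hg : g ^ n = 1) : g = 1 := by
  have hr : g.right = 1 := by
    have h1 : (g ^ n).right = g.right ^ n := map_pow SemidirectProduct.rightHom g n
    rw [hg, SemidirectProduct.one_right] at h1
    exact hG g.right n hn h1.symm
  obtain ⟨x, hx⟩ : ∃ x : Multiplicative (G →₀ A), g = SemidirectProduct.inl x := by
    refine ⟨g.left, ?_⟩
    refine SemidirectProduct.ext ?_ ?_
    · rw [SemidirectProduct.left_inl]
    · rw [SemidirectProduct.right_inl, hr]
  rw [hx, ← map_pow] at hg
  have h1 : x ^ n = 1 := by
    apply SemidirectProduct.inl_injective (φ := shiftG A G)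
    rw [hg, map_one]
  have h2 : n • Multiplicative.toAdd x = 0 := h1
  have h3 : Multiplicative.toAdd x = 0 := by
    ext i
    have h4 : n • (Multiplicative.toAdd x) i = 0 := by
      have := congrArg (fun y : G →₀ A => y i) h2
      simpa using this
    exact (nsmul_eq_zero_iff_right hn).1 h4
  rw [hx]
  have h5 : x = 1 := h3
  rw [h5, map_one]

/-- The elements over the cyclic subgroup generated by `c`. -/
def overC (A G : Type) [AddCommGroup A] [Group G] (c : G) : Subgroup (WrG A G) :=
  (Subgroup.zpowers c).comap SemidirectProduct.rightHom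

/-- The translation of the lamps. -/
theorem XEmb_shiftG (A G : Type) [AddCommGroup A] [Group G] (g : G)
    (f : Multiplicative (G →₀ A)) (x : G) :
    (Multiplicative.toAdd (shiftG A G g f)) x = (Multiplicative.toAdd f) (g⁻¹ * x) := rfl

theorem XEmb_shiftAut (A : Type) [AddCommGroup A] (n : Multiplicative ℤ)
    (f : Multiplicative (ℤ →₀ A)) (m : ℤ) :
    (Multiplicative.toAdd (shiftAut A n f)) m =
      (Multiplicative.toAdd f) (-(Multiplicative.toAdd n) + m) := rfl

theorem XEmb_right (A G : Type) [AddCommGroup A] [Group G] (x : overC A G 1) :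
    x.1.right = 1 := by
  have h : x.1.right ∈ Subgroup.zpowers (1 : G) := x.2
  rw [Subgroup.zpowers_one_eq_bot, Subgroup.mem_bot] at h
  exact h

/-- The abelian case: if `c = 1` then the elements over `{1}` form the lamp group, which embeds in `A' ≀ ℤ` with
`A' := G →₀ A`: `x ↦ SemidirectProduct.inl (Multiplicative.ofAdd (Finsupp.single 0 (toAdd x.left)))`. -/
theorem exists_emb_one (A G : Type) [AddCommGroup A] [IsAddTorsionFree A] [Group G] :
    ∃ (A' : Type) (_ : AddCommGroup A') (_ : IsAddTorsionFree A') (φ : overC A G 1 →* Wr A'),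
      Function.Injective φ := by
  refine ⟨G →₀ A, inferInstance, inferInstance, MonoidHom.mk' (fun x =>
    (SemidirectProduct.inl (Multiplicative.ofAdd
      (Finsupp.single 0 (Multiplicative.toAdd x.1.left))) : Wr (G →₀ A))) ?_, ?_⟩
  · intro x y
    rw [← map_mul]
    congr 1
    have h1 : (x * y).1.left = x.1.left * y.1.left := by
      show x.1.left * (shiftG A G x.1.right) y.1.left = _
      rw [XEmb_right, map_one]
      rfl
    rw [h1, toAdd_mul, Finsupp.single_add, ofAdd_add]
  · intro x y hxy
    have h1 : (SemidirectProduct.inl (Multiplicative.ofAdd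
      (Finsupp.single 0 (Multiplicative.toAdd x.1.left))) : Wr (G →₀ A)) =
      SemidirectProduct.inl (Multiplicative.ofAdd
      (Finsupp.single 0 (Multiplicative.toAdd y.1.left))) := hxy
    have h2 := Multiplicative.ofAdd.injective (SemidirectProduct.inl_injective h1)
    have h3 := Multiplicative.toAdd.injective (Finsupp.single_injective (0 : ℤ) h2)
    apply Subtype.ext
    refine SemidirectProduct.ext h3 ?_
    rw [XEmb_right, XEmb_right]

/-- The cosets of the cyclic subgroup. -/
abbrev XEmb_I (G : Type) [Group G] (c : G) : Type :=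
  Quotient (QuotientGroup.rightRel (Subgroup.zpowers c))

theorem XEmb_bij (G : Type) [Group G] (c : G) (hc : ∀ n : ℤ, c ^ n = 1 → n = 0) :
    Function.Bijective (fun p : ℤ × XEmb_I G c => c ^ p.1 * p.2.out) := by
  constructor
  · rintro ⟨n, i⟩ ⟨m, j⟩ h
    have h1 : c ^ n * i.out = c ^ m * j.out := h
    have h2 : i = j := by
      rw [← i.out_eq, ← j.out_eq]
      refine Quotient.sound ?_
      refine QuotientGroup.rightRel_apply.2 ?_
      have h3 : j.out * i.out⁻¹ = c ^ (-m + n) := by
        rw [zpow_add, zpow_neg, mul_inv_eq_iff_eq_mul, mul_assoc, h1, inv_mul_cancel_left]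
      rw [h3]
      exact Subgroup.zpow_mem_zpowers c _
    subst h2
    have h3 : c ^ n = c ^ m := mul_right_cancel h1
    have h4 : n - m = 0 := hc _ (by rw [zpow_sub, h3, mul_inv_cancel])
    have h5 : n = m := by omega
    rw [h5]
  · intro g
    have h1 : (QuotientGroup.rightRel (Subgroup.zpowers c)).r
        (Quotient.mk (QuotientGroup.rightRel (Subgroup.zpowers c)) g).out g :=
      Quotient.mk_out (s := QuotientGroup.rightRel (Subgroup.zpowers c)) g
    have h2 := QuotientGroup.rightRel_apply.1 h1
    obtain ⟨n, hn⟩ := Subgroup.mem_zpowers_iff.1 h2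
    refine ⟨(n, Quotient.mk (QuotientGroup.rightRel (Subgroup.zpowers c)) g), ?_⟩
    show c ^ n * _ = g
    rw [hn, inv_mul_cancel_right]

/-- The group as a product. -/
def XEmb_e (G : Type) [Group G] (c : G) (hc : ∀ n : ℤ, c ^ n = 1 → n = 0) :
    ℤ × XEmb_I G c ≃ G := Equiv.ofBijective _ (XEmb_bij G c hc)

theorem XEmb_e_apply (G : Type) [Group G] (c : G) (hc : ∀ n : ℤ, c ^ n = 1 → n = 0)
    (n : ℤ) (i : XEmb_I G c) : XEmb_e G c hc (n, i) = c ^ n * i.out := rfl

/-- The lamp group as a direct sum over the integers. -/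
def XEmb_L (A G : Type) [AddCommGroup A] [Group G] (c : G) (hc : ∀ n : ℤ, c ^ n = 1 → n = 0) :
    (G →₀ A) ≃+ (ℤ →₀ (XEmb_I G c →₀ A)) :=
  (Finsupp.domCongr (XEmb_e G c hc).symm).trans Finsupp.curryAddEquiv

theorem XEmb_L_apply (A G : Type) [AddCommGroup A] [Group G] (c : G)
    (hc : ∀ n : ℤ, c ^ n = 1 → n = 0) (f : G →₀ A) (n : ℤ) (i : XEmb_I G c) :
    XEmb_L A G c hc f n i = f (c ^ n * i.out) := rfl

theorem XEmb_mem (A G : Type) [AddCommGroup A] [Group G] (c : G) (x : overC A G c) :
    ∃ n : ℤ, c ^ n = x.1.right := Subgroup.mem_zpowers_iff.1 x.2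

/-- The exponent of an element over the cyclic subgroup. -/
def XEmb_n (A G : Type) [AddCommGroup A] [Group G] (c : G) (x : overC A G c) : ℤ :=
  (XEmb_mem A G c x).choose

theorem XEmb_n_spec (A G : Type) [AddCommGroup A] [Group G] (c : G) (x : overC A G c) :
    c ^ XEmb_n A G c x = x.1.right := (XEmb_mem A G c x).choose_spec

/-- The cyclic case. If `c` has infinite order then `G` is, as a set with the left action of `⟨c⟩`, isomorphic to
`ℤ × I`, where `I` is the set of right cosets `⟨c⟩ x`: choose representatives `r i`, `(n, i) ↦ c ^ n * r i`. So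
`G →₀ A ≃ ℤ →₀ (I →₀ A)` (`Finsupp.finsuppProdEquiv`, `Finsupp.domCongr`), compatible with the translation by `c` on
the left and the shift of `ℤ` on the right. With `A' := I →₀ A` the map `x ↦ (image of x.left, n)` for
`x.right = c ^ n` (`n` is unique) is an injective homomorphism into `Wr A'` (`SemidirectProduct` multiplication:
`(x * y).left = x.left * (shiftG x.right) y.left`). -/
theorem exists_emb_inf (A G : Type) [AddCommGroup A] [IsAddTorsionFree A] [Group G] (c : G)
    (hc : ∀ n : ℤ, c ^ n = 1 → n = 0) :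
    ∃ (A' : Type) (_ : AddCommGroup A') (_ : IsAddTorsionFree A') (φ : overC A G c →* Wr A'),
      Function.Injective φ := by
  have huniq : ∀ n m : ℤ, c ^ n = c ^ m → n = m := by
    intro n m h
    have h4 : n - m = 0 := hc _ (by rw [zpow_sub, h, mul_inv_cancel])
    omega
  have hnmul : ∀ x y : overC A G c, XEmb_n A G c (x * y) = XEmb_n A G c x + XEmb_n A G c y := by
    intro x y
    apply huniq
    rw [XEmb_n_spec, zpow_add, XEmb_n_spec, XEmb_n_spec]
    rfl
  refine ⟨XEmb_I G c →₀ A, inferInstance, inferInstance, MonoidHom.mk' (fun x =>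
    (⟨Multiplicative.ofAdd (XEmb_L A G c hc (Multiplicative.toAdd x.1.left)),
      Multiplicative.ofAdd (XEmb_n A G c x)⟩ : Wr (XEmb_I G c →₀ A))) ?_, ?_⟩
  · intro x y
    refine SemidirectProduct.ext ?_ ?_
    · apply Multiplicative.toAdd.injective
      refine Finsupp.ext fun m => Finsupp.ext fun i => ?_
      show XEmb_L A G c hc (Multiplicative.toAdd (x * y).1.left) m i =
        (XEmb_L A G c hc (Multiplicative.toAdd x.1.left) +
          Multiplicative.toAdd (shiftAut (XEmb_I G c →₀ A) (Multiplicative.ofAdd (XEmb_n A G c x))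
            (Multiplicative.ofAdd (XEmb_L A G c hc (Multiplicative.toAdd y.1.left))))) m i
      rw [Finsupp.add_apply, Finsupp.add_apply, XEmb_shiftAut, XEmb_L_apply, XEmb_L_apply]
      show (Multiplicative.toAdd x.1.left +
        Multiplicative.toAdd (shiftG A G x.1.right y.1.left)) (c ^ m * i.out) =
        (Multiplicative.toAdd x.1.left) (c ^ m * i.out) +
          XEmb_L A G c hc (Multiplicative.toAdd y.1.left) (-XEmb_n A G c x + m) i
      rw [Finsupp.add_apply, XEmb_shiftG, XEmb_L_apply, ← XEmb_n_spec, zpow_add, zpow_neg,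
        mul_assoc]
    · show Multiplicative.ofAdd (XEmb_n A G c (x * y)) =
        Multiplicative.ofAdd (XEmb_n A G c x) * Multiplicative.ofAdd (XEmb_n A G c y)
      rw [hnmul, ofAdd_add]
  · intro x y hxy
    have h1 : Multiplicative.ofAdd (XEmb_L A G c hc (Multiplicative.toAdd x.1.left)) =
        Multiplicative.ofAdd (XEmb_L A G c hc (Multiplicative.toAdd y.1.left)) :=
      congrArg (fun z : Wr (XEmb_I G c →₀ A) => z.left) hxy
    have h2 : Multiplicative.ofAdd (XEmb_n A G c x) = Multiplicative.ofAdd (XEmb_n A G c y) :=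
      congrArg (fun z : Wr (XEmb_I G c →₀ A) => z.right) hxy
    apply Subtype.ext
    refine SemidirectProduct.ext ?_ ?_
    · exact Multiplicative.toAdd.injective
        ((XEmb_L A G c hc).injective (Multiplicative.ofAdd.injective h1))
    · rw [← XEmb_n_spec, ← XEmb_n_spec, Multiplicative.ofAdd.injective h2]

end Pool.Agent.Wb5ab1bf
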