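import Pool.Agent.W_b5ab1bf_h80.ZMain
import Pool.Agent.W_b5ab1bf_h80.WGrp
import Pool.Agent.W_b5ab1b_h80.GFinal

/-!
# All self-adjoint elements of `ℝ[A ≀ ℤ]` (helper80)
-/

set_option autoImplicit false

noncomputable section

open scoped Polynomial
open Pool.Agent.Wb5ab1b MeasureTheory

namespace Pool.Agent.Wb5ab1bf

/-- The case of `A = ℤ^k`.

Proof. Let `w` be the maximum of `|g.right|` on the support of `T`. If `w ≤ 1` this is `final_k`. Otherwise the data
`(w, cT T, r)` form a `Bd k` (`cT_zero`, `cT_ne_zero` for `g` with `|g.right| = w` and for `g⁻¹`, `cT_within`) which is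
Hermitian (`hT_herm`) and bounded (`hT_bdd`); `main_bd` and `moment_T`. -/
theorem final_kk {k : ℕ} (T : MonoidAlgebra ℝ (Wr (Fin k → ℤ))) (hT' : ∀ g, T.coeff g⁻¹ = T.coeff g) :
    ∃ (μ : Measure ℝ) (M : ℝ), IsProbabilityMeasure μ ∧ μ (Set.Icc (-M) M)ᶜ = 0 ∧
      (∀ n : ℕ, ∫ x, x ^ n ∂μ = (T ^ n).coeff 1) ∧
      ∃ F : Finset ℝ, (μ.restrict (F : Set ℝ)ᶜ).AbsolutelyContinuous volume := by
  classical
  set w : ℕ := T.coeff.support.sup (fun g => (Multiplicative.toAdd g.right).natAbs) with hwdef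
  have hw : ∀ g, T.coeff g ≠ 0 → |Multiplicative.toAdd g.right| ≤ (w : ℤ) := by
    intro g hg
    have h1 : (Multiplicative.toAdd g.right).natAbs ≤ w :=
      Finset.le_sup (f := fun g : Wr (Fin k → ℤ) => (Multiplicative.toAdd g.right).natAbs)
        (Finsupp.mem_support_iff.2 hg)
    rw [Int.abs_eq_natAbs]
    exact_mod_cast h1
  by_cases hw1 : w ≤ 1
  · exact final_k T hT' fun g hg => (hw g hg).trans (by exact_mod_cast hw1)
  · have hne : T.coeff.support.Nonempty := by
      rw [Finset.nonempty_iff_ne_empty]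
      intro h0
      apply hw1
      rw [hwdef, h0, Finset.sup_empty]
      exact Nat.zero_le _
    obtain ⟨g₀, hg₀, hg₀w⟩ := Finset.exists_mem_eq_sup T.coeff.support hne
      (fun g => (Multiplicative.toAdd g.right).natAbs)
    have hg1 : T.coeff g₀ ≠ 0 := Finsupp.mem_support_iff.1 hg₀
    have hg2 : T.coeff g₀⁻¹ ≠ 0 := by rw [hT']; exact hg1
    have hinv : Multiplicative.toAdd (g₀⁻¹).right = -Multiplicative.toAdd g₀.right := by
      rw [SemidirectProduct.inv_right, toAdd_inv]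
    have habs : (Multiplicative.toAdd g₀.right).natAbs = w := by
      rw [hwdef, hg₀w]
    have hc1 := cT_ne_zero T g₀ hg1
    have hc2 := cT_ne_zero T g₀⁻¹ hg2
    rw [hinv] at hc2
    have htb : cT T (w : ℤ) ≠ 0 ∧ cT T (-(w : ℤ)) ≠ 0 := by
      rcases Int.natAbs_eq (Multiplicative.toAdd g₀.right) with h | h
      · rw [habs] at h
        rw [h] at hc1 hc2
        exact ⟨hc1, hc2⟩
      · rw [habs] at h
        rw [h] at hc1 hc2
        rw [neg_neg] at hc2
        exact ⟨hc2, hc1⟩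
    obtain ⟨r, hr⟩ := cT_within T
    obtain ⟨R, hR⟩ := hT_bdd T w
    let B : Bd k :=
      { w := w
        w_pos := by omega
        c := cT T
        c_zero := fun m hm => cT_zero T m fun g hg h => by
          have := hw g hg
          rw [h] at this
          omega
        c_top := htb.1
        c_bot := htb.2
        r := r
        within := hr }
    have hH : B.Herm := fun θ a b => hT_herm T hT' θ a b
    have hB : B.Bdd R := fun θ a => hR θ a
    obtain ⟨μ, hμ1, hμM, hμ, F, hF⟩ := main_bd B hH hB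
    refine ⟨μ, R, hμ1, hμM, fun n => ?_, F, hF⟩
    have h1 : ((∫ x, x ^ n ∂μ : ℝ) : ℂ) = E (bpw w (hT T) n 0 0) := hμ n
    rw [← moment_T T w hw n] at h1
    exact_mod_cast h1

/-- **The theorem.** Proof: as for `final_g` in `Pool/Agent/W_b5ab1b_h80/GFinal.lean`, with `final_kk` in place of
`final_k` (`exists_model_g`, transport of the moments and of the symmetry along the injective homomorphism
`GenB_wr φ`, uniqueness by `moments_unique`). -/
theorem final_all (A : Type) [AddCommGroup A] [IsAddTorsionFree A] (T : MonoidAlgebra ℝ (Wr A))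
    (hT' : ∀ g, T.coeff g⁻¹ = T.coeff g) :
    ∃ μ : Measure ℝ, IsSpectralMeasure T μ ∧
      (∀ ν : Measure ℝ, IsSpectralMeasure T ν → ν = μ) ∧
      ∃ F : Finset ℝ, (μ.restrict (F : Set ℝ)ᶜ).AbsolutelyContinuous volume := by
  obtain ⟨k, φ, T0, hφ, rfl⟩ := exists_model_g A T
  have hinj := GenB_wr_injective φ hφ
  have hco : ∀ g, (MonoidAlgebra.mapDomain (GenB_wr φ) T0).coeff (GenB_wr φ g) = T0.coeff g :=
    fun g => Finsupp.mapDomain_apply hinj _ _
  have hT0 : ∀ g, T0.coeff g⁻¹ = T0.coeff g := by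
    intro g
    rw [← hco, ← hco, map_inv]
    exact hT' _
  obtain ⟨μ, M, hμ1, hμM, hμ, F, hF⟩ := final_kk T0 hT0
  have hmom : ∀ n : ℕ, ∫ x, x ^ n ∂μ = ((MonoidAlgebra.mapDomain (GenB_wr φ) T0) ^ n).coeff 1 := by
    intro n
    rw [hμ n]
    have h1 : MonoidAlgebra.mapDomain (GenB_wr φ) T0 ^ n =
        MonoidAlgebra.mapDomain (GenB_wr φ) (T0 ^ n) :=
      (map_pow (MonoidAlgebra.mapDomainRingHom ℝ (GenB_wr φ)) T0 n).symm
    rw [h1, show (1 : Wr A) = GenB_wr φ 1 from (map_one _).symm]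
    exact (Finsupp.mapDomain_apply hinj _ _).symm
  refine ⟨μ, ⟨hμ1, ⟨M, hμM⟩, hmom⟩, ?_, F, hF⟩
  intro ν ⟨hν1, ⟨M', hνM⟩, hν⟩
  have hsub : ∀ {a b : ℝ} {ρ : Measure ℝ}, a ≤ b → ρ (Set.Icc (-a) a)ᶜ = 0 →
      ρ (Set.Icc (-b) b)ᶜ = 0 := by
    intro a b ρ hab h0
    apply measure_mono_null _ h0
    apply Set.compl_subset_compl.mpr
    exact Set.Icc_subset_Icc (by linarith) hab
  exact moments_unique ν μ (max M M') (hsub (le_max_right _ _) hνM) (hsub (le_max_left _ _) hμM)
    fun n => (hν n).trans (hmom n).symm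

end Pool.Agent.Wb5ab1bf
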