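import Pool.Agent.W_b5ab1bf_h80.XEmb
import Pool.Agent.W_b5ab1bf_h80.ZFinal

/-!
# Groups which embed in `A ≀ ℤ`, elements of `ℝ[A ≀ G]` over cyclic subgroups (helper80)
-/

set_option autoImplicit false

noncomputable section

open MeasureTheory
open Pool.Agent.Wb5ab1b

namespace Pool.Agent.Wb5ab1bf

/-- Injective homomorphisms do not change the coefficients of the powers at the identity. -/
theorem XSub_pow {Γ Λ : Type} [Group Γ] [Group Λ] (φ : Γ →* Λ) (hφ : Function.Injective φ)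
    (T : MonoidAlgebra ℝ Γ) (n : ℕ) :
    ((MonoidAlgebra.mapDomain φ T) ^ n).coeff 1 = (T ^ n).coeff 1 := by
  have h1 : MonoidAlgebra.mapDomain φ T ^ n = MonoidAlgebra.mapDomain φ (T ^ n) :=
    (map_pow (MonoidAlgebra.mapDomainRingHom ℝ φ) T n).symm
  rw [h1, show (1 : Λ) = φ 1 from (map_one φ).symm]
  exact Finsupp.mapDomain_apply hφ _ _

/-- The theorem for an element of a group ring which is supported in a subgroup that embeds in `A ≀ ℤ`.

Proof. `T = mapDomain H.subtype T₁` with `T₁ : MonoidAlgebra ℝ H` (`MonoidAlgebra.comapDomain`-like, or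
`Finsupp.subtypeDomain` of the coefficients), `T₂ := mapDomain φ T₁ : MonoidAlgebra ℝ (Wr A)`. The coefficients of the
powers at `1` coincide (`MonoidAlgebra.mapDomainRingHom`, injectivity: see `moment_map` in
`Pool/Agent/W_b5ab1b_h80/GenB.lean` and the proof of `final_g` in `Pool/Agent/W_b5ab1b_h80/GFinal.lean`), and `T₂` is
symmetric. So `IsSpectralMeasure T μ ↔ IsSpectralMeasure T₂ μ`; `final_all` for `T₂`. -/
theorem final_emb {Γ : Type} [Group Γ] (H : Subgroup Γ) (A : Type) [AddCommGroup A]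
    [IsAddTorsionFree A] (φ : H →* Wr A) (hφ : Function.Injective φ) (T : MonoidAlgebra ℝ Γ)
    (hT : ∀ g, T.coeff g⁻¹ = T.coeff g) (hs : ∀ g, T.coeff g ≠ 0 → g ∈ H) :
    ∃ μ : Measure ℝ, IsSpectralMeasure T μ ∧
      (∀ ν : Measure ℝ, IsSpectralMeasure T ν → ν = μ) ∧
      ∃ F : Finset ℝ, (μ.restrict (F : Set ℝ)ᶜ).AbsolutelyContinuous volume := by
  classical
  obtain ⟨T₁, hT₁⟩ : ∃ T₁ : MonoidAlgebra ℝ H, MonoidAlgebra.mapDomain H.subtype T₁ = T := by
    refine ⟨MonoidAlgebra.comapDomain H.subtype H.subtype_injective T, ?_⟩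
    rw [MonoidAlgebra.mapDomain_comapDomain]
    intro g hg
    exact ⟨⟨g, hs g (Finsupp.mem_support_iff.1 hg)⟩, rfl⟩
  have hco1 : ∀ h : H, T.coeff (h : Γ) = T₁.coeff h := by
    intro h
    rw [← hT₁]
    exact Finsupp.mapDomain_apply H.subtype_injective _ _
  have hco2 : ∀ h : H, (MonoidAlgebra.mapDomain φ T₁).coeff (φ h) = T₁.coeff h := fun h =>
    Finsupp.mapDomain_apply hφ _ _
  have hsym : ∀ g, (MonoidAlgebra.mapDomain φ T₁).coeff g⁻¹ =
      (MonoidAlgebra.mapDomain φ T₁).coeff g := by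
    intro g
    by_cases hg : g ∈ Set.range φ
    · obtain ⟨h, rfl⟩ := hg
      rw [← map_inv, hco2, hco2, ← hco1, ← hco1]
      exact hT h
    · have hg' : g⁻¹ ∉ Set.range φ := by
        rintro ⟨h, hh⟩
        exact hg ⟨h⁻¹, by rw [map_inv, hh, inv_inv]⟩
      have h1 : (MonoidAlgebra.mapDomain φ T₁).coeff g = 0 :=
        Finsupp.mapDomain_of_notMem_range _ _ hg
      have h2 : (MonoidAlgebra.mapDomain φ T₁).coeff g⁻¹ = 0 :=
        Finsupp.mapDomain_of_notMem_range _ _ hg'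
      rw [h1, h2]
  have hmom : ∀ n : ℕ, ((MonoidAlgebra.mapDomain φ T₁) ^ n).coeff 1 = (T ^ n).coeff 1 := by
    intro n
    rw [XSub_pow φ hφ, ← hT₁, XSub_pow H.subtype H.subtype_injective]
  have hiff : ∀ ν : Measure ℝ, IsSpectralMeasure T ν ↔
      IsSpectralMeasure (MonoidAlgebra.mapDomain φ T₁) ν := by
    intro ν
    unfold IsSpectralMeasure
    simp only [hmom]
  obtain ⟨μ, h1, h2, h3⟩ := final_all A (MonoidAlgebra.mapDomain φ T₁) hsym
  exact ⟨μ, (hiff μ).2 h1, fun ν hν => h2 ν ((hiff ν).1 hν), h3⟩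

/-- Elements of `ℝ[A ≀ G]` over a cyclic subgroup. -/
theorem final_G (A G : Type) [AddCommGroup A] [IsAddTorsionFree A] [Group G]
    (hG : ∀ (g : G) (n : ℕ), n ≠ 0 → g ^ n = 1 → g = 1) (T : MonoidAlgebra ℝ (WrG A G))
    (hT : ∀ g, T.coeff g⁻¹ = T.coeff g) (c : G)
    (hs : ∀ g, T.coeff g ≠ 0 → g.right ∈ Subgroup.zpowers c) :
    ∃ μ : Measure ℝ, IsSpectralMeasure T μ ∧
      (∀ ν : Measure ℝ, IsSpectralMeasure T ν → ν = μ) ∧
      ∃ F : Finset ℝ, (μ.restrict (F : Set ℝ)ᶜ).AbsolutelyContinuous volume := by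
  have key : ∃ (A' : Type) (_ : AddCommGroup A') (_ : IsAddTorsionFree A')
      (φ : overC A G c →* Wr A'), Function.Injective φ := by
    by_cases hc : c = 1
    · subst hc
      exact exists_emb_one A G
    · refine exists_emb_inf A G c fun n hn => ?_
      by_contra hn0
      apply hc
      refine hG c n.natAbs (Int.natAbs_ne_zero.2 hn0) ?_
      rcases Int.natAbs_eq n with h | h
      · rw [h] at hn
        simpa using hn
      · rw [h] at hn
        simpa using hn
  obtain ⟨A', _, _, φ, hφ⟩ := key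
  exact final_emb (overC A G c) A' φ hφ T hT hs

end Pool.Agent.Wb5ab1bf
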