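import Pool.Agent.W_b5ab1bf_h80.CMem
import Pool.Agent.W_b5ab1bf_h80.VNo
import Pool.Agent.W_b5ab1bf_h80.BK
import Pool.Agent.W_b5ab1bf_h80.BSys

/-!
# Band matrices with Laurent coefficients: the spectral measure (helper80)
-/

set_option autoImplicit false

noncomputable section

open scoped Polynomial
open Pool.Agent.Wb5ab1b MeasureTheory

namespace Pool.Agent.Wb5ab1bf

variable {k : ℕ} (B : Bd k)

/-- **Main theorem for band matrices.** -/
theorem main_bd (hH : B.Herm) {R : ℝ} (hR : B.Bdd R) :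
    ∃ μ : Measure ℝ, IsProbabilityMeasure μ ∧ μ (Set.Icc (-R) R)ᶜ = 0 ∧
      (∀ n : ℕ, ((∫ x, x ^ n ∂μ : ℝ) : ℂ) = E (bpw B.w B.H n 0 0)) ∧
      ∃ F : Finset ℝ, (μ.restrict (F : Set ℝ)ᶜ).AbsolutelyContinuous volume := by
  classical
  obtain ⟨K, hK, hK0, ⟨D⟩⟩ := exists_kfield k
  obtain ⟨S, hS⟩ := exists_sys B D
  have hRM : R < R + 1 := by linarith
  obtain ⟨κ, κ', hκ, hκ', B₀, h⟩ := alg_main B D S hS (R + 1)
    (fun j => KI_band B hH hR hRM.le j) (fun x hx => fn_mem B D hH hR hRM S hS x hx)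
  choose m hm using fun c b z => exists_meas B hH hR c b z
  obtain ⟨F₁, hF₁⟩ := exists_exc κ hκ
  obtain ⟨F₂, hF₂⟩ := exists_exc κ' hκ'
  obtain ⟨h1, h2, h3⟩ := marg_prob B (hm 0 0 0)
  refine ⟨(m 0 0 0).map Prod.snd, h1, h2, h3, F₁ ∪ F₂, ?_⟩
  haveI := h1
  refine ac_of_compact _ _ fun N hN hN0 hNF => ?_
  rw [Measure.map_apply measurable_snd hN.measurableSet]
  refine no_mass B m hm κ κ' B₀ N hN hN0 ?_ ?_ h
  · intro x hx
    refine hF₁ x fun hx' => ?_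
    exact Set.disjoint_left.1 hNF hx (by simp [hx'])
  · intro x hx
    refine hF₂ x fun hx' => ?_
    exact Set.disjoint_left.1 hNF hx (by simp [hx'])

end Pool.Agent.Wb5ab1bf
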